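import Pool.Agent.PT2.StmtsP
import Pool.Agent.KUR.Lib

set_option autoImplicit false

namespace Pool.Agent.PT2

open Pool.Agent.ACC Pool.Agent.KUR

theorem add_proof : Stmt_ADD := by
  intro V Y Z c D I hD hI hfin h3 hZf hZc hdis x hx
  by_cases hxI : x ∈ I
  · have hcmp : cmp Y (D ∪ I) x = I := by
      ext y
      constructor
      · intro hy
        refine Rch.closed hy I hxI ?_
        intro u hu v hv huv
        by_contra hvI
        have h1 : v ∈ nbr Y I := ⟨hvI, u, hu, huv⟩
        rcases hv with hv | hv
        · exact Set.disjoint_left.1 hdis h1 hv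
        · exact hvI hv
      · intro hy
        exact (hI.rch hxI hy).mono le_rfl Set.subset_union_right
    rw [hcmp]
    exact ⟨⟨hfin, h3⟩, hZf, hZc⟩
  · have hxD : x ∈ D := hx.resolve_right hxI
    have hcmp : cmp Y (D ∪ I) x = cmp Y D x := by
      ext y
      constructor
      · intro hy
        have := Rch.closed hy {z | z ∉ I ∧ Rch Y D x z} ⟨hxI, Rch.refl Y hxD⟩ (by
          rintro u ⟨huI, hu⟩ v hv huv
          by_cases hvI : v ∈ I
          · exact absurd (hu.right) (Set.disjoint_left.1 hdis ⟨huI, v, hvI, huv.symm⟩)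
          · have hvD : v ∈ D := hv.resolve_right hvI
            exact ⟨hvI, hu.trans (Rch.of_adj hu.right hvD huv)⟩)
        exact this.2
      · intro hy
        exact Rch.mono hy le_rfl Set.subset_union_left
    rw [hcmp]
    exact hD x hxD

end Pool.Agent.PT2
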