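import Pool.Agent.PT2.StmtsR
import Pool.Agent.ACC.Lib

set_option autoImplicit false

namespace Pool.Agent.PT2

open Pool.Agent.ACC Pool.Agent.KUR

theorem ap2_proof : Stmt_AP2 := by
  intro hNFE hEFV hTRA hRIG hCHN hUNI hLIM hVOQ hVOR hMCK hLFK hPOW hKUR hTHA V X G k0 w c hX
    hl hG hF hw hgood
  have hE := hNFE V X G hX hG (hEFV V X G hl hG hF) k0
  obtain ⟨RA, hRA⟩ := hTRA V X G _ _ hX hl hG hF hE
  obtain ⟨RR, hRR⟩ := hRIG V X G _ _ hX hl hG hF hE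
  obtain ⟨cc, hcc⟩ := hCHN V X G _ _ hX hl hG hF hE
  obtain ⟨R, h1, h2, h3⟩ : ∃ R : ℕ, RA ≤ R ∧ RR ≤ R ∧ cc ≤ R :=
    ⟨max (max RA RR) cc, (le_max_left _ _).trans (le_max_left _ _),
      (le_max_right _ _).trans (le_max_left _ _), le_max_right _ _⟩
  obtain ⟨hcon, hlf, G', hG', hF'⟩ := hRR w hw R h2
  obtain ⟨P, S, hP, h33, h5⟩ := hLIM V X (ZZ X w) c hX hl
    (hUNI V X G k0 w c hX hl hG hF hw hgood)
  have hZ : (ZZ X w).Nonempty := by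
    obtain ⟨z⟩ := hcon.nonempty
    exact ⟨z.1, z.2⟩
  obtain ⟨V', Gp, q, C, hGc, hq, hdens, hm33, hm5⟩ := hVOQ V X P S (ZZ X w) c cc R hX hZ hP h3
    hcon (hcc w hw)
  obtain ⟨R1, lam, Y, K, hR1, hKc, hKd, hKa, hsp⟩ := hVOR (ZZ X w) V' (rips X (ZZ X w) R) Gp q C
    hcon hGc hq hdens
  have hM := hMCK (ZZ X w) (V' ⊕ ZZ X w) Y (leafG Gp q) K hKc hKd hKa
  have hL := hLFK (ZZ X w) V' Gp q
  have hY33 : ¬ Has33 Y := fun h => h33 (hm33 (hL.1 (hM.1 h)))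
  have hY5 : ¬ Has5 Y := fun h => h5 (hm5 (hL.2 (hM.2 h)))
  obtain ⟨hpc, hpl, hpa, hpA⟩ := hPOW (ZZ X w) (rips X (ZZ X w) R) G' R1 hcon hlf hG' hR1
  have hYl : LocFin Y := fun x => (hpl x).subset (fun y hy => hsp.1 hy)
  obtain ⟨Ro, hRP, hpl'⟩ := hKUR (ZZ X w) Y hYl hY33 hY5
  subst hRP
  have hAcc := hTHA (ZZ X w) (pow (rips X (ZZ X w) R) R1) G' Ro lam hpc hpl hpa hF' hsp hpl'
  exact hRA w hw R h1 (hpA hAcc)

end Pool.Agent.PT2
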