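import Pool.Agent.PT2.StmtsP

/-!
MP_851278_al, squad APA, module APC: the application follows from the core theorem and the
lifting lemma.
-/

set_option autoImplicit false

namespace Pool.Agent.PT2

open Pool.Agent.ACC Pool.Agent.KUR

theorem apc_proof (h1 : Stmt_LIN) (h2 : Stmt_ZUT) (h3 : Stmt_MXD) (h4 : Stmt_ZIN)
    (h5 : Stmt_GDP) (h6 : Stmt_CNP) (h7 : Stmt_NKR) : Stmt_APC := by
  intro hcore hlft V X Y G lam t hX hLF hA hV hY hfree
  have hS : Sett X Y G lam := ⟨hX, hLF, hA, hV, hY⟩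
  obtain ⟨C, hC⟩ := h1 V X Y G lam hS
  have hsmall : ∀ I : Set V, (nbr Y I).Finite → (nbr Y I).ncard ≤ 3 → I ∈ Small X (C * 3) := by
    intro I hf hc
    have := hC I (nbr Y I) hf (fun x hx y hy hxy => Or.inr ⟨hy, x, hx, hxy⟩)
    exact ⟨this.1, this.2.trans (Nat.mul_le_mul_left C hc)⟩
  obtain ⟨c0, hc0⟩ := h2 V X G hX hLF hA hV (C * 3)
  have ht : 1 ≤ t := by
    rcases Nat.eq_zero_or_pos t with h | h
    · exfalso
      subst h
      exact hfree ⟨fun i => i.elim0, fun i => i.elim0, fun i => i.elim0, fun i => i.elim0⟩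
    · exact h
  refine ⟨C * 3, fun w hw hnacc => ?_⟩
  have hinf := h4 V X G hX hLF hA hV (C * 3) w hw hnacc
  obtain ⟨D, hD⟩ := h3 V Y (ZZ X w) c0
  have ctx : Ctx X Y G lam (C * 3) c0 w D := ⟨hS, hsmall, hw, hinf, hc0 w hw hinf, hD⟩
  obtain ⟨-, c1, hgood⟩ := h5 V X Y G lam (C * 3) c0 w D ctx
  obtain ⟨c3, hcnp⟩ := h6 V X Y G lam (C * 3) c0 w D ctx hnacc
  refine ⟨max c1 c3, fun r => ?_⟩
  obtain ⟨M, hM⟩ := hcore t (c1 * r)
  obtain ⟨A, m, hchain, hmax, hz⟩ := hcnp M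
  rcases hM V (ptor Y D) Dᶜ {x | ∃ z ∈ ZZ X w, X.dist z x ≤ c3} A m hchain hmax hz with
    hrob | ⟨x, ⟨hxS, z, hzZ, hzx⟩, hnk⟩
  · exact absurd hfree (hlft V Y D t ht (fun x hx => (hD.1 x hx).1) hrob)
  · refine ⟨ptor Y D, Dᶜ, x, ⟨hgood.sup, ?_, ?_, ?_⟩, hxS, ⟨z, hzZ, hzx.trans (le_max_right _ _)⟩,
      ?_⟩
    · intro a b hab
      exact (hgood.len a b hab).trans (le_max_left _ _)
    · intro a ha
      obtain ⟨b, hb, hab⟩ := hgood.cov a ha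
      exact ⟨b, hb, hab.trans (le_max_left _ _)⟩
    · intro a ha b hb
      obtain ⟨p, hp⟩ := hgood.spn a ha b hb
      exact ⟨p, hp.trans (Nat.mul_le_mul_right _ (le_max_left _ _))⟩
    · refine h7 V (ptor Y D) Dᶜ {y | X.dist x y ≤ r}
        {y | ∃ w : (ptor Y D).Walk x y, w.length ≤ c1 * r} hgood.sup ?_ hnk
      rintro y ⟨hy, hyS⟩
      obtain ⟨p, hp⟩ := hgood.spn x hxS y hyS
      exact ⟨p, hp.trans (Nat.mul_le_mul_left _ hy)⟩

end Pool.Agent.PT2
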