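import Pool.Agent.PT2.StmtsR
import Pool.Agent.ACC.Lib

set_option autoImplicit false

namespace Pool.Agent.PT2

open Pool.Agent.ACC Pool.Agent.KUR

theorem asb_proof : Stmt_ASB := by
  intro hNFE hEFV hTOR hTOB hAPA hAPB2 V X G hX hlf hG hvf hY
  obtain ⟨lam, t, Y, hsp, hmf⟩ := hY
  obtain ⟨k0, hk0⟩ := hAPA V X Y G lam t hX hlf hG hvf hsp hmf
  have hE := hNFE V X G hX hG (hEFV V X G hlf hG hvf) k0
  refine hTOB V X G (EE X k0) k0 hX hG hE fun w hw => ?_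
  by_cases h : Acc (torso X w)
  · exact hTOR V X G (EE X k0) w k0 hE hw h
  · obtain ⟨c, hc⟩ := hk0 w hw h
    exact hAPB2 V X G k0 w c hX hlf hG hvf hw hc

end Pool.Agent.PT2
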