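import Pool.Agent.PT2.Stmts

set_option autoImplicit false

namespace Pool.Agent.PT2

open Pool.Agent.ACC Pool.Agent.KUR

theorem att_proof (h1 : Stmt_OFT) : Stmt_ATT := by
  intro V P S μ W s T hst hμ hWS hcon j x hx
  obtain ⟨hoff, -⟩ := h1 V P μ W s T hst
  have hx' : x ∈ W j := hx.1
  obtain ⟨u, v, hu, hv, _, _, huv, _⟩ := (hcon x (hWS j hx') (s j ⟨0, hμ⟩)
    (hWS j (hst.sW j ⟨0, hμ⟩).1)).exit {z | Rch P (Off W T j) x z} (Rch.refl P hx)
    (fun h => (Rch.right h).2.2 ⟨0, hμ⟩ (hst.lo j ⟨0, hμ⟩))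
  rcases hoff j u v (Rch.right hu) huv with h | ⟨i, hi⟩
  · exact absurd (Rch.trans hu (Rch.of_adj (Rch.right hu) h huv)) hv
  · refine ⟨i, v, hi, ?_⟩
    exact (Rch.mono hu le_rfl Set.subset_union_left).trans
      (Rch.of_adj (Or.inl (Rch.right hu)) (Or.inr rfl) huv)

end Pool.Agent.PT2
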