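import Pool.Agent.PT2.Stmts

set_option autoImplicit false

namespace Pool.Agent.PT2

open Pool.Agent.ACC Pool.Agent.KUR

theorem bal_proof (h1 : Stmt_LOC) : Stmt_BAL := by
  intro V P S A μ W s T q L l i r x y w hL hloc
  induction w generalizing l i r with
  | nil =>
    intro _ _ _ _
    exact ⟨l, i, by omega, by omega, by omega, by omega, hloc⟩
  | @cons a b c hab p ih =>
    intro hi1 hi2 hl hr
    rw [SimpleGraph.Walk.length_cons] at hr
    obtain ⟨l1, i1, e1, e2, e3, e4, hloc1⟩ := h1 V P S A μ W s T q L l i a b hL hloc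
      (by omega) (by omega) (by omega) hab
    obtain ⟨r', rfl⟩ : ∃ r', r = r' + 1 := ⟨r - 1, by omega⟩
    obtain ⟨l', i', f1, f2, f3, f4, hloc'⟩ := ih l1 i1 r' hloc1
      (by omega) (by omega) (by omega) (by omega)
    exact ⟨l', i', by omega, by omega, by omega, by omega, hloc'⟩

end Pool.Agent.PT2
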