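import Pool.Agent.PT2.StmtsP
import Pool.Agent.ACC.LibB

/-!
MP_851278_al, module BLL: uniform bound for balls.
-/

set_option autoImplicit false

namespace Pool.Agent.PT2

open Pool.Agent.ACC Pool.Agent.KUR

namespace BLLAux

variable {V : Type}

theorem dist_le_aux (X : SimpleGraph V) (hX : X.Connected) (g : Equiv.Perm V)
    (hg : ∀ x y, X.Adj x y → X.Adj (g x) (g y)) (x y : V) :
    X.dist (g x) (g y) ≤ X.dist x y := by
  obtain ⟨w, hw⟩ := hX.exists_walk_length_eq_dist x y
  let f : X →g X := ⟨g, fun {a b} h => hg a b h⟩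
  have := SimpleGraph.dist_le (w.map f)
  rw [SimpleGraph.Walk.length_map, hw] at this
  exact this

end BLLAux

open BLLAux in
theorem bll_proof : Stmt_BLL := by
  intro V X G hX hl hG hF r
  classical
  obtain ⟨F, hFin, hF⟩ := hF
  refine ⟨∑ x0 ∈ hFin.toFinset, (ball X x0 r).ncard, ?_⟩
  intro x
  refine ⟨ball_finite hX hl x r, ?_⟩
  obtain ⟨g, hg, x0, hx0, rfl⟩ := hF x
  have hsub : ball X (g x0) r ⊆ g '' ball X x0 r := by
    intro y hy
    refine ⟨g.symm y, ?_, g.apply_symm_apply y⟩
    have hy' : X.dist (g x0) y ≤ r := hy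
    show X.dist x0 (g.symm y) ≤ r
    have h1 := dist_le_aux X hX g.symm (fun a b hab => by
      rw [← hG g hg]
      simpa using hab) (g x0) y
    rw [Equiv.symm_apply_apply] at h1
    exact h1.trans hy'
  calc (ball X (g x0) r).ncard ≤ (g '' ball X x0 r).ncard :=
        Set.ncard_le_ncard hsub ((ball_finite hX hl x0 r).image _)
    _ ≤ (ball X x0 r).ncard := Set.ncard_image_le (ball_finite hX hl x0 r)
    _ ≤ ∑ x0 ∈ hFin.toFinset, (ball X x0 r).ncard :=
        Finset.single_le_sum (f := fun x0 => (ball X x0 r).ncard) (fun _ _ => Nat.zero_le _)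
          (hFin.mem_toFinset.mpr hx0)

end Pool.Agent.PT2
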