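import Pool.Agent.PT2.Stmts

set_option autoImplicit false

namespace Pool.Agent.PT2

open Pool.Agent.ACC Pool.Agent.KUR

namespace BRD_

/-- valid configurations -/
def Vd {t : ℕ} (N : ℕ) (p : Fin t → ℕ) : Prop :=
  Function.Injective p ∧ ∀ b, 1 ≤ p b ∧ p b ≤ N

/-- one move -/
def Mv {t : ℕ} (N : ℕ) (p p' : Fin t → ℕ) : Prop :=
  ∃ (a : Fin t) (m : ℕ), Vd N p ∧ 1 ≤ m ∧ m ≤ N ∧ (m = p a + 1 ∨ p a = m + 1) ∧
    (∀ b, p b ≠ m) ∧ p' = Function.update p a m

theorem vd_update {t N : ℕ} {p : Fin t → ℕ} (h : Vd N p) {a : Fin t} {m : ℕ} (h1 : 1 ≤ m)
    (h2 : m ≤ N) (hm : ∀ b, p b ≠ m) : Vd N (Function.update p a m) := by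
  refine ⟨?_, ?_⟩
  · intro x y hxy
    by_cases hx : x = a
    · subst hx
      by_cases hy : y = x
      · exact hy.symm
      · rw [Function.update_self, Function.update_of_ne hy] at hxy
        exact absurd hxy.symm (hm y)
    · by_cases hy : y = a
      · subst hy
        rw [Function.update_self, Function.update_of_ne hx] at hxy
        exact absurd hxy (hm x)
      · rw [Function.update_of_ne hx, Function.update_of_ne hy] at hxy
        exact h.1 hxy
  · intro b
    by_cases hb : b = a
    · subst hb
      rw [Function.update_self]
      exact ⟨h1, h2⟩
    · rw [Function.update_of_ne hb]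
      exact h.2 b

theorem mv_symm {t N : ℕ} {p p' : Fin t → ℕ} (h : Mv N p p') : Mv N p' p := by
  obtain ⟨a, m, hv, h1, h2, h3, h4, rfl⟩ := h
  refine ⟨a, p a, vd_update hv h1 h2 h4, (hv.2 a).1, (hv.2 a).2, ?_, ?_, ?_⟩
  · rw [Function.update_self]
    exact h3.symm
  · intro b
    by_cases hb : b = a
    · subst hb
      rw [Function.update_self]
      exact (h4 b).symm
    · rw [Function.update_of_ne hb]
      exact fun h => hb (hv.1 h)
  · rw [Function.update_idem, Function.update_eq_self]

/-- the rank -/
def rk {t : ℕ} (p : Fin t → ℕ) (a : Fin t) : ℕ :=
  (Finset.univ.filter (fun b => p b ≤ p a)).card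

theorem rk_pos {t : ℕ} (p : Fin t → ℕ) (a : Fin t) : 1 ≤ rk p a :=
  Finset.card_pos.mpr ⟨a, by simp⟩

theorem rk_le {t : ℕ} (p : Fin t → ℕ) (a : Fin t) : rk p a ≤ t := by
  refine (Finset.card_le_univ _).trans ?_
  simp

theorem rk_lt {t : ℕ} (p : Fin t → ℕ) {a b : Fin t} (h : p a < p b) : rk p a < rk p b := by
  refine Finset.card_lt_card ?_
  rw [Finset.ssubset_iff_of_subset]
  · exact ⟨b, by simp, by simp [h]⟩
  · intro x hx
    simp only [Finset.mem_filter, Finset.mem_univ, true_and] at hx ⊢
    omega

theorem rk_congr {t : ℕ} {p q : Fin t → ℕ} (h : ∀ x y, p x < p y → q x < q y)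
    (hp : Function.Injective p) (a : Fin t) : rk p a = rk q a := by
  have h1 : ∀ x y, p x < p y ↔ q x < q y := by
    intro x y
    refine ⟨h x y, fun hq => ?_⟩
    rcases lt_trichotomy (p x) (p y) with h2 | h2 | h2
    · exact h2
    · have := hp h2
      subst this
      omega
    · have := h y x h2
      omega
  unfold rk
  congr 1
  ext x
  simp only [Finset.mem_filter, Finset.mem_univ, true_and]
  have := h1 a x
  omega

theorem comp_eq {t N : ℕ} {p : Fin t → ℕ} (hv : Vd N p)
    (h : ∀ a, 1 < p a → ∃ b, p b = p a - 1) : p = rk p := by
  have key : ∀ n, ∀ a, p a = n → ∀ m, 1 ≤ m → m ≤ n → ∃ b, p b = m := by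
    intro n
    induction n with
    | zero =>
      intro a ha
      have := (hv.2 a).1
      omega
    | succ n ih =>
      intro a ha m hm1 hm2
      by_cases hmn : m = n + 1
      · exact ⟨a, by omega⟩
      · have h1 : 1 < p a := by omega
        obtain ⟨b, hb⟩ := h a h1
        exact ih b (by omega) m hm1 (by omega)
  funext a
  unfold rk
  have h1 : (Finset.univ.filter (fun b => p b ≤ p a)).image p = Finset.Icc 1 (p a) := by
    ext m
    simp only [Finset.mem_image, Finset.mem_filter, Finset.mem_univ, true_and, Finset.mem_Icc]
    constructor
    · rintro ⟨b, hb, rfl⟩
      exact ⟨(hv.2 b).1, hb⟩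
    · rintro ⟨h1, h2⟩
      obtain ⟨b, hb⟩ := key (p a) a rfl m h1 h2
      exact ⟨b, by omega, hb⟩
  have h2 := congrArg Finset.card h1
  rw [Finset.card_image_of_injective _ hv.1] at h2
  rw [h2]
  simp

theorem compress {t N : ℕ} : ∀ (n : ℕ) (p : Fin t → ℕ), Vd N p → ∑ a, p a ≤ n →
    Relation.ReflTransGen (Mv N) p (rk p) := by
  intro n
  induction n with
  | zero =>
    intro p hv hs
    have : ∀ a, 1 < p a → ∃ b, p b = p a - 1 := by
      intro a ha
      have := Finset.single_le_sum (f := p) (fun i _ => Nat.zero_le _) (Finset.mem_univ a)
      omega
    rw [← comp_eq hv this]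
  | succ n ih =>
    intro p hv hs
    by_cases h : ∀ a, 1 < p a → ∃ b, p b = p a - 1
    · rw [← comp_eq hv h]
    · push Not at h
      obtain ⟨a, ha, hb⟩ := h
      set p' := Function.update p a (p a - 1) with hp'
      have hr := hv.2 a
      have hv' : Vd N p' := vd_update hv (by omega) (by omega) hb
      have hmv : Mv N p p' := ⟨a, p a - 1, hv, by omega, by omega, Or.inr (by omega), hb, rfl⟩
      have hsum : ∑ x, p' x < ∑ x, p x := by
        refine Finset.sum_lt_sum ?_ ⟨a, Finset.mem_univ a, ?_⟩
        · intro x _
          by_cases hx : x = a
          · subst hx
            rw [hp', Function.update_self]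
            omega
          · rw [hp', Function.update_of_ne hx]
        · rw [hp', Function.update_self]
          omega
      have hrk : rk p' = rk p := by
        funext x
        refine (rk_congr ?_ hv.1 x).symm
        intro y z hyz
        by_cases hy : y = a
        · subst hy
          by_cases hz : z = y
          · subst hz
            omega
          · rw [hp', Function.update_self, Function.update_of_ne hz]
            omega
        · by_cases hz : z = a
          · subst hz
            rw [hp', Function.update_self, Function.update_of_ne hy]
            have := hb y
            omega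
          · rw [hp', Function.update_of_ne hy, Function.update_of_ne hz]
            exact hyz
      have := ih p' hv' (by omega)
      rw [hrk] at this
      exact Relation.ReflTransGen.head hmv this

theorem same {t N : ℕ} {p q : Fin t → ℕ} (hp : Vd N p) (hq : Vd N q)
    (h : ∀ x y, p x < p y → q x < q y) : Relation.ReflTransGen (Mv N) p q := by
  have h1 := compress _ p hp le_rfl
  have h2 := compress _ q hq le_rfl
  have h3 : rk p = rk q := funext (rk_congr h hp.1)
  rw [← h3] at h2
  have key : ∀ a b : Fin t → ℕ, Relation.ReflTransGen (Mv N) a b →
      Relation.ReflTransGen (Mv N) b a := by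
    intro a b h5
    induction h5 with
    | refl => exact Relation.ReflTransGen.refl
    | tail _ h6 ih => exact Relation.ReflTransGen.head (mv_symm h6) ih
  exact h1.trans (key _ _ h2)

end BRD_

open BRD_ in
theorem brd_proof : Stmt_BRD := by
  intro t N α β Rl htα hαβ hβN hrefl htrans hmove hswap
  have hRl : ∀ p q : Fin t → ℕ, Relation.ReflTransGen (Mv N) p q → Rl p q := by
    intro p q h
    induction h with
    | refl => exact hrefl p
    | tail _ h2 ih =>
      obtain ⟨a, m, hv, h1, h2, h3, h4, rfl⟩ := h2
      exact htrans _ _ _ ih (hmove _ a m hv.1 hv.2 h1 h2 h3 h4)
  -- main induction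
  have main : ∀ (n : ℕ) (p : Fin t → ℕ) (a b : Fin t), Vd N p → p a < p b →
      (Finset.univ.filter (fun x => p a < p x ∧ p x < p b)).card ≤ n →
      ∃ q : Fin t → ℕ, Rl p q ∧ Vd N q ∧ q b = q a + 1 := by
    intro n
    induction n with
    | zero =>
      intro p a b hv hab hcard
      have hno : ∀ x, ¬ (p a < p x ∧ p x < p b) := by
        intro x hx
        have : x ∈ Finset.univ.filter (fun x => p a < p x ∧ p x < p b) := by simp [hx]
        have := Finset.card_pos.mpr ⟨x, this⟩
        omega
      refine ⟨rk p, hRl _ _ (compress _ p hv le_rfl), ⟨?_, ?_⟩, ?_⟩
      · intro x y hxy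
        by_contra hne
        have hne' : p x ≠ p y := fun h => hne (hv.1 h)
        rcases lt_or_gt_of_ne hne' with h | h
        · have := rk_lt p h
          omega
        · have := rk_lt p h
          omega
      · intro x
        have h1 := rk_pos p x
        have h2 := rk_le p x
        omega
      · unfold rk
        have : Finset.univ.filter (fun x => p x ≤ p b) =
            insert b (Finset.univ.filter (fun x => p x ≤ p a)) := by
          ext x
          simp only [Finset.mem_filter, Finset.mem_univ, true_and, Finset.mem_insert]
          constructor
          · intro hx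
            by_cases hxa : p x ≤ p a
            · exact Or.inr hxa
            · left
              have := hno x
              have hxb : p x = p b := by omega
              exact hv.1 hxb
          · rintro (rfl | hx)
            · exact le_rfl
            · omega
        rw [this, Finset.card_insert_of_notMem]
        simp only [Finset.mem_filter, Finset.mem_univ, true_and]
        omega
    | succ n ih =>
      intro p a b hv hab hcard
      by_cases hno : ∀ x, ¬ (p a < p x ∧ p x < p b)
      · refine ih p a b hv hab ?_
        have : Finset.univ.filter (fun x => p a < p x ∧ p x < p b) = ∅ := by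
          ext x
          simp only [Finset.mem_filter, Finset.mem_univ, true_and, Finset.notMem_empty,
            iff_false]
          exact hno x
        rw [this]
        simp
      · push Not at hno
        obtain ⟨x0, hx0⟩ := hno
        -- the successor of a
        obtain ⟨c, hc1, hc2⟩ := Finset.exists_min_image
          (Finset.univ.filter (fun x => p a < p x)) p ⟨x0, by simp [hx0.1]⟩
        simp only [Finset.mem_filter, Finset.mem_univ, true_and] at hc1 hc2
        have hcb : p c < p b := lt_of_le_of_lt (hc2 x0 hx0.1) hx0.2
        have hac : a ≠ c := by
          rintro rfl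
          omega
        have hbc : b ≠ c := by
          rintro rfl
          omega
        have hba : b ≠ a := by
          rintro rfl
          omega
        classical
        set p' : Fin t → ℕ := fun x => if x = a then α else if x = c then β else
          if p x < p a then rk p x else N - t + rk p x with hp'
        have hpa : p' a = α := by simp [hp']
        have hpc : p' c = β := by simp [hp', hac.symm]
        have hpL : ∀ x, p x < p a → p' x = rk p x := by
          intro x hx
          have h1 : x ≠ a := by
            rintro rfl
            omega
          have h2 : x ≠ c := by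
            rintro rfl
            omega
          simp [hp', h1, h2, hx]
        have hpR : ∀ x, p c < p x → p' x = N - t + rk p x := by
          intro x hx
          have h1 : x ≠ a := by
            rintro rfl
            omega
          have h2 : x ≠ c := by
            rintro rfl
            omega
          have h3 : ¬ p x < p a := by omega
          simp [hp', h1, h2, h3]
        have hcases : ∀ x, x = a ∨ x = c ∨ p x < p a ∨ p c < p x := by
          intro x
          by_cases h1 : x = a
          · exact Or.inl h1
          by_cases h2 : x = c
          · exact Or.inr (Or.inl h2)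
          right; right
          by_cases h3 : p x < p a
          · exact Or.inl h3
          · right
            have h4 : p x ≠ p a := fun h => h1 (hv.1 h)
            have h5 := hc2 x (by omega)
            have h6 : p x ≠ p c := fun h => h2 (hv.1 h)
            omega
        have hord : ∀ x y, p x < p y → p' x < p' y := by
          intro x y hxy
          have hrx := rk_pos p x
          have hrx' := rk_le p x
          have hry := rk_pos p y
          have hry' := rk_le p y
          have hr := rk_lt p hxy
          rcases hcases x with rfl | rfl | hx | hx <;> rcases hcases y with rfl | rfl | hy | hy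
          · omega
          · rw [hpa, hpc]; exact hαβ
          · omega
          · rw [hpa, hpR y hy]; omega
          · omega
          · omega
          · omega
          · rw [hpc, hpR y hy]; omega
          · rw [hpa, hpL x hx]; omega
          · rw [hpc, hpL x hx]; omega
          · rw [hpL x hx, hpL y hy]; exact hr
          · rw [hpL x hx, hpR y hy]; omega
          · omega
          · omega
          · omega
          · rw [hpR x hx, hpR y hy]; omega
        have hinj' : Function.Injective p' := by
          intro x y hxy
          by_contra hne
          have hne' : p x ≠ p y := fun h => hne (hv.1 h)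
          rcases lt_or_gt_of_ne hne' with h | h
          · have := hord _ _ h
            omega
          · have := hord _ _ h
            omega
        have hv' : Vd N p' := by
          refine ⟨hinj', fun x => ?_⟩
          have hrx := rk_pos p x
          have hrx' := rk_le p x
          rcases hcases x with rfl | rfl | hx | hx
          · rw [hpa]; omega
          · rw [hpc]; omega
          · rw [hpL x hx]; omega
          · rw [hpR x hx]; omega
        have h1 : Rl p p' := hRl _ _ (same hv hv' hord)
        set s : Fin t → ℕ := p' ∘ (Equiv.swap a c : Equiv.Perm (Fin t)) with hs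
        have h2 : Rl p' s := by
          refine hswap p' a c hinj' hv'.2 hac hpa hpc ?_
          intro x hxa hxc
          have hrx := rk_pos p x
          have hrx' := rk_le p x
          rcases hcases x with rfl | rfl | hx | hx
          · exact absurd rfl hxa
          · exact absurd rfl hxc
          · left; rw [hpL x hx]; omega
          · right; rw [hpR x hx]; omega
        have hsv : Vd N s := ⟨hinj'.comp (Equiv.swap a c).injective, fun x => hv'.2 _⟩
        have hsa : s a = β := by simp [hs, hpc]
        have hsc : s c = α := by simp [hs, hpa]
        have hso : ∀ x, x ≠ a → x ≠ c → s x = p' x := by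
          intro x h3 h4
          simp [hs, Equiv.swap_apply_of_ne_of_ne h3 h4]
        have hsb : s b = N - t + rk p b := by
          rw [hso b hba hbc, hpR b hcb]
        have hsab : s a < s b := by
          rw [hsa, hsb]
          have := rk_pos p b
          omega
        have hsub : Finset.univ.filter (fun x => s a < s x ∧ s x < s b) ⊂
            Finset.univ.filter (fun x => p a < p x ∧ p x < p b) := by
          rw [Finset.ssubset_iff_of_subset]
          · refine ⟨c, by simp [hc1, hcb], ?_⟩
            simp only [Finset.mem_filter, Finset.mem_univ, true_and, not_and]
            intro h3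
            rw [hsa, hsc] at h3
            omega
          · intro x hx
            simp only [Finset.mem_filter, Finset.mem_univ, true_and] at hx ⊢
            have hrx' := rk_le p x
            rcases hcases x with rfl | rfl | hx' | hx'
            · omega
            · rw [hsa, hsc] at hx
              omega
            · have h3 : x ≠ a := by
                rintro rfl
                omega
              have h4 : x ≠ c := by
                rintro rfl
                omega
              rw [hsa, hso x h3 h4, hpL x hx'] at hx
              omega
            · have h3 : x ≠ a := by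
                rintro rfl
                omega
              have h4 : x ≠ c := by
                rintro rfl
                omega
              refine ⟨by omega, ?_⟩
              by_contra h5
              have h6 : p x ≠ p b := by
                intro h
                have := hv.1 h
                subst this
                omega
              have h7 := rk_lt p (show p b < p x by omega)
              rw [hsb, hso x h3 h4, hpR x hx'] at hx
              omega
        obtain ⟨q, hq1, hq2, hq3⟩ := ih s a b hsv hsab (by
          have := Finset.card_lt_card hsub
          omega)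
        exact ⟨q, htrans _ _ _ h1 (htrans _ _ _ h2 hq1), hq2, hq3⟩
  intro p hinj hr a b hab
  have hne : p a ≠ p b := fun h => hab (hinj h)
  rcases lt_or_gt_of_ne hne with h | h
  · obtain ⟨q, h1, h2, h3⟩ := main _ p a b ⟨hinj, hr⟩ h le_rfl
    exact ⟨q, h1, h2.1, h2.2, Or.inr h3⟩
  · obtain ⟨q, h1, h2, h3⟩ := main _ p b a ⟨hinj, hr⟩ h le_rfl
    exact ⟨q, h1, h2.1, h2.2, Or.inl h3⟩

end Pool.Agent.PT2
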