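import Pool.Agent.PT2.Stmts

/-! MP_851278_al (S02151), module BST: the star board. -/

set_option autoImplicit false

namespace Pool.Agent.PT2

open Pool.Agent.ACC Pool.Agent.KUR

theorem bst_proof : Stmt_BST := by
  intro μ t adj sw c l hsym hirr hinj hc
  have hne : ∀ b, l b ≠ c := fun b h => hirr c (by have := hc b; rwa [h] at this)
  refine ⟨l, hinj, fun a b hab => ⟨Function.update l a c, ?_, ?_⟩⟩
  · exact Relation.ReflTransGen.single (BMv.move l a c hinj (hsym _ _ (hc a)) hne)
  · rw [Function.update_self, Function.update_of_ne (Ne.symm hab)]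
    exact hc b

end Pool.Agent.PT2
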