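import Pool.Agent.PT2.Stmts

set_option autoImplicit false

namespace Pool.Agent.PT2

open Pool.Agent.ACC Pool.Agent.KUR

theorem bsw_proof (hBRD : Stmt_BRD) : Stmt_BSW := by
  intro μ t L α β adj sw q Fs hsym hinj hpath htα hαβ hβL hsw1 hsw2 hFs
  have hcomp : ∀ p : Fin t → ℕ, Function.Injective p → (∀ b, 1 ≤ p b ∧ p b ≤ L) →
      Function.Injective (q ∘ p) := by
    intro p hp hr a b hab
    exact hp (hinj (p a) (p b) (hr a).1 (hr a).2 (hr b).1 (hr b).2 hab)
  have hupd : ∀ (p : Fin t → ℕ) (a : Fin t) (m : ℕ),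
      q ∘ Function.update p a m = Function.update (q ∘ p) a (q m) := by
    intro p a m
    funext x
    by_cases hx : x = a
    · subst hx
      simp
    · simp [Function.update_of_ne hx]
  have hadj : ∀ i m : ℕ, 1 ≤ i → i ≤ L → 1 ≤ m → m ≤ L → (m = i + 1 ∨ i = m + 1) →
      adj (q i) (q m) := by
    intro i m h1 h2 h3 h4 h5
    rcases h5 with rfl | rfl
    · exact hpath i h1 (by omega)
    · exact hsym _ _ (hpath m h3 (by omega))
  have key := hBRD t L α β
    (fun p p' => Relation.ReflTransGen (BMv adj sw) (q ∘ p) (q ∘ p')) htα hαβ hβL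
    (fun p => Relation.ReflTransGen.refl) (fun p p' r h1 h2 => h1.trans h2)
    (by
      intro p a m hp hr h1 h2 h3 h4
      refine Relation.ReflTransGen.single ?_
      rw [hupd]
      refine BMv.move (q ∘ p) a (q m) (hcomp p hp hr) ?_ ?_
      · exact hadj (p a) m (hr a).1 (hr a).2 h1 h2 h3
      · intro b hb
        exact h4 b (hinj (p b) m (hr b).1 (hr b).2 h1 h2 hb))
    (by
      intro p a b hp hr hab ha hb hc
      refine Relation.ReflTransGen.single ?_
      have h5 : q ∘ (p ∘ (Equiv.swap a b : Equiv.Perm (Fin t))) =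
          (q ∘ p) ∘ (Equiv.swap a b : Equiv.Perm (Fin t)) := rfl
      rw [h5]
      refine BMv.swap (q ∘ p) a b Fs (hcomp p hp hr) hab ?_ ?_
      · show sw Fs (q (p a)) (q (p b))
        rw [ha, hb]
        exact hsw1
      · intro c hca hcb hmem
        have h6 := hFs (p c) (hr c).1 (hr c).2 hmem
        rcases hc c hca hcb with h | h <;> omega)
  have hp0 : Function.Injective (fun a : Fin t => (a : ℕ) + 1) := by
    intro a b hab
    apply Fin.ext
    have : (a : ℕ) + 1 = (b : ℕ) + 1 := hab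
    omega
  have hr0 : ∀ b : Fin t, 1 ≤ (b : ℕ) + 1 ∧ (b : ℕ) + 1 ≤ L := by
    intro b
    have := b.isLt
    omega
  refine ⟨q ∘ (fun a : Fin t => (a : ℕ) + 1), hcomp _ hp0 hr0, ?_⟩
  intro a b hab
  obtain ⟨p, h1, h2, h3, h4⟩ := key (fun a : Fin t => (a : ℕ) + 1) hp0 hr0 a b hab
  refine ⟨q ∘ p, h1, ?_⟩
  exact hadj (p a) (p b) (h3 a).1 (h3 a).2 (h3 b).1 (h3 b).2 h4.symm

end Pool.Agent.PT2
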