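import Pool.Agent.PT2.Stmts

set_option autoImplicit false

namespace Pool.Agent.PT2

open Pool.Agent.ACC Pool.Agent.KUR

namespace BTT_

theorem upd_inj {μ t : ℕ} (f : Fin t → Fin μ) (hf : Function.Injective f) (a : Fin t)
    (i : Fin μ) (hi : ∀ b, f b ≠ i) : Function.Injective (Function.update f a i) := by
  intro x y hxy
  by_cases hx : x = a
  · by_cases hy : y = a
    · rw [hx, hy]
    · rw [hx, Function.update_self, Function.update_of_ne hy] at hxy
      exact absurd hxy.symm (hi y)
  · by_cases hy : y = a
    · rw [hy, Function.update_self, Function.update_of_ne hx] at hxy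
      exact absurd hxy (hi x)
    · rw [Function.update_of_ne hx, Function.update_of_ne hy] at hxy
      exact hf hxy

end BTT_

open BTT_ in
theorem btt_proof (hBRD : Stmt_BRD) : Stmt_BTT := by
  intro μ t n adj sw q u hsym hinj hpath htn hqu hadju
  have hcomp : ∀ p : Fin t → ℕ, Function.Injective p → (∀ b, 1 ≤ p b ∧ p b ≤ 2 * n + 1) →
      Function.Injective (q ∘ p) := by
    intro p hp hr a b hab
    exact hp (hinj (p a) (p b) (hr a).1 (hr a).2 (hr b).1 (hr b).2 hab)
  have hupd : ∀ (p : Fin t → ℕ) (a : Fin t) (m : ℕ),
      q ∘ Function.update p a m = Function.update (q ∘ p) a (q m) := by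
    intro p a m
    funext x
    by_cases hx : x = a
    · subst hx
      simp
    · simp [Function.update_of_ne hx]
  have hadj : ∀ i m : ℕ, 1 ≤ i → i ≤ 2 * n + 1 → 1 ≤ m → m ≤ 2 * n + 1 →
      (m = i + 1 ∨ i = m + 1) → adj (q i) (q m) := by
    intro i m h1 h2 h3 h4 h5
    rcases h5 with rfl | rfl
    · exact hpath i h1 (by omega)
    · exact hsym _ _ (hpath m h3 (by omega))
  have key := hBRD t (2 * n + 1) n (n + 2)
    (fun p p' => Relation.ReflTransGen (BMv adj sw) (q ∘ p) (q ∘ p')) (by omega) (by omega)
    (by omega)
    (fun p => Relation.ReflTransGen.refl) (fun p p' r h1 h2 => h1.trans h2)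
    (by
      intro p a m hp hr h1 h2 h3 h4
      refine Relation.ReflTransGen.single ?_
      rw [hupd]
      refine BMv.move (q ∘ p) a (q m) (hcomp p hp hr) ?_ ?_
      · exact hadj (p a) m (hr a).1 (hr a).2 h1 h2 h3
      · intro b hb
        exact h4 b (hinj (p b) m (hr b).1 (hr b).2 h1 h2 hb))
    (by
      intro p a b hp hr hab ha hb hc
      have hba : b ≠ a := fun h => hab h.symm
      have hQ : Function.Injective (q ∘ p) := hcomp p hp hr
      have hne : ∀ i m : ℕ, 1 ≤ i → i ≤ 2 * n + 1 → 1 ≤ m → m ≤ 2 * n + 1 → i ≠ m →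
          q i ≠ q m := fun i m h1 h2 h3 h4 h5 h6 => h5 (hinj i m h1 h2 h3 h4 h6)
      have hmid : ∀ c, q (p c) ≠ q (n + 1) := by
        intro c
        refine hne _ _ (hr c).1 (hr c).2 (by omega) (by omega) ?_
        by_cases h1 : c = a
        · rw [h1, ha]; omega
        · by_cases h2 : c = b
          · rw [h2, hb]; omega
          · rcases hc c h1 h2 with h | h <;> omega
      have hpu : ∀ c, q (p c) ≠ u := fun c => hqu _ (hr c).1 (hr c).2
      -- the six moves
      set Q0 : Fin t → Fin μ := q ∘ p with hQ0
      have e0 : ∀ x, Q0 x = q (p x) := fun x => rfl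
      have f1 : ∀ x, Q0 x ≠ q (n + 1) := hmid
      have m1 : BMv adj sw Q0 (Function.update Q0 a (q (n + 1))) := by
        refine BMv.move Q0 a (q (n + 1)) hQ ?_ f1
        rw [e0, ha]
        exact hadj _ _ (by omega) (by omega) (by omega) (by omega) (Or.inl rfl)
      have i1 := upd_inj Q0 hQ a (q (n + 1)) f1
      set Q1 : Fin t → Fin μ := Function.update Q0 a (q (n + 1)) with hQ1
      have e1a : Q1 a = q (n + 1) := by rw [hQ1, Function.update_self]
      have e1 : ∀ x, x ≠ a → Q1 x = q (p x) := by
        intro x hx
        rw [hQ1, Function.update_of_ne hx, e0]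
      have f2 : ∀ x, Q1 x ≠ u := by
        intro x
        by_cases hx : x = a
        · rw [hx, e1a]; exact hqu _ (by omega) (by omega)
        · rw [e1 x hx]; exact hpu x
      have m2 : BMv adj sw Q1 (Function.update Q1 a u) := by
        refine BMv.move Q1 a u i1 ?_ f2
        rw [e1a]
        exact hadju
      have i2 := upd_inj Q1 i1 a u f2
      set Q2 : Fin t → Fin μ := Function.update Q1 a u with hQ2
      have e2a : Q2 a = u := by rw [hQ2, Function.update_self]
      have e2 : ∀ x, x ≠ a → Q2 x = q (p x) := by
        intro x hx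
        rw [hQ2, Function.update_of_ne hx, e1 x hx]
      have f3 : ∀ x, Q2 x ≠ q (n + 1) := by
        intro x
        by_cases hx : x = a
        · rw [hx, e2a]; exact (hqu _ (by omega) (by omega)).symm
        · rw [e2 x hx]; exact hmid x
      have m3 : BMv adj sw Q2 (Function.update Q2 b (q (n + 1))) := by
        refine BMv.move Q2 b (q (n + 1)) i2 ?_ f3
        rw [e2 b hba, hb]
        exact hadj _ _ (by omega) (by omega) (by omega) (by omega) (Or.inr rfl)
      have i3 := upd_inj Q2 i2 b (q (n + 1)) f3
      set Q3 : Fin t → Fin μ := Function.update Q2 b (q (n + 1)) with hQ3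
      have e3b : Q3 b = q (n + 1) := by rw [hQ3, Function.update_self]
      have e3a : Q3 a = u := by rw [hQ3, Function.update_of_ne hab, e2a]
      have e3 : ∀ x, x ≠ a → x ≠ b → Q3 x = q (p x) := by
        intro x hx hx'
        rw [hQ3, Function.update_of_ne hx', e2 x hx]
      have f4 : ∀ x, Q3 x ≠ q n := by
        intro x
        by_cases hx : x = a
        · rw [hx, e3a]; exact (hqu _ (by omega) (by omega)).symm
        · by_cases hx' : x = b
          · rw [hx', e3b]; exact hne _ _ (by omega) (by omega) (by omega) (by omega) (by omega)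
          · rw [e3 x hx hx']
            refine hne _ _ (hr x).1 (hr x).2 (by omega) (by omega) ?_
            rcases hc x hx hx' with h | h <;> omega
      have m4 : BMv adj sw Q3 (Function.update Q3 b (q n)) := by
        refine BMv.move Q3 b (q n) i3 ?_ f4
        rw [e3b]
        exact hadj _ _ (by omega) (by omega) (by omega) (by omega) (Or.inr rfl)
      have i4 := upd_inj Q3 i3 b (q n) f4
      set Q4 : Fin t → Fin μ := Function.update Q3 b (q n) with hQ4
      have e4b : Q4 b = q n := by rw [hQ4, Function.update_self]
      have e4a : Q4 a = u := by rw [hQ4, Function.update_of_ne hab, e3a]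
      have e4 : ∀ x, x ≠ a → x ≠ b → Q4 x = q (p x) := by
        intro x hx hx'
        rw [hQ4, Function.update_of_ne hx', e3 x hx hx']
      have f5 : ∀ x, Q4 x ≠ q (n + 1) := by
        intro x
        by_cases hx : x = a
        · rw [hx, e4a]; exact (hqu _ (by omega) (by omega)).symm
        · by_cases hx' : x = b
          · rw [hx', e4b]; exact hne _ _ (by omega) (by omega) (by omega) (by omega) (by omega)
          · rw [e4 x hx hx']; exact hmid x
      have m5 : BMv adj sw Q4 (Function.update Q4 a (q (n + 1))) := by
        refine BMv.move Q4 a (q (n + 1)) i4 ?_ f5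
        rw [e4a]
        exact hsym _ _ hadju
      have i5 := upd_inj Q4 i4 a (q (n + 1)) f5
      set Q5 : Fin t → Fin μ := Function.update Q4 a (q (n + 1)) with hQ5
      have e5a : Q5 a = q (n + 1) := by rw [hQ5, Function.update_self]
      have e5b : Q5 b = q n := by rw [hQ5, Function.update_of_ne hba, e4b]
      have e5 : ∀ x, x ≠ a → x ≠ b → Q5 x = q (p x) := by
        intro x hx hx'
        rw [hQ5, Function.update_of_ne hx, e4 x hx hx']
      have f6 : ∀ x, Q5 x ≠ q (n + 2) := by
        intro x
        by_cases hx : x = a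
        · rw [hx, e5a]; exact hne _ _ (by omega) (by omega) (by omega) (by omega) (by omega)
        · by_cases hx' : x = b
          · rw [hx', e5b]; exact hne _ _ (by omega) (by omega) (by omega) (by omega) (by omega)
          · rw [e5 x hx hx']
            refine hne _ _ (hr x).1 (hr x).2 (by omega) (by omega) ?_
            rcases hc x hx hx' with h | h <;> omega
      have m6 : BMv adj sw Q5 (Function.update Q5 a (q (n + 2))) := by
        refine BMv.move Q5 a (q (n + 2)) i5 ?_ f6
        rw [e5a]
        exact hadj _ _ (by omega) (by omega) (by omega) (by omega) (Or.inl rfl)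
      have efin : Function.update Q5 a (q (n + 2)) =
          q ∘ (p ∘ (Equiv.swap a b : Equiv.Perm (Fin t))) := by
        funext x
        by_cases hx : x = a
        · rw [hx, Function.update_self]
          show q (n + 2) = q (p (Equiv.swap a b a))
          rw [Equiv.swap_apply_left, hb]
        · rw [Function.update_of_ne hx]
          by_cases hx' : x = b
          · rw [hx', e5b]
            show q n = q (p (Equiv.swap a b b))
            rw [Equiv.swap_apply_right, ha]
          · rw [e5 x hx hx']
            show q (p x) = q (p (Equiv.swap a b x))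
            rw [Equiv.swap_apply_of_ne_of_ne hx hx']
      rw [← efin]
      exact (((((Relation.ReflTransGen.single m1).tail m2).tail m3).tail m4).tail m5).tail m6)
  have hp0 : Function.Injective (fun a : Fin t => (a : ℕ) + 1) := by
    intro a b hab
    apply Fin.ext
    have : (a : ℕ) + 1 = (b : ℕ) + 1 := hab
    omega
  have hr0 : ∀ b : Fin t, 1 ≤ (b : ℕ) + 1 ∧ (b : ℕ) + 1 ≤ 2 * n + 1 := by
    intro b
    have := b.isLt
    omega
  refine ⟨q ∘ (fun a : Fin t => (a : ℕ) + 1), hcomp _ hp0 hr0, ?_⟩
  intro a b hab
  obtain ⟨p, h1, h2, h3, h4⟩ := key (fun a : Fin t => (a : ℕ) + 1) hp0 hr0 a b hab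
  refine ⟨q ∘ p, h1, ?_⟩
  exact hadj (p a) (p b) (h3 a).1 (h3 a).2 (h3 b).1 (h3 b).2 h4.symm

end Pool.Agent.PT2
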