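import Pool.Agent.PT2.StmtsP
import Pool.Agent.ACC.Lib
import Pool.Agent.KUR.Lib

set_option autoImplicit false

namespace Pool.Agent.PT2

open Pool.Agent.ACC Pool.Agent.KUR

theorem cbd_proof : Stmt_CBD := by
  intro V X hX K hK hfin x hx
  have hC : Cn X (cmp X Kᶜ x) := cn_comp hx
  have hCK : cmp X Kᶜ x ⊆ Kᶜ := fun y hy => Rch.right hy
  have hbd : bd X (cmp X Kᶜ x) ⊆ bd X K := by
    rintro e ⟨a, b, hab, ha, hb, rfl⟩
    have hbK : b ∈ K := by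
      by_contra hcon
      exact hb (Rch.trans ha (Rch.of_adj (hCK ha) hcon hab))
    exact ⟨b, a, hab.symm, hbK, hCK ha, Sym2.eq_swap⟩
  refine ⟨⟨hfin.subset hbd, (cn_iff X _).1 hC, (cn_iff X _).1 ?_⟩, hbd⟩
  obtain ⟨k0, hk0⟩ := hK.1
  have hKC : K ⊆ (cmp X Kᶜ x)ᶜ := fun z hz hzC => hCK hzC hz
  refine cn_of_rch (x := k0) (hKC hk0) ?_
  intro y hy
  by_cases hyK : y ∈ K
  · exact (hK.rch hk0 hyK).mono le_rfl hKC
  · have h1 : Rch X Set.univ y k0 := by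
      obtain ⟨w⟩ := hX.preconnected y k0
      exact ⟨w, fun _ _ => Set.mem_univ _⟩
    obtain ⟨u, v, hu, hv, -, -, huv, hr⟩ := h1.exit Kᶜ hyK (fun h => h hk0)
    rw [Set.univ_inter] at hr
    have h2 : u ∈ {z | Rch X (cmp X Kᶜ x)ᶜ y z ∧ Rch X Kᶜ y z} := by
      refine hr.closed _ ⟨Rch.refl X hy, Rch.refl X hyK⟩ ?_
      rintro a ⟨ha1, ha2⟩ b hb hab
      have hb2 : Rch X Kᶜ y b := ha2.trans (Rch.of_adj ha2.right hb hab)
      have hbC : b ∈ (cmp X Kᶜ x)ᶜ := by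
        intro hbC
        exact hy (Rch.trans hbC hb2.symm)
      exact ⟨ha1.trans (Rch.of_adj ha1.right hbC hab), hb2⟩
    have hvK : v ∈ K := not_not.mp hv
    have h3 : Rch X (cmp X Kᶜ x)ᶜ u v := Rch.of_adj h2.1.right (hKC hvK) huv
    have h4 : Rch X (cmp X Kᶜ x)ᶜ v k0 := (hK.rch hvK hk0).mono le_rfl hKC
    exact ((h2.1.trans h3).trans h4).symm

end Pool.Agent.PT2
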