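import Pool.Agent.PT2.Stmts

set_option autoImplicit false

namespace Pool.Agent.PT2

open Pool.Agent.ACC Pool.Agent.KUR

namespace CEN_

variable {V : Type}

theorem exit_to {H : SimpleGraph V} {T : Set V} (hT : Cn H T) {p y : V} (hp : p ∈ T)
    (hy : y ∈ T) (hne : y ≠ p) : ∃ u, Rch H (T \ {p}) y u ∧ H.Adj u p := by
  obtain ⟨u, v, hu, hv, _, hvT, huv, _⟩ := (hT.rch hy hp).exit {z | Rch H (T \ {p}) y z}
    (Rch.refl H ⟨hy, hne⟩) (fun h => (Rch.right h).2 rfl)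
  have hvp : v = p := by
    by_contra h
    exact hv (Rch.trans hu (Rch.of_adj hu.right ⟨hvT, h⟩ huv))
  rw [hvp] at huv
  exact ⟨u, hu, huv⟩

/-- a connected set joining `s` to a set `T`, meeting `T` in one point -/
theorem joint {H : SimpleGraph V} {Sx T : Set V} (hS : Cn H Sx) (hT : T ⊆ Sx) (hTn : T.Nonempty)
    {s : V} (hs : s ∈ Sx) : ∃ (p : V) (Q : Set V), Q ⊆ Sx ∧ Cn H Q ∧ s ∈ Q ∧ p ∈ Q ∧ p ∈ T ∧
      ∀ z ∈ Q, z ∈ T → z = p := by
  by_cases hsT : s ∈ T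
  · exact ⟨s, {s}, Set.singleton_subset_iff.mpr hs, cn_singleton H s, rfl, rfl, hsT,
      fun z hz _ => hz⟩
  · obtain ⟨t, ht⟩ := hTn
    obtain ⟨u, v, hu, hv, _, hvS, huv, _⟩ := (hS.rch hs (hT ht)).exit
      {z | Rch H (Sx \ T) s z} (Rch.refl H ⟨hs, hsT⟩) (fun h => (Rch.right h).2 ht)
    have hvT : v ∈ T := by
      by_contra h
      exact hv (Rch.trans hu (Rch.of_adj hu.right ⟨hvS, h⟩ huv))
    refine ⟨v, {z | Rch H (Sx \ T) s z} ∪ {v}, ?_, ?_, Or.inl (Rch.refl H ⟨hs, hsT⟩),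
      Or.inr rfl, hvT, ?_⟩
    · rintro z (hz | rfl)
      · exact (Rch.right hz).1
      · exact hvS
    · exact Cn.union (cn_comp ⟨hs, hsT⟩) (cn_singleton H v) ⟨u, hu, v, rfl, Or.inl huv⟩
    · rintro z (hz | rfl) hzT
      · exact absurd hzT (Rch.right hz).2
      · rfl

theorem exists_min {H : SimpleGraph V} {Sx : Set V} {B : Fin 3 → Set V} (hS : Cn H Sx)
    (hfin : Sx.Finite) (ht : ∀ i, Tch H Sx (B i)) :
    ∃ T : Set V, T ⊆ Sx ∧ Cn H T ∧ (∀ i, Tch H T (B i)) ∧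
      ∀ T' : Set V, T' ⊆ T → T' ≠ T → Cn H T' → ∃ i, ¬ Tch H T' (B i) := by
  classical
  have hex : ∃ n : ℕ, ∃ T : Set V, T ⊆ Sx ∧ Cn H T ∧ (∀ i, Tch H T (B i)) ∧ T.ncard = n :=
    ⟨_, Sx, subset_rfl, hS, ht, rfl⟩
  obtain ⟨T, hT, hcn, hTt, hn⟩ := Nat.find_spec hex
  refine ⟨T, hT, hcn, hTt, ?_⟩
  intro T' hT' hne hcn'
  by_contra hcon
  push Not at hcon
  have hlt : T'.ncard < T.ncard :=
    Set.ncard_lt_ncard (lt_of_le_of_ne hT' hne) (hfin.subset hT)
  rw [hn] at hlt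
  exact Nat.find_min hex hlt ⟨T', hT'.trans hT, hcn', hcon, rfl⟩

end CEN_

open CEN_

theorem cen_proof : Stmt_CEN := by
  intro V H Sx B s hS hfin hs hB hSB hBB ht
  classical
  obtain ⟨T, hTS, hTc, hTt, hmin⟩ := exists_min hS hfin ht
  obtain ⟨p, Q, hQS, hQc, hsQ, hpQ, hpT, hQT⟩ := joint hS hTS hTc.1 hs
  by_cases hA : ∃ x ∈ T \ {p}, ∃ i j : Fin 3, i ≠ j ∧ Tch H (cmp H (T \ {p}) x) (B i) ∧
      Tch H (cmp H (T \ {p}) x) (B j)
  · left
    obtain ⟨x, hx, i, j, hij, hi, hj⟩ := hA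
    have hKc : Cn H (cmp H (T \ {p}) x) := cn_comp hx
    have hKT : ∀ z ∈ cmp H (T \ {p}) x, z ∈ T \ {p} := fun z hz => Rch.right hz
    have hKne : cmp H (T \ {p}) x ≠ T := by
      intro h
      have hpK : p ∈ cmp H (T \ {p}) x := by
        rw [h]
        exact hpT
      exact (hKT p hpK).2 rfl
    obtain ⟨k, hk⟩ := hmin _ (fun z hz => (hKT z hz).1) hKne hKc
    have hki : k ≠ i := fun h => hk (h ▸ hi)
    have hkj : k ≠ j := fun h => hk (h ▸ hj)
    have hall : ∀ l : Fin 3, l ≠ k → l = i ∨ l = j := by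
      revert i j k
      intro i j hij _ _ k _ hki hkj l hl
      omega
    have hUc : Cn H (Q ∪ (T \ cmp H (T \ {p}) x)) := by
      have h1 : Cn H (T \ cmp H (T \ {p}) x) := by
        have hp' : p ∈ T \ cmp H (T \ {p}) x := ⟨hpT, fun h => (hKT p h).2 rfl⟩
        refine cn_of_rch (x := p) hp' ?_
        rintro y ⟨hyT, hyK⟩
        by_cases hyp : y = p
        · rw [hyp]
          exact Rch.refl H hp'
        · obtain ⟨u, hu, hup⟩ := exit_to hTc hpT hyT hyp
          have hsub : cmp H (T \ {p}) y ⊆ T \ cmp H (T \ {p}) x := by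
            intro z hz
            refine ⟨(Rch.right hz).1, fun hzK => hyK ?_⟩
            have hz' : Rch H (T \ {p}) y z := hz
            have hzK' : Rch H (T \ {p}) x z := hzK
            exact hzK'.trans hz'.symm
          have hyy : y ∈ cmp H (T \ {p}) y := Rch.refl H ⟨hyT, hyp⟩
          have huu : u ∈ cmp H (T \ {p}) y := hu
          have h2 : Rch H (T \ cmp H (T \ {p}) x) y u :=
            ((cn_comp (P := H) (S := T \ {p}) (x := y) ⟨hyT, hyp⟩).rch hyy huu).mono le_rfl hsub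
          exact (h2.trans (Rch.of_adj (hsub huu) hp' hup)).symm
      exact Cn.union hQc h1 ⟨p, hpQ, p, ⟨hpT, fun h => (hKT p h).2 rfl⟩, Or.inr rfl⟩
    refine ⟨k, Q ∪ (T \ cmp H (T \ {p}) x), cmp H (T \ {p}) x, ?_, ?_, ?_, hUc, hKc,
      Or.inl hsQ, ?_, ?_, ?_⟩
    · exact Set.union_subset hQS (fun z hz => hTS hz.1)
    · exact fun z hz => hTS (hKT z hz).1
    · rw [Set.disjoint_left]
      rintro z (hz | hz) hzK
      · exact (hKT z hzK).2 (hQT z hz (hKT z hzK).1)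
      · exact hz.2 hzK
    · obtain ⟨u, hu, hup⟩ := exit_to hTc hpT hx.1 hx.2
      exact ⟨p, Or.inl hpQ, u, hu, hup.symm⟩
    · obtain ⟨a, ha, b, hb, hab⟩ := hTt k
      refine ⟨a, Or.inr ⟨ha, fun haK => hk ⟨a, haK, b, hb, hab⟩⟩, b, hb, hab⟩
    · intro l hl
      rcases hall l hl with rfl | rfl
      · exact hi
      · exact hj
  · right
    push Not at hA
    let C : Fin 3 → Set V := fun i => {x | x ∈ T \ {p} ∧ Tch H (cmp H (T \ {p}) x) (B i)}
    have hCS : ∀ i, ∀ x ∈ C i, x ∈ Sx := fun i x hx => hTS hx.1.1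
    have hcmp : ∀ x ∈ T \ {p}, ∀ y ∈ cmp H (T \ {p}) x, cmp H (T \ {p}) y = cmp H (T \ {p}) x := by
      intro x hx y hy
      have hy' : Rch H (T \ {p}) x y := hy
      ext z
      exact ⟨fun hz => hy'.trans hz, fun hz => hy'.symm.trans hz⟩
    refine ⟨p, Q, fun i => B i ∪ C i, hQS, hQc, hsQ, hpQ, ?_, ?_⟩
    · intro i
      refine ⟨Set.subset_union_left, Set.union_subset_union_right _ (fun x hx => hCS i x hx),
        ?_, ?_, ?_⟩
      · obtain ⟨b0, hb0⟩ := (hB i).1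
        refine cn_of_rch (x := b0) (Or.inl hb0) ?_
        rintro y (hy | hy)
        · exact ((hB i).rch hb0 hy).mono le_rfl Set.subset_union_left
        · obtain ⟨hyT, u, hu, b, hb, hub⟩ := hy
          have hsub : cmp H (T \ {p}) y ⊆ B i ∪ C i := by
            intro z hz
            refine Or.inr ⟨Rch.right hz, ?_⟩
            rw [hcmp y hyT z hz]
            exact ⟨u, hu, b, hb, hub⟩
          have hyy : y ∈ cmp H (T \ {p}) y := Rch.refl H hyT
          have h1 : Rch H (B i ∪ C i) b0 b := ((hB i).rch hb0 hb).mono le_rfl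
            Set.subset_union_left
          have h2 : Rch H (B i ∪ C i) u y :=
            ((cn_comp (P := H) (S := T \ {p}) (x := y) hyT).rch hu hyy).mono le_rfl hsub
          exact (h1.trans (Rch.of_adj (Or.inl hb) (hsub hu) hub.symm)).trans h2
      · rw [Set.disjoint_left]
        rintro z hz (hzB | hzC)
        · exact (Set.disjoint_left.mp (hSB i)) (hQS hz) hzB
        · exact hzC.1.2 (hQT z hz hzC.1.1)
      · obtain ⟨a, ha, b, hb, hab⟩ := hTt i
        by_cases hap : a = p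
        · exact ⟨p, rfl, b, Or.inl hb, hap ▸ hab⟩
        · obtain ⟨u, hu, hup⟩ := exit_to hTc hpT ha hap
          refine ⟨p, rfl, u, Or.inr ⟨Rch.right hu, ?_⟩, hup.symm⟩
          rw [hcmp a ⟨ha, hap⟩ u hu]
          exact ⟨a, Rch.refl H ⟨ha, hap⟩, b, hb, hab⟩
    · intro i j hij
      rw [Set.disjoint_left]
      rintro z (hz | hz) (hz' | hz')
      · exact (Set.disjoint_left.mp (hBB i j hij)) hz hz'
      · exact (Set.disjoint_left.mp (hSB i)) (hCS j z hz') hz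
      · exact (Set.disjoint_left.mp (hSB j)) (hCS i z hz) hz'
      · exact hA z hz.1 i j hij hz.2 hz'.2

end Pool.Agent.PT2
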