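import Pool.Agent.PT2.StmtsP
import Pool.Agent.ACC.Lib
import Pool.Agent.KUR.Lib

/-!
MP_851278_al, squad APA, module CH1: boundaries in `P` of pulled back sets.
-/

set_option autoImplicit false

namespace Pool.Agent.PT2

open Pool.Agent.ACC Pool.Agent.KUR

namespace CH1Aux

theorem biunion_bound {A B : Type} (S : Set A) (hS : S.Finite) (F : A → Set B) (m : ℕ)
    (h : ∀ a ∈ S, (F a).Finite ∧ (F a).ncard ≤ m) :
    (⋃ a ∈ S, F a).Finite ∧ (⋃ a ∈ S, F a).ncard ≤ m * S.ncard := by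
  induction S, hS using Set.Finite.induction_on with
  | empty => simp
  | @insert a S ha hS ih =>
    obtain ⟨h1, h2⟩ := ih (fun x hx => h x (Set.mem_insert_of_mem _ hx))
    obtain ⟨h3, h4⟩ := h a (Set.mem_insert a S)
    rw [Set.biUnion_insert]
    refine ⟨h3.union h1, ?_⟩
    have h5 := Set.ncard_union_le (F a) (⋃ x ∈ S, F x)
    rw [Set.ncard_insert_of_notMem ha hS]
    calc (F a ∪ ⋃ x ∈ S, F x).ncard ≤ (F a).ncard + (⋃ x ∈ S, F x).ncard := h5
      _ ≤ m + m * S.ncard := Nat.add_le_add h4 h2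
      _ = m * (S.ncard + 1) := by ring

/-- pairs of neighbours of the component of `p` -/
def EP {V : Type} (Y : SimpleGraph V) (D : Set V) (p : V) : Set (Sym2 V) :=
  {e | p ∈ D ∧ ∃ x ∈ nbr Y (cmp Y D p), ∃ y ∈ nbr Y (cmp Y D p), e = s(x, y)}

theorem EP_bound {V : Type} (Y : SimpleGraph V) (Z : Set V) (c : ℕ) (D : Set V)
    (hD : Adm Y Z c D) (p : V) : (EP Y D p).Finite ∧ (EP Y D p).ncard ≤ 9 := by
  by_cases hp : p ∈ D
  · obtain ⟨⟨hf, hc⟩, -⟩ := hD p hp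
    have hsub : EP Y D p ⊆ (fun q : V × V => s(q.1, q.2)) ''
        ((nbr Y (cmp Y D p)) ×ˢ (nbr Y (cmp Y D p))) := by
      rintro e ⟨-, x, hx, y, hy, rfl⟩
      exact ⟨(x, y), ⟨hx, hy⟩, rfl⟩
    have hfp : ((nbr Y (cmp Y D p)) ×ˢ (nbr Y (cmp Y D p))).Finite := hf.prod hf
    refine ⟨(hfp.image _).subset hsub, ?_⟩
    have h1 := Set.ncard_le_ncard hsub (hfp.image _)
    have h2 := Set.ncard_image_le (f := fun q : V × V => s(q.1, q.2)) hfp
    have h3 : ((nbr Y (cmp Y D p)) ×ˢ (nbr Y (cmp Y D p))).ncard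
        = (nbr Y (cmp Y D p)).ncard * (nbr Y (cmp Y D p)).ncard := Set.ncard_prod
    have h4 : (nbr Y (cmp Y D p)).ncard * (nbr Y (cmp Y D p)).ncard ≤ 3 * 3 :=
      Nat.mul_le_mul hc hc
    omega
  · have : EP Y D p = ∅ := by
      ext e
      constructor
      · rintro ⟨h, -⟩
        exact absurd h hp
      · intro h
        exact absurd h (Set.notMem_empty e)
    rw [this]
    simp

/-- the pairs attached to an edge -/
def FE {V : Type} (Y : SimpleGraph V) (D : Set V) (e0 : Sym2 V) : Set (Sym2 V) :=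
  {e | ∃ p ∈ e0, e ∈ EP Y D p}

theorem FE_bound {V : Type} (Y : SimpleGraph V) (Z : Set V) (c : ℕ) (D : Set V)
    (hD : Adm Y Z c D) (e0 : Sym2 V) : (FE Y D e0).Finite ∧ (FE Y D e0).ncard ≤ 18 := by
  induction e0 with
  | _ a b =>
    have heq : FE Y D s(a, b) = EP Y D a ∪ EP Y D b := by
      ext e
      constructor
      · rintro ⟨p, hp, he⟩
        rcases Sym2.mem_iff.1 hp with rfl | rfl
        · exact Or.inl he
        · exact Or.inr he
      · rintro (he | he)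
        · exact ⟨a, Sym2.mem_iff.2 (Or.inl rfl), he⟩
        · exact ⟨b, Sym2.mem_iff.2 (Or.inr rfl), he⟩
    obtain ⟨h1, h2⟩ := EP_bound Y Z c D hD a
    obtain ⟨h3, h4⟩ := EP_bound Y Z c D hD b
    rw [heq]
    refine ⟨h1.union h3, ?_⟩
    have := Set.ncard_union_le (EP Y D a) (EP Y D b)
    omega

theorem cmp_eq {V : Type} (Y : SimpleGraph V) (D : Set V) {z p : V} (h : p ∈ cmp Y D z) :
    p ∈ D ∧ cmp Y D p = cmp Y D z := by
  have h' : Rch Y D z p := h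
  refine ⟨h'.right, ?_⟩
  ext u
  constructor
  · intro hu
    exact h'.trans hu
  · intro hu
    exact h'.symm.trans hu

end CH1Aux

theorem ch1_proof (hCRO : Stmt_CRO) : Stmt_CH1 := by
  intro V X Y G lam k c w D hctx Q c2 hfin hcard
  have hadm : Adm Y (ZZ X w) c D := hctx.max.1
  have hYX : Y ≤ X := hctx.st.sp.1
  have hsub : bd (ptor Y D) (tproj w ⁻¹' Q) ⊆
      bd X (tproj w ⁻¹' Q) ∪ ⋃ e ∈ bd X (tproj w ⁻¹' Q), CH1Aux.FE Y D e := by
    rintro e ⟨x, y, hxy, hx, hy, rfl⟩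
    obtain ⟨p, q, hpq, hp, hq, -, -, h⟩ := hCRO V X Y G lam k c w D hctx Q x y hxy hx hy
    have hmem : s(p, q) ∈ bd X (tproj w ⁻¹' Q) := ⟨p, q, hYX hpq, hp, hq, rfl⟩
    rcases h with ⟨rfl, rfl⟩ | ⟨z, hz, hxn, hyn, hc, -, -⟩
    · exact Or.inl hmem
    · right
      rw [Set.mem_iUnion₂]
      refine ⟨s(p, q), hmem, ?_⟩
      rcases hc with hc | hc
      · obtain ⟨hpD, heq⟩ := CH1Aux.cmp_eq Y D hc
        refine ⟨p, Sym2.mem_iff.2 (Or.inl rfl), hpD, x, ?_, y, ?_, rfl⟩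
        · rw [heq]; exact hxn
        · rw [heq]; exact hyn
      · obtain ⟨hpD, heq⟩ := CH1Aux.cmp_eq Y D hc
        refine ⟨q, Sym2.mem_iff.2 (Or.inr rfl), hpD, x, ?_, y, ?_, rfl⟩
        · rw [heq]; exact hxn
        · rw [heq]; exact hyn
  obtain ⟨hb1, hb2⟩ := CH1Aux.biunion_bound (bd X (tproj w ⁻¹' Q)) hfin (CH1Aux.FE Y D) 18
    (fun e _ => CH1Aux.FE_bound Y (ZZ X w) c D hadm e)
  refine ⟨(hfin.union hb1).subset hsub, ?_⟩
  have h1 := Set.ncard_le_ncard hsub (hfin.union hb1)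
  have h2 := Set.ncard_union_le (bd X (tproj w ⁻¹' Q))
    (⋃ e ∈ bd X (tproj w ⁻¹' Q), CH1Aux.FE Y D e)
  have h3 : 18 * (bd X (tproj w ⁻¹' Q)).ncard ≤ 18 * c2 := Nat.mul_le_mul_left 18 hcard
  omega

end Pool.Agent.PT2
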