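import Pool.Agent.PT2.StmtsP

/-!
MP_851278_al, module CH2: connectedness of `P` towards the end.
-/

set_option autoImplicit false

namespace Pool.Agent.PT2

open Pool.Agent.ACC Pool.Agent.KUR

theorem ch2_proof (h1 : Stmt_FAR) (h2 : Stmt_PRE) (h3 : Stmt_PWL) : Stmt_CH2 := by
  intro V X Y G lam k c w D A m M hc hT j
  obtain ⟨l, hjl, hl⟩ := h1 V X Y G lam k c w D A m M hc hT j lam
  refine ⟨l, hjl, fun x y hxD hyD hx hy => ?_⟩
  have hcn : Cn X (tproj w ⁻¹' (A l)) := h2 V X k w hc.st.con hc.vtx (A l) (hT.con l)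
  have hrx : Rch X (tproj w ⁻¹' (A l)) x y := hcn.rch hx hy
  have hself : ∀ u, tproj w u ∈ A l → tproj w u ∈ A j := by
    intro u hu
    refine hl u u hu ?_
    simp
  have hry : y ∈ {z | z ∈ tproj w ⁻¹' (A l) ∧ Rch Y (tproj w ⁻¹' (A j)) x z} := by
    refine hrx.closed _ ⟨hx, Rch.refl Y (hself x hx)⟩ ?_
    rintro u ⟨hu, hru⟩ v hv huv
    refine ⟨hv, hru.trans ?_⟩
    obtain ⟨hYX, hYc, hd⟩ := hc.st.sp
    obtain ⟨p, hp⟩ := hYc.exists_walk_length_eq_dist u v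
    refine ⟨p, fun z hz => ?_⟩
    classical
    refine hl u z hu ?_
    calc X.dist u z ≤ ((p.takeUntil z hz).mapLe hYX).length := SimpleGraph.dist_le _
      _ = (p.takeUntil z hz).length := by simp
      _ ≤ p.length := p.length_takeUntil_le_length hz
      _ ≤ lam := by rw [hp]; exact hd u v huv
  obtain ⟨p, hp⟩ := hry.2
  obtain ⟨q, -, hq⟩ := h3 V Y D x y p hxD hyD
  exact ⟨q, fun z hz => hp z (hq z hz)⟩

end Pool.Agent.PT2
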