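import Pool.Agent.PT2.StmtsP
import Pool.Agent.ACC.Lib
import Pool.Agent.KUR.Lib

set_option autoImplicit false

namespace Pool.Agent.PT2

open Pool.Agent.ACC Pool.Agent.KUR

theorem ch3_proof (h1 : Stmt_LIN) (h2 : Stmt_CMT) (h3 : Stmt_SEG) (h4 : Stmt_CNT)
    (_h5 : Stmt_ZED) : Stmt_CH3 := by
  intro V X Y G lam k c w D hctx
  obtain ⟨C0, hC0⟩ := h1 V X Y G lam hctx.st
  refine ⟨(1 + k) * C0 + 1, ?_⟩
  intro A m M hT
  have hanti : ∀ a b, a ≤ b → A b ⊆ A a := by
    intro a b hab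
    induction hab with
    | refl => exact subset_rfl
    | step _ ih => exact (hT.anti _).trans ih
  obtain ⟨j0, -, hP0⟩ := h2 V X Y G lam k c w D A m _ hctx hT 0
  refine ⟨j0, fun j F hF hFM => ?_⟩
  obtain ⟨k', hk', hP1⟩ := h2 V X Y G lam k c w D A m _ hctx hT (max j j0)
  by_contra hcon
  push Not at hcon
  set T : Set V := (F \ D)ᶜ with hTd
  set W : Set V := {v | tproj w v ∉ A 0 ∨ ∃ u, tproj w u ∉ A 0 ∧ Rch Y T u v} with hW
  have hself : ∀ z ∈ D, z ∈ cmp Y D z := fun z hz => Rch.refl Y hz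
  have claim : ∀ v, v ∈ W → tproj w v ∉ A k' := by
    intro v hv hvk
    rcases hv with hv | ⟨u, hu, huv⟩
    · exact hv (hanti 0 k' (Nat.zero_le _) hvk)
    · rcases h3 V Y D T u v huv with ⟨huD, hvD⟩ | ⟨x, y, hxD, hyD, hx, hy, hxy⟩
      · have := hP1 u huD v (Or.inl hvD) u (Or.inl (hself u huD)) hvk
        exact hu (hanti 0 _ (Nat.zero_le _) this)
      · have hxj : tproj w x ∉ A j0 := by
          intro hxA
          rcases hx with rfl | ⟨huD, hxn⟩
          · exact hu (hanti 0 _ (Nat.zero_le _) hxA)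
          · exact hu (hP0 u huD x (Or.inr hxn) u (Or.inl (hself u huD)) hxA)
        have hyj : tproj w y ∈ A j := by
          rcases hy with rfl | ⟨hvD, hyn⟩
          · exact hanti j k' ((le_max_left _ _).trans hk') hvk
          · exact hanti j _ (le_max_left _ _)
              (hP1 v hvD v (Or.inl (hself v hvD)) y (Or.inr hyn) hvk)
        have hxF : x ∈ Fᶜ := by
          intro hxF
          exact hxy.left ⟨hxF, hxD⟩
        have hr : y ∈ {z | z ∉ D ∧ Rch (ptor Y D) Fᶜ x z} := by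
          refine hxy.closed _ ⟨hxD, Rch.refl _ hxF⟩ ?_
          rintro a ⟨haD, ha⟩ b hbT hab
          have hbD : b ∉ D := hab.2.2.1
          have hbF : b ∈ Fᶜ := fun hbF => hbT ⟨hbF, hbD⟩
          exact ⟨hbD, ha.trans (Rch.of_adj ha.right hbF hab)⟩
        exact hcon x hxD hxj y hyD hyj hr.2
  have hbd : ∀ x ∈ W, ∀ y, y ∉ W → Y.Adj x y → x ∈ F ∨ y ∈ F := by
    intro v hv v' hv' hadj
    by_contra hno
    push Not at hno
    have hvT : v ∈ T := fun h => hno.1 h.1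
    have hvT' : v' ∈ T := fun h => hno.2 h.1
    apply hv'
    rcases hv with hv | ⟨u, hu, huv⟩
    · exact Or.inr ⟨v, hv, Rch.of_adj hvT hvT' hadj⟩
    · exact Or.inr ⟨u, hu, huv.trans (Rch.of_adj hvT hvT' hadj)⟩
  obtain ⟨hWf, hWc⟩ := hC0 W F hF hbd
  have hUf : (bd X Wᶜ).Finite := by rw [bd_compl]; exact hWf
  obtain ⟨hTf, hTc⟩ := h4 V X k w hctx.st.con hctx.vtx Wᶜ hUf
  have hmin := hT.min k' {t | ∀ x, tproj w x = t → x ∈ Wᶜ} (by
    rintro t ht x rfl hx
    exact claim x hx ht) (by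
    intro t ht
    induction t using Quot.ind with
    | _ x =>
      by_contra hx
      exact ht x rfl (Or.inl hx)) hTf
  rw [bd_compl] at hTc
  have h6 : (1 + k) * (bd X W).ncard ≤ (1 + k) * (C0 * F.ncard) := Nat.mul_le_mul_left _ hWc
  have h7 : (1 + k) * (C0 * F.ncard) ≤ (1 + k) * C0 * M := by
    calc (1 + k) * (C0 * F.ncard) = (1 + k) * C0 * F.ncard := by ring
      _ ≤ _ := Nat.mul_le_mul_left _ hFM.le
  have h8 : ((1 + k) * C0 + 1) * M = (1 + k) * C0 * M + M := by ring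
  omega

end Pool.Agent.PT2
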