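import Pool.Agent.PT2.StmtsP

/-!
MP_851278_al Part II, module CH4: the chain meets the graph `ptor Y D`.
-/

set_option autoImplicit false

namespace Pool.Agent.PT2

open Pool.Agent.ACC Pool.Agent.KUR

theorem ch4_proof (h1 : Stmt_FAR) (h2 : Stmt_ZED) (h3 : Stmt_GDP) : Stmt_CH4 := by
  intro V X Y G lam k c w D A m M hC hA j
  obtain ⟨-, c1, hG⟩ := h3 V X Y G lam k c w D hC
  obtain ⟨l, -, hl⟩ := h1 V X Y G lam k c w D A m M hC hA j c1
  obtain ⟨t, ht⟩ := (hA.con l).1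
  obtain ⟨z, hz, hzt⟩ := (h2 V X k w hC.st.con hC.vtx).2.1 t
  obtain ⟨x, hx, hzx⟩ := hG.cov z hz
  refine ⟨x, hx, hl z x ?_ hzx⟩
  rw [hzt]
  exact ht

end Pool.Agent.PT2
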