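import Pool.Agent.PT2.StmtsR
import Pool.Agent.ACC.Lib

/-!
MP_851278_al, PART II, module CHN: chains of bounded length in the trace.
-/

set_option autoImplicit false

namespace Pool.Agent.PT2

open Pool.Agent.ACC Pool.Agent.KUR

namespace CHN_

variable {V : Type}

theorem exists_walk {X : SimpleGraph V} (hX : X.Connected) (x y : V) :
    ∃ p : X.Walk x y, p.length = X.dist x y :=
  (hX.preconnected x y).exists_walk_length_eq_dist

theorem ball_finite {X : SimpleGraph V} (hX : X.Connected) (hl : LocFin X) (x : V) :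
    ∀ r : ℕ, {y | X.dist x y ≤ r}.Finite := by
  intro r
  induction r with
  | zero =>
    refine (Set.finite_singleton x).subset ?_
    intro y hy
    have h1 : X.dist x y ≤ 0 := hy
    have h2 : X.dist x y = 0 := Nat.le_zero.1 h1
    have h3 := (hX.dist_eq_zero_iff).1 h2
    rw [h3]
    exact Set.mem_singleton y
  | succ r ih =>
    refine (ih.union (ih.biUnion fun z _ => hl z)).subset ?_
    intro y hy
    have h1 : X.dist x y ≤ r + 1 := hy
    obtain ⟨p, hp⟩ := exists_walk hX y x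
    rw [SimpleGraph.dist_comm] at hp
    cases p with
    | nil =>
      refine Or.inl ?_
      show X.dist x x ≤ r
      rw [SimpleGraph.dist_self]
      exact Nat.zero_le r
    | @cons _ z _ h q =>
      rw [SimpleGraph.Walk.length_cons] at hp
      refine Or.inr ?_
      rw [Set.mem_iUnion₂]
      refine ⟨z, ?_, h.symm⟩
      show X.dist x z ≤ r
      rw [SimpleGraph.dist_comm]
      have h2 := SimpleGraph.dist_le q
      omega

theorem dist_map_le {X : SimpleGraph V} (hX : X.Connected) (g : V → V)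
    (hg : ∀ x y, X.Adj x y → X.Adj (g x) (g y)) (x y : V) :
    X.dist (g x) (g y) ≤ X.dist x y := by
  obtain ⟨p, hp⟩ := exists_walk hX x y
  let f : X →g X := ⟨g, fun {a b} h => hg a b h⟩
  have h1 := SimpleGraph.dist_le (p.map f)
  rw [SimpleGraph.Walk.length_map, hp] at h1
  exact h1

theorem dist_aut {X : SimpleGraph V} (hX : X.Connected) (g : Equiv.Perm V)
    (hg : ∀ x y, X.Adj (g x) (g y) ↔ X.Adj x y) (x y : V) :
    X.dist (g x) (g y) = X.dist x y := by
  apply le_antisymm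
  · exact dist_map_le hX g (fun x y h => (hg x y).2 h) x y
  · have h1 := dist_map_le hX (g⁻¹ : Equiv.Perm V) (fun x y h => (adj_inv hg x y).2 h) (g x) (g y)
    simpa using h1

theorem chn_mono {X : SimpleGraph V} {Z : Set V} {c m m' : ℕ} {x y : V} (h : m ≤ m')
    (hc : Chn X Z c m x y) : Chn X Z c m' x y := by
  obtain ⟨p, h0, hm, hp⟩ := hc
  refine ⟨fun i => p (min i m), ?_, ?_, ?_⟩
  · show p (min 0 m) = x
    rw [Nat.zero_min]; exact h0
  · show p (min m' m) = y
    rw [Nat.min_eq_right h]; exact hm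
  · intro i
    refine ⟨(hp _).1, ?_⟩
    show X.dist (p (min i m)) (p (min (i + 1) m)) ≤ c
    rcases lt_or_ge i m with h1 | h1
    · rw [Nat.min_eq_left h1.le, Nat.min_eq_left h1]
      exact (hp i).2
    · rw [Nat.min_eq_right h1, Nat.min_eq_right (by omega), SimpleGraph.dist_self]
      exact Nat.zero_le _

theorem chn_of_rtg {X : SimpleGraph V} {Z : Set V} {c : ℕ} {x y : V} (hx : x ∈ Z)
    (h : Relation.ReflTransGen (fun a b => b ∈ Z ∧ X.dist a b ≤ c) x y) :
    ∃ m, Chn X Z c m x y := by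
  induction h with
  | refl =>
    refine ⟨0, fun _ => x, rfl, rfl, fun i => ⟨hx, ?_⟩⟩
    show X.dist x x ≤ c
    rw [SimpleGraph.dist_self]
    exact Nat.zero_le _
  | @tail b d _ hbd ih =>
    obtain ⟨m, p, h0, hm, hp⟩ := ih
    refine ⟨m + 1, fun i => if i ≤ m then p i else d, ?_, ?_, ?_⟩
    · show (if 0 ≤ m then p 0 else d) = x
      rw [if_pos (Nat.zero_le _)]; exact h0
    · show (if m + 1 ≤ m then p (m + 1) else d) = d
      rw [if_neg (by omega)]
    · intro i
      show (if i ≤ m then p i else d) ∈ Z ∧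
        X.dist (if i ≤ m then p i else d) (if i + 1 ≤ m then p (i + 1) else d) ≤ c
      rcases lt_trichotomy i m with h1 | h1 | h1
      · rw [if_pos h1.le, if_pos (by omega)]
        exact hp i
      · subst h1
        rw [if_pos le_rfl, if_neg (by omega), hm]
        refine ⟨?_, hbd.2⟩
        rw [← hm]
        exact (hp i).1
      · rw [if_neg (by omega), if_neg (by omega), SimpleGraph.dist_self]
        exact ⟨hbd.1, Nat.zero_le _⟩

end CHN_

open CHN_ in
theorem chn_proof (h1 : Stmt_ZCC) (h2 : Stmt_ZCF) (h3 : Stmt_ZST) : Stmt_CHN := by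
  intro V X G E N hX hl hG hV hN
  obtain ⟨c, hc⟩ := h1 V X G E N hX hG hN
  refine ⟨c, fun v hv R => ?_⟩
  obtain ⟨F, hF, hFZ, hFr⟩ := h2 V X G E v N hG hV hN hv
  -- finitely many pairs
  have hT : (⋃ y ∈ F, (fun z => (y, z)) '' {z | X.dist y z ≤ R}).Finite :=
    hF.biUnion fun y _ => (ball_finite hX hl y R).image _
  set T : Set (V × V) := ⋃ y ∈ F, (fun z => (y, z)) '' {z | X.dist y z ≤ R} with hTdef
  have hch : ∀ t : V × V, ∃ m : ℕ, t.1 ∈ ZZ X v → t.2 ∈ ZZ X v →
      Chn X (ZZ X v) c m t.1 t.2 := by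
    intro t
    by_cases ht1 : t.1 ∈ ZZ X v
    · by_cases ht2 : t.2 ∈ ZZ X v
      · obtain ⟨m, hm⟩ := chn_of_rtg ht1 (hc v hv t.1 ht1 t.2 ht2)
        exact ⟨m, fun _ _ => hm⟩
      · exact ⟨0, fun _ h => absurd h ht2⟩
    · exact ⟨0, fun h _ => absurd h ht1⟩
  choose L hL using hch
  obtain ⟨m, hm⟩ := (hT.image L).bddAbove
  refine ⟨m, fun x hx y hy hxy => ?_⟩
  obtain ⟨g, hg, x0, hx0, hgx⟩ := hFr x hx
  have hgG : ∀ a b, X.Adj (g a) (g b) ↔ X.Adj a b := hG g hg.1
  have hst := h3 V X G v hG g hg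
  set y0 : V := (g⁻¹ : Equiv.Perm V) y with hy0
  have hgy : g y0 = y := by rw [hy0]; simp
  have hx0Z : x0 ∈ ZZ X v := hFZ hx0
  have hy0Z : y0 ∈ ZZ X v := by
    rw [← hst, hgy]; exact hy
  have hd : X.dist x0 y0 ≤ R := by
    rw [← dist_aut hX g hgG, hgx, hgy]; exact hxy
  have hmem : (x0, y0) ∈ T := by
    rw [hTdef]
    refine Set.mem_biUnion hx0 ?_
    exact ⟨y0, hd, rfl⟩
  have hle : L (x0, y0) ≤ m := hm ⟨(x0, y0), hmem, rfl⟩
  obtain ⟨p, p0, pm, hp⟩ := chn_mono hle (hL (x0, y0) hx0Z hy0Z)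
  refine ⟨fun i => g (p i), ?_, ?_, ?_⟩
  · show g (p 0) = x
    rw [p0]; exact hgx
  · show g (p m) = y
    rw [pm]; exact hgy
  · intro i
    refine ⟨(hst _).2 (hp i).1, ?_⟩
    show X.dist (g (p i)) (g (p (i + 1))) ≤ c
    rw [dist_aut hX g hgG]
    exact (hp i).2

end Pool.Agent.PT2
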