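import Pool.Agent.PT2.StmtsP

set_option autoImplicit false

namespace Pool.Agent.PT2

open Pool.Agent.ACC Pool.Agent.KUR

namespace CMTAux

variable {V : Type}

/-- component and its neighbours are connected -/
theorem rch_K {Y : SimpleGraph V} {D : Set V} {z : V} (hz : z ∈ D) {x : V}
    (hx : x ∈ cmp Y D z ∪ nbr Y (cmp Y D z)) :
    Rch Y (cmp Y D z ∪ nbr Y (cmp Y D z)) z x := by
  have hcn : Cn Y (cmp Y D z) := cn_comp hz
  have hzz : z ∈ cmp Y D z := Rch.refl Y hz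
  rcases hx with hx | hx
  · exact (hcn.rch hzz hx).mono le_rfl Set.subset_union_left
  · obtain ⟨hx1, u, hu, hux⟩ := hx
    refine ((hcn.rch hzz hu).mono le_rfl Set.subset_union_left).trans ?_
    exact Rch.of_adj (Or.inl hu) (Or.inr ⟨hx1, u, hu, hux⟩) hux

end CMTAux

open CMTAux

theorem cmt_proof (hFAR : Stmt_FAR) (hZED : Stmt_ZED) : Stmt_CMT := by
  intro V X Y G lam k c w D A m M hC hT j
  have hstep : ∀ a : ℕ, ∃ b, a ≤ b ∧ ∀ x y : V, tproj w x ∈ A b → X.dist x y ≤ 1 →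
      tproj w y ∈ A a :=
    fun a => hFAR V X Y G lam k c w D A m M hC hT a 1
  choose g hg1 hg2 using hstep
  obtain ⟨f, hf0, hfs⟩ : ∃ f : ℕ → ℕ, f 0 = j ∧ ∀ i, f (i + 1) = g (f i) :=
    ⟨fun i => Nat.rec j (fun _ a => g a) i, rfl, fun _ => rfl⟩
  have hfm : Monotone f := monotone_nat_of_le_succ (fun i => by rw [hfs]; exact hg1 _)
  have hA : ∀ a b, a ≤ b → A b ⊆ A a := fun a b hab => antitone_nat_of_succ_le hT.anti hab
  refine ⟨f (c + 4), by rw [← hf0]; exact hfm (Nat.zero_le _), ?_⟩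
  intro z hz x hx y hy hxA
  by_contra hyA
  have hYX : Y ≤ X := hC.st.sp.1
  have hzed := (hZED V X k w hC.st.con hC.vtx).1
  have hxy : Rch Y (cmp Y D z ∪ nbr Y (cmp Y D z)) x y := (rch_K hz hx).symm.trans (rch_K hz hy)
  have key : ∀ i : Fin (c + 4), ∃ p, p ∈ (cmp Y D z ∪ nbr Y (cmp Y D z)) ∧ p ∈ ZZ X w ∧
      tproj w p ∈ A (f i) ∧ tproj w p ∉ A (f (i + 1)) := by
    intro i
    have h1 : x ∈ {v | tproj w v ∈ A (f i)} := hA _ _ (hfm (le_of_lt i.2)) hxA
    have h2 : y ∉ {v | tproj w v ∈ A (f i)} := by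
      intro h
      apply hyA
      rw [← hf0]
      exact hA _ _ (hfm (Nat.zero_le _)) h
    obtain ⟨p, q, hp, hq, hpK, hqK, hpq, -⟩ := hxy.exit _ h1 h2
    simp only [Set.mem_setOf_eq] at hp hq
    have hadj : X.Adj p q := hYX hpq
    refine ⟨p, hpK, (hzed p q hadj (fun h => hq (h ▸ hp))).1, hp, ?_⟩
    intro h
    apply hq
    rw [hfs] at h
    refine hg2 _ p q h ?_
    have h3 := SimpleGraph.dist_le hadj.toWalk
    simpa using h3
  choose p hpK hpZ hpA hpnA using key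
  have hinj : Function.Injective p := by
    have hlt : ∀ i i' : Fin (c + 4), i < i' → p i ≠ p i' := by
      intro i i' hii h
      apply hpnA i
      rw [h]
      refine hA _ _ (hfm ?_) (hpA i')
      exact hii
    intro i i' h
    rcases lt_trichotomy i i' with h1 | h1 | h1
    · exact absurd h (hlt i i' h1)
    · exact h1
    · exact absurd h.symm (hlt i' i h1)
  obtain ⟨⟨hN1, hN2⟩, hI1, hI2⟩ := hC.max.1 z hz
  have hfin : ((cmp Y D z ∩ ZZ X w) ∪ nbr Y (cmp Y D z)).Finite := hI1.union hN1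
  have hcard : ((cmp Y D z ∩ ZZ X w) ∪ nbr Y (cmp Y D z)).ncard ≤ c + 3 :=
    (Set.ncard_union_le _ _).trans (Nat.add_le_add hI2 hN2)
  have hrange : Set.range p ⊆ (cmp Y D z ∩ ZZ X w) ∪ nbr Y (cmp Y D z) := by
    rintro _ ⟨i, rfl⟩
    rcases hpK i with h | h
    · exact Or.inl ⟨h, hpZ i⟩
    · exact Or.inr h
  have h5 : (Set.range p).ncard = c + 4 := by
    rw [← Set.image_univ, Set.ncard_image_of_injective _ hinj, Set.ncard_univ, Nat.card_eq_fintype_card,
      Fintype.card_fin]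
  have h6 := Set.ncard_le_ncard hrange hfin
  omega

end Pool.Agent.PT2
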