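import Pool.Agent.PT2.StmtsP
import Pool.Agent.ACC.Lib
import Pool.Agent.KUR.Lib

set_option autoImplicit false

namespace Pool.Agent.PT2

open Pool.Agent.ACC Pool.Agent.KUR

theorem cnp_proof (hPNG : Stmt_PNG) (hCH1 : Stmt_CH1) (hCH2 : Stmt_CH2) (hCH3 : Stmt_CH3)
    (hCH4 : Stmt_CH4) (hHZC : Stmt_HZC) (hMX4 : Stmt_MX4) (hGDP : Stmt_GDP) (hPWL : Stmt_PWL)
    (hTOC : Pool.Agent.ACC.Stmt_TOC) (hTOG : Pool.Agent.ACC.Stmt_TOG)
    (hTOE : Pool.Agent.ACC.Stmt_TOE) (hNFE : Pool.Agent.ACC.Stmt_NFE)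
    (hEFV : Pool.Agent.ACC.Stmt_EFV) : Stmt_CNP := by
  intro V X Y G lam k c w D hctx hacc
  obtain ⟨c3, hc3⟩ := hHZC V X Y G lam k c w D hctx
  refine ⟨c3, fun M => ?_⟩
  obtain ⟨C, hC⟩ := hCH3 V X Y G lam k c w D hctx
  have hst := hctx.st
  have hEF : EdgeFin X G := hEFV V X G hst.lf hst.aut hst.vf
  have hNF : NestFam X G (EE X k) k := hNFE V X G hst.con hst.aut hEF k
  obtain ⟨hTcon, hTlf⟩ := hTOC V X G (EE X k) w k hst.con hNF hctx.vtx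
  obtain ⟨hTaut, hTvf, -⟩ := hTOG V X G (EE X k) w k hst.con hst.aut hNF hctx.vtx
  obtain ⟨A0, m0, hT⟩ := hPNG (TV w) (torso X w) (torsoG G w) hTcon (hTlf hst.lf) hTaut
    (hTvf hst.vf) hacc (C * M)
  obtain ⟨j0, hj0⟩ := hC A0 m0 M hT
  have hanti : ∀ a b, a ≤ b → A0 b ⊆ A0 a := by
    intro a b hab
    induction hab with
    | refl => exact subset_rfl
    | step _ ih => exact (hT.anti _).trans ih
  refine ⟨fun j => tproj w ⁻¹' (A0 (j0 + j)), 19 * ((k + 1) * m0), ?_, ?_, ?_⟩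
  · refine ⟨(hGDP V X Y G lam k c w D hctx).1, ?_, ?_, ?_, ?_, ?_, ?_, ?_, ?_⟩
    · intro x y hxy
      exact hxy.2.1
    · intro x hx y hy
      obtain ⟨p⟩ := hst.sp.2.1.preconnected x y
      obtain ⟨q, -, -⟩ := hPWL V Y D x y p hx hy
      have hr : Rch (ptor Y D) Set.univ x y := ⟨q, fun _ _ => trivial⟩
      refine hr.closed {z | Rch (ptor Y D) Dᶜ x z} (Rch.refl _ hx) ?_
      intro u hu v _ huv
      have hv : v ∈ Dᶜ := huv.2.2.1
      exact Rch.trans hu (Rch.of_adj (Rch.right hu) hv huv)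
    · intro j x hx
      exact hT.anti (j0 + j) hx
    · intro x
      obtain ⟨j, hj⟩ := hT.leave (tproj w x)
      exact ⟨j, fun h => hj (hanti j (j0 + j) (by omega) h)⟩
    · intro j
      obtain ⟨h1, h2⟩ := hT.bfin (j0 + j)
      obtain ⟨h3, h4⟩ := (hTOE V X G (EE X k) w k hNF hctx.vtx (A0 (j0 + j))).1 h1
      refine hCH1 V X Y G lam k c w D hctx (A0 (j0 + j)) ((k + 1) * m0) h3 ?_
      exact h4.trans (Nat.mul_le_mul_left _ h2)
    · intro j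
      obtain ⟨x, hx, hx'⟩ := hCH4 V X Y G lam k c w D A0 m0 _ hctx hT (j0 + j)
      exact ⟨x, hx', hx⟩
    · intro j
      obtain ⟨l, hl, h⟩ := hCH2 V X Y G lam k c w D A0 m0 _ hctx hT (j0 + j)
      refine ⟨l - j0, by omega, ?_⟩
      have hlj : j0 + (l - j0) = l := by omega
      rintro x ⟨hx, hxD⟩ y ⟨hy, hyD⟩
      rw [Set.mem_preimage, hlj] at hx hy
      exact h x y hxD hyD hx hy
    · intro j F hF hFM
      obtain ⟨x, hx1, hx2, y, hy1, hy2, hr⟩ := hj0 (j0 + j) F hF hFM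
      exact ⟨x, hx1, hx2, y, hy2, hr⟩
  · exact hMX4 V X Y G lam k c w D A0 m0 _ hctx hT j0
  · intro j x y hxy hx hy
    exact hc3 (A0 (j0 + j)) x y hxy hx hy

end Pool.Agent.PT2
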