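import Pool.Agent.PT2.StmtsP

/-!
MP_851278_al, module CNT: boundaries of saturated parts of a set in the torso.
-/

set_option autoImplicit false

namespace Pool.Agent.PT2

open Pool.Agent.ACC Pool.Agent.KUR

namespace CNT_

/-- union bound -/
theorem union_bound {α β : Type} (N : α → Set β) (m : ℕ) {S : Set α} (hS : S.Finite)
    (h : ∀ e ∈ S, (N e).Finite ∧ (N e).ncard ≤ m) :
    (⋃ e ∈ S, N e).Finite ∧ (⋃ e ∈ S, N e).ncard ≤ m * S.ncard := by
  induction S, hS using Set.Finite.induction_on with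
  | empty => simp
  | @insert a S ha hS ih =>
    obtain ⟨h1, h2⟩ := ih fun e he => h e (Set.mem_insert_of_mem a he)
    obtain ⟨h3, h4⟩ := h a (Set.mem_insert a S)
    rw [Set.biUnion_insert]
    refine ⟨h3.union h1, (Set.ncard_union_le _ _).trans ?_⟩
    rw [Set.ncard_insert_of_notMem ha hS, mul_add, mul_one]
    omega

end CNT_

open CNT_ in
theorem cnt_proof (h1 : Stmt_ZED) (h2 : Pool.Agent.ACC.Stmt_HUA) (h3 : Pool.Agent.ACC.Stmt_DDF) :
    Stmt_CNT := by
  intro V X k w hX hw U hU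
  obtain ⟨-, -, -, z4⟩ := h1 V X k w hX hw
  have hG := h3 V X hX k
  have hN : NestSet (EE X k) :=
    ⟨hG.compl, fun A hA => by
      obtain ⟨x⟩ := (hG.bond A hA).2.1.nonempty
      exact ⟨x.1, x.2⟩, hG.nested⟩
  obtain ⟨-, u2, -, u4⟩ := h2 V (EE X k) w hN hw
  -- the sets `N e`
  set N : Sym2 V → Set (Sym2 (TV w)) := fun e => {Sym2.map (tproj w) e} ∪
    {f | ∃ C ∈ Hub w, (∀ a ∈ e, a ∈ C) ∧ f ∈ Sym2.map (tproj w) '' bd X C} with hNdef
  have hNb : ∀ e ∈ bd X U, (N e).Finite ∧ (N e).ncard ≤ 1 + k := by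
    intro e _
    have hs : (({Sym2.map (tproj w) e} : Set (Sym2 (TV w)))).Finite := Set.finite_singleton _
    by_cases hC : ∃ C ∈ Hub w, ∀ a ∈ e, a ∈ C
    · obtain ⟨C, hC, hCe⟩ := hC
      have hsub : {f | ∃ C ∈ Hub w, (∀ a ∈ e, a ∈ C) ∧ f ∈ Sym2.map (tproj w) '' bd X C} ⊆
          Sym2.map (tproj w) '' bd X C := by
        rintro f ⟨C', hC', hCe', hf⟩
        have : C' = C := by
          by_contra hne
          obtain ⟨a, ha⟩ : ∃ a, a ∈ e := by
            induction e using Sym2.ind with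
            | _ x y => exact ⟨x, Sym2.mem_mk_left x y⟩
          exact Set.disjoint_left.mp (u2 C' hC' C hC hne) (hCe' a ha) (hCe a ha)
        rw [this] at hf
        exact hf
      have hfin := (z4 C hC).2.1.image (Sym2.map (tproj w))
      have hcard : (Sym2.map (tproj w) '' bd X C).ncard ≤ k :=
        (Set.ncard_image_le (z4 C hC).2.1).trans (z4 C hC).2.2
      refine ⟨hs.union (hfin.subset hsub), (Set.ncard_union_le _ _).trans ?_⟩
      rw [Set.ncard_singleton]
      have := Set.ncard_le_ncard hsub hfin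
      omega
    · have hem : {f | ∃ C ∈ Hub w, (∀ a ∈ e, a ∈ C) ∧ f ∈ Sym2.map (tproj w) '' bd X C} = ∅ := by
        rw [Set.eq_empty_iff_forall_notMem]
        rintro f ⟨C', hC', hCe', -⟩
        exact hC ⟨C', hC', hCe'⟩
      rw [hNdef]
      simp only
      rw [hem, Set.union_empty, Set.ncard_singleton]
      exact ⟨hs, by omega⟩
  have hsub : bd (torso X w) {t | ∀ x, tproj w x = t → x ∈ U} ⊆ ⋃ e ∈ bd X U, N e := by
    rintro f ⟨t, t', ⟨hne, a, b, hab, hat, hbt⟩, ht, ht', rfl⟩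
    have haU : a ∈ U := ht a hat
    by_cases hbU : b ∈ U
    · have : ∃ b', tproj w b' = t' ∧ b' ∉ U := by
        by_contra hcon
        push Not at hcon
        exact ht' hcon
      obtain ⟨b', hb't, hb'U⟩ := this
      rcases (u4 b b').mp (hbt.trans hb't.symm) with h | ⟨C, hC, hbC, hb'C⟩
      · exact absurd (h ▸ hbU) hb'U
      · obtain ⟨u, v, huU, hvU, huC, hvC, huv, -⟩ :=
          ((z4 C hC).1.rch hbC hb'C).exit U hbU hb'U
        have haC : a ∉ C := fun haC => hne (by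
          rw [← hat, ← hbt]
          exact (u4 a b).mpr (Or.inr ⟨C, hC, haC, hbC⟩))
        refine Set.mem_biUnion (x := s(u, v)) ⟨u, v, huv, huU, hvU, rfl⟩ (Or.inr ⟨C, hC, ?_, ?_⟩)
        · intro c hc
          rcases Sym2.mem_iff.mp hc with rfl | rfl
          · exact huC
          · exact hvC
        · refine ⟨s(b, a), ⟨b, a, hab.symm, hbC, haC, rfl⟩, ?_⟩
          rw [Sym2.map_mk, hat, hbt]
          exact Sym2.eq_swap
    · refine Set.mem_biUnion (x := s(a, b)) ⟨a, b, hab, haU, hbU, rfl⟩ (Or.inl ?_)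
      rw [Set.mem_singleton_iff, Sym2.map_mk, hat, hbt]
  obtain ⟨g1, g2⟩ := union_bound N (1 + k) hU hNb
  exact ⟨g1.subset hsub, (Set.ncard_le_ncard hsub g1).trans g2⟩

end Pool.Agent.PT2
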