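import Pool.Agent.PT2.Stmts

set_option autoImplicit false

namespace Pool.Agent.PT2

open Pool.Agent.ACC Pool.Agent.KUR

namespace COR_

theorem cnn_symm {V : Type} {μ : ℕ} {P : SimpleGraph V} {W : ℕ → Set V}
    {T : ℕ → Fin μ → Set V} {j : ℕ} {i i' : Fin μ} (h : Cnn P W T j i i') :
    Cnn P W T j i' i := by
  obtain ⟨x, hx, y, hy, hr⟩ := h
  refine ⟨y, hy, x, hx, ?_⟩
  have h1 : Off W T j ∪ {x, y} = Off W T j ∪ {y, x} := by
    rw [Set.pair_comm]
  rw [h1] at hr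
  exact hr.symm

theorem ci_symm {V : Type} {μ : ℕ} {P : SimpleGraph V} {W : ℕ → Set V}
    {T : ℕ → Fin μ → Set V} {i i' : Fin μ} (h : CI P W T i i') : CI P W T i' i := by
  refine ⟨h.1.symm, fun j0 => ?_⟩
  obtain ⟨j, hj, hc⟩ := h.2 j0
  exact ⟨j, hj, cnn_symm hc⟩

theorem swapAt_symm {V : Type} {μ : ℕ} {P : SimpleGraph V} {W : ℕ → Set V}
    {s : ℕ → Fin μ → V} {T : ℕ → Fin μ → Set V} {Fs : Set (Fin μ)} {i0 i1 : Fin μ} {j0 j1 : ℕ}
    (h : SwapAt P W s T Fs i0 i1 j0 j1) : SwapAt P W s T Fs i1 i0 j0 j1 := by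
  obtain ⟨h0, K0, K1, h1, h2, h3, h4, h5, h6, h7, h8, h9⟩ := h
  refine ⟨h0, K1, K0, h2, h1, h3.symm, h6, h7, h4, h5, ?_, ?_⟩
  · intro x hx
    exact h8 x (Set.union_comm K1 K0 ▸ hx)
  · intro x hx
    exact h9 x (Set.union_comm K1 K0 ▸ hx)

theorem nokur_anti {V : Type} {P : SimpleGraph V} {B C : Set V} (h : NoKur P C) (hBC : B ⊆ C) :
    NoKur P B := by
  refine ⟨?_, ?_⟩
  · rintro ⟨X, Y, hm, h1, h2⟩
    exact h.1 ⟨X, Y, hm, fun i => (h1 i).trans hBC, fun i => (h2 i).trans hBC⟩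
  · rintro ⟨X, hm, h1⟩
    exact h.2 ⟨X, hm, fun i => (h1 i).trans hBC⟩

end COR_

open COR_ in
theorem cor_proof (h1 : Stmt_STP) (h2 : Stmt_RGC) (h3 : Stmt_REG) (h4 : Stmt_GEO)
    (h5 : Stmt_BST) (h6 : Stmt_BSW) (h7 : Stmt_BTT) (h8 : Stmt_TOK) (h9 : Stmt_BAL)
    (h10 : Stmt_WSW) : Stmt_COR := by
  intro t r
  obtain ⟨M0, hM0⟩ := h4 t (t + 1) ((t + 2 + 2 * (r + 8)) + t + 1)
  refine ⟨max 4 M0, ?_⟩
  intro V P S Zc A c hch hmax hZ
  obtain ⟨μ, W, s, T, hMμ, hst, hWS, hWA⟩ := h1 V P S A c _ hch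
  have hrgc := h2 V P S A c _ μ W s T hch hst hWS hWA
  obtain ⟨W', s', T', hst', hWS', hWA', hreg⟩ := h3 V P S A μ W s T hst hWS hWA
  have hsymm : ∀ i i', CI P W T i i' → CI P W T i' i := fun i i' h => ci_symm h
  have hirr : ∀ i, ¬ CI P W T i i := fun i h => h.1 rfl
  have hadj : ∀ i i', CI P W T i i' → i ≠ i' ∧ ∀ j, Cnn P W' T' j i i' := by
    intro i i' h
    exact ⟨h.1, fun j => (hreg i i' h.1 j).2 h⟩
  have hμ4 : 4 ≤ μ := (le_max_left _ _).trans hMμ
  rcases hM0 μ (CI P W T) ((le_max_right _ _).trans hMμ) hsymm hirr hrgc with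
    ⟨c0, l, hl, hcl⟩ | ⟨q, u, hq1, hq2, hq3, hq4⟩ | ⟨q, hq1, hq2, hq3⟩
  · left
    have hp := h5 μ t (CI P W T) (fun _ _ _ => False) c0 l hsymm hirr hl hcl
    exact h8 V P μ t W' s' T' (CI P W T) (fun _ _ _ => False) hst' hsymm hadj
      (fun _ _ _ h => h) (fun _ _ _ h => h.elim) hp
  · left
    have hp := h7 μ t (t + 1) (CI P W T) (fun _ _ _ => False) q u hsymm hq1 hq2 le_rfl hq3 hq4
    exact h8 V P μ t W' s' T' (CI P W T) (fun _ _ _ => False) hst' hsymm hadj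
      (fun _ _ _ h => h) (fun _ _ _ h => h.elim) hp
  · set α := t + 2 with hα
    set β := α + 2 * (r + 8) with hβ
    set L := β + t + 1 with hL
    have hlane : Lane P S A μ W' s' T' q L := by
      refine ⟨hst', hWS', hch.sup, hch.con, hWA', hμ4, hq1, ?_, ?_⟩
      · intro j i hi1 hi2
        exact (hadj _ _ (hq2 i hi1 hi2)).2 j
      · intro j i u hi1 hi2 hu hc
        exact hq3 i u hi1 hi2 ((hreg (q i) u hu.symm j).1 hc)
    by_cases hx : ∃ x ∈ S ∩ Zc, NoKur P {y | ∃ w : P.Walk x y, w.length ≤ r}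
    · exact Or.inr hx
    · left
      push Not at hx
      set Fs : Set (Fin μ) := {u | ∃ i, α ≤ i ∧ i ≤ β ∧ u = q i} with hFs
      have hsw : ∀ j, ∃ j0 j1, j ≤ j0 ∧ SwapAt P W' s' T' Fs (q α) (q β) j0 j1 := by
        intro j
        set i0 := α + r + 8 with hi0
        set J := j + r + 8 with hJ
        obtain ⟨k, hk⟩ := hch.leave (s' J (q i0))
        obtain ⟨j2, hj2⟩ := hWA' k
        have hanti : ∀ a b, a ≤ b → W' b ⊆ W' a := by
          intro a b hab
          induction hab with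
          | refl => exact subset_rfl
          | step _ ih => exact (hst'.anti _).trans ih
        -- first level where the track is in `A k`
        have hex : ∃ l, J ≤ l ∧ s' l (q i0) ∉ A k ∧ s' (l + 1) (q i0) ∈ A k := by
          by_contra hcon
          push Not at hcon
          have hall : ∀ m, s' (J + m) (q i0) ∉ A k := by
            intro m
            induction m with
            | zero => exact hk
            | succ m ih => exact hcon (J + m) (by omega) ih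
          have h11 := hall j2
          exact h11 (hj2 (hanti j2 (J + j2) (by omega) (hst'.sW (J + j2) (q i0)).1))
        obtain ⟨l, hl, hl1, hl2⟩ := hex
        have hr := (hst'.cn l (q i0)).rch (hst'.hi l (q i0)) (hst'.lo l (q i0))
        obtain ⟨x, y, hxA, hyA, hxT, hyT, hxy, -⟩ := hr.exit (A k) hl2 hl1
        have hxS : x ∈ S := hch.sup x y hxy
        have hxZ : x ∈ Zc := hZ k x y hxy hxA hyA
        have hnk := hx x ⟨hxS, hxZ⟩
        refine ⟨l - r - 8, l + r + 9, by omega, ?_⟩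
        refine h10 V P S A μ W' s' T' q L α β (l - r - 8) (l + r + 9) hlane hmax (by omega)
          (by omega) (by omega) (by omega) ?_
        intro hno
        refine hnk (nokur_anti hno ?_)
        rintro z ⟨w, hw⟩
        obtain ⟨l', i', hl1', hl2', hi1', hi2', hloc⟩ := h9 V P S A μ W' s' T' q L l i0 r x z w
          hlane (Or.inl hxT) (by omega) (by omega) (by omega) hw
        exact ⟨l', i', by omega, by omega, by omega, by omega, hloc⟩
      set sw : Set (Fin μ) → Fin μ → Fin μ → Prop := fun Fs' i i' => Fs' = Fs ∧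
        ((i = q α ∧ i' = q β) ∨ (i = q β ∧ i' = q α)) with hswd
      have hp := h6 μ t L α β (CI P W T) sw q Fs hsymm hq1 hq2 (by omega) (by omega) (by omega)
        ⟨rfl, Or.inl ⟨rfl, rfl⟩⟩ ⟨rfl, Or.inr ⟨rfl, rfl⟩⟩ (by
          rintro i hi1 hi2 ⟨i2, h21, h22, h23⟩
          have := hq1 i i2 hi1 hi2 (by omega) (by omega) h23
          omega)
      refine h8 V P μ t W' s' T' (CI P W T) sw hst' hsymm hadj ?_ ?_ hp
      · rintro Fs' i i' ⟨h, h'⟩
        refine ⟨h, ?_⟩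
        rcases h' with ⟨ha, hb⟩ | ⟨ha, hb⟩
        · exact Or.inr ⟨hb, ha⟩
        · exact Or.inl ⟨hb, ha⟩
      · rintro Fs' i i' ⟨rfl, h'⟩ j
        obtain ⟨j0, j1, hj, hs⟩ := hsw j
        rcases h' with ⟨rfl, rfl⟩ | ⟨rfl, rfl⟩
        · exact ⟨j0, j1, hj, hs⟩
        · exact ⟨j0, j1, hj, swapAt_symm hs⟩

end Pool.Agent.PT2
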