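import Pool.Agent.PT2.StmtsP
import Pool.Agent.ACC.Lib
import Pool.Agent.KUR.Lib

/-!
MP_851278_al, squad APA, module CRO: crossing edges of `P` come from crossing edges of `X`.
-/

set_option autoImplicit false

namespace Pool.Agent.PT2

open Pool.Agent.ACC Pool.Agent.KUR

theorem cro_proof (hPAD : Stmt_PAD) (hZED : Stmt_ZED) : Stmt_CRO := by
  intro V X Y G lam k c w D hC Q x y hxy hx hy
  have hZ := (hZED V X k w hC.st.con hC.vtx).1
  have hYX : Y ≤ X := hC.st.sp.1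
  have hzz : ∀ p q, Y.Adj p q → tproj w p ∈ Q → tproj w q ∉ Q → p ∈ ZZ X w ∧ q ∈ ZZ X w := by
    intro p q hpq hp hq
    refine hZ p q (hYX hpq) ?_
    intro h
    rw [h] at hp
    exact hq hp
  obtain ⟨-, -, -, h | ⟨z, hz, hxn, hyn⟩⟩ := (hPAD V Y D x y).1 hxy
  · have h1 := hzz x y h hx hy
    exact ⟨x, y, h, hx, hy, h1.1, h1.2, Or.inl ⟨rfl, rfl⟩⟩
  · obtain ⟨hx0, x', hx', hxx⟩ := hxn
    obtain ⟨hy0, y', hy', hyy⟩ := hyn
    have hcn : Cn Y (cmp Y D z) := cn_comp hz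
    have h1 : Rch Y (cmp Y D z ∪ {x, y}) x x' :=
      Rch.of_adj (Or.inr (Or.inl rfl)) (Or.inl hx') hxx.symm
    have h2 : Rch Y (cmp Y D z ∪ {x, y}) x' y' :=
      (hcn.rch hx' hy').mono le_rfl Set.subset_union_left
    have h3 : Rch Y (cmp Y D z ∪ {x, y}) y' y :=
      Rch.of_adj (Or.inl hy') (Or.inr (Or.inr rfl)) hyy
    obtain ⟨p, q, hp, hq, hpS, hqS, hpq, -⟩ :=
      ((h1.trans h2).trans h3).exit (tproj w ⁻¹' Q) hx hy
    have h4 := hzz p q hpq hp hq
    refine ⟨p, q, hpq, hp, hq, h4.1, h4.2, ?_⟩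
    rcases hpS with hpC | hpE
    · refine Or.inr ⟨z, hz, ⟨hx0, x', hx', hxx⟩, ⟨hy0, y', hy', hyy⟩, Or.inl hpC, Or.inl hpC, ?_⟩
      rcases hqS with hqC | rfl | rfl
      · exact Or.inl hqC
      · exact Or.inr (Or.inl rfl)
      · exact Or.inr (Or.inr rfl)
    · have hpx : p = x := by
        rcases hpE with rfl | rfl
        · rfl
        · exact absurd hp hy
      rcases hqS with hqC | hqE
      · exact Or.inr ⟨z, hz, ⟨hx0, x', hx', hxx⟩, ⟨hy0, y', hy', hyy⟩, Or.inr hqC,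
          Or.inr (Or.inl hpx), Or.inl hqC⟩
      · have hqy : q = y := by
          rcases hqE with rfl | rfl
          · exact absurd hx hq
          · rfl
        exact Or.inl ⟨hpx, hqy⟩

end Pool.Agent.PT2
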