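import Pool.Agent.PT2.StmtsP
import Pool.Agent.ACC.Lib

set_option autoImplicit false

namespace Pool.Agent.PT2

open Pool.Agent.ACC Pool.Agent.KUR

namespace CVRAux

variable {V : Type}

/-- a point of the trace outside the component at bounded distance -/
theorem exists_out {X : SimpleGraph V} (hX : X.Connected) {Z I : Set V} {c c0 : ℕ} {z : V}
    (hz : z ∈ I) (hzZ : z ∈ Z) (hfin : (I ∩ Z).Finite) (hcard : (I ∩ Z).ncard ≤ c)
    (hinf : Z.Infinite)
    (hconn : ∀ x ∈ Z, ∀ y ∈ Z, Relation.ReflTransGen (fun a b => b ∈ Z ∧ X.dist a b ≤ c0) x y) :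
    ∃ p ∈ Z, p ∉ I ∧ X.dist z p ≤ c * c0 := by
  by_contra hcon
  push Not at hcon
  have hcon' : ∀ p ∈ Z, X.dist z p ≤ c * c0 → p ∈ I := by
    intro p hp hd
    by_contra hpI
    exact absurd hd (not_le.2 (hcon p hp hpI))
  obtain ⟨y, hyZ, hyI⟩ : ∃ y ∈ Z, y ∉ I := by
    by_contra h
    push Not at h
    exact hinf (hfin.subset (fun v hv => ⟨h v hv, hv⟩))
  have key : ∀ n : ℕ, n ≤ c → n + 1 ≤ ({a | a ∈ I ∩ Z ∧ X.dist z a ≤ n * c0}).ncard := by
    intro n
    induction n with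
    | zero =>
      intro _
      have h1 : z ∈ {a | a ∈ I ∩ Z ∧ X.dist z a ≤ 0 * c0} := by
        refine ⟨⟨hz, hzZ⟩, ?_⟩
        rw [SimpleGraph.dist_self]
        exact Nat.zero_le _
      have h2 : ({a | a ∈ I ∩ Z ∧ X.dist z a ≤ 0 * c0}).Finite := hfin.subset (fun a ha => ha.1)
      have := (Set.ncard_pos h2).2 ⟨z, h1⟩
      omega
    | succ n ih =>
      intro hn
      have ih' := ih (by omega)
      have hsub : {a | a ∈ I ∩ Z ∧ X.dist z a ≤ n * c0} ⊆
          {a | a ∈ I ∩ Z ∧ X.dist z a ≤ (n + 1) * c0} := by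
        rintro a ⟨h1, h2⟩
        refine ⟨h1, h2.trans ?_⟩
        exact Nat.mul_le_mul_right _ (Nat.le_succ n)
      have hfin2 : ({a | a ∈ I ∩ Z ∧ X.dist z a ≤ (n + 1) * c0}).Finite :=
        hfin.subset (fun a ha => ha.1)
      have hlt : ({a | a ∈ I ∩ Z ∧ X.dist z a ≤ n * c0}).ncard <
          ({a | a ∈ I ∩ Z ∧ X.dist z a ≤ (n + 1) * c0}).ncard := by
        refine Set.ncard_lt_ncard ?_ hfin2
        refine ⟨hsub, fun hsup => ?_⟩
        have hcl : ∀ b, Relation.ReflTransGen (fun a b => b ∈ Z ∧ X.dist a b ≤ c0) z b →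
            b ∈ {a | a ∈ I ∩ Z ∧ X.dist z a ≤ n * c0} := by
          intro b hb
          induction hb with
          | refl =>
            refine ⟨⟨hz, hzZ⟩, ?_⟩
            rw [SimpleGraph.dist_self]
            exact Nat.zero_le _
          | tail _ hbc ihb =>
            rename_i b' c' _
            apply hsup
            have hd : X.dist z c' ≤ (n + 1) * c0 := by
              have h1 := hX.dist_triangle (u := z) (v := b') (w := c')
              have h2 := ihb.2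
              have h3 := hbc.2
              have h4 : (n + 1) * c0 = n * c0 + c0 := by ring
              omega
            refine ⟨⟨hcon' c' hbc.1 (hd.trans (Nat.mul_le_mul_right _ hn)), hbc.1⟩, hd⟩
        exact hyI (hcl y (hconn z hzZ y hyZ)).1.1
      omega
  have h1 := key c le_rfl
  have h2 : ({a | a ∈ I ∩ Z ∧ X.dist z a ≤ c * c0}).ncard ≤ (I ∩ Z).ncard :=
    Set.ncard_le_ncard (fun a ha => ha.1) hfin
  omega

/-- an end point of a boundary edge on a geodesic -/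
theorem exists_bd_near {X : SimpleGraph V} (hX : X.Connected) {I : Set V} {z p : V} (hz : z ∈ I)
    (hp : p ∉ I) : ∃ e ∈ bd X I, ∃ a ∈ e, X.dist z a ≤ X.dist z p := by
  obtain ⟨q, hq⟩ := hX.exists_walk_length_eq_dist z p
  obtain ⟨e, he, hb⟩ := exists_bd_edge q hz hp
  obtain ⟨u, v, huv, hu, hv, rfl⟩ := hb
  refine ⟨s(u, v), ⟨u, v, huv, hu, hv, rfl⟩, u, Sym2.mem_mk_left u v, ?_⟩
  have hus : u ∈ q.support := q.fst_mem_support_of_mem_edges he
  classical
  calc X.dist z u ≤ (q.takeUntil u hus).length := SimpleGraph.dist_le _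
    _ ≤ q.length := q.length_takeUntil_le hus
    _ = X.dist z p := hq

end CVRAux

open CVRAux

theorem cvr_proof (_hFIL : Stmt_FIL) (hDIA : Stmt_DIA) (hZCC : Pool.Agent.ACC.Stmt_ZCC)
    (hNFE : Pool.Agent.ACC.Stmt_NFE) (hEFV : Pool.Agent.ACC.Stmt_EFV) : Stmt_CVR := by
  intro V X Y G lam k c w D hC
  have hef : EdgeFin X G := hEFV V X G hC.st.lf hC.st.aut hC.st.vf
  have hnf : NestFam X G (EE X k) k := hNFE V X G hC.st.con hC.st.aut hef k
  obtain ⟨c0, hc0⟩ := hZCC V X G (EE X k) k hC.st.con hC.st.aut hnf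
  obtain ⟨c1, hc1⟩ := hDIA V X Y G lam k c w D hC
  refine ⟨c * c0 + c1, ?_⟩
  intro z hz hzZ n hn
  obtain ⟨-, hI1, hI2⟩ := hC.max.1 z hz
  have hzI : z ∈ cmp Y D z := Rch.refl Y hz
  obtain ⟨p, hpZ, hpI, hd⟩ := exists_out hC.st.con hzI hzZ hI1 hI2 hC.inf (hc0 w hC.vtx)
  obtain ⟨e, he, a, ha, hda⟩ := exists_bd_near hC.st.con hzI hpI
  have h1 := (hc1 z hz).2.1 e he a ha n hn
  have h2 := hC.st.con.dist_triangle (u := z) (v := a) (w := n)
  omega

end Pool.Agent.PT2
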