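import Pool.Agent.PT2.Stmts

set_option autoImplicit false

namespace Pool.Agent.PT2

open Pool.Agent.ACC Pool.Agent.KUR

theorem fbc_proof (h1 : Stmt_OFT) : Stmt_FBC := by
  intro V P S A μ W s T q L α β j0 j1 l X hL hα hαβ hβ hj0 hj1 hfree
  obtain ⟨o1, o2, o3, o4, o5, o6⟩ := h1 V P μ W s T hL.st
  have st := hL.st
  -- tracks are in the window
  have hT : ∀ i x, α ≤ i → i ≤ β → x ∈ T l (q i) → x ∈ Win P W T q α β j0 j1 \ X := by
    intro i x hi1 hi2 hx
    exact ⟨⟨l, i, hj0, hj1, Or.inl ⟨hi1, hi2, hx⟩⟩, fun hX => (hfree x hX).2 (q i) hx⟩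
  have hLoc : ∀ i x, α < i → i < β → Loc P W T q l i x → x ∈ Win P W T q α β j0 j1 \ X := by
    intro i x hi1 hi2 hx
    refine ⟨⟨l, i, hj0, hj1, Or.inr ⟨hi1, hi2, hx⟩⟩, fun hX => ?_⟩
    rcases hx with hx | ⟨hx, -⟩
    · exact (hfree x hX).2 (q i) hx
    · exact (hfree x hX).1 hx
  -- attached points
  have L0 : ∀ i z x, α < i → i < β → z ∈ T l (q i) → Rch P (Off W T l ∪ {z}) z x →
      Rch P (Win P W T q α β j0 j1 \ X) z x := by
    intro i z x hi1 hi2 hz hr
    have hzz : z ∈ Off W T l ∪ {z} := Or.inr rfl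
    have hcn := cn_comp (P := P) hzz
    have hsub : {y | Rch P (Off W T l ∪ {z}) z y} ⊆ Win P W T q α β j0 j1 \ X := by
      intro v hv
      have hv' : Rch P (Off W T l ∪ {z}) z v := hv
      rcases hv'.right with hvo | hvz
      · exact hLoc i v hi1 hi2 (Or.inr ⟨hvo, z, hz, hv'.symm⟩)
      · rw [Set.mem_singleton_iff] at hvz
        subst hvz
        exact hT i v hi1.le hi2.le hz
    exact (hcn.rch (Rch.refl P hzz) hr).mono le_rfl hsub
  have L1 : ∀ i a b, α < i → i < β → a ∈ T l (q i) → b ∈ Win P W T q α β j0 j1 \ X →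
      b ∉ Off W T l → b ≠ a → Rch P (Off W T l ∪ {a, b}) a b →
      Rch P (Win P W T q α β j0 j1 \ X) a b := by
    intro i a b hi1 hi2 ha hb hbo hba hr
    have hbn : b ∉ Off W T l ∪ {a} := by
      rintro (h | h)
      · exact hbo h
      · exact hba h
    obtain ⟨u, v, huT, hvT, huS, hvS, huv, hru⟩ := hr.exit (Off W T l ∪ {a}) (Or.inr rfl) hbn
    have hvb : v = b := by
      rcases hvS with h | h | h
      · exact absurd (Or.inl h) hvT
      · exact absurd (Or.inr h) hvT
      · exact h
    subst hvb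
    have hru' : Rch P (Off W T l ∪ {a}) a u := hru.mono le_rfl Set.inter_subset_right
    have e1 := L0 i a u hi1 hi2 ha hru'
    exact e1.trans (Rch.of_adj e1.right hb huv)
  -- neighbouring tracks
  have step : ∀ i, α ≤ i → i + 1 ≤ β → ∃ a ∈ T l (q i), ∃ b ∈ T l (q (i + 1)),
      Rch P (Win P W T q α β j0 j1 \ X) a b := by
    intro i hi1 hi2
    obtain ⟨a, ha, b, hb, hab⟩ := hL.qadj l i (by omega) (by omega)
    have hq : q i ≠ q (i + 1) := by
      intro h
      have := hL.qinj i (i + 1) (by omega) (by omega) (by omega) (by omega) h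
      omega
    have hne : b ≠ a := by
      intro h
      subst h
      exact Set.disjoint_left.1 (st.dis l _ _ hq) ha hb
    have hao : a ∉ Off W T l := fun h => h.2.2 _ ha
    have hbo : b ∉ Off W T l := fun h => h.2.2 _ hb
    refine ⟨a, ha, b, hb, ?_⟩
    by_cases hi : α < i
    · exact L1 i a b hi (by omega) ha (hT (i + 1) b (by omega) hi2 hb) hbo hne hab
    · have hiα : i = α := by omega
      subst hiα
      refine (L1 (i + 1) b a (by omega) (by omega) hb (hT i a le_rfl (by omega) ha) hao hne.symm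
        ?_).symm
      exact hab.symm.mono le_rfl (by
        rintro v (hv | hv | hv)
        · exact Or.inl hv
        · exact Or.inr (Or.inr hv)
        · exact Or.inr (Or.inl hv))
  have inTrack : ∀ i x y, α ≤ i → i ≤ β → x ∈ T l (q i) → y ∈ T l (q i) →
      Rch P (Win P W T q α β j0 j1 \ X) x y := by
    intro i x y hi1 hi2 hx hy
    exact ((st.cn l (q i)).rch hx hy).mono le_rfl (fun v hv => hT i v hi1 hi2 hv)
  have first : ∀ n i, i = α + n → i ≤ β → ∀ x ∈ T l (q i),
      Rch P (Win P W T q α β j0 j1 \ X) (s l (q α)) x := by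
    intro n
    induction n with
    | zero =>
      intro i hi hiβ x hx
      rw [Nat.add_zero] at hi
      subst hi
      exact inTrack i _ _ le_rfl hiβ (st.lo l (q i)) hx
    | succ n ih =>
      intro i hi hiβ x hx
      obtain ⟨a, ha, b, hb, hab⟩ := step (α + n) (by omega) (by omega)
      have e1 := ih (α + n) rfl (by omega) a ha
      have hi' : i = α + n + 1 := by omega
      subst hi'
      exact (e1.trans hab).trans (inTrack (α + n + 1) b x (by omega) hiβ hb hx)
  refine ⟨?_, ?_⟩
  · intro i x hi1 hi2 hx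
    exact first (i - α) i (by omega) hi2 x hx
  · intro i x hi1 hi2 hx
    rcases hx with hx | ⟨hxo, z, hz, hzr⟩
    · exact first (i - α) i (by omega) hi2.le x hx
    · exact (first (i - α) i (by omega) hi2.le z hz).trans (L0 i z x hi1 hi2 hz hzr.symm)

end Pool.Agent.PT2
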