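import Pool.Agent.PT2.Stmts

/-!
MP_851278_al, PART II, module FCO: all free blocks of the window are connected to one corner.
-/

set_option autoImplicit false

namespace Pool.Agent.PT2

open Pool.Agent.ACC Pool.Agent.KUR

namespace FCO_

variable {V : Type}

theorem no_inj {ι : Type} [Fintype ι] {X : Set V} (hX : X.Finite) (h3 : X.ncard ≤ 3)
    (hι : Fintype.card ι = 4) (f : ι → V) (hf : ∀ i, f i ∈ X) (hinj : Function.Injective f) :
    False := by
  have h1 : (Set.range f).ncard ≤ X.ncard :=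
    Set.ncard_le_ncard (Set.range_subset_iff.mpr hf) hX
  rw [← Set.image_univ, Set.ncard_image_of_injective _ hinj, Set.ncard_univ,
    Nat.card_eq_fintype_card, hι] at h1
  omega

/-- along a track -/
theorem trk {P : SimpleGraph V} {μ : ℕ} {W : ℕ → Set V} {s : ℕ → Fin μ → V}
    {T : ℕ → Fin μ → Set V} {q : ℕ → Fin μ} {α β j0 j1 : ℕ} {X : Set V}
    (hst : Strip P μ W s T) {i : ℕ} (h1 : α ≤ i) (h2 : i ≤ β) (m0 d : ℕ)
    (h : ∀ m, m0 ≤ m → m < m0 + d → j0 ≤ m ∧ m < j1 ∧ ∀ x ∈ T m (q i), x ∉ X)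
    (hs : s m0 (q i) ∈ Win P W T q α β j0 j1 \ X) :
    Rch P (Win P W T q α β j0 j1 \ X) (s m0 (q i)) (s (m0 + d) (q i)) := by
  induction d with
  | zero => exact Rch.refl P hs
  | succ d ih =>
    have h3 := ih (fun m hm hm' => h m hm (by omega))
    obtain ⟨g1, g2, g3⟩ := h (m0 + d) (by omega) (by omega)
    refine h3.trans ?_
    refine ((hst.cn (m0 + d) (q i)).rch (hst.lo _ _) (hst.hi _ _)).mono le_rfl ?_
    intro x hx
    exact ⟨⟨m0 + d, i, g1, g2, Or.inl ⟨h1, h2, hx⟩⟩, g3 x hx⟩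

end FCO_

open FCO_ in
theorem fco_proof (h1 : Stmt_OFT) (h2 : Stmt_FRE) (h3 : Stmt_FBC) : Stmt_FCO := by
  classical
  intro V P S A μ W s T q L α β j0 j1 X hL hα hαβ hβ hj hX hX3
  have hst := hL.st
  obtain ⟨-, -, -, hO4, -, -⟩ := h1 V P μ W s T hst
  -- free blocks
  have hfbc : ∀ l, j0 ≤ l → l < j1 → Free W T X l → ∀ i x, α ≤ i → i ≤ β → x ∈ T l (q i) →
      Rch P (Win P W T q α β j0 j1 \ X) (s l (q α)) x := by
    intro l hl hl' hF
    exact (h3 V P S A μ W s T q L α β j0 j1 l X hL hα (by omega) hβ hl hl' hF).1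
  obtain ⟨lf, hlf1, hlf2, hlf3⟩ := h2 V P μ W s T X j0 hst hX hX3
  have hexmin : ∃ l, j0 ≤ l ∧ l < j1 ∧ Free W T X l := ⟨lf, hlf1, by omega, hlf3⟩
  obtain ⟨a1, a2, a3⟩ := Nat.find_spec hexmin
  have amin : ∀ l, j0 ≤ l → l < j1 → Free W T X l → Nat.find hexmin ≤ l :=
    fun l g1 g2 g3 => Nat.find_min' hexmin ⟨g1, g2, g3⟩
  -- the last free block
  have hlast : ∃ l, (j0 ≤ l ∧ l < j1 ∧ Free W T X l) ∧
      ∀ l', j0 ≤ l' → l' < j1 → Free W T X l' → l' ≤ l := by
    have hfin : {l | j0 ≤ l ∧ l < j1 ∧ Free W T X l}.Finite :=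
      (Set.finite_lt_nat j1).subset (fun l hl => hl.2.1)
    obtain ⟨l, hl, hmax⟩ := Set.exists_max_image {l | j0 ≤ l ∧ l < j1 ∧ Free W T X l}
      (fun l => l) hfin hexmin
    exact ⟨l, hl, fun l' g1 g2 g3 => hmax l' ⟨g1, g2, g3⟩⟩
  obtain ⟨lb, ⟨b1, b2, b3⟩, bmax⟩ := hlast
  obtain ⟨la, hla⟩ : ∃ la, la = Nat.find hexmin := ⟨_, rfl⟩
  rw [← hla] at a1 a2 a3 amin
  have hab : la ≤ lb := bmax la a1 a2 a3
  -- a free track
  have htrack : ∃ i, α ≤ i ∧ i ≤ β ∧ ∀ m, j0 ≤ m → m < j1 → ∀ x ∈ T m (q i), x ∉ X := by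
    by_contra hcon
    push Not at hcon
    have hch : ∀ k : Fin 4, ∃ m x, j0 ≤ m ∧ m < j1 ∧ x ∈ T m (q (α + k)) ∧ x ∈ X := by
      intro k
      obtain ⟨m, g1, g2, x, g3, g4⟩ := hcon (α + k) (by omega) (by omega)
      exact ⟨m, x, g1, g2, g3, g4⟩
    choose m x hm1 hm2 hx hxX using hch
    refine no_inj hX hX3 (by simp) x hxX ?_
    intro k k' hkk
    have e1 := hx k
    rw [hkk] at e1
    have e2 := (hO4 _ _ _ _ _ e1 (hx k')).1
    have e3 := hL.qinj (α + k) (α + k') (by omega) (by omega) (by omega) (by omega) e2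
    apply Fin.ext
    omega
  obtain ⟨i, hi1, hi2, hi3⟩ := htrack
  -- all free blocks are joined
  have hjoin1 : ∀ l l', j0 ≤ l → l ≤ l' → l' < j1 → Free W T X l → Free W T X l' →
      Rch P (Win P W T q α β j0 j1 \ X) (s l (q α)) (s l' (q α)) := by
    intro l l' g1 g2 g3 g4 g5
    have e1 := hfbc l g1 (by omega) g4 i (s l (q i)) hi1 hi2 (hst.lo l (q i))
    have e2 := hfbc l' (by omega) g3 g5 i (s l' (q i)) hi1 hi2 (hst.lo l' (q i))
    have e3 := trk (P := P) (q := q) (α := α) (β := β) (j0 := j0) (j1 := j1) (X := X) hst hi1 hi2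
      l (l' - l) (fun m hm hm' => ⟨by omega, by omega, hi3 m (by omega) (by omega)⟩) e1.right
    have e4 : l + (l' - l) = l' := by omega
    rw [e4] at e3
    exact (e1.trans e3).trans e2.symm
  have hjoin : ∀ l l', j0 ≤ l → l < j1 → j0 ≤ l' → l' < j1 → Free W T X l → Free W T X l' →
      Rch P (Win P W T q α β j0 j1 \ X) (s l (q α)) (s l' (q α)) := by
    intro l l' g1 g2 g3 g4 g5 g6
    rcases Nat.le_total l l' with h | h
    · exact hjoin1 l l' g1 h g4 g5 g6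
    · exact (hjoin1 l' l g3 h g2 g6 g5).symm
  -- the arms
  have hαβ' : q α ≠ q β := by
    intro h
    have := hL.qinj α β hα (by omega) (by omega) hβ h
    omega
  have harm : ∃ p : Bool × Bool, ∀ m x, x ∈ X → x ∈ T m (if p.1 then q α else q β) →
      ¬ (if p.2 then (j0 ≤ m ∧ m < la) else (lb < m ∧ m < j1)) := by
    by_contra hcon
    push Not at hcon
    choose m x hxX hx hm using hcon
    refine no_inj hX hX3 (by simp) x hxX ?_
    rintro ⟨a, b⟩ ⟨a', b'⟩ hkk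
    have e1 := hx (a, b)
    rw [hkk] at e1
    have e2 := hO4 _ _ _ _ _ e1 (hx (a', b'))
    have e3 : a = a' := by
      have e4 := e2.1
      cases a <;> cases a' <;> simp at e4 ⊢
      · exact hαβ' e4.symm
      · exact hαβ' e4
    have e5 : b = b' := by
      have e6 := hm (a, b)
      have e7 := hm (a', b')
      have e8 : m (a, b) ≤ m (a', b') + 1 ∧ m (a', b') ≤ m (a, b) + 1 := by
        rcases e2.2 with e | ⟨e, -⟩ | ⟨e, -⟩ <;> omega
      cases b <;> cases b' <;> simp at e6 e7 ⊢ <;> omega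
    rw [e3, e5]
  have hout : ∀ τ l0, Rch P (Win P W T q α β j0 j1 \ X) (s l0 (q α)) τ → j0 ≤ l0 → l0 < j1 →
      Free W T X l0 → τ ∉ X ∧ ∀ l, j0 ≤ l → l < j1 → Free W T X l →
      Rch P (Win P W T q α β j0 j1 \ X) (s l (q α)) τ := by
    intro τ l0 hr g1 g2 g3
    exact ⟨hr.right.2, fun l g4 g5 g6 => (hjoin l l0 g4 g5 g1 g2 g6 g3).trans hr⟩
  obtain ⟨⟨a, b⟩, hp⟩ := harm
  -- going down from `la` and up from `lb`
  have hdown : ∀ i', α ≤ i' → i' ≤ β → (∀ m x, x ∈ X → x ∈ T m (q i') → ¬ (j0 ≤ m ∧ m < la)) →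
      Rch P (Win P W T q α β j0 j1 \ X) (s la (q α)) (s j0 (q i')) := by
    intro i' g1 g2 g3
    have e1 := hfbc la a1 a2 a3 i' (s la (q i')) g1 g2 (hst.lo la (q i'))
    have hs : s j0 (q i') ∈ Win P W T q α β j0 j1 \ X := by
      rcases Nat.lt_or_ge j0 la with h | h
      · exact ⟨⟨j0, i', le_refl _, by omega, Or.inl ⟨g1, g2, hst.lo _ _⟩⟩,
          fun hx => g3 j0 _ hx (hst.lo _ _) ⟨le_refl _, h⟩⟩
      · have h4 : la = j0 := by omega
        rw [show s j0 (q i') = s la (q i') by rw [h4]]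
        exact e1.right
    have e3 := trk (P := P) (q := q) (α := α) (β := β) (j0 := j0) (j1 := j1) (X := X) hst g1 g2
      j0 (la - j0) (fun m hm hm' => ⟨by omega, by omega, fun x hx hxX => g3 m x hxX hx
        ⟨hm, by omega⟩⟩) hs
    have e4 : j0 + (la - j0) = la := by omega
    rw [e4] at e3
    exact e1.trans e3.symm
  have hup : ∀ i', α ≤ i' → i' ≤ β → (∀ m x, x ∈ X → x ∈ T m (q i') → ¬ (lb < m ∧ m < j1)) →
      Rch P (Win P W T q α β j0 j1 \ X) (s lb (q α)) (s j1 (q i')) := by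
    intro i' g1 g2 g3
    have e1 := hfbc lb b1 b2 b3 i' (s (lb + 1) (q i')) g1 g2 (hst.hi lb (q i'))
    have e3 := trk (P := P) (q := q) (α := α) (β := β) (j0 := j0) (j1 := j1) (X := X) hst g1 g2
      (lb + 1) (j1 - (lb + 1)) (fun m hm hm' => ⟨by omega, by omega, fun x hx hxX => g3 m x hxX hx
        ⟨by omega, by omega⟩⟩) e1.right
    have e4 : lb + 1 + (j1 - (lb + 1)) = j1 := by omega
    rw [e4] at e3
    exact e1.trans e3
  cases b with
  | true =>
    cases a with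
    | true =>
      have hr := hdown α le_rfl (by omega) (by simpa using hp)
      obtain ⟨u1, u2⟩ := hout _ la hr a1 a2 a3
      exact ⟨_, Or.inl rfl, u1, u2⟩
    | false =>
      have hr := hdown β (by omega) le_rfl (by simpa using hp)
      obtain ⟨u1, u2⟩ := hout _ la hr a1 a2 a3
      exact ⟨_, Or.inr (Or.inl rfl), u1, u2⟩
  | false =>
    cases a with
    | true =>
      have hr := hup α le_rfl (by omega) (by simpa using hp)
      obtain ⟨u1, u2⟩ := hout _ lb hr b1 b2 b3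
      exact ⟨_, Or.inr (Or.inr (Or.inl rfl)), u1, u2⟩
    | false =>
      have hr := hup β (by omega) le_rfl (by simpa using hp)
      obtain ⟨u1, u2⟩ := hout _ lb hr b1 b2 b3
      exact ⟨_, Or.inr (Or.inr (Or.inr rfl)), u1, u2⟩

end Pool.Agent.PT2
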