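import Pool.Agent.PT2.Stmts

set_option autoImplicit false

namespace Pool.Agent.PT2

open Pool.Agent.ACC Pool.Agent.KUR

namespace FMO_

theorem cn_support {V : Type} {P : SimpleGraph V} {x y : V} (w : P.Walk x y) :
    Cn P {z | z ∈ w.support} := by
  classical
  refine cn_of_rch (x := x) w.start_mem_support ?_
  intro z hz
  refine ⟨w.takeUntil z hz, fun v hv => ?_⟩
  exact w.support_takeUntil_subset hz hv

theorem hull {V : Type} {P : SimpleGraph V} {S : Set V} (hS : Cn P S) (F : Set V)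
    (hF : F.Finite) : F ⊆ S → ∃ F' : Set V, F ⊆ F' ∧ F' ⊆ S ∧ F'.Finite ∧ Cn P F' := by
  obtain ⟨x0, hx0⟩ := hS.1
  have key : F ⊆ S → ∃ F' : Set V, x0 ∈ F' ∧ F ⊆ F' ∧ F' ⊆ S ∧ F'.Finite ∧ Cn P F' := by
    induction F, hF using Set.Finite.induction_on with
    | empty =>
      intro _
      refine ⟨{x0}, rfl, Set.empty_subset _, ?_, Set.finite_singleton _, cn_singleton P x0⟩
      intro z hz
      rw [Set.mem_singleton_iff] at hz
      rw [hz]
      exact hx0
    | @insert a F _ _ ih =>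
      intro hsub
      obtain ⟨F', h0, h1, h2, h3, h4⟩ := ih (fun z hz => hsub (Or.inr hz))
      have haS : a ∈ S := hsub (Or.inl rfl)
      obtain ⟨w, hw⟩ := hS.2 x0 hx0 a haS
      refine ⟨F' ∪ {z | z ∈ w.support}, Or.inl h0, ?_, ?_, ?_, ?_⟩
      · rintro z (rfl | hz)
        · exact Or.inr w.end_mem_support
        · exact Or.inl (h1 hz)
      · rintro z (hz | hz)
        · exact h2 hz
        · exact hw z hz
      · exact h3.union (List.finite_toSet _)
      · exact h4.union (cn_support w) ⟨x0, h0, x0, w.start_mem_support, Or.inr rfl⟩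
  intro h
  obtain ⟨F', _, h1, h2, h3, h4⟩ := key h
  exact ⟨F', h1, h2, h3, h4⟩

end FMO_

open FMO_ in
theorem fmo_proof : Stmt_FMO := by
  intro V H
  constructor
  · intro A B hM
    have hadj := hM.adj
    choose x hx y hy hxy using hadj
    have hA : ∀ i, ∃ F' : Set V, Set.range (x i) ⊆ F' ∧ F' ⊆ A i ∧ F'.Finite ∧ Cn H F' :=
      fun i => hull (hM.ca i) _ (Set.finite_range _) (by
        rintro z ⟨j, rfl⟩
        exact hx i j)
    have hB : ∀ j, ∃ F' : Set V, Set.range (fun i => y i j) ⊆ F' ∧ F' ⊆ B j ∧ F'.Finite ∧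
        Cn H F' :=
      fun j => hull (hM.cb j) _ (Set.finite_range _) (by
        rintro z ⟨i, rfl⟩
        exact hy i j)
    choose A' hA1 hA2 hA3 hA4 using hA
    choose B' hB1 hB2 hB3 hB4 using hB
    refine ⟨A', B', ⟨hA4, hB4, ?_, ?_, ?_, ?_⟩, fun i => ⟨hA3 i, hA2 i, hB3 i, hB2 i⟩⟩
    · intro i j hij
      exact (hM.da i j hij).mono (hA2 i) (hA2 j)
    · intro i j hij
      exact (hM.db i j hij).mono (hB2 i) (hB2 j)
    · intro i j
      exact (hM.dab i j).mono (hA2 i) (hB2 j)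
    · intro i j
      exact ⟨x i j, hA1 i ⟨j, rfl⟩, y i j, hB1 j ⟨i, rfl⟩, hxy i j⟩
  · intro A hM
    have hadj := hM.adj
    choose x hx y hy hxy using hadj
    have hA : ∀ i, ∃ F' : Set V,
        (Set.range (fun j : {j // i ≠ j} => x i j.1 j.2) ∪
          Set.range (fun j : {j // j ≠ i} => y j.1 i j.2)) ⊆ F' ∧ F' ⊆ A i ∧ F'.Finite ∧
          Cn H F' :=
      fun i => hull (hM.c i) _ ((Set.finite_range _).union (Set.finite_range _)) (by
        rintro z (⟨j, rfl⟩ | ⟨j, rfl⟩)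
        · exact hx i j.1 j.2
        · exact hy j.1 i j.2)
    choose A' hA1 hA2 hA3 hA4 using hA
    refine ⟨A', ⟨hA4, ?_, ?_⟩, fun i => ⟨hA3 i, hA2 i⟩⟩
    · intro i j hij
      exact (hM.d i j hij).mono (hA2 i) (hA2 j)
    · intro i j hij
      exact ⟨x i j hij, hA1 i (Or.inl ⟨⟨j, hij⟩, rfl⟩), y i j hij,
        hA1 j (Or.inr ⟨⟨i, hij⟩, rfl⟩), hxy i j hij⟩

end Pool.Agent.PT2
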