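import Pool.Agent.PT2.Stmts

set_option autoImplicit false

namespace Pool.Agent.PT2

open Pool.Agent.ACC Pool.Agent.KUR

namespace FN4_

lemma core {V : Type} {H : SimpleGraph V} {A X1 X2 : Set V} {p : Fin 3 → V} {L : Fin 4 → Set V}
    {e : Fin 4 → V} (hX1 : Cn H X1) (hX2 : Cn H X2) (hX : Disjoint X1 X2)
    (hp : ∀ i, p i ∉ X1 ∧ p i ∉ X2) (ht : ∀ i, Tch H {p i} X1 ∧ Tch H {p i} X2)
    (hL : Lkg H A (X1 ∪ X2 ∪ Set.range p) L e) (he : ∀ i : Fin 3, e i.castSucc = p i)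
    (hl : e (Fin.last 3) ∈ X1) (b c d : Fin 4) (hb : b ≠ Fin.last 3) (hc : c ≠ Fin.last 3)
    (hd : d ≠ Fin.last 3) (hbc : b ≠ c) (hbd : b ≠ d) :
    ∃ C D : Set V, Cn H C ∧ Cn H D ∧ Disjoint C D ∧ L (Fin.last 3) ⊆ C ∧ L b ⊆ C ∧
      L c ⊆ D ∧ L d ⊆ D := by
  have hmem : ∀ i, e i ∈ L i := fun i => by
    have h : e i ∈ L i ∩ (X1 ∪ X2 ∪ Set.range p) := by rw [hL.b i]; rfl
    exact h.1
  have huniq : ∀ i x, x ∈ L i → x ∈ X1 ∪ X2 ∪ Set.range p → x = e i := fun i x hx hx' => by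
    have h : x ∈ L i ∩ (X1 ∪ X2 ∪ Set.range p) := ⟨hx, hx'⟩
    rw [hL.b i] at h
    exact h
  -- every leg different from the last one ends in a point `p i`
  have hcs : ∀ i : Fin 4, i ≠ Fin.last 3 → ∃ k : Fin 3, e i = p k := fun i hi => by
    obtain ⟨k, hk⟩ := Fin.exists_castSucc_eq.2 hi
    exact ⟨k, by rw [← hk, he k]⟩
  have hn1 : ∀ i : Fin 4, i ≠ Fin.last 3 → ∀ x ∈ L i, x ∉ X1 := fun i hi x hx hx1 => by
    obtain ⟨k, hk⟩ := hcs i hi
    have h1 := huniq i x hx (Or.inl (Or.inl hx1))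
    exact (hp k).1 (by rw [← hk, ← h1]; exact hx1)
  have hn2 : ∀ i : Fin 4, i ≠ Fin.last 3 → ∀ x ∈ L i, x ∉ X2 := fun i hi x hx hx1 => by
    obtain ⟨k, hk⟩ := hcs i hi
    have h1 := huniq i x hx (Or.inl (Or.inr hx1))
    exact (hp k).2 (by rw [← hk, ← h1]; exact hx1)
  have hl2 : ∀ x ∈ L (Fin.last 3), x ∉ X2 := fun x hx hx2 => by
    have h1 := huniq _ x hx (Or.inl (Or.inr hx2))
    rw [h1] at hx2
    exact Set.disjoint_left.1 hX hl hx2
  have ht1 : ∀ i : Fin 4, i ≠ Fin.last 3 → ∃ x ∈ X1, ∃ y ∈ L i, H.Adj x y ∨ x = y :=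
    fun i hi => by
    obtain ⟨k, hk⟩ := hcs i hi
    obtain ⟨x, hx, y, hy, hxy⟩ := (ht k).1
    have hx' : x = p k := hx
    refine ⟨y, hy, x, ?_, Or.inl hxy.symm⟩
    rw [hx', ← hk]
    exact hmem i
  have ht2 : ∀ i : Fin 4, i ≠ Fin.last 3 → ∃ x ∈ X2, ∃ y ∈ L i, H.Adj x y ∨ x = y :=
    fun i hi => by
    obtain ⟨k, hk⟩ := hcs i hi
    obtain ⟨x, hx, y, hy, hxy⟩ := (ht k).2
    have hx' : x = p k := hx
    refine ⟨y, hy, x, ?_, Or.inl hxy.symm⟩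
    rw [hx', ← hk]
    exact hmem i
  refine ⟨X1 ∪ L b ∪ L (Fin.last 3), X2 ∪ L c ∪ L d, ?_, ?_, ?_, ?_, ?_, ?_, ?_⟩
  · refine (hX1.union (hL.cn b) (ht1 b hb)).union (hL.cn _) ?_
    exact ⟨e (Fin.last 3), Or.inl hl, e (Fin.last 3), hmem _, Or.inr rfl⟩
  · refine (hX2.union (hL.cn c) (ht2 c hc)).union (hL.cn _) ?_
    obtain ⟨x, hx, y, hy, hxy⟩ := ht2 d hd
    exact ⟨x, Or.inl hx, y, hy, hxy⟩
  · rw [Set.disjoint_left]
    rintro x ((hx | hx) | hx) ((hy | hy) | hy)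
    · exact Set.disjoint_left.1 hX hx hy
    · exact hn1 c hc x hy hx
    · exact hn1 d hd x hy hx
    · exact hn2 b hb x hx hy
    · exact Set.disjoint_left.1 (hL.dis b c hbc) hx hy
    · exact Set.disjoint_left.1 (hL.dis b d hbd) hx hy
    · exact hl2 x hx hy
    · exact Set.disjoint_left.1 (hL.dis _ c hc.symm) hx hy
    · exact Set.disjoint_left.1 (hL.dis _ d hd.symm) hx hy
  · exact Set.subset_union_right
  · exact fun x hx => Or.inl (Or.inr hx)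
  · exact fun x hx => Or.inl (Or.inr hx)
  · exact Set.subset_union_right

end FN4_

/-- four legs on `K_{2,3}` with three of the ends at the three middle points -/
theorem fn4_proof : Stmt_FN4 := by
  intro V H τ X1 X2 p L e hτ hX1 hX2 hX hpi hp ht hL he
  -- the terminals are distributed on the legs
  choose y hyL hyT using hL.a
  choose σ hσ using hyT
  have hσL : ∀ i, τ (σ i) ∈ L i := fun i => by rw [hσ i]; exact hyL i
  have hinj : Function.Injective σ := by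
    intro i j hij
    by_contra hne
    exact Set.disjoint_left.1 (hL.dis i j hne) (hσL i) (by rw [hij]; exact hσL j)
  have hsurj : Function.Surjective σ := Finite.injective_iff_surjective.1 hinj
  choose ρ hρ using hsurj
  have hρL : ∀ j, τ j ∈ L (ρ j) := fun j => by
    have := hσL (ρ j)
    rwa [hρ j] at this
  have hρi : Function.Injective ρ := fun i j hij => by
    rw [← hρ i, ← hρ j, hij]
  obtain ⟨j0, hj0⟩ : ∃ j, ρ j = Fin.last 3 := ⟨σ (Fin.last 3), hinj (hρ _)⟩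
  have hmem : ∀ i, e i ∈ L i := fun i => by
    have h : e i ∈ L i ∩ (X1 ∪ X2 ∪ Set.range p) := by rw [hL.b i]; rfl
    exact h.1
  -- the last end is in `X1 ∪ X2`
  have hlast : e (Fin.last 3) ∈ X1 ∨ e (Fin.last 3) ∈ X2 := by
    have h : e (Fin.last 3) ∈ L (Fin.last 3) ∩ (X1 ∪ X2 ∪ Set.range p) := by
      rw [hL.b (Fin.last 3)]; rfl
    rcases h.2 with h' | ⟨k, hk⟩
    · exact h'
    · exfalso
      have h1 : e (Fin.last 3) ∈ L k.castSucc := by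
        rw [← hk, ← he k]
        exact hmem _
      exact Set.disjoint_left.1 (hL.dis k.castSucc (Fin.last 3) (Fin.castSucc_lt_last k).ne) h1 h.1
  have main : ∀ b c d : Fin 4, b ≠ j0 → c ≠ j0 → d ≠ j0 → b ≠ c → b ≠ d →
      ∃ C D : Set V, Cn H C ∧ Cn H D ∧ Disjoint C D ∧ τ j0 ∈ C ∧ τ b ∈ C ∧ τ c ∈ D ∧ τ d ∈ D := by
    intro b c d hb hc hd hbc hbd
    have hb' : ρ b ≠ Fin.last 3 := fun h => hb (hρi (h.trans hj0.symm))
    have hc' : ρ c ≠ Fin.last 3 := fun h => hc (hρi (h.trans hj0.symm))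
    have hd' : ρ d ≠ Fin.last 3 := fun h => hd (hρi (h.trans hj0.symm))
    have hbc' : ρ b ≠ ρ c := fun h => hbc (hρi h)
    have hbd' : ρ b ≠ ρ d := fun h => hbd (hρi h)
    have key : ∃ C D : Set V, Cn H C ∧ Cn H D ∧ Disjoint C D ∧ L (Fin.last 3) ⊆ C ∧
        L (ρ b) ⊆ C ∧ L (ρ c) ⊆ D ∧ L (ρ d) ⊆ D := by
      rcases hlast with h | h
      · exact FN4_.core hX1 hX2 hX hp ht hL he h _ _ _ hb' hc' hd' hbc' hbd'
      · refine FN4_.core hX2 hX1 hX.symm (fun i => ⟨(hp i).2, (hp i).1⟩)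
          (fun i => ⟨(ht i).2, (ht i).1⟩) (A := Set.range τ) ?_ he h _ _ _ hb' hc' hd' hbc' hbd'
        rw [Set.union_comm X2 X1]
        exact hL
    obtain ⟨C, D, h1, h2, h3, h4, h5, h6, h7⟩ := key
    refine ⟨C, D, h1, h2, h3, h4 ?_, h5 (hρL b), h6 (hρL c), h7 (hρL d)⟩
    rw [← hj0]
    exact hρL j0
  fin_cases j0
  · obtain ⟨C, D, h1, h2, h3, h4, h5, h6, h7⟩ := main 1 2 3 (by decide) (by decide) (by decide)
      (by decide) (by decide)
    exact ⟨C, D, h1, h2, h3, h4, h5, h6, h7⟩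
  · obtain ⟨C, D, h1, h2, h3, h4, h5, h6, h7⟩ := main 0 2 3 (by decide) (by decide) (by decide)
      (by decide) (by decide)
    exact ⟨C, D, h1, h2, h3, h5, h4, h6, h7⟩
  · obtain ⟨C, D, h1, h2, h3, h4, h5, h6, h7⟩ := main 3 0 1 (by decide) (by decide) (by decide)
      (by decide) (by decide)
    exact ⟨D, C, h2, h1, h3.symm, h6, h7, h4, h5⟩
  · obtain ⟨C, D, h1, h2, h3, h4, h5, h6, h7⟩ := main 2 0 1 (by decide) (by decide) (by decide)
      (by decide) (by decide)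
    exact ⟨D, C, h2, h1, h3.symm, h6, h7, h5, h4⟩

end Pool.Agent.PT2
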