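import Pool.Agent.PT2.Stmts

set_option autoImplicit false

namespace Pool.Agent.PT2

open Pool.Agent.ACC Pool.Agent.KUR

theorem fre_proof (h1 : Stmt_OFT) : Stmt_FRE := by
  intro V P μ W s T X l0 hst hX hX3
  obtain ⟨o1, o2, o3, o4, o5, o6⟩ := h1 V P μ W s T hst
  by_contra hcon
  push Not at hcon
  have hbad : ∀ a : Fin 7, ∃ x ∈ X, x ∈ Off W T (l0 + a) ∨ ∃ i, x ∈ T (l0 + a) i := by
    intro a
    have h := hcon (l0 + a) (by omega) (by omega)
    unfold Free at h
    push Not at h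
    obtain ⟨x, hx, h⟩ := h
    refine ⟨x, hx, ?_⟩
    by_cases hO : x ∈ Off W T (l0 + a)
    · exact Or.inl hO
    · exact Or.inr (h hO)
  choose x hx hxT using hbad
  -- two blocks of the same point are at distance at most one
  have hpair : ∀ (y : V) (l l' : ℕ), (y ∈ Off W T l ∨ ∃ i, y ∈ T l i) →
      (y ∈ Off W T l' ∨ ∃ i, y ∈ T l' i) → l ≤ l' + 1 := by
    rintro y l l' (h | ⟨i, h⟩) (h' | ⟨i', h'⟩)
    · rw [o5 l l' y h h']
      omega
    · exact absurd h' (o6 l l' i' y h)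
    · exact absurd h (o6 l' l i y h')
    · rcases (o4 l i l' i' y h h').2 with h2 | ⟨h2, _⟩ | ⟨h2, _⟩ <;> omega
  classical
  have hcard : hX.toFinset.card * 2 < (Finset.univ : Finset (Fin 7)).card := by
    rw [← Set.ncard_eq_toFinset_card X hX, Finset.card_univ, Fintype.card_fin]
    omega
  obtain ⟨y, hy, hlt⟩ := Finset.exists_lt_card_fiber_of_mul_lt_card_of_maps_to
    (f := x) (fun a _ => by simpa using hx a) hcard
  obtain ⟨a, ha, b, hb, c, hc, hab, hac, hbc⟩ := Finset.two_lt_card.1 hlt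
  rw [Finset.mem_filter] at ha hb hc
  have ha' := hxT a
  have hb' := hxT b
  have hc' := hxT c
  rw [ha.2] at ha'
  rw [hb.2] at hb'
  rw [hc.2] at hc'
  have e1 := hpair y _ _ ha' hb'
  have e2 := hpair y _ _ hb' ha'
  have e3 := hpair y _ _ ha' hc'
  have e4 := hpair y _ _ hc' ha'
  have e5 := hpair y _ _ hb' hc'
  have e6 := hpair y _ _ hc' hb'
  have n1 : (a : ℕ) ≠ b := fun h => hab (Fin.ext h)
  have n2 : (a : ℕ) ≠ c := fun h => hac (Fin.ext h)
  have n3 : (b : ℕ) ≠ c := fun h => hbc (Fin.ext h)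
  omega

end Pool.Agent.PT2
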