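import Pool.Agent.PT2.Stmts

/-!
MP_851278_al, squad PTC, module GEO: long geodesics in large connected graphs.
-/

set_option autoImplicit false

namespace Pool.Agent.PT2

open Pool.Agent.ACC Pool.Agent.KUR

namespace GEO_

/-- The bound for the size of a ball. -/
def NN (t : ℕ) : ℕ → ℕ
  | 0 => 1
  | (d + 1) => NN t d + NN t d * t

theorem card_nb {μ t : ℕ} (adj : Fin μ → Fin μ → Prop) [DecidableRel adj] (c : Fin μ)
    (h : ¬ ∃ l : Fin t → Fin μ, Function.Injective l ∧ ∀ a, adj c (l a)) :
    (Finset.univ.filter (fun u => adj c u)).card ≤ t := by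
  by_contra hle
  push Not at hle
  apply h
  obtain ⟨s', hs1, hs2⟩ := Finset.exists_subset_card_eq hle.le
  refine ⟨fun a => ((s'.equivFinOfCardEq hs2).symm a).1, ?_, ?_⟩
  · intro a b hab
    exact (s'.equivFinOfCardEq hs2).symm.injective (Subtype.ext hab)
  · intro a
    have := hs1 ((s'.equivFinOfCardEq hs2).symm a).2
    rw [Finset.mem_filter] at this
    exact this.2

theorem ball_card {μ t : ℕ} (G : SimpleGraph (Fin μ)) (hG : G.Connected) (o : Fin μ)
    (adj : Fin μ → Fin μ → Prop) [DecidableRel adj] (hadj : ∀ i j, G.Adj i j → adj i j)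
    (h : ∀ c, (Finset.univ.filter (fun u => adj c u)).card ≤ t) (d : ℕ) :
    (Finset.univ.filter (fun x => G.dist o x ≤ d)).card ≤ NN t d := by
  classical
  induction d with
  | zero =>
    have : Finset.univ.filter (fun x => G.dist o x ≤ 0) ⊆ {o} := by
      intro x hx
      rw [Finset.mem_filter] at hx
      have h0 : G.dist o x = 0 := Nat.le_zero.1 hx.2
      rw [Finset.mem_singleton]
      exact (hG.dist_eq_zero_iff.1 h0).symm
    have h1 := Finset.card_le_card this
    rw [Finset.card_singleton] at h1
    exact h1
  | succ d ih =>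
    have hsub : Finset.univ.filter (fun x => G.dist o x ≤ d + 1) ⊆
        Finset.univ.filter (fun x => G.dist o x ≤ d) ∪
        (Finset.univ.filter (fun x => G.dist o x ≤ d)).biUnion
          (fun x => Finset.univ.filter (fun u => adj x u)) := by
      intro x hx
      rw [Finset.mem_filter] at hx
      rw [Finset.mem_union]
      by_cases hxd : G.dist o x ≤ d
      · left
        rw [Finset.mem_filter]
        exact ⟨Finset.mem_univ _, hxd⟩
      · right
        have hd : G.dist o x = d + 1 := by
          have := hx.2
          omega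
        obtain ⟨p, hp⟩ := hG.exists_walk_length_eq_dist o x
        rw [hd] at hp
        rw [Finset.mem_biUnion]
        refine ⟨p.getVert d, ?_, ?_⟩
        · rw [Finset.mem_filter]
          refine ⟨Finset.mem_univ _, ?_⟩
          refine (SimpleGraph.dist_le (p.take d)).trans ?_
          rw [SimpleGraph.Walk.take_length]
          exact min_le_left _ _
        · rw [Finset.mem_filter]
          refine ⟨Finset.mem_univ _, hadj _ _ ?_⟩
          have h2 := p.adj_getVert_succ (i := d) (by omega)
          have h3 : p.getVert (d + 1) = x := by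
            rw [← hp]
            exact p.getVert_length
          rw [h3] at h2
          exact h2
    have h1 := Finset.card_le_card hsub
    have h2 := Finset.card_union_le (Finset.univ.filter (fun x => G.dist o x ≤ d))
      ((Finset.univ.filter (fun x => G.dist o x ≤ d)).biUnion
          (fun x => Finset.univ.filter (fun u => adj x u)))
    have h3 : ((Finset.univ.filter (fun x => G.dist o x ≤ d)).biUnion
          (fun x => Finset.univ.filter (fun u => adj x u))).card ≤
        (Finset.univ.filter (fun x => G.dist o x ≤ d)).card * t :=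
      Finset.card_biUnion_le_card_mul _ _ _ (fun x _ => h x)
    have h4 : (Finset.univ.filter (fun x => G.dist o x ≤ d)).card * t ≤ NN t d * t :=
      Nat.mul_le_mul_right t ih
    change _ ≤ NN t d + NN t d * t
    omega

end GEO_

open GEO_ in
theorem geo_proof : Stmt_GEO := by
  classical
  intro t n L
  obtain ⟨D, hD⟩ : ∃ D, D = L + 2 * n + 2 := ⟨_, rfl⟩
  refine ⟨NN t D + 1, ?_⟩
  intro μ adj hμ hsymm hirr hconn
  by_cases h1 : ∃ (c : Fin μ) (l : Fin t → Fin μ), Function.Injective l ∧ ∀ a, adj c (l a)
  · exact Or.inl h1
  right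
  have hnb : ∀ c, (Finset.univ.filter (fun u => adj c u)).card ≤ t := by
    intro c
    exact card_nb adj c (fun h => h1 ⟨c, h⟩)
  let G : SimpleGraph (Fin μ) :=
    { Adj := adj
      symm := ⟨fun i j h => hsymm i j h⟩
      loopless := ⟨fun i h => hirr i h⟩ }
  have hpos : 0 < μ := by omega
  obtain ⟨o, ho⟩ : ∃ o : Fin μ, o = ⟨0, hpos⟩ := ⟨_, rfl⟩
  have hreach : ∀ i j, G.Reachable i j := by
    intro i j
    have h := hconn i j
    induction h with
    | refl => exact SimpleGraph.Reachable.refl _
    | tail _ hbc ih =>
      have hbc' : G.Adj _ _ := hbc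
      exact ih.trans hbc'.reachable
  have hG : G.Connected :=
    haveI : Nonempty (Fin μ) := ⟨o⟩
    ⟨fun i j => hreach i j⟩
  have hball := ball_card G hG o adj (fun i j h => h) hnb D
  have hex : ∃ x, D < G.dist o x := by
    by_contra hno
    push Not at hno
    have : Finset.univ.filter (fun x => G.dist o x ≤ D) = Finset.univ := by
      ext x
      simp only [Finset.mem_filter, Finset.mem_univ, true_and, iff_true]
      exact hno x
    rw [this, Finset.card_univ, Fintype.card_fin] at hball
    omega
  obtain ⟨x, hx⟩ := hex
  obtain ⟨p, hp⟩ := hG.exists_walk_length_eq_dist o x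
  have hlen : ∀ i, i ≤ D → G.dist o (p.getVert i) = i := by
    intro i hi
    have g1 : G.dist o (p.getVert i) ≤ i := by
      refine (SimpleGraph.dist_le (p.take i)).trans ?_
      rw [SimpleGraph.Walk.take_length]
      exact min_le_left _ _
    have g2 : G.dist (p.getVert i) x ≤ p.length - i := by
      refine (SimpleGraph.dist_le (p.drop i)).trans ?_
      rw [SimpleGraph.Walk.drop_length]
    have g3 := hG.dist_triangle (u := o) (v := p.getVert i) (w := x)
    omega
  have hadj : ∀ i, i < D → adj (p.getVert i) (p.getVert (i + 1)) := by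
    intro i hi
    exact p.adj_getVert_succ (i := i) (by omega)
  have hnear : ∀ a b, adj a b → G.dist o b ≤ G.dist o a + 1 := by
    intro a b hab
    have hab' : G.Adj a b := hab
    have g1 := hG.dist_triangle (u := o) (v := a) (w := b)
    have g2 := SimpleGraph.dist_eq_one_iff_adj.2 hab'
    omega
  by_cases h2 : ∃ m, n < m ∧ m < D - n ∧ ∃ u, adj (p.getVert m) u ∧ u ≠ p.getVert (m - 1) ∧
      u ≠ p.getVert (m + 1)
  · left
    obtain ⟨m, hm1, hm2, u, hu, hu1, hu2⟩ := h2
    refine ⟨fun i => p.getVert (m - n - 1 + i), u, ?_, ?_, ?_, ?_⟩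
    · intro i i' hi1 hi2 hi1' hi2' hq
      have hq' : p.getVert (m - n - 1 + i) = p.getVert (m - n - 1 + i') := hq
      have e1 := hlen (m - n - 1 + i) (by omega)
      have e2 := hlen (m - n - 1 + i') (by omega)
      rw [hq'] at e1
      omega
    · intro i hi1 hi2
      have e1 := hadj (m - n - 1 + i) (by omega)
      exact e1
    · intro i hi1 hi2 hq
      have hq' : p.getVert (m - n - 1 + i) = u := hq
      have e1 := hlen (m - n - 1 + i) (by omega)
      have e2 := hlen m (by omega)
      rw [hq'] at e1
      have e3 := hnear _ _ hu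
      have e4 := hnear _ _ (hsymm _ _ hu)
      have e5 : m - n - 1 + i = m - 1 ∨ m - n - 1 + i = m ∨ m - n - 1 + i = m + 1 := by omega
      rcases e5 with e5 | e5 | e5
      · rw [e5] at hq'
        exact hu1 hq'.symm
      · rw [e5] at hq'
        rw [hq'] at hu
        exact hirr _ hu
      · rw [e5] at hq'
        exact hu2 hq'.symm
    · have e1 : m - n - 1 + (n + 1) = m := by omega
      change adj (p.getVert (m - n - 1 + (n + 1))) u
      rw [e1]
      exact hu
  · right
    push Not at h2
    refine ⟨fun i => p.getVert (n + i), ?_, ?_, ?_⟩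
    · intro i i' hi1 hi2 hi1' hi2' hq
      have hq' : p.getVert (n + i) = p.getVert (n + i') := hq
      have e1 := hlen (n + i) (by omega)
      have e2 := hlen (n + i') (by omega)
      rw [hq'] at e1
      omega
    · intro i hi1 hi2
      exact hadj (n + i) (by omega)
    · intro i u hi1 hi2 hu
      by_cases hu1 : u = p.getVert (n + i - 1)
      · left
        change u = p.getVert (n + (i - 1))
        have e1 : n + (i - 1) = n + i - 1 := by omega
        rw [e1]
        exact hu1
      · right
        change u = p.getVert (n + (i + 1))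
        exact h2 (n + i) (by omega) (by omega) u hu hu1

end Pool.Agent.PT2
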