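import Pool.Agent.PT2.Stmts

/-!
MP_851278_al, squad PTC, module K3C: two paths theorem, `K_{3,3}` case.
-/

set_option autoImplicit false

namespace Pool.Agent.PT2

open Pool.Agent.ACC Pool.Agent.KUR

namespace K3C_

variable {V : Type}

theorem tch_symm {H : SimpleGraph V} {A B : Set V} (h : Tch H A B) : Tch H B A := by
  obtain ⟨x, hx, y, hy, hxy⟩ := h
  exact ⟨y, hy, x, hx, hxy.symm⟩

theorem tch_mono {H : SimpleGraph V} {A B A' B' : Set V} (h : Tch H A B) (hA : A ⊆ A')
    (hB : B ⊆ B') : Tch H A' B' := by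
  obtain ⟨x, hx, y, hy, hxy⟩ := h
  exact ⟨x, hA hx, y, hB hy, hxy⟩

/-- a finite model in `Co` -/
structure FM (H : SimpleGraph V) (Co : Set V) (A B : Fin 3 → Set V) : Prop where
  m : M33 H A B
  fa : ∀ i, (A i).Finite ∧ A i ⊆ Co
  fb : ∀ i, (B i).Finite ∧ B i ⊆ Co

theorem FM.symm {H : SimpleGraph V} {Co : Set V} {A B : Fin 3 → Set V} (h : FM H Co A B) :
    FM H Co B A :=
  ⟨⟨h.m.cb, h.m.ca, h.m.db, h.m.da, fun i j => (h.m.dab j i).symm, fun i j =>
    tch_symm (h.m.adj j i)⟩, h.fb, h.fa⟩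

/-- all points of the model -/
def Un (A B : Fin 3 → Set V) : Set V := (⋃ i, A i) ∪ ⋃ i, B i

theorem un_symm (A B : Fin 3 → Set V) : Un A B = Un B A := Set.union_comm _ _

theorem FM.ufin {H : SimpleGraph V} {Co : Set V} {A B : Fin 3 → Set V} (h : FM H Co A B) :
    (Un A B).Finite :=
  (Set.finite_iUnion fun i => (h.fa i).1).union (Set.finite_iUnion fun i => (h.fb i).1)

theorem FM.uco {H : SimpleGraph V} {Co : Set V} {A B : Fin 3 → Set V} (h : FM H Co A B) :
    Un A B ⊆ Co := by
  rintro x (hx | hx)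
  · obtain ⟨i, hi⟩ := Set.mem_iUnion.mp hx
    exact (h.fa i).2 hi
  · obtain ⟨i, hi⟩ := Set.mem_iUnion.mp hx
    exact (h.fb i).2 hi

theorem mem_un_left {A B : Fin 3 → Set V} {i : Fin 3} {x : V} (h : x ∈ A i) : x ∈ Un A B :=
  Or.inl (Set.mem_iUnion.mpr ⟨i, h⟩)

theorem mem_un_right {A B : Fin 3 → Set V} {i : Fin 3} {x : V} (h : x ∈ B i) : x ∈ Un A B :=
  Or.inr (Set.mem_iUnion.mpr ⟨i, h⟩)

theorem mem_un {A B : Fin 3 → Set V} {x : V} : x ∈ Un A B ↔ (∃ i, x ∈ A i) ∨ ∃ i, x ∈ B i := by
  simp [Un]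

theorem lkg_sub {H : SimpleGraph V} {A B B' : Set V} {k : ℕ} {L : Fin k → Set V}
    {e : Fin k → V} (h : Lkg H A B L e) (hB : B' ⊆ B) (he : ∀ i, e i ∈ B') :
    Lkg H A B' L e := by
  refine ⟨h.cn, h.fin, h.dis, h.a, fun i => ?_⟩
  ext x
  rw [Set.mem_singleton_iff]
  constructor
  · rintro ⟨h1, h2⟩
    have : x ∈ L i ∩ B := ⟨h1, hB h2⟩
    rw [h.b i] at this
    exact this
  · rintro rfl
    have : e i ∈ L i ∩ B := by rw [h.b i]; rfl
    exact ⟨this.1, he i⟩

theorem lkg_comp {H : SimpleGraph V} {A B : Set V} {k k' : ℕ} {L : Fin k → Set V}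
    {e : Fin k → V} (h : Lkg H A B L e) (σ : Fin k' → Fin k) (hσ : Function.Injective σ) :
    Lkg H A B (L ∘ σ) (e ∘ σ) :=
  ⟨fun i => h.cn _, fun i => h.fin _, fun i j hij => h.dis _ _ (fun h' => hij (hσ h')),
    fun i => h.a _, fun i => h.b _⟩

theorem lkg_mem {H : SimpleGraph V} {A B : Set V} {k : ℕ} {L : Fin k → Set V}
    {e : Fin k → V} (h : Lkg H A B L e) (i : Fin k) : e i ∈ L i ∧ e i ∈ B := by
  have : e i ∈ L i ∩ B := by rw [h.b i]; rfl
  exact this

theorem lkg_eq {H : SimpleGraph V} {A B : Set V} {k : ℕ} {L : Fin k → Set V}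
    {e : Fin k → V} (h : Lkg H A B L e) {i : Fin k} {x : V} (h1 : x ∈ L i) (h2 : x ∈ B) :
    x = e i := by
  have : x ∈ L i ∩ B := ⟨h1, h2⟩
  rw [h.b i] at this
  exact this

theorem inj2 {k k' : Fin 2} (h : k ≠ k') : Function.Injective ![k, k'] := by
  intro a b hab
  fin_cases a <;> fin_cases b <;> simp_all

theorem all2 {k k' : Fin 2} (h : k ≠ k') (m : Fin 2) : m = k ∨ m = k' := by
  revert h; revert k k' m; decide

/-- case (a): the two legs end on different sides -/
theorem caseA (h5 : Stmt_STA) {H : SimpleGraph V} {τ : Fin 4 → V} {Co : Set V}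
    {A B : Fin 3 → Set V} {L : Fin 2 → Set V} {e : Fin 2 → V} (hFC : FC H τ Co)
    (hM : FM H Co A B) (hL : Lkg H (Set.range τ) (Un A B) L e) {k k' : Fin 2} (hk : k ≠ k')
    {i j : Fin 3} (hi : e k ∈ A i) (hj : e k' ∈ B j) : Cross H τ := by
  have hA' : (⋃ m, A (Equiv.swap 0 i m)) = ⋃ m, A m :=
    (Equiv.swap (0 : Fin 3) i).iSup_comp (g := A)
  have hB' : (⋃ m, B (Equiv.swap 0 j m)) = ⋃ m, B m :=
    (Equiv.swap (0 : Fin 3) j).iSup_comp (g := B)
  refine h5 V H τ Co (fun m => A (Equiv.swap 0 i m)) (fun m => B (Equiv.swap 0 j m))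
    (L ∘ ![k, k']) (e ∘ ![k, k']) hFC (fun m => ⟨(hM.fa _).1, (hM.fa _).2, hM.m.ca _⟩)
    (fun m => ⟨(hM.fb _).1, (hM.fb _).2, hM.m.cb _⟩) ?_ (fun m n => hM.m.dab _ _)
    (fun m n _ => hM.m.adj _ _) ?_ ?_ ?_
  · intro m n hmn
    have h1 : ∀ r : Fin 3, Equiv.swap 0 r m ≠ Equiv.swap 0 r n := fun r h =>
      hmn ((Equiv.swap 0 r).injective h)
    exact ⟨hM.m.da _ _ (h1 i), hM.m.db _ _ (h1 j)⟩
  · rw [hA', hB']
    exact lkg_comp hL _ (inj2 hk)
  · simpa using hi
  · simpa using hj

/-- moving a part of `A i` to `B j` -/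
theorem move {H : SimpleGraph V} {Co : Set V} {A B : Fin 3 → Set V} (hM : FM H Co A B)
    (i j : Fin 3) {U W : Set V} (hU : U ⊆ A i) (hW : W ⊆ A i) (hd : Disjoint U W)
    (hcU : Cn H U) (hcW : Cn H W) (hUW : Tch H U W) (hUB : Tch H U (B j))
    (hWB : ∀ j', j' ≠ j → Tch H W (B j')) :
    FM H Co (Function.update A i W) (Function.update B j (B j ∪ U)) ∧
      Un (Function.update A i W) (Function.update B j (B j ∪ U)) ⊆ Un A B := by
  have hAc : ∀ m, m ≠ i → Function.update A i W m = A m := fun m hm =>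
    Function.update_of_ne hm _ _
  have hBc : ∀ m, m ≠ j → Function.update B j (B j ∪ U) m = B m := fun m hm =>
    Function.update_of_ne hm _ _
  have hAi : Function.update A i W i = W := Function.update_self _ _ _
  have hBj : Function.update B j (B j ∪ U) j = B j ∪ U := Function.update_self _ _ _
  have hsubA : ∀ m, Function.update A i W m ⊆ A m := by
    intro m
    by_cases hm : m = i
    · rw [hm, hAi]; exact hW
    · rw [hAc m hm]
  have hcBj : Cn H (B j ∪ U) := by
    obtain ⟨x, hx, y, hy, hxy⟩ := hUB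
    exact (hM.m.cb j).union hcU ⟨y, hy, x, hx, Or.inl hxy.symm⟩
  refine ⟨⟨⟨?_, ?_, ?_, ?_, ?_, ?_⟩, ?_, ?_⟩, ?_⟩
  · intro m
    by_cases hm : m = i
    · rw [hm, hAi]; exact hcW
    · rw [hAc m hm]; exact hM.m.ca m
  · intro m
    by_cases hm : m = j
    · rw [hm, hBj]; exact hcBj
    · rw [hBc m hm]; exact hM.m.cb m
  · intro m n hmn
    exact (hM.m.da m n hmn).mono (hsubA m) (hsubA n)
  · intro m n hmn
    by_cases hm : m = j
    · have hn : n ≠ j := fun h => hmn (hm.trans h.symm)
      rw [hm, hBj, hBc n hn, Set.disjoint_union_left]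
      exact ⟨hM.m.db j n (fun h => hn h.symm), (hM.m.dab i n).mono_left hU⟩
    · by_cases hn : n = j
      · rw [hn, hBj, hBc m hm, Set.disjoint_union_right]
        exact ⟨hM.m.db m j hm, ((hM.m.dab i m).mono_left hU).symm⟩
      · rw [hBc m hm, hBc n hn]
        exact hM.m.db m n hmn
  · intro m n
    by_cases hn : n = j
    · rw [hn, hBj, Set.disjoint_union_right]
      refine ⟨(hM.m.dab m j).mono_left (hsubA m), ?_⟩
      by_cases hm : m = i
      · rw [hm, hAi]; exact hd.symm
      · rw [hAc m hm]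
        exact (hM.m.da m i hm).mono_right hU
    · rw [hBc n hn]
      exact (hM.m.dab m n).mono_left (hsubA m)
  · intro m n
    have hadj : Tch H (Function.update A i W m) (Function.update B j (B j ∪ U) n) := by
      by_cases hm : m = i
      · rw [hm, hAi]
        by_cases hn : n = j
        · rw [hn, hBj]
          exact tch_mono (tch_symm hUW) subset_rfl Set.subset_union_right
        · rw [hBc n hn]
          exact hWB n hn
      · rw [hAc m hm]
        by_cases hn : n = j
        · rw [hn, hBj]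
          exact tch_mono (hM.m.adj m j) subset_rfl Set.subset_union_left
        · rw [hBc n hn]
          exact hM.m.adj m n
    exact hadj
  · intro m
    exact ⟨(hM.fa m).1.subset (hsubA m), (hsubA m).trans (hM.fa m).2⟩
  · intro m
    by_cases hm : m = j
    · rw [hm, hBj]
      exact ⟨(hM.fb j).1.union ((hM.fa i).1.subset hU),
        Set.union_subset (hM.fb j).2 (hU.trans (hM.fa i).2)⟩
    · rw [hBc m hm]
      exact hM.fb m
  · intro x hx
    rw [mem_un] at hx
    rcases hx with ⟨m, hm⟩ | ⟨m, hm⟩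
    · exact mem_un_left (hsubA m hm)
    · by_cases hmj : m = j
      · rw [hmj, hBj] at hm
        rcases hm with hm | hm
        · exact mem_un_right hm
        · exact mem_un_left (hU hm)
      · rw [hBc m hmj] at hm
        exact mem_un_right hm

/-- the centre step: the crossing, or `A i` can be replaced by a point -/
theorem cstep (h4 : Stmt_CEN) (h5 : Stmt_STA) {H : SimpleGraph V} {τ : Fin 4 → V} {Co : Set V}
    {A B : Fin 3 → Set V} {L : Fin 2 → Set V} {e : Fin 2 → V} (hFC : FC H τ Co)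
    (hM : FM H Co A B) (hL : Lkg H (Set.range τ) (Un A B) L e) {k k' : Fin 2} (hk : k ≠ k')
    {i i' : Fin 3} (hi : e k ∈ A i) (hi' : e k' ∈ A i') (hii : i ≠ i') :
    Cross H τ ∨ ∃ (p : V) (B' : Fin 3 → Set V) (L' : Fin 2 → Set V) (e' : Fin 2 → V),
      FM H Co (Function.update A i {p}) B' ∧
      Lkg H (Set.range τ) (Un (Function.update A i {p}) B') L' e' ∧ e' k = p ∧
      e' k' = e k' := by
  rcases h4 V H (A i) B (e k) (hM.m.ca i) (hM.fa i).1 hi hM.m.cb (fun j => hM.m.dab i j)
    hM.m.db (fun j => hM.m.adj i j) with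
    ⟨j, U, W, hU, hW, hd, hcU, hcW, hs, hUW, hUB, hWB⟩ | ⟨p, Q, B', hQ, hcQ, hsQ, hpQ, hB, hBd⟩
  · left
    obtain ⟨hM', hsub⟩ := move hM i j hU hW hd hcU hcW hUW hUB hWB
    have hek : e k ∈ Function.update B j (B j ∪ U) j := by
      rw [Function.update_self]; exact Or.inr hs
    have hek' : e k' ∈ Function.update A i W i' := by
      rw [Function.update_of_ne (fun h => hii h.symm)]; exact hi'
    refine caseA h5 hFC hM' (lkg_sub hL hsub (fun m => ?_)) (fun h => hk h.symm) hek' hek
    rcases all2 hk m with h | h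
    · rw [h]; exact mem_un_right hek
    · rw [h]; exact mem_un_left hek'
  · right
    have hAc : ∀ m, m ≠ i → Function.update A i {p} m = A m := fun m hm =>
      Function.update_of_ne hm _ _
    have hAi : Function.update A i {p} i = {p} := Function.update_self _ _ _
    have hpA : p ∈ A i := hQ hpQ
    have hsubA : ∀ m, Function.update A i {p} m ⊆ A m := by
      intro m
      by_cases hm : m = i
      · rw [hm, hAi]
        intro x hx
        rw [Set.mem_singleton_iff] at hx
        rw [hx]; exact hpA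
      · rw [hAc m hm]
    -- points of the new sets `B'` are old points
    have hM' : FM H Co (Function.update A i {p}) B' := by
      refine ⟨⟨?_, fun m => (hB m).2.2.1, ?_, hBd, ?_, ?_⟩, ?_, ?_⟩
      · intro m
        by_cases hm : m = i
        · rw [hm, hAi]; exact cn_singleton H p
        · rw [hAc m hm]; exact hM.m.ca m
      · intro m n hmn
        exact (hM.m.da m n hmn).mono (hsubA m) (hsubA n)
      · intro m n
        by_cases hm : m = i
        · rw [hm, hAi]
          exact (hB n).2.2.2.1.mono_left (by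
            intro x hx
            rw [Set.mem_singleton_iff] at hx
            rw [hx]; exact hpQ)
        · rw [hAc m hm]
          exact Disjoint.mono_right (hB n).2.1 (Set.disjoint_union_right.mpr
            ⟨hM.m.dab m n, hM.m.da m i hm⟩)
      · intro m n
        have hadj : Tch H (Function.update A i {p} m) (B' n) := by
          by_cases hm : m = i
          · rw [hm, hAi]; exact (hB n).2.2.2.2
          · rw [hAc m hm]
            exact tch_mono (hM.m.adj m n) subset_rfl (hB n).1
        exact hadj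
      · intro m
        exact ⟨(hM.fa m).1.subset (hsubA m), (hsubA m).trans (hM.fa m).2⟩
      · intro m
        exact ⟨((hM.fb m).1.union (hM.fa i).1).subset (hB m).2.1,
          (hB m).2.1.trans (Set.union_subset (hM.fb m).2 (hM.fa i).2)⟩
    have hUn : Un (Function.update A i {p}) B' ⊆ Un A B := by
      intro x hx
      rw [mem_un] at hx
      rcases hx with ⟨m, hm⟩ | ⟨m, hm⟩
      · exact mem_un_left (hsubA m hm)
      · rcases (hB m).2.1 hm with h | h
        · exact mem_un_right h
        · exact mem_un_left h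
    have hk'k : k' ≠ k := fun h => hk h.symm
    have hek' : e k' ∈ Un (Function.update A i {p}) B' := by
      refine mem_un_left (i := i') ?_
      rw [hAc i' (fun h => hii h.symm)]; exact hi'
    have hpU : p ∈ Un (Function.update A i {p}) B' := by
      refine mem_un_left (i := i) ?_
      rw [hAi]; rfl
    -- points of `Q` in the new union
    have hQU : ∀ x ∈ Q, x ∈ Un (Function.update A i {p}) B' → x = p := by
      intro x hxQ hx
      rw [mem_un] at hx
      rcases hx with ⟨m, hm⟩ | ⟨m, hm⟩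
      · by_cases hmi : m = i
        · rw [hmi, hAi] at hm; exact hm
        · rw [hAc m hmi] at hm
          exact absurd (hQ hxQ) (Set.disjoint_left.mp (hM.m.da m i hmi) hm)
      · exact absurd hm (Set.disjoint_left.mp (hB m).2.2.2.1 hxQ)
    have hQL : Disjoint (L k') Q := by
      rw [Set.disjoint_left]
      intro x hx hxQ
      have h1 : x = e k' := lkg_eq hL hx (mem_un_left (hQ hxQ))
      rw [h1] at hxQ
      exact Set.disjoint_left.mp (hM.m.da i i' hii) (hQ hxQ) hi'
    have hLk : Function.update L k (L k ∪ Q) k = L k ∪ Q := Function.update_self _ _ _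
    have hLk' : Function.update L k (L k ∪ Q) k' = L k' := Function.update_of_ne hk'k _ _
    have hEk : Function.update e k p k = p := Function.update_self _ _ _
    have hEk' : Function.update e k p k' = e k' := Function.update_of_ne hk'k _ _
    refine ⟨p, B', Function.update L k (L k ∪ Q), Function.update e k p, hM', ?_, hEk, hEk'⟩
    refine ⟨?_, ?_, ?_, ?_, ?_⟩
    · intro m
      rcases all2 hk m with h | h
      · rw [h, hLk]
        exact (hL.cn k).union hcQ ⟨e k, (lkg_mem hL k).1, e k, hsQ, Or.inr rfl⟩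
      · rw [h, hLk']; exact hL.cn k'
    · intro m
      rcases all2 hk m with h | h
      · rw [h, hLk]
        exact (hL.fin k).union ((hM.fa i).1.subset hQ)
      · rw [h, hLk']; exact hL.fin k'
    · intro m n hmn
      rcases all2 hk m with h | h <;> rcases all2 hk n with h' | h'
      · exact absurd (h.trans h'.symm) hmn
      · rw [h, h', hLk, hLk', Set.disjoint_union_left]
        exact ⟨hL.dis k k' hk, hQL.symm⟩
      · rw [h, h', hLk, hLk', Set.disjoint_union_right]
        exact ⟨hL.dis k' k hk'k, hQL⟩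
      · exact absurd (h.trans h'.symm) hmn
    · intro m
      rcases all2 hk m with h | h
      · rw [h, hLk]
        exact (hL.a k).mono (Set.inter_subset_inter_left _ Set.subset_union_left)
      · rw [h, hLk']; exact hL.a k'
    · intro m
      rcases all2 hk m with h | h
      · rw [h, hLk, hEk]
        ext x
        rw [Set.mem_singleton_iff]
        constructor
        · rintro ⟨h1 | h1, h2⟩
          · have h3 : x = e k := lkg_eq hL h1 (hUn h2)
            exact hQU x (by rw [h3]; exact hsQ) h2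
          · exact hQU x h1 h2
        · rintro rfl
          exact ⟨Or.inr hpQ, hpU⟩
      · rw [h, hLk', hEk']
        ext x
        rw [Set.mem_singleton_iff]
        constructor
        · rintro ⟨h1, h2⟩
          exact lkg_eq hL h1 (hUn h2)
        · rintro rfl
          exact ⟨(lkg_mem hL k').1, hek'⟩

theorem third {i i' : Fin 3} : i ≠ i' → ∃ m : Fin 3, m ≠ i ∧ m ≠ i' := by
  revert i i'; decide

/-- case (b): the two legs end in two different sets of the same side -/
theorem caseB (h4 : Stmt_CEN) (h5 : Stmt_STA) (h6 : Stmt_STG) {H : SimpleGraph V}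
    {τ : Fin 4 → V} {Co : Set V} {A B : Fin 3 → Set V} {L : Fin 2 → Set V} {e : Fin 2 → V}
    (hFC : FC H τ Co) (hM : FM H Co A B) (hL : Lkg H (Set.range τ) (Un A B) L e)
    {k k' : Fin 2} (hk : k ≠ k') {i i' : Fin 3} (hi : e k ∈ A i) (hi' : e k' ∈ A i')
    (hii : i ≠ i') : Cross H τ := by
  have hi'i : i' ≠ i := fun h => hii h.symm
  rcases cstep h4 h5 hFC hM hL hk hi hi' hii with h | ⟨p, B1, L1, e1, hM1, hL1, hp, he1⟩
  · exact h
  have hk'k : k' ≠ k := fun h => hk h.symm
  have h1 : e1 k ∈ Function.update A i {p} i := by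
    rw [Function.update_self, hp]; rfl
  have h2 : e1 k' ∈ Function.update A i {p} i' := by
    rw [Function.update_of_ne hi'i, he1]; exact hi'
  rcases cstep h4 h5 hFC hM1 hL1 hk'k h2 h1 hi'i with h | ⟨q, B2, L2, e2, hM2, hL2, hq, he2⟩
  · exact h
  obtain ⟨m, hmi, hmi'⟩ := third hii
  set A2 := Function.update (Function.update A i {p}) i' {q} with hA2
  have hAi : A2 i = {p} := by
    rw [hA2, Function.update_of_ne hii, Function.update_self]
  have hAi' : A2 i' = {q} := by
    rw [hA2, Function.update_self]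
  have hpi : p ∈ A2 i := by rw [hAi]; rfl
  have hqi : q ∈ A2 i' := by rw [hAi']; rfl
  have hpq : e2 k = p := by rw [he2, hp]
  have hL3 := lkg_comp hL2 ![k, k'] (inj2 hk)
  have he3 : e2 ∘ ![k, k'] = ![p, q] := by
    funext r
    fin_cases r
    · simp [hpq]
    · simp [hq]
  rw [he3] at hL3
  have hL4 : Lkg H (Set.range τ) ({p, q} ∪ (A2 m ∪ ⋃ r, B2 r)) (L2 ∘ ![k, k']) ![p, q] := by
    refine lkg_sub hL3 ?_ ?_
    · rintro x ((rfl | hx) | (hx | hx))
      · exact mem_un_left hpi
      · rw [Set.mem_singleton_iff] at hx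
        rw [hx]
        exact mem_un_left hqi
      · exact mem_un_left hx
      · exact Or.inr hx
    · intro r
      fin_cases r
      · exact Or.inl (Or.inl rfl)
      · exact Or.inl (Or.inr rfl)
  have hnot : ∀ {x : V} {j : Fin 3}, x ∈ A2 j → ∀ j', j ≠ j' → x ∉ A2 j' := fun hx j' hj =>
    Set.disjoint_left.mp (hM2.m.da _ j' hj) hx
  have hnotB : ∀ {x : V} {j : Fin 3}, x ∈ A2 j → ∀ j', x ∉ B2 j' := fun hx j' =>
    Set.disjoint_left.mp (hM2.m.dab _ j') hx
  refine h6 V H τ Co p q (A2 m) B2 (L2 ∘ ![k, k']) hFC ((hM2.fa i).2 hpi) ((hM2.fa i').2 hqi)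
    (fun h => hnot hpi i' hii (h ▸ hqi)) ⟨(hM2.fa m).1, (hM2.fa m).2, hM2.m.ca m⟩
    (fun r => ⟨(hM2.fb r).1, (hM2.fb r).2, hM2.m.cb r⟩) (hnot hpi m hmi.symm)
    (hnot hqi m hmi'.symm) (fun r => ⟨hnotB hpi r, hnotB hqi r, hM2.m.dab m r⟩) hM2.m.db ?_ hL4
  intro r
  refine ⟨?_, ?_, hM2.m.adj m r⟩
  · rw [← hAi]; exact hM2.m.adj i r
  · rw [← hAi']; exact hM2.m.adj i' r

theorem third' {i i' : Fin 3} : i ≠ i' → ∃ m : Fin 3, ∀ r, r = i ∨ r = i' ∨ r = m := by
  revert i i'; decide

/-- case (c): the two legs end in the same set -/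
theorem caseC (h3 : Stmt_SPL) (h5 : Stmt_STA) {H : SimpleGraph V}
    {τ : Fin 4 → V} {Co : Set V} {A B : Fin 3 → Set V} {L : Fin 2 → Set V} {e : Fin 2 → V}
    (hFC : FC H τ Co) (hM : FM H Co A B) (hL : Lkg H (Set.range τ) (Un A B) L e)
    (hmin : ∀ A' B', FM H Co A' B' → (Un A B).ncard ≤ (Un A' B').ncard)
    {k k' : Fin 2} (hk : k ≠ k') {i : Fin 3} (hi : e k ∈ A i) (hi' : e k' ∈ A i) :
    Cross H τ := by
  have hne : e k ≠ e k' := by
    intro h
    have h1 := (lkg_mem hL k).1
    rw [h] at h1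
    exact Set.disjoint_left.mp (hL.dis k k' hk) h1 (lkg_mem hL k').1
  obtain ⟨U, W, hUW, hd, hcU, hcW, hkU, hkW, htUW, hall, ⟨j1, hj1⟩, ⟨j2, hj2⟩⟩ :=
    h3 V H 3 (A i) B (e k) (e k') (hM.m.ca i) hi hi' hne (fun j => hM.m.adj i j) (by
      intro S' hS' hneS hcS
      by_contra hcon
      push Not at hcon
      obtain ⟨x, hxA, hxS⟩ : ∃ x ∈ A i, x ∉ S' := by
        by_contra hc
        push Not at hc
        exact hneS (Set.Subset.antisymm hS' hc)
      have hAc : ∀ m, m ≠ i → Function.update A i S' m = A m := fun m hm =>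
        Function.update_of_ne hm _ _
      have hAi : Function.update A i S' i = S' := Function.update_self _ _ _
      have hsubA : ∀ m, Function.update A i S' m ⊆ A m := by
        intro m
        by_cases hm : m = i
        · rw [hm, hAi]; exact hS'
        · rw [hAc m hm]
      have hM' : FM H Co (Function.update A i S') B := by
        refine ⟨⟨?_, hM.m.cb, ?_, hM.m.db, ?_, ?_⟩, ?_, hM.fb⟩
        · intro m
          by_cases hm : m = i
          · rw [hm, hAi]; exact hcS
          · rw [hAc m hm]; exact hM.m.ca m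
        · intro m n hmn
          exact (hM.m.da m n hmn).mono (hsubA m) (hsubA n)
        · intro m n
          exact (hM.m.dab m n).mono_left (hsubA m)
        · intro m n
          by_cases hm : m = i
          · rw [hm, hAi]; exact hcon n
          · rw [hAc m hm]; exact hM.m.adj m n
        · intro m
          exact ⟨(hM.fa m).1.subset (hsubA m), (hsubA m).trans (hM.fa m).2⟩
      have hlt : (Un (Function.update A i S') B).ncard < (Un A B).ncard := by
        refine Set.ncard_lt_ncard ?_ hM.ufin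
        rw [Set.ssubset_iff_of_subset]
        · refine ⟨x, mem_un_left hxA, fun hx => ?_⟩
          rw [mem_un] at hx
          rcases hx with ⟨m, hm⟩ | ⟨m, hm⟩
          · by_cases hmi : m = i
            · rw [hmi, hAi] at hm; exact hxS hm
            · rw [hAc m hmi] at hm
              exact Set.disjoint_left.mp (hM.m.da m i hmi) hm hxA
          · exact Set.disjoint_left.mp (hM.m.dab i m) hxA hm
        · intro y hy
          rw [mem_un] at hy
          rcases hy with ⟨m, hm⟩ | ⟨m, hm⟩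
          · exact mem_un_left (hsubA m hm)
          · exact mem_un_right hm
      exact absurd (hmin _ _ hM') (not_le.mpr hlt))
  have hU : U ⊆ A i := by rw [← hUW]; exact Set.subset_union_left
  have hW : W ⊆ A i := by rw [← hUW]; exact Set.subset_union_right
  have hW1 : Tch H W (B j1) := (hall j1).resolve_left hj1
  have hU2 : Tch H U (B j2) := (hall j2).resolve_right hj2
  have hj12 : j1 ≠ j2 := by
    intro h
    rw [h] at hj1
    exact hj1 hU2
  obtain ⟨m, hm⟩ := third' hj12
  rcases hall m with h | h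
  · -- `U` touches `B j2` and `B m`
    obtain ⟨hM', hsub⟩ := move hM i j1 hW hU hd.symm hcW hcU (tch_symm htUW) hW1 (by
      intro r hr
      rcases hm r with h' | h' | h'
      · exact absurd h' hr
      · rw [h']; exact hU2
      · rw [h']; exact h)
    have h1 : e k ∈ Function.update A i U i := by
      rw [Function.update_self]; exact hkU
    have h2 : e k' ∈ Function.update B j1 (B j1 ∪ W) j1 := by
      rw [Function.update_self]; exact Or.inr hkW
    refine caseA h5 hFC hM' (lkg_sub hL hsub (fun r => ?_)) hk h1 h2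
    rcases all2 hk r with h' | h'
    · rw [h']; exact mem_un_left h1
    · rw [h']; exact mem_un_right h2
  · obtain ⟨hM', hsub⟩ := move hM i j2 hU hW hd hcU hcW htUW hU2 (by
      intro r hr
      rcases hm r with h' | h' | h'
      · rw [h']; exact hW1
      · exact absurd h' hr
      · rw [h']; exact h)
    have h1 : e k' ∈ Function.update A i W i := by
      rw [Function.update_self]; exact hkW
    have h2 : e k ∈ Function.update B j2 (B j2 ∪ U) j2 := by
      rw [Function.update_self]; exact Or.inr hkU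
    refine caseA h5 hFC hM' (lkg_sub hL hsub (fun r => ?_)) (fun h => hk h.symm) h1 h2
    rcases all2 hk r with h' | h'
    · rw [h']; exact mem_un_right h2
    · rw [h']; exact mem_un_left h1

/-- two legs -/
theorem legs (h2 : Stmt_MEE) {H : SimpleGraph V} {τ : Fin 4 → V} {Co U : Set V}
    (hFC : FC H τ Co) (hU : U.Finite) (hUC : U ⊆ Co) (h : 2 ≤ U.ncard) :
    ∃ (L : Fin 2 → Set V) (e : Fin 2 → V), Lkg H (Set.range τ) U L e := by
  have key : ∀ X : Set V, X.Finite → X.ncard ≤ 1 → ∃ x ∈ Set.range τ, ∃ y ∈ U,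
      Rch H Xᶜ x y := by
    intro X hX hX1
    obtain ⟨y, hyU, hyX⟩ : ∃ y ∈ U, y ∉ X := by
      by_contra hcon
      push Not at hcon
      have : U.ncard ≤ X.ncard := Set.ncard_le_ncard hcon hX
      omega
    obtain ⟨i, -, hi⟩ := hFC.2 X hX (by omega) y (hUC hyU) hyX
    exact ⟨τ i, ⟨i, rfl⟩, y, hyU, hi.symm⟩
  have h0 : Lkg H (Set.range τ) U (fun i : Fin 0 => (∅ : Set V)) (fun i : Fin 0 => i.elim0) :=
    ⟨fun i => i.elim0, fun i => i.elim0, fun i => i.elim0, fun i => i.elim0, fun i => i.elim0⟩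
  obtain ⟨L1, e1, h1, -⟩ := h2 V H (Set.range τ) U 0 _ _ (Set.finite_range τ) hU h0
    (fun X hX hX1 => key X hX (by omega))
  obtain ⟨L2, e2, h2, -⟩ := h2 V H (Set.range τ) U 1 _ _ (Set.finite_range τ) hU h1 key
  exact ⟨L2, e2, h2⟩

end K3C_

open K3C_ in
theorem k3c_proof (h1 : Stmt_FMO) (h2 : Stmt_MEE) (h3 : Stmt_SPL) (h4 : Stmt_CEN)
    (h5 : Stmt_STA) (h6 : Stmt_STG) : Stmt_K3C := by
  classical
  intro V H τ Co A0 B0 hFC hM0 hCo
  -- a minimal finite model
  obtain ⟨A1, B1, hM1, hf1⟩ := (h1 V H).1 A0 B0 hM0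
  have hex : ∃ n : ℕ, ∃ A B, FM H Co A B ∧ (Un A B).ncard = n :=
    ⟨_, A1, B1, ⟨hM1, fun i => ⟨(hf1 i).1, (hf1 i).2.1.trans (hCo i).1⟩,
      fun i => ⟨(hf1 i).2.2.1, (hf1 i).2.2.2.trans (hCo i).2⟩⟩, rfl⟩
  obtain ⟨A, B, hM, hn⟩ := Nat.find_spec hex
  have hmin : ∀ A' B', FM H Co A' B' → (Un A B).ncard ≤ (Un A' B').ncard := by
    intro A' B' hM'
    rw [hn]
    exact Nat.find_min' hex ⟨A', B', hM', rfl⟩
  -- two legs
  have hcard : 2 ≤ (Un A B).ncard := by
    obtain ⟨x, hx⟩ := (hM.m.ca 0).1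
    obtain ⟨y, hy⟩ := (hM.m.ca 1).1
    have hxy : x ≠ y := by
      intro h
      rw [h] at hx
      exact Set.disjoint_left.mp (hM.m.da 0 1 (by decide)) hx hy
    have h1 : ({x, y} : Set V) ⊆ Un A B := by
      rintro z (rfl | hz)
      · exact mem_un_left hx
      · rw [Set.mem_singleton_iff] at hz
        rw [hz]; exact mem_un_left hy
    rw [← Set.ncard_pair hxy]
    exact Set.ncard_le_ncard h1 hM.ufin
  obtain ⟨L, e, hL⟩ := legs h2 hFC hM.ufin hM.uco hcard
  have hMs := hM.symm
  have hLs : Lkg H (Set.range τ) (Un B A) L e := by rw [un_symm]; exact hL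
  have hmins : ∀ A' B', FM H Co A' B' → (Un B A).ncard ≤ (Un A' B').ncard := by
    intro A' B' hM'
    rw [un_symm B A]
    exact hmin A' B' hM'
  have hk : (0 : Fin 2) ≠ 1 := by decide
  have hk' : (1 : Fin 2) ≠ 0 := by decide
  have he0 := (lkg_mem hL 0).2
  have he1 := (lkg_mem hL 1).2
  rw [mem_un] at he0 he1
  rcases he0 with ⟨i, hi⟩ | ⟨i, hi⟩ <;> rcases he1 with ⟨j, hj⟩ | ⟨j, hj⟩
  · by_cases hij : i = j
    · exact caseC h3 h5 hFC hM hL hmin hk hi (hij ▸ hj)
    · exact caseB h4 h5 h6 hFC hM hL hk hi hj hij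
  · exact caseA h5 hFC hM hL hk hi hj
  · exact caseA h5 hFC hM hL hk' hj hi
  · by_cases hij : i = j
    · exact caseC h3 h5 hFC hMs hLs hmins hk hi (hij ▸ hj)
    · exact caseB h4 h5 h6 hFC hMs hLs hk hi hj hij

end Pool.Agent.PT2
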