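import Pool.Agent.PT2.Stmts

set_option autoImplicit false

namespace Pool.Agent.PT2

open Pool.Agent.ACC Pool.Agent.KUR

namespace K5C_

variable {V : Type}

theorem fin3 {P : Fin 3 → Prop} (h0 : P 0) (h1 : P 1) (h2 : P 2) : ∀ i, P i := by
  intro i
  fin_cases i
  · exact h0
  · exact h1
  · exact h2

theorem pw3 {P : Fin 3 → Fin 3 → Prop} (hs : ∀ i j, P i j → P j i) (h01 : P 0 1) (h02 : P 0 2)
    (h12 : P 1 2) : ∀ i j, i ≠ j → P i j := by
  refine fin3 (fin3 (fun h => absurd rfl h) (fun _ => h01) (fun _ => h02))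
    (fin3 (fun _ => hs _ _ h01) (fun h => absurd rfl h) (fun _ => h12))
    (fin3 (fun _ => hs _ _ h02) (fun _ => hs _ _ h12) (fun h => absurd rfl h))

theorem tch_mono {H : SimpleGraph V} {A B A' B' : Set V} (h : Tch H A B) (hA : A ⊆ A')
    (hB : B ⊆ B') : Tch H A' B' := by
  obtain ⟨x, hx, y, hy, hxy⟩ := h
  exact ⟨x, hA hx, y, hB hy, hxy⟩

theorem tch_symm {H : SimpleGraph V} {A B : Set V} (h : Tch H A B) : Tch H B A := by
  obtain ⟨x, hx, y, hy, hxy⟩ := h
  exact ⟨y, hy, x, hx, hxy.symm⟩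

theorem lkg_sub {H : SimpleGraph V} {A B B' : Set V} {k : ℕ} {L : Fin k → Set V}
    {e : Fin k → V} (h : Lkg H A B L e) (hB : B' ⊆ B) (he : ∀ i, e i ∈ B') :
    Lkg H A B' L e := by
  refine ⟨h.cn, h.fin, h.dis, h.a, fun i => ?_⟩
  have hi := h.b i
  ext x
  constructor
  · rintro ⟨h1, h2⟩
    rw [← hi]
    exact ⟨h1, hB h2⟩
  · intro hx
    have hx' := hx
    rw [← hi] at hx
    rw [Set.mem_singleton_iff] at hx'
    refine ⟨hx.1, ?_⟩
    rw [hx']
    exact he i

theorem lkg2 {H : SimpleGraph V} {A B : Set V} {L0 L1 : Set V} {e0 e1 : V} (c0 : Cn H L0)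
    (c1 : Cn H L1) (f0 : L0.Finite) (f1 : L1.Finite) (d : Disjoint L0 L1)
    (a0 : (L0 ∩ A).Nonempty) (a1 : (L1 ∩ A).Nonempty) (b0 : L0 ∩ B = {e0})
    (b1 : L1 ∩ B = {e1}) : Lkg H A B ![L0, L1] ![e0, e1] := by
  refine ⟨fun i => ?_, fun i => ?_, fun i j hij => ?_, fun i => ?_, fun i => ?_⟩
  · fin_cases i
    · exact c0
    · exact c1
  · fin_cases i
    · exact f0
    · exact f1
  · fin_cases i <;> fin_cases j
    · exact absurd rfl hij
    · exact d
    · exact d.symm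
    · exact absurd rfl hij
  · fin_cases i
    · exact a0
    · exact a1
  · fin_cases i
    · exact b0
    · exact b1

theorem mem_of_b {H : SimpleGraph V} {A B : Set V} {k : ℕ} {L : Fin k → Set V}
    {e : Fin k → V} (h : Lkg H A B L e) (i : Fin k) : e i ∈ L i ∧ e i ∈ B := by
  have : e i ∈ L i ∩ B := by
    rw [h.b i]
    rfl
  exact this

theorem eq_of_b {H : SimpleGraph V} {A B : Set V} {k : ℕ} {L : Fin k → Set V}
    {e : Fin k → V} (h : Lkg H A B L e) (i : Fin k) {x : V} (hx : x ∈ L i) (hB : x ∈ B) :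
    x = e i := by
  have : x ∈ L i ∩ B := ⟨hx, hB⟩
  rw [h.b i] at this
  exact this

theorem swapL {H : SimpleGraph V} {A B : Set V} {L : Fin 2 → Set V} {e : Fin 2 → V}
    (h : Lkg H A B L e) : Lkg H A B ![L 1, L 0] ![e 1, e 0] :=
  lkg2 (h.cn 1) (h.cn 0) (h.fin 1) (h.fin 0) (h.dis 1 0 (by decide)) (h.a 1) (h.a 0) (h.b 1)
    (h.b 0)

/-- the properties of the sets of a model -/
def Ok (H : SimpleGraph V) (Co A : Set V) : Prop := A.Finite ∧ A ⊆ Co ∧ Cn H A

/-- use of STA -/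
theorem useSTA (hSTA : Stmt_STA) {H : SimpleGraph V} {τ : Fin 4 → V} {Co : Set V}
    (hFC : FC H τ Co) (X Y Z X' Y' Z' : Set V) (hX : Ok H Co X) (hY : Ok H Co Y)
    (hZ : Ok H Co Z) (hX' : Ok H Co X') (hY' : Ok H Co Y') (hZ' : Ok H Co Z')
    (d1 : Disjoint X Y) (d2 : Disjoint X Z) (d3 : Disjoint Y Z)
    (d1' : Disjoint X' Y') (d2' : Disjoint X' Z') (d3' : Disjoint Y' Z')
    (e1 : Disjoint X X') (e2 : Disjoint X Y') (e3 : Disjoint X Z')
    (e4 : Disjoint Y X') (e5 : Disjoint Y Y') (e6 : Disjoint Y Z')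
    (e7 : Disjoint Z X') (e8 : Disjoint Z Y') (e9 : Disjoint Z Z')
    (t2 : Tch H X Y') (t3 : Tch H X Z') (t4 : Tch H Y X') (t5 : Tch H Y Y') (t6 : Tch H Y Z')
    (t7 : Tch H Z X') (t8 : Tch H Z Y') (t9 : Tch H Z Z')
    (L : Fin 2 → Set V) (e : Fin 2 → V) (B : Set V) (hL : Lkg H (Set.range τ) B L e)
    (hB : X ∪ Y ∪ Z ∪ (X' ∪ Y' ∪ Z') ⊆ B) (he0 : e 0 ∈ X) (he1 : e 1 ∈ X') : Cross H τ := by
  have hsub : ((⋃ i, (![X, Y, Z] : Fin 3 → Set V) i) ∪ ⋃ i, (![X', Y', Z'] : Fin 3 → Set V) i)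
      ⊆ B := by
    rintro x (hx | hx)
    · obtain ⟨i, hi⟩ := Set.mem_iUnion.mp hx
      apply hB
      left
      revert hi
      revert i
      exact fin3 (fun h => Or.inl (Or.inl h)) (fun h => Or.inl (Or.inr h)) (fun h => Or.inr h)
    · obtain ⟨i, hi⟩ := Set.mem_iUnion.mp hx
      apply hB
      right
      revert hi
      revert i
      exact fin3 (fun h => Or.inl (Or.inl h)) (fun h => Or.inl (Or.inr h)) (fun h => Or.inr h)
  refine hSTA V H τ Co ![X, Y, Z] ![X', Y', Z'] L e hFC (fin3 hX hY hZ) (fin3 hX' hY' hZ')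
    (pw3 (fun i j h => ⟨h.1.symm, h.2.symm⟩) ⟨d1, d1'⟩ ⟨d2, d2'⟩ ⟨d3, d3'⟩)
    (fin3 (fin3 e1 e2 e3) (fin3 e4 e5 e6) (fin3 e7 e8 e9))
    (fin3 (fin3 (fun h => absurd rfl h) (fun _ => t2) (fun _ => t3))
      (fin3 (fun _ => t4) (fun _ => t5) (fun _ => t6))
      (fin3 (fun _ => t7) (fun _ => t8) (fun _ => t9))) (lkg_sub hL hsub ?_) he0 he1
  intro i
  fin_cases i
  · exact Or.inl (Set.mem_iUnion.mpr ⟨0, he0⟩)
  · exact Or.inr (Set.mem_iUnion.mpr ⟨0, he1⟩)

theorem ne1 (i : Fin 3) : i + 1 ≠ i := by revert i; decide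
theorem ne2 (i : Fin 3) : i + 2 ≠ i := by revert i; decide
theorem ne3 (i : Fin 3) : i + 1 ≠ i + 2 := by revert i; decide

/-- ends of the two legs in two different sets of a `K_5` model -/
theorem caseA (hCEN : Stmt_CEN) (hSTA : Stmt_STA) (hSTH : Stmt_STH) {H : SimpleGraph V}
    {τ : Fin 4 → V} {Co : Set V} (hFC : FC H τ Co) (A0 A1 : Set V) (C : Fin 3 → Set V)
    (hA0 : Ok H Co A0) (hA1 : Ok H Co A1) (hC : ∀ i, Ok H Co (C i))
    (h01 : Disjoint A0 A1) (h0C : ∀ i, Disjoint A0 (C i)) (h1C : ∀ i, Disjoint A1 (C i))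
    (hCC : ∀ i j, i ≠ j → Disjoint (C i) (C j)) (t0C : ∀ i, Tch H A0 (C i))
    (t1C : ∀ i, Tch H A1 (C i)) (tCC : ∀ i j, i ≠ j → Tch H (C i) (C j))
    (L : Fin 2 → Set V) (e : Fin 2 → V)
    (hL : Lkg H (Set.range τ) (A0 ∪ A1 ∪ ⋃ i, C i) L e) (he0 : e 0 ∈ A0) (he1 : e 1 ∈ A1) :
    Cross H τ := by
  have hCB : ∀ i, C i ⊆ A0 ∪ A1 ∪ ⋃ i, C i := fun i =>
    (Set.subset_iUnion C i).trans Set.subset_union_right
  have hA0B : A0 ⊆ A0 ∪ A1 ∪ ⋃ i, C i := Set.subset_union_left.trans Set.subset_union_left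
  have hA1B : A1 ⊆ A0 ∪ A1 ∪ ⋃ i, C i := Set.subset_union_right.trans Set.subset_union_left
  rcases hCEN V H A0 C (e 0) hA0.2.2 hA0.1 he0 (fun i => (hC i).2.2) h0C hCC t0C with
    ⟨i, U, W, hU, hW, hUW, hUc, hWc, hsU, tUW, tUi, tW⟩ | ⟨p, Q, C', hQ, hQc, hsQ, hpQ, hC', hd'⟩
  · refine useSTA hSTA hFC U (C (i + 1)) (C (i + 2)) A1 W (C i) ⟨hA0.1.subset hU, hU.trans hA0.2.1,
      hUc⟩ (hC _) (hC _) hA1 ⟨hA0.1.subset hW, hW.trans hA0.2.1, hWc⟩ (hC _)
      ((h0C _).mono_left hU) ((h0C _).mono_left hU) (hCC _ _ (ne3 i))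
      (h01.symm.mono_right hW) (h1C i) ((h0C i).mono_left hW)
      (h01.mono_left hU) hUW ((h0C i).mono_left hU)
      (h1C _).symm ((h0C _).mono_left hW).symm (hCC _ _ (ne1 i))
      (h1C _).symm ((h0C _).mono_left hW).symm (hCC _ _ (ne2 i))
      tUW tUi (tch_symm (t1C _)) (tch_symm (tW _ (ne1 i))) (tCC _ _ (ne1 i))
      (tch_symm (t1C _)) (tch_symm (tW _ (ne2 i))) (tCC _ _ (ne2 i)) L e _ hL ?_ hsU he1
    refine Set.union_subset (Set.union_subset (Set.union_subset (hU.trans hA0B) (hCB _)) (hCB _))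
      (Set.union_subset (Set.union_subset hA1B (hW.trans hA0B)) (hCB _))
  · -- first reduction to a point `p`
    have hC'1 : ∀ i, C i ⊆ C' i := fun i => (hC' i).1
    have hC'2 : ∀ i, C' i ⊆ C i ∪ A0 := fun i => (hC' i).2.1
    have hC'c : ∀ i, Cn H (C' i) := fun i => (hC' i).2.2.1
    have hQC' : ∀ i, Disjoint Q (C' i) := fun i => (hC' i).2.2.2.1
    have tp : ∀ i, Tch H {p} (C' i) := fun i => (hC' i).2.2.2.2
    have hokC' : ∀ i, Ok H Co (C' i) := fun i =>
      ⟨((hC i).1.union hA0.1).subset (hC'2 i), (hC'2 i).trans (Set.union_subset (hC i).2.1 hA0.2.1),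
        hC'c i⟩
    have h1C' : ∀ i, Disjoint A1 (C' i) := fun i =>
      (Disjoint.sup_right (h1C i) h01.symm).mono_right (hC'2 i)
    have hpA0 : p ∈ A0 := hQ hpQ
    have hpA1 : p ∉ A1 := fun h => (Set.disjoint_left.mp h01) hpA0 h
    have hpC' : ∀ i, p ∉ C' i := fun i h => (Set.disjoint_left.mp (hQC' i)) hpQ h
    have hC'B : ∀ i, C' i ⊆ A0 ∪ A1 ∪ ⋃ i, C i := fun i =>
      (hC'2 i).trans (Set.union_subset (hCB i) hA0B)
    -- the new legs
    have hL1Q : Disjoint (L 0 ∪ Q) (L 1) := by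
      rw [Set.disjoint_left]
      rintro x (hx | hx) hx1
      · exact (Set.disjoint_left.mp (hL.dis 0 1 (by decide))) hx hx1
      · have := eq_of_b hL 1 hx1 (hA0B (hQ hx))
        rw [this] at hx
        exact (Set.disjoint_left.mp h01) (hQ hx) he1
    have hc0 : Cn H (L 0 ∪ Q) := Cn.union (hL.cn 0) hQc ⟨e 0, (mem_of_b hL 0).1, e 0, hsQ,
      Or.inr rfl⟩
    have hf0 : (L 0 ∪ Q).Finite := (hL.fin 0).union (hA0.1.subset hQ)
    have ha0 : ((L 0 ∪ Q) ∩ Set.range τ).Nonempty := by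
      obtain ⟨x, hx, hx'⟩ := hL.a 0
      exact ⟨x, Or.inl hx, hx'⟩
    have hL' : Lkg H (Set.range τ) ({p} ∪ A1 ∪ ⋃ i, C' i) ![L 0 ∪ Q, L 1] ![p, e 1] := by
      refine lkg2 hc0 (hL.cn 1) hf0 (hL.fin 1) hL1Q ha0 (hL.a 1) ?_ ?_
      · ext x
        constructor
        · rintro ⟨hx, hxB⟩
          have hxQ : x ∈ Q := by
            rcases hx with hx | hx
            · have hxB' : x ∈ A0 ∪ A1 ∪ ⋃ i, C i := by
                rcases hxB with (hxB | hxB) | hxB
                · rw [Set.mem_singleton_iff.mp hxB]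
                  exact hA0B hpA0
                · exact hA1B hxB
                · obtain ⟨i, hi⟩ := Set.mem_iUnion.mp hxB
                  exact hC'B i hi
              rw [eq_of_b hL 0 hx hxB']
              exact hsQ
            · exact hx
          rcases hxB with (hxB | hxB) | hxB
          · exact hxB
          · exact absurd hxB ((Set.disjoint_left.mp h01) (hQ hxQ))
          · obtain ⟨i, hi⟩ := Set.mem_iUnion.mp hxB
            exact absurd hi ((Set.disjoint_left.mp (hQC' i)) hxQ)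
        · intro hx
          rw [Set.mem_singleton_iff] at hx
          rw [hx]
          exact ⟨Or.inr hpQ, Or.inl (Or.inl rfl)⟩
      · ext x
        constructor
        · rintro ⟨hx, hxB⟩
          have hxB' : x ∈ A0 ∪ A1 ∪ ⋃ i, C i := by
            rcases hxB with (hxB | hxB) | hxB
            · rw [Set.mem_singleton_iff.mp hxB]
              exact hA0B hpA0
            · exact hA1B hxB
            · obtain ⟨i, hi⟩ := Set.mem_iUnion.mp hxB
              exact hC'B i hi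
          exact eq_of_b hL 1 hx hxB'
        · intro hx
          rw [Set.mem_singleton_iff] at hx
          rw [hx]
          exact ⟨(mem_of_b hL 1).1, Or.inl (Or.inr he1)⟩
    have hp1 : Ok H Co {p} := ⟨Set.finite_singleton p,
      Set.singleton_subset_iff.mpr (hA0.2.1 hpA0), cn_singleton H p⟩
    have tC' : ∀ i j, i ≠ j → Tch H (C' i) (C' j) := fun i j hij =>
      tch_mono (tCC i j hij) (hC'1 i) (hC'1 j)
    rcases hCEN V H A1 C' (e 1) hA1.2.2 hA1.1 he1 hC'c h1C' hd'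
      (fun i => tch_mono (t1C i) subset_rfl (hC'1 i)) with
      ⟨i, U, W, hU, hW, hUW, hUc, hWc, hsU, tUW, tUi, tW⟩ |
      ⟨r, Q', C'', hQ', hQ'c, hsQ', hrQ', hC'', hd''⟩
    · refine useSTA hSTA hFC U (C' (i + 1)) (C' (i + 2)) {p} W (C' i) ⟨hA1.1.subset hU,
        hU.trans hA1.2.1, hUc⟩ (hokC' _) (hokC' _) hp1 ⟨hA1.1.subset hW, hW.trans hA1.2.1, hWc⟩
        (hokC' _)
        ((h1C' _).mono_left hU) ((h1C' _).mono_left hU) (hd' _ _ (ne3 i))
        (Set.disjoint_singleton_left.mpr (fun h => hpA1 (hW h)))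
        (Set.disjoint_singleton_left.mpr (hpC' i)) ((h1C' i).mono_left hW)
        (Set.disjoint_singleton_right.mpr (fun h => hpA1 (hU h))) hUW ((h1C' i).mono_left hU)
        (Set.disjoint_singleton_right.mpr (hpC' _)) ((h1C' _).mono_left hW).symm
        (hd' _ _ (ne1 i))
        (Set.disjoint_singleton_right.mpr (hpC' _)) ((h1C' _).mono_left hW).symm
        (hd' _ _ (ne2 i))
        tUW tUi (tch_symm (tp _)) (tch_symm (tW _ (ne1 i))) (tC' _ _ (ne1 i))
        (tch_symm (tp _)) (tch_symm (tW _ (ne2 i))) (tC' _ _ (ne2 i)) _ _ _ (swapL hL') ?_ hsU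
        (Set.mem_singleton p)
      have s1 : ∀ i, C' i ⊆ {p} ∪ A1 ∪ ⋃ i, C' i := fun i =>
        (Set.subset_iUnion C' i).trans Set.subset_union_right
      have s2 : A1 ⊆ {p} ∪ A1 ∪ ⋃ i, C' i := Set.subset_union_right.trans Set.subset_union_left
      have s3 : ({p} : Set V) ⊆ {p} ∪ A1 ∪ ⋃ i, C' i :=
        Set.subset_union_left.trans Set.subset_union_left
      exact Set.union_subset (Set.union_subset (Set.union_subset (hU.trans s2) (s1 _)) (s1 _))
        (Set.union_subset (Set.union_subset s3 (hW.trans s2)) (s1 _))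
    · have hC''1 : ∀ i, C' i ⊆ C'' i := fun i => (hC'' i).1
      have hC''2 : ∀ i, C'' i ⊆ C' i ∪ A1 := fun i => (hC'' i).2.1
      have hC''c : ∀ i, Cn H (C'' i) := fun i => (hC'' i).2.2.1
      have hQC'' : ∀ i, Disjoint Q' (C'' i) := fun i => (hC'' i).2.2.2.1
      have tr : ∀ i, Tch H {r} (C'' i) := fun i => (hC'' i).2.2.2.2
      have hrA1 : r ∈ A1 := hQ' hrQ'
      have hpr : p ≠ r := fun h => hpA1 (h ▸ hrA1)
      have hpC'' : ∀ i, p ∉ C'' i := by
        intro i h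
        rcases hC''2 i h with h | h
        · exact hpC' i h
        · exact hpA1 h
      have hrC'' : ∀ i, r ∉ C'' i := fun i h => (Set.disjoint_left.mp (hQC'' i)) hrQ' h
      have hC''B : ∀ i, C'' i ⊆ {p} ∪ A1 ∪ ⋃ i, C' i := fun i =>
        (hC''2 i).trans (Set.union_subset ((Set.subset_iUnion C' i).trans Set.subset_union_right)
          (Set.subset_union_right.trans Set.subset_union_left))
      have hrB : r ∈ {p} ∪ A1 ∪ ⋃ i, C' i := Or.inl (Or.inr hrA1)
      have hBB : ({p, r} ∪ ⋃ i, C'' i) ⊆ {p} ∪ A1 ∪ ⋃ i, C' i := by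
        rintro x ((rfl | hx) | hx)
        · exact Or.inl (Or.inl rfl)
        · rw [Set.mem_singleton_iff.mp hx]
          exact hrB
        · obtain ⟨i, hi⟩ := Set.mem_iUnion.mp hx
          exact hC''B i hi
      refine hSTH V H τ Co p r C'' ![L 0 ∪ Q, L 1 ∪ Q'] hFC (hA0.2.1 hpA0) (hA1.2.1 hrA1) hpr
        (fun i => ⟨((hokC' i).1.union hA1.1).subset (hC''2 i),
          (hC''2 i).trans (Set.union_subset (hokC' i).2.1 hA1.2.1), hC''c i⟩)
        (fun i => ⟨hpC'' i, hrC'' i⟩)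
        (fun i j hij => ⟨hd'' i j hij, tch_mono (tC' i j hij) (hC''1 i) (hC''1 j)⟩)
        (fun i => ⟨tch_mono (tp i) subset_rfl (hC''1 i), tr i⟩) ?_
      have hQ'0 : Disjoint (L 0 ∪ Q) Q' := by
        rw [Set.disjoint_left]
        intro x hx hxQ'
        have := eq_of_b hL' 0 hx (Or.inl (Or.inr (hQ' hxQ')))
        have hxp : x = p := this
        rw [hxp] at hxQ'
        exact hpA1 (hQ' hxQ')
      refine lkg2 hc0 (Cn.union (hL.cn 1) hQ'c ⟨e 1, (mem_of_b hL 1).1, e 1, hsQ', Or.inr rfl⟩)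
        hf0 ((hL.fin 1).union (hA1.1.subset hQ')) (Disjoint.sup_right hL1Q hQ'0) ha0 ?_ ?_ ?_
      · obtain ⟨x, hx, hx'⟩ := hL.a 1
        exact ⟨x, Or.inl hx, hx'⟩
      · ext x
        constructor
        · rintro ⟨hx, hxB⟩
          exact eq_of_b hL' 0 hx (hBB hxB)
        · intro hx
          rw [Set.mem_singleton_iff] at hx
          rw [hx]
          exact ⟨Or.inr hpQ, Or.inl (Or.inl rfl)⟩
      · ext x
        constructor
        · rintro ⟨hx, hxB⟩
          have hxQ' : x ∈ Q' := by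
            rcases hx with hx | hx
            · have := eq_of_b hL' 1 hx (hBB hxB)
              have hxe : x = e 1 := this
              rw [hxe]
              exact hsQ'
            · exact hx
          rcases hxB with (hxB | hxB) | hxB
          · exfalso
            rw [hxB] at hxQ'
            exact hpA1 (hQ' hxQ')
          · exact hxB
          · obtain ⟨i, hi⟩ := Set.mem_iUnion.mp hxB
            exact absurd hi ((Set.disjoint_left.mp (hQC'' i)) hxQ')
        · intro hx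
          rw [Set.mem_singleton_iff] at hx
          rw [hx]
          exact ⟨Or.inr hrQ', Or.inl (Or.inr rfl)⟩

theorem caseB (hSPL : Stmt_SPL) (hCEN : Stmt_CEN) (hK3C : Stmt_K3C) (hSTA : Stmt_STA)
    (hSTH : Stmt_STH) {H : SimpleGraph V} {τ : Fin 4 → V} {Co : Set V} (hFC : FC H τ Co)
    (A : Fin 5 → Set V) (hA : ∀ i, Ok H Co (A i)) (hd : ∀ i j, i ≠ j → Disjoint (A i) (A j))
    (ht : ∀ i j, i ≠ j → Tch H (A i) (A j))
    (hmin : ∀ S' : Set V, S' ⊆ A 0 → S' ≠ A 0 → Cn H S' → ∃ j : Fin 4, ¬ Tch H S' (A j.succ))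
    (L : Fin 2 → Set V) (e : Fin 2 → V) (hL : Lkg H (Set.range τ) (⋃ i, A i) L e)
    (he0 : e 0 ∈ A 0) (he1 : e 1 ∈ A 0) : Cross H τ := by
  have hne : e 0 ≠ e 1 := by
    intro h
    have h0 := (mem_of_b hL 0).1
    have h1 := (mem_of_b hL 1).1
    rw [h] at h0
    exact (Set.disjoint_left.mp (hL.dis 0 1 (by decide))) h0 h1
  have s0 : ∀ j : Fin 4, (0 : Fin 5) ≠ j.succ := fun j => (Fin.succ_ne_zero j).symm
  obtain ⟨U, W, hUW, hdUW, hUc, hWc, hU0, hW1, tUW, tor, hnU, hnW⟩ :=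
    hSPL V H 4 (A 0) (fun j => A j.succ) (e 0) (e 1) (hA 0).2.2 he0 he1 hne
      (fun j => ht 0 j.succ (s0 j)) hmin
  have hU : U ⊆ A 0 := hUW ▸ Set.subset_union_left
  have hW : W ⊆ A 0 := hUW ▸ Set.subset_union_right
  have okU : Ok H Co U := ⟨(hA 0).1.subset hU, hU.trans (hA 0).2.1, hUc⟩
  have okW : Ok H Co W := ⟨(hA 0).1.subset hW, hW.trans (hA 0).2.1, hWc⟩
  have sub : ∀ i, A i ⊆ ⋃ i, A i := fun i => Set.subset_iUnion A i
  have dU : ∀ j : Fin 4, Disjoint U (A j.succ) := fun j => (hd 0 j.succ (s0 j)).mono_left hU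
  have dW : ∀ j : Fin 4, Disjoint W (A j.succ) := fun j => (hd 0 j.succ (s0 j)).mono_left hW
  have uni : ∀ X Y : Set V, Ok H Co X → Ok H Co Y → Tch H Y X → Ok H Co (X ∪ Y) := by
    intro X Y hX hY hT
    refine ⟨hX.1.union hY.1, Set.union_subset hX.2.1 hY.2.1, ?_⟩
    obtain ⟨y, hy, x, hx, hxy⟩ := hT
    exact Cn.union hX.2.2 hY.2.2 ⟨x, hx, y, hy, Or.inl hxy.symm⟩
  have ss : ∀ i j : Fin 4, i ≠ j → i.succ ≠ j.succ := fun i j h h' => h (Fin.succ_injective _ h')
  by_cases c1 : ∃ i : Fin 4, ¬ Tch H W (A i.succ) ∧ ∀ j, j ≠ i → Tch H W (A j.succ)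
  · obtain ⟨i, hi, hj⟩ := c1
    have tUi : Tch H U (A i.succ) := (tor i).resolve_right hi
    refine caseA hCEN hSTA hSTH hFC (A i.succ ∪ U) W (fun l => A (i.succAbove l).succ)
      (uni _ _ (hA _) okU tUi) okW (fun l => hA _)
      (Disjoint.sup_left (dW i).symm hdUW)
      (fun l => Disjoint.sup_left (hd _ _ (ss _ _ (Fin.succAbove_ne i l).symm)) (dU _))
      (fun l => dW _)
      (fun l m hlm => hd _ _ (ss _ _ (fun h => hlm (Fin.succAbove_right_injective h))))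
      (fun l => tch_mono (ht _ _ (ss _ _ (Fin.succAbove_ne i l).symm)) Set.subset_union_left
        subset_rfl)
      (fun l => hj _ (Fin.succAbove_ne i l))
      (fun l m hlm => ht _ _ (ss _ _ (fun h => hlm (Fin.succAbove_right_injective h))))
      L e (lkg_sub hL ?_ ?_) (Or.inr hU0) hW1
    · exact Set.union_subset (Set.union_subset (Set.union_subset (sub _) (hU.trans (sub _)))
        (hW.trans (sub _))) (Set.iUnion_subset (fun l => sub _))
    · intro l
      fin_cases l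
      · exact Or.inl (Or.inl (Or.inr hU0))
      · exact Or.inl (Or.inr hW1)
  · by_cases c2 : ∃ i : Fin 4, ¬ Tch H U (A i.succ) ∧ ∀ j, j ≠ i → Tch H U (A j.succ)
    · obtain ⟨i, hi, hj⟩ := c2
      have tWi : Tch H W (A i.succ) := (tor i).resolve_left hi
      refine caseA hCEN hSTA hSTH hFC U (A i.succ ∪ W) (fun l => A (i.succAbove l).succ)
        okU (uni _ _ (hA _) okW tWi) (fun l => hA _)
        (Disjoint.sup_right (dU i) hdUW)
        (fun l => dU _)
        (fun l => Disjoint.sup_left (hd _ _ (ss _ _ (Fin.succAbove_ne i l).symm)) (dW _))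
        (fun l m hlm => hd _ _ (ss _ _ (fun h => hlm (Fin.succAbove_right_injective h))))
        (fun l => hj _ (Fin.succAbove_ne i l))
        (fun l => tch_mono (ht _ _ (ss _ _ (Fin.succAbove_ne i l).symm)) Set.subset_union_left
          subset_rfl)
        (fun l m hlm => ht _ _ (ss _ _ (fun h => hlm (Fin.succAbove_right_injective h))))
        L e (lkg_sub hL ?_ ?_) hU0 (Or.inr hW1)
      · exact Set.union_subset (Set.union_subset (hU.trans (sub _)) (Set.union_subset (sub _)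
          (hW.trans (sub _)))) (Set.iUnion_subset (fun l => sub _))
      · intro l
        fin_cases l
        · exact Or.inl (Or.inl hU0)
        · exact Or.inl (Or.inr (Or.inr hW1))
    · push Not at c1 c2
      obtain ⟨i, hi⟩ := hnW
      obtain ⟨j, hji, hj⟩ := c1 i hi
      obtain ⟨k, hk⟩ := hnU
      obtain ⟨l, hlk, hl⟩ := c2 k hk
      have ui : Tch H U (A i.succ) := (tor i).resolve_right hi
      have uj : Tch H U (A j.succ) := (tor j).resolve_right hj
      have wk : Tch H W (A k.succ) := (tor k).resolve_left hk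
      have wl : Tch H W (A l.succ) := (tor l).resolve_left hl
      have hki : k ≠ i := fun h => hk (h ▸ ui)
      have hkj : k ≠ j := fun h => hk (h ▸ uj)
      have hli : l ≠ i := fun h => hl (h ▸ ui)
      have hlj : l ≠ j := fun h => hl (h ▸ uj)
      refine hK3C V H τ Co ![U, A k.succ, A l.succ] ![W, A i.succ, A j.succ] hFC
        ⟨fin3 hUc (hA _).2.2 (hA _).2.2, fin3 hWc (hA _).2.2 (hA _).2.2,
          pw3 (fun i j h => h.symm) (dU k) (dU l) (hd _ _ (ss _ _ hlk.symm)),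
          pw3 (fun i j h => h.symm) (dW i) (dW j) (hd _ _ (ss _ _ hji.symm)),
          fin3 (fin3 hdUW (dU i) (dU j))
            (fin3 (dW k).symm (hd _ _ (ss _ _ hki)) (hd _ _ (ss _ _ hkj)))
            (fin3 (dW l).symm (hd _ _ (ss _ _ hli)) (hd _ _ (ss _ _ hlj))),
          fin3 (fin3 tUW ui uj)
            (fin3 (tch_symm wk) (ht _ _ (ss _ _ hki)) (ht _ _ (ss _ _ hkj)))
            (fin3 (tch_symm wl) (ht _ _ (ss _ _ hli)) (ht _ _ (ss _ _ hlj)))⟩
        (fin3 ⟨okU.2.1, okW.2.1⟩ ⟨(hA _).2.1, (hA _).2.1⟩ ⟨(hA _).2.1, (hA _).2.1⟩)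

/-- finite models inside `Co` -/
def Mod (H : SimpleGraph V) (Co : Set V) (A : Fin 5 → Set V) : Prop :=
  (∀ i, Ok H Co (A i)) ∧ (∀ i j, i ≠ j → Disjoint (A i) (A j)) ∧
    ∀ i j, i ≠ j → Tch H (A i) (A j)

theorem mod_perm {H : SimpleGraph V} {Co : Set V} {A : Fin 5 → Set V} (h : Mod H Co A)
    (σ : Equiv.Perm (Fin 5)) : Mod H Co (fun i => A (σ i)) :=
  ⟨fun _ => h.1 _, fun _ _ hij => h.2.1 _ _ (fun h' => hij (σ.injective h')),
    fun _ _ hij => h.2.2 _ _ (fun h' => hij (σ.injective h'))⟩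

theorem exists_min {H : SimpleGraph V} {Co : Set V} {A : Fin 5 → Set V} (h : Mod H Co A) :
    ∃ A : Fin 5 → Set V, Mod H Co A ∧ ∀ i, ∀ S' : Set V, S' ⊆ A i → S' ≠ A i → Cn H S' →
      ∃ j, j ≠ i ∧ ¬ Tch H S' (A j) := by
  classical
  have hex : ∃ n : ℕ, ∃ A : Fin 5 → Set V, Mod H Co A ∧ ∑ i, (A i).ncard = n :=
    ⟨_, A, h, rfl⟩
  obtain ⟨A, hA, hn⟩ := Nat.find_spec hex
  refine ⟨A, hA, ?_⟩
  intro i S' hS' hne hcn
  by_contra hcon
  push Not at hcon
  have hlt : S'.ncard < (A i).ncard := Set.ncard_lt_ncard (lt_of_le_of_ne hS' hne) (hA.1 i).1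
  have hupd : ∀ j, j ≠ i → Function.update A i S' j = A j := fun j hj =>
    Function.update_of_ne hj _ _
  have hupd' : Function.update A i S' i = S' := Function.update_self _ _ _
  have hmod : Mod H Co (Function.update A i S') := by
    refine ⟨fun j => ?_, fun j k hjk => ?_, fun j k hjk => ?_⟩
    · by_cases hj : j = i
      · rw [hj, hupd']
        exact ⟨(hA.1 i).1.subset hS', hS'.trans (hA.1 i).2.1, hcn⟩
      · rw [hupd j hj]
        exact hA.1 j
    · by_cases hj : j = i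
      · have hk : k ≠ i := fun h' => hjk (hj.trans h'.symm)
        rw [hj, hupd', hupd k hk]
        exact (hA.2.1 i k hk.symm).mono_left hS'
      · by_cases hk : k = i
        · rw [hk, hupd', hupd j hj]
          exact (hA.2.1 j i hj).mono_right hS'
        · rw [hupd j hj, hupd k hk]
          exact hA.2.1 j k hjk
    · by_cases hj : j = i
      · have hk : k ≠ i := fun h' => hjk (hj.trans h'.symm)
        rw [hj, hupd', hupd k hk]
        exact hcon k hk
      · by_cases hk : k = i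
        · rw [hk, hupd', hupd j hj]
          exact tch_symm (hcon j hj)
        · rw [hupd j hj, hupd k hk]
          exact hA.2.2 j k hjk
  have hsum : ∑ j, (Function.update A i S' j).ncard < Nat.find hex := by
    rw [← hn]
    refine Finset.sum_lt_sum (fun j _ => ?_) ⟨i, Finset.mem_univ i, ?_⟩
    · by_cases hj : j = i
      · rw [hj, hupd']
        exact hlt.le
      · rw [hupd j hj]
    · rw [hupd']
      exact hlt
  exact Nat.find_min hex hsum ⟨_, hmod, rfl⟩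

end K5C_

open K5C_

theorem k5c_proof (hFMO : Stmt_FMO) (hMEE : Stmt_MEE) (hSPL : Stmt_SPL) (hCEN : Stmt_CEN)
    (hK3C : Stmt_K3C) (hSTA : Stmt_STA) (hSTH : Stmt_STH) : Stmt_K5C := by
  intro V H τ Co A0 hFC hM hCo
  classical
  obtain ⟨A1, hM1, hA1⟩ := (hFMO V H).2 A0 hM
  obtain ⟨A, hA, hmin⟩ := exists_min (H := H) (Co := Co) (A := A1)
    ⟨fun i => ⟨(hA1 i).1, (hA1 i).2.trans (hCo i), hM1.c i⟩, hM1.d, hM1.adj⟩
  have hBfin : (⋃ i, A i).Finite := Set.finite_iUnion (fun i => (hA.1 i).1)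
  have hcond : ∀ X : Set V, X.Finite → X.ncard ≤ 1 →
      ∃ x ∈ Set.range τ, ∃ y ∈ ⋃ i, A i, Rch H Xᶜ x y := by
    intro X hX hX1
    obtain ⟨a, ha⟩ := (hA.1 0).2.2.1
    obtain ⟨b, hb⟩ := (hA.1 1).2.2.1
    have hab : a ≠ b := by
      intro h
      rw [h] at ha
      exact (Set.disjoint_left.mp (hA.2.1 0 1 (by decide))) ha hb
    obtain ⟨v, hv, hvX⟩ : ∃ v ∈ ⋃ i, A i, v ∉ X := by
      by_cases haX : a ∈ X
      · refine ⟨b, Set.mem_iUnion.mpr ⟨1, hb⟩, fun hbX => ?_⟩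
        have h2 : ({a, b} : Set V) ⊆ X := by
          rintro x (rfl | hx)
          · exact haX
          · rw [Set.mem_singleton_iff.mp hx]
            exact hbX
        have h3 := Set.ncard_le_ncard h2 hX
        rw [Set.ncard_pair hab] at h3
        omega
      · exact ⟨a, Set.mem_iUnion.mpr ⟨0, ha⟩, haX⟩
    obtain ⟨i, hi⟩ := Set.mem_iUnion.mp hv
    obtain ⟨l, _, hl⟩ := hFC.2 X hX (by omega) v ((hA.1 i).2.1 hi) hvX
    exact ⟨τ l, ⟨l, rfl⟩, v, hv, hl.symm⟩
  obtain ⟨L1, e1, hL1, _⟩ := hMEE V H (Set.range τ) (⋃ i, A i) 0 (fun i => i.elim0)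
    (fun i => i.elim0) (Set.finite_range τ) hBfin
    ⟨fun i => i.elim0, fun i => i.elim0, fun i => i.elim0, fun i => i.elim0, fun i => i.elim0⟩
    (fun X hX hX0 => hcond X hX (by omega))
  obtain ⟨L, e, hL, _⟩ := hMEE V H (Set.range τ) (⋃ i, A i) 1 L1 e1 (Set.finite_range τ) hBfin
    hL1 (fun X hX hX0 => hcond X hX hX0)
  obtain ⟨i0, hi0⟩ := Set.mem_iUnion.mp (mem_of_b hL 0).2
  obtain ⟨i1, hi1⟩ := Set.mem_iUnion.mp (mem_of_b hL 1).2
  have sub : ∀ i, A i ⊆ ⋃ i, A i := fun i => Set.subset_iUnion A i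
  by_cases hii : i0 = i1
  · -- both ends in the same set
    have hσ := mod_perm hA (Equiv.swap 0 i0)
    have hU : (⋃ i, A (Equiv.swap 0 i0 i)) = ⋃ i, A i := by
      ext x
      constructor
      · intro hx
        obtain ⟨i, hi⟩ := Set.mem_iUnion.mp hx
        exact Set.mem_iUnion.mpr ⟨_, hi⟩
      · intro hx
        obtain ⟨i, hi⟩ := Set.mem_iUnion.mp hx
        refine Set.mem_iUnion.mpr ⟨Equiv.swap 0 i0 i, ?_⟩
        rw [Equiv.swap_apply_self]
        exact hi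
    have hs : Equiv.swap 0 i0 0 = i0 := Equiv.swap_apply_left _ _
    refine caseB hSPL hCEN hK3C hSTA hSTH hFC (fun i => A (Equiv.swap 0 i0 i)) hσ.1 hσ.2.1 hσ.2.2
      ?_ L e (by rw [hU]; exact hL) ?_ ?_
    · intro S' hS' hne hcn
      have hS'' : S' ⊆ A i0 := by
        have h' : S' ⊆ A (Equiv.swap 0 i0 0) := hS'
        rw [hs] at h'
        exact h'
      have hne' : S' ≠ A i0 := by
        have h' : S' ≠ A (Equiv.swap 0 i0 0) := hne
        rw [hs] at h'
        exact h'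
      obtain ⟨j, hj, hjT⟩ := hmin i0 S' hS'' hne' hcn
      have hj0 : Equiv.swap 0 i0 j ≠ 0 := by
        intro h
        apply hj
        have := congrArg (Equiv.swap 0 i0) h
        rw [Equiv.swap_apply_self, hs] at this
        exact this
      obtain ⟨j', hj'⟩ := Fin.exists_succ_eq.mpr hj0
      refine ⟨j', ?_⟩
      rw [hj', Equiv.swap_apply_self]
      exact hjT
    · show e 0 ∈ A (Equiv.swap 0 i0 0)
      rw [hs]
      exact hi0
    · show e 1 ∈ A (Equiv.swap 0 i0 0)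
      rw [hs, hii]
      exact hi1
  · -- different sets
    obtain ⟨σ, h0, h1⟩ : ∃ σ : Equiv.Perm (Fin 5), σ 0 = i0 ∧ σ 1 = i1 := by
      have hj' : Equiv.swap 0 i0 i1 ≠ 0 := by
        intro h
        apply hii
        have := congrArg (Equiv.swap 0 i0) h
        rw [Equiv.swap_apply_self, Equiv.swap_apply_left] at this
        exact this.symm
      refine ⟨(Equiv.swap 1 (Equiv.swap 0 i0 i1)).trans (Equiv.swap 0 i0), ?_, ?_⟩
      · rw [Equiv.trans_apply, Equiv.swap_apply_of_ne_of_ne (by decide) hj'.symm,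
          Equiv.swap_apply_left]
      · rw [Equiv.trans_apply, Equiv.swap_apply_left, Equiv.swap_apply_self]
    have hσ := mod_perm hA σ
    have n01 : (0 : Fin 5) ≠ 1 := by decide
    have n0 : ∀ l : Fin 3, (0 : Fin 5) ≠ l.succ.succ := fun l => (Fin.succ_ne_zero _).symm
    have n1 : ∀ l : Fin 3, (1 : Fin 5) ≠ l.succ.succ := by decide
    have n2 : ∀ l m : Fin 3, l ≠ m → l.succ.succ ≠ m.succ.succ := fun l m h h' =>
      h (Fin.succ_injective _ (Fin.succ_injective _ h'))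
    refine caseA hCEN hSTA hSTH hFC (A (σ 0)) (A (σ 1)) (fun l : Fin 3 => A (σ l.succ.succ))
      (hσ.1 0) (hσ.1 1) (fun l => hσ.1 _) (hσ.2.1 0 1 n01) (fun l => hσ.2.1 _ _ (n0 l))
      (fun l => hσ.2.1 _ _ (n1 l)) (fun l m h => hσ.2.1 _ _ (n2 l m h))
      (fun l => hσ.2.2 _ _ (n0 l)) (fun l => hσ.2.2 _ _ (n1 l))
      (fun l m h => hσ.2.2 _ _ (n2 l m h)) L e (lkg_sub hL ?_ ?_) (h0 ▸ hi0) (h1 ▸ hi1)
    · exact Set.union_subset (Set.union_subset (sub _) (sub _))
        (Set.iUnion_subset (fun l => sub _))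
    · intro l
      fin_cases l
      · exact Or.inl (Or.inl (h0 ▸ hi0))
      · exact Or.inl (Or.inr (h1 ▸ hi1))

end Pool.Agent.PT2
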