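import Pool.Agent.PT2.Stmts

/-!
MP_851278_al, PART II, module KAP: extreme numbers of separators.
-/

set_option autoImplicit false

namespace Pool.Agent.PT2

open Pool.Agent.ACC Pool.Agent.KUR

namespace KAP_

variable {V : Type}

/-- `F` separates the complement of `A k` from `A l` -/
def Sep (P : SimpleGraph V) (S : Set V) (A : ℕ → Set V) (k l : ℕ) (F : Set V) : Prop :=
  F.Finite ∧ ∀ x ∈ S, x ∉ A k → ∀ y ∈ A l ∩ S, ¬ Rch P Fᶜ x y

theorem anti_le {A : ℕ → Set V} (h : ∀ k, A (k + 1) ⊆ A k) {k l : ℕ} (hkl : k ≤ l) :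
    A l ⊆ A k := by
  induction hkl with
  | refl => exact subset_rfl
  | step _ ih => exact (h _).trans ih

theorem rch_mem {P : SimpleGraph V} {S T : Set V} (hsup : ∀ x y, P.Adj x y → x ∈ S) {x y : V}
    (hx : x ∈ S) (h : Rch P T x y) : y ∈ S :=
  h.closed S hx (fun _ _ v _ huv => hsup v _ huv.symm)

theorem exists_sep {P : SimpleGraph V} {S : Set V} {A : ℕ → Set V} {c M : ℕ}
    (h : Chain P S A c M) (k : ℕ) : ∃ l, k < l ∧ ∃ F, F.ncard ≤ c ∧ Sep P S A k l F := by
  classical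
  refine ⟨k + 1, Nat.lt_succ_self k, {x | x ∈ A (k + 1) ∧ ∃ y, y ∉ A (k + 1) ∧ P.Adj x y}, ?_⟩
  have hch : ∀ x, x ∈ {x | x ∈ A (k + 1) ∧ ∃ y, y ∉ A (k + 1) ∧ P.Adj x y} →
      ∃ y, y ∉ A (k + 1) ∧ P.Adj x y := fun x hx => hx.2
  choose! g hg using hch
  have hmaps : Set.MapsTo (fun x => s(x, g x))
      {x | x ∈ A (k + 1) ∧ ∃ y, y ∉ A (k + 1) ∧ P.Adj x y} (bd P (A (k + 1))) :=
    fun x hx => ⟨x, g x, (hg x hx).2, hx.1, (hg x hx).1, rfl⟩
  have hinj : Set.InjOn (fun x => s(x, g x))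
      {x | x ∈ A (k + 1) ∧ ∃ y, y ∉ A (k + 1) ∧ P.Adj x y} := by
    intro x hx y hy he
    have he' : s(x, g x) = s(y, g y) := he
    rw [Sym2.eq_iff] at he'
    rcases he' with ⟨e, -⟩ | ⟨e, -⟩
    · exact e
    · exfalso
      apply (hg y hy).1
      rw [← e]
      exact hx.1
  have hb := h.bfin (k + 1)
  refine ⟨(Set.ncard_le_ncard_of_injOn _ hmaps hinj hb.1).trans hb.2,
    Set.Finite.of_injOn hmaps hinj hb.1, ?_⟩
  intro x _ hxA y hy hr
  have hx' : x ∉ A (k + 1) := fun h' => hxA (h.anti k h')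
  obtain ⟨u, v, hu, hv, -, hvF, huv, -⟩ := hr.exit (A (k + 1))ᶜ hx' (fun h' => h' hy.1)
  apply hvF
  have hv' : v ∈ A (k + 1) := by
    by_contra h'
    exact hv h'
  exact ⟨hv', u, hu, huv.symm⟩

/-- bounded monotone sequences are eventually constant -/
theorem ev_const (κ : ℕ → ℕ) (c : ℕ) (hm : ∀ k k', k ≤ k' → κ k ≤ κ k') (hb : ∀ k, κ k ≤ c) :
    ∃ k0, ∀ k, k0 ≤ k → κ k = κ k0 := by
  by_contra hcon
  push Not at hcon
  have key : ∀ n : ℕ, ∃ k, n ≤ κ k := by
    intro n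
    induction n with
    | zero => exact ⟨0, Nat.zero_le _⟩
    | succ n ih =>
      obtain ⟨k, hk⟩ := ih
      obtain ⟨k', hk', hne⟩ := hcon k
      have := hm k k' hk'
      exact ⟨k', by omega⟩
  obtain ⟨k, hk⟩ := key (c + 1)
  have := hb k
  omega

end KAP_

open KAP_ in
theorem kap_proof : Stmt_KAP := by
  classical
  intro V P S A c M h
  -- the separation numbers
  have hex : ∀ k, ∃ n : ℕ, ∃ l, k < l ∧ ∃ F, F.ncard = n ∧ Sep P S A k l F := by
    intro k
    obtain ⟨l, hl, F, -, hF⟩ := exists_sep h k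
    exact ⟨F.ncard, l, hl, F, rfl, hF⟩
  have hmin : ∀ k l F, k < l → Sep P S A k l F → Nat.find (hex k) ≤ F.ncard :=
    fun k l F hl hF => Nat.find_min' (hex k) ⟨l, hl, F, rfl, hF⟩
  have hle : ∀ k, Nat.find (hex k) ≤ c := by
    intro k
    obtain ⟨l, hl, F, hc, hF⟩ := exists_sep h k
    exact (hmin k l F hl hF).trans hc
  have hmono : ∀ k k', k ≤ k' → Nat.find (hex k) ≤ Nat.find (hex k') := by
    intro k k' hkk
    obtain ⟨l, hl, F, hc, hF⟩ := Nat.find_spec (hex k')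
    rw [← hc]
    exact hmin k l F (lt_of_le_of_lt hkk hl)
      ⟨hF.1, fun x hx hxA => hF.2 x hx (fun h' => hxA (anti_le h.anti hkk h'))⟩
  obtain ⟨k0, hk0⟩ := ev_const (fun k => Nat.find (hex k)) c hmono hle
  have hk0' : ∀ k, k0 ≤ k → Nat.find (hex k) = Nat.find (hex k0) := hk0
  refine ⟨Nat.find (hex k0), k0, ?_, ?_, ?_⟩
  · -- M ≤ μ
    by_contra hcon
    push Not at hcon
    obtain ⟨l, hl, F, hc, hF⟩ := Nat.find_spec (hex k0)
    obtain ⟨x, hx, hxA, y, hy, hr⟩ := h.min l F hF.1 (by rw [hc]; exact hcon)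
    exact hF.2 x hx (fun h' => hxA (anti_le h.anti (Nat.zero_le k0) h')) y
      ⟨hy, rch_mem h.sup hx hr⟩ hr
  · intro k hk l F hFf hFc
    by_contra hcon
    push Not at hcon
    have hsep : Sep P S A k (max l (k + 1)) F :=
      ⟨hFf, fun x hx hxA y hy =>
        hcon x hx hxA y ⟨anti_le h.anti (le_max_left l (k + 1)) hy.1, hy.2⟩⟩
    have h1 := hmin k (max l (k + 1)) F
      (lt_of_lt_of_le (Nat.lt_succ_self k) (le_max_right l (k + 1))) hsep
    rw [hk0' k hk] at h1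
    omega
  · intro k hk
    obtain ⟨l, hl, F, hc, hF⟩ := Nat.find_spec (hex k)
    have hsep : Sep P S A k l (F ∩ S) := by
      refine ⟨hF.1.subset Set.inter_subset_left, ?_⟩
      intro x hx hxA y hy hr
      apply hF.2 x hx hxA y hy
      obtain ⟨w, hw⟩ := hr
      have key : ∀ (a b : V) (w : P.Walk a b), a ∈ S → (∀ z ∈ w.support, z ∈ (F ∩ S)ᶜ) →
          ∀ z ∈ w.support, z ∈ Fᶜ := by
        intro a b w
        induction w with
        | nil =>
          intro ha hz z hz'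
          have := hz z hz'
          rw [SimpleGraph.Walk.support_nil, List.mem_singleton] at hz'
          subst hz'
          exact fun h' => this ⟨h', ha⟩
        | @cons a b d hab p ih =>
          intro ha hz z hz'
          rw [SimpleGraph.Walk.support_cons, List.mem_cons] at hz'
          rcases hz' with rfl | hz'
          · exact fun h' => hz z (by simp) ⟨h', ha⟩
          · exact ih (h.sup b a hab.symm) (fun z hz2 => hz z (by simp [hz2])) z hz'
      exact ⟨w, key x y w hx hw⟩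
    refine ⟨l, hl, F ∩ S, Set.inter_subset_right, hsep.1, ?_, hsep.2⟩
    have h1 := hmin k l (F ∩ S) hl hsep
    have h2 := Set.ncard_le_ncard (Set.inter_subset_left (s := F) (t := S)) hF.1
    have h3 := hk0' k hk
    omega

end Pool.Agent.PT2
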