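import Pool.Agent.PT2.Stmts

set_option autoImplicit false

namespace Pool.Agent.PT2

open Pool.Agent.ACC Pool.Agent.KUR

theorem loc_proof (h1 : Stmt_OFT) (_h2 : Stmt_ATT) : Stmt_LOC := by
  intro V P S A μ W s T q L l i x y hL hx hi1 hiL hl hxy
  obtain ⟨o1, o2, o3, o4, o5, o6⟩ := h1 V P μ W s T hL.st
  have st := hL.st
  -- a neighbour on another track
  have nb : ∀ (m : ℕ) (u : Fin μ), u ≠ q i → Cnn P W T m (q i) u →
      ∃ i', i ≤ i' + 1 ∧ i' ≤ i + 1 ∧ u = q i' := by
    intro m u hu hc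
    rcases hL.qnb m i u hi1 hiL hu hc with h | h
    · exact ⟨i - 1, by omega, by omega, h⟩
    · exact ⟨i + 1, by omega, by omega, h⟩
  rcases hx with hx | ⟨hxo, z, hz, hzr⟩
  · -- the block of `x`
    obtain ⟨b, hb1, hb2, hb3, hxb, hxW, hxW'⟩ : ∃ b, l ≤ b ∧ b ≤ l + 1 ∧ 1 ≤ b ∧ x ∈ T b (q i) ∧
        x ∈ W b ∧ x ∉ W (b + 1) := by
      rcases st.sub l (q i) x hx with h | ⟨ha, hb⟩
      · refine ⟨l + 1, by omega, le_rfl, by omega, ?_, ?_, ?_⟩
        · rw [h]; exact st.lo (l + 1) (q i)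
        · rw [h]; exact (st.sW (l + 1) (q i)).1
        · rw [h]; exact (st.sW (l + 1) (q i)).2
      · exact ⟨l, le_rfl, by omega, hl, hx, ha, hb⟩
    -- the position of `y`
    have hyW : y ∈ W (b - 1) := by
      by_contra hy
      have hxW1 : x ∈ W (b - 1) := by
        have := st.anti (b - 1)
        rw [Nat.sub_add_cancel hb3] at this
        exact this hxW
      obtain ⟨i'', h⟩ := st.out (b - 1) x y hxy hxW1 hy
      have := (st.sW (b - 1) i'').2
      rw [Nat.sub_add_cancel hb3, ← h] at this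
      exact this hxW
    have key : ∃ c, b - 1 ≤ c ∧ c ≤ b ∧ (y ∈ Off W T c ∨ ∃ u, y ∈ T c u) := by
      by_cases hyb1 : y ∈ W (b + 1)
      · obtain ⟨u, hu⟩ := st.out (b + 1) y x hxy.symm hyb1 hxW'
        refine ⟨b, by omega, le_rfl, Or.inr ⟨u, ?_⟩⟩
        rw [hu]
        exact st.hi b u
      · by_cases hyb : y ∈ W b
        · exact ⟨b, by omega, le_rfl, o3 b y hyb hyb1⟩
        · refine ⟨b - 1, le_rfl, by omega, o3 (b - 1) y hyW ?_⟩
          rwa [Nat.sub_add_cancel hb3]
    obtain ⟨c, hc1, hc2, hyc⟩ := key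
    rcases hyc with hyo | ⟨u, hyu⟩
    · -- off-track
      have hxc : x ∈ T c (q i) := by
        rcases o1 c y x hyo hxy.symm with h | ⟨i', h⟩
        · exact absurd hxb (o6 c b (q i) x h)
        · have := (o4 b (q i) c i' x hxb h).1
          rw [this]
          exact h
      refine ⟨c, i, by omega, by omega, by omega, by omega, Or.inr ⟨hyo, x, hxc, ?_⟩⟩
      exact Rch.of_adj (Or.inl hyo) (Or.inr rfl) hxy.symm
    · by_cases hu : u = q i
      · subst hu
        exact ⟨c, i, by omega, by omega, by omega, by omega, Or.inl hyu⟩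
      · obtain ⟨m', hm1, hm2⟩ := o2 b (q i) c u x y hxb hyu (Ne.symm hu) hxy
        have hcn : Cnn P W T m' (q i) u :=
          ⟨x, hm1, y, hm2, Rch.of_adj (Or.inr (Or.inl rfl)) (Or.inr (Or.inr rfl)) hxy⟩
        obtain ⟨i', hi1', hi2', rfl⟩ := nb m' u hu hcn
        exact ⟨c, i', by omega, by omega, hi1', hi2', Or.inl hyu⟩
  · rcases o1 l x y hxo hxy with hyo | ⟨u, hyu⟩
    · refine ⟨l, i, by omega, by omega, by omega, by omega, Or.inr ⟨hyo, z, hz, ?_⟩⟩
      have e : Rch P (Off W T l ∪ {z}) y x := Rch.of_adj (Or.inl hyo) (Or.inl hxo) hxy.symm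
      exact e.trans hzr
    · by_cases hu : u = q i
      · subst hu
        exact ⟨l, i, by omega, by omega, by omega, by omega, Or.inl hyu⟩
      · have hcn : Cnn P W T l (q i) u := by
          refine ⟨z, hz, y, hyu, ?_⟩
          have e1 : Rch P (Off W T l ∪ {z, y}) z x := hzr.symm.mono le_rfl (by
            rintro v (hv | hv)
            · exact Or.inl hv
            · exact Or.inr (Or.inl hv))
          exact e1.trans (Rch.of_adj (Or.inl hxo) (Or.inr (Or.inr rfl)) hxy)
        obtain ⟨i', hi1', hi2', rfl⟩ := nb l u hu hcn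
        exact ⟨l, i', by omega, by omega, hi1', hi2', Or.inl hyu⟩

end Pool.Agent.PT2
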