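import Pool.Agent.PT2.Stmts
import Pool.Agent.ACC.MEN

/-!
Squad PTC, module MEE: Menger's theorem with fixed ends.  Instead of augmenting paths we use the
lattice of the separators of size `k` between `A` and the old ends: the meet of all of them would
separate `A` from `B`.
-/

set_option autoImplicit false

namespace Pool.Agent.PT2

open Pool.Agent.ACC Pool.Agent.KUR

namespace MEE_

variable {V : Type}

/-- vertices reached from `A` outside `S`; the vertices of `B` can only be end points -/
inductive Cl (H : SimpleGraph V) (A B S : Set V) : V → Prop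
  | base (a : V) : a ∈ A → a ∉ S → Cl H A B S a
  | step (u v : V) : Cl H A B S u → u ∉ B → H.Adj u v → v ∉ S → Cl H A B S v

theorem Cl.nmem {H : SimpleGraph V} {A B S : Set V} {v : V} (h : Cl H A B S v) : v ∉ S := by
  cases h <;> assumption

/-- the meet of two separators -/
def mt (H : SimpleGraph V) (A B S S' : Set V) : Set V :=
  {v | (v ∈ S ∧ Cl H A B S' v) ∨ (v ∈ S' ∧ Cl H A B S v) ∨ (v ∈ S ∧ v ∈ S')}

/-- the join of two separators -/
def jn (H : SimpleGraph V) (A B S S' : Set V) : Set V :=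
  {v | (v ∈ S ∧ ¬ Cl H A B S' v) ∨ (v ∈ S' ∧ ¬ Cl H A B S v)}

theorem cl_mt {H : SimpleGraph V} {A B S S' : Set V} {v : V} (h : Cl H A B (mt H A B S S') v) :
    Cl H A B S v ∧ Cl H A B S' v := by
  induction h with
  | base a ha hn =>
    by_cases h1 : a ∈ S
    · by_cases h2 : a ∈ S'
      · exact absurd (Or.inr (Or.inr ⟨h1, h2⟩)) hn
      · exact absurd (Or.inl ⟨h1, Cl.base a ha h2⟩) hn
    · by_cases h2 : a ∈ S'
      · exact absurd (Or.inr (Or.inl ⟨h2, Cl.base a ha h1⟩)) hn
      · exact ⟨Cl.base a ha h1, Cl.base a ha h2⟩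
  | step u v _ hu huv hn ih =>
    obtain ⟨i1, i2⟩ := ih
    by_cases h1 : v ∈ S
    · by_cases h2 : v ∈ S'
      · exact absurd (Or.inr (Or.inr ⟨h1, h2⟩)) hn
      · exact absurd (Or.inl ⟨h1, Cl.step u v i2 hu huv h2⟩) hn
    · by_cases h2 : v ∈ S'
      · exact absurd (Or.inr (Or.inl ⟨h2, Cl.step u v i1 hu huv h1⟩)) hn
      · exact ⟨Cl.step u v i1 hu huv h1, Cl.step u v i2 hu huv h2⟩

/-- every leg meets the join -/
theorem leg_jn {H : SimpleGraph V} {A B S S' L : Set V} {e : V} (hL : Cn H L)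
    (ha : (L ∩ A).Nonempty) (hb : L ∩ B = {e}) (h1 : ¬ Cl H A B S e) (h2 : ¬ Cl H A B S' e) :
    (L ∩ jn H A B S S').Nonempty := by
  by_contra hcon
  have hno : ∀ v ∈ L, v ∉ jn H A B S S' := fun v hv hj => hcon ⟨v, hv, hj⟩
  obtain ⟨a, haL, haA⟩ := ha
  have heL : e ∈ L := by
    have : e ∈ L ∩ B := by rw [hb]; rfl
    exact this.1
  have hor : ∀ v ∈ L, (v ∈ S ∧ v ∈ S') ∨ (v ∈ S ∧ Cl H A B S' v) ∨ (v ∈ S' ∧ Cl H A B S v) ∨
      (v ∉ S ∧ v ∉ S') := by
    intro v hv
    by_cases m1 : v ∈ S
    · by_cases m2 : v ∈ S'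
      · exact Or.inl ⟨m1, m2⟩
      · by_cases m3 : Cl H A B S' v
        · exact Or.inr (Or.inl ⟨m1, m3⟩)
        · exact absurd (Or.inl ⟨m1, m3⟩) (hno v hv)
    · by_cases m2 : v ∈ S'
      · by_cases m3 : Cl H A B S v
        · exact Or.inr (Or.inr (Or.inl ⟨m2, m3⟩))
        · exact absurd (Or.inr ⟨m2, m3⟩) (hno v hv)
      · exact Or.inr (Or.inr (Or.inr ⟨m1, m2⟩))
  have hnb : ∀ v ∈ L, v ∈ S → v ∈ S' → False := fun v hv m1 m2 =>
    hno v hv (Or.inl ⟨m1, fun h => h.nmem m2⟩)
  have key := (hL.rch haL heL).closed {v | v ∈ L ∧ (Cl H A B S v ∨ Cl H A B S' v)} (by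
      refine ⟨haL, ?_⟩
      rcases hor a haL with ⟨m1, m2⟩ | ⟨_, m⟩ | ⟨_, m⟩ | ⟨m1, _⟩
      · exact (hnb a haL m1 m2).elim
      · exact Or.inr m
      · exact Or.inl m
      · exact Or.inl (Cl.base a haA m1)) (by
      rintro u ⟨huL, hu⟩ v hv huv
      have hue : u ≠ e := by
        rintro rfl
        exact hu.elim h1 h2
      have huB : u ∉ B := by
        intro h
        have : u ∈ L ∩ B := ⟨huL, h⟩
        rw [hb] at this
        exact hue this
      refine ⟨hv, ?_⟩
      rcases hor v hv with ⟨m1, m2⟩ | ⟨_, m⟩ | ⟨_, m⟩ | ⟨m1, m2⟩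
      · exact (hnb v hv m1 m2).elim
      · exact Or.inr m
      · exact Or.inl m
      · rcases hu with hu | hu
        · exact Or.inl (Cl.step u v hu huB huv m1)
        · exact Or.inr (Cl.step u v hu huB huv m2))
  exact key.2.elim h1 h2

theorem jn_card {H : SimpleGraph V} {A B S S' : Set V} {k : ℕ} {L : Fin k → Set V}
    {e : Fin k → V} (hL : Lkg H A B L e) (hS : S.Finite) (hS' : S'.Finite)
    (h1 : ∀ i, ¬ Cl H A B S (e i)) (h2 : ∀ i, ¬ Cl H A B S' (e i)) :
    k ≤ (jn H A B S S').ncard := by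
  have hfin : (jn H A B S S').Finite := (hS.union hS').subset (by
    rintro v (⟨h, _⟩ | ⟨h, _⟩)
    · exact Or.inl h
    · exact Or.inr h)
  have hex : ∀ i, ∃ x, x ∈ L i ∧ x ∈ jn H A B S S' := by
    intro i
    obtain ⟨x, hx1, hx2⟩ := leg_jn (S := S) (S' := S') (hL.cn i) (hL.a i) (hL.b i) (h1 i) (h2 i)
    exact ⟨x, hx1, hx2⟩
  choose f hf using hex
  have hinj : Function.Injective f := by
    intro i j hij
    by_contra hne
    exact Set.disjoint_left.1 (hL.dis i j hne) (hf i).1 (hij ▸ (hf j).1)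
  have hr : (Set.range f).ncard = k := by
    rw [← Set.image_univ, Set.ncard_image_of_injective _ hinj, Set.ncard_univ, Nat.card_eq_fintype_card,
      Fintype.card_fin]
  rw [← hr]
  refine Set.ncard_le_ncard ?_ hfin
  rintro x ⟨i, rfl⟩
  exact (hf i).2

theorem mt_card {H : SimpleGraph V} {A B S S' : Set V} (hS : S.Finite) (hS' : S'.Finite) :
    (mt H A B S S').Finite ∧ (mt H A B S S').ncard + (jn H A B S S').ncard =
      S.ncard + S'.ncard := by
  have hu : mt H A B S S' ∪ jn H A B S S' = S ∪ S' := by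
    ext v
    constructor
    · rintro ((⟨h, _⟩ | ⟨h, _⟩ | ⟨h, _⟩) | (⟨h, _⟩ | ⟨h, _⟩))
      · exact Or.inl h
      · exact Or.inr h
      · exact Or.inl h
      · exact Or.inl h
      · exact Or.inr h
    · rintro (h | h)
      · by_cases h' : Cl H A B S' v
        · exact Or.inl (Or.inl ⟨h, h'⟩)
        · exact Or.inr (Or.inl ⟨h, h'⟩)
      · by_cases h' : Cl H A B S v
        · exact Or.inl (Or.inr (Or.inl ⟨h, h'⟩))
        · exact Or.inr (Or.inr ⟨h, h'⟩)
  have hi : mt H A B S S' ∩ jn H A B S S' = S ∩ S' := by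
    ext v
    constructor
    · rintro ⟨⟨h, h1⟩ | ⟨h, h1⟩ | ⟨h, h1⟩, ⟨h2, h3⟩ | ⟨h2, h3⟩⟩
      · exact absurd h1 h3
      · exact ⟨h, h2⟩
      · exact ⟨h2, h⟩
      · exact absurd h1 h3
      · exact ⟨h, h1⟩
      · exact ⟨h, h1⟩
    · rintro ⟨h1, h2⟩
      exact ⟨Or.inr (Or.inr ⟨h1, h2⟩), Or.inl ⟨h1, fun h => h.nmem h2⟩⟩
  have hfin : (S ∪ S').Finite := hS.union hS'
  have hf1 : (mt H A B S S').Finite := hfin.subset (by rw [← hu]; exact Set.subset_union_left)
  have hf2 : (jn H A B S S').Finite := hfin.subset (by rw [← hu]; exact Set.subset_union_right)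
  refine ⟨hf1, ?_⟩
  rw [← Set.ncard_union_add_ncard_inter _ _ hf1 hf2, hu, hi,
    Set.ncard_union_add_ncard_inter _ _ hS hS']

/-- a reached vertex is joined to `A` by a walk in the graph restricted to the complement of
`B` outside `T` -/
theorem cl_walk {H : SimpleGraph V} {A B S T : Set V} {v : V} (h : Cl H A B S v)
    (hv : v ∉ B \ T) : ∃ x ∈ A \ (B \ T), ∃ p : (rst H (B \ T)ᶜ).Walk x v,
      ∀ z ∈ p.support, z ∉ S := by
  induction h with
  | base a ha hn =>
    exact ⟨a, ⟨ha, hv⟩, SimpleGraph.Walk.nil, by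
      intro z hz
      rw [SimpleGraph.Walk.support_nil, List.mem_singleton] at hz
      rw [hz]
      exact hn⟩
  | step u v _ hu huv hn ih =>
    have hu' : u ∉ B \ T := fun h => hu h.1
    obtain ⟨x, hx, p, hp⟩ := ih hu'
    have hadj : (rst H (B \ T)ᶜ).Adj u v := ⟨hu', hv, huv⟩
    refine ⟨x, hx, p.concat hadj, ?_⟩
    intro z hz
    rw [SimpleGraph.Walk.support_concat] at hz
    rcases List.mem_append.1 hz with h | h
    · exact hp z h
    · rw [List.mem_singleton] at h
      rw [h]
      exact hn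

/-- vertices on walks of a restricted graph -/
theorem rst_supp {H : SimpleGraph V} {C : Set V} {x y : V} (p : (rst H C).Walk x y)
    (hx : x ∈ C) : ∀ z ∈ p.support, z ∈ C := by
  induction p with
  | nil =>
    intro z hz
    rw [SimpleGraph.Walk.support_nil, List.mem_singleton] at hz
    rw [hz]
    exact hx
  | cons h p ih =>
    intro z hz
    rw [SimpleGraph.Walk.support_cons, List.mem_cons] at hz
    rcases hz with rfl | hz
    · exact hx
    · exact ih h.2.1 z hz

theorem supp_cn {H : SimpleGraph V} {C : Set V} {x y : V} (p : (rst H C).Walk x y) :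
    Cn H {z | z ∈ p.support} := by
  have key : ∀ (a b : V) (q : (rst H C).Walk a b), ∀ z ∈ q.support,
      Rch H {z | z ∈ q.support} a z := by
    intro a b q
    induction q with
    | nil =>
      intro z hz
      rw [SimpleGraph.Walk.support_nil, List.mem_singleton] at hz
      subst hz
      exact Rch.refl H (by simp)
    | @cons a b c h q ih =>
      intro z hz
      rw [SimpleGraph.Walk.support_cons, List.mem_cons] at hz
      have hsub : ∀ w, w ∈ q.support → w ∈ (SimpleGraph.Walk.cons h q).support := by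
        intro w hw
        rw [SimpleGraph.Walk.support_cons]
        exact List.mem_cons_of_mem _ hw
      rcases hz with rfl | hz
      · exact Rch.refl H (SimpleGraph.Walk.start_mem_support _)
      · refine Rch.trans (Rch.of_adj ?_ ?_ h.2.2) ((ih z hz).mono le_rfl hsub)
        · exact SimpleGraph.Walk.start_mem_support _
        · exact hsub b (SimpleGraph.Walk.start_mem_support _)
  exact cn_of_rch (x := x) (SimpleGraph.Walk.start_mem_support _) (key x y p)

end MEE_

open MEE_ in
theorem mee_proof : Stmt_MEE := by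
  classical
  intro V H A B k L e hA hB hL hsep
  have heB : ∀ i, e i ∈ L i ∧ e i ∈ B := by
    intro i
    have : e i ∈ L i ∩ B := by rw [hL.b i]; rfl
    exact this
  have heinj : Function.Injective e := by
    intro i j hij
    by_contra hne
    exact Set.disjoint_left.1 (hL.dis i j hne) (heB i).1 (hij ▸ (heB j).1)
  -- a separator of `A` and the old ends with the smallest number of reached points of `B`
  let F : ℕ → Prop := fun n => ∃ S : Set V, S.Finite ∧ S.ncard ≤ k ∧
    (∀ i, ¬ Cl H A B S (e i)) ∧ {v | v ∈ B ∧ Cl H A B S v}.ncard = n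
  have hF : ∃ n, F n := by
    refine ⟨_, Set.range e, Set.finite_range e, ?_, ?_, rfl⟩
    · rw [← Set.image_univ, Set.ncard_image_of_injective _ heinj, Set.ncard_univ,
        Nat.card_eq_fintype_card, Fintype.card_fin]
    · intro i h
      exact h.nmem ⟨i, rfl⟩
  obtain ⟨S, hS, hSk, hSe, hSn⟩ := Nat.find_spec hF
  have hmin : ∀ S' : Set V, S'.Finite → S'.ncard ≤ k → (∀ i, ¬ Cl H A B S' (e i)) →
      Nat.find hF ≤ {v | v ∈ B ∧ Cl H A B S' v}.ncard := fun S' h1 h2 h3 =>
    Nat.find_min' hF ⟨S', h1, h2, h3, rfl⟩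
  have hfinB : ∀ S' : Set V, {v | v ∈ B ∧ Cl H A B S' v}.Finite := fun S' =>
    hB.subset (fun v hv => hv.1)
  -- some point of `B` is reached
  have hy : ∃ y, y ∈ B ∧ Cl H A B S y := by
    by_contra hcon
    push Not at hcon
    obtain ⟨x, hx, y, hyB, hxy⟩ := hsep S hS hSk
    have key := hxy.closed {v | Cl H A B S v} (Cl.base x hx hxy.left) (by
      intro u hu v hv huv
      exact Cl.step u v hu (fun h => hcon u h hu) huv hv)
    exact hcon y hyB key
  obtain ⟨y, hyB, hyC⟩ := hy
  have hye : ∀ i, e i ≠ y := fun i h => hSe i (h ▸ hyC)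
  -- the new set of ends
  let e' : Fin (k + 1) → V := Fin.snoc e y
  have he'c : ∀ i : Fin k, e' i.castSucc = e i := fun i => Fin.snoc_castSucc (α := fun _ => V) ..
  have he'l : e' (Fin.last k) = y := Fin.snoc_last (α := fun _ => V) ..
  have he'inj : Function.Injective e' := by
    intro i j
    refine Fin.lastCases ?_ (fun i => ?_) i
    · refine Fin.lastCases ?_ (fun j => ?_) j
      · intro _
        rfl
      · intro h
        rw [he'c, he'l] at h
        exact absurd h.symm (hye j)
    · refine Fin.lastCases ?_ (fun j => ?_) j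
      · intro h
        rw [he'c, he'l] at h
        exact absurd h (hye i)
      · intro h
        rw [he'c, he'c] at h
        rw [heinj h]
  have hTB : ∀ i, e' i ∈ B := by
    intro i
    refine Fin.lastCases ?_ (fun i => ?_) i
    · rw [he'l]
      exact hyB
    · rw [he'c]
      exact (heB i).2
  have hTcard : (Set.range e').ncard = k + 1 := by
    rw [← Set.image_univ, Set.ncard_image_of_injective _ he'inj, Set.ncard_univ,
      Nat.card_eq_fintype_card, Fintype.card_fin]
  have hTfin : (Set.range e').Finite := Set.finite_range e'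
  by_cases hM : ∀ S' : Set V, S'.Finite → S'.ncard < k + 1 →
      ∃ x ∈ A \ (B \ Set.range e'), ∃ z ∈ Set.range e',
        ∃ p : (rst H (B \ Set.range e')ᶜ).Walk x z, ∀ v ∈ p.support, v ∉ S'
  · obtain ⟨a, b, p, hp, hdis⟩ := men_proof V (rst H (B \ Set.range e')ᶜ)
      (A \ (B \ Set.range e')) (Set.range e') (k + 1) (hA.subset (fun _ h => h.1)) hTfin hM
    have hbinj : Function.Injective b := by
      intro i j hij
      by_contra hne
      exact hdis i j hne (b i) (p i).end_mem_support (by rw [hij]; exact (p j).end_mem_support)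
    have hbr : Set.range b = Set.range e' := by
      refine Set.eq_of_subset_of_ncard_le ?_ ?_ hTfin
      · rintro x ⟨i, rfl⟩
        exact (hp i).2.2
      · rw [hTcard, ← Set.image_univ, Set.ncard_image_of_injective _ hbinj, Set.ncard_univ,
          Nat.card_eq_fintype_card, Fintype.card_fin]
    have hσ : ∀ i, ∃ j, b j = e' i := by
      intro i
      have : e' i ∈ Set.range b := by rw [hbr]; exact ⟨i, rfl⟩
      exact this
    choose σ hσ using hσ
    have hσinj : ∀ i j, i ≠ j → σ i ≠ σ j := by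
      intro i j hij h
      apply hij
      apply he'inj
      rw [← hσ i, ← hσ j, h]
    refine ⟨fun i => {z | z ∈ (p (σ i)).support}, e', ⟨?_, ?_, ?_, ?_, ?_⟩, he'c⟩
    · intro i
      exact supp_cn _
    · intro i
      exact List.finite_toSet _
    · intro i j hij
      rw [Set.disjoint_left]
      intro z hz hz'
      exact hdis _ _ (hσinj i j hij) z hz hz'
    · intro i
      exact ⟨a (σ i), (p (σ i)).start_mem_support, (hp (σ i)).2.1.1⟩
    · intro i
      ext z
      constructor
      · rintro ⟨hz, hzB⟩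
        have hz1 : z ∈ (B \ Set.range e')ᶜ :=
          rst_supp (p (σ i)) (hp (σ i)).2.1.2 z hz
        have hz2 : z ∈ Set.range e' := by
          by_contra h
          exact hz1 ⟨hzB, h⟩
        rw [← hbr] at hz2
        obtain ⟨j, rfl⟩ := hz2
        by_contra hne
        have hji : j ≠ σ i := by
          rintro rfl
          exact hne (hσ i)
        exact hdis j (σ i) hji (b j) (p j).end_mem_support hz
      · rintro rfl
        refine ⟨?_, hTB i⟩
        have h1 : ∀ z, z = b (σ i) → z ∈ (p (σ i)).support := by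
          intro z h
          rw [h]
          exact (p (σ i)).end_mem_support
        exact h1 _ (hσ i).symm
  · exfalso
    push Not at hM
    obtain ⟨S', hS', hS'k, hS's⟩ := hM
    have hno : ∀ i, ¬ Cl H A B S' (e' i) := by
      intro i h
      obtain ⟨x, hx, p, hp⟩ := cl_walk (T := Set.range e') h (fun h => h.2 ⟨i, rfl⟩)
      obtain ⟨v, hv, hvS⟩ := hS's x hx (e' i) ⟨i, rfl⟩ p
      exact hp v hv hvS
    have hno' : ∀ i, ¬ Cl H A B S' (e i) := by
      intro i
      rw [← he'c i]
      exact hno _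
    have hnoy : ¬ Cl H A B S' y := by
      rw [← he'l]
      exact hno _
    obtain ⟨hmf, hmc⟩ := mt_card (H := H) (A := A) (B := B) hS hS'
    have hj := jn_card hL hS hS' hSe hno'
    have hm := hmin (mt H A B S S') hmf (by omega) (fun i h => hSe i (cl_mt h).1)
    rw [← hSn] at hm
    have hlt : {v | v ∈ B ∧ Cl H A B (mt H A B S S') v}.ncard <
        {v | v ∈ B ∧ Cl H A B S v}.ncard := by
      refine Set.ncard_lt_ncard ?_ (hfinB S)
      refine ⟨fun v hv => ⟨hv.1, (cl_mt hv.2).1⟩, fun h => ?_⟩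
      exact hnoy (cl_mt (h ⟨hyB, hyC⟩).2).2
    omega

end Pool.Agent.PT2
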