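import Pool.Agent.PT2.Stmts

set_option autoImplicit false

namespace Pool.Agent.PT2

open Pool.Agent.ACC Pool.Agent.KUR

namespace OFT_

variable {V : Type} {P : SimpleGraph V} {μ : ℕ} {W : ℕ → Set V} {s : ℕ → Fin μ → V}
  {T : ℕ → Fin μ → Set V}

theorem anti' (h : Strip P μ W s T) {j k : ℕ} (hjk : j ≤ k) : W k ⊆ W j := by
  induction hjk with
  | refl => exact subset_rfl
  | step _ ih => exact (h.anti _).trans ih

/-- a point in block `j` is in no other block -/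
theorem block_unique (h : Strip P μ W s T) {j k : ℕ} {x : V} (h1 : x ∈ W j) (h2 : x ∉ W (j + 1))
    (h3 : x ∈ W k) (h4 : x ∉ W (k + 1)) : j = k := by
  rcases lt_trichotomy j k with hlt | heq | hgt
  · exact absurd (anti' h (Nat.succ_le_of_lt hlt) h3) h2
  · exact heq
  · exact absurd (anti' h (Nat.succ_le_of_lt hgt) h1) h4

/-- the block of a point on a track -/
theorem block_of (h : Strip P μ W s T) {j : ℕ} {i : Fin μ} {x : V} (hx : x ∈ T j i) :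
    ∃ b, (b = j ∨ (b = j + 1 ∧ x = s b i)) ∧ x ∈ W b ∧ x ∉ W (b + 1) ∧ x ∈ T b i := by
  rcases h.sub j i x hx with rfl | ⟨h1, h2⟩
  · exact ⟨j + 1, Or.inr ⟨rfl, rfl⟩, (h.sW _ _).1, (h.sW _ _).2, h.lo _ _⟩
  · exact ⟨j, Or.inl rfl, h1, h2, hx⟩

theorem track_unique (h : Strip P μ W s T) {j : ℕ} {i i' : Fin μ} {x : V} (hx : x ∈ T j i)
    (hx' : x ∈ T j i') : i = i' := by
  by_contra hne
  exact (Set.disjoint_left.mp (h.dis j i i' hne)) hx hx'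

theorem four (h : Strip P μ W s T) {j : ℕ} {i : Fin μ} {j' : ℕ} {i' : Fin μ} {x : V}
    (hx : x ∈ T j i) (hx' : x ∈ T j' i') : i = i' ∧ (j = j' ∨
    (j' = j + 1 ∧ x = s j' i) ∨ (j = j' + 1 ∧ x = s j i)) := by
  obtain ⟨b, hb, hb1, hb2, hb3⟩ := block_of h hx
  obtain ⟨b', hb', hb1', hb2', hb3'⟩ := block_of h hx'
  have hbb : b = b' := block_unique h hb1 hb2 hb1' hb2'
  subst hbb
  have hii : i = i' := track_unique h hb3 hb3'
  subst hii
  refine ⟨rfl, ?_⟩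
  rcases hb with rfl | ⟨rfl, hx1⟩
  · rcases hb' with rfl | ⟨h1, h2⟩
    · exact Or.inl rfl
    · exact Or.inr (Or.inr ⟨h1, h2⟩)
  · rcases hb' with h1 | ⟨h1, h2⟩
    · refine Or.inr (Or.inl ⟨h1.symm, ?_⟩)
      rw [← h1]; exact hx1
    · left
      omega

theorem six (h : Strip P μ W s T) {j j' : ℕ} {i : Fin μ} {x : V} (hx : x ∈ Off W T j) :
    x ∉ T j' i := by
  intro hx'
  obtain ⟨b, hb, hb1, hb2, hb3⟩ := block_of h hx'
  have : j = b := block_unique h hx.1 hx.2.1 hb1 hb2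
  subst this
  exact hx.2.2 i hb3

theorem one (h : Strip P μ W s T) {j : ℕ} {x y : V} (hx : x ∈ Off W T j) (hxy : P.Adj x y) :
    y ∈ Off W T j ∨ ∃ i, y ∈ T j i := by
  by_cases h1 : y ∈ W j
  · by_cases h2 : y ∈ W (j + 1)
    · obtain ⟨i, rfl⟩ := h.out (j + 1) y x hxy.symm h2 hx.2.1
      exact Or.inr ⟨i, h.hi j i⟩
    · by_cases h3 : ∃ i, y ∈ T j i
      · exact Or.inr h3
      · exact Or.inl ⟨h1, h2, fun i hi => h3 ⟨i, hi⟩⟩
  · obtain ⟨i, rfl⟩ := h.out j x y hxy hx.1 h1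
    exact absurd (h.lo j i) (hx.2.2 i)

theorem two_aux (h : Strip P μ W s T) {b b' : ℕ} {i i' : Fin μ} {x y : V} (hx : x ∈ T b i)
    (hy : y ∈ T b' i') (_hx1 : x ∈ W b) (hx2 : x ∉ W (b + 1)) (hy1 : y ∈ W b')
    (hy2 : y ∉ W (b' + 1)) (hxy : P.Adj x y) (hlt : b < b') :
    ∃ m, x ∈ T m i ∧ y ∈ T m i' := by
  have h1 : y ∈ W (b + 1) := anti' h hlt hy1
  obtain ⟨i'', rfl⟩ := h.out (b + 1) y x hxy.symm h1 hx2
  have hb' : b + 1 = b' := block_unique h h1 (h.sW _ _).2 hy1 hy2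
  subst hb'
  have : i'' = i' := track_unique h (h.lo (b + 1) i'') hy
  subst this
  exact ⟨b, hx, h.hi b i''⟩

theorem two (h : Strip P μ W s T) {j : ℕ} {i : Fin μ} {j' : ℕ} {i' : Fin μ} {x y : V}
    (hx : x ∈ T j i) (hy : y ∈ T j' i') (hxy : P.Adj x y) : ∃ m, x ∈ T m i ∧ y ∈ T m i' := by
  obtain ⟨b, -, hb1, hb2, hb3⟩ := block_of h hx
  obtain ⟨b', -, hb1', hb2', hb3'⟩ := block_of h hy
  rcases lt_trichotomy b b' with hlt | heq | hgt
  · exact two_aux h hb3 hb3' hb1 hb2 hb1' hb2' hxy hlt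
  · subst heq
    exact ⟨b, hb3, hb3'⟩
  · obtain ⟨m, h1, h2⟩ := two_aux h hb3' hb3 hb1' hb2' hb1 hb2 hxy.symm hgt
    exact ⟨m, h2, h1⟩

end OFT_

theorem oft_proof : Stmt_OFT := by
  intro V P μ W s T h
  refine ⟨?_, ?_, ?_, ?_, ?_, ?_⟩
  · intro j x y hx hxy
    exact OFT_.one h hx hxy
  · intro j i j' i' x y hx hy _ hxy
    exact OFT_.two h hx hy hxy
  · intro j x h1 h2
    by_cases h3 : ∃ i, x ∈ T j i
    · exact Or.inr h3
    · exact Or.inl ⟨h1, h2, fun i hi => h3 ⟨i, hi⟩⟩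
  · intro j i j' i' x hx hx'
    exact OFT_.four h hx hx'
  · intro j j' x hx hx'
    exact OFT_.block_unique h hx.1 hx.2.1 hx'.1 hx'.2.1
  · intro j j' i x hx
    exact OFT_.six h hx

end Pool.Agent.PT2
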