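import Pool.Agent.PT2.Stmts

set_option autoImplicit false

namespace Pool.Agent.PT2

open Pool.Agent.ACC Pool.Agent.KUR

namespace RCO_

variable {V : Type} {P : SimpleGraph V} {μ : ℕ} {W : ℕ → Set V} {s : ℕ → Fin μ → V}
  {T : ℕ → Fin μ → Set V}

theorem anti (h : Strip P μ W s T) {j l : ℕ} (hjl : j ≤ l) : W l ⊆ W j :=
  antitone_nat_of_succ_le (f := W) h.anti hjl

theorem subW {t : ℕ} (h : Strip P μ W s T) {j j' : ℕ} {p p' : Fin t → Fin μ}
    {C : Fin t → Set V} (hR : Real P W s j p j' p' C) {a : Fin t} {x : V} (hx : x ∈ C a) :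
    x ∈ W j := by
  rcases hR.sub a x hx with rfl | hx
  · exact anti h hR.lt.le (h.sW _ _).1
  · exact hx.1

end RCO_

theorem rco_proof (_h1 : Stmt_OFT) : Stmt_RCO := by
  intro V P μ t W s T j j' j'' p p' p'' C C' h hC hC'
  have hx : ∀ a b x, a ≠ b → x ∈ C a → x ∈ C' b → False := by
    intro a b x hab hxa hxb
    have hW := RCO_.subW h hC' hxb
    rcases hC.sub a x hxa with rfl | hx
    · have h1 := hC'.slo b _ hxb
      have h2 := hC.hi b
      rw [← h1] at h2
      exact Set.disjoint_left.mp (hC.dis a b hab) hxa h2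
    · exact hx.2 hW
  refine ⟨hC.lt.trans hC'.lt, ?_, ?_, ?_, ?_, ?_, ?_⟩
  · intro a
    exact (hC.cn a).union (hC'.cn a) ⟨_, hC.hi a, _, hC'.lo a, Or.inr rfl⟩
  · intro a b hab
    rw [Set.disjoint_left]
    rintro x (hxa | hxa) (hxb | hxb)
    · exact Set.disjoint_left.mp (hC.dis a b hab) hxa hxb
    · exact hx a b x hab hxa hxb
    · exact hx b a x hab.symm hxb hxa
    · exact Set.disjoint_left.mp (hC'.dis a b hab) hxa hxb
  · intro a
    exact Or.inl (hC.lo a)
  · intro a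
    exact Or.inr (hC'.hi a)
  · rintro a x (hxa | hxa)
    · right
      rcases hC.sub a x hxa with rfl | hx
      · exact ⟨RCO_.anti h hC.lt.le (h.sW _ _).1, fun hc =>
          (h.sW _ _).2 (RCO_.anti h hC'.lt hc)⟩
      · exact ⟨hx.1, fun hc => hx.2 (RCO_.anti h hC'.lt.le hc)⟩
    · rcases hC'.sub a x hxa with rfl | hx
      · exact Or.inl rfl
      · exact Or.inr ⟨RCO_.anti h hC.lt.le hx.1, hx.2⟩
  · rintro a i (hxa | hxa)
    · exact hC.slo a i hxa
    · exact absurd (RCO_.anti h hC.lt (RCO_.subW h hC' hxa)) (h.sW _ _).2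

end Pool.Agent.PT2
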