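import Pool.Agent.PT2.Stmts

/-!
Squad PTC, module REG: regrouping the blocks of a strip.
-/

set_option autoImplicit false

namespace Pool.Agent.PT2

open Pool.Agent.ACC Pool.Agent.KUR

theorem reg_proof (hSBS : Stmt_SBS) : Stmt_REG := by
  intro V P S A μ W s T hst hWS hWA
  classical
  obtain ⟨J, hJ⟩ : ∃ J : ℕ, ∀ i i' : Fin μ, i ≠ i' → ¬ CI P W T i i' → ∀ j, J ≤ j →
      ¬ Cnn P W T j i i' := by
    have h1 : ∀ p : Fin μ × Fin μ, ∃ J : ℕ, p.1 ≠ p.2 → ¬ CI P W T p.1 p.2 → ∀ j, J ≤ j →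
        ¬ Cnn P W T j p.1 p.2 := by
      intro p
      by_cases h : p.1 ≠ p.2 ∧ ¬ CI P W T p.1 p.2
      · obtain ⟨h2, h3⟩ := h
        have h4 : ¬ ∀ j0, ∃ j, j0 ≤ j ∧ Cnn P W T j p.1 p.2 := fun h4 => h3 ⟨h2, h4⟩
        push Not at h4
        obtain ⟨J, hJ⟩ := h4
        exact ⟨J, fun _ _ => hJ⟩
      · exact ⟨0, fun h2 h3 => absurd ⟨h2, h3⟩ h⟩
    choose f hf using h1
    refine ⟨Finset.univ.sup f, fun i i' h2 h3 j hj => hf (i, i') h2 h3 j ?_⟩
    exact le_trans (Finset.le_sup (Finset.mem_univ (i, i'))) hj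
  have hstep : ∀ j : ℕ, ∃ m, j < m ∧ ∀ i i' : Fin μ, CI P W T i i' →
      ∃ l, j ≤ l ∧ l < m ∧ Cnn P W T l i i' := by
    intro j
    have h1 : ∀ p : Fin μ × Fin μ, ∃ l : ℕ, CI P W T p.1 p.2 → j ≤ l ∧ Cnn P W T l p.1 p.2 := by
      intro p
      by_cases h : CI P W T p.1 p.2
      · obtain ⟨l, hl1, hl2⟩ := h.2 j
        exact ⟨l, fun _ => ⟨hl1, hl2⟩⟩
      · exact ⟨0, fun h' => absurd h' h⟩
    choose f hf using h1
    refine ⟨max j (Finset.univ.sup f) + 1, by omega, fun i i' h => ?_⟩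
    obtain ⟨h2, h3⟩ := hf (i, i') h
    refine ⟨f (i, i'), h2, ?_, h3⟩
    have : f (i, i') ≤ Finset.univ.sup f := Finset.le_sup (Finset.mem_univ (i, i'))
    omega
  choose g hg1 hg2 using hstep
  have hsucc : ∀ k, g^[k + 1] J = g (g^[k] J) := fun k => Function.iterate_succ_apply' g k J
  have hmono : StrictMono (fun k => g^[k] J) := by
    refine strictMono_nat_of_lt_succ (fun k => ?_)
    show g^[k] J < g^[k + 1] J
    rw [hsucc]
    exact hg1 _
  have hJn : ∀ k, J ≤ g^[k] J := fun k => hmono.monotone (Nat.zero_le k)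
  obtain ⟨h1, h2⟩ := hSBS V P μ W s T (fun k => g^[k] J) hst hmono
  have hanti : Antitone W := antitone_nat_of_succ_le hst.anti
  refine ⟨_, _, _, h1, fun j => hWS _, ?_, ?_⟩
  · intro k
    obtain ⟨j, hj⟩ := hWA k
    exact ⟨j, (hanti (hmono.le_apply)).trans hj⟩
  · intro i i' hne j
    rw [h2 j i i' hne]
    constructor
    · rintro ⟨l, hl1, hl2, hc⟩
      by_contra hci
      exact hJ i i' hne hci l (le_trans (hJn j) hl1) hc
    · intro hci
      obtain ⟨l, hl1, hl2, hc⟩ := hg2 (g^[j] J) i i' hci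
      refine ⟨l, hl1, ?_, hc⟩
      show l < g^[j + 1] J
      rw [hsucc]
      exact hl2

end Pool.Agent.PT2
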