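import Pool.Agent.PT2.Stmts

/-! MP_851278_al (S02151), module RID: the idle step. -/

set_option autoImplicit false

namespace Pool.Agent.PT2

open Pool.Agent.ACC Pool.Agent.KUR

theorem rid_proof : Stmt_RID := by
  intro V P μ t W s T j p hS hp
  refine ⟨Nat.lt_succ_self j, fun a => hS.cn j _, fun a b hab => hS.dis j _ _ (fun h => hab (hp h)),
    fun a => hS.lo j _, fun a => hS.hi j _, fun a x hx => hS.sub j _ x hx, fun a i hi => ?_⟩
  by_contra hne
  exact Set.disjoint_left.mp (hS.dis j i (p a) hne) (hS.lo j i) hi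

end Pool.Agent.PT2
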