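import Pool.Agent.PT2.Stmts

/-!
MP_851278_al Part II, module RME: two tokens at joined places meet.
-/

set_option autoImplicit false

namespace Pool.Agent.PT2

open Pool.Agent.ACC Pool.Agent.KUR

theorem rme_proof : Stmt_RME := by
  classical
  intro V P μ t W s T j p a b h hp hab hc
  obtain ⟨x, hx, y, hy, hxy⟩ := hc
  have hpab : p a ≠ p b := fun h' => hab (hp h')
  -- the component of `x` in the off-track vertices
  set K : Set V := {z | Rch P (Off W T j ∪ {x}) x z} with hK
  have hxK : x ∈ K := Rch.refl P (Or.inr rfl)
  have hKsub : ∀ z ∈ K, z ∈ Off W T j ∨ z = x := by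
    intro z hz
    rcases Rch.right hz with h1 | h1
    · exact Or.inl h1
    · exact Or.inr h1
  have hKcn : Cn P K := cn_comp (Or.inr rfl)
  have hyK : y ∉ K := by
    intro hyK
    rcases hKsub y hyK with h1 | h1
    · exact h1.2.2 _ hy
    · subst h1
      exact Set.disjoint_left.mp (h.dis j _ _ hpab) hx hy
  obtain ⟨u, v, huK, hvK, -, hvS, huv, -⟩ := hxy.exit K hxK hyK
  have hvy : v = y := by
    rcases hvS with h1 | h1 | h1
    · exact absurd (huK.trans (Rch.of_adj (Rch.right huK) (Or.inl h1) huv)) hvK
    · subst h1
      exact absurd hxK hvK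
    · exact h1
  subst hvy
  refine ⟨fun c => if c = a then T j (p a) ∪ K else T j (p c), ⟨Nat.lt_succ_self _, ?_, ?_, ?_, ?_,
    ?_, ?_⟩, u, ?_, v, ?_, huv⟩
  · intro c
    split_ifs with hca
    · exact (h.cn j (p a)).union hKcn ⟨x, hx, x, hxK, Or.inr rfl⟩
    · exact h.cn j (p c)
  · have key : ∀ c, c ≠ a → Disjoint (T j (p a) ∪ K) (T j (p c)) := by
      intro c hca
      have hne : p a ≠ p c := fun h' => hca (hp h').symm
      rw [Set.disjoint_left]
      rintro z (hz | hz) hz'
      · exact Set.disjoint_left.mp (h.dis j _ _ hne) hz hz'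
      · rcases hKsub z hz with h1 | h1
        · exact h1.2.2 _ hz'
        · subst h1
          exact Set.disjoint_left.mp (h.dis j _ _ hne) hx hz'
    intro c d hcd
    split_ifs with hca hda hda
    · exact absurd (hca.trans hda.symm) hcd
    · exact key d hda
    · exact (key c hca).symm
    · exact h.dis j _ _ (fun h' => hcd (hp h'))
  · intro c
    split_ifs with hca
    · subst hca
      exact Or.inl (h.lo j _)
    · exact h.lo j _
  · intro c
    split_ifs with hca
    · subst hca
      exact Or.inl (h.hi j _)
    · exact h.hi j _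
  · intro c z hz
    split_ifs at hz with hca
    · subst hca
      rcases hz with hz | hz
      · exact h.sub j _ z hz
      · rcases hKsub z hz with h1 | h1
        · exact Or.inr ⟨h1.1, h1.2.1⟩
        · subst h1
          exact h.sub j _ z hx
    · exact h.sub j _ z hz
  · intro c i hz
    have key : ∀ c, s j i ∈ T j (p c) → i = p c := by
      intro c hc
      by_contra hne
      exact Set.disjoint_left.mp (h.dis j _ _ hne) (h.lo j i) hc
    split_ifs at hz with hca
    · subst hca
      rcases hz with hz | hz
      · exact key _ hz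
      · rcases hKsub _ hz with h1 | h1
        · exact absurd (h.lo j i) (h1.2.2 i)
        · rw [← h1] at hx
          exact key _ hx
    · exact key _ hz
  · simp only [if_true]
    exact Or.inr huK
  · simp only [if_neg hab.symm]
    exact hy

end Pool.Agent.PT2
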