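import Pool.Agent.PT2.Stmts

/-!
# PTC/RMV: a move of a token
-/

set_option autoImplicit false

namespace Pool.Agent.PT2

open Pool.Agent.ACC Pool.Agent.KUR

namespace RMV_

variable {V : Type} {P : SimpleGraph V} {μ : ℕ} {W : ℕ → Set V} {s : ℕ → Fin μ → V}
  {T : ℕ → Fin μ → Set V}

theorem wanti (h : Strip P μ W s T) {m n : ℕ} (hmn : m ≤ n) : W n ⊆ W m :=
  antitone_nat_of_succ_le h.anti hmn

theorem tsub (h : Strip P μ W s T) {m : ℕ} {k : Fin μ} {x : V} (hx : x ∈ T m k) : x ∈ W m := by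
  rcases h.sub m k x hx with rfl | ⟨h1, -⟩
  · exact wanti h (Nat.le_succ m) (h.sW (m + 1) k).1
  · exact h1

/-- position of the points of a piece -/
theorem tpos (h : Strip P μ W s T) {j m : ℕ} {k : Fin μ} {x : V} (hx : x ∈ T m k) (hj : j ≤ m)
    (hm : m < j + 3) : x = s (j + 3) k ∨ (x ∈ W j ∧ x ∉ W (j + 3)) := by
  rcases h.sub m k x hx with rfl | ⟨h1, h2⟩
  · by_cases h3 : m = j + 2
    · subst h3
      exact Or.inl rfl
    · right
      refine ⟨wanti h (by omega) (h.sW (m + 1) k).1, fun h4 => (h.sW (m + 1) k).2 ?_⟩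
      exact wanti h (by omega) h4
  · right
    exact ⟨wanti h hj h1, fun h4 => h2 (wanti h (by omega) h4)⟩

theorem cup {A B : Set V} (hA : Cn P A) (hB : Cn P B) {x : V} (hx : x ∈ A) (hx' : x ∈ B) :
    Cn P (A ∪ B) :=
  hA.union hB ⟨x, hx, x, hx', Or.inr rfl⟩

theorem cn3 (h : Strip P μ W s T) (j : ℕ) (k : Fin μ) :
    Cn P (T j k ∪ T (j + 1) k) :=
  cup (h.cn j k) (h.cn (j + 1) k) (h.hi j k) (h.lo (j + 1) k)

end RMV_

open RMV_ in
theorem rmv_proof (h1 : Stmt_OFT) : Stmt_RMV := by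
  intro V P μ t W s T j p a i hS hp hpi hC
  classical
  obtain ⟨-, -, -, o4, -, o6⟩ := h1 V P μ W s T hS
  obtain ⟨x, hx, y, hy, hxy⟩ := hC
  let S0 : Set V := {z | Rch P (Off W T (j + 1) ∪ {x, y}) x z}
  have hxS : x ∈ Off W T (j + 1) ∪ ({x, y} : Set V) := Or.inr (Or.inl rfl)
  have hS0c : Cn P S0 := cn_comp hxS
  have hS0x : x ∈ S0 := Rch.refl P hxS
  have hS0y : y ∈ S0 := hxy
  have hS0 : ∀ z ∈ S0, z ∈ Off W T (j + 1) ∨ z ∈ T (j + 1) (p a) ∨ z ∈ T (j + 1) i := by
    intro z hz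
    rcases Rch.right hz with h | h | h
    · exact Or.inl h
    · rw [h]; exact Or.inr (Or.inl hx)
    · rw [Set.mem_singleton_iff.mp h]; exact Or.inr (Or.inr hy)
  let A : Set V := (T j (p a) ∪ T (j + 1) (p a)) ∪ (S0 ∪ (T (j + 1) i ∪ T (j + 1 + 1) i))
  let Bf : Fin t → Set V := fun b => (T j (p b) ∪ T (j + 1) (p b)) ∪ T (j + 1 + 1) (p b)
  have hAm : ∀ z ∈ A, z ∈ T j (p a) ∨ z ∈ T (j + 1) (p a) ∨ z ∈ Off W T (j + 1) ∨
      z ∈ T (j + 1) i ∨ z ∈ T (j + 2) i := by
    rintro z ((hz | hz) | (hz | (hz | hz)))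
    · exact Or.inl hz
    · exact Or.inr (Or.inl hz)
    · rcases hS0 z hz with h | h | h
      · exact Or.inr (Or.inr (Or.inl h))
      · exact Or.inr (Or.inl h)
      · exact Or.inr (Or.inr (Or.inr (Or.inl h)))
    · exact Or.inr (Or.inr (Or.inr (Or.inl hz)))
    · exact Or.inr (Or.inr (Or.inr (Or.inr hz)))
  have hBm : ∀ b, ∀ z ∈ Bf b, ∃ m, j ≤ m ∧ m < j + 3 ∧ z ∈ T m (p b) := by
    rintro b z ((hz | hz) | hz)
    · exact ⟨j, le_rfl, by omega, hz⟩
    · exact ⟨j + 1, by omega, by omega, hz⟩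
    · exact ⟨j + 1 + 1, by omega, by omega, hz⟩
  have hAB : ∀ b, b ≠ a → Disjoint A (Bf b) := by
    intro b hb
    rw [Set.disjoint_left]
    intro z hzA hzB
    obtain ⟨m, -, -, hm⟩ := hBm b z hzB
    rcases hAm z hzA with h | h | h | h | h
    · exact hb (hp (o4 m (p b) j (p a) z hm h).1)
    · exact hb (hp (o4 m (p b) (j + 1) (p a) z hm h).1)
    · exact o6 (j + 1) m (p b) z h hm
    · exact hpi b (o4 m (p b) (j + 1) i z hm h).1
    · exact hpi b (o4 m (p b) (j + 2) i z hm h).1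
  have hBB : ∀ b c, b ≠ c → Disjoint (Bf b) (Bf c) := by
    intro b c hbc
    rw [Set.disjoint_left]
    intro z hz1 hz2
    obtain ⟨m, -, -, hm⟩ := hBm b z hz1
    obtain ⟨m', -, -, hm'⟩ := hBm c z hz2
    exact hbc (hp (o4 m (p b) m' (p c) z hm hm').1)
  refine ⟨fun b => if b = a then A else Bf b, ⟨by omega, ?_, ?_, ?_, ?_, ?_, ?_⟩⟩
  · intro b
    by_cases hb : b = a
    · simp only [hb, if_true]
      exact cup (cn3 hS j (p a)) (cup hS0c (cn3 hS (j + 1) i) hS0y (Or.inl hy)) (Or.inr hx)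
        (Or.inl hS0x)
    · simp only [hb, if_false]
      exact cup (cn3 hS j (p b)) (hS.cn (j + 1 + 1) (p b)) (Or.inr (hS.hi (j + 1) (p b)))
        (hS.lo (j + 1 + 1) (p b))
  · intro b c hbc
    by_cases hb : b = a
    · have hc : c ≠ a := fun h => hbc (hb.trans h.symm)
      simp only [hb, hc, if_true, if_false]
      exact hAB c hc
    · by_cases hc : c = a
      · simp only [hb, hc, if_true, if_false]
        exact (hAB b hb).symm
      · simp only [hb, hc, if_false]
        exact hBB b c hbc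
  · intro b
    by_cases hb : b = a
    · simp only [hb, if_true]
      exact Or.inl (Or.inl (hS.lo j (p a)))
    · simp only [hb, if_false]
      exact Or.inl (Or.inl (hS.lo j (p b)))
  · intro b
    by_cases hb : b = a
    · simp only [hb, if_true, Function.update_self]
      exact Or.inr (Or.inr (Or.inr (hS.hi (j + 2) i)))
    · simp only [hb, if_false, Function.update_of_ne hb]
      exact Or.inr (hS.hi (j + 2) (p b))
  · intro b z hz
    by_cases hb : b = a
    · simp only [hb, if_true, Function.update_self] at hz ⊢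
      have hlow : ∀ m k, z ∈ T m k → j ≤ m → m < j + 2 → z ∈ W j ∧ z ∉ W (j + 3) := by
        intro m k hmk hm1 hm2
        rcases hS.sub m k z hmk with h | ⟨h3, h4⟩
        · rw [h]
          refine ⟨wanti hS (by omega) (hS.sW (m + 1) k).1, fun h5 => (hS.sW (m + 1) k).2 ?_⟩
          exact wanti hS (by omega) h5
        · exact ⟨wanti hS hm1 h3, fun h5 => h4 (wanti hS (by omega) h5)⟩
      rcases hAm z hz with h | h | h | h | h
      · exact Or.inr (hlow j (p a) h le_rfl (by omega))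
      · exact Or.inr (hlow (j + 1) (p a) h (by omega) (by omega))
      · exact Or.inr ⟨wanti hS (by omega) h.1, fun h5 => h.2.1 (wanti hS (by omega) h5)⟩
      · exact Or.inr (hlow (j + 1) i h (by omega) (by omega))
      · exact tpos hS h (by omega) (by omega)
    · simp only [hb, if_false, Function.update_of_ne hb] at hz ⊢
      obtain ⟨m, hm1, hm2, hm⟩ := hBm b z hz
      exact tpos hS hm hm1 hm2
  · intro b i' hz
    by_cases hb : b = a
    · simp only [hb, if_true] at hz
      rw [hb]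
      have hnW : s j i' ∉ W (j + 1) := (hS.sW j i').2
      rcases hAm _ hz with h | h | h | h | h
      · exact (o4 j i' j (p a) _ (hS.lo j i') h).1
      · exact absurd (tsub hS h) hnW
      · exact absurd h.1 hnW
      · exact absurd (tsub hS h) hnW
      · exact absurd (wanti hS (by omega) (tsub hS h)) hnW
    · simp only [hb, if_false] at hz
      obtain ⟨m, -, -, hm⟩ := hBm b _ hz
      exact (o4 j i' m (p b) _ (hS.lo j i') hm).1

end Pool.Agent.PT2
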