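import Pool.Agent.PT2.Stmts

/-!
Module RRT: sequences of moves are realised.
-/

set_option autoImplicit false

namespace Pool.Agent.PT2

open Pool.Agent.ACC Pool.Agent.KUR

namespace RRT_

theorem inj_update {μ t : ℕ} (p : Fin t → Fin μ) (a : Fin t) (i : Fin μ)
    (hp : Function.Injective p) (hi : ∀ b, p b ≠ i) :
    Function.Injective (Function.update p a i) := by
  intro x y hxy
  by_cases hx : x = a
  · by_cases hy : y = a
    · rw [hx, hy]
    · rw [hx, Function.update_self, Function.update_of_ne hy] at hxy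
      exact absurd hxy.symm (hi y)
  · by_cases hy : y = a
    · rw [hy, Function.update_self, Function.update_of_ne hx] at hxy
      exact absurd hxy (hi x)
    · rw [Function.update_of_ne hx, Function.update_of_ne hy] at hxy
      exact hp hxy

theorem inj_bmv {μ t : ℕ} {adj : Fin μ → Fin μ → Prop}
    {sw : Set (Fin μ) → Fin μ → Fin μ → Prop} {p q : Fin t → Fin μ} (h : BMv adj sw p q) :
    Function.Injective q := by
  cases h with
  | move a i hp _ hi => exact inj_update p a i hp hi
  | swap a b Fs hp _ _ _ => exact hp.comp (Equiv.injective _)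

theorem inj_rtg {μ t : ℕ} {adj : Fin μ → Fin μ → Prop}
    {sw : Set (Fin μ) → Fin μ → Fin μ → Prop} {p q : Fin t → Fin μ}
    (hp : Function.Injective p) (h : Relation.ReflTransGen (BMv adj sw) p q) :
    Function.Injective q := by
  cases h with
  | refl => exact hp
  | tail _ h2 => exact inj_bmv h2

end RRT_

open RRT_ in
theorem rrt_proof (h1 : Stmt_RCO) (h2 : Stmt_RID) (h3 : Stmt_RMV) (h4 : Stmt_RSW) :
    Stmt_RRT := by
  intro V P μ t W s T adj sw hS hadj hsw p p' hp h
  -- idle steps
  have idle : ∀ (q : Fin t → Fin μ), Function.Injective q → ∀ j n : ℕ,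
      ∃ C, Real P W s j q (j + n + 1) q C := by
    intro q hq j n
    induction n with
    | zero => exact ⟨_, h2 V P μ t W s T j q hS hq⟩
    | succ n ih =>
      obtain ⟨C, hC⟩ := ih
      exact ⟨_, h1 V P μ t W s T j (j + n + 1) (j + n + 1 + 1) q q q C _ hS hC
        (h2 V P μ t W s T (j + n + 1) q hS hq)⟩
  induction h with
  | refl => exact fun j => ⟨j + 1, _, h2 V P μ t W s T j p hS hp⟩
  | @tail q r hpq hqr ih =>
    intro j
    obtain ⟨j1, C, hC⟩ := ih j
    have hq : Function.Injective q := inj_rtg hp hpq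
    -- the last step from any slice
    have step : ∃ j2 C2, Real P W s j1 q j2 r C2 := by
      cases hqr with
      | move a i _ ha hi =>
        obtain ⟨C2, hC2⟩ := h3 V P μ t W s T j1 q a i hS hq hi ((hadj _ _ ha).2 (j1 + 1))
        exact ⟨_, C2, hC2⟩
      | swap a b Fs _ hab hs hF =>
        obtain ⟨j0, j3, hj0, hSw⟩ := hsw Fs (q a) (q b) hs (j1 + 1)
        obtain ⟨m, rfl⟩ : ∃ m, j0 = m + 1 := ⟨j0 - 1, by omega⟩
        obtain ⟨C2, hC2⟩ := h4 V P μ t W s T m j3 q a b Fs hS hq hab hF hSw
        rcases Nat.eq_or_lt_of_le (show j1 ≤ m by omega) with hm | hm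
        · subst hm
          exact ⟨_, C2, hC2⟩
        · obtain ⟨C3, hC3⟩ := idle q hq j1 (m - j1 - 1)
          have hm2 : j1 + (m - j1 - 1) + 1 = m := by omega
          rw [hm2] at hC3
          exact ⟨_, _, h1 V P μ t W s T j1 m (j3 + 1) q q _ C3 C2 hS hC3 hC2⟩
    obtain ⟨j2, C2, hC2⟩ := step
    exact ⟨j2, _, h1 V P μ t W s T j j1 j2 p q r C C2 hS hC hC2⟩

end Pool.Agent.PT2
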