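import Pool.Agent.PT2.Stmts

/-!
MP_851278_al, squad PTC, module RSW: a swap of two tokens is realised.
-/

set_option autoImplicit false

namespace Pool.Agent.PT2

open Pool.Agent.ACC Pool.Agent.KUR

namespace RSW_

variable {V : Type} {P : SimpleGraph V} {μ : ℕ} {W : ℕ → Set V} {s : ℕ → Fin μ → V}
  {T : ℕ → Fin μ → Set V}

theorem anti' (h : Strip P μ W s T) {m n : ℕ} (hmn : m ≤ n) : W n ⊆ W m := by
  induction n, hmn using Nat.le_induction with
  | base => exact subset_rfl
  | succ n _ ih => exact (h.anti n).trans ih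

theorem subW (h : Strip P μ W s T) {j : ℕ} {i : Fin μ} {x : V} (hx : x ∈ T j i) : x ∈ W j := by
  rcases h.sub j i x hx with rfl | ⟨h1, -⟩
  · exact h.anti j (h.sW (j + 1) i).1
  · exact h1

theorem subN (h : Strip P μ W s T) {j : ℕ} {i : Fin μ} {x : V} (hx : x ∈ T j i) :
    x ∉ W (j + 2) := by
  rcases h.sub j i x hx with rfl | ⟨-, h1⟩
  · exact (h.sW (j + 1) i).2
  · exact fun hc => h1 (h.anti (j + 1) hc)

theorem track_eq (h : Strip P μ W s T) {j : ℕ} {i i' : Fin μ} {x : V} (hx : x ∈ T j i)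
    (hx' : x ∈ T j i') : i = i' := by
  by_contra hne
  exact (Set.disjoint_left.1 (h.dis j i i' hne)) hx hx'

/-- consecutive pieces of a track -/
def seg (T : ℕ → Fin μ → Set V) (i : Fin μ) (m n : ℕ) : Set V :=
  {x | ∃ l, m ≤ l ∧ l ≤ n ∧ x ∈ T l i}

theorem seg_cn (h : Strip P μ W s T) (i : Fin μ) (m n : ℕ) (hmn : m ≤ n) :
    Cn P (seg T i m n) := by
  induction n, hmn using Nat.le_induction with
  | base =>
    have : seg T i m m = T m i := by
      ext x
      constructor
      · rintro ⟨l, h1, h2, h3⟩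
        have : l = m := by omega
        rw [← this]
        exact h3
      · intro hx
        exact ⟨m, le_rfl, le_rfl, hx⟩
    rw [this]
    exact h.cn m i
  | succ n hn ih =>
    have : seg T i m (n + 1) = seg T i m n ∪ T (n + 1) i := by
      ext x
      constructor
      · rintro ⟨l, h1, h2, h3⟩
        rcases Nat.lt_or_ge n l with h4 | h4
        · have : l = n + 1 := by omega
          rw [← this]
          exact Or.inr h3
        · exact Or.inl ⟨l, h1, h4, h3⟩
      · rintro (⟨l, h1, h2, h3⟩ | hx)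
        · exact ⟨l, h1, by omega, h3⟩
        · exact ⟨n + 1, by omega, le_rfl, hx⟩
    rw [this]
    exact ih.union (h.cn (n + 1) i) ⟨s (n + 1) i, ⟨n, hn, le_rfl, h.hi n i⟩, s (n + 1) i,
      h.lo (n + 1) i, Or.inr rfl⟩

/-- the general construction -/
theorem real_of {t : ℕ} (h : Strip P μ W s T) {j0 j1 : ℕ} (hj : j0 + 1 < j1)
    {p p' : Fin t → Fin μ} (hp : Function.Injective p) (hp' : Function.Injective p')
    (M : Fin t → Set V) (M1 : ∀ c, Cn P (M c)) (M2 : ∀ c, s (j0 + 1) (p c) ∈ M c)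
    (M2' : ∀ c, s j1 (p' c) ∈ M c) (M3 : ∀ c d, c ≠ d → Disjoint (M c) (M d))
    (M4 : ∀ c x, x ∈ M c → x ∈ W (j0 + 1) ∧ (x ∉ W j1 ∨ ∃ i, x = s j1 i)) :
    Real P W s j0 p (j1 + 1) p' (fun c => T j0 (p c) ∪ M c ∪ T j1 (p' c)) := by
  -- a point of a middle set on the first or the last piece of a track
  have hA : ∀ c d x, x ∈ T j0 (p c) → x ∈ M d → x ∈ M c := by
    intro c d x hx hx'
    rcases h.sub j0 (p c) x hx with rfl | ⟨-, h1⟩
    · exact M2 c
    · exact absurd (M4 d x hx').1 h1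
  have hB : ∀ c d x, x ∈ M d → x ∈ T j1 (p' c) → x ∈ M c := by
    intro c d x hx hx'
    rcases (M4 d x hx).2 with h1 | ⟨i, rfl⟩
    · exact absurd (subW h hx') h1
    · rw [track_eq h (h.lo j1 i) hx']
      exact M2' c
  have hC : ∀ c d x, x ∈ T j0 (p c) → x ∉ T j1 (p' d) := by
    intro c d x hx hx'
    exact subN h hx (anti' h hj (subW h hx'))
  refine ⟨by omega, ?_, ?_, ?_, ?_, ?_, ?_⟩
  · intro c
    refine ((h.cn j0 (p c)).union (M1 c) ?_).union (h.cn j1 (p' c)) ?_
    · exact ⟨s (j0 + 1) (p c), h.hi j0 (p c), s (j0 + 1) (p c), M2 c, Or.inr rfl⟩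
    · exact ⟨s j1 (p' c), Or.inr (M2' c), s j1 (p' c), h.lo j1 (p' c), Or.inr rfl⟩
  · intro c d hcd
    rw [Set.disjoint_left]
    rintro x ((hx | hx) | hx) ((hy | hy) | hy)
    · exact hcd (hp (track_eq h hx hy))
    · exact (Set.disjoint_left.1 (M3 c d hcd)) (hA c d x hx hy) hy
    · exact hC c d x hx hy
    · exact (Set.disjoint_left.1 (M3 c d hcd)) hx (hA d c x hy hx)
    · exact (Set.disjoint_left.1 (M3 c d hcd)) hx hy
    · exact (Set.disjoint_left.1 (M3 c d hcd)) hx (hB d c x hx hy)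
    · exact hC d c x hy hx
    · exact (Set.disjoint_left.1 (M3 c d hcd)) (hB c d x hy hx) hy
    · exact hcd (hp' (track_eq h hx hy))
  · intro c
    exact Or.inl (Or.inl (h.lo j0 (p c)))
  · intro c
    exact Or.inr (h.hi j1 (p' c))
  · rintro c x ((hx | hx) | hx)
    · exact Or.inr ⟨subW h hx, fun hc => subN h hx (anti' h (by omega) hc)⟩
    · refine Or.inr ⟨h.anti j0 (M4 c x hx).1, ?_⟩
      rcases (M4 c x hx).2 with h1 | ⟨i, rfl⟩
      · exact fun hc => h1 (h.anti j1 hc)
      · exact (h.sW j1 i).2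
    · rcases h.sub j1 (p' c) x hx with h1 | ⟨h1, h2⟩
      · exact Or.inl h1
      · exact Or.inr ⟨anti' h (by omega) h1, h2⟩
  · rintro c i ((hx | hx) | hx)
    · exact track_eq h (h.lo j0 i) hx
    · exact absurd (M4 c _ hx).1 (h.sW j0 i).2
    · exact absurd (anti' h (show j0 + 1 ≤ j1 by omega) (subW h hx)) (h.sW j0 i).2

end RSW_

open RSW_ in
theorem rsw_proof (hOFT : Stmt_OFT) : Stmt_RSW := by
  intro V P μ t W s T j0 j1 p a b Fs h hp hab hF hS
  obtain ⟨hj, K0, K1, hK0, hK1, hK, ha0, hb0, hb1, ha1, hsub, hav⟩ := hS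
  obtain ⟨-, -, -, hO4, -, -⟩ := hOFT V P μ W s T h
  have hp' : Function.Injective (p ∘ (Equiv.swap a b : Equiv.Perm (Fin t))) :=
    hp.comp (Equiv.injective _)
  -- the middle sets
  obtain ⟨M, hMa, hMb, hMc⟩ : ∃ M : Fin t → Set V, M a = K0 ∧ M b = K1 ∧
      ∀ c, c ≠ a → c ≠ b → M c = seg T (p c) (j0 + 1) (j1 - 1) := by
    refine ⟨fun c => if c = a then K0 else if c = b then K1 else
      seg T (p c) (j0 + 1) (j1 - 1), ?_, ?_, ?_⟩
    · simp
    · simp [hab.symm]
    · intro c h1 h2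
      simp [h1, h2]
  have hsegK : ∀ c, c ≠ a → c ≠ b → ∀ x, x ∈ K0 ∪ K1 → x ∉ M c := by
    intro c h1 h2 x hx hx'
    rw [hMc c h1 h2] at hx'
    obtain ⟨l, h3, h4, h5⟩ := hx'
    exact hav x hx l h3 (by omega) (p c) (hF c h1 h2) h5
  refine ⟨_, real_of h hj hp hp' M ?_ ?_ ?_ ?_ ?_⟩
  · intro c
    by_cases h1 : c = a
    · rw [h1, hMa]
      exact hK0
    · by_cases h2 : c = b
      · rw [h2, hMb]
        exact hK1
      · rw [hMc c h1 h2]
        exact seg_cn h (p c) _ _ (by omega)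
  · intro c
    by_cases h1 : c = a
    · rw [h1, hMa]
      exact ha0
    · by_cases h2 : c = b
      · rw [h2, hMb]
        exact hb1
      · rw [hMc c h1 h2]
        exact ⟨j0 + 1, le_rfl, by omega, h.lo _ _⟩
  · intro c
    by_cases h1 : c = a
    · rw [h1, hMa, Function.comp_apply, Equiv.swap_apply_left]
      exact hb0
    · by_cases h2 : c = b
      · rw [h2, hMb, Function.comp_apply, Equiv.swap_apply_right]
        exact ha1
      · rw [hMc c h1 h2, Function.comp_apply, Equiv.swap_apply_of_ne_of_ne h1 h2]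
        refine ⟨j1 - 1, by omega, le_rfl, ?_⟩
        have h3 := h.hi (j1 - 1) (p c)
        have h4 : j1 - 1 + 1 = j1 := by omega
        rw [h4] at h3
        exact h3
  · have key : ∀ c, c ≠ a → c ≠ b → ∀ d, c ≠ d → Disjoint (M c) (M d) := by
      intro c h1 h2 d hcd
      rw [Set.disjoint_left]
      intro x hx hy
      by_cases h3 : d = a
      · rw [h3, hMa] at hy
        exact hsegK c h1 h2 x (Or.inl hy) hx
      · by_cases h4 : d = b
        · rw [h4, hMb] at hy
          exact hsegK c h1 h2 x (Or.inr hy) hx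
        · rw [hMc c h1 h2] at hx
          rw [hMc d h3 h4] at hy
          obtain ⟨l, -, -, h5⟩ := hx
          obtain ⟨l', -, -, h6⟩ := hy
          exact hcd (hp (hO4 l (p c) l' (p d) x h5 h6).1)
    intro c d hcd
    by_cases h1 : c = a
    · by_cases h2 : d = b
      · rw [h1, h2, hMa, hMb]
        exact hK
      · exact (key d (fun h3 => hcd (h1.trans h3.symm)) h2 c hcd.symm).symm
    · by_cases h2 : c = b
      · by_cases h3 : d = a
        · rw [h2, h3, hMa, hMb]
          exact hK.symm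
        · exact (key d h3 (fun h4 => hcd (h2.trans h4.symm)) c hcd.symm).symm
      · exact key c h1 h2 d hcd
  · intro c x hx
    by_cases h1 : c = a
    · rw [h1, hMa] at hx
      exact hsub x (Or.inl hx)
    · by_cases h2 : c = b
      · rw [h2, hMb] at hx
        exact hsub x (Or.inr hx)
      · rw [hMc c h1 h2] at hx
        obtain ⟨l, h3, h4, h5⟩ := hx
        refine ⟨anti' h h3 (subW h h5), ?_⟩
        rcases h.sub l (p c) x h5 with h6 | ⟨-, h6⟩
        · by_cases h7 : l + 1 = j1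
          · right
            exact ⟨p c, by rw [h6, h7]⟩
          · left
            intro hc
            exact subN h h5 (anti' h (by omega) hc)
        · left
          exact fun hc => h6 (anti' h (by omega) hc)

end Pool.Agent.PT2
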