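import Pool.Agent.PT2.Stmts

set_option autoImplicit false

namespace Pool.Agent.PT2

open Pool.Agent.ACC Pool.Agent.KUR

namespace SBS_

variable {V : Type} {P : SimpleGraph V} {μ : ℕ} {W : ℕ → Set V} {s : ℕ → Fin μ → V}
  {T : ℕ → Fin μ → Set V}

theorem anti' (h : Strip P μ W s T) {j k : ℕ} (hjk : j ≤ k) : W k ⊆ W j := by
  induction hjk with
  | refl => exact subset_rfl
  | step _ ih => exact (h.anti _).trans ih

theorem cn_union (h : Strip P μ W s T) (i : Fin μ) (a : ℕ) : ∀ d : ℕ,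
    Cn P {x | ∃ l, a ≤ l ∧ l < a + (d + 1) ∧ x ∈ T l i} := by
  intro d
  induction d with
  | zero =>
    have : {x | ∃ l, a ≤ l ∧ l < a + (0 + 1) ∧ x ∈ T l i} = T a i := by
      ext x
      constructor
      · rintro ⟨l, h1, h2, h3⟩
        have : l = a := by omega
        rw [← this]; exact h3
      · intro hx
        exact ⟨a, le_refl _, by omega, hx⟩
    rw [this]
    exact h.cn a i
  | succ d ih =>
    have : {x | ∃ l, a ≤ l ∧ l < a + (d + 1 + 1) ∧ x ∈ T l i} =
        {x | ∃ l, a ≤ l ∧ l < a + (d + 1) ∧ x ∈ T l i} ∪ T (a + (d + 1)) i := by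
      ext x
      constructor
      · rintro ⟨l, h1, h2, h3⟩
        by_cases hl : l < a + (d + 1)
        · exact Or.inl ⟨l, h1, hl, h3⟩
        · right
          have : l = a + (d + 1) := by omega
          rw [← this]; exact h3
      · rintro (⟨l, h1, h2, h3⟩ | h3)
        · exact ⟨l, h1, by omega, h3⟩
        · exact ⟨a + (d + 1), by omega, by omega, h3⟩
    rw [this]
    refine ih.union (h.cn _ _) ⟨s (a + (d + 1)) i, ⟨a + d, by omega, by omega, h.hi (a + d) i⟩,
      s (a + (d + 1)) i, h.lo _ _, Or.inr rfl⟩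

theorem find_block {x : V} : ∀ d a : ℕ, x ∈ W a → x ∉ W (a + d) →
    ∃ l, a ≤ l ∧ l < a + d ∧ x ∈ W l ∧ x ∉ W (l + 1) := by
  intro d
  induction d with
  | zero => intro a h1 h2; exact absurd h1 h2
  | succ d ih =>
    intro a h1 h2
    by_cases h3 : x ∈ W (a + 1)
    · obtain ⟨l, hl1, hl2, hl3⟩ := ih (a + 1) h3 (by rw [show a + 1 + d = a + (d + 1) by omega]; exact h2)
      exact ⟨l, by omega, by omega, hl3⟩
    · exact ⟨a, le_refl _, by omega, h1, h3⟩

end SBS_

theorem sbs_proof (h1 : Stmt_OFT) : Stmt_SBS := by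
  intro V P μ W s T n h hn
  obtain ⟨o1, o2, o3, o4, o5, o6⟩ := h1 V P μ W s T h
  have hnl : ∀ j, n j < n (j + 1) := fun j => hn (Nat.lt_succ_self j)
  have hstrip : Strip P μ (fun j => W (n j)) (fun j => s (n j))
      (fun j i => {x | ∃ l, n j ≤ l ∧ l < n (j + 1) ∧ x ∈ T l i}) := by
    refine ⟨?_, ?_, ?_, ?_, ?_, ?_, ?_, ?_, ?_, ?_⟩
    · intro j
      exact SBS_.anti' h (hnl j).le
    · intro j i
      exact ⟨(h.sW _ _).1, fun hx => (h.sW (n j) i).2 (SBS_.anti' h (hnl j) hx)⟩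
    · intro j x y hxy hx hy
      exact h.out (n j) x y hxy hx hy
    · intro j
      exact h.inj (n j)
    · intro j i
      obtain ⟨d, hd⟩ := Nat.exists_eq_add_of_lt (hnl j)
      have := SBS_.cn_union h i (n j) d
      rw [show n j + (d + 1) = n (j + 1) by omega] at this
      exact this
    · intro j i
      exact ⟨n j, le_refl _, hnl j, h.lo _ _⟩
    · intro j i
      refine ⟨n (j + 1) - 1, by have := hnl j; omega, by have := hnl j; omega, ?_⟩
      have h2 := h.hi (n (j + 1) - 1) i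
      rw [show n (j + 1) - 1 + 1 = n (j + 1) by have := hnl j; omega] at h2
      exact h2
    · rintro j i x ⟨l, hl1, hl2, hx⟩
      rcases h.sub l i x hx with hx1 | ⟨hx1, hx2⟩
      · by_cases hl : l + 1 = n (j + 1)
        · left
          rw [hx1, hl]
        · right
          subst hx1
          refine ⟨SBS_.anti' h (by omega) (h.sW (l + 1) i).1, fun hx2 =>
            (h.sW (l + 1) i).2 (SBS_.anti' h (by omega) hx2)⟩
      · right
        exact ⟨SBS_.anti' h hl1 hx1, fun hx3 => hx2 (SBS_.anti' h (by omega) hx3)⟩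
    · intro j i i' hii
      rw [Set.disjoint_left]
      rintro x ⟨l, -, -, hx⟩ ⟨l', -, -, hx'⟩
      exact hii (o4 l i l' i' x hx hx').1
    · intro x
      obtain ⟨j, hj⟩ := h.leave x
      exact ⟨j, fun hx => hj (SBS_.anti' h (hn.le_apply) hx)⟩
  refine ⟨hstrip, ?_⟩
  intro j i i' hii
  have offr : ∀ l, n j ≤ l → l < n (j + 1) → ∀ x, x ∈ Off W T l →
      x ∈ Off (fun j => W (n j)) (fun j i => {x | ∃ l, n j ≤ l ∧ l < n (j + 1) ∧ x ∈ T l i}) j := by
    intro l hl1 hl2 x hx
    refine ⟨SBS_.anti' h hl1 hx.1, fun hx3 => hx.2.1 (SBS_.anti' h (by omega) hx3), ?_⟩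
    rintro i ⟨l', -, -, hx'⟩
    exact o6 l l' i x hx hx'
  have offl : ∀ x, x ∈ Off (fun j => W (n j))
      (fun j i => {x | ∃ l, n j ≤ l ∧ l < n (j + 1) ∧ x ∈ T l i}) j →
      ∃ l, n j ≤ l ∧ l < n (j + 1) ∧ x ∈ Off W T l := by
    rintro x ⟨hx1, hx2, hx3⟩
    have hx2' : x ∉ W (n j + (n (j + 1) - n j)) := by
      rw [show n j + (n (j + 1) - n j) = n (j + 1) by have := hnl j; omega]
      exact hx2
    obtain ⟨l, hl1, hl2, hl3, hl4⟩ := SBS_.find_block _ _ hx1 hx2'
    have hl2' : l < n (j + 1) := by have := hnl j; omega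
    refine ⟨l, hl1, hl2', hl3, hl4, fun i hi => hx3 i ⟨l, hl1, hl2', hi⟩⟩
  constructor
  · rintro ⟨x, ⟨lx, hlx1, hlx2, hx⟩, y, ⟨ly, hly1, hly2, hy⟩, hr⟩
    by_contra hno
    -- adjacency of points on the two tracks
    have hadj : ¬ P.Adj x y := by
      intro hxy
      have bx : ∃ b, (b = lx ∨ (b = lx + 1 ∧ x = s b i)) ∧ x ∈ W b ∧ x ∉ W (b + 1) ∧ x ∈ T b i := by
        rcases h.sub lx i x hx with rfl | ⟨h1, h2⟩
        · exact ⟨lx + 1, Or.inr ⟨rfl, rfl⟩, (h.sW _ _).1, (h.sW _ _).2, h.lo _ _⟩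
        · exact ⟨lx, Or.inl rfl, h1, h2, hx⟩
      have by' : ∃ b, (b = ly ∨ (b = ly + 1 ∧ y = s b i')) ∧ y ∈ W b ∧ y ∉ W (b + 1) ∧
          y ∈ T b i' := by
        rcases h.sub ly i' y hy with rfl | ⟨h1, h2⟩
        · exact ⟨ly + 1, Or.inr ⟨rfl, rfl⟩, (h.sW _ _).1, (h.sW _ _).2, h.lo _ _⟩
        · exact ⟨ly, Or.inl rfl, h1, h2, hy⟩
      obtain ⟨b, hb, hb1, hb2, hb3⟩ := bx
      obtain ⟨b', hb', hb1', hb2', hb3'⟩ := by'
      have hcnn : ∀ m, n j ≤ m → m < n (j + 1) → x ∈ T m i → y ∈ T m i' → False := by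
        intro m hm1 hm2 h3 h4
        exact hno ⟨m, hm1, hm2, x, h3, y, h4, Rch.of_adj (Or.inr (Or.inl rfl))
          (Or.inr (Or.inr rfl)) hxy⟩
      rcases lt_trichotomy b b' with hlt | heq | hgt
      · have h3 : y ∈ W (b + 1) := SBS_.anti' h hlt hb1'
        obtain ⟨i'', rfl⟩ := h.out (b + 1) y x hxy.symm h3 hb2
        have h5 := o4 (b + 1) i'' b' i' _ (h.lo (b + 1) i'') hb3'
        obtain ⟨rfl, -⟩ := h5
        refine hcnn b (by rcases hb with rfl | ⟨rfl, -⟩ <;> omega)
          (by rcases hb' with rfl | ⟨rfl, -⟩ <;> omega) hb3 (h.hi b i'')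
      · subst heq
        by_cases hbn : b < n (j + 1)
        · exact hcnn b (by rcases hb with rfl | ⟨rfl, -⟩ <;> omega) hbn hb3 hb3'
        · have hb5 : b = lx + 1 ∧ x = s b i := by
            rcases hb with rfl | h5
            · omega
            · exact h5
          have hb6 : b = ly + 1 ∧ y = s b i' := by
            rcases hb' with rfl | h5
            · omega
            · exact h5
          have hll : lx = ly := by omega
          subst hll
          exact hcnn lx hlx1 hlx2 hx hy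
      · have h3 : x ∈ W (b' + 1) := SBS_.anti' h hgt hb1
        obtain ⟨i'', rfl⟩ := h.out (b' + 1) x y hxy h3 hb2'
        have h5 := o4 (b' + 1) i'' b i _ (h.lo (b' + 1) i'') hb3
        obtain ⟨rfl, -⟩ := h5
        refine hcnn b' (by rcases hb' with rfl | ⟨rfl, -⟩ <;> omega)
          (by rcases hb with rfl | ⟨rfl, -⟩ <;> omega) (h.hi b' i'') hb3'
    have hxy : x ≠ y := by
      rintro rfl
      exact hii (o4 lx i ly i' x hx hy).1
    -- the closed set
    have hmem := hr.closed ({x} ∪ {z | ∃ l, n j ≤ l ∧ l < n (j + 1) ∧ z ∈ Off W T l ∧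
      ∃ x' ∈ T l i, Rch P (Off W T l ∪ {x'}) x' z}) (Or.inl rfl) ?_
    · rcases hmem with hmem | ⟨l, -, -, hmem, -⟩
      · exact hxy hmem.symm
      · exact o6 l ly i' y hmem hy
    · rintro u (hu | ⟨l, hl1, hl2, hu, x', hx', hr'⟩) v hv huv
      · rw [Set.mem_singleton_iff] at hu
        subst hu
        rcases hv with hv | hv | hv
        · obtain ⟨l, hl1, hl2, hvl⟩ := offl v hv
          rcases o1 l v u hvl huv.symm with h5 | ⟨i'', h5⟩
          · exact absurd hx (o6 l lx i u h5)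
          · have : i'' = i := (o4 l i'' lx i u h5 hx).1
            subst this
            exact Or.inr ⟨l, hl1, hl2, hvl, u, h5, Rch.of_adj (Or.inr rfl) (Or.inl hvl) huv⟩
        · exact Or.inl hv
        · rw [Set.mem_singleton_iff] at hv
          subst hv
          exact absurd huv hadj
      · rcases o1 l u v hu huv with h5 | ⟨i'', h5⟩
        · exact Or.inr ⟨l, hl1, hl2, h5, x', hx', hr'.trans (Rch.of_adj (Or.inl hu) (Or.inl h5) huv)⟩
        · rcases hv with hv | hv | hv
          · obtain ⟨l', -, -, hvl⟩ := offl v hv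
            exact absurd h5 (o6 l' l i'' v hvl)
          · exact Or.inl hv
          · rw [Set.mem_singleton_iff] at hv
            subst hv
            have : i'' = i' := (o4 l i'' ly i' v h5 hy).1
            subst this
            exact absurd ⟨l, hl1, hl2, x', hx', v, h5,
              (hr'.mono le_rfl (by
                rintro z (hz | hz)
                · exact Or.inl hz
                · exact Or.inr (Or.inl hz))).trans
                (Rch.of_adj (Or.inl hu) (Or.inr (Or.inr rfl)) huv)⟩ hno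
  · rintro ⟨l, hl1, hl2, x, hx, y, hy, hr⟩
    refine ⟨x, ⟨l, hl1, hl2, hx⟩, y, ⟨l, hl1, hl2, hy⟩, hr.mono le_rfl ?_⟩
    rintro z (hz | hz)
    · exact Or.inl (offr l hl1 hl2 z hz)
    · exact Or.inr hz

end Pool.Agent.PT2
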