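import Pool.Agent.PT2.Stmts

/-!
MP_851278_al, module SNG: a connected set touching two sets is reduced to one point.
-/

set_option autoImplicit false

namespace Pool.Agent.PT2

open Pool.Agent.ACC Pool.Agent.KUR

namespace SNG_

variable {V : Type} {H : SimpleGraph V}

/-- removing the component of `b` in `R \ {a}` -/
theorem split {R : Set V} {a b : V} (hR : Cn H R) (ha : a ∈ R) (hb : b ∈ R) (hab : b ≠ a) :
    ∃ C : Set V, C ⊆ R ∧ a ∉ C ∧ b ∈ C ∧ Cn H C ∧ Cn H (R \ C) ∧ ∃ c ∈ C, H.Adj c a := by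
  have hb' : b ∈ R \ {a} := ⟨hb, hab⟩
  refine ⟨{y | Rch H (R \ {a}) b y}, ?_, ?_, Rch.refl H hb', cn_comp hb', ?_, ?_⟩
  · intro y hy
    have hy' : Rch H (R \ {a}) b y := hy
    exact hy'.right.1
  · intro h
    have h' : Rch H (R \ {a}) b a := h
    exact h'.right.2 rfl
  · have ha' : a ∈ R \ {y | Rch H (R \ {a}) b y} := by
      refine ⟨ha, fun h => ?_⟩
      have h' : Rch H (R \ {a}) b a := h
      exact h'.right.2 rfl
    refine cn_of_rch ha' ?_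
    intro y hy
    by_cases hya : y = a
    · rw [hya]
      exact Rch.refl H ha'
    have hyR : y ∈ R \ {a} := ⟨hy.1, hya⟩
    obtain ⟨u, v, hu, hv, huR, hvR, huv, hyu⟩ :=
      (hR.rch hy.1 ha).exit {z | Rch H (R \ {a}) y z} (Rch.refl H hyR) (by
        intro h
        have h' : Rch H (R \ {a}) y a := h
        exact h'.right.2 rfl)
    have hu' : Rch H (R \ {a}) y u := hu
    have hva : v = a := by
      by_contra hne
      exact hv (hu'.trans (Rch.of_adj hu'.right ⟨hvR, hne⟩ huv))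
    subst hva
    have hsub : R ∩ {z | Rch H (R \ {v}) y z} ⊆ R \ {z | Rch H (R \ {v}) b z} := by
      rintro z ⟨hz1, hz2⟩
      refine ⟨hz1, fun hz3 => hy.2 ?_⟩
      have hz2' : Rch H (R \ {v}) y z := hz2
      have hz3' : Rch H (R \ {v}) b z := hz3
      exact hz3'.trans hz2'.symm
    have h1 := hyu.mono le_rfl hsub
    exact (h1.trans (Rch.of_adj h1.right ha' huv)).symm
  · obtain ⟨u, v, hu, hv, huR, hvR, huv, hyu⟩ :=
      (hR.rch hb ha).exit {z | Rch H (R \ {a}) b z} (Rch.refl H hb') (by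
        intro h
        have h' : Rch H (R \ {a}) b a := h
        exact h'.right.2 rfl)
    have hu' : Rch H (R \ {a}) b u := hu
    have hva : v = a := by
      by_contra hne
      exact hv (hu'.trans (Rch.of_adj hu'.right ⟨hvR, hne⟩ huv))
    subst hva
    exact ⟨u, hu, huv⟩

theorem main (n : ℕ) : ∀ (Sx X1 X2 : Set V) (s : V), Sx.ncard = n → Cn H Sx →
  Cn H X1 → Cn H X2 → Disjoint Sx X1 → Disjoint Sx X2 → Disjoint X1 X2 → s ∈ Sx →
  Tch H Sx X1 → Tch H Sx X2 → Sx.Finite →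
  ∃ (p : V) (Q Y1 Y2 : Set V), X1 ⊆ Y1 ∧ Y1 ⊆ X1 ∪ Sx ∧ X2 ⊆ Y2 ∧ Y2 ⊆ X2 ∪ Sx ∧
    Cn H Y1 ∧ Cn H Y2 ∧ Disjoint Y1 Y2 ∧ Q ⊆ Sx ∧ Cn H Q ∧ s ∈ Q ∧ p ∈ Q ∧ Disjoint Q Y1 ∧
    Disjoint Q Y2 ∧ Tch H {p} Y1 ∧ Tch H {p} Y2 := by
  induction n using Nat.strong_induction_on with
  | _ n ih =>
  intro Sx X1 X2 s hn hS h1 h2 d1 d2 d12 hs t1 t2 hfin
  obtain ⟨a, ha, x1, hx1, hax⟩ := t1
  obtain ⟨b, hb, x2, hx2, hbx⟩ := t2
  by_cases hab : b = a
  · subst hab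
    exact ⟨b, Sx, X1, X2, subset_rfl, Set.subset_union_left, subset_rfl, Set.subset_union_left,
      h1, h2, d12, subset_rfl, hS, hs, hb, d1, d2, ⟨b, rfl, x1, hx1, hax⟩, ⟨b, rfl, x2, hx2, hbx⟩⟩
  obtain ⟨C, hCS, haC, hbC, hC, hC', c, hc, hca⟩ := split hS ha hb hab
  have dC1 : Disjoint C X1 := d1.mono_left hCS
  have dC2 : Disjoint C X2 := d2.mono_left hCS
  have dD1 : Disjoint (Sx \ C) X1 := d1.mono_left Set.diff_subset
  have dD2 : Disjoint (Sx \ C) X2 := d2.mono_left Set.diff_subset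
  have dCD : Disjoint C (Sx \ C) := Set.disjoint_sdiff_right
  have haD : a ∈ Sx \ C := ⟨ha, haC⟩
  by_cases hsC : s ∈ C
  · have hlt : C.ncard < n := by
      rw [← hn]
      refine Set.ncard_lt_ncard ?_ hfin
      exact (Set.ssubset_iff_of_subset hCS).2 ⟨a, ha, haC⟩
    have hX1' : Cn H (X1 ∪ (Sx \ C)) := h1.union hC' ⟨x1, hx1, a, haD, Or.inl hax.symm⟩
    obtain ⟨p, Q, Y1, Y2, e1, e2, e3, e4, e5, e6, e7, e8, e9, e10, e11, e12, e13, e14, e15⟩ :=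
      ih C.ncard hlt C (X1 ∪ (Sx \ C)) X2 s rfl hC hX1' h2 (Set.disjoint_union_right.2 ⟨dC1, dCD⟩)
        dC2 (Set.disjoint_union_left.2 ⟨d12, dD2⟩) hsC ⟨c, hc, a, Or.inr haD, hca⟩
        ⟨b, hbC, x2, hx2, hbx⟩ (hfin.subset hCS)
    refine ⟨p, Q, Y1, Y2, Set.subset_union_left.trans e1, ?_, e3, ?_, e5, e6, e7, e8.trans hCS, e9,
      e10, e11, e12, e13, e14, e15⟩
    · intro z hz
      rcases e2 hz with (hz | hz) | hz
      · exact Or.inl hz
      · exact Or.inr hz.1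
      · exact Or.inr (hCS hz)
    · exact e4.trans (Set.union_subset_union_right _ hCS)
  · have hsD : s ∈ Sx \ C := ⟨hs, hsC⟩
    have hlt : (Sx \ C).ncard < n := by
      rw [← hn]
      refine Set.ncard_lt_ncard ?_ hfin
      exact (Set.ssubset_iff_of_subset Set.diff_subset).2 ⟨b, hb, fun h => h.2 hbC⟩
    have hX2' : Cn H (X2 ∪ C) := h2.union hC ⟨x2, hx2, b, hbC, Or.inl hbx.symm⟩
    obtain ⟨p, Q, Y1, Y2, e1, e2, e3, e4, e5, e6, e7, e8, e9, e10, e11, e12, e13, e14, e15⟩ :=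
      ih (Sx \ C).ncard hlt (Sx \ C) X1 (X2 ∪ C) s rfl hC' h1 hX2' dD1
        (Set.disjoint_union_right.2 ⟨dD2, dCD.symm⟩)
        (Set.disjoint_union_right.2 ⟨d12, dC1.symm⟩) hsD ⟨a, haD, x1, hx1, hax⟩
        ⟨a, haD, c, Or.inr hc, hca.symm⟩ (hfin.subset Set.diff_subset)
    refine ⟨p, Q, Y1, Y2, e1, ?_, Set.subset_union_left.trans e3, ?_, e5, e6, e7,
      e8.trans Set.diff_subset, e9, e10, e11, e12, e13, e14, e15⟩
    · exact e2.trans (Set.union_subset_union_right _ Set.diff_subset)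
    · intro z hz
      rcases e4 hz with (hz | hz) | hz
      · exact Or.inl hz
      · exact Or.inr (hCS hz)
      · exact Or.inr hz.1

end SNG_

theorem sng_proof : Stmt_SNG := by
  intro V H Sx X1 X2 s h1 h2 h3 h4 h5 h6 h7 h8 h9 h10
  exact SNG_.main Sx.ncard Sx X1 X2 s rfl h1 h2 h3 h4 h5 h6 h7 h8 h9 h10

end Pool.Agent.PT2
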