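import Pool.Agent.PT2.Stmts

set_option autoImplicit false

namespace Pool.Agent.PT2

open Pool.Agent.ACC Pool.Agent.KUR

theorem spl_proof : Stmt_SPL := by
  intro V H n Sx B x y hSx hx hy hxy hT hmin
  have hy' : y ∈ Sx \ {x} := ⟨hy, fun h => hxy h.symm⟩
  set W : Set V := {z | Rch H (Sx \ {x}) y z} with hW
  have hWs : ∀ z ∈ W, z ∈ Sx \ {x} := fun z hz => Rch.right hz
  have hWS : W ⊆ Sx := fun z hz => (hWs z hz).1
  have hxW : x ∉ W := fun h => (hWs x h).2 rfl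
  have hyW : y ∈ W := Rch.refl H hy'
  have hCW : Cn H W := cn_comp hy'
  have hxU : x ∈ Sx \ W := ⟨hx, hxW⟩
  have hCU : Cn H (Sx \ W) := by
    refine cn_of_rch hxU ?_
    rintro z ⟨hzS, hzW⟩
    by_cases hzx : z = x
    · subst hzx
      exact Rch.refl H hxU
    · have hz' : z ∈ Sx \ {x} := ⟨hzS, hzx⟩
      obtain ⟨u, v, huT, hvT, huS, hvS, huv, hzu⟩ := (hSx.rch hzS hx).exit ({x}ᶜ : Set V) hzx
        (fun h => h rfl)
      have hvx : v = x := by
        by_contra h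
        exact hvT h
      subst hvx
      have hsub : ∀ w, Rch H (Sx \ {v}) z w → w ∈ Sx \ W := by
        intro w hw
        refine ⟨hw.right.1, fun hwW => hzW ?_⟩
        have h1 : Rch H (Sx \ {v}) y w := hwW
        exact Rch.trans h1 hw.symm
      have hzu' : Rch H (Sx \ {v}) z u := hzu.mono le_rfl (fun w hw => ⟨hw.1, hw.2⟩)
      have hc : Cn H {w | Rch H (Sx \ {v}) z w} := cn_comp hz'
      have h2 : Rch H (Sx \ W) z u :=
        (hc.rch (Rch.refl H hz') hzu').mono le_rfl (fun w hw => hsub w hw)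
      exact (h2.trans (Rch.of_adj (hsub u hzu') hxU huv)).symm
  refine ⟨Sx \ W, W, ?_, ?_, hCU, hCW, hxU, hyW, ?_, ?_, ?_, ?_⟩
  · rw [Set.sdiff_union_of_subset hWS]
  · exact Set.disjoint_sdiff_left
  · obtain ⟨u, v, huT, hvT, huS, hvS, huv, _⟩ := (hSx.rch hy hx).exit W hyW hxW
    exact ⟨v, ⟨hvS, hvT⟩, u, huT, huv.symm⟩
  · intro i
    obtain ⟨a, ha, b, hb, hab⟩ := hT i
    by_cases haW : a ∈ W
    · exact Or.inr ⟨a, haW, b, hb, hab⟩
    · exact Or.inl ⟨a, ⟨ha, haW⟩, b, hb, hab⟩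
  · refine hmin _ Set.sdiff_subset (fun h => ?_) hCU
    have : y ∈ Sx \ W := by rw [h]; exact hy
    exact this.2 hyW
  · refine hmin _ hWS (fun h => hxW ?_) hCW
    rw [h]
    exact hx

end Pool.Agent.PT2
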