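import Pool.Agent.PT2.Stmts

/-!
MP_851278_al, module ST1: two legs ending at `a` and `b` on a frame.
-/

set_option autoImplicit false

namespace Pool.Agent.PT2

open Pool.Agent.ACC Pool.Agent.KUR

namespace ST1_

theorem tch_symm {V : Type} {H : SimpleGraph V} {A B : Set V} (h : Tch H A B) : Tch H B A := by
  obtain ⟨x, hx, y, hy, hxy⟩ := h
  exact ⟨y, hy, x, hx, hxy.symm⟩

theorem tch_mono {V : Type} {H : SimpleGraph V} {A B A' : Set V} (h : Tch H A B)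
    (hA : A ⊆ A') : Tch H A' B := by
  obtain ⟨x, hx, y, hy, hxy⟩ := h
  exact ⟨x, hA hx, y, hy, hxy⟩

theorem cn_union {V : Type} {H : SimpleGraph V} {A B : Set V} (hA : Cn H A) (hB : Cn H B)
    (h : Tch H A B) : Cn H (A ∪ B) := by
  obtain ⟨x, hx, y, hy, hxy⟩ := h
  exact hA.union hB ⟨x, hx, y, hy, Or.inl hxy⟩

theorem swapB {V : Type} {H : SimpleGraph V} {Co : Set V} {a b : V} {A2 A3 B2 B3 : Set V}
    (h : Frame H Co a b A2 A3 B2 B3) : Frame H Co a b A2 A3 B3 B2 where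
  fin := ⟨h.fin.1, h.fin.2.1, h.fin.2.2.2, h.fin.2.2.1⟩
  co := ⟨h.co.1, h.co.2.1, h.co.2.2.1, h.co.2.2.2.1, h.co.2.2.2.2.2, h.co.2.2.2.2.1⟩
  cn := ⟨h.cn.1, h.cn.2.1, h.cn.2.2.2, h.cn.2.2.1⟩
  ab := h.ab
  ma := ⟨h.ma.1, h.ma.2.1, h.ma.2.2.2, h.ma.2.2.1⟩
  mb := ⟨h.mb.1, h.mb.2.1, h.mb.2.2.2, h.mb.2.2.1⟩
  dis := by
    obtain ⟨h1, h2, h3, h4, h5, h6⟩ := h.dis
    exact ⟨h1, h3, h2, h5, h4, h6.symm⟩
  ta := ⟨h.ta.2, h.ta.1⟩
  tb := h.tb
  t := by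
    obtain ⟨h1, h2, h3, h4⟩ := h.t
    exact ⟨h2, h1, h4, h3⟩

theorem flip {V : Type} {H : SimpleGraph V} {Co : Set V} {a b : V} {A2 A3 B2 B3 : Set V}
    (h : Frame H Co a b A2 A3 B2 B3) : Frame H Co b a B2 B3 A2 A3 where
  fin := ⟨h.fin.2.2.1, h.fin.2.2.2, h.fin.1, h.fin.2.1⟩
  co := ⟨h.co.2.1, h.co.1, h.co.2.2.2.2.1, h.co.2.2.2.2.2, h.co.2.2.1, h.co.2.2.2.1⟩
  cn := ⟨h.cn.2.2.1, h.cn.2.2.2, h.cn.1, h.cn.2.1⟩
  ab := h.ab.symm
  ma := ⟨h.mb.2.2.1, h.mb.2.2.2, h.mb.1, h.mb.2.1⟩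
  mb := ⟨h.ma.2.2.1, h.ma.2.2.2, h.ma.1, h.ma.2.1⟩
  dis := by
    obtain ⟨h1, h2, h3, h4, h5, h6⟩ := h.dis
    exact ⟨h6, h2.symm, h4.symm, h3.symm, h5.symm, h1⟩
  ta := h.tb
  tb := h.ta
  t := by
    obtain ⟨h1, h2, h3, h4⟩ := h.t
    exact ⟨tch_symm h1, tch_symm h3, tch_symm h2, tch_symm h4⟩

theorem lperm {V : Type} {H : SimpleGraph V} {A B : Set V} {L : Fin 3 → Set V} {e : Fin 3 → V}
    (h : Lkg H A B L e) (σ : Equiv.Perm (Fin 3)) :
    Lkg H A B (fun i => L (σ i)) (fun i => e (σ i)) where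
  cn i := h.cn (σ i)
  fin i := h.fin (σ i)
  dis i j hij := h.dis (σ i) (σ j) (fun hc => hij (σ.injective hc))
  a i := h.a (σ i)
  b i := h.b (σ i)

theorem core (h2 : Stmt_ST3) {V : Type} {H : SimpleGraph V} {τ : Fin 4 → V} {Co : Set V}
    {a b : V} {A2 A3 B2 B3 B : Set V} {L : Fin 3 → Set V} {e : Fin 3 → V} (hFC : FC H τ Co)
    (hF : Frame H Co a b A2 A3 B2 B3) (hL : Lkg H (Set.range τ) B L e)
    (hB : B = {a, b} ∪ (A2 ∪ A3 ∪ (B2 ∪ B3))) (h0 : e 0 = a) (h1 : e 1 = b)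
    (h3 : e 2 ∈ B2) : Cross H τ := by
  obtain ⟨d1, d2, d3, d4, d5, d6⟩ := hF.dis
  obtain ⟨t1, t2, t3, t4⟩ := hF.t
  obtain ⟨c1, c2, c3, c4, c5, c6⟩ := hF.co
  obtain ⟨f1, f2, f3, f4⟩ := hF.fin
  obtain ⟨n1, n2, n3, n4⟩ := hF.cn
  obtain ⟨ma1, ma2, ma3, ma4⟩ := hF.ma
  obtain ⟨mb1, mb2, mb3, mb4⟩ := hF.mb
  refine h2 V H τ Co A2 A3 ![{a} ∪ B3, {b}, B2] L e hFC f1 f2 ?_ c3 c4 ?_ n1 n2 ?_ d1 ?_ ?_ ?_
    ?_ ?_
  · intro i
    fin_cases i
    · exact (Set.finite_singleton a).union f4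
    · exact Set.finite_singleton b
    · exact f3
  · intro i
    fin_cases i
    · exact Set.union_subset (Set.singleton_subset_iff.mpr c1) c6
    · exact Set.singleton_subset_iff.mpr c2
    · exact c5
  · intro i
    fin_cases i
    · exact cn_union (cn_singleton H a) n4 hF.ta.2
    · exact cn_singleton H b
    · exact n3
  · intro i
    fin_cases i
    · exact ⟨Set.disjoint_union_left.mpr ⟨Set.disjoint_singleton_left.mpr ma1, d3.symm⟩,
        Set.disjoint_union_left.mpr ⟨Set.disjoint_singleton_left.mpr ma2, d5.symm⟩⟩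
    · exact ⟨Set.disjoint_singleton_left.mpr mb1, Set.disjoint_singleton_left.mpr mb2⟩
    · exact ⟨d2.symm, d4.symm⟩
  · have h01 : Disjoint ({a} ∪ B3) ({b} : Set V) :=
      Set.disjoint_union_left.mpr ⟨Set.disjoint_singleton.mpr hF.ab,
        Set.disjoint_singleton_right.mpr mb4⟩
    have h02 : Disjoint ({a} ∪ B3) B2 :=
      Set.disjoint_union_left.mpr ⟨Set.disjoint_singleton_left.mpr ma3, d6.symm⟩
    have h12 : Disjoint ({b} : Set V) B2 := Set.disjoint_singleton_left.mpr mb3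
    intro i j hij
    fin_cases i <;> fin_cases j
    · exact absurd rfl hij
    · exact h01
    · exact h02
    · exact h01.symm
    · exact absurd rfl hij
    · exact h12
    · exact h02.symm
    · exact h12.symm
    · exact absurd rfl hij
  · intro i
    fin_cases i
    · exact ⟨tch_mono (tch_symm t2) Set.subset_union_right,
        tch_mono (tch_symm t4) Set.subset_union_right⟩
    · exact hF.tb
    · exact ⟨tch_symm t1, tch_symm t3⟩
  · have hset : A2 ∪ A3 ∪ ((![{a} ∪ B3, {b}, B2] : Fin 3 → Set V) 0 ∪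
        (![{a} ∪ B3, {b}, B2] : Fin 3 → Set V) 1 ∪ (![{a} ∪ B3, {b}, B2] : Fin 3 → Set V) 2) =
        B := by
      rw [hB]
      show A2 ∪ A3 ∪ (({a} ∪ B3) ∪ {b} ∪ B2) = _
      ext z
      simp only [Set.mem_union, Set.mem_singleton_iff, Set.mem_insert_iff]
      tauto
    rw [hset]
    exact hL
  · intro i
    fin_cases i
    · exact Or.inl h0
    · exact h1
    · exact h3

end ST1_

open ST1_ in
theorem st1_proof (h1 : Stmt_MEE) (h2 : Stmt_ST3) : Stmt_ST1 := by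
  intro V H τ Co a b A2 A3 B2 B3 L hFC hF hL
  have hBfin : ({a, b} ∪ (A2 ∪ A3 ∪ (B2 ∪ B3)) : Set V).Finite :=
    (Set.toFinite {a, b}).union ((hF.fin.1.union hF.fin.2.1).union
      (hF.fin.2.2.1.union hF.fin.2.2.2))
  have hBC : ({a, b} ∪ (A2 ∪ A3 ∪ (B2 ∪ B3)) : Set V) ⊆ Co := by
    obtain ⟨c1, c2, c3, c4, c5, c6⟩ := hF.co
    rintro z ((rfl | rfl) | ((hz | hz) | (hz | hz)))
    · exact c1
    · exact c2
    · exact c3 hz
    · exact c4 hz
    · exact c5 hz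
    · exact c6 hz
  obtain ⟨L', e', hL', he'⟩ := h1 V H (Set.range τ) _ 2 L ![a, b] (Set.finite_range τ) hBfin hL
    (by
      intro X hX hcard
      obtain ⟨x1, hx1⟩ := hF.cn.1.1
      have hbx : b ≠ x1 := fun hc => hF.mb.1 (hc ▸ hx1)
      have hax : a ∉ ({b, x1} : Set V) := by
        rintro (hc | hc)
        · exact hF.ab hc
        · exact hF.ma.1 (hc ▸ hx1)
      have h4 : ∃ y ∈ ({a, b} ∪ (A2 ∪ A3 ∪ (B2 ∪ B3)) : Set V), y ∉ X := by
        by_contra hcon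
        push Not at hcon
        have hsub : insert a {b, x1} ⊆ X := by
          rintro z (rfl | rfl | rfl)
          · exact hcon _ (Or.inl (Or.inl rfl))
          · exact hcon _ (Or.inl (Or.inr rfl))
          · exact hcon _ (Or.inr (Or.inl (Or.inl hx1)))
        have h5 := Set.ncard_le_ncard hsub hX
        rw [Set.ncard_insert_of_notMem hax (Set.toFinite _), Set.ncard_pair hbx] at h5
        omega
      obtain ⟨y, hy, hyX⟩ := h4
      obtain ⟨i, hi, hr⟩ := hFC.2 X hX (by omega) y (hBC hy) hyX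
      exact ⟨τ i, ⟨i, rfl⟩, y, hy, hr.symm⟩)
  have e0 : e' 0 = a := he' 0
  have e1 : e' 1 = b := he' 1
  have hmem : ∀ i, e' i ∈ L' i ∧ e' i ∈ ({a, b} ∪ (A2 ∪ A3 ∪ (B2 ∪ B3)) : Set V) := fun i => by
    have : e' i ∈ L' i ∩ ({a, b} ∪ (A2 ∪ A3 ∪ (B2 ∪ B3)) : Set V) := by
      rw [hL'.b i]
      rfl
    exact this
  have hne : ∀ i j, i ≠ j → e' i ≠ e' j := fun i j hij hc =>
    Set.disjoint_left.mp (hL'.dis i j hij) (hmem i).1 (hc ▸ (hmem j).1)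
  have hflip : ({a, b} ∪ (A2 ∪ A3 ∪ (B2 ∪ B3)) : Set V) =
      {b, a} ∪ (B2 ∪ B3 ∪ (A2 ∪ A3)) := by
    ext z
    simp only [Set.mem_union, Set.mem_singleton_iff, Set.mem_insert_iff]
    tauto
  have hflip2 : ({a, b} ∪ (A2 ∪ A3 ∪ (B2 ∪ B3)) : Set V) =
      {b, a} ∪ (B2 ∪ B3 ∪ (A3 ∪ A2)) := by
    ext z
    simp only [Set.mem_union, Set.mem_singleton_iff, Set.mem_insert_iff]
    tauto
  have hswap : ({a, b} ∪ (A2 ∪ A3 ∪ (B2 ∪ B3)) : Set V) =
      {a, b} ∪ (A2 ∪ A3 ∪ (B3 ∪ B2)) := by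
    rw [Set.union_comm B3 B2]
  rcases (hmem 2).2 with (h | h) | ((h | h) | (h | h))
  · exact absurd (h.trans e0.symm) (hne 2 0 (by decide))
  · exact absurd (Eq.trans h e1.symm) (hne 2 1 (by decide))
  · exact core h2 hFC (flip hF) (lperm hL' (Equiv.swap 0 1)) hflip
      (by simpa using e1) (by simpa using e0) (by
        have : (Equiv.swap 0 1 : Equiv.Perm (Fin 3)) 2 = 2 := by decide
        rw [this]
        exact h)
  · exact core h2 hFC (swapB (flip hF)) (lperm hL' (Equiv.swap 0 1)) hflip2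
      (by simpa using e1) (by simpa using e0) (by
        have : (Equiv.swap 0 1 : Equiv.Perm (Fin 3)) 2 = 2 := by decide
        rw [this]
        exact h)
  · exact core h2 hFC hF hL' rfl e0 e1 h
  · exact core h2 hFC (swapB hF) hL' hswap e0 e1 h

end Pool.Agent.PT2
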