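import Pool.Agent.PT2.Stmts

/-!
MP_851278_al, module ST2: three legs.
-/

set_option autoImplicit false

namespace Pool.Agent.PT2

open Pool.Agent.ACC Pool.Agent.KUR

theorem st2_proof (h1 : Stmt_MEE) (h2 : Stmt_FN4) : Stmt_ST2 := by
  intro V H τ Co X1 X2 p L hFC hX1 hX2 hX1C hX2C hpC c1 c2 d12 hp hpX ht hL
  have hBfin : (X1 ∪ X2 ∪ Set.range p).Finite := (hX1.union hX2).union (Set.finite_range p)
  have hBC : X1 ∪ X2 ∪ Set.range p ⊆ Co := by
    rintro z ((hz | hz) | ⟨i, rfl⟩)
    · exact hX1C hz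
    · exact hX2C hz
    · exact hpC i
  obtain ⟨L', e', hL', he'⟩ := h1 V H (Set.range τ) (X1 ∪ X2 ∪ Set.range p) 3 L p
    (Set.finite_range τ) hBfin hL (by
      intro X hX hcard
      obtain ⟨x1, hx1⟩ := c1.1
      have h4 : ∃ y ∈ X1 ∪ X2 ∪ Set.range p, y ∉ X := by
        by_contra hcon
        push Not at hcon
        have hsub : insert x1 (Set.range p) ⊆ X := by
          intro z hz
          rcases hz with rfl | hz
          · exact hcon _ (Or.inl (Or.inl hx1))
          · exact hcon z (Or.inr hz)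
        have hx1p : x1 ∉ Set.range p := by
          rintro ⟨i, rfl⟩
          exact (hpX i).1 hx1
        have h5 := Set.ncard_le_ncard hsub hX
        rw [Set.ncard_insert_of_notMem hx1p (Set.finite_range p)] at h5
        have h6 : (Set.range p).ncard = 3 := by
          rw [← Set.image_univ, Set.ncard_image_of_injective _ hp, Set.ncard_univ]
          simp
        omega
      obtain ⟨y, hy, hyX⟩ := h4
      obtain ⟨i, hi, hr⟩ := hFC.2 X hX hcard y (hBC hy) hyX
      exact ⟨τ i, ⟨i, rfl⟩, y, hy, hr.symm⟩)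
  exact h2 V H τ X1 X2 p L' e' hFC.1 c1 c2 d12 hp hpX ht hL' he'

end Pool.Agent.PT2
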