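import Pool.Agent.PT2.Stmts

/-!
Squad PTC, module ST3: three legs on a `K_{2,3}` model.
-/

set_option autoImplicit false

namespace Pool.Agent.PT2

open Pool.Agent.ACC Pool.Agent.KUR

namespace ST3_

variable {V : Type}

theorem tch_mono {H : SimpleGraph V} {A B A' B' : Set V} (h : Tch H A B) (hA : A ⊆ A')
    (hB : B ⊆ B') : Tch H A' B' := by
  obtain ⟨x, hx, y, hy, hxy⟩ := h
  exact ⟨x, hA hx, y, hB hy, hxy⟩

/-- the state after the treatment of the first `m` sets -/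
structure Inv (H : SimpleGraph V) (T1 T2 : Set V) (Sx : Fin 3 → Set V) (e : Fin 3 → V) (m : ℕ)
    (X1 X2 : Set V) (p : Fin 3 → V) (Q : Fin 3 → Set V) : Prop where
  s1 : T1 ⊆ X1
  s2 : T2 ⊆ X2
  u1 : ∀ z ∈ X1, z ∈ T1 ∨ ∃ i : Fin 3, i.val < m ∧ z ∈ Sx i
  u2 : ∀ z ∈ X2, z ∈ T2 ∨ ∃ i : Fin 3, i.val < m ∧ z ∈ Sx i
  c1 : Cn H X1
  c2 : Cn H X2
  d : Disjoint X1 X2
  q : ∀ i : Fin 3, i.val < m → Q i ⊆ Sx i ∧ Cn H (Q i) ∧ e i ∈ Q i ∧ p i ∈ Q i ∧
    Disjoint (Q i) X1 ∧ Disjoint (Q i) X2 ∧ Tch H {p i} X1 ∧ Tch H {p i} X2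

theorem step (hS : Stmt_SNG) (H : SimpleGraph V) (T1 T2 : Set V) (Sx : Fin 3 → Set V)
    (e : Fin 3 → V) (hfin : ∀ i, (Sx i).Finite) (hT1 : Cn H T1) (hT2 : Cn H T2)
    (hSx : ∀ i, Cn H (Sx i)) (hT : Disjoint T1 T2)
    (hST : ∀ i, Disjoint (Sx i) T1 ∧ Disjoint (Sx i) T2)
    (hSS : ∀ i j, i ≠ j → Disjoint (Sx i) (Sx j)) (ht : ∀ i, Tch H (Sx i) T1 ∧ Tch H (Sx i) T2)
    (he : ∀ i, e i ∈ Sx i) (m : ℕ) (hm : m ≤ 3) :
    ∃ X1 X2 p Q, Inv H T1 T2 Sx e m X1 X2 p Q := by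
  induction m with
  | zero =>
    exact ⟨T1, T2, e, Sx, subset_rfl, subset_rfl, fun z hz => Or.inl hz, fun z hz => Or.inl hz,
      hT1, hT2, hT, fun i hi => absurd hi (Nat.not_lt_zero _)⟩
  | succ m ih =>
    obtain ⟨X1, X2, p, Q, hI⟩ := ih (by omega)
    have hm3 : m < 3 := hm
    obtain ⟨a, ha⟩ : ∃ a : Fin 3, a.val = m := ⟨⟨m, hm3⟩, rfl⟩
    have dis1 : Disjoint (Sx a) X1 := by
      rw [Set.disjoint_left]
      intro z hz hz1
      rcases hI.u1 z hz1 with h | ⟨i, hi, h⟩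
      · exact Set.disjoint_left.mp (hST a).1 hz h
      · refine Set.disjoint_left.mp (hSS a i ?_) hz h
        rintro rfl
        omega
    have dis2 : Disjoint (Sx a) X2 := by
      rw [Set.disjoint_left]
      intro z hz hz1
      rcases hI.u2 z hz1 with h | ⟨i, hi, h⟩
      · exact Set.disjoint_left.mp (hST a).2 hz h
      · refine Set.disjoint_left.mp (hSS a i ?_) hz h
        rintro rfl
        omega
    obtain ⟨p', Q', Y1, Y2, h1, h2, h3, h4, h5, h6, h7, h8, h9, h10, h11, h12, h13, h14, h15⟩ :=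
      hS V H (Sx a) X1 X2 (e a) (hSx a) hI.c1 hI.c2 dis1 dis2 hI.d (he a)
        (tch_mono (ht a).1 subset_rfl hI.s1) (tch_mono (ht a).2 subset_rfl hI.s2) (hfin a)
    refine ⟨Y1, Y2, Function.update p a p', Function.update Q a Q', hI.s1.trans h1,
      hI.s2.trans h3, ?_, ?_, h5, h6, h7, ?_⟩
    · intro z hz
      rcases h2 hz with h | h
      · rcases hI.u1 z h with h | ⟨i, hi, h⟩
        · exact Or.inl h
        · exact Or.inr ⟨i, by omega, h⟩
      · exact Or.inr ⟨a, by omega, h⟩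
    · intro z hz
      rcases h4 hz with h | h
      · rcases hI.u2 z h with h | ⟨i, hi, h⟩
        · exact Or.inl h
        · exact Or.inr ⟨i, by omega, h⟩
      · exact Or.inr ⟨a, by omega, h⟩
    · intro i hi
      by_cases hia : i = a
      · subst hia
        rw [Function.update_self, Function.update_self]
        exact ⟨h8, h9, h10, h11, h12, h13, h14, h15⟩
      · rw [Function.update_of_ne hia, Function.update_of_ne hia]
        have him : i.val < m := by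
          have : i.val ≠ m := fun h => hia (Fin.ext (h.trans ha.symm))
          omega
        obtain ⟨g1, g2, g3, g4, g5, g6, g7, g8⟩ := hI.q i him
        refine ⟨g1, g2, g3, g4, ?_, ?_, tch_mono g7 subset_rfl h1, tch_mono g8 subset_rfl h3⟩
        · rw [Set.disjoint_left]
          intro z hz hz1
          rcases h2 hz1 with h | h
          · exact Set.disjoint_left.mp g5 hz h
          · exact Set.disjoint_left.mp (hSS i a hia) (g1 hz) h
        · rw [Set.disjoint_left]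
          intro z hz hz1
          rcases h4 hz1 with h | h
          · exact Set.disjoint_left.mp g6 hz h
          · exact Set.disjoint_left.mp (hSS i a hia) (g1 hz) h

theorem mem3 (Sx : Fin 3 → Set V) (i : Fin 3) {z : V} (h : z ∈ Sx i) :
    z ∈ Sx 0 ∪ Sx 1 ∪ Sx 2 := by
  fin_cases i
  · exact Or.inl (Or.inl h)
  · exact Or.inl (Or.inr h)
  · exact Or.inr h

end ST3_

open ST3_ in
theorem st3_proof (h1 : Stmt_SNG) (h2 : Stmt_ST2) : Stmt_ST3 := by
  intro V H τ Co T1 T2 Sx L e hFC hf1 hf2 hfS hc1 hc2 hcS hT1 hT2 hSx hT hST hSS ht hL he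
  obtain ⟨X1, X2, p, Q, hI⟩ := step h1 H T1 T2 Sx e hfS hT1 hT2 hSx hT hST hSS ht he 3 le_rfl
  have hq := fun i : Fin 3 => hI.q i i.isLt
  have hQQ : ∀ i j, i ≠ j → Disjoint (Q i) (Q j) := fun i j hij =>
    (hSS i j hij).mono (hq i).1 (hq j).1
  have hpS : ∀ i, p i ∈ Sx i := fun i => (hq i).1 (hq i).2.2.2.1
  have hsub1 : X1 ⊆ T1 ∪ T2 ∪ (Sx 0 ∪ Sx 1 ∪ Sx 2) := by
    intro z hz
    rcases hI.u1 z hz with h | ⟨i, -, h⟩
    · exact Or.inl (Or.inl h)
    · exact Or.inr (mem3 Sx i h)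
  have hsub2 : X2 ⊆ T1 ∪ T2 ∪ (Sx 0 ∪ Sx 1 ∪ Sx 2) := by
    intro z hz
    rcases hI.u2 z hz with h | ⟨i, -, h⟩
    · exact Or.inl (Or.inr h)
    · exact Or.inr (mem3 Sx i h)
  have hfinB : (T1 ∪ T2 ∪ (Sx 0 ∪ Sx 1 ∪ Sx 2)).Finite :=
    (hf1.union hf2).union (((hfS 0).union (hfS 1)).union (hfS 2))
  have hBCo : T1 ∪ T2 ∪ (Sx 0 ∪ Sx 1 ∪ Sx 2) ⊆ Co := by
    rintro z ((h | h) | ((h | h) | h))
    · exact hc1 h
    · exact hc2 h
    · exact hcS 0 h
    · exact hcS 1 h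
    · exact hcS 2 h
  have heL : ∀ i, e i ∈ L i := fun i => by
    have : e i ∈ L i ∩ (T1 ∪ T2 ∪ (Sx 0 ∪ Sx 1 ∪ Sx 2)) := by
      rw [hL.b i]
      exact Set.mem_singleton _
    exact this.1
  have hLB : ∀ i z, z ∈ L i → z ∈ T1 ∪ T2 ∪ (Sx 0 ∪ Sx 1 ∪ Sx 2) → z = e i := by
    intro i z hz hzB
    have : z ∈ L i ∩ (T1 ∪ T2 ∪ (Sx 0 ∪ Sx 1 ∪ Sx 2)) := ⟨hz, hzB⟩
    rw [hL.b i] at this
    exact this
  refine h2 V H τ Co X1 X2 p (fun i => L i ∪ Q i) hFC (hfinB.subset hsub1) (hfinB.subset hsub2)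
    (hsub1.trans hBCo) (hsub2.trans hBCo) (fun i => hcS i (hpS i)) hI.c1 hI.c2 hI.d ?_ ?_
    (fun i => ⟨(hq i).2.2.2.2.2.2.1, (hq i).2.2.2.2.2.2.2⟩) ?_
  · intro i j hij
    by_contra hne
    have h := hpS j
    rw [← hij] at h
    exact Set.disjoint_left.mp (hSS i j hne) (hpS i) h
  · intro i
    exact ⟨fun h => Set.disjoint_left.mp (hq i).2.2.2.2.1 (hq i).2.2.2.1 h,
      fun h => Set.disjoint_left.mp (hq i).2.2.2.2.2.1 (hq i).2.2.2.1 h⟩
  · refine ⟨?_, ?_, ?_, ?_, ?_⟩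
    · intro i
      exact Cn.union (hL.cn i) (hq i).2.1 ⟨e i, heL i, e i, (hq i).2.2.1, Or.inr rfl⟩
    · intro i
      exact (hL.fin i).union ((hfS i).subset (hq i).1)
    · intro i j hij
      rw [Set.disjoint_left]
      rintro z (hz | hz) (hz' | hz')
      · exact Set.disjoint_left.mp (hL.dis i j hij) hz hz'
      · have h3 : z ∈ Sx j := (hq j).1 hz'
        have h4 := hLB i z hz (Or.inr (mem3 Sx j h3))
        rw [h4] at h3
        exact Set.disjoint_left.mp (hSS i j hij) (he i) h3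
      · have h3 : z ∈ Sx i := (hq i).1 hz
        have h4 := hLB j z hz' (Or.inr (mem3 Sx i h3))
        rw [h4] at h3
        exact Set.disjoint_left.mp (hSS i j hij) h3 (he j)
      · exact Set.disjoint_left.mp (hQQ i j hij) hz hz'
    · intro i
      obtain ⟨z, hz, hz'⟩ := hL.a i
      exact ⟨z, Or.inl hz, hz'⟩
    · intro i
      apply Set.Subset.antisymm
      · rintro z ⟨hz, hz'⟩
        have hzB : z ∈ T1 ∪ T2 ∪ (Sx 0 ∪ Sx 1 ∪ Sx 2) := by
          rcases hz' with (h | h) | ⟨j, rfl⟩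
          · exact hsub1 h
          · exact hsub2 h
          · exact Or.inr (mem3 Sx j (hpS j))
        have hzQ : z ∈ Q i := by
          rcases hz with h | h
          · rw [hLB i z h hzB]
            exact (hq i).2.2.1
          · exact h
        rcases hz' with (h | h) | ⟨j, rfl⟩
        · exact absurd h (Set.disjoint_left.mp (hq i).2.2.2.2.1 hzQ)
        · exact absurd h (Set.disjoint_left.mp (hq i).2.2.2.2.2.1 hzQ)
        · by_cases hij : i = j
          · rw [hij]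
            exact Set.mem_singleton _
          · exact absurd (hq j).2.2.2.1 (Set.disjoint_left.mp (hQQ i j hij) hzQ)
      · rintro z hz
        rw [Set.mem_singleton_iff] at hz
        subst hz
        exact ⟨Or.inr (hq i).2.2.2.1, Or.inr ⟨i, rfl⟩⟩

end Pool.Agent.PT2
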