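import Pool.Agent.PT2.Stmts

/-!
MP_851278_al, module STA: two legs at adjacent sets.
-/

set_option autoImplicit false

namespace Pool.Agent.PT2

open Pool.Agent.ACC Pool.Agent.KUR

theorem sta_proof (h1 : Stmt_SNG) (h2 : Stmt_ST1) : Stmt_STA := by
  intro V H τ Co A B L e hFC hA hB hAA hAB ht hL he0 he1
  have hL0 := hL.b 0
  have hL1 := hL.b 1
  have meL0 : e 0 ∈ L 0 := by
    have : e 0 ∈ L 0 ∩ ((⋃ i, A i) ∪ ⋃ i, B i) := by rw [hL0]; rfl
    exact this.1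
  have meL1 : e 1 ∈ L 1 := by
    have : e 1 ∈ L 1 ∩ ((⋃ i, A i) ∪ ⋃ i, B i) := by rw [hL1]; rfl
    exact this.1
  have uL0 : ∀ z ∈ L 0, z ∈ (⋃ i, A i) ∪ ⋃ i, B i → z = e 0 := by
    intro z hz hzU
    have : z ∈ L 0 ∩ ((⋃ i, A i) ∪ ⋃ i, B i) := ⟨hz, hzU⟩
    rw [hL0] at this
    exact this
  have uL1 : ∀ z ∈ L 1, z ∈ (⋃ i, A i) ∪ ⋃ i, B i → z = e 1 := by
    intro z hz hzU
    have : z ∈ L 1 ∩ ((⋃ i, A i) ∪ ⋃ i, B i) := ⟨hz, hzU⟩
    rw [hL1] at this
    exact this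
  have inA : ∀ i, A i ⊆ (⋃ i, A i) ∪ ⋃ i, B i := fun i z hz => Or.inl (Set.mem_iUnion.2 ⟨i, hz⟩)
  have inB : ∀ i, B i ⊆ (⋃ i, A i) ∪ ⋃ i, B i := fun i z hz => Or.inr (Set.mem_iUnion.2 ⟨i, hz⟩)
  have nAA : ∀ i j z, i ≠ j → z ∈ A i → z ∈ A j → False := fun i j z hij h h' =>
    Set.disjoint_left.1 (hAA i j hij).1 h h'
  have nBB : ∀ i j z, i ≠ j → z ∈ B i → z ∈ B j → False := fun i j z hij h h' =>
    Set.disjoint_left.1 (hAA i j hij).2 h h'
  have nAB : ∀ i j z, z ∈ A i → z ∈ B j → False := fun i j z h h' =>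
    Set.disjoint_left.1 (hAB i j) h h'
  have t' : ∀ i j, (i, j) ≠ ((0 : Fin 3), (0 : Fin 3)) → Tch H (B j) (A i) := by
    intro i j hij
    obtain ⟨x, hx, y, hy, hxy⟩ := ht i j hij
    exact ⟨y, hy, x, hx, hxy.symm⟩
  obtain ⟨a, Q, B1, B2, a1, a2, a3, a4, a5, a6, a7, a8, a9, a10, a11, a12, a13, a14, a15⟩ :=
    h1 V H (A 0) (B 1) (B 2) (e 0) (hA 0).2.2 (hB 1).2.2 (hB 2).2.2 (hAB 0 1) (hAB 0 2)
      (hAA 1 2 (by decide)).2 he0 (ht 0 1 (by decide)) (ht 0 2 (by decide)) (hA 0).1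
  obtain ⟨b, Q', A1, A2, b1, b2, b3, b4, b5, b6, b7, b8, b9, b10, b11, b12, b13, b14, b15⟩ :=
    h1 V H (B 0) (A 1) (A 2) (e 1) (hB 0).2.2 (hA 1).2.2 (hA 2).2.2 (hAB 1 0).symm (hAB 2 0).symm
      (hAA 1 2 (by decide)).1 he1 (t' 1 0 (by decide)) (t' 2 0 (by decide)) (hB 0).1
  have haA : a ∈ A 0 := a8 a11
  have hbB : b ∈ B 0 := b8 b11
  -- points of the new sets
  have kA1 : ∀ z ∈ A1, z ∈ A 1 ∨ z ∈ B 0 := fun z hz => b2 hz
  have kA2 : ∀ z ∈ A2, z ∈ A 2 ∨ z ∈ B 0 := fun z hz => b4 hz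
  have kB1 : ∀ z ∈ B1, z ∈ B 1 ∨ z ∈ A 0 := fun z hz => a2 hz
  have kB2 : ∀ z ∈ B2, z ∈ B 2 ∨ z ∈ A 0 := fun z hz => a4 hz
  have dd : ∀ (i j : Fin 3), i ≠ 0 → j ≠ 0 → ∀ z, (z ∈ A i ∨ z ∈ B 0) → (z ∈ B j ∨ z ∈ A 0) →
      False := by
    rintro i j hi hj z (hz | hz) (hz' | hz')
    · exact nAB _ _ z hz hz'
    · exact nAA _ _ z hi hz hz'
    · exact nBB _ _ z hj.symm hz hz'
    · exact nAB _ _ z hz' hz
  have frame : Frame H Co a b A1 A2 B1 B2 := by
    refine ⟨⟨?_, ?_, ?_, ?_⟩, ⟨?_, ?_, ?_, ?_, ?_, ?_⟩, ⟨b5, b6, a5, a6⟩, ?_, ⟨?_, ?_, ?_, ?_⟩,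
      ⟨?_, ?_, ?_, ?_⟩, ⟨b7, ?_, ?_, ?_, ?_, a7⟩, ⟨a14, a15⟩, ⟨b14, b15⟩, ⟨?_, ?_, ?_, ?_⟩⟩
    · exact ((hA 1).1.union (hB 0).1).subset b2
    · exact ((hA 2).1.union (hB 0).1).subset b4
    · exact ((hB 1).1.union (hA 0).1).subset a2
    · exact ((hB 2).1.union (hA 0).1).subset a4
    · exact (hA 0).2.1 haA
    · exact (hB 0).2.1 hbB
    · exact b2.trans (Set.union_subset (hA 1).2.1 (hB 0).2.1)
    · exact b4.trans (Set.union_subset (hA 2).2.1 (hB 0).2.1)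
    · exact a2.trans (Set.union_subset (hB 1).2.1 (hA 0).2.1)
    · exact a4.trans (Set.union_subset (hB 2).2.1 (hA 0).2.1)
    · rintro rfl
      exact nAB _ _ _ haA hbB
    · intro h
      rcases kA1 _ h with h | h
      · exact nAA 0 1 a (by decide) haA h
      · exact nAB _ _ _ haA h
    · intro h
      rcases kA2 _ h with h | h
      · exact nAA 0 2 a (by decide) haA h
      · exact nAB _ _ _ haA h
    · exact fun h => Set.disjoint_left.1 a12 a11 h
    · exact fun h => Set.disjoint_left.1 a13 a11 h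
    · exact fun h => Set.disjoint_left.1 b12 b11 h
    · exact fun h => Set.disjoint_left.1 b13 b11 h
    · intro h
      rcases kB1 _ h with h | h
      · exact nBB 0 1 b (by decide) hbB h
      · exact nAB _ _ _ h hbB
    · intro h
      rcases kB2 _ h with h | h
      · exact nBB 0 2 b (by decide) hbB h
      · exact nAB _ _ _ h hbB
    · exact Set.disjoint_left.2 fun z h h' => dd 1 1 (by decide) (by decide) z (kA1 z h) (kB1 z h')
    · exact Set.disjoint_left.2 fun z h h' => dd 1 2 (by decide) (by decide) z (kA1 z h) (kB2 z h')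
    · exact Set.disjoint_left.2 fun z h h' => dd 2 1 (by decide) (by decide) z (kA2 z h) (kB1 z h')
    · exact Set.disjoint_left.2 fun z h h' => dd 2 2 (by decide) (by decide) z (kA2 z h) (kB2 z h')
    · obtain ⟨x, hx, y, hy, hxy⟩ := ht 1 1 (by decide)
      exact ⟨x, b1 hx, y, a1 hy, hxy⟩
    · obtain ⟨x, hx, y, hy, hxy⟩ := ht 1 2 (by decide)
      exact ⟨x, b1 hx, y, a3 hy, hxy⟩
    · obtain ⟨x, hx, y, hy, hxy⟩ := ht 2 1 (by decide)
      exact ⟨x, b3 hx, y, a1 hy, hxy⟩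
    · obtain ⟨x, hx, y, hy, hxy⟩ := ht 2 2 (by decide)
      exact ⟨x, b3 hx, y, a3 hy, hxy⟩
  -- the new union is inside the old one
  have hsub : ({a, b} ∪ (A1 ∪ A2 ∪ (B1 ∪ B2)) : Set V) ⊆ (⋃ i, A i) ∪ ⋃ i, B i := by
    rintro z ((rfl | rfl) | ((hz | hz) | (hz | hz)))
    · exact inA 0 haA
    · exact inB 0 hbB
    · rcases kA1 z hz with h | h
      · exact inA 1 h
      · exact inB 0 h
    · rcases kA2 z hz with h | h
      · exact inA 2 h
      · exact inB 0 h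
    · rcases kB1 z hz with h | h
      · exact inB 1 h
      · exact inA 0 h
    · rcases kB2 z hz with h | h
      · exact inB 2 h
      · exact inA 0 h
  have hQ : ∀ z ∈ Q, z ∈ ({a, b} ∪ (A1 ∪ A2 ∪ (B1 ∪ B2)) : Set V) → z = a := by
    intro z hz hzU
    have hzA : z ∈ A 0 := a8 hz
    rcases hzU with (h | h) | ((h | h) | (h | h))
    · exact h
    · exact (nAB 0 0 z hzA (by rw [Set.mem_singleton_iff.1 h]; exact hbB)).elim
    · rcases kA1 z h with h | h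
      · exact (nAA 0 1 z (by decide) hzA h).elim
      · exact (nAB _ _ z hzA h).elim
    · rcases kA2 z h with h | h
      · exact (nAA 0 2 z (by decide) hzA h).elim
      · exact (nAB _ _ z hzA h).elim
    · exact (Set.disjoint_left.1 a12 hz h).elim
    · exact (Set.disjoint_left.1 a13 hz h).elim
  have hQ' : ∀ z ∈ Q', z ∈ ({a, b} ∪ (A1 ∪ A2 ∪ (B1 ∪ B2)) : Set V) → z = b := by
    intro z hz hzU
    have hzB : z ∈ B 0 := b8 hz
    rcases hzU with (h | h) | ((h | h) | (h | h))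
    · exact (nAB 0 0 z (by rw [h]; exact haA) hzB).elim
    · exact Set.mem_singleton_iff.1 h
    · exact (Set.disjoint_left.1 b12 hz h).elim
    · exact (Set.disjoint_left.1 b13 hz h).elim
    · rcases kB1 z h with h | h
      · exact (nBB 0 1 z (by decide) hzB h).elim
      · exact (nAB _ _ z h hzB).elim
    · rcases kB2 z h with h | h
      · exact (nBB 0 2 z (by decide) hzB h).elim
      · exact (nAB _ _ z h hzB).elim
  have lkg : Lkg H (Set.range τ) ({a, b} ∪ (A1 ∪ A2 ∪ (B1 ∪ B2))) ![L 0 ∪ Q, L 1 ∪ Q']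
      ![a, b] := by
    have dis01 : Disjoint (L 0 ∪ Q) (L 1 ∪ Q') := by
      rw [Set.disjoint_left]
      rintro z (hz | hz) (hz' | hz')
      · exact Set.disjoint_left.1 (hL.dis 0 1 (by decide)) hz hz'
      · have hzB : z ∈ B 0 := b8 hz'
        have := uL0 z hz (inB 0 hzB)
        rw [this] at hzB
        exact nAB _ _ _ he0 hzB
      · have hzA : z ∈ A 0 := a8 hz
        have := uL1 z hz' (inA 0 hzA)
        rw [this] at hzA
        exact nAB _ _ _ hzA he1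
      · exact nAB _ _ z (a8 hz) (b8 hz')
    refine ⟨?_, ?_, ?_, ?_, ?_⟩
    · rw [Fin.forall_fin_two]
      exact ⟨(hL.cn 0).union a9 ⟨e 0, meL0, e 0, a10, Or.inr rfl⟩,
        (hL.cn 1).union b9 ⟨e 1, meL1, e 1, b10, Or.inr rfl⟩⟩
    · rw [Fin.forall_fin_two]
      exact ⟨(hL.fin 0).union ((hA 0).1.subset a8), (hL.fin 1).union ((hB 0).1.subset b8)⟩
    · rw [Fin.forall_fin_two, Fin.forall_fin_two, Fin.forall_fin_two]
      exact ⟨⟨fun h => absurd rfl h, fun _ => dis01⟩, ⟨fun _ => dis01.symm,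
        fun h => absurd rfl h⟩⟩
    · rw [Fin.forall_fin_two]
      constructor
      · obtain ⟨z, hz, hz'⟩ := hL.a 0
        exact ⟨z, Or.inl hz, hz'⟩
      · obtain ⟨z, hz, hz'⟩ := hL.a 1
        exact ⟨z, Or.inl hz, hz'⟩
    · rw [Fin.forall_fin_two]
      constructor
      · ext z
        constructor
        · rintro ⟨hz | hz, hzU⟩
          · have := uL0 z hz (hsub hzU)
            rw [this] at hzU ⊢
            exact hQ _ a10 hzU
          · exact hQ z hz hzU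
        · intro hz
          have hz' : z = a := hz
          rw [hz']
          exact ⟨Or.inr a11, Or.inl (Or.inl rfl)⟩
      · ext z
        constructor
        · rintro ⟨hz | hz, hzU⟩
          · have := uL1 z hz (hsub hzU)
            rw [this] at hzU ⊢
            exact hQ' _ b10 hzU
          · exact hQ' z hz hzU
        · intro hz
          have hz' : z = b := hz
          rw [hz']
          exact ⟨Or.inr b11, Or.inl (Or.inr rfl)⟩
  exact h2 V H τ Co a b A1 A2 B1 B2 _ hFC frame lkg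

end Pool.Agent.PT2
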