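import Pool.Agent.PT2.Stmts

/-!
MP_851278_al, module STG: two legs ending at two single points of a `K_{3,3}`.
-/

set_option autoImplicit false

namespace Pool.Agent.PT2

open Pool.Agent.ACC Pool.Agent.KUR

namespace STG_

theorem key (h2 : Stmt_ST3) {V : Type} {H : SimpleGraph V} {τ : Fin 4 → V} {Co : Set V} {a b : V}
    {T1 T2 S3 U : Set V} {L : Fin 3 → Set V} {e : Fin 3 → V} (hFC : FC H τ Co)
    (ha : a ∈ Co) (hb : b ∈ Co) (hab : a ≠ b)
    (hT1 : T1.Finite ∧ T1 ⊆ Co ∧ Cn H T1) (hT2 : T2.Finite ∧ T2 ⊆ Co ∧ Cn H T2)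
    (hS3 : S3.Finite ∧ S3 ⊆ Co ∧ Cn H S3) (a1 : a ∉ T1) (a2 : a ∉ T2) (a3 : a ∉ S3)
    (b1 : b ∉ T1) (b2 : b ∉ T2) (b3 : b ∉ S3) (d12 : Disjoint T1 T2) (d31 : Disjoint S3 T1)
    (d32 : Disjoint S3 T2) (ta : Tch H {a} T1 ∧ Tch H {a} T2) (tb : Tch H {b} T1 ∧ Tch H {b} T2)
    (tS : Tch H S3 T1 ∧ Tch H S3 T2) (haU : a ∈ U) (hbU : b ∈ U) (hT1U : T1 ⊆ U) (hT2U : T2 ⊆ U)
    (hS3U : S3 ⊆ U) (hL : Lkg H (Set.range τ) U L e) (e0 : e 0 = a) (e1 : e 1 = b)
    (e2 : e 2 ∈ S3) : Cross H τ := by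
  refine h2 V H τ Co T1 T2 ![{a}, {b}, S3] L e hFC hT1.1 hT2.1 ?_ hT1.2.1 hT2.2.1 ?_ hT1.2.2
    hT2.2.2 ?_ d12 ?_ ?_ ?_ ?_ ?_
  · intro i
    fin_cases i
    · exact Set.finite_singleton a
    · exact Set.finite_singleton b
    · exact hS3.1
  · intro i
    fin_cases i
    · exact Set.singleton_subset_iff.2 ha
    · exact Set.singleton_subset_iff.2 hb
    · exact hS3.2.1
  · intro i
    fin_cases i
    · exact cn_singleton H a
    · exact cn_singleton H b
    · exact hS3.2.2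
  · intro i
    fin_cases i
    · exact ⟨Set.disjoint_singleton_left.2 a1, Set.disjoint_singleton_left.2 a2⟩
    · exact ⟨Set.disjoint_singleton_left.2 b1, Set.disjoint_singleton_left.2 b2⟩
    · exact ⟨d31, d32⟩
  · have dab : Disjoint ({a} : Set V) {b} := by
      rw [Set.disjoint_singleton]
      exact hab
    have das : Disjoint ({a} : Set V) S3 := Set.disjoint_singleton_left.2 a3
    have dbs : Disjoint ({b} : Set V) S3 := Set.disjoint_singleton_left.2 b3
    intro i j hij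
    fin_cases i <;> fin_cases j
    · exact absurd rfl hij
    · exact dab
    · exact das
    · exact dab.symm
    · exact absurd rfl hij
    · exact dbs
    · exact das.symm
    · exact dbs.symm
    · exact absurd rfl hij
  · intro i
    fin_cases i
    · exact ta
    · exact tb
    · exact tS
  · refine ⟨hL.cn, hL.fin, hL.dis, hL.a, fun i => ?_⟩
    have hsub : (T1 ∪ T2 ∪ ({a} ∪ {b} ∪ S3) : Set V) ⊆ U := by
      rintro z ((hz | hz) | ((hz | hz) | hz))
      · exact hT1U hz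
      · exact hT2U hz
      · rw [Set.mem_singleton_iff.1 hz]
        exact haU
      · rw [Set.mem_singleton_iff.1 hz]
        exact hbU
      · exact hS3U hz
    have hmem : e i ∈ (T1 ∪ T2 ∪ ({a} ∪ {b} ∪ S3) : Set V) := by
      fin_cases i
      · exact Or.inr (Or.inl (Or.inl e0))
      · exact Or.inr (Or.inl (Or.inr e1))
      · exact Or.inr (Or.inr e2)
    have hb := hL.b i
    change L i ∩ (T1 ∪ T2 ∪ ({a} ∪ {b} ∪ S3)) = {e i}
    ext z
    constructor
    · rintro ⟨hz1, hz2⟩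
      rw [← hb]
      exact ⟨hz1, hsub hz2⟩
    · intro hz
      have h3 : z ∈ L i ∩ U := by rw [hb]; exact hz
      rw [Set.mem_singleton_iff] at hz
      subst hz
      exact ⟨h3.1, hmem⟩
  · intro i
    fin_cases i
    · exact e0
    · exact e1
    · exact e2

end STG_

theorem stg_proof (h1 : Stmt_MEE) (h2 : Stmt_ST3) : Stmt_STG := by
  intro V H τ Co a b D B L hFC ha hb hab hD hB haD hbD hdB hBB ht hL
  set U : Set V := {a, b} ∪ (D ∪ ⋃ i, B i) with hU
  have haU : a ∈ U := Or.inl (Or.inl rfl)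
  have hbU : b ∈ U := Or.inl (Or.inr rfl)
  have hDU : D ⊆ U := fun z hz => Or.inr (Or.inl hz)
  have hBU : ∀ i, B i ⊆ U := fun i z hz => Or.inr (Or.inr (Set.mem_iUnion.2 ⟨i, hz⟩))
  have hUfin : U.Finite := by
    refine Set.Finite.union (Set.toFinite _) (hD.1.union ?_)
    exact Set.finite_iUnion (fun i => (hB i).1)
  have hUC : U ⊆ Co := by
    rintro z ((rfl | rfl) | (hz | hz))
    · exact ha
    · exact hb
    · exact hD.2.1 hz
    · obtain ⟨i, hi⟩ := Set.mem_iUnion.1 hz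
      exact (hB i).2.1 hi
  obtain ⟨L', e', hL', he'⟩ := h1 V H (Set.range τ) U 2 L ![a, b] (Set.finite_range τ) hUfin hL (by
    intro X hX hcard
    obtain ⟨d, hd⟩ := hD.2.2.1
    have h4 : ∃ y ∈ U, y ∉ X := by
      by_contra hcon
      push Not at hcon
      have hsub : ({d, a, b} : Set V) ⊆ X := by
        rintro z (rfl | rfl | rfl)
        · exact hcon _ (hDU hd)
        · exact hcon _ haU
        · exact hcon _ hbU
      have h5 := Set.ncard_le_ncard hsub hX
      have h6 : ({d, a, b} : Set V).ncard = 3 := by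
        rw [Set.ncard_eq_three]
        refine ⟨d, a, b, ?_, ?_, hab, rfl⟩
        · rintro rfl
          exact haD hd
        · rintro rfl
          exact hbD hd
      omega
    obtain ⟨y, hy, hyX⟩ := h4
    obtain ⟨i, hi, hr⟩ := hFC.2 X hX (by omega) y (hUC hy) hyX
    exact ⟨τ i, ⟨i, rfl⟩, y, hy, hr.symm⟩)
  have e0 : e' 0 = a := he' 0
  have e1 : e' 1 = b := he' 1
  have me : ∀ i, e' i ∈ L' i ∧ e' i ∈ U := by
    intro i
    have : e' i ∈ L' i ∩ U := by rw [hL'.b i]; rfl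
    exact this
  have e2 := (me 2).2
  have n0 : e' 2 ≠ a := by
    intro h
    have h3 := (me 2).1
    rw [h, ← e0] at h3
    exact Set.disjoint_left.1 (hL'.dis 0 2 (by decide)) (me 0).1 h3
  have n1 : e' 2 ≠ b := by
    intro h
    have h3 := (me 2).1
    rw [h, ← e1] at h3
    exact Set.disjoint_left.1 (hL'.dis 1 2 (by decide)) (me 1).1 h3
  rcases e2 with (h | h) | (h | h)
  · exact absurd h n0
  · exact absurd h n1
  · exact STG_.key h2 hFC ha hb hab (hB 0) (hB 1) hD (hdB 0).1 (hdB 1).1 haD (hdB 0).2.1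
      (hdB 1).2.1 hbD (hBB 0 1 (by decide)) (hdB 0).2.2 (hdB 1).2.2 ⟨(ht 0).1, (ht 1).1⟩
      ⟨(ht 0).2.1, (ht 1).2.1⟩ ⟨(ht 0).2.2, (ht 1).2.2⟩ haU hbU (hBU 0) (hBU 1) hDU hL' e0 e1 h
  · obtain ⟨i, hi⟩ := Set.mem_iUnion.1 h
    have main : ∀ j k : Fin 3, j ≠ k → i ≠ j → i ≠ k → Cross H τ := by
      intro j k hjk hij hik
      have hcn : Cn H (B i ∪ D) := by
        obtain ⟨x, hx, y, hy, hxy⟩ := (ht i).2.2
        exact (hB i).2.2.union hD.2.2 ⟨y, hy, x, hx, Or.inl hxy.symm⟩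
      have tt : ∀ j, Tch H (B i ∪ D) (B j) := by
        intro j
        obtain ⟨x, hx, y, hy, hxy⟩ := (ht j).2.2
        exact ⟨x, Or.inr hx, y, hy, hxy⟩
      refine STG_.key h2 hFC ha hb hab (hB j) (hB k)
        ⟨(hB i).1.union hD.1, Set.union_subset (hB i).2.1 hD.2.1, hcn⟩ (hdB j).1 (hdB k).1 ?_
        (hdB j).2.1 (hdB k).2.1 ?_ (hBB j k hjk) ?_ ?_ ⟨(ht j).1, (ht k).1⟩
        ⟨(ht j).2.1, (ht k).2.1⟩ ⟨tt j, tt k⟩ haU hbU (hBU j) (hBU k)
        (Set.union_subset (hBU i) hDU) hL' e0 e1 (Or.inl hi)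
      · rintro (h | h)
        · exact (hdB i).1 h
        · exact haD h
      · rintro (h | h)
        · exact (hdB i).2.1 h
        · exact hbD h
      · exact Set.disjoint_union_left.2 ⟨hBB i j hij, (hdB j).2.2⟩
      · exact Set.disjoint_union_left.2 ⟨hBB i k hik, (hdB k).2.2⟩
    have hi3 : i = 0 ∨ i = 1 ∨ i = 2 := by omega
    rcases hi3 with rfl | rfl | rfl
    · exact main 1 2 (by decide) (by decide) (by decide)
    · exact main 0 2 (by decide) (by decide) (by decide)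
    · exact main 0 1 (by decide) (by decide) (by decide)

end Pool.Agent.PT2
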