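import Pool.Agent.PT2.Stmts

set_option autoImplicit false

namespace Pool.Agent.PT2

open Pool.Agent.ACC Pool.Agent.KUR

namespace STH_

theorem fin3 {P : Fin 3 → Prop} (h0 : P 0) (h1 : P 1) (h2 : P 2) : ∀ i, P i := by
  intro i
  fin_cases i
  · exact h0
  · exact h1
  · exact h2

theorem exists_others (i : Fin 3) : ∃ j k : Fin 3, i ≠ j ∧ i ≠ k ∧ j ≠ k ∧
    ∀ l, l = i ∨ l = j ∨ l = k := by
  revert i
  decide

theorem union_eq {V : Type} (B : Fin 3 → Set V) (i j k : Fin 3) (a b : V)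
    (h : ∀ l, l = i ∨ l = j ∨ l = k) :
    ({a, b} ∪ ⋃ l, B l : Set V) = B j ∪ B k ∪ ({a} ∪ {b} ∪ B i) := by
  ext x
  simp only [Set.mem_union, Set.mem_insert_iff, Set.mem_singleton_iff, Set.mem_iUnion]
  constructor
  · rintro ((h1 | h1) | ⟨l, hl⟩)
    · exact Or.inr (Or.inl (Or.inl h1))
    · exact Or.inr (Or.inl (Or.inr h1))
    · rcases h l with h2 | h2 | h2
      · subst h2; exact Or.inr (Or.inr hl)
      · subst h2; exact Or.inl (Or.inl hl)
      · subst h2; exact Or.inl (Or.inr hl)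
  · rintro ((h1 | h1) | ((h1 | h1) | h1))
    · exact Or.inr ⟨j, h1⟩
    · exact Or.inr ⟨k, h1⟩
    · exact Or.inl (Or.inl h1)
    · exact Or.inl (Or.inr h1)
    · exact Or.inr ⟨i, h1⟩

end STH_

open STH_ in
theorem sth_proof (hM : Stmt_MEE) (hS : Stmt_ST3) : Stmt_STH := by
  intro V H τ Co a b B L hFC ha hb hab hB hn hd ht hL
  have hBfin : (({a, b} ∪ ⋃ i, B i : Set V)).Finite := by
    refine Set.Finite.union (by simp) (Set.finite_iUnion fun i => (hB i).1)
  obtain ⟨c, hc⟩ := (hB 0).2.2.1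
  have hca : c ≠ a := by rintro rfl; exact (hn 0).1 hc
  have hcb : c ≠ b := by rintro rfl; exact (hn 0).2 hc
  obtain ⟨L', e', hL', he'⟩ := hM V H (Set.range τ) ({a, b} ∪ ⋃ i, B i) 2 L ![a, b]
    (Set.finite_range τ) hBfin hL (by
      intro X hX hX2
      have : ∃ y ∈ ({a, b, c} : Set V), y ∉ X := by
        by_contra hcon
        push Not at hcon
        have h3 : ({a, b, c} : Set V) ⊆ X := hcon
        have h4 := Set.ncard_le_ncard h3 hX
        have h5 : ({a, b, c} : Set V).ncard = 3 := by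
          rw [Set.ncard_eq_three]
          exact ⟨a, b, c, hab, hca.symm, hcb.symm, rfl⟩
        omega
      obtain ⟨y, hy, hyX⟩ := this
      have hyCo : y ∈ Co := by
        rcases hy with rfl | rfl | rfl
        · exact ha
        · exact hb
        · exact (hB 0).2.1 hc
      have hyB : y ∈ ({a, b} ∪ ⋃ i, B i : Set V) := by
        rcases hy with rfl | rfl | rfl
        · exact Or.inl (Or.inl rfl)
        · exact Or.inl (Or.inr rfl)
        · exact Or.inr (Set.mem_iUnion.2 ⟨0, hc⟩)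
      obtain ⟨i, hi, hr⟩ := hFC.2 X hX (by omega) y hyCo hyX
      exact ⟨τ i, ⟨i, rfl⟩, y, hyB, hr.symm⟩)
  have e0 : e' 0 = a := by simpa using he' 0
  have e1 : e' 1 = b := by simpa using he' 1
  have hmem : ∀ i, e' i ∈ L' i ∧ e' i ∈ ({a, b} ∪ ⋃ i, B i : Set V) := by
    intro i
    have : e' i ∈ L' i ∩ ({a, b} ∪ ⋃ i, B i : Set V) := by rw [hL'.b i]; rfl
    exact this
  have h2a : e' 2 ≠ a := by
    intro h
    exact Set.disjoint_left.1 (hL'.dis 2 0 (by decide)) (hmem 2).1 (by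
      rw [h, ← e0]; exact (hmem 0).1)
  have h2b : e' 2 ≠ b := by
    intro h
    exact Set.disjoint_left.1 (hL'.dis 2 1 (by decide)) (hmem 2).1 (by
      rw [h, ← e1]; exact (hmem 1).1)
  have h2 : ∃ i, e' 2 ∈ B i := by
    rcases (hmem 2).2 with (h | h) | h
    · exact absurd h h2a
    · exact absurd h h2b
    · exact Set.mem_iUnion.1 h
  obtain ⟨i, hi⟩ := h2
  obtain ⟨j, k, hij, hik, hjk, hall⟩ := exists_others i
  rw [union_eq B i j k a b hall] at hL'
  refine hS V H τ Co (B j) (B k) ![{a}, {b}, B i] L' e' hFC (hB j).1 (hB k).1 ?_ (hB j).2.1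
    (hB k).2.1 ?_ (hB j).2.2 (hB k).2.2 ?_ (hd j k hjk).1 ?_ ?_ ?_ hL' ?_
  · exact fin3 (Set.finite_singleton a) (Set.finite_singleton b) (hB i).1
  · exact fin3 (by simpa using ha) (by simpa using hb) (hB i).2.1
  · exact fin3 (cn_singleton H a) (cn_singleton H b) (hB i).2.2
  · refine fin3 ⟨?_, ?_⟩ ⟨?_, ?_⟩ ⟨(hd i j hij).1, (hd i k hik).1⟩
    · exact Set.disjoint_singleton_left.2 (hn j).1
    · exact Set.disjoint_singleton_left.2 (hn k).1
    · exact Set.disjoint_singleton_left.2 (hn j).2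
    · exact Set.disjoint_singleton_left.2 (hn k).2
  · have d01 : Disjoint ({a} : Set V) {b} := Set.disjoint_singleton.2 hab
    have d02 : Disjoint ({a} : Set V) (B i) := Set.disjoint_singleton_left.2 (hn i).1
    have d12 : Disjoint ({b} : Set V) (B i) := Set.disjoint_singleton_left.2 (hn i).2
    refine fin3 (fin3 ?_ ?_ ?_) (fin3 ?_ ?_ ?_) (fin3 ?_ ?_ ?_)
    · intro h; exact absurd rfl h
    · intro _; exact d01
    · intro _; exact d02
    · intro _; exact d01.symm
    · intro h; exact absurd rfl h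
    · intro _; exact d12
    · intro _; exact d02.symm
    · intro _; exact d12.symm
    · intro h; exact absurd rfl h
  · exact fin3 ⟨(ht j).1, (ht k).1⟩ ⟨(ht j).2, (ht k).2⟩ ⟨(hd i j hij).2, (hd i k hik).2⟩
  · exact fin3 (by simp [e0]) (by simp [e1]) hi

end Pool.Agent.PT2
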