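import Pool.Agent.PT2.Stmts
import Pool.Agent.ACC.LibB

set_option autoImplicit false

namespace Pool.Agent.PT2

open Pool.Agent.ACC Pool.Agent.KUR

namespace STP_

variable {V : Type}

theorem path_exit {P : SimpleGraph V} {x y z : V} (p : P.Walk x y) (hp : p.IsPath) (Z : Set V)
    (hz : z ∈ p.support) (hzx : z ≠ x) (hzZ : z ∈ Z) (hy : y ∉ Z) :
    ∃ y1 y2, P.Adj y1 y2 ∧ y1 ∈ Z ∧ y2 ∉ Z ∧ y1 ∈ p.support ∧ y2 ∈ p.support ∧
      y1 ≠ x ∧ y2 ≠ x := by
  classical
  cases p with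
  | nil =>
    simp at hz
    exact absurd hz hzx
  | @cons _ u _ h p' =>
    have hz' : z ∈ p'.support := by
      simpa [hzx] using hz
    have hx : x ∉ p'.support := ((SimpleGraph.Walk.cons_isPath_iff h p').mp hp).2
    have hr : Rch P {v | v ∈ p'.support} z y :=
      ⟨p'.dropUntil z hz', fun v hv => p'.support_dropUntil_subset_support hz' hv⟩
    obtain ⟨u1, v1, h1, h2, h3, h4, h5, -⟩ := hr.exit Z hzZ hy
    refine ⟨u1, v1, h5, h1, h2, ?_, ?_, fun e => hx (e ▸ h3), fun e => hx (e ▸ h4)⟩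
    · rw [SimpleGraph.Walk.support_cons]
      exact List.mem_cons_of_mem _ h3
    · rw [SimpleGraph.Walk.support_cons]
      exact List.mem_cons_of_mem _ h4

theorem anti_le {A : ℕ → Set V} (h : ∀ k, A (k + 1) ⊆ A k) {k l : ℕ} (hkl : k ≤ l) :
    A l ⊆ A k := by
  induction l, hkl using Nat.le_induction with
  | base => exact subset_rfl
  | succ l _ ih => exact (h l).trans ih

theorem leave_fin {A : ℕ → Set V} (h : ∀ k, A (k + 1) ⊆ A k) (hl : ∀ x, ∃ k, x ∉ A k)
    {N : Set V} (hN : N.Finite) : ∃ K, ∀ k, K ≤ k → ∀ x ∈ N, x ∉ A k := by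
  induction N, hN using Set.Finite.induction_on with
  | empty => exact ⟨0, by simp⟩
  | @insert b N _ _ ih =>
    obtain ⟨K, hK⟩ := ih
    obtain ⟨k1, hk1⟩ := hl b
    refine ⟨max K k1, fun k hk x hx => ?_⟩
    rcases Set.mem_insert_iff.mp hx with rfl | hx
    · exact fun h' => hk1 (anti_le h (le_trans (le_max_right _ _) hk) h')
    · exact hK k (le_trans (le_max_left _ _) hk) x hx

/-- the sequence of separators -/
theorem exists_seq {P : SimpleGraph V} {S : Set V} {A : ℕ → Set V} {c M μ k0 : ℕ}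
    (hc : Chain P S A c M)
    (h2 : ∀ k, k0 ≤ k → ∃ l, k < l ∧ ∃ F : Set V, F ⊆ S ∧ F.Finite ∧ F.ncard = μ ∧
      ∀ x ∈ S, x ∉ A k → ∀ y ∈ A l ∩ S, ¬ Rch P Fᶜ x y) :
    ∃ (n m : ℕ → ℕ) (F : ℕ → Set V), (∀ j, k0 ≤ n j ∧ n j < m j ∧ F j ⊆ S ∧ (F j).Finite ∧
      (F j).ncard = μ ∧ ∀ x ∈ S, x ∉ A (n j) → ∀ y ∈ A (m j) ∩ S, ¬ Rch P (F j)ᶜ x y) ∧
      (∀ j, m j ≤ n (j + 1)) ∧
      (∀ j, ∀ u ∈ F j, u ∉ A (n (j + 1)) ∧ ∀ u', P.Adj u u' → u' ∉ A (n (j + 1))) ∧
      ∀ j, j ≤ n j := by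
  choose! mc h3 Fc h4 using h2
  have hnext : ∀ k, k0 ≤ k → ∃ k', mc k ≤ k' ∧ k + 1 ≤ k' ∧
      ∀ u ∈ Fc k, u ∉ A k' ∧ ∀ u', P.Adj u u' → u' ∉ A k' := by
    intro k hk
    have hfin : (Fc k ∪ ⋃ u ∈ Fc k, P.neighborSet u).Finite :=
      (h4 k hk).2.1.union ((h4 k hk).2.1.biUnion (fun u _ => hc.lf u))
    obtain ⟨K, hK⟩ := leave_fin hc.anti hc.leave hfin
    refine ⟨max K (max (mc k) (k + 1)), le_trans (le_max_left _ _) (le_max_right _ _),
      le_trans (le_max_right _ _) (le_max_right _ _), fun u hu => ⟨?_, fun u' hu' => ?_⟩⟩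
    · exact hK _ (le_max_left _ _) u (Or.inl hu)
    · exact hK _ (le_max_left _ _) u' (Or.inr (Set.mem_biUnion hu hu'))
  choose! nc h5 h6 h7 using hnext
  let n : ℕ → ℕ := fun j => Nat.rec k0 (fun _ k => nc k) j
  have hn0 : n 0 = k0 := rfl
  have hns : ∀ j, n (j + 1) = nc (n j) := fun j => rfl
  have hnk : ∀ j, k0 ≤ n j ∧ j ≤ n j := by
    intro j
    induction j with
    | zero => exact ⟨le_of_eq hn0.symm, Nat.zero_le _⟩
    | succ j ih =>
      have := h6 (n j) ih.1
      rw [hns]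
      exact ⟨by omega, by omega⟩
  refine ⟨n, fun j => mc (n j), fun j => Fc (n j), fun j => ?_, fun j => ?_, fun j => ?_,
    fun j => (hnk j).2⟩
  · have := h4 (n j) (hnk j).1
    exact ⟨(hnk j).1, h3 _ (hnk j).1, this.1, this.2.1, this.2.2.1, this.2.2.2⟩
  · rw [hns]
    exact h5 _ (hnk j).1
  · rw [hns]
    exact h7 _ (hnk j).1

end STP_

open STP_ in
theorem stp_proof (hKAP : Stmt_KAP) (hMEN : Pool.Agent.ACC.Stmt_MEN) : Stmt_STP := by
  classical
  intro V P S A c M hc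
  obtain ⟨μ, k0, hMμ, K1, K2⟩ := hKAP V P S A c M hc
  obtain ⟨n, m, F, hF, hmn, hN, hjn⟩ := exists_seq hc K2
  -- the sets
  set W : ℕ → Set V := fun j => F j ∪ {y | y ∈ S ∧ ∃ z ∈ A (m j) ∩ S, Rch P (F j)ᶜ y z} with hW
  have hFW : ∀ j, F j ⊆ W j := fun j x hx => Or.inl hx
  have hWS : ∀ j, W j ⊆ S := by
    rintro j x (hx | hx)
    · exact (hF j).2.2.1 hx
    · exact hx.1
  have hA : ∀ {k l : ℕ}, k ≤ l → A l ⊆ A k := fun h => anti_le hc.anti h
  -- (b)
  have hb : ∀ j, ∀ y ∈ W j, y ∉ F j → y ∈ A (n j) := by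
    rintro j y (hy | ⟨hyS, z, hz, hr⟩) hyF
    · exact absurd hy hyF
    · by_contra h
      exact (hF j).2.2.2.2.2 y hyS h z hz hr
  -- (c)
  have hout : ∀ j x y, P.Adj x y → x ∈ W j → y ∉ W j → x ∈ F j := by
    rintro j x y hxy (hx | ⟨hxS, z, hz, hr⟩) hy
    · exact hx
    · exfalso
      have hyS : y ∈ S := hc.sup y x hxy.symm
      have hyF : y ∉ F j := fun h => hy (hFW j h)
      exact hy (Or.inr ⟨hyS, z, hz, (Rch.of_adj hyF hr.left hxy.symm).trans hr⟩)
  -- (d)
  have hd : ∀ j, ∀ x ∈ F j, x ∈ A (m j) ∨ ∃ x', P.Adj x x' ∧ x' ∉ F j ∧ x' ∈ W j := by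
    intro j x hx
    obtain ⟨x0, hx0S, hx0A, y0, hy0, w, hw⟩ := K1 (n j) (hF j).1 (m j) (F j \ {x})
      ((hF j).2.2.2.1.subset Set.sdiff_subset) (by
        have := Set.ncard_sdiff_singleton_lt_of_mem hx (hF j).2.2.2.1
        rw [(hF j).2.2.2.2.1] at this
        exact this)
    have hxw : x ∈ w.support := by
      by_contra hxw
      refine (hF j).2.2.2.2.2 x0 hx0S hx0A y0 hy0 ⟨w, fun z hz hzF => ?_⟩
      have hzx : z ≠ x := fun e => hxw (e ▸ hz)
      exact hw z hz ⟨hzF, hzx⟩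
    have hr : Rch P (F j \ {x})ᶜ x y0 :=
      ⟨w.dropUntil x hxw, fun v hv => hw v (w.support_dropUntil_subset_support hxw hv)⟩
    by_cases hxA : x ∈ A (m j)
    · exact Or.inl hxA
    · right
      have hy0x : y0 ≠ x := fun e => hxA (e ▸ hy0.1)
      have hy0F : y0 ∉ F j := fun h => hr.right ⟨h, hy0x⟩
      obtain ⟨u, v, h1, h2, h3, h4, h5, h6⟩ := hr.symm.exit (F j)ᶜ hy0F (fun h => h hx)
      have hvx : v = x := by
        by_contra hne
        exact h4 ⟨not_not.mp h2, hne⟩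
      subst hvx
      refine ⟨u, h5.symm, h1, Or.inr ⟨hc.sup u v h5, y0, hy0, ?_⟩⟩
      exact (h6.symm).mono le_rfl (fun z hz => hz.2)
  -- (e)
  have he : ∀ j, ∀ u ∈ F j, u ∉ W (j + 1) := by
    intro j u hu huW
    have h1 := (hN j u hu).1
    by_cases huF : u ∈ F (j + 1)
    · rcases hd (j + 1) u huF with h | ⟨x', hx', hx'F, hx'W⟩
      · exact h1 (hA (hF (j + 1)).2.1.le h)
      · exact (hN j u hu).2 x' hx' (hb (j + 1) x' hx'W hx'F)
    · exact h1 (hb (j + 1) u huW huF)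
  have hmm : ∀ j, m j ≤ m (j + 1) := fun j => (hmn j).trans (hF (j + 1)).2.1.le
  -- (f)
  have hf1 : ∀ j, ∀ y ∈ W (j + 1), y ∉ F (j + 1) → y ∈ W j := by
    rintro j y (hy | ⟨hyS, z, hz, hr⟩) hyF
    · exact absurd hy hyF
    · refine Or.inr ⟨hyS, z, ⟨hA (hmm j) hz.1, hz.2⟩, ?_⟩
      obtain ⟨w, hw⟩ := hr
      refine ⟨w, fun v hv hvF => he j v hvF (Or.inr ⟨?_, z, hz, ?_⟩)⟩
      · exact (hF j).2.2.1 hvF
      · exact ⟨w.dropUntil v hv, fun v' hv' => hw v' (w.support_dropUntil_subset_support hv hv')⟩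
  have hanti : ∀ j, W (j + 1) ⊆ W j := by
    intro j y hy
    by_cases hyF : y ∈ F (j + 1)
    · have hyFj : y ∉ F j := fun h => he j y h hy
      rcases hd (j + 1) y hyF with h | ⟨x', hx', hx'F, hx'W⟩
      · exact Or.inr ⟨hWS _ hy, y, ⟨hA (hmm j) h, hWS _ hy⟩, Rch.refl P hyFj⟩
      · have hx'Fj : x' ∉ F j := fun h => he j x' h hx'W
        rcases hf1 j x' hx'W hx'F with h | ⟨hS', z, hz, hr⟩
        · exact absurd h hx'Fj
        · exact Or.inr ⟨hWS _ hy, z, hz, (Rch.of_adj hyFj hx'Fj hx').trans hr⟩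
    · exact hf1 j y hy hyF
  -- (g)
  have hg : ∀ k, ∃ j0, ∀ j, j0 ≤ j → W j ⊆ A k := by
    intro k
    have hfin : {u : V | ∃ e ∈ bd P (A k), u ∈ e}.Finite := by
      have : {u : V | ∃ e ∈ bd P (A k), u ∈ e} = ⋃ e ∈ bd P (A k), {u : V | u ∈ e} := by
        ext u
        simp
      rw [this]
      refine (hc.bfin k).1.biUnion (fun e _ => ?_)
      induction e with
      | _ a b =>
        apply Set.Finite.subset (Set.toFinite {a, b})
        intro u hu
        have hu' : u ∈ s(a, b) := hu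
        rw [Sym2.mem_iff] at hu'
        rcases hu' with rfl | rfl <;> simp
    obtain ⟨K, hK⟩ := leave_fin hc.anti hc.leave hfin
    refine ⟨max K k, fun j hj x hx => ?_⟩
    have hjK : K ≤ n j := (le_trans (le_max_left _ _) hj).trans (hjn j)
    have hjk : k ≤ n j := (le_trans (le_max_right _ _) hj).trans (hjn j)
    by_cases hxF : x ∈ F j
    · rcases hd j x hxF with h | ⟨x', hx', hx'F, hx'W⟩
      · exact hA (hjk.trans (hF j).2.1.le) h
      · by_contra hxA
        have hx'A : x' ∈ A (n j) := hb j x' hx'W hx'F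
        have hx'k : x' ∈ A k := hA hjk hx'A
        exact hK (n j) hjK x' ⟨s(x', x), ⟨x', x, hx'.symm, hx'k, hxA, rfl⟩, by simp⟩ hx'A
    · exact hA hjk (hb j x hx hxF)
  -- (i) the tracks
  have hstep : ∀ (j : ℕ) (f : Fin μ → V), (Function.Injective f ∧ ∀ i, f i ∈ F j) →
      ∃ (g : Fin μ → V) (T : Fin μ → Set V), (Function.Injective g ∧ ∀ i, g i ∈ F (j + 1)) ∧
        (∀ i, Cn P (T i) ∧ f i ∈ T i ∧ g i ∈ T i ∧
          ∀ x ∈ T i, x = g i ∨ (x ∈ W j ∧ x ∉ W (j + 1))) ∧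
        ∀ i i', i ≠ i' → Disjoint (T i) (T i') := by
    intro j f ⟨hfi, hfF⟩
    obtain ⟨a, b, p, hp, hdis⟩ := hMEN V P (F j) (F (j + 1)) μ (hF j).2.2.2.1
      (hF (j + 1)).2.2.2.1 (by
        intro S' hS' hS'c
        obtain ⟨x0, hx0S, hx0A, y0, hy0, w, hw⟩ := K1 (n j) (hF j).1 (m (j + 1)) S' hS' hS'c
        -- the walk meets F j
        have h1 : ∃ u ∈ w.support, u ∈ F j := by
          by_contra hcon
          push Not at hcon
          exact (hF j).2.2.2.2.2 x0 hx0S hx0A y0 ⟨hA (hmm j) hy0.1, hy0.2⟩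
            ⟨w, fun v hv => hcon v hv⟩
        obtain ⟨u, huw, huF⟩ := h1
        have h2 : ∃ v ∈ (w.dropUntil u huw).support, v ∈ F (j + 1) := by
          by_contra hcon
          push Not at hcon
          exact (hF (j + 1)).2.2.2.2.2 u ((hF j).2.2.1 huF) (hN j u huF).1 y0 hy0
            ⟨w.dropUntil u huw, fun v hv => hcon v hv⟩
        obtain ⟨v, hvw, hvF⟩ := h2
        refine ⟨u, huF, v, hvF, (w.dropUntil u huw).takeUntil v hvw, fun z hz => ?_⟩
        exact hw z (w.support_dropUntil_subset_support huw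
          ((w.dropUntil u huw).support_takeUntil_subset_support hvw hz)))
    have ainj : Function.Injective a := by
      intro i i' h
      by_contra hne
      refine hdis i i' hne (a i) (p i).start_mem_support ?_
      rw [h]
      exact (p i').start_mem_support
    have binj : Function.Injective b := by
      intro i i' h
      by_contra hne
      refine hdis i i' hne (b i) (p i).end_mem_support ?_
      rw [h]
      exact (p i').end_mem_support
    have surj_of : ∀ (J : ℕ) (q : Fin μ → V), Function.Injective q → (∀ i, q i ∈ F J) →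
        ∀ x ∈ F J, ∃ i, q i = x := by
      intro J q hq hqF x hx
      have hsub : Set.range q ⊆ F J := by
        rintro _ ⟨i, rfl⟩
        exact hqF i
      have hcard : (Set.range q).ncard = μ := by
        rw [← Set.image_univ, Set.ncard_image_of_injective _ hq, Set.ncard_univ]
        simp
      have heq : Set.range q = F J :=
        Set.eq_of_subset_of_ncard_le hsub (by rw [hcard, (hF J).2.2.2.2.1]) (hF J).2.2.2.1
      rw [← heq] at hx
      exact hx
    have aF : ∀ i, a i ∈ F j := fun i => (hp i).2.1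
    have bF : ∀ i, b i ∈ F (j + 1) := fun i => (hp i).2.2
    -- the only point of `F j` on the path `i` is `a i`
    have onlya : ∀ i, ∀ x ∈ (p i).support, x ∈ F j → x = a i := by
      intro i x hx hxF
      obtain ⟨i', rfl⟩ := surj_of j a ainj aF x hxF
      by_contra hne
      have hii : i ≠ i' := fun e => hne (by rw [e])
      exact hdis i i' hii (a i') hx (p i').start_mem_support
    have onlyb : ∀ i, ∀ x ∈ (p i).support, x ∈ F (j + 1) → x = b i := by
      intro i x hx hxF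
      obtain ⟨i', rfl⟩ := surj_of (j + 1) b binj bF x hxF
      by_contra hne
      have hii : i ≠ i' := fun e => hne (by rw [e])
      exact hdis i i' hii (b i') hx (p i').end_mem_support
    have bW : ∀ i, b i ∈ W j := fun i => hanti j (hFW (j + 1) (bF i))
    have aW : ∀ i, a i ∉ W (j + 1) := fun i => he j (a i) (aF i)
    have inW : ∀ i, ∀ x ∈ (p i).support, x ∈ W j := by
      intro i x hx
      by_contra hxW
      have hxa : x ≠ a i := fun e => hxW (e ▸ hFW j (aF i))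
      obtain ⟨y1, y2, h1, h2, h3, h4, h5, h6, h7⟩ := path_exit (p i) (hp i).1 (W j)ᶜ hx hxa hxW
        (fun h => h (bW i))
      exact h7 (onlya i y2 h5 (hout j y2 y1 h1.symm (not_not.mp h3) h2))
    have notW : ∀ i, ∀ x ∈ (p i).support, x ≠ b i → x ∉ W (j + 1) := by
      intro i x hx hxb hxW
      obtain ⟨y1, y2, h1, h2, h3, h4, h5, h6, h7⟩ := path_exit (p i).reverse (hp i).1.reverse
        (W (j + 1)) (by simpa using hx) hxb hxW (aW i)
      exact h6 (onlyb i y1 (by simpa using h4) (hout (j + 1) y1 y2 h1 h2 h3))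
    have hidx : ∀ i, ∃ i', a i' = f i := fun i => surj_of j a ainj aF (f i) (hfF i)
    choose π hπ using hidx
    have πinj : Function.Injective π := by
      intro i i' h
      apply hfi
      rw [← hπ i, ← hπ i', h]
    refine ⟨fun i => b (π i), fun i => {z | z ∈ (p (π i)).support}, ⟨fun i i' h => πinj (binj h),
      fun i => bF _⟩, fun i => ⟨cn_support _, ?_, (p (π i)).end_mem_support, fun x hx => ?_⟩,
      fun i i' hii => ?_⟩
    · show f i ∈ {z | z ∈ (p (π i)).support}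
      rw [← hπ i]
      exact (p (π i)).start_mem_support
    · by_cases hxb : x = b (π i)
      · exact Or.inl hxb
      · exact Or.inr ⟨inW _ x hx, notW _ x hx hxb⟩
    · rw [Set.disjoint_left]
      intro z hz hz'
      exact hdis (π i) (π i') (fun e => hii (πinj e)) z hz hz'
  choose! g T hgT using hstep
  -- the initial enumeration
  obtain ⟨s0, hs0⟩ : ∃ s0 : Fin μ → V, Function.Injective s0 ∧ ∀ i, s0 i ∈ F 0 := by
    have hfin := (hF 0).2.2.2.1
    have hcard := (hF 0).2.2.2.2.1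
    have : Finite (F 0) := hfin.to_subtype
    have hc2 : Nat.card (F 0) = μ := hcard
    let e := Finite.equivFinOfCardEq hc2
    exact ⟨fun i => (e.symm i : V), fun i i' h => e.symm.injective (Subtype.ext h),
      fun i => (e.symm i).2⟩
  let s : ℕ → Fin μ → V := fun j => Nat.rec s0 (fun j f => g j f) j
  have hss : ∀ j, s (j + 1) = g j (s j) := fun j => rfl
  have hs : ∀ j, Function.Injective (s j) ∧ ∀ i, s j i ∈ F j := by
    intro j
    induction j with
    | zero => exact hs0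
    | succ j ih =>
      rw [hss]
      exact (hgT j (s j) ih).1
  refine ⟨μ, W, s, fun j => T j (s j), hMμ, ?_, hWS, fun k => ?_⟩
  · refine ⟨hanti, fun j i => ⟨hFW j ((hs j).2 i), he j _ ((hs j).2 i)⟩, ?_, fun j => (hs j).1,
      fun j i => ((hgT j (s j) (hs j)).2.1 i).1, fun j i => ((hgT j (s j) (hs j)).2.1 i).2.1,
      fun j i => ?_, fun j i x hx => ?_, fun j => (hgT j (s j) (hs j)).2.2, fun x => ?_⟩
    · intro j x y hxy hx hy
      have hxF := hout j x y hxy hx hy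
      have hsub : Set.range (s j) ⊆ F j := by
        rintro _ ⟨i, rfl⟩
        exact (hs j).2 i
      have hcard : (Set.range (s j)).ncard = μ := by
        rw [← Set.image_univ, Set.ncard_image_of_injective _ (hs j).1, Set.ncard_univ]
        simp
      have heq : Set.range (s j) = F j :=
        Set.eq_of_subset_of_ncard_le hsub (by rw [hcard, (hF j).2.2.2.2.1]) (hF j).2.2.2.1
      rw [← heq] at hxF
      obtain ⟨i, hi⟩ := hxF
      exact ⟨i, hi.symm⟩
    · rw [hss]
      exact ((hgT j (s j) (hs j)).2.1 i).2.2.1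
    · rw [hss]
      exact ((hgT j (s j) (hs j)).2.1 i).2.2.2 x hx
    · obtain ⟨k, hk⟩ := hc.leave x
      obtain ⟨j0, hj0⟩ := hg k
      exact ⟨j0, fun h => hk (hj0 j0 le_rfl h)⟩
  · obtain ⟨j0, hj0⟩ := hg k
    exact ⟨j0, hj0 j0 le_rfl⟩

end Pool.Agent.PT2
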