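import Pool.Agent.PT2.Stmts

/-!
MP_851278_al, squad PTC, module TOK: tokens give a robust `K_t` minor.
-/

set_option autoImplicit false

namespace Pool.Agent.PT2

open Pool.Agent.ACC Pool.Agent.KUR

namespace TOK_

theorem bmv_inj {μ t : ℕ} {adj : Fin μ → Fin μ → Prop}
    {sw : Set (Fin μ) → Fin μ → Fin μ → Prop} {p p' : Fin t → Fin μ}
    (h : BMv adj sw p p') : Function.Injective p' := by
  cases h with
  | move a i hp had hne =>
    intro b c hbc
    by_cases h1 : b = a
    · by_cases h2 : c = a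
      · rw [h1, h2]
      · rw [h1, Function.update_self, Function.update_of_ne h2] at hbc
        exact absurd hbc.symm (hne c)
    · by_cases h2 : c = a
      · rw [h2, Function.update_self, Function.update_of_ne h1] at hbc
        exact absurd hbc (hne b)
      · rw [Function.update_of_ne h1, Function.update_of_ne h2] at hbc
        exact hp hbc
  | swap a b Fs hp hab hsw hF =>
    exact hp.comp (Equiv.swap a b).injective

theorem rtg_inj {μ t : ℕ} {adj : Fin μ → Fin μ → Prop}
    {sw : Set (Fin μ) → Fin μ → Fin μ → Prop} {p p' : Fin t → Fin μ}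
    (hp : Function.Injective p) (h : Relation.ReflTransGen (BMv adj sw) p p') :
    Function.Injective p' := by
  induction h with
  | refl => exact hp
  | tail _ h1 _ => exact bmv_inj h1

theorem bmv_symm {μ t : ℕ} {adj : Fin μ → Fin μ → Prop}
    {sw : Set (Fin μ) → Fin μ → Fin μ → Prop} (hs : ∀ i i', adj i i' → adj i' i)
    (hw : ∀ Fs i i', sw Fs i i' → sw Fs i' i) {p p' : Fin t → Fin μ}
    (h : BMv adj sw p p') : BMv adj sw p' p := by
  have hinj := bmv_inj h
  cases h with
  | move a i hp had hne =>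
    have h1 : p = Function.update (Function.update p a i) a (p a) := by
      rw [Function.update_idem, Function.update_eq_self]
    have h2 := BMv.move (adj := adj) (sw := sw) (Function.update p a i) a (p a) hinj
      (by rw [Function.update_self]; exact hs _ _ had) (by
        intro b
        by_cases hb : b = a
        · rw [hb, Function.update_self]
          exact fun h => hne a h.symm
        · rw [Function.update_of_ne hb]
          exact fun h => hb (hp h))
    rw [← h1] at h2
    exact h2
  | swap a b Fs hp hab hsw hF =>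
    have h1 : p = (p ∘ (Equiv.swap a b : Equiv.Perm (Fin t))) ∘
        (Equiv.swap a b : Equiv.Perm (Fin t)) := by
      funext c
      simp
    have h2 := BMv.swap (adj := adj) (sw := sw) (p ∘ (Equiv.swap a b : Equiv.Perm (Fin t))) a b
      Fs hinj hab (by
        simp only [Function.comp_apply, Equiv.swap_apply_left, Equiv.swap_apply_right]
        exact hw _ _ _ hsw) (by
        intro c hca hcb
        simp only [Function.comp_apply]
        rw [Equiv.swap_apply_of_ne_of_ne hca hcb]
        exact hF c hca hcb)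
    rw [← h1] at h2
    exact h2

theorem rtg_symm {μ t : ℕ} {adj : Fin μ → Fin μ → Prop}
    {sw : Set (Fin μ) → Fin μ → Fin μ → Prop} (hs : ∀ i i', adj i i' → adj i' i)
    (hw : ∀ Fs i i', sw Fs i i' → sw Fs i' i) {p p' : Fin t → Fin μ}
    (h : Relation.ReflTransGen (BMv adj sw) p p') :
    Relation.ReflTransGen (BMv adj sw) p' p := by
  induction h with
  | refl => exact Relation.ReflTransGen.refl
  | tail _ h1 ih => exact Relation.ReflTransGen.head (bmv_symm hs hw h1) ih

theorem anti {V : Type} {W : ℕ → Set V} (h : ∀ j, W (j + 1) ⊆ W j) {i j : ℕ} (hij : i ≤ j) :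
    W j ⊆ W i := by
  induction hij with
  | refl => exact subset_rfl
  | step _ ih => exact (h _).trans ih

end TOK_

open TOK_ in
theorem tok_proof (h1 : Stmt_RCO) (h2 : Stmt_RID) (h3 : Stmt_RME) (h4 : Stmt_RRT) :
    Stmt_TOK := by
  classical
  intro V P μ t W s T adj sw hst hsym hadj hwsym hsw hperm
  obtain ⟨p0, hp0, hpair⟩ := hperm
  -- one pair
  have step : ∀ a b, a ≠ b → ∀ j, ∃ (j' : ℕ) (C : Fin t → Set V) (x y : V),
      Real P W s j p0 j' p0 C ∧ x ∈ C a ∧ y ∈ C b ∧ P.Adj x y ∧ x ∈ W (j + 1) ∧ x ∉ W j' ∧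
        y ∈ W (j + 1) ∧ y ∉ W j' := by
    intro a b hab j
    obtain ⟨p, hp, hadjp⟩ := hpair a b hab
    have hpinj := rtg_inj hp0 hp
    have r0 := h2 V P μ t W s T j p0 hst hp0
    obtain ⟨j1, C1, r1⟩ := h4 V P μ t W s T adj sw hst hadj hsw p0 p hp0 hp (j + 1)
    obtain ⟨C2, r2, x, hx, y, hy, hxy⟩ := h3 V P μ t W s T j1 p a b hst hpinj hab
      ((hadj _ _ hadjp).2 j1)
    obtain ⟨j2, C3, r3⟩ := h4 V P μ t W s T adj sw hst hadj hsw p p0 hpinj
      (rtg_symm hsym hwsym hp) (j1 + 1)
    have r01 := h1 V P μ t W s T _ _ _ _ _ _ _ _ hst r0 r1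
    have r02 := h1 V P μ t W s T _ _ _ _ _ _ _ _ hst r01 r2
    have r03 := h1 V P μ t W s T _ _ _ _ _ _ _ _ hst r02 r3
    have hj1 := r1.lt
    have hj2 := r3.lt
    have hin : ∀ c z, z ∈ C2 c → z ∈ W (j + 1) ∧ z ∉ W j2 := by
      intro c z hz
      rcases r2.sub c z hz with h | ⟨h, h'⟩
      · refine ⟨anti hst.anti (by omega) (h ▸ (hst.sW (j1 + 1) (p c)).1), fun h' => ?_⟩
        exact (hst.sW (j1 + 1) (p c)).2 (h ▸ anti hst.anti (show j1 + 1 + 1 ≤ j2 by omega) h')
      · exact ⟨anti hst.anti (by omega) h, fun h'' => h' (anti hst.anti (by omega) h'')⟩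
    exact ⟨j2, _, x, y, r03, Or.inl (Or.inr hx), Or.inl (Or.inr hy), hxy, (hin a x hx).1,
      (hin a x hx).2, (hin b y hy).1, (hin b y hy).2⟩
  -- all pairs
  have all : ∀ l : List (Fin t × Fin t), (∀ q ∈ l, q.1 ≠ q.2) → ∀ j, ∃ (j' : ℕ)
      (C : Fin t → Set V) (x y : Fin t × Fin t → V), Real P W s j p0 j' p0 C ∧
      (∀ q ∈ l, x q ∈ C q.1 ∧ y q ∈ C q.2 ∧ P.Adj (x q) (y q) ∧ x q ∈ W (j + 1) ∧
        x q ∉ W j' ∧ y q ∈ W (j + 1) ∧ y q ∉ W j') ∧
      ∀ q ∈ l, ∀ q' ∈ l, q ≠ q' → x q ≠ x q' ∧ x q ≠ y q' ∧ y q ≠ y q' := by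
    intro l
    induction l with
    | nil =>
      intro _ j
      have r0 := h2 V P μ t W s T j p0 hst hp0
      exact ⟨j + 1, _, fun q => s 0 (p0 q.1), fun q => s 0 (p0 q.1), r0, by simp, by simp⟩
    | cons q l ih =>
      intro hl j
      obtain ⟨j1, C1, x1, y1, r1, hx1, hy1, hxy1, hxW, hxW', hyW, hyW'⟩ :=
        step q.1 q.2 (hl q (by simp)) j
      obtain ⟨j2, C2, x2, y2, r2, hA, hB⟩ := ih (fun q' hq' => hl q' (by simp [hq'])) j1
      have hj1 := r1.lt
      have hj2 := r2.lt
      refine ⟨j2, _, fun q' => if q' = q then x1 else x2 q', fun q' => if q' = q then y1 else y2 q',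
        h1 V P μ t W s T _ _ _ _ _ _ _ _ hst r1 r2, ?_, ?_⟩
      · intro q' hq'
        by_cases he : q' = q
        · simp only [he, if_true]
          exact ⟨Or.inl hx1, Or.inl hy1, hxy1, hxW, fun h => hxW' (anti hst.anti hj2.le h),
            hyW, fun h => hyW' (anti hst.anti hj2.le h)⟩
        · simp only [he, if_false]
          have hq'' : q' ∈ l := by
            rcases List.mem_cons.mp hq' with h | h
            · exact absurd h he
            · exact h
          obtain ⟨e1, e2, e3, e4, e5, e6, e7⟩ := hA q' hq''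
          exact ⟨Or.inr e1, Or.inr e2, e3, anti hst.anti (by omega) e4, e5,
            anti hst.anti (by omega) e6, e7⟩
      · -- end points of different segments
        have key : ∀ q' ∈ l, x1 ≠ x2 q' ∧ x1 ≠ y2 q' ∧ y1 ≠ x2 q' ∧ y1 ≠ y2 q' := by
          intro q' hq'
          obtain ⟨e1, e2, e3, e4, e5, e6, e7⟩ := hA q' hq'
          have e4' : x2 q' ∈ W j1 := anti hst.anti (by omega) e4
          have e6' : y2 q' ∈ W j1 := anti hst.anti (by omega) e6
          refine ⟨fun h => hxW' (h ▸ e4'), fun h => hxW' (h ▸ e6'), fun h => hyW' (h ▸ e4'),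
            fun h => hyW' (h ▸ e6')⟩
        have mem : ∀ q' ∈ q :: l, q' ≠ q → q' ∈ l := by
          intro q' hq' he
          rcases List.mem_cons.mp hq' with h | h
          · exact absurd h he
          · exact h
        intro q1 hq1 q2 hq2 hne
        by_cases e1 : q1 = q
        · have e2 : q2 ≠ q := fun h => hne (e1.trans h.symm)
          simp only [e1, e2, if_true, if_false]
          have := key q2 (mem q2 hq2 e2)
          exact ⟨this.1, this.2.1, this.2.2.2⟩
        · by_cases e2 : q2 = q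
          · simp only [e1, e2, if_true, if_false]
            have := key q1 (mem q1 hq1 e1)
            exact ⟨this.1.symm, this.2.2.1.symm, this.2.2.2.symm⟩
          · simp only [e1, e2, if_false]
            exact hB q1 (mem q1 hq1 e1) q2 (mem q2 hq2 e2) hne
  obtain ⟨j', C, x, y, r, hA, hB⟩ := all
    (Finset.univ.filter (fun q : Fin t × Fin t => q.1 < q.2)).toList (by
      intro q hq
      rw [Finset.mem_toList, Finset.mem_filter] at hq
      exact ne_of_lt hq.2) 0
  have mem : ∀ a b : Fin t, a < b →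
      (a, b) ∈ (Finset.univ.filter (fun q : Fin t × Fin t => q.1 < q.2)).toList := by
    intro a b hab
    rw [Finset.mem_toList, Finset.mem_filter]
    exact ⟨Finset.mem_univ _, hab⟩
  refine ⟨C, fun a b => x (a, b), fun a b => y (a, b), r.cn, r.dis, ?_, ?_⟩
  · intro a b hab
    obtain ⟨e1, e2, e3, -⟩ := hA _ (mem a b hab)
    exact ⟨e1, e2, e3⟩
  · intro a b c d hab hcd hne
    exact hB _ (mem a b hab) _ (mem c d hcd) hne

end Pool.Agent.PT2
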