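import Pool.Agent.PT2.Stmts

set_option autoImplicit false

namespace Pool.Agent.PT2

open Pool.Agent.ACC Pool.Agent.KUR

namespace WSW_

variable {V : Type}

theorem anti' {P : SimpleGraph V} {μ : ℕ} {W : ℕ → Set V} {s : ℕ → Fin μ → V}
    {T : ℕ → Fin μ → Set V} (h : Strip P μ W s T) : Antitone W :=
  antitone_nat_of_succ_le h.anti

theorem rch_rst {P : SimpleGraph V} {A X : Set V} {v y : V} (h : Rch P (A \ X) v y) :
    Rch (rst P A) Xᶜ v y := by
  have := h.closed {z | z ∈ A ∧ Rch (rst P A) Xᶜ v z}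
    ⟨h.left.1, Rch.refl _ h.left.2⟩ (by
      rintro u ⟨hu, hr⟩ z hz huz
      exact ⟨hz.1, hr.trans (Rch.of_adj hr.right hz.2 ⟨hu, hz.1, huz⟩)⟩)
  exact this.2

theorem rst_rch {P : SimpleGraph V} {A B : Set V} {v y : V} (h : Rch P B v y) (hB : B ⊆ A) :
    Rch (rst P A) B v y := by
  have := h.closed {z | z ∈ B ∧ Rch (rst P A) B v z}
    ⟨h.left, Rch.refl _ h.left⟩ (by
      rintro u ⟨hu, hr⟩ z hz huz
      exact ⟨hz, hr.trans (Rch.of_adj hr.right hz ⟨hB hu, hB hz, huz⟩)⟩)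
  exact this.2

theorem cn_rst {P : SimpleGraph V} {A B : Set V} (h : Cn P B) (hB : B ⊆ A) :
    Cn (rst P A) B :=
  ⟨h.1, fun x hx y hy => rst_rch (h.rch hx hy) hB⟩

/-- a connected set of `rst P A` with two points is inside `A` -/
theorem cn_sub {P : SimpleGraph V} {A C : Set V} (h : Cn (rst P A) C) {x y : V} (hx : x ∈ C)
    (hy : y ∈ C) (hxy : x ≠ y) : C ⊆ A := by
  intro z hz
  have : ∃ z' ∈ C, z' ≠ z := by
    by_cases h1 : x = z
    · exact ⟨y, hy, fun h2 => hxy (h1.trans h2.symm)⟩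
    · exact ⟨x, hx, h1⟩
  obtain ⟨z', hz', hne⟩ := this
  obtain ⟨u, v, hu, hv, -, -, huv, -⟩ := (h.rch hz hz').exit {z} rfl hne
  rw [Set.mem_singleton_iff] at hu
  rw [← hu]
  exact huv.1

end WSW_

open WSW_

theorem wsw_proof (oft : Stmt_OFT) (fcn : Stmt_FCN) (k3c : Stmt_K3C) (k5c : Stmt_K5C) :
    Stmt_WSW := by
  intro V P S A μ W s T q L α β j0 j1 hL hM hα hαβ hβ hj hK
  have hst := hL.st
  have hanti := anti' hst
  obtain ⟨-, -, -, o4, o5, o6⟩ := oft V P μ W s T hst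
  have hq : q α ≠ q β := fun h => by
    have := hL.qinj α β (by omega) (by omega) (by omega) (by omega) h
    omega
  have hs01 : ∀ i i', s j0 i ≠ s j1 i' := by
    intro i i' h
    have h1 := (hst.sW j0 i).2
    rw [h] at h1
    exact h1 (hanti (by omega : j0 + 1 ≤ j1) (hst.sW j1 i').1)
  have hCW : Cor P W T q α β j0 j1 ⊆ Win P W T q α β j0 j1 := by
    rintro x ⟨l, i, h1, h2, h3, h4, h5⟩
    exact ⟨l, i, by omega, by omega, Or.inr ⟨by omega, by omega, h5⟩⟩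
  -- points of the window
  have hwin : ∀ x ∈ Win P W T q α β j0 j1, (x ∈ W j0 ∧ (x ∉ W j1 ∨ ∃ i, x = s j1 i)) ∧
      ∀ l i, x ∈ T l i → ∃ i', α ≤ i' ∧ i' ≤ β ∧ i = q i' := by
    rintro x ⟨l, i, h1, h2, h3⟩
    have h4 : (α ≤ i ∧ i ≤ β ∧ x ∈ T l (q i)) ∨ x ∈ Off W T l := by
      rcases h3 with h3 | ⟨h3, h4, h5 | h5⟩
      · exact Or.inl h3
      · exact Or.inl ⟨by omega, by omega, h5⟩
      · exact Or.inr h5.1
    rcases h4 with ⟨h5, h6, h7⟩ | h5
    · refine ⟨?_, ?_⟩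
      · rcases hst.sub l (q i) x h7 with h8 | ⟨h8, h9⟩
        · refine ⟨hanti (by omega : j0 ≤ l + 1) (h8 ▸ (hst.sW (l + 1) (q i)).1), ?_⟩
          by_cases h10 : l + 1 = j1
          · exact Or.inr ⟨q i, by rw [← h10]; exact h8⟩
          · refine Or.inl (fun h11 => ?_)
            have h12 := (hst.sW (l + 1) (q i)).2
            rw [← h8] at h12
            exact h12 (hanti (by omega : l + 1 + 1 ≤ j1) h11)
        · exact ⟨hanti h1 h8, Or.inl fun h11 => h9 (hanti (by omega : l + 1 ≤ j1) h11)⟩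
      · intro l' i' h8
        exact ⟨i, h5, h6, (o4 l (q i) l' i' x h7 h8).1.symm⟩
    · refine ⟨⟨hanti h1 h5.1, Or.inl fun h11 => h5.2.1 (hanti (by omega : l + 1 ≤ j1) h11)⟩, ?_⟩
      intro l' i' h8
      exact absurd h8 (o6 l l' i' x h5)
  set H := rst P (Win P W T q α β j0 j1) with hH
  set τ : Fin 4 → V := ![s j0 (q α), s j1 (q β), s j0 (q β), s j1 (q α)] with hτ
  have hinj : Function.Injective τ := by
    intro a b hab
    have h02 : s j0 (q α) ≠ s j0 (q β) := fun h => hq (hst.inj j0 h)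
    have h13 : s j1 (q β) ≠ s j1 (q α) := fun h => hq (hst.inj j1 h).symm
    fin_cases a <;> fin_cases b <;> simp [hτ] at hab ⊢
    · exact hs01 _ _ hab
    · exact h02 hab
    · exact hs01 _ _ hab
    · exact hs01 _ _ hab.symm
    · exact hs01 _ _ hab.symm
    · exact h13 hab
    · exact h02 hab.symm
    · exact hs01 _ _ hab
    · exact hs01 _ _ hab
    · exact hs01 _ _ hab.symm
    · exact h13 hab.symm
    · exact hs01 _ _ hab.symm
  have hFC : FC H τ (Cor P W T q α β j0 j1) := by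
    refine ⟨hinj, fun X hX hX3 v hv hvX => ?_⟩
    obtain ⟨t, ht, htX, hr⟩ := fcn V P S A μ W s T q L α β j0 j1 X v hL hM hα hβ hX hX3 hv hvX
    have hr' := rch_rst hr
    rcases ht with ht | ht | ht | ht
    · exact ⟨0, by simpa [hτ, ← ht] using htX, by simpa [hτ, ← ht] using hr'⟩
    · exact ⟨2, by simpa [hτ, ← ht] using htX, by simpa [hτ, ← ht] using hr'⟩
    · exact ⟨3, by simpa [hτ, ← ht] using htX, by simpa [hτ, ← ht] using hr'⟩
    · exact ⟨1, by simpa [hτ, ← ht] using htX, by simpa [hτ, ← ht] using hr'⟩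
  have hcross : Cross H τ := by
    have h1 : (∃ A' C', M33 P A' C' ∧ (∀ i, A' i ⊆ Cor P W T q α β j0 j1) ∧
        ∀ i, C' i ⊆ Cor P W T q α β j0 j1) ∨
        ∃ A', M5 P A' ∧ ∀ i, A' i ⊆ Cor P W T q α β j0 j1 := by
      by_contra h2
      rw [not_or] at h2
      exact hK h2
    rcases h1 with ⟨A', C', hm, hA, hC⟩ | ⟨A', hm, hA⟩
    · refine k3c V H τ _ A' C' hFC ?_ (fun i => ⟨hA i, hC i⟩)
      refine ⟨fun i => cn_rst (hm.ca i) ((hA i).trans hCW), fun i => cn_rst (hm.cb i)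
        ((hC i).trans hCW), hm.da, hm.db, hm.dab, fun i j => ?_⟩
      obtain ⟨x, hx, y, hy, hxy⟩ := hm.adj i j
      exact ⟨x, hx, y, hy, hCW (hA i hx), hCW (hC j hy), hxy⟩
    · refine k5c V H τ _ A' hFC ?_ hA
      refine ⟨fun i => cn_rst (hm.c i) ((hA i).trans hCW), hm.d, fun i j hij => ?_⟩
      obtain ⟨x, hx, y, hy, hxy⟩ := hm.adj i j hij
      exact ⟨x, hx, y, hy, hCW (hA i hx), hCW (hA j hy), hxy⟩
  obtain ⟨C, D, hC, hD, hCD, h0, h1, h2, h3⟩ := hcross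
  have e0 : τ 0 = s j0 (q α) := rfl
  have e1 : τ 1 = s j1 (q β) := rfl
  have e2 : τ 2 = s j0 (q β) := rfl
  have e3 : τ 3 = s j1 (q α) := rfl
  have hCs : C ⊆ Win P W T q α β j0 j1 := cn_sub hC h0 h1 (fun h => by
    have := hinj h; simp at this)
  have hDs : D ⊆ Win P W T q α β j0 j1 := cn_sub hD h2 h3 (fun h => by
    have := hinj h; simp at this)
  have hsub : ∀ x ∈ C ∪ D, x ∈ Win P W T q α β j0 j1 := by
    rintro x (hx | hx)
    · exact hCs hx
    · exact hDs hx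
  refine ⟨hj, C, D, hC.mono (rst_le _ _), hD.mono (rst_le _ _), hCD, e0 ▸ h0, e1 ▸ h1, e2 ▸ h2,
    e3 ▸ h3, fun x hx => (hwin x (hsub x hx)).1, fun x hx l hl0 hl1 i hi hxT => ?_⟩
  exact hi ((hwin x (hsub x hx)).2 l i hxT)

end Pool.Agent.PT2
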