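import Pool.Agent.ACC.MEN
import Pool.Agent.PT2.MEE
import Pool.Agent.PT2.SNG
import Pool.Agent.PT2.CEN
import Pool.Agent.PT2.SPL
import Pool.Agent.PT2.FN4
import Pool.Agent.PT2.ST2
import Pool.Agent.PT2.ST3
import Pool.Agent.PT2.ST1
import Pool.Agent.PT2.STA
import Pool.Agent.PT2.STG
import Pool.Agent.PT2.STH
import Pool.Agent.PT2.FMO
import Pool.Agent.PT2.K3C
import Pool.Agent.PT2.K5C
import Pool.Agent.PT2.KAP
import Pool.Agent.PT2.STP
import Pool.Agent.PT2.OFT
import Pool.Agent.PT2.ATT
import Pool.Agent.PT2.RGC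
import Pool.Agent.PT2.SBS
import Pool.Agent.PT2.REG
import Pool.Agent.PT2.BST
import Pool.Agent.PT2.BRD
import Pool.Agent.PT2.BSW
import Pool.Agent.PT2.BTT
import Pool.Agent.PT2.GEO
import Pool.Agent.PT2.RCO
import Pool.Agent.PT2.RID
import Pool.Agent.PT2.RMV
import Pool.Agent.PT2.RSW
import Pool.Agent.PT2.RME
import Pool.Agent.PT2.RRT
import Pool.Agent.PT2.TOK
import Pool.Agent.PT2.LOC
import Pool.Agent.PT2.BAL
import Pool.Agent.PT2.FRE
import Pool.Agent.PT2.FBC
import Pool.Agent.PT2.FCO
import Pool.Agent.PT2.FCN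
import Pool.Agent.PT2.WSW
import Pool.Agent.PT2.COR

/-!
MP_851278_al (frozen S02151), PART II, the CORE theorem: assembly.
-/

set_option autoImplicit false

namespace Pool.Agent.PT2

/-- THE CORE THEOREM -/
theorem core : Stmt_CORE := by
  have mee := mee_proof
  have st2 : Stmt_ST2 := st2_proof mee fn4_proof
  have st3 : Stmt_ST3 := st3_proof sng_proof st2
  have st1 : Stmt_ST1 := st1_proof mee st3
  have sta : Stmt_STA := sta_proof sng_proof st1
  have stg : Stmt_STG := stg_proof mee st3
  have sth : Stmt_STH := sth_proof mee st3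
  have k3c : Stmt_K3C := k3c_proof fmo_proof mee spl_proof cen_proof sta stg
  have k5c : Stmt_K5C := k5c_proof fmo_proof mee spl_proof cen_proof k3c sta sth
  have stp : Stmt_STP := stp_proof kap_proof Pool.Agent.ACC.men_proof
  have att : Stmt_ATT := att_proof oft_proof
  have rgc : Stmt_RGC := rgc_proof oft_proof
  have reg : Stmt_REG := reg_proof (sbs_proof oft_proof)
  have rco : Stmt_RCO := rco_proof oft_proof
  have rrt : Stmt_RRT := rrt_proof rco rid_proof (rmv_proof oft_proof) (rsw_proof oft_proof)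
  have tok : Stmt_TOK := tok_proof rco rid_proof rme_proof rrt
  have loc : Stmt_LOC := loc_proof oft_proof att
  have fre : Stmt_FRE := fre_proof oft_proof
  have fbc : Stmt_FBC := fbc_proof oft_proof
  have fco : Stmt_FCO := fco_proof oft_proof fre fbc
  have fcn : Stmt_FCN := fcn_proof oft_proof att loc fre fbc fco
  have wsw : Stmt_WSW := wsw_proof oft_proof fcn k3c k5c
  exact cor_proof stp rgc reg geo_proof bst_proof (bsw_proof brd_proof) (btt_proof brd_proof)
    tok (bal_proof loc) wsw

end Pool.Agent.PT2
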