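import Pool.Agent.PT2.StmtsP

/-!
Module DIA: bounded diameter of the boundaries of the components of `D`.
-/

set_option autoImplicit false

namespace Pool.Agent.PT2

open Pool.Agent.ACC Pool.Agent.KUR

theorem dia_proof (hFIL : Stmt_FIL) (hBDD : Pool.Agent.ACC.Stmt_BDD)
    (hEFV : Pool.Agent.ACC.Stmt_EFV) : Stmt_DIA := by
  intro V X Y G lam k c w D hC
  obtain ⟨c1, h1⟩ := hBDD V X G hC.st.con hC.st.aut
    (hEFV V X G hC.st.lf hC.st.aut hC.st.vf) k
  refine ⟨c1, fun z hz => ?_⟩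
  obtain ⟨-, hb, hc, -⟩ := hFIL V X Y G lam k c w D hC z hz
  have first := h1 (cmp Y D z) hb hc
  have hn : ∀ b ∈ nbr Y (cmp Y D z), ∃ e ∈ bd X (cmp Y D z), b ∈ e := by
    rintro b ⟨hb, a, ha, hab⟩
    exact ⟨s(a, b), ⟨a, b, hC.st.sp.1 hab, ha, hb, rfl⟩, Sym2.mem_mk_right a b⟩
  refine ⟨first, ?_, ?_⟩
  · intro e he a ha b hb
    obtain ⟨e', he', hbe⟩ := hn b hb
    exact first e he e' he' a ha b hbe
  · intro a ha b hb
    obtain ⟨e, he, hae⟩ := hn a ha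
    obtain ⟨e', he', hbe⟩ := hn b hb
    exact first e he e' he' a hae b hbe

end Pool.Agent.PT2
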