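import Pool.Agent.ACC.StmtsA
import Pool.Agent.KUR.Lib

/-!
MP_851278_al (frozen S02151), PART II (from `K_t`-free spanners to planar spanners of torsos):
definitions and interface statements.
-/

set_option autoImplicit false

namespace Pool.Agent.PT2

open Pool.Agent.ACC Pool.Agent.KUR

/-- vertex neighbourhood of a set -/
def nbr {V : Type} (P : SimpleGraph V) (I : Set V) : Set V := {y | y ∉ I ∧ ∃ x ∈ I, P.Adj x y}

/-- the component of `x` in `D` -/
def cmp {V : Type} (Y : SimpleGraph V) (D : Set V) (x : V) : Set V := {y | Rch Y D x y}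

/-- the torso of `Y` after removing `D`: two vertices outside `D` are adjacent if they are joined
by a walk with all interior vertices in `D` -/
def ptor {V : Type} (Y : SimpleGraph V) (D : Set V) : SimpleGraph V where
  Adj x y := x ≠ y ∧ x ∉ D ∧ y ∉ D ∧ Rch Y (D ∪ {x, y}) x y
  symm := ⟨fun x y h => ⟨h.1.symm, h.2.2.1, h.2.1, (h.2.2.2.mono le_rfl (by
    intro z hz
    rcases hz with hz | rfl | rfl
    · exact Or.inl hz
    · exact Or.inr (Or.inr rfl)
    · exact Or.inr (Or.inl rfl))).symm⟩⟩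
  loopless := ⟨fun _ h => h.1 rfl⟩

/-- a `K_t` minor model with pairwise disjoint connecting edges -/
def RobK {V : Type} (P : SimpleGraph V) (t : ℕ) : Prop :=
  ∃ (M : Fin t → Set V) (x y : Fin t → Fin t → V), (∀ a, Cn P (M a)) ∧
    (∀ a b, a ≠ b → Disjoint (M a) (M b)) ∧
    (∀ a b, a < b → x a b ∈ M a ∧ y a b ∈ M b ∧ P.Adj (x a b) (y a b)) ∧
    ∀ a b c d, a < b → c < d → (a, b) ≠ (c, d) →
      x a b ≠ x c d ∧ x a b ≠ y c d ∧ y a b ≠ y c d

/-- no `K_{3,3}` and no `K_5` model of `P` inside `B` -/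
def NoKur {V : Type} (P : SimpleGraph V) (B : Set V) : Prop :=
  (¬ ∃ A C, M33 P A C ∧ (∀ i, A i ⊆ B) ∧ ∀ i, C i ⊆ B) ∧ ¬ ∃ A, M5 P A ∧ ∀ i, A i ⊆ B

/-- the hypotheses of the core theorem: `A k` is a decreasing sequence of sets with bounded finite
boundary going to one end of `P` (`S` is the set of non-isolated vertices) -/
structure Chain {V : Type} (P : SimpleGraph V) (S : Set V) (A : ℕ → Set V) (c M : ℕ) : Prop where
  lf : LocFin P
  sup : ∀ x y, P.Adj x y → x ∈ S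
  con : ∀ x ∈ S, ∀ y ∈ S, Rch P S x y
  anti : ∀ k, A (k + 1) ⊆ A k
  leave : ∀ x, ∃ k, x ∉ A k
  bfin : ∀ k, (bd P (A k)).Finite ∧ (bd P (A k)).ncard ≤ c
  ne : ∀ k, (A k ∩ S).Nonempty
  inf : ∀ k, ∃ l, k ≤ l ∧ ∀ x ∈ A l ∩ S, ∀ y ∈ A l ∩ S, Rch P (A k) x y
  min : ∀ k, ∀ F : Set V, F.Finite → F.ncard < M → ∃ x ∈ S, x ∉ A 0 ∧ ∃ y ∈ A k, Rch P Fᶜ x y

/-- 4-connectedness up to sets avoided by a connected set going to the end -/
def Max4 {V : Type} (P : SimpleGraph V) (S : Set V) (A : ℕ → Set V) : Prop :=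
  ∀ I : Set V, I ⊆ S → Cn P I → (nbr P I).Finite → (nbr P I).ncard ≤ 3 →
    ∀ R : Set V, Cn P R → (∀ k, (R ∩ A k).Nonempty) → (R ∩ (I ∪ nbr P I)).Nonempty

/-- THE CORE THEOREM (strips, tokens, two paths): a robust `K_t` minor, or large balls without
Kuratowski minors around points of `Zc`. -/
def Stmt_CORE : Prop := ∀ t r : ℕ, ∃ M : ℕ, ∀ (V : Type) (P : SimpleGraph V) (S Zc : Set V)
  (A : ℕ → Set V) (c : ℕ), Chain P S A c M → Max4 P S A →
  (∀ k x y, P.Adj x y → x ∈ A k → y ∉ A k → x ∈ Zc) →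
  RobK P t ∨ ∃ x ∈ S ∩ Zc, NoKur P {y | ∃ w : P.Walk x y, w.length ≤ r}

/-- Lifting a robust `K_t` minor of the torso. -/
def Stmt_LFT : Prop := ∀ (V : Type) (Y : SimpleGraph V) (D : Set V) (t : ℕ), 1 ≤ t →
  (∀ x ∈ D, (nbr Y (cmp Y D x)).Finite ∧ (nbr Y (cmp Y D x)).ncard ≤ 3) →
  RobK (ptor Y D) t → ¬ MinorFree t Y

/-- what is known about the torso `P = ptor Y D` near the trace `Z` of a vertex of the tree
(constants depend only on `X`, `G`, the vertex and `lam`) -/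
structure GoodP {V : Type} (X P : SimpleGraph V) (S Z : Set V) (c : ℕ) : Prop where
  sup : ∀ x y, P.Adj x y → x ∈ S
  len : ∀ x y, P.Adj x y → X.dist x y ≤ c
  cov : ∀ z ∈ Z, ∃ x ∈ S, X.dist z x ≤ c
  spn : ∀ x ∈ S, ∀ y ∈ S, ∃ w : P.Walk x y, w.length ≤ c * X.dist x y

/-- APPLICATION, first half: if the torso at `w` is not accessible then there are good graphs
without Kuratowski minors in arbitrarily large balls around points near `ZZ X w`. -/
def Stmt_APA : Prop := ∀ (V : Type) (X Y : SimpleGraph V) (G : Subgroup (Equiv.Perm V))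
  (lam t : ℕ), X.Connected → LocFin X → IsAut X G → VertFin G → Spanner X Y lam →
  MinorFree t Y → ∃ k0 : ℕ, ∀ w, IsVtx (EE X k0) w → ¬ Acc (torso X w) →
  ∃ c : ℕ, ∀ r : ℕ, ∃ (P : SimpleGraph V) (S : Set V) (x : V), GoodP X P S (ZZ X w) c ∧
    x ∈ S ∧ (∃ z ∈ ZZ X w, X.dist z x ≤ c) ∧ NoKur P {y | X.dist x y ≤ r}

/-- the blow-up of a power of a graph -/
def blow {V : Type} (X : SimpleGraph V) (R m : ℕ) : SimpleGraph (V × Fin m) where
  Adj a b := a ≠ b ∧ X.Reachable a.1 b.1 ∧ X.dist a.1 b.1 ≤ R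
  symm := ⟨fun a b h => ⟨h.1.symm, h.2.1.symm, by rw [SimpleGraph.dist_comm]; exact h.2.2⟩⟩
  loopless := ⟨fun _ h => h.1 rfl⟩

/-- APPLICATION, second half: limit of translates, contraction of the hubs, Kuratowski. -/
def Stmt_APB : Prop := ∀ (V : Type) (X : SimpleGraph V) (G : Subgroup (Equiv.Perm V))
  (k0 : ℕ) (w : Set (Set V)) (c : ℕ), X.Connected → LocFin X → IsAut X G → VertFin G →
  IsVtx (EE X k0) w →
  (∀ r : ℕ, ∃ (P : SimpleGraph V) (S : Set V) (x : V), GoodP X P S (ZZ X w) c ∧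
    x ∈ S ∧ (∃ z ∈ ZZ X w, X.dist z x ≤ c) ∧ NoKur P {y | X.dist x y ≤ r}) →
  ∃ (R m lam : ℕ) (Q : SimpleGraph (TV w × Fin m)), 1 ≤ R ∧ 1 ≤ m ∧
    Spanner (blow (torso X w) R m) Q lam ∧ ¬ Has33 Q ∧ ¬ Has5 Q

/-- THEOREM A (planar spanners). -/
def Stmt_THA : Prop := ∀ (V : Type) (X : SimpleGraph V) (G : Subgroup (Equiv.Perm V))
  (R : Rot V) (lam : ℕ), X.Connected → LocFin X → IsAut X G → VertFin G →
  Spanner X R.P lam → R.Planar → Acc X

/-- blow-ups -/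
def Stmt_BLW : Prop := ∀ (V : Type) (X : SimpleGraph V) (G : Subgroup (Equiv.Perm V))
  (R m : ℕ), X.Connected → LocFin X → IsAut X G → VertFin G → 1 ≤ R → 1 ≤ m →
  ∃ G' : Subgroup (Equiv.Perm (V × Fin m)), (blow X R m).Connected ∧ LocFin (blow X R m) ∧
    IsAut (blow X R m) G' ∧ VertFin G' ∧ (Acc (blow X R m) → Acc X)

/-- assembly of the main theorem -/
def Stmt_ASM : Prop := Stmt_CORE → Stmt_LFT → Stmt_APA → Stmt_APB → Stmt_THA → Stmt_BLW →
  Stmt_KUR → Stmt_MAIN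

end Pool.Agent.PT2
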