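import Pool.Agent.PT2.StmtsP
import Pool.Agent.ACC.Lib
import Pool.Agent.KUR.Lib

/-!
MP_851278_al (frozen S02151), PART II: module FAR (large members of a chain of cuts of the torso are
far from the complement of a given member).
-/

set_option autoImplicit false

namespace Pool.Agent.PT2

open Pool.Agent.ACC Pool.Agent.KUR

theorem far_walk {V : Type} {X : SimpleGraph V} (hX : X.Connected) (S : Set V) {x y : V}
    (p : X.Walk x y) (hx : x ∈ S) (hy : y ∉ S) :
    ∃ s t, X.Adj s t ∧ s ∈ S ∧ t ∉ S ∧ X.dist x s ≤ p.length := by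
  induction p with
  | nil => exact absurd hx hy
  | @cons u v w' h p ih =>
    by_cases hv : v ∈ S
    · obtain ⟨s, t, h1, h2, h3, h4⟩ := ih hv hy
      refine ⟨s, t, h1, h2, h3, ?_⟩
      have h5 := hX.dist_triangle (u := u) (v := v) (w := s)
      have h6 : X.dist u v = 1 := SimpleGraph.dist_eq_one_iff_adj.mpr h
      rw [SimpleGraph.Walk.length_cons]
      omega
    · exact ⟨u, v, h, hx, hv, by simp⟩

theorem far_proof (h1 : Pool.Agent.ACC.Stmt_TOE) (h2 : Pool.Agent.ACC.Stmt_NFE)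
    (h3 : Pool.Agent.ACC.Stmt_EFV) (h4 : Stmt_BLL) : Stmt_FAR := by
  intro V X Y G lam k c w D A m M hC hT j r
  have hcon := hC.st.con
  have hNF := h2 V X G hcon hC.st.aut (h3 V X G hC.st.lf hC.st.aut hC.st.vf) k
  have hfin : (bd X (tproj w ⁻¹' A j)).Finite :=
    ((h1 V X G (EE X k) w k hNF hC.vtx (A j)).1 (hT.bfin j).1).1
  obtain ⟨b, hb⟩ := h4 V X G hcon hC.st.lf hC.st.aut hC.st.vf r
  have hanti : Antitone A := antitone_nat_of_succ_le hT.anti
  -- the end points
  have hSfin : {s : V | ∃ t, s(s, t) ∈ bd X (tproj w ⁻¹' A j)}.Finite := by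
    have hU : (⋃ e ∈ bd X (tproj w ⁻¹' A j), {s : V | s ∈ e}).Finite := by
      refine hfin.biUnion ?_
      intro e _
      induction e using Sym2.ind with
      | _ a b' =>
        refine (Set.toFinite ({a, b'} : Set V)).subset ?_
        intro s hs
        rcases Sym2.mem_iff.mp hs with h | h
        · exact Or.inl h
        · exact Or.inr h
    refine hU.subset ?_
    rintro s ⟨t, ht⟩
    exact Set.mem_biUnion ht (Sym2.mem_mk_left s t)
  have hBfin : (⋃ s ∈ {s : V | ∃ t, s(s, t) ∈ bd X (tproj w ⁻¹' A j)}, ball X s r).Finite :=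
    hSfin.biUnion fun s _ => (hb s).1
  choose f hf using hT.leave
  obtain ⟨l0, hl0⟩ : ∃ l0, ∀ z ∈ (⋃ s ∈ {s : V | ∃ t, s(s, t) ∈ bd X (tproj w ⁻¹' A j)},
      ball X s r), f (tproj w z) ≤ l0 := by
    obtain ⟨l0, hl0⟩ := (hBfin.image fun z => f (tproj w z)).bddAbove
    exact ⟨l0, fun z hz => hl0 (Set.mem_image_of_mem _ hz)⟩
  refine ⟨max j l0, le_max_left _ _, ?_⟩
  intro x y hx hxy
  by_contra hy
  have hxj : x ∈ tproj w ⁻¹' A j := hanti (le_max_left j l0) hx
  obtain ⟨p, hp⟩ := hcon.exists_walk_length_eq_dist x y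
  obtain ⟨s, t, hst, hs, ht, hd⟩ := far_walk hcon (tproj w ⁻¹' A j) p hxj hy
  have hmem : x ∈ (⋃ s ∈ {s : V | ∃ t, s(s, t) ∈ bd X (tproj w ⁻¹' A j)}, ball X s r) := by
    refine Set.mem_biUnion (x := s) ⟨t, s, t, hst, hs, ht, rfl⟩ ?_
    change X.dist s x ≤ r
    rw [SimpleGraph.dist_comm]
    omega
  have h5 := hl0 x hmem
  exact hf (tproj w x) (hanti (h5.trans (le_max_right j l0)) hx)

end Pool.Agent.PT2
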