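import Pool.Agent.PT2.Stmts

set_option autoImplicit false

namespace Pool.Agent.PT2

open Pool.Agent.ACC Pool.Agent.KUR

namespace FCN_

variable {V : Type} {P : SimpleGraph V} {S : Set V} {A : ℕ → Set V} {μ : ℕ}
  {W : ℕ → Set V} {s : ℕ → Fin μ → V} {T : ℕ → Fin μ → Set V} {q : ℕ → Fin μ}
  {L : ℕ} {X : Set V}

theorem W_anti (h : Strip P μ W s T) {a b : ℕ} (hab : a ≤ b) : W b ⊆ W a := by
  induction b, hab using Nat.le_induction with
  | base => exact subset_rfl
  | succ n hn ih => exact (h.anti n).trans ih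

theorem T_sub_W (h : Strip P μ W s T) {m : ℕ} {i : Fin μ} {x : V} (hx : x ∈ T m i) :
    x ∈ W m := by
  rcases h.sub m i x hx with rfl | hx
  · exact h.anti m (h.sW (m + 1) i).1
  · exact hx.1

/-- among four tracks one contains no point of `X` -/
theorem free_track (h4 : ∀ j i j' i' x, x ∈ T j i → x ∈ T j' i' → i = i')
    (hX : X.Finite) (hX3 : X.ncard ≤ 3) (f : Fin 4 → Fin μ) (hf : Function.Injective f) :
    ∃ a, ∀ m, ∀ x ∈ X, x ∉ T m (f a) := by
  by_contra hcon
  push Not at hcon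
  choose m x hx hxT using hcon
  have hinj : Function.Injective x := by
    intro a b hab
    apply hf
    have h1 := hxT a
    rw [hab] at h1
    exact h4 _ _ _ _ _ h1 (hxT b)
  have h1 : (Set.range x).ncard = 4 := by
    rw [← Set.image_univ, Set.ncard_image_of_injective _ hinj, Set.ncard_univ, Nat.card_fin]
  have h2 : (Set.range x).ncard ≤ X.ncard :=
    Set.ncard_le_ncard (by rintro _ ⟨a, rfl⟩; exact hx a) hX
  omega

/-- the level of a track point can be chosen between the given levels -/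
theorem T_norm (h : Strip P μ W s T) {m a b : ℕ} {i : Fin μ} {z : V} (hz : z ∈ T m i)
    (ha : z ∈ W a) (hb : z ∉ W b) : ∃ m', a ≤ m' ∧ m' < b ∧ z ∈ T m' i := by
  rcases h.sub m i z hz with rfl | ⟨h1, h2⟩
  · refine ⟨m + 1, ?_, ?_, h.lo _ _⟩
    · by_contra hc
      exact (h.sW (m + 1) i).2 (W_anti h (by omega) ha)
    · by_contra hc
      exact hb (W_anti h (by omega) (h.sW (m + 1) i).1)
  · refine ⟨m, ?_, ?_, hz⟩
    · by_contra hc
      exact h2 (W_anti h (by omega) ha)
    · by_contra hc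
      exact hb (W_anti h (by omega) h1)

theorem loc_norm (h : Strip P μ W s T) {m a b i : ℕ} {z : V} (hz : Loc P W T q m i z)
    (ha : z ∈ W a) (hb : z ∉ W b) : ∃ m', a ≤ m' ∧ m' < b ∧ Loc P W T q m' i z := by
  rcases hz with hz | ⟨hz, hz'⟩
  · obtain ⟨m', h1, h2, h3⟩ := T_norm h hz ha hb
    exact ⟨m', h1, h2, Or.inl h3⟩
  · refine ⟨m, ?_, ?_, Or.inr ⟨hz, hz'⟩⟩
    · by_contra hc
      exact hz.2.1 (W_anti h (by omega) ha)
    · by_contra hc
      exact hb (W_anti h (by omega) hz.1)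

theorem loc_W (h : Strip P μ W s T) {m i : ℕ} {z : V} (hz : Loc P W T q m i z) : z ∈ W m := by
  rcases hz with hz | ⟨hz, -⟩
  · exact T_sub_W h hz
  · exact hz.1

/-- one step: the attachments are kept, or the next point is on a neighbouring track -/
theorem step (oft : Stmt_OFT) (hL : Lane P S A μ W s T q L) {m i : ℕ} {z z' : V}
    (hi : 1 < i) (hiL : i < L) (hz : Loc P W T q m i z) (hadj : P.Adj z z')
    (hz' : (∃ m' u, z' ∈ T m' u) ∨ ∃ m', z' ∈ Off W T m') :
    (∃ m', Loc P W T q m' i z') ∨ ∃ m', z' ∈ T m' (q (i - 1)) ∨ z' ∈ T m' (q (i + 1)) := by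
  obtain ⟨o1, o2, o3, o4, o5, o6⟩ := oft V P μ W s T hL.st
  rcases hz with hz | ⟨hz, z2, hz2, hr⟩
  · rcases hz' with ⟨m', u, hz'⟩ | ⟨m', hz'⟩
    · by_cases hu : u = q i
      · subst hu
        exact Or.inl ⟨m', Or.inl hz'⟩
      · obtain ⟨m2, h1, h2⟩ := o2 m (q i) m' u z z' hz hz' (Ne.symm hu) hadj
        have hc : Cnn P W T m2 (q i) u := by
          refine ⟨z, h1, z', h2, Rch.of_adj ?_ ?_ hadj⟩
          · exact Or.inr (Or.inl rfl)
          · exact Or.inr (Or.inr rfl)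
        rcases hL.qnb m2 i u hi hiL hu hc with rfl | rfl
        · exact Or.inr ⟨m2, Or.inl h2⟩
        · exact Or.inr ⟨m2, Or.inr h2⟩
    · left
      refine ⟨m', Or.inr ⟨hz', ?_⟩⟩
      rcases o1 m' z' z hz' hadj.symm with h | ⟨u, h⟩
      · exact absurd hz (o6 m' m (q i) z h)
      · have := (o4 m (q i) m' u z hz h).1
        subst this
        exact ⟨z, h, Rch.of_adj (Or.inl hz') (Or.inr rfl) hadj.symm⟩
  · rcases o1 m z z' hz hadj with h | ⟨u, h⟩
    · left
      refine ⟨m, Or.inr ⟨h, z2, hz2, ?_⟩⟩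
      have h1 : Rch P (Off W T m ∪ {z2}) z' z := Rch.of_adj (Or.inl h) (Or.inl hz) hadj.symm
      exact h1.trans hr
    · by_cases hu : u = q i
      · subst hu
        exact Or.inl ⟨m, Or.inl h⟩
      · have hc : Cnn P W T m (q i) u := by
          refine ⟨z2, hz2, z', h, ?_⟩
          have h1 : Rch P (Off W T m ∪ {z2, z'}) z2 z := hr.symm.mono le_rfl (by
            rintro y (hy | hy)
            · exact Or.inl hy
            · rw [Set.mem_singleton_iff] at hy
              exact Or.inr (Or.inl hy))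
          exact h1.trans (Rch.of_adj (Or.inl hz) (Or.inr (Or.inr rfl)) hadj)
        rcases hL.qnb m i u hi hiL hu hc with rfl | rfl
        · exact Or.inr ⟨m, Or.inl h⟩
        · exact Or.inr ⟨m, Or.inr h⟩

/-- a track beyond a slice is a connected set going to the end -/
theorem ray (hL : Lane P S A μ W s T q L) (j1 : ℕ) (u : Fin μ) :
    Cn P {x | ∃ l, j1 ≤ l ∧ x ∈ T l u} ∧
      ∀ k, ({x | ∃ l, j1 ≤ l ∧ x ∈ T l u} ∩ A k).Nonempty := by
  have hst := hL.st
  constructor
  · have key : ∀ l, j1 ≤ l → Rch P {x | ∃ l, j1 ≤ l ∧ x ∈ T l u} (s j1 u) (s l u) := by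
      intro l hl
      induction l, hl using Nat.le_induction with
      | base => exact Rch.refl P ⟨j1, le_rfl, hst.lo _ _⟩
      | succ n hn ih =>
        refine ih.trans (((hst.cn n u).rch (hst.lo n u) (hst.hi n u)).mono le_rfl ?_)
        intro x hx
        exact ⟨n, hn, hx⟩
    refine cn_of_rch (x := s j1 u) ⟨j1, le_rfl, hst.lo _ _⟩ ?_
    rintro y ⟨l, hl, hy⟩
    refine (key l hl).trans (((hst.cn l u).rch (hst.lo l u) hy).mono le_rfl ?_)
    intro x hx
    exact ⟨l, hl, hx⟩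
  · intro k
    obtain ⟨j, hj⟩ := hL.WA k
    refine ⟨s (max j j1) u, ⟨max j j1, le_max_right _ _, hst.lo _ _⟩, hj ?_⟩
    exact W_anti hst (le_max_left _ _) (hst.sW _ _).1

end FCN_

open FCN_ in
theorem fcn_proof (h1 : Stmt_OFT) (_h2 : Stmt_ATT) (h3 : Stmt_LOC) (h4 : Stmt_FRE)
    (h5 : Stmt_FBC) (h6 : Stmt_FCO) : Stmt_FCN := by
  intro V P S A μ W s T q L α β j0 j1 X v hL hM hα hβ hX hX3 hv hvX
  obtain ⟨lv, iv, hlv0, hlv1, hiv0, hiv1, hloc⟩ := hv
  obtain ⟨τ, hτ, hτX, hτR⟩ := h6 V P S A μ W s T q L α β j0 j1 X hL (by omega) (by omega)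
    (by omega) (by omega) hX hX3
  refine ⟨τ, hτ, hτX, ?_⟩
  have hst := hL.st
  obtain ⟨o1, o2, o3, o4, o5, o6⟩ := h1 V P μ W s T hst
  have hfbc := fun l (hl0 : j0 ≤ l) (hl1 : l < j1) (hf : Free W T X l) =>
    h5 V P S A μ W s T q L α β j0 j1 l X hL (by omega) (by omega) (by omega) hl0 hl1 hf
  by_contra hcon
  set D := Win P W T q α β j0 j1 \ X with hD
  have hvD : v ∈ D :=
    ⟨⟨lv, iv, by omega, by omega, Or.inr ⟨by omega, by omega, hloc⟩⟩, hvX⟩
  -- (A)
  have hA : ∀ x, Rch P D v x → ∀ l, j0 ≤ l → l < j1 → Free W T X l →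
      ∀ i, α ≤ i → i ≤ β → x ∉ T l (q i) := by
    intro x hx l hl0 hl1 hf i hi0 hi1 hxT
    have h := (hfbc l hl0 hl1 hf).1 i x hi0 hi1 hxT
    exact hcon ((hx.trans h.symm).trans (hτR l hl0 hl1 hf))
  have hsl : ∀ x, Rch P D v x → ∀ l, j0 ≤ l → l < j1 → Free W T X l → ∀ u, x ∉ T l u := by
    intro x hx l hl0 hl1 hf u hxT
    obtain ⟨⟨l', i', _, _, h⟩, _⟩ := hx.right
    rcases h with ⟨hi0, hi1, hT⟩ | ⟨hi0, hi1, hT | ⟨hOff, _⟩⟩
    · have := (o4 l' (q i') l u x hT hxT).1
      subst this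
      exact hA x hx l hl0 hl1 hf i' hi0 hi1 hxT
    · have := (o4 l' (q i') l u x hT hxT).1
      subst this
      exact hA x hx l hl0 hl1 hf i' hi0.le hi1.le hxT
    · exact o6 l' l u x hOff hxT
  -- free blocks before and after
  obtain ⟨la, hla0, hla1, hfa⟩ := h4 V P μ W s T X (lv - 7) hst hX hX3
  obtain ⟨lb, hlb0, hlb1, hfb⟩ := h4 V P μ W s T X (lv + 1) hst hX hX3
  -- (C)
  have hC : ∀ x, Rch P D v x → x ∈ W (la + 1) ∧ x ∉ W lb := by
    intro x hx
    have key : x ∈ {z | Rch P D v z ∧ z ∈ W (la + 1) ∧ z ∉ W lb} := by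
      refine hx.closed _ ?_ ?_
      · refine ⟨Rch.refl P hvD, ?_, ?_⟩
        · exact W_anti hst (by omega) (loc_W hst hloc)
        · intro hvb
          rcases hloc with hT | ⟨hOff, _⟩
          · rcases hst.sub lv _ v hT with heq | ⟨ha, hb⟩
            · by_cases hlb : lb = lv + 1
              · refine hsl v (Rch.refl P hvD) lb (by omega) (by omega) hfb (q iv) ?_
                rw [heq, hlb]
                exact hst.lo _ _
              · rw [heq] at hvb
                exact (hst.sW (lv + 1) (q iv)).2 (W_anti hst (by omega) hvb)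
            · exact hb (W_anti hst (by omega) hvb)
          · exact hOff.2.1 (W_anti hst (by omega) hvb)
      · rintro u ⟨hu, hua, hub⟩ u' hu'D hadj
        have hu' : Rch P D v u' := hu.trans (Rch.of_adj hu.right hu'D hadj)
        refine ⟨hu', ?_, ?_⟩
        · by_contra hn
          obtain ⟨i, hi⟩ := hst.out (la + 1) u u' hadj hua hn
          refine hsl u hu la (by omega) (by omega) hfa i ?_
          rw [hi]
          exact hst.hi _ _
        · intro hn
          obtain ⟨i, hi⟩ := hst.out lb u' u hadj.symm hn hub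
          refine hsl u' hu' lb (by omega) (by omega) hfb i ?_
          rw [hi]
          exact hst.lo _ _
    exact key.2
  -- (B)
  have hB : ∀ i, α ≤ i → i ≤ β → (∀ m, ∀ x ∈ X, x ∉ T m (q i)) → ∀ m z, Rch P D v z →
      z ∉ T m (q i) := by
    intro i hi0 hi1 hfree m z hz hzT
    have hzC := hC z hz
    obtain ⟨m', hm0, hm1, hm⟩ := T_norm hst hzT hzC.1 hzC.2
    have hsub : ∀ m, j0 ≤ m → m < j1 → T m (q i) ⊆ D := by
      intro m hm0 hm1 x hx
      exact ⟨⟨m, i, hm0, hm1, Or.inl ⟨hi0, hi1, hx⟩⟩, fun hxX => hfree m x hxX hx⟩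
    have chain : ∀ m, la ≤ m → m < j1 → Rch P D (s la (q i)) (s m (q i)) := by
      intro m hm
      induction m, hm using Nat.le_induction with
      | base =>
        intro _
        exact Rch.refl P (hsub la (by omega) (by omega) (hst.lo _ _))
      | succ n hn ih =>
        intro hn1
        refine (ih (by omega)).trans (((hst.cn n (q i)).rch (hst.lo n (q i))
          (hst.hi n (q i))).mono le_rfl (hsub n (by omega) (by omega)))
    have h1 : Rch P D (s m' (q i)) z :=
      ((hst.cn m' (q i)).rch (hst.lo m' (q i)) hm).mono le_rfl (hsub m' (by omega) (by omega))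
    have h2 : Rch P D v (s la (q i)) :=
      hz.trans ((chain m' (by omega) (by omega)).trans h1).symm
    exact hA _ h2 la (by omega) (by omega) hfa i hi0 hi1 (hst.lo _ _)
  -- free columns
  have h4' : ∀ j i j' i' x, x ∈ T j i → x ∈ T j' i' → i = i' := fun j i j' i' x h h' =>
    (o4 j i j' i' x h h').1
  obtain ⟨ap, hap⟩ := free_track h4' hX hX3 (fun a : Fin 4 => q (iv + 1 + a)) (by
    intro a b hab
    have := hL.qinj (iv + 1 + a) (iv + 1 + b) (by omega) (by omega) (by omega) (by omega) hab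
    exact Fin.ext (by omega))
  obtain ⟨am, ham⟩ := free_track h4' hX hX3 (fun a : Fin 4 => q (iv - 4 + a)) (by
    intro a b hab
    have := hL.qinj (iv - 4 + a) (iv - 4 + b) (by omega) (by omega) (by omega) (by omega) hab
    exact Fin.ext (by omega))
  obtain ⟨ip, hip⟩ : ∃ ip, ip = iv + 1 + (ap : ℕ) := ⟨_, rfl⟩
  obtain ⟨im, him⟩ : ∃ im, im = iv - 4 + (am : ℕ) := ⟨_, rfl⟩
  have hapf : ∀ m, ∀ x ∈ X, x ∉ T m (q ip) := by rw [hip]; exact hap
  have hamf : ∀ m, ∀ x ∈ X, x ∉ T m (q im) := by rw [him]; exact ham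
  have hap4 := ap.2
  have ham4 := am.2
  -- (D)
  have hDD : ∀ z, Rch P D v z → ∃ m i, im < i ∧ i < ip ∧ Loc P W T q m i z := by
    intro z hz
    have key : z ∈ {z | Rch P D v z ∧ ∃ m i, im < i ∧ i < ip ∧ Loc P W T q m i z} := by
      refine hz.closed _ ⟨Rch.refl P hvD, lv, iv, by omega, by omega, hloc⟩ ?_
      rintro u ⟨hu, m, i, hi0, hi1, hl⟩ u' hu'D hadj
      have hu' : Rch P D v u' := hu.trans (Rch.of_adj hu.right hu'D hadj)
      refine ⟨hu', ?_⟩
      have hloc' : (∃ m' w, u' ∈ T m' w) ∨ ∃ m', u' ∈ Off W T m' := by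
        obtain ⟨⟨l', i', _, _, h⟩, _⟩ := hu'D
        rcases h with ⟨_, _, hT⟩ | ⟨_, _, hT | ⟨hOff, _⟩⟩
        · exact Or.inl ⟨_, _, hT⟩
        · exact Or.inl ⟨_, _, hT⟩
        · exact Or.inr ⟨_, hOff⟩
      rcases step h1 hL (by omega) (by omega) hl hadj hloc' with ⟨m', h⟩ | ⟨m', h | h⟩
      · exact ⟨m', i, hi0, hi1, h⟩
      · by_cases hc : im < i - 1
        · exact ⟨m', i - 1, hc, by omega, Or.inl h⟩
        · have : i - 1 = im := by omega
          rw [this] at h
          exact absurd h (hB im (by omega) (by omega) hamf m' u' hu')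
      · by_cases hc : i + 1 < ip
        · exact ⟨m', i + 1, by omega, hc, Or.inl h⟩
        · have : i + 1 = ip := by omega
          rw [this] at h
          exact absurd h (hB ip (by omega) (by omega) hapf m' u' hu')
    exact key.2
  -- (E)
  set I : Set V := {y | Rch P D v y} with hI
  have hE : nbr P I ⊆ X := by
    rintro y ⟨hyI, x, hx, hadj⟩
    by_contra hyX
    have hx' : Rch P D v x := hx
    obtain ⟨m, i, hi0, hi1, hl⟩ := hDD x hx'
    obtain ⟨m', hm0, hm1, hl'⟩ := loc_norm hst hl (hC x hx').1 (hC x hx').2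
    obtain ⟨l', i', e1, e2, e3, e4, hl2⟩ := h3 V P S A μ W s T q L m' i x y hL hl' (by omega)
      (by omega) (by omega) hadj
    have hyD : y ∈ D :=
      ⟨⟨l', i', by omega, by omega, Or.inr ⟨by omega, by omega, hl2⟩⟩, hyX⟩
    exact hyI (hx'.trans (Rch.of_adj hx'.right hyD hadj))
  -- (F)
  have hIS : I ⊆ S := by
    intro x hx
    obtain ⟨m, i, _, _, hl⟩ := hDD x hx
    exact hL.WS m (loc_W hst hl)
  have hμ := hL.four
  obtain ⟨au, hau⟩ := free_track h4' hX hX3 (Fin.castLE hμ) (Fin.castLE_injective hμ)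
  obtain ⟨hR1, hR2⟩ := ray hL j1 (Fin.castLE hμ au)
  have hfin : (nbr P I).Finite := hX.subset hE
  have hcard : (nbr P I).ncard ≤ 3 := (Set.ncard_le_ncard hE hX).trans hX3
  obtain ⟨x, ⟨l, hl, hxT⟩, hx⟩ := hM I hIS (cn_comp hvD) hfin hcard _ hR1 hR2
  rcases hx with hx | hx
  · exact (hC x hx).2 (W_anti hst (by omega) (T_sub_W hst hxT))
  · exact hau l x (hE hx) hxT

end Pool.Agent.PT2
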