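import Pool.Agent.PT2.StmtsP
import Pool.Agent.ACC.Lib
import Pool.Agent.KUR.Lib

/-!
MP_851278_al (S02151), PART II, module FIL: components of a maximal `D` are filled and have bonds
as boundaries.
-/

set_option autoImplicit false

namespace Pool.Agent.PT2

open Pool.Agent.ACC Pool.Agent.KUR

namespace FILAux

theorem rch_univ {V : Type} {X : SimpleGraph V} (hX : X.Connected) (x y : V) :
    Rch X Set.univ x y := by
  obtain ⟨p⟩ := hX.preconnected x y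
  exact ⟨p, fun _ _ => Set.mem_univ _⟩

/-- from a point outside `I` one can walk outside `I` to a neighbour of `I` -/
theorem to_nbr {V : Type} {Y : SimpleGraph V} (hY : Y.Connected) {I : Set V} {v a : V}
    (hv : v ∉ I) (ha : a ∈ I) : ∃ u ∈ nbr Y I, Rch Y Iᶜ v u := by
  obtain ⟨u, t, hu, ht, -, -, hut, hr⟩ := (rch_univ hY v a).exit Iᶜ hv (fun h => h ha)
  rw [Set.univ_inter] at hr
  exact ⟨u, ⟨hu, t, not_not.1 ht, hut.symm⟩, hr⟩

end FILAux

open FILAux in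
theorem fil_proof (h1 : Stmt_ADD) : Stmt_FIL := by
  classical
  intro V X Y G lam k c w D hC x hx
  obtain ⟨⟨hnf, hn3⟩, hzf, hzc⟩ := hC.max.1 x hx
  have hYc : Y.Connected := hC.st.sp.2.1
  have hYX : Y ≤ X := hC.st.sp.1
  have hIcn : Cn Y (cmp Y D x) := cn_comp hx
  have hxI : x ∈ cmp Y D x := Rch.refl Y hx
  have hdis : Disjoint (nbr Y (cmp Y D x)) D := by
    rw [Set.disjoint_left]
    rintro u ⟨hu, t, ht, htu⟩ huD
    exact hu (Rch.trans ht (Rch.of_adj (Rch.right ht) huD htu))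
  have hmaxI : ∀ J : Set V, Cn Y J → J ⊆ D → x ∈ J → J ⊆ cmp Y D x := by
    intro J hJ hJD hxJ y hy
    exact (hJ.rch hxJ hy).mono le_rfl hJD
  generalize cmp Y D x = I at hnf hn3 hzf hzc hIcn hxI hdis hmaxI
  -- some component of the complement has infinite trace
  have hZ : (Iᶜ ∩ ZZ X w).Infinite := by
    intro hfin
    apply hC.inf
    refine (hzf.union hfin).subset ?_
    intro z hz
    by_cases hzU : z ∈ I
    · exact Or.inl ⟨hzU, hz⟩
    · exact Or.inr ⟨hzU, hz⟩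
  have hex : ∃ y ∈ nbr Y I, (cmp Y Iᶜ y ∩ ZZ X w).Infinite := by
    by_contra hno
    push Not at hno
    have hsub : Iᶜ ∩ ZZ X w ⊆ ⋃ y ∈ nbr Y I, (cmp Y Iᶜ y ∩ ZZ X w) := by
      rintro z ⟨hzI, hzZ⟩
      obtain ⟨u, hu, hr⟩ := to_nbr hYc hzI hxI
      simp only [Set.mem_iUnion]
      exact ⟨u, hu, hr.symm, hzZ⟩
    exact hZ ((hnf.biUnion (fun a ha => hno a ha)).subset hsub)
  obtain ⟨y, hy, hyinf⟩ := hex
  have hyI : y ∈ Iᶜ := hy.1
  have hCcn : Cn Y (cmp Y Iᶜ y) := cn_comp hyI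
  have hCI : cmp Y Iᶜ y ⊆ Iᶜ := fun u hu => Rch.right hu
  have hcl : ∀ u ∈ cmp Y Iᶜ y, ∀ v, v ∉ I → Y.Adj u v → v ∈ cmp Y Iᶜ y := by
    intro u hu v hv huv
    exact Rch.trans hu (Rch.of_adj (Rch.right hu) hv huv)
  generalize cmp Y Iᶜ y = C at hyinf hCcn hCI hcl
  have hIC : I ⊆ Cᶜ := fun u hu hu' => hCI hu' hu
  -- the filled set is connected
  have hJcn : Cn Y Cᶜ := by
    refine cn_of_rch (x := x) (hIC hxI) ?_
    intro v hv
    by_cases hvI : v ∈ I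
    · exact (hIcn.rch hxI hvI).mono le_rfl hIC
    · obtain ⟨u, hu, hr⟩ := to_nbr hYc hvI hxI
      have hr' : Rch Y Cᶜ v u := by
        have h3 : Rch Y (Iᶜ ∩ Cᶜ) v u := by
          refine hr.closed {t | Rch Y (Iᶜ ∩ Cᶜ) v t} (Rch.refl Y ⟨hvI, hv⟩) ?_
          intro a ha b hb hab
          have ha' : Rch Y (Iᶜ ∩ Cᶜ) v a := ha
          have hbC : b ∉ C := fun hbC => ha'.right.2 (hcl b hbC a ha'.right.1 hab.symm)
          exact Rch.trans ha' (Rch.of_adj ha'.right ⟨hb, hbC⟩ hab)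
        exact h3.mono le_rfl Set.inter_subset_right
      obtain ⟨huI, t, ht, htu⟩ := hu
      have h4 : Rch Y Cᶜ x t := (hIcn.rch hxI ht).mono le_rfl hIC
      have h5 : Rch Y Cᶜ t u := Rch.of_adj h4.right hr'.right htu
      exact (h4.trans h5).trans hr'.symm
  have hJn : nbr Y Cᶜ ⊆ nbr Y I := by
    rintro v ⟨hv, u, hu, huv⟩
    have hvC : v ∈ C := not_not.1 hv
    refine ⟨hCI hvC, u, ?_, huv⟩
    by_contra huI
    exact hu (hcl v hvC u huI huv.symm)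
  have hJf : (nbr Y Cᶜ).Finite := hnf.subset hJn
  have hJ3 : (nbr Y Cᶜ).ncard ≤ 3 := (Set.ncard_le_ncard hJn hnf).trans hn3
  have hJs := hC.small Cᶜ hJf hJ3
  have hJtr : (Cᶜ ∩ ZZ X w).Finite ∧ (Cᶜ ∩ ZZ X w).ncard ≤ c := by
    rcases hC.tri Cᶜ hJs with h | h
    · exact h
    · exfalso
      rw [compl_compl] at h
      exact hyinf h.1
  have hadm := h1 V Y (ZZ X w) c D Cᶜ hC.max.1 hJcn hJf hJ3 hJtr.1 hJtr.2
    (hdis.mono_left hJn)
  have hEq : D ∪ Cᶜ = D := hC.max.2 _ hadm Set.subset_union_left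
  have hJD : Cᶜ ⊆ D := by
    intro u hu
    rw [← hEq]
    exact Or.inr hu
  have hJI : Cᶜ ⊆ I := hmaxI _ hJcn hJD (hIC hxI)
  have hIeq : I = Cᶜ := Set.Subset.antisymm hIC hJI
  have hIceq : Iᶜ = C := by rw [hIeq, compl_compl]
  have hIs := hC.small I hnf hn3
  refine ⟨by rw [hIceq]; exact hCcn, ⟨hIs.1, ?_, ?_⟩, hIs.2, ⟨y, hy⟩⟩
  · rw [← cn_iff]
    exact hIcn.mono hYX
  · rw [← cn_iff, hIceq]
    exact hCcn.mono hYX

end Pool.Agent.PT2
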