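import Pool.Agent.PT2.StmtsR
import Pool.Agent.ACC.LibB

/-!
# PTR/FMD: minor models can be taken finite
-/

set_option autoImplicit false

namespace Pool.Agent.PT2

open Pool.Agent.ACC Pool.Agent.KUR

namespace FMD_

theorem fin_cn {V : Type} {P : SimpleGraph V} {A F : Set V} (hA : Cn P A) (hF : F.Finite)
    (hFA : F ⊆ A) : ∃ B : Set V, F ⊆ B ∧ B ⊆ A ∧ B.Finite ∧ Cn P B := by
  classical
  obtain ⟨a, ha⟩ := hA.1
  have h1 : ∀ x : V, ∃ w : List V, x ∈ A → (x ∈ w ∧ (∀ z ∈ w, z ∈ A) ∧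
      ∀ z ∈ w, ∃ p : P.Walk a z, ∀ t ∈ p.support, t ∈ w) := by
    intro x
    by_cases hx : x ∈ A
    · obtain ⟨w, hw⟩ := hA.2 a ha x hx
      refine ⟨w.support, fun _ => ⟨w.end_mem_support, hw, fun z hz => ?_⟩⟩
      exact ⟨w.takeUntil z hz, fun t ht => w.support_takeUntil_subset_support hz ht⟩
    · exact ⟨[], fun h => absurd h hx⟩
  choose w hw using h1
  refine ⟨{a} ∪ ⋃ x ∈ F, {z | z ∈ w x}, ?_, ?_, ?_, ?_⟩
  · intro x hx
    exact Or.inr (Set.mem_biUnion hx (hw x (hFA hx)).1)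
  · rintro z (hz | hz)
    · rw [Set.mem_singleton_iff.mp hz]; exact ha
    · rw [Set.mem_iUnion₂] at hz
      obtain ⟨x, hx, hz⟩ := hz
      exact (hw x (hFA hx)).2.1 z hz
  · exact (Set.finite_singleton a).union (hF.biUnion (fun x _ => List.finite_toSet (w x)))
  · refine cn_of_base a (Or.inl rfl) ?_
    rintro z (hz | hz)
    · rw [Set.mem_singleton_iff.mp hz]
      refine ⟨SimpleGraph.Walk.nil, fun t ht => ?_⟩
      rw [SimpleGraph.Walk.support_nil, List.mem_singleton] at ht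
      rw [ht]
      exact Or.inl rfl
    · rw [Set.mem_iUnion₂] at hz
      obtain ⟨x, hx, hz⟩ := hz
      obtain ⟨p, hp⟩ := (hw x (hFA hx)).2.2 z hz
      exact ⟨p, fun t ht => Or.inr (Set.mem_biUnion hx (hp t ht))⟩

end FMD_

open FMD_ in
theorem fmd_proof : Stmt_FMD := by
  intro V P
  constructor
  · rintro ⟨A, C, h⟩
    choose x hx y hy hxy using h.adj
    have hA : ∀ i, ∃ B : Set V, Set.range (x i) ⊆ B ∧ B ⊆ A i ∧ B.Finite ∧ Cn P B := by
      intro i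
      refine fin_cn (h.ca i) (Set.finite_range _) ?_
      rintro _ ⟨j, rfl⟩
      exact hx i j
    have hC : ∀ j, ∃ B : Set V, Set.range (fun i => y i j) ⊆ B ∧ B ⊆ C j ∧ B.Finite ∧
        Cn P B := by
      intro j
      refine fin_cn (h.cb j) (Set.finite_range _) ?_
      rintro _ ⟨i, rfl⟩
      exact hy i j
    choose A' hA1 hA2 hA3 hA4 using hA
    choose C' hC1 hC2 hC3 hC4 using hC
    refine ⟨A', C', ⟨hA4, hC4, ?_, ?_, ?_, ?_⟩, hA3, hC3⟩
    · intro i j hij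
      exact (h.da i j hij).mono (hA2 i) (hA2 j)
    · intro i j hij
      exact (h.db i j hij).mono (hC2 i) (hC2 j)
    · intro i j
      exact (h.dab i j).mono (hA2 i) (hC2 j)
    · intro i j
      exact ⟨x i j, hA1 i ⟨j, rfl⟩, y i j, hC1 j ⟨i, rfl⟩, hxy i j⟩
  · rintro ⟨A, h⟩
    have h1 : ∀ i j : Fin 5, ∃ p : V × V, i ≠ j → (p.1 ∈ A i ∧ p.2 ∈ A j ∧ P.Adj p.1 p.2) := by
      intro i j
      by_cases hij : i = j
      · obtain ⟨a, -⟩ := (h.c i).1
        exact ⟨(a, a), fun h' => absurd hij h'⟩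
      · obtain ⟨x, hx, y, hy, hxy⟩ := h.adj i j hij
        exact ⟨(x, y), fun _ => ⟨hx, hy, hxy⟩⟩
    choose p hp using h1
    have hA : ∀ i, ∃ B : Set V, ({z | ∃ j, i ≠ j ∧ (z = (p i j).1 ∨ z = (p j i).2)} : Set V) ⊆ B ∧
        B ⊆ A i ∧ B.Finite ∧ Cn P B := by
      intro i
      refine fin_cn (h.c i) ?_ ?_
      · refine ((Set.finite_range (fun j => (p i j).1)).union
          (Set.finite_range (fun j => (p j i).2))).subset ?_
        rintro z ⟨j, -, rfl | rfl⟩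
        · exact Or.inl ⟨j, rfl⟩
        · exact Or.inr ⟨j, rfl⟩
      · rintro z ⟨j, hij, rfl | rfl⟩
        · exact (hp i j hij).1
        · exact (hp j i hij.symm).2.1
    choose A' hA1 hA2 hA3 hA4 using hA
    refine ⟨A', ⟨hA4, ?_, ?_⟩, hA3⟩
    · intro i j hij
      exact (h.d i j hij).mono (hA2 i) (hA2 j)
    · intro i j hij
      exact ⟨(p i j).1, hA1 i ⟨j, hij, Or.inl rfl⟩, (p i j).2, hA1 j ⟨i, hij.symm, Or.inr rfl⟩,
        (hp i j hij).2.2⟩

end Pool.Agent.PT2
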