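import Pool.Agent.PT2.StmtsP
import Pool.Agent.ACC.LibB
import Pool.Agent.KUR.Lib

/-!
MP_851278_al Part II, module GDP: the graph `ptor Y D` is good.
-/

set_option autoImplicit false

namespace Pool.Agent.PT2

open Pool.Agent.ACC Pool.Agent.KUR

namespace GDPAux

variable {V : Type}

/-- neighbours of a component of `D` are outside `D` -/
theorem nbr_not_mem {Y : SimpleGraph V} {D : Set V} {z n : V}
    (hn : n ∈ nbr Y (cmp Y D z)) : n ∉ D := by
  intro hnD
  obtain ⟨h1, x, hx, hxn⟩ := hn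
  have hx' : Rch Y D z x := hx
  exact h1 (hx'.trans (Rch.of_adj (Rch.right hx') hnD hxn))

end GDPAux

open GDPAux

theorem gdp_proof (h1 : Stmt_PAD) (h2 : Stmt_PWL) (h3 : Stmt_DIA) (h4 : Stmt_CVR)
    (h5 : Stmt_FIL) (h6 : Stmt_BLL) : Stmt_GDP := by
  intro V X Y G lam k c w D hC
  obtain ⟨c1, hc1⟩ := h3 V X Y G lam k c w D hC
  obtain ⟨c2, hc2⟩ := h4 V X Y G lam k c w D hC
  have hlen : ∀ x y, (ptor Y D).Adj x y → X.dist x y ≤ c1 + 1 := by
    intro x y hxy
    obtain ⟨-, -, -, h | ⟨z, hz, hx, hy⟩⟩ := (h1 V Y D x y).1 hxy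
    · have : X.dist x y = 1 := SimpleGraph.dist_eq_one_iff_adj.2 (hC.st.sp.1 h)
      omega
    · have := (hc1 z hz).2.2 x hx y hy
      omega
  refine ⟨?_, c1 + 1 + c2 + lam, ⟨?_, ?_, ?_, ?_⟩⟩
  · intro x
    obtain ⟨b, hb⟩ := h6 V X G hC.st.con hC.st.lf hC.st.aut hC.st.vf (c1 + 1)
    refine (hb x).1.subset ?_
    intro y hy
    exact hlen x y hy
  · intro x y hxy
    exact hxy.2.1
  · intro x y hxy
    have := hlen x y hxy
    omega
  · intro z hz
    by_cases hzD : z ∈ D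
    · obtain ⟨-, -, -, n, hn⟩ := h5 V X Y G lam k c w D hC z hzD
      refine ⟨n, nbr_not_mem hn, ?_⟩
      have := hc2 z hzD hz n hn
      omega
    · refine ⟨z, hzD, ?_⟩
      rw [SimpleGraph.dist_self]
      omega
  · intro x hx y hy
    obtain ⟨p, hp⟩ := hC.st.sp.2.1.exists_walk_length_eq_dist x y
    obtain ⟨q, hq, -⟩ := h2 V Y D x y p hx hy
    refine ⟨q, ?_⟩
    have h7 := spanner_dist_ge hC.st.con hC.st.sp x y
    calc q.length ≤ p.length := hq
      _ = Y.dist x y := hp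
      _ ≤ lam * X.dist x y := h7
      _ ≤ (c1 + 1 + c2 + lam) * X.dist x y := Nat.mul_le_mul_right _ (by omega)

end Pool.Agent.PT2
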