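import Pool.Agent.PT2.StmtsP
import Pool.Agent.KUR.Lib

set_option autoImplicit false

namespace Pool.Agent.PT2

open Pool.Agent.ACC Pool.Agent.KUR

namespace HZCAux

theorem cmp_eq {V : Type} {Y : SimpleGraph V} {D : Set V} {z v : V} (h : v ∈ cmp Y D z) :
    cmp Y D v = cmp Y D z := by
  have h' : Rch Y D z v := h
  ext u
  exact ⟨fun hu => Rch.trans h' hu, fun hu => Rch.trans (Rch.symm h') hu⟩

end HZCAux

open HZCAux

theorem hzc_proof (hCRO : Stmt_CRO) (hCVR : Stmt_CVR) : Stmt_HZC := by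
  intro V X Y G lam k c w D hctx
  obtain ⟨c1, hc1⟩ := hCVR V X Y G lam k c w D hctx
  refine ⟨c1, ?_⟩
  intro Q x y hxy hx hy
  obtain ⟨p, q, _, _, _, hpZ, hqZ, h⟩ := hCRO V X Y G lam k c w D hctx Q x y hxy hx hy
  rcases h with ⟨rfl, rfl⟩ | ⟨z, _, hxn, _, hpq, _, _⟩
  · refine ⟨p, hpZ, ?_⟩
    rw [SimpleGraph.dist_self]
    exact Nat.zero_le _
  · rcases hpq with hp | hq
    · refine ⟨p, hpZ, hc1 p (Rch.right hp) hpZ x ?_⟩
      rw [cmp_eq hp]
      exact hxn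
    · refine ⟨q, hqZ, hc1 q (Rch.right hq) hqZ x ?_⟩
      rw [cmp_eq hq]
      exact hxn

end Pool.Agent.PT2
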