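import Pool.Agent.PT2.StmtsP

/-!
Module LFT: lifting a robust `K_t` minor of the torso.
-/

set_option autoImplicit false

namespace Pool.Agent.PT2

open Pool.Agent.ACC Pool.Agent.KUR

namespace LFTAux

variable {V : Type}

theorem four {N : Set V} (hf : N.Finite) (hc : N.ncard ≤ 3) {p q r s : V} (hp : p ∈ N)
    (hq : q ∈ N) (hr : r ∈ N) (hs : s ∈ N) (pq : p ≠ q) (pr : p ≠ r) (ps : p ≠ s) (qr : q ≠ r)
    (qs : q ≠ s) (rs : r ≠ s) : False := by
  classical
  have h1 : (({p, q, r, s} : Finset V) : Set V) ⊆ N := by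
    intro z hz
    simp only [Finset.coe_insert, Finset.coe_singleton, Set.mem_insert_iff,
      Set.mem_singleton_iff] at hz
    rcases hz with rfl | rfl | rfl | rfl
    · exact hp
    · exact hq
    · exact hr
    · exact hs
  have h2 := Set.ncard_le_ncard h1 hf
  rw [Set.ncard_coe_finset] at h2
  have h3 : ({p, q, r, s} : Finset V).card = 4 := by
    rw [Finset.card_insert_of_notMem (by simp [pq, pr, ps]),
      Finset.card_insert_of_notMem (by simp [qr, qs]),
      Finset.card_insert_of_notMem (by simp [rs]), Finset.card_singleton]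
  omega

theorem cmp_eq {Y : SimpleGraph V} {D : Set V} {z v : V} (h : v ∈ cmp Y D z) :
    cmp Y D v = cmp Y D z := by
  have h' : Rch Y D z v := h
  ext u
  exact ⟨fun hu => Rch.trans h' hu, fun hu => Rch.trans h'.symm hu⟩

theorem mem_cmp {Y : SimpleGraph V} {D : Set V} {z : V} (h : z ∈ D) : z ∈ cmp Y D z :=
  Rch.refl Y h

/-- given by rule 1 -/
def R1 {t : ℕ} (Y : SimpleGraph V) (D : Set V) (M : Fin t → Set V) (v : V) (a : Fin t) : Prop :=
  v ∈ D ∧ ∃ p ∈ nbr Y (cmp Y D v) ∩ M a, ∃ q ∈ nbr Y (cmp Y D v) ∩ M a, p ≠ q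

/-- given by rule 2 -/
def R2 {t : ℕ} (Y : SimpleGraph V) (D : Set V) (M : Fin t → Set V) (x y : Fin t → Fin t → V)
    (v : V) (a : Fin t) : Prop :=
  v ∈ D ∧ (∀ c, ¬ R1 Y D M v c) ∧ ∃ b, a < b ∧ x a b ∈ nbr Y (cmp Y D v) ∧
    y a b ∈ nbr Y (cmp Y D v)

/-- the new branch sets -/
def ff {t : ℕ} (Y : SimpleGraph V) (D : Set V) (M : Fin t → Set V) (x y : Fin t → Fin t → V)
    (a : Fin t) : Set V :=
  M a ∪ {v | R1 Y D M v a ∨ R2 Y D M x y v a}

theorem R1_cmp {t : ℕ} {Y : SimpleGraph V} {D : Set V} {M : Fin t → Set V} {v w : V} {a : Fin t}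
    (h : R1 Y D M v a) (hw : w ∈ cmp Y D v) : R1 Y D M w a := by
  have h' : Rch Y D v w := hw
  refine ⟨h'.right, ?_⟩
  rw [cmp_eq hw]
  exact h.2

theorem R2_cmp {t : ℕ} {Y : SimpleGraph V} {D : Set V} {M : Fin t → Set V}
    {x y : Fin t → Fin t → V} {v w : V} {a : Fin t}
    (h : R2 Y D M x y v a) (hw : w ∈ cmp Y D v) : R2 Y D M x y w a := by
  have h' : Rch Y D v w := hw
  refine ⟨h'.right, fun c hc => ?_, ?_⟩
  · have hv : v ∈ cmp Y D w := h'.symm
    exact h.2.1 c (R1_cmp hc hv)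
  · rw [cmp_eq hw]
    exact h.2.2

/-- a component contained in `F`, whose neighbour `p` is in `F`, is joined to `p` inside `F` -/
theorem rch_nbr {Y : SimpleGraph V} {D F : Set V} {v p w : V} (hv : v ∈ D)
    (hF : cmp Y D v ⊆ F) (hp : p ∈ F) (hpn : p ∈ nbr Y (cmp Y D v)) (hw : w ∈ cmp Y D v) :
    Rch Y F w p := by
  obtain ⟨-, u, hu, hup⟩ := hpn
  have h1 : Rch Y (cmp Y D v) w u := (cn_comp (P := Y) hv).rch hw hu
  exact (h1.mono le_rfl hF).trans (Rch.of_adj (hF hu) hp hup)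

end LFTAux

open LFTAux in
theorem lft_proof (hPAD : Stmt_PAD) : Stmt_LFT := by
  classical
  intro V Y D t ht hD hR hfree
  obtain ⟨M, x, y, hM, hdis, hxy, hrob⟩ := hR
  apply hfree
  rcases Nat.lt_or_ge t 2 with ht2 | ht2
  · -- one vertex
    have ht1 : t = 1 := by omega
    subst ht1
    obtain ⟨v, -⟩ := (hM 0).1
    refine ⟨fun _ => {v}, fun i => (cn_iff Y _).mp (cn_singleton Y v), ?_, ?_⟩
    · intro a b hab
      exact absurd (Subsingleton.elim a b) hab
    · intro a b hab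
      exact absurd (Subsingleton.elim a b) hab
  -- the edges of the torso avoid `D`
  have hadjD : ∀ u v, (ptor Y D).Adj u v → u ∉ D := fun u v h => h.2.1
  have hMD : ∀ a, ∀ v ∈ M a, v ∉ D := by
    intro a v hv
    have hend : ∃ e ∈ M a, ∃ e', (ptor Y D).Adj e e' := by
      obtain ⟨b, hb⟩ : ∃ b : Fin t, b ≠ a := by
        by_cases h0 : a = ⟨0, by omega⟩
        · refine ⟨⟨1, by omega⟩, ?_⟩
          rw [h0]
          intro h
          have := congrArg Fin.val h
          simp at this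
        · exact ⟨⟨0, by omega⟩, fun h => h0 h.symm⟩
      rcases lt_or_gt_of_ne hb with h | h
      · obtain ⟨h1, h2, h3⟩ := hxy b a h
        exact ⟨y b a, h2, _, h3.symm⟩
      · obtain ⟨h1, h2, h3⟩ := hxy a b h
        exact ⟨x a b, h1, _, h3⟩
    obtain ⟨e, he, e', hee⟩ := hend
    by_cases hve : e = v
    · rw [hve] at hee
      exact hadjD _ _ hee
    · have h1 : Rch (ptor Y D) (M a) v e := (hM a).rch hv he
      obtain ⟨u, w, hu, -, -, -, huw, -⟩ := h1.exit {v} rfl hve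
      have hu' : u = v := hu
      rw [hu'] at huw
      exact hadjD _ _ huw
  have hne : ∀ a b, a ≠ b → ∀ p ∈ M a, ∀ q ∈ M b, p ≠ q := by
    intro a b hab p hp q hq hpq
    subst hpq
    exact Set.disjoint_left.mp (hdis a b hab) hp hq
  -- uniqueness of the rules
  have u1 : ∀ v a b, R1 Y D M v a → R1 Y D M v b → a = b := by
    intro v a b ha hb
    by_contra hab
    obtain ⟨hv, p, hp, q, hq, hpq⟩ := ha
    obtain ⟨-, p', hp', q', hq', hpq'⟩ := hb
    exact four (hD v hv).1 (hD v hv).2 hp.1 hq.1 hp'.1 hq'.1 hpq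
      (hne a b hab p hp.2 p' hp'.2) (hne a b hab p hp.2 q' hq'.2)
      (hne a b hab q hq.2 p' hp'.2) (hne a b hab q hq.2 q' hq'.2) hpq'
  have u2 : ∀ v a b, R2 Y D M x y v a → R2 Y D M x y v b → a = b := by
    intro v a c ha hc
    by_contra hac
    obtain ⟨hv, -, b, hab, h1, h2⟩ := ha
    obtain ⟨-, -, d, hcd, h3, h4⟩ := hc
    have hpair : (a, b) ≠ (c, d) := fun h => hac (congrArg Prod.fst h)
    obtain ⟨r1, r2, r3⟩ := hrob a b c d hab hcd hpair
    obtain ⟨-, r4, -⟩ := hrob c d a b hcd hab hpair.symm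
    obtain ⟨m1, m2, -⟩ := hxy a b hab
    obtain ⟨m3, m4, -⟩ := hxy c d hcd
    exact four (hD v hv).1 (hD v hv).2 h1 h2 h3 h4 (hne a b hab.ne _ m1 _ m2) r1 r2 r4.symm r3
      (hne c d hcd.ne _ m3 _ m4)
  have hsubM : ∀ a, M a ⊆ ff Y D M x y a := fun a => Set.subset_union_left
  refine ⟨ff Y D M x y, fun a => (cn_iff Y _).mp ?_, ?_, ?_⟩
  · -- connected
    obtain ⟨m0, hm0⟩ := (hM a).1
    have hin : ∀ m ∈ M a, Rch Y (ff Y D M x y a) m0 m := by
      intro m hm
      have h1 := ((hM a).rch hm0 hm).closed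
        {u | u ∈ M a ∧ Rch Y (ff Y D M x y a) m0 u} ⟨hm0, Rch.refl Y (hsubM a hm0)⟩ (by
          rintro u ⟨huM, hu⟩ v hv huv
          refine ⟨hv, hu.trans ?_⟩
          obtain ⟨huv', -, -, hcase⟩ := (hPAD V Y D u v).mp huv
          rcases hcase with h | ⟨z, hz, hzu, hzv⟩
          · exact Rch.of_adj (hsubM a huM) (hsubM a hv) h
          · have hR1 : R1 Y D M z a := ⟨hz, u, ⟨hzu, huM⟩, v, ⟨hzv, hv⟩, huv'⟩
            have hF : cmp Y D z ⊆ ff Y D M x y a :=
              fun w hw => Or.inr (Or.inl (R1_cmp hR1 hw))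
            exact (rch_nbr hz hF (hsubM a huM) hzu (mem_cmp hz)).symm.trans
              (rch_nbr hz hF (hsubM a hv) hzv (mem_cmp hz)))
      exact h1.2
    refine cn_of_rch (x := m0) (hsubM a hm0) ?_
    rintro v (hv | hv | hv)
    · exact hin v hv
    · have hF : cmp Y D v ⊆ ff Y D M x y a := fun w hw => Or.inr (Or.inl (R1_cmp hv hw))
      obtain ⟨hvD, p, hp, -⟩ := hv
      exact (hin p hp.2).trans (rch_nbr hvD hF (hsubM a hp.2) hp.1 (mem_cmp hvD)).symm
    · have hF : cmp Y D v ⊆ ff Y D M x y a := fun w hw => Or.inr (Or.inr (R2_cmp hv hw))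
      obtain ⟨hvD, -, b, hab, h1, -⟩ := hv
      have hx := (hxy a b hab).1
      exact (hin _ hx).trans (rch_nbr hvD hF (hsubM a hx) h1 (mem_cmp hvD)).symm
  · -- disjoint
    intro a b hab
    rw [Set.disjoint_left]
    rintro v (ha | ha | ha) (hb | hb | hb)
    · exact Set.disjoint_left.mp (hdis a b hab) ha hb
    · exact hMD a v ha hb.1
    · exact hMD a v ha hb.1
    · exact hMD b v hb ha.1
    · exact hab (u1 v a b ha hb)
    · exact hb.2.1 a ha
    · exact hMD b v hb ha.1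
    · exact ha.2.1 b hb
    · exact hab (u2 v a b ha hb)
  · -- adjacent
    have key : ∀ a b, a < b → ∃ p ∈ ff Y D M x y a, ∃ q ∈ ff Y D M x y b, Y.Adj p q := by
      intro a b hab
      obtain ⟨hx, hy, hP⟩ := hxy a b hab
      obtain ⟨-, -, -, hcase⟩ := (hPAD V Y D _ _).mp hP
      rcases hcase with h | ⟨z, hz, hzx, hzy⟩
      · exact ⟨_, hsubM a hx, _, hsubM b hy, h⟩
      · by_cases hc : ∃ c, R1 Y D M z c
        · obtain ⟨c, hc⟩ := hc
          by_cases hca : c = a
          · subst hca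
            obtain ⟨-, u, hu, huy⟩ := hzy
            exact ⟨u, Or.inr (Or.inl (R1_cmp hc hu)), _, hsubM b hy, huy⟩
          · by_cases hcb : c = b
            · subst hcb
              obtain ⟨-, u, hu, hux⟩ := hzx
              exact ⟨_, hsubM a hx, u, Or.inr (Or.inl (R1_cmp hc hu)), hux.symm⟩
            · exfalso
              obtain ⟨-, p, hp, q, hq, hpq⟩ := hc
              exact four (hD z hz).1 (hD z hz).2 hp.1 hq.1 hzx hzy hpq
                (hne c a hca p hp.2 _ hx) (hne c b hcb p hp.2 _ hy)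
                (hne c a hca q hq.2 _ hx) (hne c b hcb q hq.2 _ hy)
                (hne a b hab.ne _ hx _ hy)
        · push Not at hc
          have h2 : R2 Y D M x y z a := ⟨hz, hc, b, hab, hzx, hzy⟩
          obtain ⟨-, u, hu, huy⟩ := hzy
          exact ⟨u, Or.inr (Or.inr (R2_cmp h2 hu)), _, hsubM b hy, huy⟩
    intro a b hab
    rcases lt_or_gt_of_ne hab with h | h
    · exact key a b h
    · obtain ⟨p, hp, q, hq, hpq⟩ := key b a h
      exact ⟨q, hq, p, hp, hpq.symm⟩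

end Pool.Agent.PT2
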