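import Pool.Agent.PT2.StmtsP

/-!
Squad APA, module LIN: a vertex separator of the spanner gives a small cut of `X`.
-/

set_option autoImplicit false

namespace Pool.Agent.PT2

open Pool.Agent.ACC Pool.Agent.KUR

namespace LINAux

variable {V : Type}

/-- first exit edge of a walk, with the length of the initial part -/
theorem exit (Y : SimpleGraph V) (U : Set V) {u v : V} (p : Y.Walk u v) (hu : u ∈ U) (hv : v ∉ U) :
    ∃ a a', Y.Adj a a' ∧ a ∈ U ∧ a' ∉ U ∧ ∃ q : Y.Walk u a, q.length + 1 ≤ p.length := by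
  induction p with
  | nil => exact absurd hu hv
  | @cons u w v h p ih =>
    by_cases hw : w ∈ U
    · obtain ⟨a, a', h1, h2, h3, q, hq⟩ := ih hw hv
      refine ⟨a, a', h1, h2, h3, SimpleGraph.Walk.cons h q, ?_⟩
      rw [SimpleGraph.Walk.length_cons, SimpleGraph.Walk.length_cons]
      omega
    · refine ⟨u, w, h, hu, hw, SimpleGraph.Walk.nil, ?_⟩
      rw [SimpleGraph.Walk.length_cons, SimpleGraph.Walk.length_nil]
      omega

theorem biUnion_bound {W : Type} (B : V → Set W) (n : ℕ) (hB : ∀ f, (B f).Finite ∧ (B f).ncard ≤ n)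
    (F : Set V) (hF : F.Finite) : (⋃ f ∈ F, B f).Finite ∧ (⋃ f ∈ F, B f).ncard ≤ n * F.ncard := by
  induction F, hF using Set.Finite.induction_on with
  | empty => simp
  | @insert a S ha hS ih =>
    rw [Set.biUnion_insert]
    refine ⟨(hB a).1.union ih.1, (Set.ncard_union_le _ _).trans ?_⟩
    rw [Set.ncard_insert_of_notMem ha hS]
    have h1 := (hB a).2
    have h2 := ih.2
    calc (B a).ncard + (⋃ f ∈ S, B f).ncard ≤ n + n * S.ncard := add_le_add h1 h2
      _ = n * (S.ncard + 1) := by ring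

end LINAux

open LINAux in
theorem lin_proof (h1 : Stmt_BLL) : Stmt_LIN := by
  intro V X Y G lam hS
  obtain ⟨b, hb⟩ := h1 V X G hS.con hS.lf hS.aut hS.vf (lam + 1)
  refine ⟨b * b, fun U F hF hUF => ?_⟩
  obtain ⟨hYX, hYc, hsp⟩ := hS.sp
  have hB : ∀ f : V, ((fun p : V × V => s(p.1, p.2)) ''
      (ball X f (lam + 1) ×ˢ ball X f (lam + 1))).Finite ∧
      ((fun p : V × V => s(p.1, p.2)) ''
      (ball X f (lam + 1) ×ˢ ball X f (lam + 1))).ncard ≤ b * b := by
    intro f
    have hfin : (ball X f (lam + 1) ×ˢ ball X f (lam + 1)).Finite := (hb f).1.prod (hb f).1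
    refine ⟨hfin.image _, (Set.ncard_image_le hfin).trans ?_⟩
    rw [Set.ncard_prod]
    exact Nat.mul_le_mul (hb f).2 (hb f).2
  obtain ⟨hfin, hcard⟩ := biUnion_bound _ (b * b) hB F hF
  have key : bd X U ⊆ ⋃ f ∈ F, (fun p : V × V => s(p.1, p.2)) ''
      (ball X f (lam + 1) ×ˢ ball X f (lam + 1)) := by
    rintro e ⟨x, y, hxy, hx, hy, rfl⟩
    obtain ⟨p, hp⟩ := hYc.exists_walk_length_eq_dist x y
    have hlam := hsp x y hxy
    rw [← hp] at hlam
    obtain ⟨a, a', haa, ha, ha', q, hq⟩ := exit Y U p hx hy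
    have main : ∀ f ∈ F, (∃ r : Y.Walk x f, r.length ≤ lam) →
        s(x, y) ∈ ⋃ f ∈ F, (fun p : V × V => s(p.1, p.2)) ''
          (ball X f (lam + 1) ×ˢ ball X f (lam + 1)) := by
      rintro f hf ⟨r, hr⟩
      have hd1 : X.dist x f ≤ lam := by
        have := SimpleGraph.dist_le (r.mapLe hYX)
        rw [SimpleGraph.Walk.length_map] at this
        exact this.trans hr
      have hd2 : X.dist f x ≤ lam := by rw [SimpleGraph.dist_comm]; exact hd1
      have hd3 : X.dist x y ≤ 1 := by
        have := SimpleGraph.dist_le hxy.toWalk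
        rw [SimpleGraph.Adj.toWalk, SimpleGraph.Walk.length_cons, SimpleGraph.Walk.length_nil]
          at this
        exact this
      have hd4 : X.dist f y ≤ lam + 1 := (hS.con.dist_triangle).trans (add_le_add hd2 hd3)
      refine Set.mem_biUnion hf ⟨(x, y), ⟨?_, ?_⟩, rfl⟩
      · show X.dist f x ≤ lam + 1
        omega
      · exact hd4
    rcases hUF a ha a' ha' haa with h | h
    · exact main a h ⟨q, by omega⟩
    · refine main a' h ⟨q.concat haa, ?_⟩
      rw [SimpleGraph.Walk.length_concat]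
      omega
  exact ⟨hfin.subset key, (Set.ncard_le_ncard key hfin).trans hcard⟩

end Pool.Agent.PT2
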