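import Pool.Agent.PT2.StmtsP
import Pool.Agent.ACC.Lib
import Pool.Agent.KUR.Lib

/-!
MP_851278_al (S02151), PART II, module MX4: `P = ptor Y D` is 4-connected up to sets avoided by a
connected set going to the end.
-/

set_option autoImplicit false

namespace Pool.Agent.PT2

open Pool.Agent.ACC Pool.Agent.KUR

namespace MX4Aux

variable {V : Type}

theorem cmp_eq {Y : SimpleGraph V} {D : Set V} {u v : V} (h : v ∈ cmp Y D u) :
    cmp Y D v = cmp Y D u := by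
  ext z
  exact ⟨fun hz => Rch.trans h hz, fun hz => Rch.trans (Rch.symm h) hz⟩

end MX4Aux

open MX4Aux in
theorem mx4_proof (hCRO : Stmt_CRO) (hADD : Stmt_ADD) (hPAD : Stmt_PAD) : Stmt_MX4 := by
  classical
  intro V X Y G lam k c w D A m M hC hT j0 I hIS hIc hIf hI3 R hR hRA
  by_contra hno
  rw [Set.not_nonempty_iff_eq_empty] at hno
  have hRI : ∀ x ∈ R, x ∉ I := fun x hx h => by
    have : x ∈ R ∩ (I ∪ nbr (ptor Y D) I) := ⟨hx, Or.inl h⟩
    rw [hno] at this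
    exact this
  have hRN : ∀ x ∈ R, x ∉ nbr (ptor Y D) I := fun x hx h => by
    have : x ∈ R ∩ (I ∪ nbr (ptor Y D) I) := ⟨hx, Or.inr h⟩
    rw [hno] at this
    exact this
  obtain ⟨Ih, hIh⟩ : ∃ Ih : Set V, Ih = I ∪ {v | v ∈ D ∧ ∃ i ∈ I, i ∈ nbr Y (cmp Y D v)} :=
    ⟨_, rfl⟩
  have hIsub : I ⊆ Ih := by rw [hIh]; exact Set.subset_union_left
  have hcsub : ∀ z i, i ∈ I → i ∈ nbr Y (cmp Y D z) → cmp Y D z ⊆ Ih := by
    intro z i hi hiz v hv
    rw [hIh]
    exact Or.inr ⟨Rch.right hv, i, hi, by rw [cmp_eq hv]; exact hiz⟩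
  have hedge : ∀ x ∈ I, ∀ y ∈ I, (ptor Y D).Adj x y → Rch Y Ih x y := by
    intro x hx y hy hxy
    rcases ((hPAD V Y D x y).1 hxy).2.2.2 with h | ⟨z, hz, hxz, hyz⟩
    · exact Rch.of_adj (hIsub hx) (hIsub hy) h
    · have hsub := hcsub z x hx hxz
      obtain ⟨hx1, a, ha, hax⟩ := hxz
      obtain ⟨hy1, b, hb, hby⟩ := hyz
      have h1 : Rch Y Ih a b := ((cn_comp hz).rch ha hb).mono le_rfl hsub
      exact (Rch.of_adj (hIsub hx) (hsub ha) hax.symm).trans
        (h1.trans (Rch.of_adj (hsub hb) (hIsub hy) hby))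
  have hIhc : Cn Y Ih := by
    obtain ⟨i0, hi0⟩ := hIc.1
    refine cn_of_rch (x := i0) (hIsub hi0) ?_
    have hII : ∀ y ∈ I, Rch Y Ih i0 y := by
      intro y hy
      refine ((hIc.rch hi0 hy).closed {z | z ∈ I ∧ Rch Y Ih i0 z}
        ⟨hi0, Rch.refl Y (hIsub hi0)⟩ ?_).2
      rintro u ⟨hu, hu'⟩ v hv huv
      exact ⟨hv, hu'.trans (hedge u hu v hv huv)⟩
    intro y hy
    rw [hIh] at hy
    rcases hy with hy | ⟨hyD, i, hi, hiy⟩
    · exact hII y hy
    · have hsub := hcsub y i hi hiy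
      obtain ⟨hi1, a, ha, hai⟩ := hiy
      have h1 : Rch Y Ih a y := ((cn_comp hyD).rch ha (Rch.refl Y hyD)).mono le_rfl hsub
      exact (hII i hi).trans ((Rch.of_adj (hIsub hi) (hsub ha) hai.symm).trans h1)
  have hnb : nbr Y Ih ⊆ nbr (ptor Y D) I := by
    rintro v ⟨hv, u, hu, huv⟩
    have hvI : v ∉ I := fun h => hv (hIsub h)
    rw [hIh] at hu
    rcases hu with hu | ⟨huD, i, hi, hiu⟩
    · have hvD : v ∉ D := by
        intro hvD
        apply hv
        rw [hIh]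
        refine Or.inr ⟨hvD, u, hu, ?_, v, Rch.refl Y hvD, huv.symm⟩
        intro h
        exact hIS hu (Rch.right h)
      exact ⟨hvI, u, hu, (hPAD V Y D u v).2 ⟨huv.ne, hIS hu, hvD, Or.inl huv⟩⟩
    · have hvD : v ∉ D := by
        intro hvD
        apply hv
        rw [hIh]
        have hvc : v ∈ cmp Y D u := Rch.of_adj huD hvD huv
        exact Or.inr ⟨hvD, i, hi, by rw [cmp_eq hvc]; exact hiu⟩
      have hvn : v ∈ nbr Y (cmp Y D u) :=
        ⟨fun h => hvD (Rch.right h), u, Rch.refl Y huD, huv⟩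
      refine ⟨hvI, i, hi, (hPAD V Y D i v).2 ⟨?_, hIS hi, hvD, Or.inr ⟨u, huD, hiu, hvn⟩⟩⟩
      rintro rfl
      exact hvI hi
  have hnf : (nbr Y Ih).Finite := hIf.subset hnb
  have hn3 : (nbr Y Ih).ncard ≤ 3 := (Set.ncard_le_ncard hnb hIf).trans hI3
  have hdisj : Disjoint (nbr Y Ih) D := by
    rw [Set.disjoint_left]
    intro v hv hvD
    obtain ⟨-, u, hu, huv⟩ := hnb hv
    exact ((hPAD V Y D u v).1 huv).2.2.1 hvD
  have hA : ∀ a b, a ≤ b → A b ⊆ A a := fun a b hab => antitone_nat_of_succ_le hT.anti hab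
  have hinf : (Ihᶜ ∩ ZZ X w).Infinite := by
    intro hfin
    obtain ⟨r0, hr0⟩ := hR.1
    obtain ⟨l0, hl0⟩ := hT.leave (tproj w r0)
    have hlv : ∀ p : V, ∃ l, tproj w p ∉ A l := fun p => hT.leave (tproj w p)
    choose f hf using hlv
    obtain ⟨L, hL⟩ := (hfin.image f).bddAbove
    obtain ⟨l, hl1, hl2, hl3⟩ : ∃ l, l0 ≤ l ∧ L ≤ l ∧ j0 ≤ l :=
      ⟨max (max l0 L) j0, (le_max_left _ _).trans (le_max_left _ _),
        (le_max_right _ _).trans (le_max_left _ _), le_max_right _ _⟩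
    obtain ⟨x1, hx1R, hx1A⟩ := hRA (l - j0)
    have hx1 : tproj w x1 ∈ A l := by
      have : tproj w x1 ∈ A (j0 + (l - j0)) := hx1A
      rwa [Nat.add_sub_cancel' hl3] at this
    have hr0l : tproj w r0 ∉ A l := fun h => hl0 (hA _ _ hl1 h)
    obtain ⟨x, y, hx, hy, hxR, hyR, hxy, -⟩ :=
      (hR.rch hx1R hr0).exit (tproj w ⁻¹' (A l)) hx1 hr0l
    obtain ⟨p, q, hpq, hpA, hqA, hpZ, hqZ, hcase⟩ :=
      hCRO V X Y G lam k c w D hC (A l) x y hxy hx hy
    have hxD : x ∉ D := ((hPAD V Y D x y).1 hxy).2.1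
    have hyD : y ∉ D := ((hPAD V Y D x y).1 hxy).2.2.1
    have hRp : ∀ p, p ∈ R → p ∉ D → p ∉ Ih := by
      intro p hp hpD h
      rw [hIh] at h
      rcases h with h | ⟨h, -⟩
      · exact hRI p hp h
      · exact hpD h
    have hpI : p ∉ Ih := by
      rcases hcase with ⟨h1, -⟩ | ⟨z, hz, hxz, hyz, -, h2, -⟩
      · rw [h1]
        exact hRp x hxR hxD
      · rcases h2 with h2 | h2 | h2
        · intro h
          rw [hIh] at h
          rcases h with h | ⟨hpD, i, hi, hin⟩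
          · exact hIS h (Rch.right h2)
          · rw [cmp_eq h2] at hin
            apply hRN x hxR
            refine ⟨hRI x hxR, i, hi, (hPAD V Y D i x).2
              ⟨?_, hIS hi, hxD, Or.inr ⟨z, hz, hin, hxz⟩⟩⟩
            rintro rfl
            exact hRI i hxR hi
        · rw [h2]
          exact hRp x hxR hxD
        · rw [h2]
          exact hRp y hyR hyD
    have hfp : f p ≤ L := hL ⟨p, ⟨hpI, hpZ⟩, rfl⟩
    exact hf p (hA _ _ (hfp.trans hl2) hpA)
  have hsm := hC.small Ih hnf hn3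
  rcases hC.tri Ih hsm with ⟨h1, h2⟩ | ⟨h1, -⟩
  · have hadm := hADD V Y (ZZ X w) c D Ih hC.max.1 hIhc hnf hn3 h1 h2 hdisj
    have heq := hC.max.2 _ hadm Set.subset_union_left
    obtain ⟨i0, hi0⟩ := hIc.1
    have h3 : i0 ∈ D ∪ Ih := Or.inr (hIsub hi0)
    rw [heq] at h3
    exact hIS hi0 h3
  · exact hinf h1

end Pool.Agent.PT2
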