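import Pool.Agent.PT2.StmtsP
import Pool.Agent.KUR.Lib

/-!
MP_851278_al, squad APA, module MXD: Zorn.
-/

set_option autoImplicit false

namespace Pool.Agent.PT2

open Pool.Agent.ACC Pool.Agent.KUR

namespace MXDAux

theorem fin_sub {V : Type} {C : Set (Set V)} (hC : IsChain (fun a b : Set V => a ⊆ b) C)
    (hne : C.Nonempty) {S : Set V} (hS : S.Finite) (h : S ⊆ ⋃₀ C) : ∃ D ∈ C, S ⊆ D := by
  induction S, hS using Set.Finite.induction_on with
  | empty =>
    obtain ⟨D, hD⟩ := hne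
    exact ⟨D, hD, Set.empty_subset _⟩
  | @insert a S _ _ ih =>
    obtain ⟨D1, hD1, h1⟩ := ih (fun x hx => h (Set.mem_insert_of_mem _ hx))
    obtain ⟨D2, hD2, h2⟩ := h (Set.mem_insert a S)
    rcases hC.total hD1 hD2 with h12 | h12
    · refine ⟨D2, hD2, ?_⟩
      rintro x (rfl | hx)
      · exact h2
      · exact h12 (h1 hx)
    · refine ⟨D1, hD1, ?_⟩
      rintro x (rfl | hx)
      · exact h12 h2
      · exact h1 hx

theorem exists_D {V : Type} {C : Set (Set V)} (Y : SimpleGraph V)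
    (hC : IsChain (fun a b : Set V => a ⊆ b) C)
    (hne : C.Nonempty) {x : V} (hx : x ∈ ⋃₀ C) {T : Set V} (hT : T.Finite)
    (h : ∀ t ∈ T, Rch Y (⋃₀ C) x t) : ∃ D ∈ C, x ∈ D ∧ ∀ t ∈ T, Rch Y D x t := by
  induction T, hT using Set.Finite.induction_on with
  | empty =>
    obtain ⟨D, hD, hxD⟩ := hx
    exact ⟨D, hD, hxD, fun t ht => absurd ht (Set.notMem_empty t)⟩
  | @insert a S _ _ ih =>
    obtain ⟨D1, hD1, hx1, h1⟩ := ih (fun t ht => h t (Set.mem_insert_of_mem _ ht))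
    obtain ⟨w, hw⟩ := h a (Set.mem_insert a S)
    have hfin : {z | z ∈ w.support}.Finite := List.finite_toSet w.support
    obtain ⟨D2, hD2, h2⟩ := fin_sub hC hne hfin hw
    have hr : Rch Y D2 x a := ⟨w, fun z hz => h2 hz⟩
    rcases hC.total hD1 hD2 with h12 | h12
    · refine ⟨D2, hD2, h12 hx1, ?_⟩
      rintro t (rfl | ht)
      · exact hr
      · exact (h1 t ht).mono le_rfl h12
    · refine ⟨D1, hD1, hx1, ?_⟩
      rintro t (rfl | ht)
      · exact hr.mono le_rfl h12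
      · exact h1 t ht

theorem bound {V : Type} (N : Set V) (m : ℕ)
    (h : ∀ T : Finset V, (T : Set V) ⊆ N → T.card ≤ m) : N.Finite ∧ N.ncard ≤ m := by
  have hfin : N.Finite := by
    by_contra hinf
    have hinf' : N.Infinite := hinf
    obtain ⟨T, hT, hc⟩ := hinf'.exists_subset_card_eq (m + 1)
    have := h T hT
    omega
  refine ⟨hfin, ?_⟩
  have h1 := h hfin.toFinset (by rw [Set.Finite.coe_toFinset])
  rwa [Set.ncard_eq_toFinset_card N hfin]

theorem adm_union {V : Type} (Y : SimpleGraph V) (Z : Set V) (c : ℕ) (C : Set (Set V))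
    (hC : IsChain (fun a b : Set V => a ⊆ b) C) (hA : ∀ D ∈ C, Adm Y Z c D) :
    Adm Y Z c (⋃₀ C) := by
  classical
  intro x hx
  have hne : C.Nonempty := by
    obtain ⟨D, hD, -⟩ := hx
    exact ⟨D, hD⟩
  have hmono : ∀ D ∈ C, ∀ t, Rch Y D x t → Rch Y (⋃₀ C) x t := fun D hD t ht =>
    ht.mono le_rfl (Set.subset_sUnion_of_mem hD)
  constructor
  · apply bound
    intro T hT
    have hex : ∀ y : V, ∃ z : V, y ∈ T → (z ∈ cmp Y (⋃₀ C) x ∧ Y.Adj z y) := by
      intro y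
      by_cases hy : y ∈ T
      · obtain ⟨-, z, hz, hzy⟩ := hT hy
        exact ⟨z, fun _ => ⟨hz, hzy⟩⟩
      · exact ⟨y, fun h => absurd h hy⟩
    choose f hf using hex
    have hfin : (f '' (T : Set V)).Finite := T.finite_toSet.image f
    obtain ⟨D, hD, hxD, hr⟩ := exists_D Y hC hne hx hfin (by
      rintro t ⟨y, hy, rfl⟩
      exact (hf y hy).1)
    have hsub : (T : Set V) ⊆ nbr Y (cmp Y D x) := by
      intro y hy
      refine ⟨fun hyc => (hT hy).1 (hmono D hD y hyc), f y, hr _ ⟨y, hy, rfl⟩, (hf y hy).2⟩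
    obtain ⟨⟨hfD, hcD⟩, -⟩ := hA D hD x hxD
    have h1 := Set.ncard_le_ncard hsub hfD
    rw [Set.ncard_coe_finset] at h1
    omega
  · apply bound
    intro T hT
    obtain ⟨D, hD, hxD, hr⟩ := exists_D Y hC hne hx T.finite_toSet (by
      intro t ht
      exact (hT ht).1)
    have hsub : (T : Set V) ⊆ cmp Y D x ∩ Z := by
      intro y hy
      exact ⟨hr y hy, (hT hy).2⟩
    obtain ⟨-, hfD, hcD⟩ := hA D hD x hxD
    have h1 := Set.ncard_le_ncard hsub hfD
    rw [Set.ncard_coe_finset] at h1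
    omega

end MXDAux

theorem mxd_proof : Stmt_MXD := by
  intro V Y Z c
  obtain ⟨D, hD⟩ := zorn_subset {D : Set V | Adm Y Z c D} (by
    intro C hCS hC
    refine ⟨⋃₀ C, MXDAux.adm_union Y Z c C hC (fun D hD => hCS hD), ?_⟩
    intro s hs
    exact Set.subset_sUnion_of_mem hs)
  refine ⟨D, hD.1, ?_⟩
  intro D' hD' hsub
  exact Set.Subset.antisymm (hD.2 hD' hsub) hsub

end Pool.Agent.PT2
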