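import Pool.Agent.PT2.StmtsP

/-!
MP_851278_al, module NKR: Kuratowski minors live in the set of non-isolated vertices.
-/

set_option autoImplicit false

namespace Pool.Agent.PT2

open Pool.Agent.ACC Pool.Agent.KUR

namespace NKR_

/-- every vertex of a connected set with a vertex of positive degree has positive degree -/
theorem sub {V : Type} (P : SimpleGraph V) (S T : Set V) (hS : ∀ x y, P.Adj x y → x ∈ S)
    (hT : Cn P T) (h : ∃ x ∈ T, x ∈ S) : T ⊆ S := by
  obtain ⟨x, hx, hxS⟩ := h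
  intro y hy
  have := hT.rch hx hy
  exact this.closed S hxS (fun u _ v _ huv => hS v u huv.symm)

end NKR_

theorem nkr_proof : Stmt_NKR := by
  intro V P S B B' hS hB hN
  refine ⟨?_, ?_⟩
  · rintro ⟨A, C, hM, hA, hC⟩
    refine hN.1 ⟨A, C, hM, fun i => ?_, fun i => ?_⟩
    · have h1 : A i ⊆ S := by
        obtain ⟨x, hx, y, -, hxy⟩ := hM.adj i 0
        exact NKR_.sub P S (A i) hS (hM.ca i) ⟨x, hx, hS x y hxy⟩
      exact fun z hz => hB ⟨hA i hz, h1 hz⟩
    · have h1 : C i ⊆ S := by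
        obtain ⟨x, -, y, hy, hxy⟩ := hM.adj 0 i
        exact NKR_.sub P S (C i) hS (hM.cb i) ⟨y, hy, hS y x hxy.symm⟩
      exact fun z hz => hB ⟨hC i hz, h1 hz⟩
  · rintro ⟨A, hM, hA⟩
    refine hN.2 ⟨A, hM, fun i => ?_⟩
    have h1 : A i ⊆ S := by
      obtain ⟨j, hj⟩ : ∃ j : Fin 5, i ≠ j := by
        by_cases h : i = 0
        · exact ⟨1, by rw [h]; decide⟩
        · exact ⟨0, h⟩
      obtain ⟨x, hx, y, -, hxy⟩ := hM.adj i j hj
      exact NKR_.sub P S (A i) hS (hM.c i) ⟨x, hx, hS x y hxy⟩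
    exact fun z hz => hB ⟨hA i hz, h1 hz⟩

end Pool.Agent.PT2
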