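import Pool.Agent.PT2.StmtsP
import Pool.Agent.KUR.Lib

/-!
MP_851278_al, Part II: module PAD, adjacency in `ptor Y D`.
-/

set_option autoImplicit false

namespace Pool.Agent.PT2

open Pool.Agent.ACC Pool.Agent.KUR

namespace PADAux

theorem cmp_eq {V : Type} {Y : SimpleGraph V} {D : Set V} {u v : V} (hu : u ∈ D) (hv : v ∈ D)
    (h : Y.Adj u v) : cmp Y D v = cmp Y D u := by
  have h1 : Rch Y D u v := Rch.of_adj hu hv h
  ext z
  exact ⟨fun hz => h1.trans hz, fun hz => h1.symm.trans hz⟩

end PADAux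

open PADAux in
theorem pad_proof : Stmt_PAD := by
  intro V Y D x y
  constructor
  · rintro ⟨hxy, hx, hy, h⟩
    refine ⟨hxy, hx, hy, ?_⟩
    by_cases hadj : Y.Adj x y
    · exact Or.inl hadj
    right
    obtain ⟨u, v, hu, hv, hu', hv', huv, -⟩ := h.exit
      {u | u = x ∨ (u ∈ D ∧ x ∈ nbr Y (cmp Y D u))} (Or.inl rfl) (by
        rintro (h | h)
        · exact hxy h.symm
        · exact hy h.1)
    have hvx : v ≠ x := fun h => hv (Or.inl h)
    by_cases hvD : v ∈ D
    · exfalso
      apply hv
      right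
      refine ⟨hvD, ?_⟩
      rcases hu with hu | hu
      · subst hu
        exact ⟨fun h => hx h.right, v, Rch.refl Y hvD, huv.symm⟩
      · rw [cmp_eq hu.1 hvD huv]
        exact hu.2
    · have hvy : v = y := by
        rcases hv' with h | h | h
        · exact absurd h hvD
        · exact absurd h hvx
        · exact h
      subst hvy
      rcases hu with hu | hu
      · subst hu
        exact absurd huv hadj
      · exact ⟨u, hu.1, hu.2, fun h => hvD h.right, u, Rch.refl Y hu.1, huv⟩
  · rintro ⟨hxy, hx, hy, h⟩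
    refine ⟨hxy, hx, hy, ?_⟩
    rcases h with h | ⟨z, hz, ⟨-, a, ha, hax⟩, ⟨-, b, hb, hby⟩⟩
    · exact Rch.of_adj (by simp) (by simp) h
    · have hsub : D ⊆ D ∪ {x, y} := Set.subset_union_left
      have h1 : Rch Y (D ∪ {x, y}) x a :=
        Rch.of_adj (by simp) (hsub ha.right) hax.symm
      have h2 : Rch Y (D ∪ {x, y}) a b := (ha.symm.trans hb).mono le_rfl hsub
      have h3 : Rch Y (D ∪ {x, y}) b y := Rch.of_adj (hsub hb.right) (by simp) hby
      exact (h1.trans h2).trans h3

end Pool.Agent.PT2
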