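import Pool.Agent.PT2.StmtsP
import Pool.Agent.ACC.Lib

/-!
MP_851278_al, Part II, module PG1: a new cut of large size and the vertex of the structure tree
at which it lives.
-/

set_option autoImplicit false

namespace Pool.Agent.PT2

open Pool.Agent.ACC Pool.Agent.KUR

namespace PG1Aux

variable {V : Type}

/-- Finite unions of generators are generated. -/
theorem gen_sUnion {S F : Set (Set V)} (hF : F.Finite) (h : ∀ B ∈ F, Gen S B) :
    Gen S (⋃₀ F) := by
  revert h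
  refine Set.Finite.induction_on (motive := fun F _ => (∀ B ∈ F, Gen S B) → Gen S (⋃₀ F)) F hF
    ?_ ?_
  · intro _
    rw [Set.sUnion_empty]
    exact Gen.empty
  · intro a s _ _ ih h
    rw [Set.sUnion_insert]
    exact Gen.union (h a (Set.mem_insert _ _)) (ih fun B hB => h B (Set.mem_insert_of_mem _ hB))

/-- Bounded degrees. -/
theorem deg_bound (T : SimpleGraph V) (H : Subgroup (Equiv.Perm V)) (hl : LocFin T)
    (ha : IsAut T H) (hv : VertFin H) : ∃ D : ℕ, ∀ x : V, ({x} : Set V) ∈ Small T D := by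
  obtain ⟨F, hF, hc⟩ := hv
  have hfin : ∀ x : V, (bd T {x}).Finite := by
    intro x
    refine ((hl x).image (fun y => s(x, y))).subset ?_
    rintro e ⟨a, b, hab, h1, h2, rfl⟩
    rw [Set.mem_singleton_iff] at h1
    subst h1
    exact ⟨b, hab, rfl⟩
  obtain ⟨D, hD⟩ : ∃ D : ℕ, ∀ y ∈ F, (bd T {y}).ncard ≤ D := by
    obtain ⟨D, hD⟩ := (hF.image (fun y => (bd T {y}).ncard)).bddAbove
    exact ⟨D, fun y hy => hD ⟨y, hy, rfl⟩⟩
  refine ⟨D, fun x => ?_⟩
  obtain ⟨g, hg, y, hy, rfl⟩ := hc x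
  have h1 : ({y} : Set V) ∈ Small T D := ⟨hfin y, hD y hy⟩
  have h2 := small_image (ha g hg) h1
  rwa [Set.image_singleton] at h2

/-- The families are increasing. -/
theorem EE_mono (T : SimpleGraph V) (n : ℕ) : EE T n ⊆ EE T (n + 1) := by
  intro A hA
  change A ∈ StepF T n (EE T n)
  exact Or.inl hA

theorem new_mem (T : SimpleGraph V) (n : ℕ) {A : Set V} (h : A ∈ EE T (n + 1))
    (h' : A ∉ EE T n) : A ∈ NestN T n (EE T n) := by
  change A ∈ StepF T n (EE T n) at h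
  rcases h with h | h
  · exact absurd h h'
  · exact h.1

/-- If the families stabilise then the graph is accessible. -/
theorem acc_of_stable (T : SimpleGraph V) (hg : ∀ n, Good T n (EE T n)) (n0 : ℕ)
    (h : ∀ n, n0 ≤ n → EE T (n + 1) ⊆ EE T n) : Acc T := by
  have key : ∀ k, EE T (n0 + k) ⊆ EE T n0 := by
    intro k
    induction k with
    | zero => exact subset_rfl
    | succ k ih => exact (h (n0 + k) (Nat.le_add_right _ _)).trans ih
  refine ⟨n0, fun A hA => ?_⟩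
  have h1 : A ∈ Small T (n0 + (bd T A).ncard) := ⟨hA, Nat.le_add_left _ _⟩
  have h2 := (hg (n0 + (bd T A).ncard)).gen A h1
  refine Gen.trans (fun B hB => Gen.base B ?_) h2
  have hB0 := key _ hB
  exact ⟨((hg n0).bond B hB0).1, (hg n0).card B hB0⟩

/-- A union of hubs and points with finite trace is generated by small cuts. -/
theorem gen_of_finite (T : SimpleGraph V) (hT : T.Connected) (n : ℕ) (hg : Good T n (EE T n))
    (hs : ∀ x : V, ({x} : Set V) ∈ Small T n) (v : Set (Set V))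
    (hH : ∀ C ∈ Hub v, C ∈ EE T n) (hd : ∀ C ∈ Hub v, ∀ C' ∈ Hub v, C ≠ C' → Disjoint C C')
    (B : Set V) (hB : ∀ C ∈ Hub v, C ⊆ B ∨ C ⊆ Bᶜ) (hf : (B ∩ ZZ T v).Finite) :
    Gen (Small T n) B := by
  classical
  -- hubs inside `B`
  have hfin : {C | C ∈ Hub v ∧ C ⊆ B}.Finite := by
    have hch : ∀ C : Set V, ∃ x : V, (C ∈ Hub v ∧ C ⊆ B) → x ∈ C ∧ x ∈ B ∩ ZZ T v := by
      intro C
      by_cases hC : C ∈ Hub v ∧ C ⊆ B
      · have hb := hg.bond C (hH C hC.1)
        obtain ⟨e, x, y, hxy, hx, hy, rfl⟩ := bd_nonempty hT hb.nonempty hb.compl_nonempty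
        exact ⟨x, fun _ => ⟨hx, hC.2 hx, Or.inr ⟨C, hC.1, y, x, y, hxy, hx, hy, rfl⟩⟩⟩
      · obtain ⟨x⟩ := hT.nonempty
        exact ⟨x, fun h => absurd h hC⟩
    choose f hfc using hch
    refine Set.Finite.of_finite_image (f := f) (hf.subset ?_) ?_
    · rintro _ ⟨C, hC, rfl⟩
      exact (hfc C hC).2
    · intro C hC C' hC' he
      by_contra hne
      have hdis := hd C hC.1 C' hC'.1 hne
      exact Set.disjoint_left.1 hdis (hfc C hC).1 (he ▸ (hfc C' hC').1)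
  have hpf : {x | x ∈ B ∧ ∀ C ∈ Hub v, x ∉ C}.Finite :=
    hf.subset fun x hx => ⟨hx.1, Or.inl hx.2⟩
  have hU : B = ⋃₀ ({C | C ∈ Hub v ∧ C ⊆ B} ∪
      (fun x : V => ({x} : Set V)) '' {x | x ∈ B ∧ ∀ C ∈ Hub v, x ∉ C}) := by
    ext x
    constructor
    · intro hx
      by_cases hex : ∃ C ∈ Hub v, x ∈ C
      · obtain ⟨C, hC, hxC⟩ := hex
        rcases hB C hC with h | h
        · exact ⟨C, Or.inl ⟨hC, h⟩, hxC⟩
        · exact absurd hx (h hxC)
      · refine ⟨{x}, Or.inr ⟨x, ⟨hx, fun C hC hxC => hex ⟨C, hC, hxC⟩⟩, rfl⟩, rfl⟩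
    · rintro ⟨C, hC | ⟨y, hy, rfl⟩, hxC⟩
      · exact hC.2 hxC
      · rw [Set.mem_singleton_iff.1 hxC]
        exact hy.1
  rw [hU]
  refine gen_sUnion (hfin.union (hpf.image _)) ?_
  rintro C (hC | ⟨y, -, rfl⟩)
  · have hCE := hH C hC.1
    exact Gen.base C ⟨(hg.bond C hCE).1, hg.card C hCE⟩
  · exact Gen.base _ (hs y)

end PG1Aux

open PG1Aux in
theorem pg1_proof (h1 : Pool.Agent.ACC.Stmt_DDF) (h2 : Pool.Agent.ACC.Stmt_NFE)
    (h3 : Pool.Agent.ACC.Stmt_TOV) (h4 : Pool.Agent.ACC.Stmt_EFV)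
    (h5 : Pool.Agent.ACC.Stmt_HUA) : Stmt_PG1 := by
  intro V T H hT hl ha hv hna M
  have hgood := h1 V T hT
  obtain ⟨D, hD⟩ := deg_bound T H hl ha hv
  have hex : ∃ n, max M D ≤ n ∧ ∃ A, A ∈ EE T (n + 1) ∧ A ∉ EE T n := by
    by_contra hcon
    push Not at hcon
    exact hna (acc_of_stable T hgood (max M D) fun n hn A hA => hcon n hn A hA)
  obtain ⟨n, hn, A, hA, hA'⟩ := hex
  have hN := new_mem T n hA hA'
  have hfam := h2 V T H hT ha (h4 V T H hl ha hv) n
  have hne : A.Nonempty := by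
    by_contra h
    rw [Set.not_nonempty_iff_eq_empty] at h
    exact hN.2.2.1 (h ▸ Gen.empty)
  have hne' : Aᶜ.Nonempty := by
    by_contra h
    rw [Set.not_nonempty_iff_eq_empty] at h
    refine hN.2.2.1 (Gen.of_compl ?_)
    rw [h]
    exact Gen.empty
  obtain ⟨v, hv1, hv2⟩ := h3 V T H (EE T n) n hfam A hne hne' hA' hN.2.2.2
  obtain ⟨hH, hd, -, -⟩ := h5 V (EE T n) v hfam.toNestSet hv1
  have hs : ∀ x : V, ({x} : Set V) ∈ Small T n := fun x =>
    small_mono ((le_max_right M D).trans hn) (hD x)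
  refine ⟨n, A, v, (le_max_left M D).trans hn, hA, hv1, hv2, ?_, ?_⟩
  · intro hf
    exact hN.2.2.1 (gen_of_finite T hT n (hgood n) hs v hH hd A hv2 hf)
  · intro hf
    refine hN.2.2.1 (Gen.of_compl (gen_of_finite T hT n (hgood n) hs v hH hd Aᶜ ?_ hf))
    intro C hC
    rw [compl_compl]
    exact (hv2 C hC).symm

end Pool.Agent.PT2
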