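import Pool.Agent.PT2.StmtsP
import Pool.Agent.ACC.Lib

set_option autoImplicit false

namespace Pool.Agent.PT2

open Pool.Agent.ACC Pool.Agent.KUR

namespace PG2Aux

variable {V : Type}

theorem dist_le' {T : SimpleGraph V} (hT : T.Connected) {g : Equiv.Perm V}
    (hg : ∀ x y, T.Adj (g x) (g y) ↔ T.Adj x y) (x y : V) : T.dist (g x) (g y) ≤ T.dist x y := by
  obtain ⟨w, hw⟩ := hT.exists_walk_length_eq_dist x y
  let f : T →g T := ⟨g, fun {a b} h => (hg a b).2 h⟩
  have h1 : T.dist (f x) (f y) ≤ (w.map f).length := SimpleGraph.dist_le _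
  rw [SimpleGraph.Walk.length_map, hw] at h1
  exact h1

theorem key (zcf : Stmt_ZCF) (bll : Stmt_BLL) {T : SimpleGraph V} {H : Subgroup (Equiv.Perm V)}
    {E v : Set (Set V)} {N : ℕ} (hT : T.Connected) (hlf : LocFin T) (hH : IsAut T H)
    (hvf : VertFin H) (hE : NestFam T H E N) (hv : IsVtx E v) {B : Set V} (hB1 : B.Nonempty)
    (hB2 : Bᶜ.Nonempty) (hfin : (bd T B).Finite)
    (h : ∀ k ∈ stabV H v, (k : Equiv.Perm V) '' B = B ∨ (k : Equiv.Perm V) '' B ⊆ Bᶜ) :
    (B ∩ ZZ T v).Finite := by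
  classical
  obtain ⟨F, hF, -, hFZ⟩ := zcf V T H E v N hH hvf hE hv
  have hball : ∀ (x : V) (r : ℕ), (ball T x r).Finite := fun x r => by
    obtain ⟨b, hb⟩ := bll V T H hT hlf hH hvf r
    exact (hb x).1
  obtain ⟨e, he⟩ := bd_nonempty hT hB1 hB2
  obtain ⟨b, b', hbb', hbB, hb'B, rfl⟩ := he
  set S : Set V := ⋃ e ∈ bd T B, {x | x ∈ e} with hS
  have hSfin : S.Finite := by
    refine hfin.biUnion (fun e _ => ?_)
    induction e with
    | _ x y =>
      refine ((Set.finite_singleton x).union (Set.finite_singleton y)).subset ?_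
      intro z hz
      simpa [or_comm] using hz
  have hsub : B ∩ ZZ T v ⊆ ⋃ y ∈ F, ⋃ s ∈ S, {x | ∃ h0 ∈ stabV H v,
      (h0 : Equiv.Perm V) y ∈ B ∧ x ∈ ball T s (T.dist b
        ((if hy : ∃ h0 ∈ stabV H v, (h0 : Equiv.Perm V) y ∈ B then hy.choose else 1 :
          Equiv.Perm V) y))} := by
    rintro x ⟨hxB, hxZ⟩
    obtain ⟨g, hg, y, hy, rfl⟩ := hFZ x hxZ
    have hex : ∃ h0 ∈ stabV H v, (h0 : Equiv.Perm V) y ∈ B := ⟨g, hg, hxB⟩
    set h0 := hex.choose with hh0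
    have h0s : h0 ∈ stabV H v := hex.choose_spec.1
    have h0y : h0 y ∈ B := hex.choose_spec.2
    have hk : g * h0⁻¹ ∈ stabV H v := (stabV H v).mul_mem hg ((stabV H v).inv_mem h0s)
    have hkx : (g * h0⁻¹) (h0 y) = g y := by simp
    have hkB : (g * h0⁻¹ : Equiv.Perm V) '' B = B := by
      rcases h _ hk with h1 | h1
      · exact h1
      · exact absurd hxB (h1 ⟨h0 y, h0y, hkx⟩)
    have hkaut := hH _ hk.1
    have hkb : (g * h0⁻¹) b ∈ S := by
      have h1 : Sym2.map (g * h0⁻¹ : Equiv.Perm V) s(b, b') ∈ bd T B := by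
        have h2 : Sym2.map (g * h0⁻¹ : Equiv.Perm V) s(b, b') ∈
            bd T ((g * h0⁻¹ : Equiv.Perm V) '' B) := by
          rw [bd_image T _ hkaut]
          exact ⟨_, ⟨b, b', hbb', hbB, hb'B, rfl⟩, rfl⟩
        rwa [hkB] at h2
      rw [hS, Set.mem_iUnion₂]
      refine ⟨_, h1, ?_⟩
      rw [Sym2.map_mk]
      exact Sym2.mem_mk_left _ _
    rw [Set.mem_iUnion₂]
    refine ⟨y, hy, ?_⟩
    rw [Set.mem_iUnion₂]
    refine ⟨_, hkb, g, hg, hxB, ?_⟩
    rw [dif_pos hex]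
    change T.dist ((g * h0⁻¹) b) (g y) ≤ T.dist b (h0 y)
    have := dist_le' hT hkaut b (h0 y)
    rwa [hkx] at this
  refine Set.Finite.subset ?_ hsub
  refine hF.biUnion (fun y _ => hSfin.biUnion (fun s _ => ?_))
  refine (hball s (T.dist b
        ((if hy : ∃ h0 ∈ stabV H v, (h0 : Equiv.Perm V) y ∈ B then hy.choose else 1 :
          Equiv.Perm V) y))).subset ?_
  rintro x ⟨h0, -, -, h3⟩
  exact h3

end PG2Aux

open PG2Aux

theorem pg2_proof (ddf : Pool.Agent.ACC.Stmt_DDF) (dde : Pool.Agent.ACC.Stmt_DDE)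
    (nfe : Pool.Agent.ACC.Stmt_NFE) (zcf : Pool.Agent.ACC.Stmt_ZCF)
    (efv : Pool.Agent.ACC.Stmt_EFV) (bll : Stmt_BLL) : Stmt_PG2 := by
  intro V T H hT hlf hH hvf n A v hA hv hZ1 hZ2
  have hef := efv V T H hlf hH hvf
  have hNF := nfe V T H hT hH hef n
  have hgood := ddf V T hT (n + 1)
  have hbond := hgood.bond A hA
  have hA1 : A.Nonempty := hbond.nonempty
  have hA2 : Aᶜ.Nonempty := hbond.compl_nonempty
  have hfin : (bd T A).Finite := hbond.1
  by_contra hcon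
  push Not at hcon
  have hmem : ∀ h ∈ stabV H v, (h : Equiv.Perm V) '' A ∈ EE T (n + 1) := fun h hh =>
    dde V T h (hH h hh.1) (n + 1) A hA
  have h1 : ∀ h ∈ stabV H v, A ⊆ (h : Equiv.Perm V) '' A → (h : Equiv.Perm V) '' A = A := by
    intro h hh hsub
    have h2 : (h⁻¹ : Equiv.Perm V) '' A ⊆ A := by
      have := (image_subset_image (h⁻¹) _ _).2 hsub
      rwa [image_inv_image] at this
    have h3 := hcon _ ((stabV H v).inv_mem hh) h2
    have h4 : (h : Equiv.Perm V) '' ((h⁻¹ : Equiv.Perm V) '' A) = h '' A := by rw [h3]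
    rw [image_image_inv] at h4
    exact h4.symm
  have h4 : ∀ h ∈ stabV H v, (h : Equiv.Perm V) '' A = A ∨ (h : Equiv.Perm V) '' A ⊆ Aᶜ ∨
      Aᶜ ⊆ (h : Equiv.Perm V) '' A := by
    intro h hh
    rcases hgood.nested _ (hmem h hh) A hA with h5 | h5 | h5 | h5
    · exact Or.inl (hcon h hh h5)
    · exact Or.inr (Or.inl h5)
    · exact Or.inr (Or.inr (Set.compl_subset_comm.1 h5))
    · exact Or.inl (h1 h hh (Set.compl_subset_compl.1 h5))
  by_cases hc : ∀ h ∈ stabV H v, (h : Equiv.Perm V) '' A = A ∨ (h : Equiv.Perm V) '' A ⊆ Aᶜ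
  · exact hZ1 (key zcf bll hT hlf hH hvf hNF hv hA1 hA2 hfin hc)
  · push Not at hc
    obtain ⟨h2, hh2, h5, h6⟩ := hc
    have h7 : Aᶜ ⊆ (h2 : Equiv.Perm V) '' A := by
      rcases h4 h2 hh2 with h8 | h8 | h8
      · exact absurd h8 h5
      · exact absurd h8 h6
      · exact h8
    refine hZ2 (key zcf bll hT hlf hH hvf hNF hv hA2 (by rwa [compl_compl]) (by rwa [bd_compl])
      ?_)
    intro h hh
    rw [image_compl, compl_compl]
    rcases h4 h hh with h8 | h8 | h8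
    · left; rw [h8]
    · exfalso
      have h9 : ((h2⁻¹ * h : Equiv.Perm V) : V → V) '' A ⊆ A := by
        have h10 := (image_subset_image (h2⁻¹) _ _).2 (h8.trans h7)
        rw [image_inv_image, ← Set.image_comp] at h10
        exact h10
      have h11 := hcon _ ((stabV H v).mul_mem ((stabV H v).inv_mem hh2) hh) h9
      have h12 : (h2 : Equiv.Perm V) '' (((h2⁻¹ * h : Equiv.Perm V) : V → V) '' A) =
          h2 '' A := by rw [h11]
      have h13 : (h2 : Equiv.Perm V) '' (((h2⁻¹ * h : Equiv.Perm V) : V → V) '' A) = h '' A := by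
        rw [← Set.image_comp]
        congr 1
        ext x
        simp
      rw [h13] at h12
      exact h6 (h12 ▸ h8)
    · right
      exact Set.compl_subset_comm.1 h8

end Pool.Agent.PT2
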