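import Pool.Agent.PT2.StmtsP
import Pool.Agent.ACC.Lib
import Pool.Agent.KUR.Lib

/-!
MP_851278_al, squad APA, module PNG: chains of cuts in inaccessible graphs.
-/

set_option autoImplicit false

namespace Pool.Agent.PT2

open Pool.Agent.ACC Pool.Agent.KUR

theorem png_proof (hPG1 : Stmt_PG1) (hPG2 : Stmt_PG2) (hZST : Stmt_ZST)
    (hNFE : Pool.Agent.ACC.Stmt_NFE) (hDDF : Pool.Agent.ACC.Stmt_DDF)
    (hDDE : Pool.Agent.ACC.Stmt_DDE) (hZFI : Pool.Agent.ACC.Stmt_ZFI)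
    (hEFV : Pool.Agent.ACC.Stmt_EFV) : Stmt_PNG := by
  intro V T H hT hLF hAut hVF hA M
  obtain ⟨n, A, v, hMn, hAE, hv, -, hinf, hinf'⟩ := hPG1 V T H hT hLF hAut hVF hA M
  obtain ⟨g, hg, hgA, hne⟩ := hPG2 V T H hT hLF hAut hVF n A v hAE hv hinf hinf'
  have hEF := hEFV V T H hLF hAut hVF
  have hN1 := hNFE V T H hT hAut hEF (n + 1)
  have hN := hNFE V T H hT hAut hEF n
  have hG1 := hDDF V T hT (n + 1)
  have hG := hDDF V T hT n
  have hgk : ∀ k : ℕ, g ^ k ∈ stabV H v := fun k => Subgroup.pow_mem _ hg k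
  have hgH : ∀ k : ℕ, g ^ k ∈ H := fun k => (hgk k).1
  have hEE : ∀ k : ℕ, ((g ^ k : Equiv.Perm V) '' A) ∈ EE T (n + 1) := fun k =>
    hDDE V T (g ^ k) (hAut _ (hgH k)) (n + 1) A hAE
  have hsucc : ∀ k : ℕ, ((g ^ (k + 1) : Equiv.Perm V) '' A) =
      ((g ^ k : Equiv.Perm V) '' (g '' A)) := by
    intro k
    rw [pow_succ, Equiv.Perm.coe_mul, Set.image_comp]
  have hzero : ((g ^ 0 : Equiv.Perm V) '' A) = A := by
    rw [pow_zero, Equiv.Perm.coe_one, Set.image_id]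
  have hanti : ∀ k : ℕ, ((g ^ (k + 1) : Equiv.Perm V) '' A) ⊆ ((g ^ k : Equiv.Perm V) '' A) := by
    intro k
    rw [hsucc]
    exact Set.image_mono hgA
  have hstrict : StrictAnti (fun k : ℕ => ((g ^ k : Equiv.Perm V) '' A)) := by
    refine strictAnti_nat_of_succ_lt (fun k => ?_)
    refine lt_of_le_of_ne (hanti k) ?_
    intro h
    rw [hsucc] at h
    exact hne ((Set.image_injective.2 (g ^ k : Equiv.Perm V).injective) h)
  have hsub0 : ∀ k : ℕ, ((g ^ k : Equiv.Perm V) '' A) ⊆ A := by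
    intro k
    have h := hstrict.antitone (Nat.zero_le k)
    simp only [hzero] at h
    exact h
  refine ⟨fun k => ((g ^ k : Equiv.Perm V) '' A), n + 1, hanti, ?_, ?_, ?_, ?_⟩
  · intro x
    by_contra hx
    push Not at hx
    obtain ⟨y, hy, -⟩ := hinf'.nonempty
    have hfin := hN1.lf x y
    refine (Set.infinite_range_of_injective hstrict.injective) (hfin.subset ?_)
    rintro _ ⟨k, rfl⟩
    exact ⟨hEE k, hx k, fun h => hy (hsub0 k h)⟩
  · intro k
    exact ⟨(hG1.bond _ (hEE k)).1, hG1.card _ (hEE k)⟩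
  · intro k
    rw [cn_iff]
    exact (hG1.bond _ (hEE k)).2.1
  · intro k U hkU hU0 hfin
    simp only [hzero] at hU0
    by_contra hlt
    have hgen := hG.gen U ⟨hfin, by omega⟩
    rcases (hZFI V T H (EE T n) v n hN hv).2 U hgen with h | h
    · have h1 : ((g ^ k : Equiv.Perm V) '' (A ∩ ZZ T v)).Infinite :=
        hinf.image (g ^ k : Equiv.Perm V).injective.injOn
      refine h1 (h.subset ?_)
      rintro _ ⟨x, ⟨hx1, hx2⟩, rfl⟩
      exact ⟨hkU ⟨x, hx1, rfl⟩, (hZST V T H v hAut (g ^ k) (hgk k) x).2 hx2⟩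
    · refine hinf' (h.subset ?_)
      rintro x ⟨hx1, hx2⟩
      exact ⟨fun hx => hx1 (hU0 hx), hx2⟩

end Pool.Agent.PT2
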