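import Pool.Agent.PT2.StmtsP
import Pool.Agent.ACC.Lib

/-!
MP_851278_al, module PRE: preimages of connected sets of the torso are connected.
-/

set_option autoImplicit false

namespace Pool.Agent.PT2

open Pool.Agent.ACC Pool.Agent.KUR

theorem pre_proof (h1 : Stmt_ZED) : Stmt_PRE := by
  intro V X k w hX hw Q hQ
  obtain ⟨-, -, h3, -⟩ := h1 V X k w hX hw
  have hfib : ∀ x y, tproj w x = tproj w y → tproj w x ∈ Q → Rch X (tproj w ⁻¹' Q) x y := by
    intro x y hxy hx
    rcases h3 (tproj w x) with ⟨hcn, -⟩ | ⟨x0, hx0⟩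
    · refine (hcn.rch (x := x) (y := y) rfl hxy.symm).mono le_rfl ?_
      intro z hz
      have hz' : tproj w z = tproj w x := hz
      show tproj w z ∈ Q
      rw [hz']
      exact hx
    · have e1 : x ∈ ({x0} : Set V) := by rw [← hx0]; rfl
      have e2 : y ∈ ({x0} : Set V) := by rw [← hx0]; exact hxy.symm
      rw [Set.mem_singleton_iff] at e1 e2
      rw [e1, e2]
      refine Rch.refl X ?_
      show tproj w x0 ∈ Q
      rw [← e1]
      exact hx
  obtain ⟨⟨t0, ht0⟩, hcon⟩ := hQ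
  obtain ⟨x0, rfl⟩ : ∃ x0, tproj w x0 = t0 := by
    induction t0 using Quot.ind with
    | mk x => exact ⟨x, rfl⟩
  refine cn_of_rch (x := x0) ht0 ?_
  intro y hy
  have hy' : tproj w y ∈ Q := hy
  have h4 : Rch (torso X w) Q (tproj w x0) (tproj w y) := hcon _ ht0 _ hy'
  have h5 : tproj w y ∈ {t | t ∈ Q ∧ ∀ z, tproj w z = t → Rch X (tproj w ⁻¹' Q) x0 z} := by
    refine h4.closed _ ⟨ht0, fun z hz => hfib x0 z hz.symm ht0⟩ ?_
    rintro u ⟨hu, hu2⟩ v hv huv
    refine ⟨hv, fun z hz => ?_⟩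
    obtain ⟨-, a, b, hab, ha, hb⟩ := huv
    have h6 : Rch X (tproj w ⁻¹' Q) x0 a := hu2 a ha
    have hb' : b ∈ tproj w ⁻¹' Q := by
      show tproj w b ∈ Q
      rw [hb]
      exact hv
    have h7 : Rch X (tproj w ⁻¹' Q) a b := Rch.of_adj h6.right hb' hab
    exact (h6.trans h7).trans (hfib b z (hb.trans hz.symm) hb')
  exact h5.2 y rfl

end Pool.Agent.PT2
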