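import Pool.Agent.PT2.StmtsP
import Pool.Agent.KUR.Lib

set_option autoImplicit false

namespace Pool.Agent.PT2

open Pool.Agent.ACC Pool.Agent.KUR

namespace PWLAux

variable {V : Type}

theorem main {Y : SimpleGraph V} {D : Set V} {u y : V} (p : Y.Walk u y) (hy : y ∉ D) :
    ∃ z, z ∉ D ∧ ∃ q : (ptor Y D).Walk z y, q.length ≤ p.length ∧
      (u ∈ D → q.length + 1 ≤ p.length) ∧ (∀ v ∈ q.support, v ∈ p.support) ∧
      (u ∉ D → z = u) ∧ (u ∈ D → Rch Y (D ∪ {z}) u z) := by
  induction p with
  | nil => exact ⟨_, hy, SimpleGraph.Walk.nil, le_rfl, fun h => absurd h hy, fun v hv => hv,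
      fun _ => rfl, fun h => absurd h hy⟩
  | @cons a b c hab p ih =>
    obtain ⟨z, hz, q, h1, h2, h3, h4, h5⟩ := ih hy
    by_cases ha : a ∈ D
    · by_cases hb : b ∈ D
      · refine ⟨z, hz, q, ?_, fun _ => ?_, fun v hv => ?_, fun h => absurd ha h, fun _ => ?_⟩
        · rw [SimpleGraph.Walk.length_cons]; omega
        · rw [SimpleGraph.Walk.length_cons]; omega
        · rw [SimpleGraph.Walk.support_cons]; exact List.mem_cons_of_mem _ (h3 v hv)
        · exact Rch.trans (Rch.of_adj (S := D ∪ {z}) (Or.inl ha) (Or.inl hb) hab) (h5 hb)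
      · have hzb := h4 hb
        subst hzb
        refine ⟨z, hz, q, ?_, fun _ => ?_, fun v hv => ?_, fun h => absurd ha h, fun _ => ?_⟩
        · rw [SimpleGraph.Walk.length_cons]; omega
        · rw [SimpleGraph.Walk.length_cons]; omega
        · rw [SimpleGraph.Walk.support_cons]; exact List.mem_cons_of_mem _ (h3 v hv)
        · exact Rch.of_adj (Or.inl ha) (Or.inr rfl) hab
    · by_cases hb : b ∈ D
      · by_cases haz : a = z
        · subst haz
          refine ⟨a, hz, q, ?_, fun h => absurd h ha, fun v hv => ?_, fun _ => rfl,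
            fun h => absurd h ha⟩
          · rw [SimpleGraph.Walk.length_cons]; omega
          · rw [SimpleGraph.Walk.support_cons]; exact List.mem_cons_of_mem _ (h3 v hv)
        · have hadj : (ptor Y D).Adj a z := by
            refine ⟨haz, ha, hz, ?_⟩
            have h6 : Rch Y (D ∪ {a, z}) b z := (h5 hb).mono le_rfl (by
              rintro w (hw | hw)
              · exact Or.inl hw
              · exact Or.inr (Or.inr hw))
            exact Rch.trans (Rch.of_adj (S := D ∪ {a, z}) (Or.inr (Or.inl rfl)) (Or.inl hb) hab) h6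
          refine ⟨a, ha, SimpleGraph.Walk.cons hadj q, ?_, fun h => absurd h ha, fun v hv => ?_,
            fun _ => rfl, fun h => absurd h ha⟩
          · have := h2 hb
            rw [SimpleGraph.Walk.length_cons, SimpleGraph.Walk.length_cons]; omega
          · rw [SimpleGraph.Walk.support_cons] at hv ⊢
            rcases List.mem_cons.1 hv with rfl | hv
            · exact List.mem_cons_self
            · exact List.mem_cons_of_mem _ (h3 v hv)
      · have hzb := h4 hb
        subst hzb
        have hadj : (ptor Y D).Adj a z :=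
          ⟨hab.ne, ha, hz, Rch.of_adj (Or.inr (Or.inl rfl)) (Or.inr (Or.inr rfl)) hab⟩
        refine ⟨a, ha, SimpleGraph.Walk.cons hadj q, ?_, fun h => absurd h ha, fun v hv => ?_,
            fun _ => rfl, fun h => absurd h ha⟩
        · rw [SimpleGraph.Walk.length_cons, SimpleGraph.Walk.length_cons]; omega
        · rw [SimpleGraph.Walk.support_cons] at hv ⊢
          rcases List.mem_cons.1 hv with rfl | hv
          · exact List.mem_cons_self
          · exact List.mem_cons_of_mem _ (h3 v hv)

end PWLAux

theorem pwl_proof : Stmt_PWL := by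
  intro V Y D x y p hx hy
  obtain ⟨z, hz, q, h1, h2, h3, h4, h5⟩ := PWLAux.main p hy
  have := h4 hx
  subst this
  exact ⟨q, h1, h3⟩

end Pool.Agent.PT2
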