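import Pool.Agent.PT2.StmtsP
import Pool.Agent.KUR.Lib

/-!
# MP_851278_al, module SEG: walks of `Y` and walks of `ptor Y D`
-/

set_option autoImplicit false

namespace Pool.Agent.PT2

open Pool.Agent.ACC Pool.Agent.KUR

namespace SEGAux

variable {V : Type}

lemma cmp_eq {Y : SimpleGraph V} {D : Set V} {u v : V} (h : v ∈ cmp Y D u) :
    cmp Y D v = cmp Y D u := by
  ext y
  have h' : Rch Y D u v := h
  constructor
  · intro hy
    have hy' : Rch Y D v y := hy
    exact h'.trans hy'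
  · intro hy
    have hy' : Rch Y D u y := hy
    exact h'.symm.trans hy'

lemma nbr_mem {Y : SimpleGraph V} {D : Set V} {u v : V} (hu : u ∈ D) (hv : v ∉ D)
    (h : Y.Adj u v) : v ∈ nbr Y (cmp Y D u) := by
  refine ⟨fun hc => hv ?_, u, Rch.refl Y hu, h⟩
  have hc' : Rch Y D u v := hc
  exact hc'.right

end SEGAux

open SEGAux in
theorem seg_proof (h1 : Stmt_PAD) : Stmt_SEG := by
  intro V Y D T u v huv
  obtain ⟨w, hw⟩ := huv
  induction w with
  | nil =>
    rename_i u
    have huT : u ∈ T := hw u (by simp)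
    by_cases hu : u ∈ D
    · exact Or.inl ⟨hu, Rch.refl Y hu⟩
    · exact Or.inr ⟨u, u, hu, hu, Or.inl rfl, Or.inl rfl, Rch.refl _ huT⟩
  | cons hadj p ih =>
    rename_i u u' v
    have huT : u ∈ T := hw u (by simp)
    have ih' := ih (fun z hz => hw z (by simp [hz]))
    by_cases hu : u ∈ D
    · by_cases hu' : u' ∈ D
      · have hc : cmp Y D u' = cmp Y D u := cmp_eq (Rch.of_adj hu hu' hadj)
        rcases ih' with ⟨-, hv⟩ | ⟨x, y, hx, hy, hxu, hyv, hr⟩
        · exact Or.inl ⟨hu, hc ▸ hv⟩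
        · refine Or.inr ⟨x, y, hx, hy, Or.inr ⟨hu, ?_⟩, hyv, hr⟩
          rcases hxu with rfl | ⟨-, hxu⟩
          · exact absurd hu' hx
          · exact hc ▸ hxu
      · rcases ih' with ⟨hu2, -⟩ | ⟨x, y, hx, hy, hxu, hyv, hr⟩
        · exact absurd hu2 hu'
        · rcases hxu with rfl | ⟨hu2, -⟩
          · exact Or.inr ⟨x, y, hx, hy, Or.inr ⟨hu, nbr_mem hu hu' hadj⟩, hyv, hr⟩
          · exact absurd hu2 hu'
    · by_cases hu' : u' ∈ D
      · have hn : u ∈ nbr Y (cmp Y D u') := nbr_mem hu' hu hadj.symm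
        rcases ih' with ⟨-, hv⟩ | ⟨x, y, hx, hy, hxu, hyv, hr⟩
        · have hv' : Rch Y D u' v := hv
          refine Or.inr ⟨u, u, hu, hu, Or.inl rfl, Or.inr ⟨hv'.right, ?_⟩, Rch.refl _ huT⟩
          rw [cmp_eq hv]
          exact hn
        · rcases hxu with rfl | ⟨-, hxu⟩
          · exact absurd hu' hx
          · by_cases hxe : u = x
            · subst hxe
              exact Or.inr ⟨u, y, hu, hy, Or.inl rfl, hyv, hr⟩
            · have hadj2 : (ptor Y D).Adj u x :=
                (h1 V Y D u x).2 ⟨hxe, hu, hx, Or.inr ⟨u', hu', hn, hxu⟩⟩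
              exact Or.inr ⟨u, y, hu, hy, Or.inl rfl, hyv,
                (Rch.of_adj huT hr.left hadj2).trans hr⟩
      · rcases ih' with ⟨hu2, -⟩ | ⟨x, y, hx, hy, hxu, hyv, hr⟩
        · exact absurd hu2 hu'
        · rcases hxu with rfl | ⟨hu2, -⟩
          · have hadj2 : (ptor Y D).Adj u x :=
              (h1 V Y D u x).2 ⟨hadj.ne, hu, hx, Or.inl hadj⟩
            exact Or.inr ⟨u, y, hu, hy, Or.inl rfl, hyv,
              (Rch.of_adj huT hr.left hadj2).trans hr⟩
          · exact absurd hu2 hu'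

end Pool.Agent.PT2
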