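import Pool.Agent.PT2.StmtsP
import Pool.Agent.ACC.Lib
import Pool.Agent.KUR.Lib

/-!
MP_851278_al, squad APA, module ZED: the trace, the hubs and the fibres of the projection.
-/

set_option autoImplicit false

namespace Pool.Agent.PT2

open Pool.Agent.ACC Pool.Agent.KUR

theorem zed_proof (h1 : Pool.Agent.ACC.Stmt_HUA) (h2 : Pool.Agent.ACC.Stmt_DDF) : Stmt_ZED := by
  intro V X k w hX hw
  have hG := h2 V X hX k
  have hN : NestSet (EE X k) := ⟨hG.compl, fun A hA => (hG.bond A hA).nonempty, hG.nested⟩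
  obtain ⟨hub, hdis, -, hproj⟩ := h1 V (EE X k) w hN hw
  have hbond : ∀ C ∈ Hub w, IsBond X C := fun C hC => hG.bond C (hub C hC)
  have hcard : ∀ C ∈ Hub w, (bd X C).ncard ≤ k := fun C hC => hG.card C (hub C hC)
  have hfib : ∀ C ∈ Hub w, ∀ x ∈ C, {y | tproj w y = tproj w x} = C := by
    intro C hC x hx
    ext y
    change tproj w y = tproj w x ↔ y ∈ C
    rw [hproj]
    constructor
    · rintro (rfl | ⟨C', hC', hy, hx'⟩)
      · exact hx
      · by_cases he : C' = C
        · rw [← he]; exact hy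
        · exact absurd hx (Set.disjoint_left.mp (hdis C' hC' C hC he) hx')
    · intro hy
      exact Or.inr ⟨C, hC, hy, hx⟩
  have hside : ∀ a b, X.Adj a b → tproj w a ≠ tproj w b → a ∈ ZZ X w := by
    intro a b hab hne
    by_cases ha : ∀ C ∈ Hub w, a ∉ C
    · exact Or.inl ha
    · push Not at ha
      obtain ⟨C, hC, haC⟩ := ha
      refine Or.inr ⟨C, hC, b, ?_⟩
      rw [mem_bd_iff]
      refine ⟨hab, Or.inl ⟨haC, fun hbC => hne ?_⟩⟩
      rw [hproj]
      exact Or.inr ⟨C, hC, haC, hbC⟩
  refine ⟨fun a b hab hne => ⟨hside a b hab hne, hside b a hab.symm hne.symm⟩, ?_, ?_, ?_⟩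
  · intro t
    induction t using Quot.ind with
    | _ x =>
      by_cases hx : ∀ C ∈ Hub w, x ∉ C
      · exact ⟨x, Or.inl hx, rfl⟩
      · push Not at hx
        obtain ⟨C, hC, hxC⟩ := hx
        obtain ⟨e, he⟩ := bd_nonempty hX (hbond C hC).nonempty (hbond C hC).compl_nonempty
        obtain ⟨a, b, hab, ha, hb, rfl⟩ := he
        refine ⟨a, Or.inr ⟨C, hC, b, ?_⟩, ?_⟩
        · rw [mem_bd_iff]
          exact ⟨hab, Or.inl ⟨ha, hb⟩⟩
        · change tproj w a = tproj w x
          rw [hproj]
          exact Or.inr ⟨C, hC, ha, hxC⟩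
  · intro t
    induction t using Quot.ind with
    | _ x =>
      change Cn X {y | tproj w y = tproj w x} ∧ (bd X {y | tproj w y = tproj w x}).Finite ∨
        ∃ z, {y | tproj w y = tproj w x} = {z}
      by_cases hx : ∀ C ∈ Hub w, x ∉ C
      · right
        refine ⟨x, ?_⟩
        ext y
        change tproj w y = tproj w x ↔ y ∈ ({x} : Set V)
        rw [hproj, Set.mem_singleton_iff]
        constructor
        · rintro (h | ⟨C, hC, -, hx'⟩)
          · exact h
          · exact absurd hx' (hx C hC)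
        · intro h
          exact Or.inl h
      · push Not at hx
        obtain ⟨C, hC, hxC⟩ := hx
        left
        rw [hfib C hC x hxC]
        exact ⟨(cn_iff X C).mpr (hbond C hC).2.1, (hbond C hC).1⟩
  · intro C hC
    exact ⟨(cn_iff X C).mpr (hbond C hC).2.1, (hbond C hC).1, hcard C hC⟩

end Pool.Agent.PT2
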