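import Pool.Agent.PT2.StmtsP

set_option autoImplicit false

namespace Pool.Agent.PT2

open Pool.Agent.ACC Pool.Agent.KUR

theorem zin_proof (hZED : Stmt_ZED) (hTFA : Pool.Agent.ACC.Stmt_TFA) : Stmt_ZIN := by
  intro V X G hX _ _ _ k w hw hacc
  by_contra hinf
  apply hacc
  have hfin : (ZZ X w).Finite := Set.not_infinite.mp hinf
  obtain ⟨_, h2, _, _⟩ := hZED V X k w hX hw
  have : Finite (TV w) := by
    have : Finite (ZZ X w) := hfin
    exact Finite.of_surjective (fun z : ZZ X w => tproj w z.1) (fun t => by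
      obtain ⟨z, hz, hzt⟩ := h2 t
      exact ⟨⟨z, hz⟩, hzt⟩)
  refine hTFA (TV w) (torso X w) (Nat.card (TV w)) (fun x => ⟨Set.toFinite _, ?_⟩)
    (fun U _ => Or.inl (Set.toFinite U))
  exact Set.ncard_le_card _

end Pool.Agent.PT2
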