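import Pool.Agent.PT2.StmtsR
import Pool.Agent.ACC.Lib

/-!
MP_851278_al, module ZST: the stabiliser of a vertex of the tree preserves its trace.
-/

set_option autoImplicit false

namespace Pool.Agent.PT2

open Pool.Agent.ACC Pool.Agent.KUR

namespace ZST_

variable {V : Type}

theorem hub_img {G : Subgroup (Equiv.Perm V)} {v : Set (Set V)} {g : Equiv.Perm V}
    (hg : g ∈ stabV G v) {C : Set V} (hC : C ∈ Hub v) : g '' C ∈ Hub v := by
  have hinv : (g⁻¹ : Equiv.Perm V) ∈ stabV G v := (stabV G v).inv_mem hg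
  refine ⟨?_, ?_⟩
  · rw [← image_compl]
    exact (hg.2 _).1 hC.1
  · intro D hD hDC
    have h1 : (g⁻¹ : Equiv.Perm V) '' D ∈ v := (hinv.2 D).1 hD
    have h2 : (g⁻¹ : Equiv.Perm V) '' D ⊆ Cᶜ := by
      rw [← image_subset_image g, image_image_inv, image_compl]
      exact hDC
    have h3 := hC.2 _ h1 h2
    rw [← image_image_inv g D, h3, image_compl]

theorem one {X : SimpleGraph V} {G : Subgroup (Equiv.Perm V)} {v : Set (Set V)}
    (hG : IsAut X G) {g : Equiv.Perm V} (hg : g ∈ stabV G v) {x : V} (hx : x ∈ ZZ X v) :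
    g x ∈ ZZ X v := by
  have hinv : (g⁻¹ : Equiv.Perm V) ∈ stabV G v := (stabV G v).inv_mem hg
  rcases hx with hx | ⟨C, hC, y, hy⟩
  · left
    intro C hC hgx
    refine hx _ (hub_img hinv hC) ?_
    refine ⟨g x, hgx, ?_⟩
    simp
  · right
    refine ⟨g '' C, hub_img hg hC, g y, ?_⟩
    rw [bd_image X g (hG g hg.1) C]
    exact ⟨s(x, y), hy, rfl⟩

end ZST_

theorem zst_proof : Stmt_ZST := by
  intro V X G v hG g hg x
  constructor
  · intro h
    have hinv : (g⁻¹ : Equiv.Perm V) ∈ stabV G v := (stabV G v).inv_mem hg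
    have h1 := ZST_.one hG hinv h
    simpa using h1
  · intro h
    exact ZST_.one hG hg h

end Pool.Agent.PT2
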