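import Pool.Agent.PT2.StmtsP
import Pool.Agent.ACC.Lib
import Pool.Agent.KUR.Lib

/-!
MP_851278_al (S02151), PART II, module ZUT: cuts with at most `k` edges are uniformly trivial on
infinite traces of level `k`.
-/

set_option autoImplicit false

namespace Pool.Agent.PT2

open Pool.Agent.ACC Pool.Agent.KUR

namespace ZUTAux

theorem ncard_biUnion_le {α β : Type} (F : β → Set α) (c : ℕ) (E : Finset β)
    (h : ∀ e ∈ E, (F e).Finite ∧ (F e).ncard ≤ c) :
    (⋃ e ∈ E, F e).Finite ∧ (⋃ e ∈ E, F e).ncard ≤ E.card * c := by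
  classical
  induction E using Finset.induction_on with
  | empty => simp
  | @insert a s ha ih =>
    have ih' := ih (fun e he => h e (Finset.mem_insert_of_mem he))
    have h1 := h a (Finset.mem_insert_self a s)
    rw [Finset.set_biUnion_insert]
    refine ⟨h1.1.union ih'.1, ?_⟩
    rw [Finset.card_insert_of_notMem ha]
    calc (F a ∪ ⋃ e ∈ s, F e).ncard ≤ (F a).ncard + (⋃ e ∈ s, F e).ncard := Set.ncard_union_le _ _
      _ ≤ c + s.card * c := Nat.add_le_add h1.2 ih'.2
      _ = (s.card + 1) * c := by ring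

theorem rch_univ {V : Type} {X : SimpleGraph V} (hX : X.Connected) (x y : V) :
    Rch X Set.univ x y := by
  obtain ⟨p⟩ := hX.preconnected x y
  exact ⟨p, fun _ _ => Set.mem_univ _⟩

end ZUTAux

open ZUTAux in
theorem zut_proof (h1 : Pool.Agent.ACC.Stmt_ZUB) (h2 : Stmt_CBD) : Stmt_ZUT := by
  classical
  intro V X G hcon hlf haut hvf k
  obtain ⟨c0, hc0⟩ := h1 V X G hcon hlf haut hvf k
  refine ⟨k * c0, fun w hw hinf U hU => ?_⟩
  have key : ∀ B ∈ Small X k, (B ∩ ZZ X w).Infinite →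
      ((Bᶜ ∩ ZZ X w).Finite ∧ (Bᶜ ∩ ZZ X w).ncard ≤ k * c0) := by
    intro B hB hBinf
    by_cases hBc : Bᶜ = ∅
    · rw [hBc]; simp
    · obtain ⟨b0, hb0⟩ := Set.nonempty_iff_ne_empty.2 hBc
      -- a component with infinite trace
      have hex : ∃ a, (cmp X B a ∩ ZZ X w).Infinite := by
        by_contra hno
        push Not at hno
        have hsub : B ∩ ZZ X w ⊆ ⋃ a ∈ {a | ∃ e ∈ bd X B, a ∈ e}, (cmp X B a ∩ ZZ X w) := by
          rintro z ⟨hzB, hzZ⟩
          obtain ⟨u, v, hu, hv, -, -, huv, hr⟩ := (rch_univ hcon z b0).exit B hzB hb0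
          rw [Set.univ_inter] at hr
          simp only [Set.mem_iUnion]
          refine ⟨u, ⟨s(u, v), ⟨u, v, huv, hu, hv, rfl⟩, by simp⟩, ?_, hzZ⟩
          exact hr.symm
        have hfinE : {a | ∃ e ∈ bd X B, a ∈ e}.Finite := by
          have : {a | ∃ e ∈ bd X B, a ∈ e} = ⋃ e ∈ bd X B, {a | a ∈ e} := by
            ext a; simp
          rw [this]
          refine hB.1.biUnion (fun e _ => ?_)
          induction e with
          | _ x y =>
            refine (Set.toFinite {x, y}).subset ?_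
            intro a ha
            simpa using ha
        exact hBinf ((hfinE.biUnion (fun a _ => hno a)).subset hsub)
      obtain ⟨a, ha⟩ := hex
      obtain ⟨z0, hz0, -⟩ := ha.nonempty
      have haB : a ∈ B := Rch.left hz0
      have hKcn : Cn X (cmp X B a) := cn_comp haB
      have haK : a ∈ cmp X B a := Rch.refl X haB
      have hKbd : bd X (cmp X B a) ⊆ bd X B := by
        rintro e ⟨u, v, huv, hu, hv, rfl⟩
        have hu' : Rch X B a u := hu
        refine ⟨u, v, huv, hu'.right, ?_, rfl⟩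
        intro hvB
        exact hv (Rch.trans hu' (Rch.of_adj hu'.right hvB huv))
      have hKB : cmp X B a ⊆ B := fun u hu => Rch.right hu
      have hKfin : (bd X (cmp X B a)).Finite := hB.1.subset hKbd
      have hKk : (bd X (cmp X B a)).ncard ≤ k := (Set.ncard_le_ncard hKbd hB.1).trans hB.2
      generalize cmp X B a = K at ha hKcn haK hKbd hKB hKfin hKk
      have hD : ∀ z, z ∉ K → (cmp X Kᶜ z ∩ ZZ X w).Finite ∧
          (cmp X Kᶜ z ∩ ZZ X w).ncard ≤ c0 := by
        intro z hz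
        obtain ⟨hb, hbs⟩ := h2 V X hcon K hKcn hKfin z hz
        have hk : (bd X (cmp X Kᶜ z)).ncard ≤ k :=
          (Set.ncard_le_ncard hbs hKfin).trans hKk
        rcases hc0 w hw (cmp X Kᶜ z) hb hk with h | h
        · exact h
        · exfalso
          refine ha (h.1.subset ?_)
          rintro u ⟨hu, huZ⟩
          refine ⟨fun hu' => ?_, huZ⟩
          exact (Rch.right hu') hu
      have hcov : Bᶜ ∩ ZZ X w ⊆ ⋃ e ∈ hKfin.toFinset,
          {z | z ∈ ZZ X w ∧ ∃ a' ∈ e, a' ∉ K ∧ Rch X Kᶜ a' z} := by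
        rintro z ⟨hzB, hzZ⟩
        have hzK : z ∉ K := fun h => hzB (hKB h)
        obtain ⟨u, v, hu, hv, -, -, huv, hr⟩ := (rch_univ hcon z a).exit Kᶜ hzK
          (fun h => h haK)
        rw [Set.univ_inter] at hr
        simp only [Set.mem_iUnion]
        refine ⟨s(v, u), ?_, hzZ, u, by simp, hu, hr.symm⟩
        rw [Set.Finite.mem_toFinset]
        exact ⟨v, u, huv.symm, not_not.1 hv, hu, rfl⟩
      have hF : ∀ e ∈ hKfin.toFinset,
          {z | z ∈ ZZ X w ∧ ∃ a' ∈ e, a' ∉ K ∧ Rch X Kᶜ a' z}.Finite ∧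
          {z | z ∈ ZZ X w ∧ ∃ a' ∈ e, a' ∉ K ∧ Rch X Kᶜ a' z}.ncard ≤ c0 := by
        intro e he
        rw [Set.Finite.mem_toFinset] at he
        obtain ⟨x, y, hxy, hx, hy, rfl⟩ := he
        have hsub : {z | z ∈ ZZ X w ∧ ∃ a' ∈ s(x, y), a' ∉ K ∧ Rch X Kᶜ a' z} ⊆
            cmp X Kᶜ y ∩ ZZ X w := by
          rintro z ⟨hzZ, a', ha', haK', hr⟩
          rw [Sym2.mem_iff] at ha'
          rcases ha' with rfl | rfl
          · exact absurd hx haK'
          · exact ⟨hr, hzZ⟩
        obtain ⟨hf, hc⟩ := hD y hy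
        exact ⟨hf.subset hsub, (Set.ncard_le_ncard hsub hf).trans hc⟩
      obtain ⟨hfin, hcard⟩ := ncard_biUnion_le _ c0 hKfin.toFinset hF
      refine ⟨hfin.subset hcov, (Set.ncard_le_ncard hcov hfin).trans (hcard.trans ?_)⟩
      rw [← Set.ncard_eq_toFinset_card _ hKfin]
      exact Nat.mul_le_mul_right c0 hKk
  by_cases h : (U ∩ ZZ X w).Infinite
  · right
    exact key U hU h
  · left
    have h3 : (Uᶜ ∩ ZZ X w).Infinite := by
      intro hfin
      apply hinf
      refine ((Set.not_infinite.1 h).union hfin).subset ?_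
      intro z hz
      by_cases hzU : z ∈ U
      · exact Or.inl ⟨hzU, hz⟩
      · exact Or.inr ⟨hzU, hz⟩
    have h4 := key Uᶜ (small_compl hU) h3
    rwa [compl_compl] at h4

end Pool.Agent.PT2
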