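import Pool.Agent.ACC.PartI
import Pool.Agent.PT2.ZST
import Pool.Agent.PT2.BLL
import Pool.Agent.PT2.LIN
import Pool.Agent.PT2.CBD
import Pool.Agent.PT2.ZUT
import Pool.Agent.PT2.MXD
import Pool.Agent.PT2.ADD
import Pool.Agent.PT2.PAD
import Pool.Agent.PT2.PWL
import Pool.Agent.PT2.ZED
import Pool.Agent.PT2.PRE
import Pool.Agent.PT2.ZIN
import Pool.Agent.PT2.PG1
import Pool.Agent.PT2.PG2
import Pool.Agent.PT2.PNG
import Pool.Agent.PT2.FIL
import Pool.Agent.PT2.DIA
import Pool.Agent.PT2.CVR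
import Pool.Agent.PT2.GDP
import Pool.Agent.PT2.CRO
import Pool.Agent.PT2.FAR
import Pool.Agent.PT2.CMT
import Pool.Agent.PT2.CH1
import Pool.Agent.PT2.CH2
import Pool.Agent.PT2.SEG
import Pool.Agent.PT2.CNT
import Pool.Agent.PT2.CH3
import Pool.Agent.PT2.CH4
import Pool.Agent.PT2.HZC
import Pool.Agent.PT2.MX4
import Pool.Agent.PT2.CNP
import Pool.Agent.PT2.NKR
import Pool.Agent.PT2.LFT
import Pool.Agent.PT2.APC

/-!
MP_851278_al (frozen S02151), PART II, first half: assembly of the modules of StmtsP.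
The application `Stmt_APA` follows from the core theorem `Stmt_CORE`.
-/

set_option autoImplicit false

namespace Pool.Agent.PT2

open Pool.Agent.ACC Pool.Agent.KUR

theorem bll : Stmt_BLL := bll_proof
theorem lin : Stmt_LIN := lin_proof bll
theorem cbd : Stmt_CBD := cbd_proof
theorem zut : Stmt_ZUT := zut_proof zub cbd
theorem mxd : Stmt_MXD := mxd_proof
theorem add' : Stmt_ADD := add_proof
theorem pad : Stmt_PAD := pad_proof
theorem pwl : Stmt_PWL := pwl_proof
theorem zed : Stmt_ZED := zed_proof hua ddf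
theorem pre : Stmt_PRE := pre_proof zed
theorem zin : Stmt_ZIN := zin_proof zed tfa
theorem pg1 : Stmt_PG1 := pg1_proof ddf nfe tov efv hua
theorem pg2 : Stmt_PG2 := pg2_proof ddf dde nfe zcf efv bll
theorem png : Stmt_PNG := png_proof pg1 pg2 zst_proof nfe ddf dde zfi efv
theorem fil : Stmt_FIL := fil_proof add'
theorem dia : Stmt_DIA := dia_proof fil bdd efv
theorem cvr : Stmt_CVR := cvr_proof fil dia zcc nfe efv
theorem gdp : Stmt_GDP := gdp_proof pad pwl dia cvr fil bll
theorem cro : Stmt_CRO := cro_proof pad zed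
theorem far : Stmt_FAR := far_proof toe nfe efv bll
theorem cmt : Stmt_CMT := cmt_proof far zed
theorem ch1 : Stmt_CH1 := ch1_proof cro
theorem ch2 : Stmt_CH2 := ch2_proof far pre pwl
theorem seg : Stmt_SEG := seg_proof pad
theorem cnt' : Stmt_CNT := cnt_proof zed hua ddf
theorem ch3 : Stmt_CH3 := ch3_proof lin cmt seg cnt' zed
theorem ch4 : Stmt_CH4 := ch4_proof far zed gdp
theorem hzc : Stmt_HZC := hzc_proof cro cvr
theorem mx4 : Stmt_MX4 := mx4_proof cro add' pad
theorem cnp : Stmt_CNP := cnp_proof png ch1 ch2 ch3 ch4 hzc mx4 gdp pwl toc tog toe nfe efv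
theorem nkr : Stmt_NKR := nkr_proof
theorem lft : Stmt_LFT := lft_proof pad

/-- The application, first half, from the core theorem. -/
theorem apa_of_core (h : Stmt_CORE) : Stmt_APA := apc_proof lin zut mxd zin gdp cnp nkr h lft

end Pool.Agent.PT2
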