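import Pool.Agent.PT2.StmtsR
import Pool.Agent.ACC.Lib

set_option autoImplicit false

namespace Pool.Agent.PT2

open Pool.Agent.ACC Pool.Agent.KUR

namespace LFK_

variable {V V' : Type} {G' : SimpleGraph V'} {q : V → V'}

/-- the vertices of `G'` in a set -/
def tr (S : Set (V' ⊕ V)) : Set V' := {a | (Sum.inl a : V' ⊕ V) ∈ S}

/-- the projection moving a leaf to its neighbour -/
def pr (q : V → V') : V' ⊕ V → V' := Sum.elim id q

/-- everything in a connected set with a vertex of `G'` is projected into the set -/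
theorem reach {S : Set (V' ⊕ V)} {a : V'} (haS : (Sum.inl a : V' ⊕ V) ∈ S) (u : V' ⊕ V)
    (h : Rch (leafG G' q) S (Sum.inl a) u) : Rch G' (tr S) a (pr q u) := by
  have key := h.closed {w | w ∈ S ∧ Rch G' (tr S) a (pr q w)}
    ⟨haS, Rch.refl G' haS⟩ (by
      rintro u ⟨huS, hu⟩ w hw huw
      refine ⟨hw, ?_⟩
      rcases u with b | x
      · rcases w with c | y
        · have hadj : G'.Adj b c := huw
          exact hu.trans (Rch.of_adj huS hw hadj)
        · have hbq : b = q y := huw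
          have e : pr q (Sum.inr y : V' ⊕ V) = pr q (Sum.inl b : V' ⊕ V) := hbq.symm
          rw [e]
          exact hu
      · rcases w with c | y
        · have hbq : c = q x := huw
          have e : pr q (Sum.inl c : V' ⊕ V) = pr q (Sum.inr x : V' ⊕ V) := hbq
          rw [e]
          exact hu
        · exact absurd huw (fun h => h))
  exact key.2

theorem cn_tr {S : Set (V' ⊕ V)} (hS : Cn (leafG G' q) S) {a : V'}
    (haS : (Sum.inl a : V' ⊕ V) ∈ S) : Cn G' (tr S) :=
  cn_of_rch (x := a) haS (fun b hb => reach haS (Sum.inl b) (hS.rch haS hb))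

theorem q_mem {S : Set (V' ⊕ V)} (hS : Cn (leafG G' q) S) {a : V'}
    (haS : (Sum.inl a : V' ⊕ V) ∈ S) {x : V} (hx : (Sum.inr x : V' ⊕ V) ∈ S) :
    (Sum.inl (q x) : V' ⊕ V) ∈ S :=
  (reach haS (Sum.inr x) (hS.rch haS hx)).right

/-- a connected set adjacent to two disjoint sets contains a vertex of `G'` -/
theorem has_inl {S T1 T2 : Set (V' ⊕ V)} (hS : Cn (leafG G' q) S) (hT : Disjoint T1 T2)
    (h1 : ∃ x ∈ S, ∃ y ∈ T1, (leafG G' q).Adj x y)
    (h2 : ∃ x ∈ S, ∃ y ∈ T2, (leafG G' q).Adj x y) : ∃ a : V', (Sum.inl a : V' ⊕ V) ∈ S := by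
  by_contra hno
  push Not at hno
  obtain ⟨u0, hu0⟩ := hS.1
  have huniq : ∀ u ∈ S, u = u0 := by
    intro u hu
    have h := (hS.rch hu0 hu).closed {w | w = u0} rfl (by
      rintro v rfl w hw hvw
      exfalso
      rcases v with b | x
      · exact hno b hu0
      · rcases w with c | y
        · exact hno c hw
        · exact hvw)
    exact h
  rcases u0 with b | x
  · exact hno b hu0
  have hmem : ∀ T : Set (V' ⊕ V), (∃ x ∈ S, ∃ y ∈ T, (leafG G' q).Adj x y) →
      (Sum.inl (q x) : V' ⊕ V) ∈ T := by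
    rintro T ⟨u, hu, w, hw, huw⟩
    rw [huniq u hu] at huw
    rcases w with c | y
    · have hc : c = q x := huw
      rw [← hc]
      exact hw
    · exact absurd huw (fun h => h)
  exact Set.disjoint_left.mp hT (hmem T1 h1) (hmem T2 h2)

/-- adjacent disjoint connected sets with vertices of `G'` are adjacent in `G'` -/
theorem adj_tr {S T : Set (V' ⊕ V)} (hS : Cn (leafG G' q) S) (hT : Cn (leafG G' q) T)
    (hST : Disjoint S T) (hs : ∃ a : V', (Sum.inl a : V' ⊕ V) ∈ S)
    (ht : ∃ a : V', (Sum.inl a : V' ⊕ V) ∈ T)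
    (h : ∃ x ∈ S, ∃ y ∈ T, (leafG G' q).Adj x y) : ∃ x ∈ tr S, ∃ y ∈ tr T, G'.Adj x y := by
  obtain ⟨u, hu, w, hw, huw⟩ := h
  obtain ⟨a, ha⟩ := hs
  obtain ⟨b, hb⟩ := ht
  rcases u with c | x
  · rcases w with d | y
    · exact ⟨c, hu, d, hw, huw⟩
    · exfalso
      have hcq : c = q y := huw
      have h1 := q_mem hT hb hw
      rw [← hcq] at h1
      exact Set.disjoint_left.mp hST hu h1
  · rcases w with d | y
    · exfalso
      have hdq : d = q x := huw
      have h1 := q_mem hS ha hu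
      rw [← hdq] at h1
      exact Set.disjoint_left.mp hST h1 hw
    · exact absurd huw (fun h => h)

theorem disj_tr {S T : Set (V' ⊕ V)} (hST : Disjoint S T) : Disjoint (tr S) (tr T) := by
  rw [Set.disjoint_left]
  intro a ha hb
  exact Set.disjoint_left.mp hST ha hb

theorem adj_comm {P : SimpleGraph V'} {S T : Set V'} (h : ∃ x ∈ S, ∃ y ∈ T, P.Adj x y) :
    ∃ x ∈ T, ∃ y ∈ S, P.Adj x y := by
  obtain ⟨x, hx, y, hy, hxy⟩ := h
  exact ⟨y, hy, x, hx, hxy.symm⟩

theorem adj_comm' {P : SimpleGraph (V' ⊕ V)} {S T : Set (V' ⊕ V)}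
    (h : ∃ x ∈ S, ∃ y ∈ T, P.Adj x y) : ∃ x ∈ T, ∃ y ∈ S, P.Adj x y := by
  obtain ⟨x, hx, y, hy, hxy⟩ := h
  exact ⟨y, hy, x, hx, hxy.symm⟩

end LFK_

open LFK_ in
theorem lfk_proof : Stmt_LFK := by
  intro V V' G' q
  constructor
  · rintro ⟨A, B, hM⟩
    have hA : ∀ i, ∃ a : V', (Sum.inl a : V' ⊕ V) ∈ A i := fun i =>
      has_inl (hM.ca i) (hM.db 0 1 (by decide)) (hM.adj i 0) (hM.adj i 1)
    have hB : ∀ i, ∃ a : V', (Sum.inl a : V' ⊕ V) ∈ B i := fun i =>
      has_inl (hM.cb i) (hM.da 0 1 (by decide)) (adj_comm' (hM.adj 0 i))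
        (adj_comm' (hM.adj 1 i))
    refine ⟨fun i => tr (A i), fun i => tr (B i), ?_⟩
    exact
      { ca := fun i => by
          obtain ⟨a, ha⟩ := hA i
          exact cn_tr (hM.ca i) ha
        cb := fun i => by
          obtain ⟨a, ha⟩ := hB i
          exact cn_tr (hM.cb i) ha
        da := fun i j hij => disj_tr (hM.da i j hij)
        db := fun i j hij => disj_tr (hM.db i j hij)
        dab := fun i j => disj_tr (hM.dab i j)
        adj := fun i j => adj_tr (hM.ca i) (hM.cb j) (hM.dab i j) (hA i) (hB j) (hM.adj i j) }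
  · rintro ⟨A, hM⟩
    have h2 : ∀ i : Fin 5, ∃ j k : Fin 5, i ≠ j ∧ i ≠ k ∧ j ≠ k := by decide
    have hA : ∀ i, ∃ a : V', (Sum.inl a : V' ⊕ V) ∈ A i := by
      intro i
      obtain ⟨j, k, hj, hk, hjk⟩ := h2 i
      exact has_inl (hM.c i) (hM.d j k hjk) (hM.adj i j hj) (hM.adj i k hk)
    refine ⟨fun i => tr (A i), ?_⟩
    exact
      { c := fun i => by
          obtain ⟨a, ha⟩ := hA i
          exact cn_tr (hM.c i) ha
        d := fun i j hij => disj_tr (hM.d i j hij)
        adj := fun i j hij =>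
          adj_tr (hM.c i) (hM.c j) (hM.d i j hij) (hA i) (hA j) (hM.adj i j hij) }

end Pool.Agent.PT2
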