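import Pool.Agent.PT2.StmtsR
import Pool.Agent.ACC.Lib
import Pool.Agent.ACC.LibB

/-!
Squad PTR, module LIM: the limit of good graphs.
-/

set_option autoImplicit false

namespace Pool.Agent.PT2

open Pool.Agent.ACC Pool.Agent.KUR

namespace LIM_

variable {V : Type}

theorem fchoice {α : Type} (U : Ultrafilter ℕ) {T : Set α} (hT : T.Finite) (Q : ℕ → α → Prop)
    (h : ∀ᶠ n in (U : Filter ℕ), ∃ t ∈ T, Q n t) :
    ∃ t ∈ T, ∀ᶠ n in (U : Filter ℕ), Q n t := by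
  have h1 : (⋃ t ∈ T, {n | Q n t}) ∈ U := by
    have : {n | ∃ t ∈ T, Q n t} = ⋃ t ∈ T, {n | Q n t} := by
      ext n
      simp
    rw [← this]
    exact h
  exact (Ultrafilter.finite_biUnion_mem_iff hT).1 h1

/-- the limit graph -/
def lim (U : Ultrafilter ℕ) (P : ℕ → SimpleGraph V) : SimpleGraph V where
  Adj x y := ∀ᶠ n in (U : Filter ℕ), (P n).Adj x y
  symm := ⟨fun _ _ h => h.mono (fun _ hn => hn.symm)⟩
  loopless := ⟨fun x h => by
    obtain ⟨n, hn⟩ := h.exists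
    exact (P n).loopless.irrefl x hn⟩

theorem lim_walk (U : Ultrafilter ℕ) (P : ℕ → SimpleGraph V) (B : V → Set V)
    (hB : ∀ x, (B x).Finite) (hP : ∀ n x y, (P n).Adj x y → y ∈ B x) (L : ℕ) :
    ∀ x y : V, (∀ᶠ n in (U : Filter ℕ), ∃ w : (P n).Walk x y, w.length ≤ L) →
    ∃ w : (lim U P).Walk x y, w.length ≤ L := by
  induction L with
  | zero =>
    intro x y h
    obtain ⟨n, w, hw⟩ := h.exists
    have hxy : x = y := SimpleGraph.Walk.eq_of_length_eq_zero (Nat.le_zero.1 hw)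
    subst hxy
    exact ⟨SimpleGraph.Walk.nil, by simp⟩
  | succ L ih =>
    intro x y h
    by_cases hxy : x = y
    · subst hxy
      exact ⟨SimpleGraph.Walk.nil, by simp⟩
    have h1 : ∀ᶠ n in (U : Filter ℕ), ∃ x' ∈ B x, (P n).Adj x x' ∧
        ∃ w : (P n).Walk x' y, w.length ≤ L := by
      refine h.mono ?_
      rintro n ⟨w, hw⟩
      cases w with
      | nil => exact absurd rfl hxy
      | @cons _ x' _ hadj p =>
        refine ⟨x', hP n x x' hadj, hadj, p, ?_⟩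
        rw [SimpleGraph.Walk.length_cons] at hw
        omega
    obtain ⟨x', _, hx'⟩ := fchoice U (hB x) _ h1
    have h2 : (lim U P).Adj x x' := hx'.mono (fun _ hn => hn.1)
    obtain ⟨w, hw⟩ := ih x' y (hx'.mono (fun _ hn => hn.2))
    refine ⟨SimpleGraph.Walk.cons h2 w, ?_⟩
    rw [SimpleGraph.Walk.length_cons]
    omega

theorem lim_agree (U : Ultrafilter ℕ) (hU : ∀ r : ℕ, ∀ᶠ n in (U : Filter ℕ), r ≤ n)
    (P : ℕ → SimpleGraph V) (W : Set V) (hW : W.Finite) (r : ℕ) :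
    ∃ n, r ≤ n ∧ ∀ x ∈ W, ∀ y ∈ W, (lim U P).Adj x y → (P n).Adj x y := by
  have hfin : {p : V × V | p ∈ W ×ˢ W ∧ (lim U P).Adj p.1 p.2}.Finite :=
    (hW.prod hW).subset (fun p hp => hp.1)
  have h1 : ∀ᶠ n in (U : Filter ℕ), ∀ p ∈ {p : V × V | p ∈ W ×ˢ W ∧ (lim U P).Adj p.1 p.2},
      (P n).Adj p.1 p.2 := (Filter.eventually_all_finite hfin).2 (fun p hp => hp.2)
  obtain ⟨n, hn1, hn2⟩ := ((hU r).and h1).exists
  exact ⟨n, hn1, fun x hx y hy hxy => hn2 (x, y) ⟨⟨hx, hy⟩, hxy⟩⟩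

theorem cn_agree {P Q : SimpleGraph V} {W A : Set V} (hA : A ⊆ W)
    (h : ∀ x ∈ W, ∀ y ∈ W, P.Adj x y → Q.Adj x y) (hc : Cn P A) : Cn Q A := by
  refine ⟨hc.1, fun x hx y hy => ?_⟩
  have h1 := hc.rch hx hy
  have key : y ∈ {z | Rch Q A x z} := by
    refine h1.closed _ (Rch.refl _ hx) ?_
    intro u hu v hv huv
    have hu' : Rch Q A x u := hu
    exact hu'.trans (Rch.of_adj hu'.right hv (h u (hA hu'.right) v (hA hv) huv))
  exact key

theorem fin_ball (X : SimpleGraph V) (x0 : V) (W : Set V) (hW : W.Finite) :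
    ∃ r : ℕ, ∀ y ∈ W, X.dist x0 y ≤ r := by
  obtain ⟨r, hr⟩ := (hW.image (fun y => X.dist x0 y)).bddAbove
  exact ⟨r, fun y hy => hr ⟨y, hy, rfl⟩⟩

end LIM_

open LIM_ in
theorem lim_proof (hFMD : Stmt_FMD) : Stmt_LIM := by
  intro V X Z c hX hlf hyp
  obtain ⟨x0⟩ := hX.nonempty
  choose P S hG hN using hyp x0
  let U : Ultrafilter ℕ := Filter.hyperfilter ℕ
  have hU : ∀ r : ℕ, ∀ᶠ n in (U : Filter ℕ), r ≤ n := fun r =>
    Nat.hyperfilter_le_atTop (Filter.eventually_ge_atTop r)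
  refine ⟨lim U P, {x | ∀ᶠ n in (U : Filter ℕ), x ∈ S n}, ⟨?_, ?_, ?_, ?_⟩, ?_, ?_⟩
  · intro x y h
    exact h.mono (fun n hn => (hG n).sup x y hn)
  · intro x y h
    obtain ⟨n, hn⟩ := h.exists
    exact (hG n).len x y hn
  · intro z hz
    obtain ⟨x, hx, hx'⟩ := fchoice U (ball_finite hX hlf z c) (fun n x => x ∈ S n)
      (Filter.Eventually.of_forall (fun n => by
        obtain ⟨x, hx, hzx⟩ := (hG n).cov z hz
        exact ⟨x, hzx, hx⟩))
    exact ⟨x, hx', hx⟩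
  · intro x hx y hy
    refine lim_walk U P (fun x => ball X x c) (fun x => ball_finite hX hlf x c)
      (fun n x y h => (hG n).len x y h) _ x y ?_
    refine (hx.and hy).mono ?_
    rintro n ⟨h1, h2⟩
    exact (hG n).spn x h1 y h2
  · intro h33
    obtain ⟨A, C, hM, hA, hC⟩ := (hFMD V (lim U P)).1 h33
    have hW : ((⋃ i, A i) ∪ ⋃ i, C i).Finite :=
      (Set.finite_iUnion hA).union (Set.finite_iUnion hC)
    have hAW : ∀ i, A i ⊆ (⋃ i, A i) ∪ ⋃ i, C i := fun i =>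
      (Set.subset_iUnion A i).trans Set.subset_union_left
    have hCW : ∀ i, C i ⊆ (⋃ i, A i) ∪ ⋃ i, C i := fun i =>
      (Set.subset_iUnion C i).trans Set.subset_union_right
    obtain ⟨r, hr⟩ := fin_ball X x0 _ hW
    obtain ⟨n, hn, hag⟩ := lim_agree U hU P _ hW r
    refine (hN n).1 ⟨A, C, ⟨fun i => cn_agree (hAW i) hag (hM.ca i),
      fun i => cn_agree (hCW i) hag (hM.cb i), hM.da, hM.db, hM.dab, fun i j => ?_⟩, ?_, ?_⟩
    · obtain ⟨x, hx, y, hy, hxy⟩ := hM.adj i j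
      exact ⟨x, hx, y, hy, hag x (hAW i hx) y (hCW j hy) hxy⟩
    · intro i y hy
      exact (hr y (hAW i hy)).trans hn
    · intro i y hy
      exact (hr y (hCW i hy)).trans hn
  · intro h5
    obtain ⟨A, hM, hA⟩ := (hFMD V (lim U P)).2 h5
    have hW : (⋃ i, A i).Finite := Set.finite_iUnion hA
    have hAW : ∀ i, A i ⊆ ⋃ i, A i := fun i => Set.subset_iUnion A i
    obtain ⟨r, hr⟩ := fin_ball X x0 _ hW
    obtain ⟨n, hn, hag⟩ := lim_agree U hU P _ hW r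
    refine (hN n).2 ⟨A, ⟨fun i => cn_agree (hAW i) hag (hM.c i), hM.d, fun i j hij => ?_⟩, ?_⟩
    · obtain ⟨x, hx, y, hy, hxy⟩ := hM.adj i j hij
      exact ⟨x, hx, y, hy, hag x (hAW i hx) y (hAW j hy) hxy⟩
    · intro i y hy
      exact (hr y (hAW i hy)).trans hn

end Pool.Agent.PT2
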