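import Pool.Agent.PT2.StmtsR
import Pool.Agent.ACC.Lib

set_option autoImplicit false

namespace Pool.Agent.PT2

open Pool.Agent.ACC Pool.Agent.KUR

namespace MCK_

theorem rch_map {V : Type} {Y : SimpleGraph V} {S : Set V} {a b : S}
    (h : (Y.induce S).Reachable a b) : Rch Y S a b := by
  obtain ⟨w⟩ := h
  induction w with
  | @nil u => exact Rch.refl Y u.2
  | @cons u v w huv q ih =>
    have huv' : Y.Adj u v := huv
    exact (Rch.of_adj u.2 v.2 huv').trans ih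

theorem cn_of_connected {V : Type} {Y : SimpleGraph V} {S : Set V}
    (h : (Y.induce S).Connected) : Cn Y S := by
  obtain ⟨x0⟩ := h.nonempty
  exact cn_of_rch (x := (x0 : V)) x0.2 (fun y hy => rch_map (h.preconnected x0 ⟨y, hy⟩))

/-- the union of the cells of the vertices of `S` -/
def un {V V'' : Type} (K : V → Set V'') (S : Set V) : Set V'' := {a | ∃ x ∈ S, a ∈ K x}

theorem cn_un {V V'' : Type} {Y : SimpleGraph V} {Y'' : SimpleGraph V''} {K : V → Set V''}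
    (hK : ∀ x, Cn Y'' (K x))
    (hA : ∀ x y, Y.Adj x y → ∃ a ∈ K x, ∃ b ∈ K y, Y''.Adj a b) {S : Set V}
    (hS : Cn Y S) : Cn Y'' (un K S) := by
  have hle : ∀ x ∈ S, K x ⊆ un K S := fun x hx a ha => ⟨x, hx, ha⟩
  obtain ⟨x0, hx0⟩ := hS.1
  obtain ⟨a0, ha0⟩ := (hK x0).1
  have key : ∀ y, y ∈ S → ∀ b ∈ K y, Rch Y'' (un K S) a0 b := by
    intro y hy
    have h := hS.rch hx0 hy
    refine h.closed {y | ∀ b ∈ K y, Rch Y'' (un K S) a0 b} ?_ ?_
    · intro b hb
      exact ((hK x0).rch ha0 hb).mono le_rfl (hle x0 hx0)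
    · intro u hu v hv huv b hb
      obtain ⟨c, hc, d, hd, hcd⟩ := hA u v huv
      have h1 : Rch Y'' (un K S) a0 c := hu c hc
      have h2 : Rch Y'' (un K S) c d := Rch.of_adj h1.right ⟨v, hv, hd⟩ hcd
      have h3 : Rch Y'' (un K S) d b := ((hK v).rch hd hb).mono le_rfl (hle v hv)
      exact (h1.trans h2).trans h3
  refine cn_of_rch (x := a0) ⟨x0, hx0, ha0⟩ ?_
  rintro b ⟨y, hy, hb⟩
  exact key y hy b hb

theorem disj_un {V V'' : Type} {K : V → Set V''} (hD : ∀ x y, x ≠ y → Disjoint (K x) (K y))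
    {S T : Set V} (h : Disjoint S T) : Disjoint (un K S) (un K T) := by
  rw [Set.disjoint_left]
  rintro a ⟨x, hx, hax⟩ ⟨y, hy, hay⟩
  have hxy : x ≠ y := by
    rintro rfl
    exact (Set.disjoint_left.1 h) hx hy
  exact (Set.disjoint_left.1 (hD x y hxy)) hax hay

theorem adj_un {V V'' : Type} {Y : SimpleGraph V} {Y'' : SimpleGraph V''} {K : V → Set V''}
    (hA : ∀ x y, Y.Adj x y → ∃ a ∈ K x, ∃ b ∈ K y, Y''.Adj a b) {S T : Set V}
    (h : ∃ x ∈ S, ∃ y ∈ T, Y.Adj x y) : ∃ x ∈ un K S, ∃ y ∈ un K T, Y''.Adj x y := by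
  obtain ⟨x, hx, y, hy, hxy⟩ := h
  obtain ⟨a, ha, b, hb, hab⟩ := hA x y hxy
  exact ⟨a, ⟨x, hx, ha⟩, b, ⟨y, hy, hb⟩, hab⟩

end MCK_

theorem mck_proof : Stmt_MCK := by
  intro V V'' Y Y'' K hK' hD hA
  have hK : ∀ x, Cn Y'' (K x) := fun x => MCK_.cn_of_connected (hK' x)
  constructor
  · rintro ⟨A, B, h⟩
    exact ⟨fun i => MCK_.un K (A i), fun i => MCK_.un K (B i),
      { ca := fun i => MCK_.cn_un hK hA (h.ca i)
        cb := fun i => MCK_.cn_un hK hA (h.cb i)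
        da := fun i j hij => MCK_.disj_un hD (h.da i j hij)
        db := fun i j hij => MCK_.disj_un hD (h.db i j hij)
        dab := fun i j => MCK_.disj_un hD (h.dab i j)
        adj := fun i j => MCK_.adj_un hA (h.adj i j) }⟩
  · rintro ⟨A, h⟩
    exact ⟨fun i => MCK_.un K (A i),
      { c := fun i => MCK_.cn_un hK hA (h.c i)
        d := fun i j hij => MCK_.disj_un hD (h.d i j hij)
        adj := fun i j hij => MCK_.adj_un hA (h.adj i j hij) }⟩

end Pool.Agent.PT2
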