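import Pool.Agent.PT2.StmtsR
import Pool.Agent.ACC.Lib

/-!
MP_851278_al, PART II, module RIG: the Rips graph on the trace.
-/

set_option autoImplicit false

namespace Pool.Agent.PT2

open Pool.Agent.ACC Pool.Agent.KUR

namespace RIG_

variable {V : Type}

theorem exists_walk {X : SimpleGraph V} (hX : X.Connected) (x y : V) :
    ∃ p : X.Walk x y, p.length = X.dist x y :=
  (hX.preconnected x y).exists_walk_length_eq_dist

theorem ball_finite {X : SimpleGraph V} (hX : X.Connected) (hl : LocFin X) (x : V) :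
    ∀ r : ℕ, {y | X.dist x y ≤ r}.Finite := by
  intro r
  induction r with
  | zero =>
    refine (Set.finite_singleton x).subset ?_
    intro y hy
    have h1 : X.dist x y ≤ 0 := hy
    have h2 : X.dist x y = 0 := Nat.le_zero.1 h1
    have h3 := (hX.dist_eq_zero_iff).1 h2
    rw [h3]
    exact Set.mem_singleton y
  | succ r ih =>
    refine (ih.union (ih.biUnion fun z _ => hl z)).subset ?_
    intro y hy
    have h1 : X.dist x y ≤ r + 1 := hy
    obtain ⟨p, hp⟩ := exists_walk hX y x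
    rw [SimpleGraph.dist_comm] at hp
    cases p with
    | nil =>
      refine Or.inl ?_
      show X.dist x x ≤ r
      rw [SimpleGraph.dist_self]
      exact Nat.zero_le r
    | @cons _ z _ h q =>
      rw [SimpleGraph.Walk.length_cons] at hp
      refine Or.inr ?_
      rw [Set.mem_iUnion₂]
      refine ⟨z, ?_, h.symm⟩
      show X.dist x z ≤ r
      rw [SimpleGraph.dist_comm]
      have h2 := SimpleGraph.dist_le q
      omega

theorem dist_map_le {X : SimpleGraph V} (hX : X.Connected) (g : V → V)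
    (hg : ∀ x y, X.Adj x y → X.Adj (g x) (g y)) (x y : V) :
    X.dist (g x) (g y) ≤ X.dist x y := by
  obtain ⟨p, hp⟩ := exists_walk hX x y
  let f : X →g X := ⟨g, fun {a b} h => hg a b h⟩
  have h1 := SimpleGraph.dist_le (p.map f)
  rw [SimpleGraph.Walk.length_map, hp] at h1
  exact h1

theorem dist_aut {X : SimpleGraph V} (hX : X.Connected) (g : Equiv.Perm V)
    (hg : ∀ x y, X.Adj (g x) (g y) ↔ X.Adj x y) (x y : V) :
    X.dist (g x) (g y) = X.dist x y := by
  apply le_antisymm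
  · exact dist_map_le hX g (fun x y h => (hg x y).2 h) x y
  · have h1 := dist_map_le hX (g⁻¹ : Equiv.Perm V) (fun x y h => (adj_inv hg x y).2 h) (g x) (g y)
    simpa using h1

theorem exists_mem_ZZ {X : SimpleGraph V} (hX : X.Connected) {E v : Set (Set V)}
    (h0 : Stmt_HUA) (hE : NestSet E) (hv : IsVtx E v) : ∃ x, x ∈ ZZ X v := by
  obtain ⟨x⟩ := hX.nonempty
  by_cases hx : ∃ C ∈ Hub v, x ∈ C
  · obtain ⟨C, hC, hxC⟩ := hx
    have hCE := (h0 V E v hE hv).1 C hC
    obtain ⟨e, he⟩ := bd_nonempty hX ⟨x, hxC⟩ (hE.ne _ (hE.compl _ hCE))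
    obtain ⟨a, b, hab, ha, hb, rfl⟩ := he
    exact ⟨a, Or.inr ⟨C, hC, b, a, b, hab, ha, hb, rfl⟩⟩
  · push Not at hx
    exact ⟨x, Or.inl hx⟩

theorem reach_of_rtg {X : SimpleGraph V} (hX : X.Connected) {Z : Set V} {c R : ℕ} (hcR : c ≤ R)
    {x y : V} (hx : x ∈ Z)
    (h : Relation.ReflTransGen (fun a b => b ∈ Z ∧ X.dist a b ≤ c) x y) :
    ∃ hy : y ∈ Z, (rips X Z R).Reachable ⟨x, hx⟩ ⟨y, hy⟩ := by
  induction h with
  | refl => exact ⟨hx, SimpleGraph.Reachable.refl _⟩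
  | @tail b d _ hbd ih =>
    obtain ⟨hb, hr⟩ := ih
    refine ⟨hbd.1, ?_⟩
    by_cases hbd' : b = d
    · subst hbd'
      exact hr
    · refine hr.trans (SimpleGraph.Adj.reachable ?_)
      show (pow X R).Adj b d
      exact ⟨hbd', hX.preconnected b d, hbd.2.trans hcR⟩

theorem pow_adj {X : SimpleGraph V} (hX : X.Connected) (R : ℕ) (g : Equiv.Perm V)
    (hg : ∀ x y, X.Adj (g x) (g y) ↔ X.Adj x y) (x y : V) :
    (pow X R).Adj (g x) (g y) ↔ (pow X R).Adj x y := by
  have h1 := dist_aut hX g hg x y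
  constructor
  · rintro ⟨h2, -, h4⟩
    refine ⟨fun h => h2 (by rw [h]), hX.preconnected x y, ?_⟩
    rw [← h1]
    exact h4
  · rintro ⟨h2, -, h4⟩
    refine ⟨fun h => h2 (g.injective h), hX.preconnected _ _, ?_⟩
    rw [h1]
    exact h4

/-- The permutations of `Z` induced by the group. -/
def indG (H : Subgroup (Equiv.Perm V)) (Z : Set V) : Subgroup (Equiv.Perm Z) where
  carrier := {s | ∃ g ∈ H, ∀ x : Z, ((s x : Z) : V) = g x}
  mul_mem' := by
    rintro a b ⟨g, hg, h1⟩ ⟨h, hh, h2⟩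
    refine ⟨g * h, H.mul_mem hg hh, fun x => ?_⟩
    rw [Equiv.Perm.mul_apply, h1, h2, Equiv.Perm.mul_apply]
  one_mem' := ⟨1, H.one_mem, fun x => rfl⟩
  inv_mem' := by
    rintro a ⟨g, hg, h1⟩
    refine ⟨g⁻¹, H.inv_mem hg, fun x => ?_⟩
    have h2 := h1 ((a⁻¹ : Equiv.Perm Z) x)
    have h3 : a ((a⁻¹ : Equiv.Perm Z) x) = x := by simp
    rw [h3] at h2
    rw [h2]
    simp

/-- The restriction of a permutation. -/
def res (Z : Set V) (g : Equiv.Perm V) (h : ∀ x, g x ∈ Z ↔ x ∈ Z) : Equiv.Perm Z where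
  toFun x := ⟨g x, (h x).2 x.2⟩
  invFun x := ⟨g.symm x, by rw [← h, Equiv.apply_symm_apply]; exact x.2⟩
  left_inv x := by
    apply Subtype.ext
    show g.symm (g x) = x
    rw [Equiv.symm_apply_apply]
  right_inv x := by
    apply Subtype.ext
    show g (g.symm x) = x
    rw [Equiv.apply_symm_apply]

end RIG_

open RIG_ in
theorem rig_proof (h1 : Stmt_HUA) (h2 : Stmt_ZCC) (h3 : Stmt_ZCF) (h4 : Stmt_ZST) :
    Stmt_RIG := by
  intro V X G E N hX hl hG hV hN
  obtain ⟨c, hc⟩ := h2 V X G E N hX hG hN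
  refine ⟨c, fun v hv R hR => ?_⟩
  refine ⟨?_, ?_, indG (stabV G v) (ZZ X v), ?_, ?_⟩
  · obtain ⟨z, hz⟩ := exists_mem_ZZ hX h1 hN.toNestSet hv
    have : Nonempty (ZZ X v) := ⟨⟨z, hz⟩⟩
    refine SimpleGraph.Connected.mk ?_
    intro x y
    obtain ⟨_, hr⟩ := reach_of_rtg hX hR x.2 (hc v hv x x.2 y y.2)
    exact hr
  · intro x
    have h5 := (ball_finite hX hl (x : V) R).preimage
      (f := (Subtype.val : ZZ X v → V)) Subtype.val_injective.injOn
    refine h5.subset ?_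
    intro y hy
    have h6 : (pow X R).Adj (x : V) (y : V) := hy
    exact h6.2.2
  · rintro s ⟨g, hg, hs⟩ x y
    show (pow X R).Adj ((s x : ZZ X v) : V) ((s y : ZZ X v) : V) ↔ (pow X R).Adj (x : V) (y : V)
    rw [hs, hs]
    exact pow_adj hX R g (hG g hg.1) _ _
  · obtain ⟨F, hF, hFZ, hFr⟩ := h3 V X G E v N hG hV hN hv
    refine ⟨Subtype.val ⁻¹' F, hF.preimage Subtype.val_injective.injOn, fun x => ?_⟩
    obtain ⟨g, hg, y, hy, hgy⟩ := hFr x x.2
    refine ⟨res (ZZ X v) g (h4 V X G v hG g hg), ⟨g, hg, fun _ => rfl⟩, ⟨y, hFZ hy⟩, hy, ?_⟩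
    apply Subtype.ext
    exact hgy

end Pool.Agent.PT2
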