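import Pool.Agent.PT2.StmtsR
import Pool.Agent.ACC.Lib

/-!
MP_851278_al, squad PTR, module TOB: relative accessibility at all vertices of the tree
implies accessibility.
-/

set_option autoImplicit false

namespace Pool.Agent.PT2

open Pool.Agent.ACC Pool.Agent.KUR

namespace TOB_

/-- a common bound for finitely many vertices -/
theorem bound {V : Type} (X : SimpleGraph V) (E : Set (Set V)) (F : Set (Set (Set V)))
    (hF : F.Finite) (hv : ∀ v ∈ F, IsVtx E v) (hacc : ∀ v, IsVtx E v → RAcc X v) :
    ∃ N0 : ℕ, ∀ v ∈ F, ∀ A : Set V, (bd X A).Finite → (∀ C ∈ Hub v, C ⊆ A ∨ C ⊆ Aᶜ) →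
      Gen (Small X N0) A := by
  classical
  choose! n hn using fun v (h : v ∈ F) => hacc v (hv v h)
  refine ⟨hF.toFinset.sup n, fun v hvF A hA hC => ?_⟩
  refine (hn v hvF A hA hC).mono (small_mono ?_)
  exact Finset.le_sup (f := n) (hF.mem_toFinset.2 hvF)

end TOB_

open TOB_ in
theorem tob_proof (h2 : Stmt_HUF) (h4 : Stmt_TOV) (h5 : Stmt_DEC) : Stmt_TOB := by
  intro V X G E N hX hG hE hacc
  obtain ⟨F, hF, hFv, hFE⟩ := h2 V X G E N hG hE
  obtain ⟨N0, hN0⟩ := bound X E F hF hFv hacc
  refine ⟨max N N0, fun A hA => ?_⟩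
  set M := max N N0 with hM
  refine Gen.trans ?_ (h5 V X G E N hE A hA)
  rintro B (hB | ⟨hBfin, hBn⟩)
  · exact Gen.base _ (small_mono (le_max_left _ _) (hE.small B hB))
  · by_cases hB0 : B.Nonempty
    swap
    · rw [Set.not_nonempty_iff_eq_empty] at hB0
      rw [hB0]
      exact Gen.empty
    by_cases hB1 : Bᶜ.Nonempty
    swap
    · rw [Set.not_nonempty_iff_eq_empty] at hB1
      apply Gen.of_compl
      rw [hB1]
      exact Gen.empty
    by_cases hBE : B ∈ E
    · exact Gen.base _ (small_mono (le_max_left _ _) (hE.small B hBE))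
    obtain ⟨v, hv, hvB⟩ := h4 V X G E N hE B hB0 hB1 hBE hBn
    obtain ⟨g, hg, v0, hv0, hvv⟩ := hFE v hv
    have hadj := hG g hg
    set B' : Set V := (g⁻¹ : Equiv.Perm V) '' B with hB'
    have hgB' : g '' B' = B := image_image_inv g B
    have hhub : ∀ C ∈ Hub v0, C ⊆ B' ∨ C ⊆ B'ᶜ := by
      intro C hC
      have hgC : g '' C ∈ Hub v := by
        constructor
        · rw [hvv]
          exact ⟨Cᶜ, hC.1, image_compl g C⟩
        · intro D hD hDC
          rw [hvv] at hD
          obtain ⟨D0, hD0, rfl⟩ := hD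
          have hsub : D0 ⊆ Cᶜ := by
            rw [← image_subset_image g, image_compl]
            exact hDC
          rw [hC.2 D0 hD0 hsub]
          exact image_compl g C
      rcases hvB _ hgC with h | h
      · left
        rw [← image_subset_image g, hgB']
        exact h
      · right
        rw [← image_subset_image g, image_compl, hgB']
        exact h
    have hadj' := adj_inv hadj
    have hB'fin : (bd X B').Finite := (bd_image_finite X g⁻¹ hadj' B).2 hBfin
    have hgen' : Gen (Small X M) B' :=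
      (hN0 v0 hv0 B' hB'fin hhub).mono (small_mono (le_max_right _ _))
    have h7 := Gen.small_image hadj hgen'
    rwa [hgB'] at h7

end Pool.Agent.PT2
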