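import Pool.Agent.PT2.StmtsR
import Pool.Agent.ACC.Lib

/-!
MP_851278_al, module TOR: an accessible torso gives relative accessibility.
-/

set_option autoImplicit false

namespace Pool.Agent.PT2

open Pool.Agent.ACC Pool.Agent.KUR

theorem tor_proof (h3 : Stmt_TOE) (h1 : Stmt_HUA) : Stmt_TOR := by
  intro V X G E v N hE hv hacc
  obtain ⟨N0, hN0⟩ := hacc
  refine ⟨(N + 1) * N0, fun A hA hhub => ?_⟩
  set U : Set (TV v) := tproj v '' A with hU
  have hpre : tproj v ⁻¹' U = A := by
    ext x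
    constructor
    · rintro ⟨y, hy, hyx⟩
      rcases ((h1 V E v hE.toNestSet hv).2.2.2 y x).1 hyx with rfl | ⟨C, hC, hyC, hxC⟩
      · exact hy
      · rcases hhub C hC with h | h
        · exact h hxC
        · exact absurd hy (h hyC)
    · intro hx
      exact ⟨x, hx, rfl⟩
  have hUfin : (bd (torso X v) U).Finite := by
    apply (h3 V X G E v N hE hv U).2
    rw [hpre]
    exact hA
  have hgen := hN0 U hUfin
  have h6 := hgen.preimage (tproj v)
  rw [hpre] at h6
  refine h6.mono ?_
  rintro _ ⟨W, hW, rfl⟩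
  obtain ⟨k1, k2⟩ := (h3 V X G E v N hE hv W).1 hW.1
  refine ⟨k1, k2.trans ?_⟩
  exact Nat.mul_le_mul_left _ hW.2

end Pool.Agent.PT2
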