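import Pool.Agent.PT2.StmtsR
import Pool.Agent.ACC.Lib
import Pool.Agent.ACC.LibB

/-!
MP_851278_al, PART II, module TRA: an accessible Rips graph on the trace gives relative
accessibility.
-/

set_option autoImplicit false

namespace Pool.Agent.PT2

open Pool.Agent.ACC Pool.Agent.KUR

namespace TRA_

variable {V : Type}

/-- finiteness of the boundary of the trace in the Rips graph -/
theorem rips_fin {X : SimpleGraph V} (hX : X.Connected) (hLF : LocFin X) (Z : Set V) (R : ℕ)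
    {U : Set V} (hU : (bd X U).Finite) : (bd (rips X Z R) {x : Z | (x : V) ∈ U}).Finite := by
  classical
  have hE : {b : V | ∃ e ∈ bd X U, b ∈ e}.Finite := by
    have : {b : V | ∃ e ∈ bd X U, b ∈ e} = ⋃ e ∈ bd X U, {b | b ∈ e} := by
      ext b; simp
    rw [this]
    refine hU.biUnion (fun e _ => ?_)
    induction e using Sym2.ind with
    | _ x y =>
      refine (Set.toFinite {x, y}).subset ?_
      intro b hb
      have hb' : b ∈ s(x, y) := hb
      rw [Sym2.mem_iff] at hb'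
      simpa using hb'
  have hT : (⋃ b ∈ {b : V | ∃ e ∈ bd X U, b ∈ e}, ball X b R).Finite :=
    hE.biUnion (fun b _ => ball_finite hX hLF b R)
  have hT' : {x : Z | (x : V) ∈ ⋃ b ∈ {b : V | ∃ e ∈ bd X U, b ∈ e}, ball X b R}.Finite :=
    hT.preimage (Subtype.val_injective.injOn)
  refine ((hT'.prod hT').image (fun p : Z × Z => s(p.1, p.2))).subset ?_
  rintro e ⟨x, y, hxy, hx, hy, rfl⟩
  have hadj : (pow X R).Adj (x : V) (y : V) := hxy
  obtain ⟨hne, hre, hd⟩ := hadj
  obtain ⟨p, hp⟩ := hX.exists_walk_length_eq_dist (x : V) (y : V)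
  obtain ⟨e, he, heb⟩ := exists_bd_edge p (A := U) hx hy
  have hmem : ∃ b, b ∈ e := by
    induction e using Sym2.ind with
    | _ a b => exact ⟨a, Sym2.mem_mk_left a b⟩
  obtain ⟨b, hb⟩ := hmem
  have hbs : b ∈ p.support := by
    induction e using Sym2.ind with
    | _ u v =>
      rw [Sym2.mem_iff] at hb
      rcases hb with rfl | rfl
      · exact p.fst_mem_support_of_mem_edges he
      · exact p.snd_mem_support_of_mem_edges he
  have hlen : p.length = (p.takeUntil b hbs).length + (p.dropUntil b hbs).length := by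
    rw [← SimpleGraph.Walk.length_append, SimpleGraph.Walk.take_spec]
  have h1 : X.dist (x : V) b ≤ R := by
    refine (SimpleGraph.dist_le (p.takeUntil b hbs)).trans ?_
    omega
  have h2 : X.dist b (y : V) ≤ R := by
    refine (SimpleGraph.dist_le (p.dropUntil b hbs)).trans ?_
    omega
  refine ⟨(x, y), ⟨?_, ?_⟩, rfl⟩
  · simp only [Set.mem_ofPred_eq, Set.mem_iUnion]
    refine ⟨b, ⟨e, heb, hb⟩, ?_⟩
    show X.dist b (x : V) ≤ R
    rw [SimpleGraph.dist_comm]
    exact h1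
  · simp only [Set.mem_ofPred_eq, Set.mem_iUnion]
    exact ⟨b, ⟨e, heb, hb⟩, h2⟩

/-- finite unions -/
theorem gen_biUnion {S : Set (Set V)} {I : Set (Set V)} (hI : I.Finite) (f : Set V → Set V)
    (h : ∀ C ∈ I, Gen S (f C)) : Gen S (⋃ C ∈ I, f C) := by
  induction I, hI using Set.Finite.induction_on with
  | empty => simpa using Gen.empty
  | insert _ _ ih =>
    rw [Set.biUnion_insert]
    exact Gen.union (h _ (Set.mem_insert _ _)) (ih (fun C hC => h C (Set.mem_insert_of_mem _ hC)))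

end TRA_

open TRA_ in
theorem tra_proof (h1 : Stmt_TRX) (h2 : Pool.Agent.ACC.Stmt_HUA) : Stmt_TRA := by
  classical
  intro V X G E N hX hLF hG hVF hE
  obtain ⟨R0, d, hR0⟩ := h1 V X G E N hX hLF hG hVF hE
  refine ⟨R0, ?_⟩
  intro v hv R hR hacc
  obtain ⟨hsmall, hext⟩ := hR0 v hv
  obtain ⟨N0, hN0⟩ := hacc
  obtain ⟨hh1, hh2, hh3, hh4⟩ := h2 V E v hE.toNestSet hv
  refine ⟨N0 + N0 * d + d, ?_⟩
  have claim : ∀ A : Set (ZZ X v), Gen (Small (rips X (ZZ X v) R) N0) A →
      ∃ A' : Set V, Gen (Small X (N0 + N0 * d + d)) A' ∧ (∀ x : ZZ X v, (x : V) ∈ A' ↔ x ∈ A) ∧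
        (∀ C ∈ Hub v, C \ ZZ X v ⊆ A' ∨ C \ ZZ X v ⊆ A'ᶜ) ∧
        {C | C ∈ Hub v ∧ ¬ (C ⊆ A' ∨ C ⊆ A'ᶜ)}.Finite := by
    intro A hA
    induction hA with
    | base A hA =>
      obtain ⟨W', hW1, hW2, hW3, hW4⟩ := hext R hR N0 A hA
      exact ⟨W', Gen.base _ (small_mono (by omega) hW1), hW2, hW3, hW4⟩
    | empty =>
      refine ⟨∅, Gen.empty, fun x => by simp, fun C _ => Or.inr (by simp), ?_⟩
      refine Set.finite_empty.subset ?_
      rintro C ⟨-, hC⟩
      exact (hC (Or.inr (by simp))).elim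
    | compl A _ ih =>
      obtain ⟨A', h1, h2, h3, h4⟩ := ih
      refine ⟨A'ᶜ, Gen.compl _ h1, fun x => ?_, fun C hC => ?_, ?_⟩
      · rw [Set.mem_compl_iff, Set.mem_compl_iff, h2 x]
      · rw [compl_compl]
        exact (h3 C hC).symm
      · refine h4.subset ?_
        rintro C ⟨hC, hC'⟩
        refine ⟨hC, fun h => hC' ?_⟩
        rw [compl_compl]
        exact h.symm
    | inter A B _ _ ihA ihB =>
      obtain ⟨A', h1, h2, h3, h4⟩ := ihA
      obtain ⟨B', k1, k2, k3, k4⟩ := ihB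
      refine ⟨A' ∩ B', Gen.inter _ _ h1 k1, fun x => ?_, fun C hC => ?_, ?_⟩
      · rw [Set.mem_inter_iff, Set.mem_inter_iff, h2 x, k2 x]
      · rcases h3 C hC with h | h
        · rcases k3 C hC with k | k
          · exact Or.inl (Set.subset_inter h k)
          · exact Or.inr (k.trans (Set.compl_subset_compl.2 Set.inter_subset_right))
        · exact Or.inr (h.trans (Set.compl_subset_compl.2 Set.inter_subset_left))
      · refine (h4.union k4).subset ?_
        rintro C ⟨hC, hC'⟩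
        by_contra hcon
        have ha : C ⊆ A' ∨ C ⊆ A'ᶜ := by
          by_contra h
          exact hcon (Or.inl ⟨hC, h⟩)
        have hb : C ⊆ B' ∨ C ⊆ B'ᶜ := by
          by_contra h
          exact hcon (Or.inr ⟨hC, h⟩)
        apply hC'
        rcases ha with h | h
        · rcases hb with k | k
          · exact Or.inl (Set.subset_inter h k)
          · exact Or.inr (k.trans (Set.compl_subset_compl.2 Set.inter_subset_right))
        · exact Or.inr (h.trans (Set.compl_subset_compl.2 Set.inter_subset_left))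
  intro U hU hcut
  obtain ⟨A', g1, g2, g3, g4⟩ := claim _ (hN0 {x : ZZ X v | (x : V) ∈ U}
    (rips_fin hX hLF (ZZ X v) R hU))
  have g2' : ∀ x ∈ ZZ X v, (x ∈ A' ↔ x ∈ U) := fun x hx => g2 ⟨x, hx⟩
  -- hubs meet the trace
  have hmeet : ∀ C ∈ Hub v, ∃ z ∈ C, z ∈ ZZ X v := by
    intro C hC
    have hCE := hh1 C hC
    obtain ⟨e, he⟩ := bd_nonempty hX (hE.ne C hCE) (hE.ne _ (hE.compl C hCE))
    obtain ⟨a, b, hab, ha, hb, rfl⟩ := he
    refine ⟨a, ha, Or.inr ⟨C, hC, b, ?_⟩⟩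
    exact ⟨a, b, hab, ha, hb, rfl⟩
  -- the bad hubs
  obtain ⟨H2, hH2⟩ : ∃ H2 : Set (Set V), H2 = {C | C ∈ Hub v ∧ ∃ x ∈ C \ ZZ X v, ¬ (x ∈ A' ↔ x ∈ U)} :=
    ⟨_, rfl⟩
  have hH2f : H2.Finite := by
    refine g4.subset ?_
    rw [hH2]
    rintro C ⟨hC, x, hx, hxn⟩
    refine ⟨hC, fun h => hxn ?_⟩
    obtain ⟨z, hzC, hzZ⟩ := hmeet C hC
    have hz := g2' z hzZ
    rcases h with h | h
    · rcases hcut C hC with k | k
      · exact ⟨fun _ => k hx.1, fun _ => h hx.1⟩
      · exact absurd (hz.1 (h hzC)) (k hzC)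
    · rcases hcut C hC with k | k
      · exact absurd (hz.2 (k hzC)) (h hzC)
      · exact ⟨fun q => absurd q (h hx.1), fun q => absurd q (k hx.1)⟩
  have hS : Gen (Small X (N0 + N0 * d + d)) (⋃ C ∈ H2, C \ ZZ X v) := by
    refine gen_biUnion hH2f (fun C => C \ ZZ X v) (fun C hC => ?_)
    rw [hH2] at hC
    exact Gen.base _ (small_mono (by omega) (hsmall C hC.1))
  have hbad : ∀ x, x ∈ (⋃ C ∈ H2, C \ ZZ X v) ↔ ¬ (x ∈ A' ↔ x ∈ U) := by
    intro x
    simp only [Set.mem_iUnion, exists_prop]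
    constructor
    · rintro ⟨C, hC, hx⟩
      rw [hH2] at hC
      obtain ⟨hC, y, hy, hyn⟩ := hC
      intro hx2
      apply hyn
      rcases hcut C hC with k | k
      · have := hx2.2 (k hx.1)
        rcases g3 C hC with l | l
        · exact ⟨fun _ => k hy.1, fun _ => l hy⟩
        · exact absurd this (l hx)
      · have hxU : x ∉ U := k hx.1
        have hyU : y ∉ U := k hy.1
        rcases g3 C hC with l | l
        · exact absurd (hx2.1 (l hx)) hxU
        · exact ⟨fun q => absurd q (l hy), fun q => absurd q hyU⟩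
    · intro hx
      have hxZ : x ∉ ZZ X v := fun h => hx (g2' x h)
      have : ∃ C ∈ Hub v, x ∈ C := by
        by_contra hno
        push Not at hno
        exact hxZ (Or.inl hno)
      obtain ⟨C, hC, hxC⟩ := this
      refine ⟨C, ?_, hxC, hxZ⟩
      rw [hH2]
      exact ⟨hC, x, ⟨hxC, hxZ⟩, hx⟩
  have hUeq : U = (A' ∩ (⋃ C ∈ H2, C \ ZZ X v)ᶜ) ∪ (A'ᶜ ∩ ⋃ C ∈ H2, C \ ZZ X v) := by
    ext x
    rw [Set.mem_union, Set.mem_inter_iff, Set.mem_inter_iff, Set.mem_compl_iff, Set.mem_compl_iff,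
      hbad x]
    tauto
  rw [hUeq]
  exact Gen.union (Gen.inter _ _ g1 (Gen.compl _ hS)) (Gen.inter _ _ (Gen.compl _ g1) hS)

end Pool.Agent.PT2
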