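import Pool.Agent.PT2.StmtsR
import Pool.Agent.ACC.Lib

/-!
MP_851278_al Part II, module TRN: translates of good graphs.
-/

set_option autoImplicit false

namespace Pool.Agent.PT2

open Pool.Agent.ACC Pool.Agent.KUR

namespace TRN_

variable {V : Type}

/-- a homomorphism does not increase reachable distances -/
theorem dist_hom_le {X : SimpleGraph V} (f : X →g X) {x y : V} (h : X.Reachable x y) :
    X.dist (f x) (f y) ≤ X.dist x y := by
  obtain ⟨w, hw⟩ := h.exists_walk_length_eq_dist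
  have := SimpleGraph.dist_le (w.map f)
  rw [SimpleGraph.Walk.length_map, hw] at this
  exact this

theorem dist_le_aux {X : SimpleGraph V} (g : Equiv.Perm V)
    (hg : ∀ x y, X.Adj (g x) (g y) ↔ X.Adj x y) (x y : V) :
    X.dist (g x) (g y) ≤ X.dist x y := by
  by_cases h : X.Reachable x y
  · exact dist_hom_le (X := X) ⟨g, fun {a b} hab => (hg a b).2 hab⟩ h
  · have h' : ¬ X.Reachable (g x) (g y) := by
      intro hr
      apply h
      obtain ⟨w⟩ := hr
      have w' := w.map (⟨g.symm, fun {a b} hab =>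
        (hg (g.symm a) (g.symm b)).1 (by simpa using hab)⟩ : X →g X)
      exact ⟨w'.copy (by simp) (by simp)⟩
    rw [SimpleGraph.dist_eq_zero_of_not_reachable h']
    exact Nat.zero_le _

theorem dist_eq {X : SimpleGraph V} (g : Equiv.Perm V)
    (hg : ∀ x y, X.Adj (g x) (g y) ↔ X.Adj x y) (x y : V) :
    X.dist (g x) (g y) = X.dist x y := by
  apply le_antisymm (dist_le_aux g hg x y)
  have hg' : ∀ x y, X.Adj (g.symm x) (g.symm y) ↔ X.Adj x y := by
    intro a b
    rw [← hg]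
    simp
  have := dist_le_aux g.symm hg' (g x) (g y)
  simpa using this

/-- transport of connected sets back along `g` -/
theorem cn_symm {P : SimpleGraph V} (g : Equiv.Perm V) {A : Set V}
    (h : Cn (P.comap g.symm) A) : Cn P (g.symm '' A) := by
  refine ⟨h.1.image _, ?_⟩
  rintro _ ⟨x, hx, rfl⟩ _ ⟨y, hy, rfl⟩
  obtain ⟨w, hw⟩ := h.2 x hx y hy
  refine ⟨w.map (⟨g.symm, fun {a b} hab => hab⟩ : P.comap g.symm →g P), ?_⟩
  intro z hz
  rw [SimpleGraph.Walk.support_map, List.mem_map] at hz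
  obtain ⟨u, hu, rfl⟩ := hz
  exact ⟨u, hw u hu, rfl⟩

theorem disj_symm (g : Equiv.Perm V) {A B : Set V} (h : Disjoint A B) :
    Disjoint (g.symm '' A) (g.symm '' B) :=
  (Set.disjoint_image_iff g.symm.injective).2 h

theorem adj_symm {P : SimpleGraph V} (g : Equiv.Perm V) {A B : Set V}
    (h : ∃ x ∈ A, ∃ y ∈ B, (P.comap g.symm).Adj x y) :
    ∃ x ∈ g.symm '' A, ∃ y ∈ g.symm '' B, P.Adj x y := by
  obtain ⟨x, hx, y, hy, hxy⟩ := h
  exact ⟨g.symm x, ⟨x, hx, rfl⟩, g.symm y, ⟨y, hy, rfl⟩, hxy⟩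

theorem sub_symm {X : SimpleGraph V} (g : Equiv.Perm V)
    (hg : ∀ x y, X.Adj (g x) (g y) ↔ X.Adj x y) {x : V} {r : ℕ} {A : Set V}
    (h : A ⊆ {y | X.dist (g x) y ≤ r}) : g.symm '' A ⊆ {y | X.dist x y ≤ r} := by
  rintro _ ⟨y, hy, rfl⟩
  have h1 : X.dist (g x) y ≤ r := h hy
  have h2 := dist_eq g hg x (g.symm y)
  rw [Equiv.apply_symm_apply] at h2
  show X.dist x (g.symm y) ≤ r
  rw [← h2]
  exact h1

end TRN_

open TRN_

theorem trn_proof : Stmt_TRN := by
  intro V X P S Z c g hg hZ hP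
  refine ⟨⟨?_, ?_, ?_, ?_⟩, ?_⟩
  · intro x y h
    exact ⟨g.symm x, hP.sup _ _ h, by simp⟩
  · intro x y h
    have h1 := hP.len _ _ h
    rw [← dist_eq g hg] at h1
    simpa using h1
  · intro z hz
    have h1 : g.symm z ∈ Z := by
      rw [← hZ]
      simpa using hz
    obtain ⟨x, hx, hd⟩ := hP.cov _ h1
    refine ⟨g x, ⟨x, hx, rfl⟩, ?_⟩
    rw [← dist_eq g hg] at hd
    simpa using hd
  · rintro _ ⟨x, hx, rfl⟩ _ ⟨y, hy, rfl⟩
    obtain ⟨w, hw⟩ := hP.spn x hx y hy
    refine ⟨w.map (⟨g, fun {a b} hab => by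
      show P.Adj (g.symm (g a)) (g.symm (g b))
      simpa using hab⟩ : P →g P.comap g.symm), ?_⟩
    rw [SimpleGraph.Walk.length_map, dist_eq g hg]
    exact hw
  · intro x r h
    refine ⟨?_, ?_⟩
    · rintro ⟨A, C, hM, hA, hC⟩
      refine h.1 ⟨fun i => g.symm '' A i, fun i => g.symm '' C i, ⟨?_, ?_, ?_, ?_, ?_, ?_⟩, ?_, ?_⟩
      · exact fun i => cn_symm g (hM.ca i)
      · exact fun i => cn_symm g (hM.cb i)
      · exact fun i j hij => disj_symm g (hM.da i j hij)
      · exact fun i j hij => disj_symm g (hM.db i j hij)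
      · exact fun i j => disj_symm g (hM.dab i j)
      · exact fun i j => adj_symm g (hM.adj i j)
      · exact fun i => sub_symm g hg (hA i)
      · exact fun i => sub_symm g hg (hC i)
    · rintro ⟨A, hM, hA⟩
      refine h.2 ⟨fun i => g.symm '' A i, ⟨?_, ?_, ?_⟩, ?_⟩
      · exact fun i => cn_symm g (hM.c i)
      · exact fun i j hij => disj_symm g (hM.d i j hij)
      · exact fun i j hij => adj_symm g (hM.adj i j hij)
      · exact fun i => sub_symm g hg (hA i)

end Pool.Agent.PT2
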