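import Pool.Agent.PT2.StmtsR
import Pool.Agent.ACC.Lib

/-!
MP_851278_al, PART II, module TRX: extension of a small cut of the Rips graph on the trace to a
small cut of the graph.
-/

set_option autoImplicit false

namespace Pool.Agent.PT2

open Pool.Agent.ACC Pool.Agent.KUR

namespace TRX_

variable {V : Type}

theorem dist_le_of_aut {X : SimpleGraph V} (hc : X.Connected) (g : Equiv.Perm V)
    (hg : ∀ x y, X.Adj (g x) (g y) ↔ X.Adj x y) (x y : V) :
    X.dist (g x) (g y) ≤ X.dist x y := by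
  obtain ⟨w, hw⟩ := hc.exists_walk_length_eq_dist x y
  let f : X →g X := ⟨g, fun {a b} h => (hg a b).2 h⟩
  have h1 : (w.map f).length = w.length := SimpleGraph.Walk.length_map _ _
  have h2 := SimpleGraph.dist_le (w.map f)
  rw [h1, hw] at h2
  exact h2

/-- bounded degree -/
theorem deg_bound {X : SimpleGraph V} {G : Subgroup (Equiv.Perm V)} (hLF : LocFin X)
    (hG : IsAut X G) (hVF : VertFin G) : ∃ Δ : ℕ, ∀ x, (X.neighborSet x).ncard ≤ Δ := by
  obtain ⟨F, hF, hF2⟩ := hVF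
  obtain ⟨Δ, hΔ⟩ := (hF.image (fun y => (X.neighborSet y).ncard)).bddAbove
  refine ⟨Δ, fun x => ?_⟩
  obtain ⟨g, hg, y, hy, rfl⟩ := hF2 x
  have h1 : X.neighborSet (g y) = g '' X.neighborSet y := by
    ext z
    obtain ⟨z, rfl⟩ := g.surjective z
    rw [g.injective.mem_set_image, SimpleGraph.mem_neighborSet, SimpleGraph.mem_neighborSet]
    exact hG g hg y z
  rw [h1, Set.ncard_image_of_injective _ g.injective]
  exact hΔ (Set.mem_image_of_mem _ hy)

/-- the edges with an end in a set -/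
def inc (X : SimpleGraph V) (T : Set V) : Set (Sym2 V) := {e | e ∈ X.edgeSet ∧ ∃ t ∈ T, t ∈ e}

theorem inc_bound {X : SimpleGraph V} {Δ : ℕ} (hLF : LocFin X)
    (hΔ : ∀ x, (X.neighborSet x).ncard ≤ Δ) {T : Set V} (hT : T.Finite) :
    (inc X T).Finite ∧ (inc X T).ncard ≤ T.ncard * Δ := by
  induction T, hT using Set.Finite.induction_on with
  | empty =>
    have : inc X (∅ : Set V) = ∅ := by
      ext e
      simp [inc]
    rw [this]
    simp
  | @insert a S ha hS ih =>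
    have h1 : inc X (insert a S) ⊆ (fun y => s(a, y)) '' X.neighborSet a ∪ inc X S := by
      rintro e ⟨he, t, ht, hte⟩
      rcases Set.mem_insert_iff.mp ht with rfl | ht
      · left
        obtain ⟨y, rfl⟩ := hte
        exact ⟨y, he, rfl⟩
      · exact Or.inr ⟨he, t, ht, hte⟩
    have h2 : ((fun y => s(a, y)) '' X.neighborSet a).Finite := (hLF a).image _
    have h3 := h2.union ih.1
    refine ⟨h3.subset h1, ?_⟩
    rw [Set.ncard_insert_of_notMem ha hS]
    have h4 := Set.ncard_le_ncard h1 h3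
    have h5 := Set.ncard_union_le ((fun y => s(a, y)) '' X.neighborSet a) (inc X S)
    have h6 := Set.ncard_image_le (f := fun y => s(a, y)) (hLF a)
    have h7 := hΔ a
    have h8 := ih.2
    rw [Nat.add_mul, Nat.one_mul]
    omega

theorem iUnion_bound {α β : Type} {M : Set α} (hM : M.Finite) (S : α → Set β) (d : ℕ)
    (h : ∀ a ∈ M, (S a).Finite ∧ (S a).ncard ≤ d) :
    (⋃ a ∈ M, S a).Finite ∧ (⋃ a ∈ M, S a).ncard ≤ M.ncard * d := by
  induction M, hM using Set.Finite.induction_on with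
  | empty => simp
  | @insert a M ha hM ih =>
    have ih' := ih (fun b hb => h b (Set.mem_insert_of_mem _ hb))
    have ha' := h a (Set.mem_insert _ _)
    rw [Set.biUnion_insert]
    refine ⟨ha'.1.union ih'.1, ?_⟩
    rw [Set.ncard_insert_of_notMem ha hM]
    have h5 := Set.ncard_union_le (S a) (⋃ a ∈ M, S a)
    have h6 := ih'.2
    have h7 := ha'.2
    rw [Nat.add_mul, Nat.one_mul]
    omega

/-- end points of boundary edges -/
def ep (X : SimpleGraph V) (B : Set V) : Set V := {x | ∃ y, s(x, y) ∈ bd X B}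

theorem ep_finite {X : SimpleGraph V} {B : Set V} (h : (bd X B).Finite) : (ep X B).Finite := by
  have h1 : ep X B ⊆ ⋃ e ∈ bd X B, {x | x ∈ e} := by
    rintro x ⟨y, hy⟩
    exact Set.mem_biUnion hy (Sym2.mem_mk_left x y)
  refine Set.Finite.subset (h.biUnion (fun e _ => ?_)) h1
  induction e with
  | _ a b =>
    apply Set.Finite.subset ((Set.finite_singleton b).insert a)
    intro x hx
    have hx' : x ∈ s(a, b) := hx
    rw [Sym2.mem_iff] at hx'
    exact hx'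

theorem ep_bound {X : SimpleGraph V} {G : Subgroup (Equiv.Perm V)} {E : Set (Set V)} {N : ℕ}
    (hX : X.Connected) (hG : IsAut X G) (hE : NestFam X G E N) :
    ∃ R0 : ℕ, ∀ C ∈ E, ∀ x ∈ ep X C, ∀ y ∈ ep X C, X.dist x y ≤ R0 := by
  obtain ⟨F, hF, hFE, hF2⟩ := hE.fin
  have hfin : (⋃ B ∈ F, (fun p : V × V => X.dist p.1 p.2) '' (ep X B ×ˢ ep X B)).Finite :=
    hF.biUnion (fun B hB => by
      have h1 := ep_finite (hE.small B (hFE hB)).1
      exact (h1.prod h1).image _)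
  obtain ⟨R0, hR0⟩ := hfin.bddAbove
  refine ⟨R0, ?_⟩
  intro C hC x hx y hy
  obtain ⟨g, hg, B, hB, rfl⟩ := hF2 C hC
  have key : ∀ z, z ∈ ep X (g '' B) → ∃ z' ∈ ep X B, g z' = z := by
    rintro z ⟨t, ht⟩
    obtain ⟨z, rfl⟩ := g.surjective z
    obtain ⟨t, rfl⟩ := g.surjective t
    refine ⟨z, ⟨t, ?_⟩, rfl⟩
    rw [mem_bd_iff, hG g hg, g.injective.mem_set_image, g.injective.mem_set_image] at ht
    rw [mem_bd_iff]
    exact ht
  obtain ⟨x', hx', rfl⟩ := key x hx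
  obtain ⟨y', hy', rfl⟩ := key y hy
  refine (dist_le_of_aut hX g (hG g hg) x' y').trans ?_
  apply hR0
  exact Set.mem_biUnion hB ⟨(x', y'), ⟨hx', hy'⟩, rfl⟩

end TRX_

open TRX_ in
theorem trx_proof (h1 : Stmt_HUA) (h2 : Stmt_ZFI) : Stmt_TRX := by
  intro V X G E N hX hLF hG hVF hE
  obtain ⟨Δ, hΔ⟩ := deg_bound hLF hG hVF
  obtain ⟨R1, hR1⟩ := ep_bound hX hG hE
  refine ⟨R1 + 1, N * Δ, ?_⟩
  intro v hv
  obtain ⟨hHE, hdis, -, -⟩ := h1 V E v hE.toNestSet hv
  obtain ⟨hZF, -⟩ := h2 V X G E v N hE hv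
  -- basic facts
  have huniq : ∀ C ∈ Hub v, ∀ C' ∈ Hub v, ∀ x, x ∈ C → x ∈ C' → C = C' := by
    intro C hC C' hC' x hx hx'
    by_contra hne
    exact Set.disjoint_left.mp (hdis C hC C' hC' hne) hx hx'
  have hout : ∀ x, x ∉ ZZ X v → ∃ C ∈ Hub v, x ∈ C := by
    intro x hx
    by_contra hcon
    push Not at hcon
    exact hx (Or.inl hcon)
  have hend : ∀ C ∈ Hub v, ∀ x y, s(x, y) ∈ bd X C → x ∈ ZZ X v :=
    fun C hC x y h => Or.inr ⟨C, hC, y, h⟩
  have hstay : ∀ C ∈ Hub v, ∀ x ∈ C, x ∉ ZZ X v → ∀ y, X.Adj x y → y ∈ C := by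
    intro C hC x hx hxZ y hxy
    by_contra hy
    exact hxZ (hend C hC x y ((mem_bd_iff X C x y).mpr ⟨hxy, Or.inl ⟨hx, hy⟩⟩))
  have hep : ∀ C ∈ Hub v, ∀ x ∈ C, x ∈ ZZ X v → x ∈ ep X C := by
    intro C hC x hx hxZ
    rcases hxZ with h | ⟨C', hC', y, h⟩
    · exact absurd hx (h C hC)
    · by_cases hCC : C = C'
      · subst hCC
        exact ⟨y, h⟩
      · refine ⟨y, ?_⟩
        rw [mem_bd_iff] at h ⊢
        rcases h.2 with ⟨g1, g2⟩ | ⟨g1, g2⟩
        · exact absurd (huniq C hC C' hC' x hx g1) hCC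
        · refine ⟨h.1, Or.inl ⟨hx, fun g3 => hCC (huniq C hC C' hC' y g3 g2)⟩⟩
  have hincd : ∀ C ∈ Hub v, (inc X (C ∩ ZZ X v)).Finite ∧
      (inc X (C ∩ ZZ X v)).ncard ≤ N * Δ := by
    intro C hC
    obtain ⟨g1, g2⟩ := inc_bound hLF hΔ (hZF C hC).1
    exact ⟨g1, g2.trans (Nat.mul_le_mul_right Δ (hZF C hC).2)⟩
  constructor
  · -- first part
    intro C hC
    have hsub : bd X (C \ ZZ X v) ⊆ inc X (C ∩ ZZ X v) := by
      rintro e ⟨x, y, hxy, hx, hy, rfl⟩
      have hyC := hstay C hC x hx.1 hx.2 y hxy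
      have hyZ : y ∈ ZZ X v := by
        by_contra hyZ
        exact hy ⟨hyC, hyZ⟩
      exact ⟨hxy, y, ⟨hyC, hyZ⟩, Sym2.mem_mk_right x y⟩
    obtain ⟨g1, g2⟩ := hincd C hC
    exact ⟨g1.subset hsub, (Set.ncard_le_ncard hsub g1).trans g2⟩
  · -- second part
    intro R hR m W hW
    set W' : Set V := {x | (∃ h : x ∈ ZZ X v, (⟨x, h⟩ : ZZ X v) ∈ W) ∨
      (x ∉ ZZ X v ∧ ∃ C ∈ Hub v, x ∈ C ∧ ∀ z (h : z ∈ ZZ X v), z ∈ C → (⟨z, h⟩ : ZZ X v) ∈ W)}
      with hW'
    have hWZ : ∀ x (h : x ∈ ZZ X v), x ∈ W' ↔ (⟨x, h⟩ : ZZ X v) ∈ W := by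
      intro x h
      rw [hW']
      constructor
      · rintro (⟨h', h3⟩ | ⟨h', -⟩)
        · exact h3
        · exact absurd h h'
      · intro h3
        exact Or.inl ⟨h, h3⟩
    have hWC : ∀ C ∈ Hub v, ∀ x ∈ C, x ∉ ZZ X v →
        (x ∈ W' ↔ ∀ z (h : z ∈ ZZ X v), z ∈ C → (⟨z, h⟩ : ZZ X v) ∈ W) := by
      intro C hC x hx hxZ
      rw [hW']
      constructor
      · rintro (⟨h', h3⟩ | ⟨-, C', hC', hx', h3⟩)
        · exact absurd h' hxZ
        · rw [huniq C hC C' hC' x hx hx']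
          exact h3
      · intro h3
        exact Or.inr ⟨hxZ, C, hC, hx, h3⟩
    -- mixed hubs
    set Mix : Set (Set V) := {C | C ∈ Hub v ∧ (∃ b, ∃ h : b ∈ ZZ X v, b ∈ C ∧
      (⟨b, h⟩ : ZZ X v) ∈ W) ∧ ∃ b, ∃ h : b ∈ ZZ X v, b ∈ C ∧ (⟨b, h⟩ : ZZ X v) ∉ W} with hMix
    have hadj : ∀ x (hx : x ∈ ZZ X v) y (hy : y ∈ ZZ X v), x ≠ y → X.dist x y ≤ R →
        (rips X (ZZ X v) R).Adj ⟨x, hx⟩ ⟨y, hy⟩ := by
      intro x hx y hy hne hd
      exact ⟨hne, hX x y, hd⟩
    have hmixe : ∀ C ∈ Mix, ∃ b b' : ZZ X v, (b : V) ∈ C ∧ (b' : V) ∈ C ∧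
        s(b, b') ∈ bd (rips X (ZZ X v) R) W := by
      rintro C ⟨hC, ⟨b, hb, hbC, hbW⟩, b', hb', hbC', hbW'⟩
      refine ⟨⟨b, hb⟩, ⟨b', hb'⟩, hbC, hbC', ?_⟩
      refine (mem_bd_iff _ W _ _).mpr ⟨?_, Or.inl ⟨hbW, hbW'⟩⟩
      apply hadj
      · rintro rfl
        exact hbW' hbW
      · have := hR1 C (hHE C hC) b (hep C hC b hbC hb) b' (hep C hC b' hbC' hb')
        omega
    have hMM : Mix.Finite ∧ Mix.ncard ≤ m := by
      rcases Set.eq_empty_or_nonempty Mix with h0 | ⟨C0, hC0⟩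
      · rw [h0]
        simp
      · obtain ⟨b0, -⟩ := hmixe C0 hC0
        haveI : Nonempty (ZZ X v) := ⟨b0⟩
        choose! β β' hβ using hmixe
        have hinj : Set.InjOn (fun C => s(β C, β' C)) Mix := by
          intro C hC C' hC' he
          have e1 := hβ C hC
          have e2 := hβ C' hC'
          have he' : s(β C, β' C) = s(β C', β' C') := he
          rw [Sym2.eq_iff] at he'
          rcases he' with ⟨e3, -⟩ | ⟨e3, -⟩
          · refine huniq C hC.1 C' hC'.1 (β C) e1.1 ?_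
            rw [e3]
            exact e2.1
          · refine huniq C hC.1 C' hC'.1 (β C) e1.1 ?_
            rw [e3]
            exact e2.2.1
        have hmaps : Set.MapsTo (fun C => s(β C, β' C)) Mix (bd (rips X (ZZ X v) R) W) :=
          fun C hC => (hβ C hC).2.2
        exact ⟨Set.Finite.of_injOn hmaps hinj hW.1,
          (Set.ncard_le_ncard_of_injOn _ hmaps hinj hW.1).trans hW.2⟩
    obtain ⟨hMfin, hMcard⟩ := hMM
    -- the boundary of W'
    have hbd : bd X W' ⊆ Sym2.map (fun x : ZZ X v => (x : V)) '' bd (rips X (ZZ X v) R) W ∪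
        ⋃ C ∈ Mix, inc X (C ∩ ZZ X v) := by
      have key : ∀ x y, X.Adj x y → x ∉ ZZ X v → ¬ (x ∈ W' ↔ y ∈ W') →
          s(x, y) ∈ ⋃ C ∈ Mix, inc X (C ∩ ZZ X v) := by
        intro x y hxy hxZ hne
        obtain ⟨C, hC, hxC⟩ := hout x hxZ
        have hyC := hstay C hC x hxC hxZ y hxy
        have hyZ : y ∈ ZZ X v := by
          by_contra hyZ
          exact hne ((hWC C hC x hxC hxZ).trans (hWC C hC y hyC hyZ).symm)
        have hx' : x ∉ W' := by
          intro hx'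
          have h3 := (hWC C hC x hxC hxZ).mp hx' y hyZ hyC
          exact hne ⟨fun _ => (hWZ y hyZ).mpr h3, fun _ => hx'⟩
        have hy' : y ∈ W' := by
          by_contra hy'
          exact hne ⟨fun h => absurd h hx', fun h => absurd h hy'⟩
        have hMixC : C ∈ Mix := by
          refine ⟨hC, ⟨y, hyZ, hyC, (hWZ y hyZ).mp hy'⟩, ?_⟩
          have h3 := mt (hWC C hC x hxC hxZ).mpr hx'
          push Not at h3
          obtain ⟨z, hz, hzC, hzW⟩ := h3
          exact ⟨z, hz, hzC, hzW⟩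
        exact Set.mem_biUnion hMixC ⟨hxy, y, ⟨hyC, hyZ⟩, Sym2.mem_mk_right x y⟩
      rintro e ⟨x, y, hxy, hx, hy, rfl⟩
      by_cases hxZ : x ∈ ZZ X v
      · by_cases hyZ : y ∈ ZZ X v
        · left
          refine ⟨s(⟨x, hxZ⟩, ⟨y, hyZ⟩), ?_, rfl⟩
          refine (mem_bd_iff _ W _ _).mpr ⟨?_, Or.inl ⟨(hWZ x hxZ).mp hx,
            fun h => hy ((hWZ y hyZ).mpr h)⟩⟩
          apply hadj
          · exact hxy.ne
          · rw [SimpleGraph.dist_eq_one_iff_adj.mpr hxy]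
            omega
        · right
          rw [Sym2.eq_swap]
          exact key y x hxy.symm hyZ (fun h => hy (h.mpr hx))
      · right
        exact key x y hxy hxZ (fun h => hy (h.mp hx))
    obtain ⟨u1, u2⟩ := iUnion_bound hMfin (fun C => inc X (C ∩ ZZ X v)) (N * Δ)
      (fun C hC => hincd C hC.1)
    have u3 : (Sym2.map (fun x : ZZ X v => (x : V)) '' bd (rips X (ZZ X v) R) W).Finite :=
      hW.1.image _
    have u4 := Set.ncard_image_le (f := Sym2.map (fun x : ZZ X v => (x : V))) hW.1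
    refine ⟨W', ⟨(u3.union u1).subset hbd, ?_⟩, fun x => hWZ x x.2, ?_, ?_⟩
    · refine (Set.ncard_le_ncard hbd (u3.union u1)).trans ?_
      refine (Set.ncard_union_le _ _).trans ?_
      have u5 : Mix.ncard * (N * Δ) ≤ m * (N * Δ) := Nat.mul_le_mul_right _ hMcard
      have u6 := hW.2
      omega
    · intro C hC
      by_cases hall : ∀ z (h : z ∈ ZZ X v), z ∈ C → (⟨z, h⟩ : ZZ X v) ∈ W
      · left
        intro x hx
        exact (hWC C hC x hx.1 hx.2).mpr hall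
      · right
        intro x hx hxW
        exact hall ((hWC C hC x hx.1 hx.2).mp hxW)
    · refine hMfin.subset ?_
      rintro C ⟨hC, hcut⟩
      by_contra hnm
      apply hcut
      by_cases hall : ∀ z (h : z ∈ ZZ X v), z ∈ C → (⟨z, h⟩ : ZZ X v) ∈ W
      · left
        intro x hx
        by_cases hxZ : x ∈ ZZ X v
        · exact (hWZ x hxZ).mpr (hall x hxZ hx)
        · exact (hWC C hC x hx hxZ).mpr hall
      · right
        intro x hx hxW
        by_cases hxZ : x ∈ ZZ X v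
        · apply hnm
          refine ⟨hC, ⟨x, hxZ, hx, (hWZ x hxZ).mp hxW⟩, ?_⟩
          push Not at hall
          obtain ⟨z, hz, hzC, hzW⟩ := hall
          exact ⟨z, hz, hzC, hzW⟩
        · exact hall ((hWC C hC x hx hxZ).mp hxW)

end Pool.Agent.PT2
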