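import Pool.Agent.PT2.StmtsR
import Pool.Agent.ACC.Lib

/-!
MP_851278_al, squad PTR, module UNI: all balls around one point.
-/

set_option autoImplicit false

namespace Pool.Agent.PT2

open Pool.Agent.ACC Pool.Agent.KUR

namespace UNI_

variable {V : Type}

theorem dist_le_of_aut {X : SimpleGraph V} (hc : X.Connected) (g : Equiv.Perm V)
    (hg : ∀ x y, X.Adj (g x) (g y) ↔ X.Adj x y) (x y : V) :
    X.dist (g x) (g y) ≤ X.dist x y := by
  obtain ⟨w, hw⟩ := hc.exists_walk_length_eq_dist x y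
  rw [← hw]
  let f : X →g X := ⟨fun z => g z, fun {a b} h => (hg a b).2 h⟩
  have h1 := SimpleGraph.dist_le (w.map f)
  rw [SimpleGraph.Walk.length_map] at h1
  exact h1

theorem noKur_mono {P : SimpleGraph V} {B B' : Set V} (h : B' ⊆ B) (hB : NoKur P B) :
    NoKur P B' := by
  refine ⟨?_, ?_⟩
  · rintro ⟨A, C, hM, hA, hC⟩
    exact hB.1 ⟨A, C, hM, fun i => (hA i).trans h, fun i => (hC i).trans h⟩
  · rintro ⟨A, hM, hA⟩
    exact hB.2 ⟨A, hM, fun i => (hA i).trans h⟩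

end UNI_

open UNI_ in
theorem uni_proof (hNFE : Stmt_NFE) (hEFV : Stmt_EFV) (hZCF : Stmt_ZCF) (hZST : Stmt_ZST)
    (hTRN : Stmt_TRN) : Stmt_UNI := by
  intro V X G k0 w c hX hl hG hV hw hP x0 r
  have hEF : EdgeFin X G := hEFV V X G hl hG hV
  have hN : NestFam X G (EE X k0) k0 := hNFE V X G hX hG hEF k0
  obtain ⟨F, hF, hFZ, hcov⟩ := hZCF V X G (EE X k0) w k0 hG hV hN hw
  obtain ⟨D, hD⟩ : ∃ D, ∀ y ∈ F, X.dist x0 y ≤ D := by
    obtain ⟨D, hD⟩ := (hF.image (fun y => X.dist x0 y)).bddAbove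
    exact ⟨D, fun y hy => hD (Set.mem_image_of_mem _ hy)⟩
  obtain ⟨P, S, x, hgood, hxS, ⟨z, hz, hzx⟩, hK⟩ := hP (r + (D + c))
  obtain ⟨g, hg, y, hy, hgy⟩ := hcov z hz
  have hg' : g⁻¹ ∈ stabV G w := (stabV G w).inv_mem hg
  have hgG : g⁻¹ ∈ G := hg'.1
  have hst := hZST V X G w hG g⁻¹ hg'
  obtain ⟨h1, h2⟩ := hTRN V X P S (ZZ X w) c g⁻¹ (hG g⁻¹ hgG) hst hgood
  refine ⟨P.comap (g⁻¹).symm, (g⁻¹ : Equiv.Perm V) '' S, h1, ?_⟩
  have h3 := h2 x (r + (D + c)) hK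
  refine noKur_mono ?_ h3
  intro u hu
  have hu' : X.dist x0 u ≤ r := hu
  have hyz : (g⁻¹ : Equiv.Perm V) z = y := by rw [← hgy]; simp
  have hd1 : X.dist y ((g⁻¹ : Equiv.Perm V) x) ≤ c := by
    have := dist_le_of_aut hX (g⁻¹) (hG g⁻¹ hgG) z x
    rw [hyz] at this
    exact this.trans hzx
  have hd2 : X.dist x0 ((g⁻¹ : Equiv.Perm V) x) ≤ D + c :=
    (hX.dist_triangle (v := y)).trans (Nat.add_le_add (hD y hy) hd1)
  have hd3 : X.dist ((g⁻¹ : Equiv.Perm V) x) u ≤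
      X.dist ((g⁻¹ : Equiv.Perm V) x) x0 + X.dist x0 u := hX.dist_triangle
  rw [SimpleGraph.dist_comm (u := (g⁻¹ : Equiv.Perm V) x) (v := x0)] at hd3
  show X.dist ((g⁻¹ : Equiv.Perm V) x) u ≤ r + (D + c)
  omega

end Pool.Agent.PT2
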