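import Pool.Agent.PT2.StmtsR
import Pool.Agent.ACC.Lib

/-!
MP_851278_al, squad PTR, module VOQ: Voronoi data for the Rips graph.
-/

set_option autoImplicit false

namespace Pool.Agent.PT2

open Pool.Agent.ACC Pool.Agent.KUR

namespace VOQ_

variable {V : Type}

/-- lifting a walk to an induced subgraph -/
theorem lift_walk (P : SimpleGraph V) (T : Set V) {s t : V} (w : P.Walk s t)
    (hT : ∀ z ∈ w.support, z ∈ T) (hs : s ∈ T) (ht : t ∈ T) :
    ∃ w' : (P.induce T).Walk ⟨s, hs⟩ ⟨t, ht⟩, w'.length = w.length := by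
  induction w with
  | nil => exact ⟨SimpleGraph.Walk.nil, rfl⟩
  | @cons a b d h p ih =>
    have hT' : ∀ z ∈ p.support, z ∈ T := fun z hz => hT z (by
      rw [SimpleGraph.Walk.support_cons]
      exact List.mem_cons_of_mem _ hz)
    have hb : b ∈ T := hT' b p.start_mem_support
    obtain ⟨w', hw'⟩ := ih hT' hb ht
    have hab : (P.induce T).Adj ⟨a, hs⟩ ⟨b, hb⟩ := h
    refine ⟨SimpleGraph.Walk.cons hab w', ?_⟩
    rw [SimpleGraph.Walk.length_cons, SimpleGraph.Walk.length_cons, hw']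

/-- distances along walks -/
theorem dist_walk {X P : SimpleGraph V} {c : ℕ} (hX : X.Connected)
    (h : ∀ x y, P.Adj x y → X.dist x y ≤ c) {s t : V} (w : P.Walk s t) :
    X.dist s t ≤ c * w.length := by
  induction w with
  | nil => simp
  | @cons a b d hab p ih =>
    rw [SimpleGraph.Walk.length_cons]
    have h1 := h a b hab
    have h2 := hX.dist_triangle (u := a) (v := b) (w := d)
    have h3 : c * (p.length + 1) = c * p.length + c := by ring
    omega

/-- connected sets of an induced subgraph -/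
theorem cn_val (P : SimpleGraph V) (T : Set V) {S : Set T} (h : Cn (P.induce T) S) :
    Cn P (Subtype.val '' S) := by
  obtain ⟨⟨x, hx⟩, h2⟩ := h
  refine ⟨⟨x, x, hx, rfl⟩, ?_⟩
  rintro _ ⟨a, ha, rfl⟩ _ ⟨b, hb, rfl⟩
  obtain ⟨w, hw⟩ := h2 a ha b hb
  clear h2 hx x ha hb
  have key : ∀ (a b : T) (w : (P.induce T).Walk a b), (∀ z ∈ w.support, z ∈ S) →
      Rch P (Subtype.val '' S) a.1 b.1 := by
    intro a b w
    induction w with
    | @nil u =>
      intro hw
      exact Rch.refl P ⟨u, hw u (by simp), rfl⟩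
    | @cons u v t h p ih =>
      intro hw
      have hu : u ∈ S := hw u (by simp)
      have hp : ∀ z ∈ p.support, z ∈ S := fun z hz => hw z (by
        rw [SimpleGraph.Walk.support_cons]
        exact List.mem_cons_of_mem _ hz)
      have hv : v ∈ S := hp v p.start_mem_support
      have huv : P.Adj u.1 v.1 := h
      exact Rch.trans (Rch.of_adj ⟨u, hu, rfl⟩ ⟨v, hv, rfl⟩ huv) (ih hp)
  exact key a b w hw

theorem disj_val {T : Set V} {S S' : Set T} (h : Disjoint S S') :
    Disjoint (Subtype.val '' S : Set V) (Subtype.val '' S') := by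
  rw [Set.disjoint_left]
  rintro _ ⟨a, ha, rfl⟩ ⟨b, hb, hab⟩
  have : b = a := Subtype.ext hab
  subst this
  exact (Set.disjoint_left.1 h) ha hb

theorem has33_val (P : SimpleGraph V) (T : Set V) (h : Has33 (P.induce T)) : Has33 P := by
  obtain ⟨A, B, hM⟩ := h
  refine ⟨fun i => Subtype.val '' A i, fun i => Subtype.val '' B i,
    ⟨fun i => cn_val P T (hM.ca i), fun i => cn_val P T (hM.cb i),
      fun i j hij => disj_val (hM.da i j hij), fun i j hij => disj_val (hM.db i j hij),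
      fun i j => disj_val (hM.dab i j), fun i j => ?_⟩⟩
  obtain ⟨x, hx, y, hy, hxy⟩ := hM.adj i j
  exact ⟨x, ⟨x, hx, rfl⟩, y, ⟨y, hy, rfl⟩, hxy⟩

theorem has5_val (P : SimpleGraph V) (T : Set V) (h : Has5 (P.induce T)) : Has5 P := by
  obtain ⟨A, hM⟩ := h
  refine ⟨fun i => Subtype.val '' A i, ⟨fun i => cn_val P T (hM.c i),
      fun i j hij => disj_val (hM.d i j hij), fun i j hij => ?_⟩⟩
  obtain ⟨x, hx, y, hy, hxy⟩ := hM.adj i j hij
  exact ⟨x, ⟨x, hx, rfl⟩, y, ⟨y, hy, rfl⟩, hxy⟩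

/-- a chain gives a short walk in the Rips graph -/
theorem chn_dist {X : SimpleGraph V} {Z : Set V} {c0 R m : ℕ} (hX : X.Connected) (hc : c0 ≤ R)
    (hR : (rips X Z R).Connected) {x y : Z} (h : Chn X Z c0 m x y) :
    (rips X Z R).dist x y ≤ m := by
  obtain ⟨p, hp0, hpm, hp⟩ := h
  have key : ∀ k, (rips X Z R).dist x ⟨p k, (hp k).1⟩ ≤ k := by
    intro k
    induction k with
    | zero =>
      have : (⟨p 0, (hp 0).1⟩ : Z) = x := Subtype.ext hp0
      rw [this]
      simp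
    | succ k ih =>
      have h1 := hR.dist_triangle (u := x) (v := ⟨p k, (hp k).1⟩) (w := ⟨p (k + 1), (hp (k + 1)).1⟩)
      have h2 : (rips X Z R).dist ⟨p k, (hp k).1⟩ ⟨p (k + 1), (hp (k + 1)).1⟩ ≤ 1 := by
        by_cases he : p k = p (k + 1)
        · have : (⟨p k, (hp k).1⟩ : Z) = ⟨p (k + 1), (hp (k + 1)).1⟩ := Subtype.ext he
          rw [this]
          simp
        · have hadj : (rips X Z R).Adj ⟨p k, (hp k).1⟩ ⟨p (k + 1), (hp (k + 1)).1⟩ :=
            ⟨he, hX.preconnected _ _, (hp k).2.trans hc⟩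
          rw [SimpleGraph.dist_eq_one_iff_adj.2 hadj]
      omega
  have h := key m
  have : (⟨p m, (hp m).1⟩ : Z) = y := Subtype.ext hpm
  rw [this] at h
  exact h

end VOQ_

open VOQ_ in
theorem voq_proof : Stmt_VOQ := by
  intro V X P S Z c c0 R hX hZ hG hcR hR hch
  have hcov : ∀ z : Z, ∃ x, x ∈ S ∧ X.dist z x ≤ c := fun z => by
    obtain ⟨x, hx, h⟩ := hG.cov z z.2
    exact ⟨x, hx, h⟩
  choose q0 hq0S hq0d using hcov
  obtain ⟨D, hD⟩ : ∃ D : ℕ, D = c * (2 * c + R) := ⟨_, rfl⟩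
  obtain ⟨SD, hSD⟩ : ∃ SD : Set V, SD = {s | ∃ z : Z, ∃ w : P.Walk s (q0 z), w.length ≤ D} :=
    ⟨_, rfl⟩
  -- near points
  have hnear : ∀ (s : V) (z : Z) (w : P.Walk s (q0 z)), w.length ≤ D →
      ∀ u ∈ w.support, u ∈ SD := by
    classical
    intro s z w hw u hu
    rw [hSD]
    exact ⟨z, w.dropUntil u hu, (w.length_dropUntil_le_length hu).trans hw⟩
  have hmem : ∀ s : V, s ∈ SD → ∃ z : Z, ∃ w : P.Walk s (q0 z), w.length ≤ D := by
    intro s hs
    rw [hSD] at hs
    exact hs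
  have hq : ∀ z : Z, q0 z ∈ SD := fun z => by
    rw [hSD]
    exact ⟨z, SimpleGraph.Walk.nil, Nat.zero_le _⟩
  -- walks to the centres
  have hcen : ∀ s : SD, ∃ z : Z, ∃ w : (P.induce SD).Walk s ⟨q0 z, hq z⟩, w.length ≤ D := by
    rintro ⟨s, hs⟩
    have hs' := hs
    rw [hSD] at hs'
    obtain ⟨z, w, hw⟩ := hs'
    obtain ⟨w', hw'⟩ := lift_walk P SD w (hnear s z w hw) hs (hq z)
    exact ⟨z, w', hw'.le.trans hw⟩
  -- adjacent points of the Rips graph
  have hadj : ∀ x y : Z, (rips X Z R).Adj x y →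
      ∃ w : (P.induce SD).Walk ⟨q0 x, hq x⟩ ⟨q0 y, hq y⟩, w.length ≤ D := by
    intro x y hxy
    have h1 : X.dist x y ≤ R := hxy.2.2
    have h2 := hX.dist_triangle (u := q0 x) (v := x) (w := y)
    have h3 := hX.dist_triangle (u := q0 x) (v := y) (w := q0 y)
    have h4 := hq0d x
    rw [SimpleGraph.dist_comm] at h4
    have h5 := hq0d y
    have h6 : X.dist (q0 x) (q0 y) ≤ 2 * c + R := by omega
    obtain ⟨w, hw⟩ := hG.spn (q0 x) (hq0S x) (q0 y) (hq0S y)
    have h7 : w.length ≤ D := by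
      rw [hD]
      exact hw.trans (Nat.mul_le_mul_left c h6)
    obtain ⟨w', hw'⟩ := lift_walk P SD w (hnear _ y w h7) (hq x) (hq y)
    exact ⟨w', hw'.le.trans h7⟩
  have hwalk : ∀ (x y : Z) (p : (rips X Z R).Walk x y),
      ∃ w : (P.induce SD).Walk ⟨q0 x, hq x⟩ ⟨q0 y, hq y⟩, w.length ≤ D * p.length := by
    intro x y p
    induction p with
    | nil => exact ⟨SimpleGraph.Walk.nil, Nat.zero_le _⟩
    | @cons a b d h p ih =>
      obtain ⟨w1, h1⟩ := hadj a b h
      obtain ⟨w2, h2⟩ := ih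
      refine ⟨w1.append w2, ?_⟩
      rw [SimpleGraph.Walk.length_append, SimpleGraph.Walk.length_cons]
      have h3 : D * (p.length + 1) = D * p.length + D := by ring
      omega
  have hpre : ∀ s t : SD, (P.induce SD).Reachable s t := by
    intro s t
    obtain ⟨x, w1, -⟩ := hcen s
    obtain ⟨y, w2, -⟩ := hcen t
    obtain ⟨p⟩ := hR.preconnected x y
    obtain ⟨w3, -⟩ := hwalk x y p
    exact ⟨(w1.append w3).append w2.reverse⟩
  obtain ⟨z0, hz0⟩ := hZ
  have hne : Nonempty SD := ⟨⟨q0 ⟨z0, hz0⟩, hq _⟩⟩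
  have hcon : (P.induce SD).Connected := ⟨hpre⟩
  obtain ⟨m, hm⟩ := hch (2 * (c * D) + 3 * c)
  -- near points are close
  have hclose : ∀ (s t : V) (x y : Z) (w1 : P.Walk s (q0 x)) (w2 : P.Walk t (q0 y)),
      w1.length ≤ D → w2.length ≤ D → X.dist s t ≤ c → (rips X Z R).dist x y ≤ m := by
    intro s t x y w1 w2 h1 h2 h3
    have d1 := dist_walk hX hG.len w1
    have d2 := dist_walk hX hG.len w2
    have e1 : c * w1.length ≤ c * D := Nat.mul_le_mul_left c h1
    have e2 : c * w2.length ≤ c * D := Nat.mul_le_mul_left c h2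
    have f1 := hq0d x
    have f2 := hq0d y
    rw [SimpleGraph.dist_comm] at f2
    rw [SimpleGraph.dist_comm] at d1
    have g1 := hX.dist_triangle (u := (x : V)) (v := q0 x) (w := s)
    have g2 := hX.dist_triangle (u := (x : V)) (v := s) (w := t)
    have g3 := hX.dist_triangle (u := (x : V)) (v := t) (w := q0 y)
    have g4 := hX.dist_triangle (u := (x : V)) (v := q0 y) (w := (y : V))
    exact chn_dist hX hcR hR (hm x x.2 y y.2 (by omega))
  have hback : ∀ (s t : SD) (p : (P.induce SD).Walk s t) (x y : Z)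
      (w1 : P.Walk (s : V) (q0 x)) (w2 : P.Walk (t : V) (q0 y)),
      w1.length ≤ D → w2.length ≤ D → (rips X Z R).dist x y ≤ m * (p.length + 1) := by
    intro s t p
    induction p with
    | @nil u =>
      intro x y w1 w2 h1 h2
      have h := hclose u u x y w1 w2 h1 h2 (by simp)
      simpa using h
    | @cons a b d h p ih =>
      intro x y w1 w2 h1 h2
      obtain ⟨z, w, hw⟩ := hmem b.1 b.2
      have hab : P.Adj a b := h
      have k1 := hclose a b x z w1 w h1 hw (hG.len _ _ hab)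
      have k2 := ih z y w w2 hw h2
      have k3 := hR.dist_triangle (u := x) (v := z) (w := y)
      rw [SimpleGraph.Walk.length_cons]
      have k4 : m * (p.length + 1 + 1) = m * (p.length + 1) + m := by ring
      omega
  refine ⟨SD, P.induce SD, fun z => ⟨q0 z, hq z⟩, max D m, hcon, ?_, ?_, has33_val P SD,
    has5_val P SD⟩
  · intro x y
    constructor
    · show (P.induce SD).dist ⟨q0 x, hq x⟩ ⟨q0 y, hq y⟩ ≤
        max D m * (rips X Z R).dist x y + max D m
      obtain ⟨p, hp⟩ := hR.exists_walk_length_eq_dist x y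
      obtain ⟨w, hw⟩ := hwalk x y p
      have h1 := SimpleGraph.dist_le w
      have h2 : D * p.length ≤ max D m * (rips X Z R).dist x y := by
        rw [← hp]
        exact Nat.mul_le_mul_right _ (le_max_left _ _)
      omega
    · show (rips X Z R).dist x y ≤
        max D m * (P.induce SD).dist ⟨q0 x, hq x⟩ ⟨q0 y, hq y⟩ + max D m
      obtain ⟨p, hp⟩ := hcon.exists_walk_length_eq_dist ⟨q0 x, hq x⟩ ⟨q0 y, hq y⟩
      have h1 := hback _ _ p x y SimpleGraph.Walk.nil SimpleGraph.Walk.nil (Nat.zero_le _)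
        (Nat.zero_le _)
      rw [hp] at h1
      have h2 : m * ((P.induce SD).dist ⟨q0 x, hq x⟩ ⟨q0 y, hq y⟩ + 1) =
        m * (P.induce SD).dist ⟨q0 x, hq x⟩ ⟨q0 y, hq y⟩ + m := by ring
      have h3 : m * (P.induce SD).dist ⟨q0 x, hq x⟩ ⟨q0 y, hq y⟩ ≤
        max D m * (P.induce SD).dist ⟨q0 x, hq x⟩ ⟨q0 y, hq y⟩ :=
        Nat.mul_le_mul_right _ (le_max_right _ _)
      have h4 : m ≤ max D m := le_max_right _ _
      omega
  · intro s
    obtain ⟨z, w, hw⟩ := hcen s
    exact ⟨z, (SimpleGraph.dist_le w).trans (hw.trans (le_max_left _ _))⟩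

end Pool.Agent.PT2
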