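import Pool.Agent.ACC.PartI
import Pool.Agent.PT2.TOR
import Pool.Agent.PT2.TOB
import Pool.Agent.PT2.TRX
import Pool.Agent.PT2.TRA
import Pool.Agent.PT2.ZST
import Pool.Agent.PT2.RIG
import Pool.Agent.PT2.CHN
import Pool.Agent.PT2.TRN
import Pool.Agent.PT2.UNI
import Pool.Agent.PT2.FMD
import Pool.Agent.PT2.LIM
import Pool.Agent.PT2.VOQ
import Pool.Agent.PT2.MCK
import Pool.Agent.PT2.LFK
import Pool.Agent.PT2.AP2
import Pool.Agent.PT2.ASB

/-!
MP_851278_al (frozen S02151), PART II, second half: the modules of squad PTR put together.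
-/

set_option autoImplicit false

namespace Pool.Agent.PT2

open Pool.Agent.ACC Pool.Agent.KUR

theorem tor : Stmt_TOR := tor_proof toe hua
theorem tob : Stmt_TOB := tob_proof huf tov dec
theorem trx : Stmt_TRX := trx_proof hua zfi
theorem tra : Stmt_TRA := tra_proof trx hua
theorem zst : Stmt_ZST := zst_proof
theorem rig : Stmt_RIG := rig_proof hua zcc zcf zst
theorem chn : Stmt_CHN := chn_proof zcc zcf zst
theorem trn : Stmt_TRN := trn_proof
theorem uni : Stmt_UNI := uni_proof nfe efv zcf zst trn
theorem fmd : Stmt_FMD := fmd_proof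
theorem lim : Stmt_LIM := lim_proof fmd
theorem voq : Stmt_VOQ := voq_proof
theorem mck : Stmt_MCK := mck_proof
theorem lfk : Stmt_LFK := lfk_proof

/-- second half of the application, from Kuratowski's theorem and Theorem A -/
theorem apb2 (hk : Stmt_KUR) (ht : Stmt_THA) : Stmt_APB2 :=
  ap2_proof nfe efv tra rig chn uni lim voq vor mck lfk pow' hk ht

/-- the main theorem from the first half, Kuratowski's theorem and Theorem A -/
theorem main_of (hk : Stmt_KUR) (ht : Stmt_THA) (ha : Stmt_APA) : Stmt_MAIN :=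
  asb_proof nfe efv tor tob ha (apb2 hk ht)

/-- the frozen statement from the first half, Kuratowski's theorem and Theorem A -/
theorem fin_of (hk : Stmt_KUR) (ht : Stmt_THA) (ha : Stmt_APA) : Stmt_FIN :=
  fin_of_main (main_of hk ht ha)

end Pool.Agent.PT2
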