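import Pool.Agent.ACC.PartI
import Pool.Agent.ACC.PartIII
import Pool.Agent.KUR.All
import Pool.Agent.PT2.CoreAll
import Pool.Agent.PT2.PartP
import Pool.Agent.PT2.PartR

/-!
MP_851278_al (frozen S02151): everything put together.

Part I (ACC/PartI): Dicks-Dunwoody families, torsos, the accessibility criterion, spanners, ends.
Part II (PT2): the torso at a vertex of the tree has a planar spanner (CoreAll, PartP, PartR).
Kuratowski's theorem for rotation systems (KUR/All).
Part III (ACC/PartIII): Theorem A, planar spanners imply accessibility.
-/

set_option autoImplicit false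

namespace Pool.Agent.PT2

open Pool.Agent.ACC Pool.Agent.KUR

/-- Theorem A in the form of `PT2/Defs`. -/
theorem tha' : Stmt_THA := fun V X G R lam h1 h2 h3 h4 h5 h6 =>
  Pool.Agent.ACC.tha V X G h1 h2 h3 h4 ⟨R, lam, h5, h6⟩

/-- THE MAIN THEOREM: a quasi-transitive locally finite connected graph with a spanner without
`K_t` minor is accessible. -/
theorem main : Stmt_MAIN := main_of Pool.Agent.KUR.kur tha' (apa_of_core core)

/-- The frozen statement. -/
theorem fin : Stmt_FIN := fin_of_main main

end Pool.Agent.PT2
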