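import Pool.Agent.PT2.Stmts

/-!
MP_851278_al, module RGC: the ray graph is connected.
-/

set_option autoImplicit false

namespace Pool.Agent.PT2

open Pool.Agent.ACC Pool.Agent.KUR

namespace RGC_

theorem anti_le {α : Type} {W : ℕ → Set α} (h : ∀ j, W (j + 1) ⊆ W j) {j k : ℕ} (hjk : j ≤ k) :
    W k ⊆ W j := by
  induction hjk with
  | refl => exact subset_rfl
  | step _ ih => exact (h _).trans ih

/-- a bound for finitely many eventual statements -/
theorem fin_bound {n : ℕ} (Q : Fin n → ℕ → Prop) (h : ∀ i, ∃ k, Q i k)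
    (hm : ∀ i k l, k ≤ l → Q i k → Q i l) : ∃ k, ∀ i, Q i k := by
  choose f hf using h
  refine ⟨∑ i, f i, fun i => hm i _ _ ?_ (hf i)⟩
  exact Finset.single_le_sum (fun _ _ => Nat.zero_le _) (Finset.mem_univ i)

end RGC_

open RGC_ in
theorem rgc_proof (h1 : Stmt_OFT) : Stmt_RGC := by
  intro V P S A c M μ W s T hC hS hWS hWA i i'
  obtain ⟨o1, o2, o3, o4, o5, o6⟩ := h1 V P μ W s T hS
  by_contra hcon
  have hWanti : ∀ {j k : ℕ}, j ≤ k → W k ⊆ W j := fun h => anti_le hS.anti h
  have hAanti : ∀ {j k : ℕ}, j ≤ k → A k ⊆ A j := fun h => anti_le hC.anti h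
  -- the bound `J`
  obtain ⟨J, hJ⟩ : ∃ J, ∀ a b, Relation.ReflTransGen (CI P W T) i a →
      ¬ Relation.ReflTransGen (CI P W T) i b → ∀ j, J ≤ j → ¬ Cnn P W T j a b := by
    refine fin_bound (fun a k => ∀ b, Relation.ReflTransGen (CI P W T) i a →
      ¬ Relation.ReflTransGen (CI P W T) i b → ∀ j, k ≤ j → ¬ Cnn P W T j a b) ?_
      (fun a k l hkl h b ha hb j hj => h b ha hb j (hkl.trans hj))
    intro a
    refine fin_bound (fun b k => Relation.ReflTransGen (CI P W T) i a →
      ¬ Relation.ReflTransGen (CI P W T) i b → ∀ j, k ≤ j → ¬ Cnn P W T j a b) ?_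
      (fun b k l hkl h ha hb j hj => h ha hb j (hkl.trans hj))
    intro b
    by_contra hno
    push Not at hno
    obtain ⟨ha, hb, -⟩ := hno 0
    refine hb (ha.tail ⟨fun hab => hb (hab ▸ ha), fun j0 => ?_⟩)
    obtain ⟨-, -, j, hj, hcn⟩ := hno j0
    exact ⟨j, hj, hcn⟩
  -- the slice `J` is outside `A k`
  obtain ⟨k, hk⟩ : ∃ k, ∀ a, s J a ∉ A k :=
    fin_bound (fun a k => s J a ∉ A k) (fun a => hC.leave _)
      (fun a k l hkl h hc => h (hAanti hkl hc))
  obtain ⟨l, hkl, hl⟩ := hC.inf k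
  obtain ⟨j1, hj1⟩ := hWA l
  have hWj : W (max j1 J) ⊆ A l := (hWanti (le_max_left _ _)).trans hj1
  have hJj : J ≤ max j1 J := le_max_right _ _
  generalize max j1 J = j at hWj hJj
  have hr : Rch P (A k) (s j i) (s j i') :=
    hl _ ⟨hWj (hS.sW j i).1, hWS j (hS.sW j i).1⟩ _ ⟨hWj (hS.sW j i').1, hWS j (hS.sW j i').1⟩
  have key := hr.closed {z | z ∈ A k ∧ z ∈ W J ∧
    ((∃ l a, Relation.ReflTransGen (CI P W T) i a ∧ z ∈ T l a) ∨
      ∃ l a z', J ≤ l ∧ Relation.ReflTransGen (CI P W T) i a ∧ z ∈ Off W T l ∧ z' ∈ T l a ∧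
        Rch P (Off W T l ∪ {z'}) z z')}
    ⟨hAanti hkl (hWj (hS.sW j i).1), hWanti hJj (hS.sW j i).1,
      Or.inl ⟨j, i, Relation.ReflTransGen.refl, hS.lo j i⟩⟩ (by
    rintro z ⟨hzA, hzW, hz⟩ v hvA hzv
    have hvW : v ∈ W J := by
      by_contra hv
      obtain ⟨a, ha⟩ := hS.out J z v hzv hzW hv
      exact hk a (ha ▸ hzA)
    refine ⟨hvA, hvW, ?_⟩
    -- the block of `v`
    obtain ⟨m, hJm, hvm, hvm'⟩ : ∃ m, J ≤ m ∧ v ∈ W m ∧ v ∉ W (m + 1) := by
      classical
      obtain ⟨n, hn⟩ := hS.leave v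
      have hex : ∃ n, v ∉ W n := ⟨n, hn⟩
      have h2 : v ∉ W (Nat.find hex) := Nat.find_spec hex
      have h3 : J < Nat.find hex := by
        by_contra hlt
        exact h2 (hWanti (by omega) hvW)
      refine ⟨Nat.find hex - 1, by omega, ?_, ?_⟩
      · have := Nat.find_min hex (m := Nat.find hex - 1) (by omega)
        exact not_not.mp this
      · rw [Nat.sub_add_cancel (by omega)]
        exact h2
    rcases hz with ⟨l', a, ha, hza⟩ | ⟨l', a, z', hl', ha, hzO, hz'T, hzr⟩
    · rcases o3 m v hvm hvm' with hvO | ⟨b, hvb⟩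
      · -- `v` is off-track
        rcases o1 m v z hvO hzv.symm with hzO | ⟨a', hza'⟩
        · exact absurd hza (o6 m l' a z hzO)
        · have haa : a = a' := (o4 l' a m a' z hza hza').1
          subst haa
          exact Or.inr ⟨m, a, z, hJm, ha, hvO, hza',
            Rch.of_adj (Or.inl hvO) (Or.inr rfl) hzv.symm⟩
      · -- both on tracks
        by_cases hb : Relation.ReflTransGen (CI P W T) i b
        · exact Or.inl ⟨m, b, hb, hvb⟩
        · exfalso
          have hab : a ≠ b := fun hab => hb (hab ▸ ha)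
          obtain ⟨m', hzm, hvm2⟩ := o2 l' a m b z v hza hvb hab hzv
          have hcn : Cnn P W T m' a b := ⟨z, hzm, v, hvm2,
            Rch.of_adj (Or.inr (Or.inl rfl)) (Or.inr (Or.inr rfl)) hzv⟩
          by_cases hm : J ≤ m'
          · exact hJ a b ha hb m' hm hcn
          · have hzs : z = s (m' + 1) a := by
              rcases hS.sub m' a z hzm with h | ⟨-, h⟩
              · exact h
              · exact absurd (hWanti (by omega) hzW) h
            have hJm' : m' + 1 = J := by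
              by_contra hne
              have h4 : z ∈ W (m' + 1 + 1) := hWanti (by omega) hzW
              rw [hzs] at h4
              exact (hS.sW (m' + 1) a).2 h4
            rw [hJm'] at hzs
            exact hk a (hzs ▸ hzA)
    · rcases o1 l' z v hzO hzv with hvO | ⟨b, hvb⟩
      · have h6 : Rch P (Off W T l' ∪ {z'}) v z :=
          Rch.of_adj (Or.inl hvO) (Or.inl hzO) hzv.symm
        exact Or.inr ⟨l', a, z', hl', ha, hvO, hz'T, h6.trans hzr⟩
      · by_cases hb : Relation.ReflTransGen (CI P W T) i b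
        · exact Or.inl ⟨l', b, hb, hvb⟩
        · exfalso
          refine hJ a b ha hb l' hl' ⟨z', hz'T, v, hvb, ?_⟩
          have h5 : Rch P (Off W T l' ∪ {z', v}) z' z := hzr.symm.mono le_rfl (by
            rintro w (hw | rfl)
            · exact Or.inl hw
            · exact Or.inr (Or.inl rfl))
          exact h5.trans (Rch.of_adj (Or.inl hzO) (Or.inr (Or.inr rfl)) hzv))
  rcases key.2.2 with ⟨l', a, ha, hza⟩ | ⟨l', a, z', hl', ha, hzO, -, -⟩
  · have := (o4 l' a j i' _ hza (hS.lo j i')).1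
    exact hcon (this ▸ ha)
  · exact o6 l' j i' _ hzO (hS.lo j i')

end Pool.Agent.PT2
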