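import Pool.Agent.PT2.Defs

/-!
MP_851278_al (frozen S02151), PART II, the CORE theorem (strips, tokens, windows, two paths):
definitions and statements of the modules.  Every module XXX proves `Stmt_XXX`
(theorem `xxx_proof`), possibly from other statements.
-/

set_option autoImplicit false

namespace Pool.Agent.PT2

open Pool.Agent.ACC Pool.Agent.KUR

/-! ### A. Legs and Menger's theorem with fixed ends -/

/-- `k` disjoint finite connected sets `L i` meeting `A`, each with exactly one point `e i` in `B` -/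
structure Lkg {V : Type} (H : SimpleGraph V) (A B : Set V) {k : ℕ} (L : Fin k → Set V)
    (e : Fin k → V) : Prop where
  cn : ∀ i, Cn H (L i)
  fin : ∀ i, (L i).Finite
  dis : ∀ i j, i ≠ j → Disjoint (L i) (L j)
  a : ∀ i, (L i ∩ A).Nonempty
  b : ∀ i, L i ∩ B = {e i}

/-- Menger's theorem with fixed ends (augmentation by one leg). -/
def Stmt_MEE : Prop := ∀ (V : Type) (H : SimpleGraph V) (A B : Set V) (k : ℕ)
  (L : Fin k → Set V) (e : Fin k → V), A.Finite → B.Finite → Lkg H A B L e →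
  (∀ X : Set V, X.Finite → X.ncard ≤ k → ∃ x ∈ A, ∃ y ∈ B, Rch H Xᶜ x y) →
  ∃ (L' : Fin (k + 1) → Set V) (e' : Fin (k + 1) → V), Lkg H A B L' e' ∧
    ∀ i : Fin k, e' i.castSucc = e i

/-! ### B. Two paths theorem by minors -/

/-- 4-connectedness of the points of `Co` to the four terminals `τ` -/
def FC {V : Type} (H : SimpleGraph V) (τ : Fin 4 → V) (Co : Set V) : Prop :=
  Function.Injective τ ∧ ∀ X : Set V, X.Finite → X.ncard ≤ 3 → ∀ v ∈ Co, v ∉ X →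
    ∃ i, τ i ∉ X ∧ Rch H Xᶜ v (τ i)

/-- the crossing: disjoint connections `τ 0 - τ 1` and `τ 2 - τ 3` -/
def Cross {V : Type} (H : SimpleGraph V) (τ : Fin 4 → V) : Prop :=
  ∃ C D : Set V, Cn H C ∧ Cn H D ∧ Disjoint C D ∧ τ 0 ∈ C ∧ τ 1 ∈ C ∧ τ 2 ∈ D ∧ τ 3 ∈ D

/-- there is an edge between two sets -/
def Tch {V : Type} (H : SimpleGraph V) (A B : Set V) : Prop := ∃ x ∈ A, ∃ y ∈ B, H.Adj x y

/-- a connected set `Sx` touching `X1` and `X2`: reduction to one point `p` -/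
def Stmt_SNG : Prop := ∀ (V : Type) (H : SimpleGraph V) (Sx X1 X2 : Set V) (s : V), Cn H Sx →
  Cn H X1 → Cn H X2 → Disjoint Sx X1 → Disjoint Sx X2 → Disjoint X1 X2 → s ∈ Sx →
  Tch H Sx X1 → Tch H Sx X2 → Sx.Finite →
  ∃ (p : V) (Q Y1 Y2 : Set V), X1 ⊆ Y1 ∧ Y1 ⊆ X1 ∪ Sx ∧ X2 ⊆ Y2 ∧ Y2 ⊆ X2 ∪ Sx ∧
    Cn H Y1 ∧ Cn H Y2 ∧ Disjoint Y1 Y2 ∧ Q ⊆ Sx ∧ Cn H Q ∧ s ∈ Q ∧ p ∈ Q ∧ Disjoint Q Y1 ∧
    Disjoint Q Y2 ∧ Tch H {p} Y1 ∧ Tch H {p} Y2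

/-- a connected set `Sx` touching `B 0, B 1, B 2` with a point `s`: either `s` can be moved into
one of the `B i`, or `Sx` can be reduced to a point `p` joined to `s` -/
def Stmt_CEN : Prop := ∀ (V : Type) (H : SimpleGraph V) (Sx : Set V) (B : Fin 3 → Set V) (s : V),
  Cn H Sx → Sx.Finite → s ∈ Sx → (∀ i, Cn H (B i)) → (∀ i, Disjoint Sx (B i)) →
  (∀ i j, i ≠ j → Disjoint (B i) (B j)) → (∀ i, Tch H Sx (B i)) →
  (∃ (i : Fin 3) (U W : Set V), U ⊆ Sx ∧ W ⊆ Sx ∧ Disjoint U W ∧ Cn H U ∧ Cn H W ∧ s ∈ U ∧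
    Tch H U W ∧ Tch H U (B i) ∧ ∀ j, j ≠ i → Tch H W (B j)) ∨
  (∃ (p : V) (Q : Set V) (B' : Fin 3 → Set V), Q ⊆ Sx ∧ Cn H Q ∧ s ∈ Q ∧ p ∈ Q ∧
    (∀ i, B i ⊆ B' i ∧ B' i ⊆ B i ∪ Sx ∧ Cn H (B' i) ∧ Disjoint Q (B' i) ∧ Tch H {p} (B' i)) ∧
    ∀ i j, i ≠ j → Disjoint (B' i) (B' j))

/-- splitting a minimal connected set between two points -/
def Stmt_SPL : Prop := ∀ (V : Type) (H : SimpleGraph V) (n : ℕ) (Sx : Set V)
  (B : Fin n → Set V) (x y : V), Cn H Sx → x ∈ Sx → y ∈ Sx → x ≠ y → (∀ i, Tch H Sx (B i)) →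
  (∀ S' : Set V, S' ⊆ Sx → S' ≠ Sx → Cn H S' → ∃ i, ¬ Tch H S' (B i)) →
  ∃ U W : Set V, U ∪ W = Sx ∧ Disjoint U W ∧ Cn H U ∧ Cn H W ∧ x ∈ U ∧ y ∈ W ∧ Tch H U W ∧
    (∀ i, Tch H U (B i) ∨ Tch H W (B i)) ∧ (∃ i, ¬ Tch H U (B i)) ∧ ∃ i, ¬ Tch H W (B i)

/-- four legs on `K_{2,3}` with three of the ends at the three middle points -/
def Stmt_FN4 : Prop := ∀ (V : Type) (H : SimpleGraph V) (τ : Fin 4 → V) (X1 X2 : Set V)
  (p : Fin 3 → V) (L : Fin 4 → Set V) (e : Fin 4 → V), Function.Injective τ →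
  Cn H X1 → Cn H X2 → Disjoint X1 X2 → Function.Injective p → (∀ i, p i ∉ X1 ∧ p i ∉ X2) →
  (∀ i, Tch H {p i} X1 ∧ Tch H {p i} X2) →
  Lkg H (Set.range τ) (X1 ∪ X2 ∪ Set.range p) L e → (∀ i : Fin 3, e i.castSucc = p i) →
  Cross H τ

/-- three legs on `K_{2,3}` (middle points `p`) -/
def Stmt_ST2 : Prop := ∀ (V : Type) (H : SimpleGraph V) (τ : Fin 4 → V) (Co X1 X2 : Set V)
  (p : Fin 3 → V) (L : Fin 3 → Set V), FC H τ Co → X1.Finite → X2.Finite → X1 ⊆ Co → X2 ⊆ Co →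
  (∀ i, p i ∈ Co) → Cn H X1 → Cn H X2 → Disjoint X1 X2 → Function.Injective p →
  (∀ i, p i ∉ X1 ∧ p i ∉ X2) → (∀ i, Tch H {p i} X1 ∧ Tch H {p i} X2) →
  Lkg H (Set.range τ) (X1 ∪ X2 ∪ Set.range p) L p → Cross H τ

/-- three legs on a `K_{2,3}` model -/
def Stmt_ST3 : Prop := ∀ (V : Type) (H : SimpleGraph V) (τ : Fin 4 → V) (Co T1 T2 : Set V)
  (Sx : Fin 3 → Set V) (L : Fin 3 → Set V) (e : Fin 3 → V), FC H τ Co →
  T1.Finite → T2.Finite → (∀ i, (Sx i).Finite) → T1 ⊆ Co → T2 ⊆ Co → (∀ i, Sx i ⊆ Co) →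
  Cn H T1 → Cn H T2 → (∀ i, Cn H (Sx i)) → Disjoint T1 T2 →
  (∀ i, Disjoint (Sx i) T1 ∧ Disjoint (Sx i) T2) → (∀ i j, i ≠ j → Disjoint (Sx i) (Sx j)) →
  (∀ i, Tch H (Sx i) T1 ∧ Tch H (Sx i) T2) →
  Lkg H (Set.range τ) (T1 ∪ T2 ∪ (Sx 0 ∪ Sx 1 ∪ Sx 2)) L e → (∀ i, e i ∈ Sx i) → Cross H τ

/-- a frame: `K_{3,3}` minus the edge `a b`, with `a`, `b` single points -/
structure Frame {V : Type} (H : SimpleGraph V) (Co : Set V) (a b : V) (A2 A3 B2 B3 : Set V) :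
    Prop where
  fin : A2.Finite ∧ A3.Finite ∧ B2.Finite ∧ B3.Finite
  co : a ∈ Co ∧ b ∈ Co ∧ A2 ⊆ Co ∧ A3 ⊆ Co ∧ B2 ⊆ Co ∧ B3 ⊆ Co
  cn : Cn H A2 ∧ Cn H A3 ∧ Cn H B2 ∧ Cn H B3
  ab : a ≠ b
  ma : a ∉ A2 ∧ a ∉ A3 ∧ a ∉ B2 ∧ a ∉ B3
  mb : b ∉ A2 ∧ b ∉ A3 ∧ b ∉ B2 ∧ b ∉ B3
  dis : Disjoint A2 A3 ∧ Disjoint A2 B2 ∧ Disjoint A2 B3 ∧ Disjoint A3 B2 ∧ Disjoint A3 B3 ∧
    Disjoint B2 B3
  ta : Tch H {a} B2 ∧ Tch H {a} B3
  tb : Tch H {b} A2 ∧ Tch H {b} A3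
  t : Tch H A2 B2 ∧ Tch H A2 B3 ∧ Tch H A3 B2 ∧ Tch H A3 B3

/-- two legs ending at `a` and `b` on a frame -/
def Stmt_ST1 : Prop := ∀ (V : Type) (H : SimpleGraph V) (τ : Fin 4 → V) (Co : Set V) (a b : V)
  (A2 A3 B2 B3 : Set V) (L : Fin 2 → Set V), FC H τ Co → Frame H Co a b A2 A3 B2 B3 →
  Lkg H (Set.range τ) ({a, b} ∪ (A2 ∪ A3 ∪ (B2 ∪ B3))) L ![a, b] → Cross H τ

/-- two legs on a `K_{3,3}` model (without the adjacency `A 0 - B 0`), ends in `A 0`, `B 0` -/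
def Stmt_STA : Prop := ∀ (V : Type) (H : SimpleGraph V) (τ : Fin 4 → V) (Co : Set V)
  (A B : Fin 3 → Set V) (L : Fin 2 → Set V) (e : Fin 2 → V), FC H τ Co →
  (∀ i, (A i).Finite ∧ A i ⊆ Co ∧ Cn H (A i)) → (∀ i, (B i).Finite ∧ B i ⊆ Co ∧ Cn H (B i)) →
  (∀ i j, i ≠ j → Disjoint (A i) (A j) ∧ Disjoint (B i) (B j)) → (∀ i j, Disjoint (A i) (B j)) →
  (∀ i j, (i, j) ≠ (0, 0) → Tch H (A i) (B j)) →
  Lkg H (Set.range τ) ((⋃ i, A i) ∪ ⋃ i, B i) L e → e 0 ∈ A 0 → e 1 ∈ B 0 → Cross H τ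

/-- two legs ending at two points joined to the same three sets (the third set on their side
is `D`): `K_{3,3}` with two single points -/
def Stmt_STG : Prop := ∀ (V : Type) (H : SimpleGraph V) (τ : Fin 4 → V) (Co : Set V) (a b : V)
  (D : Set V) (B : Fin 3 → Set V) (L : Fin 2 → Set V), FC H τ Co → a ∈ Co → b ∈ Co → a ≠ b →
  (D.Finite ∧ D ⊆ Co ∧ Cn H D) → (∀ i, (B i).Finite ∧ B i ⊆ Co ∧ Cn H (B i)) →
  a ∉ D → b ∉ D → (∀ i, a ∉ B i ∧ b ∉ B i ∧ Disjoint D (B i)) →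
  (∀ i j, i ≠ j → Disjoint (B i) (B j)) →
  (∀ i, Tch H {a} (B i) ∧ Tch H {b} (B i) ∧ Tch H D (B i)) →
  Lkg H (Set.range τ) ({a, b} ∪ (D ∪ ⋃ i, B i)) L ![a, b] → Cross H τ

/-- the same for `K_5`: two points joined to three pairwise touching sets -/
def Stmt_STH : Prop := ∀ (V : Type) (H : SimpleGraph V) (τ : Fin 4 → V) (Co : Set V) (a b : V)
  (B : Fin 3 → Set V) (L : Fin 2 → Set V), FC H τ Co → a ∈ Co → b ∈ Co → a ≠ b →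
  (∀ i, (B i).Finite ∧ B i ⊆ Co ∧ Cn H (B i)) → (∀ i, a ∉ B i ∧ b ∉ B i) →
  (∀ i j, i ≠ j → Disjoint (B i) (B j) ∧ Tch H (B i) (B j)) →
  (∀ i, Tch H {a} (B i) ∧ Tch H {b} (B i)) →
  Lkg H (Set.range τ) ({a, b} ∪ ⋃ i, B i) L ![a, b] → Cross H τ

/-- finite models -/
def Stmt_FMO : Prop := ∀ (V : Type) (H : SimpleGraph V),
  (∀ A B, M33 H A B → ∃ A' B', M33 H A' B' ∧ ∀ i, (A' i).Finite ∧ A' i ⊆ A i ∧ (B' i).Finite ∧
    B' i ⊆ B i) ∧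
  (∀ A, M5 H A → ∃ A', M5 H A' ∧ ∀ i, (A' i).Finite ∧ A' i ⊆ A i)

/-- two paths theorem, `K_{3,3}` case -/
def Stmt_K3C : Prop := ∀ (V : Type) (H : SimpleGraph V) (τ : Fin 4 → V) (Co : Set V)
  (A B : Fin 3 → Set V), FC H τ Co → M33 H A B → (∀ i, A i ⊆ Co ∧ B i ⊆ Co) → Cross H τ

/-- two paths theorem, `K_5` case -/
def Stmt_K5C : Prop := ∀ (V : Type) (H : SimpleGraph V) (τ : Fin 4 → V) (Co : Set V)
  (A : Fin 5 → Set V), FC H τ Co → M5 H A → (∀ i, A i ⊆ Co) → Cross H τ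

/-! ### C. Strips -/

/-- a strip: `μ` disjoint tracks, `T j i` is the part of the track `i` between the slices `j` and
`j + 1`, `s j i` is the point of the track `i` in the slice `j`, `W j` is the part of the graph
behind the slice `j` (including the slice) -/
structure Strip {V : Type} (P : SimpleGraph V) (μ : ℕ) (W : ℕ → Set V) (s : ℕ → Fin μ → V)
    (T : ℕ → Fin μ → Set V) : Prop where
  anti : ∀ j, W (j + 1) ⊆ W j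
  sW : ∀ j i, s j i ∈ W j ∧ s j i ∉ W (j + 1)
  out : ∀ j x y, P.Adj x y → x ∈ W j → y ∉ W j → ∃ i, x = s j i
  inj : ∀ j, Function.Injective (s j)
  cn : ∀ j i, Cn P (T j i)
  lo : ∀ j i, s j i ∈ T j i
  hi : ∀ j i, s (j + 1) i ∈ T j i
  sub : ∀ j i x, x ∈ T j i → x = s (j + 1) i ∨ (x ∈ W j ∧ x ∉ W (j + 1))
  dis : ∀ j i i', i ≠ i' → Disjoint (T j i) (T j i')
  leave : ∀ x, ∃ j, x ∉ W j

/-- the off-track vertices of block `j` -/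
def Off {V : Type} {μ : ℕ} (W : ℕ → Set V) (T : ℕ → Fin μ → Set V) (j : ℕ) : Set V :=
  {x | x ∈ W j ∧ x ∉ W (j + 1) ∧ ∀ i, x ∉ T j i}

/-- the tracks `i` and `i'` are joined in block `j` outside the tracks -/
def Cnn {V : Type} {μ : ℕ} (P : SimpleGraph V) (W : ℕ → Set V) (T : ℕ → Fin μ → Set V) (j : ℕ)
    (i i' : Fin μ) : Prop :=
  ∃ x ∈ T j i, ∃ y ∈ T j i', Rch P (Off W T j ∪ {x, y}) x y

/-- the tracks are joined infinitely often -/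
def CI {V : Type} {μ : ℕ} (P : SimpleGraph V) (W : ℕ → Set V) (T : ℕ → Fin μ → Set V)
    (i i' : Fin μ) : Prop := i ≠ i' ∧ ∀ j0, ∃ j, j0 ≤ j ∧ Cnn P W T j i i'

/-- extreme numbers of separators -/
def Stmt_KAP : Prop := ∀ (V : Type) (P : SimpleGraph V) (S : Set V) (A : ℕ → Set V) (c M : ℕ),
  Chain P S A c M → ∃ μ k0 : ℕ, M ≤ μ ∧
    (∀ k, k0 ≤ k → ∀ l, ∀ F : Set V, F.Finite → F.ncard < μ →
      ∃ x ∈ S, x ∉ A k ∧ ∃ y ∈ A l ∩ S, Rch P Fᶜ x y) ∧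
    (∀ k, k0 ≤ k → ∃ l, k < l ∧ ∃ F : Set V, F ⊆ S ∧ F.Finite ∧ F.ncard = μ ∧
      ∀ x ∈ S, x ∉ A k → ∀ y ∈ A l ∩ S, ¬ Rch P Fᶜ x y)

/-- existence of strips -/
def Stmt_STP : Prop := ∀ (V : Type) (P : SimpleGraph V) (S : Set V) (A : ℕ → Set V) (c M : ℕ),
  Chain P S A c M → ∃ (μ : ℕ) (W : ℕ → Set V) (s : ℕ → Fin μ → V) (T : ℕ → Fin μ → Set V),
    M ≤ μ ∧ Strip P μ W s T ∧ (∀ j, W j ⊆ S) ∧ ∀ k, ∃ j, W j ⊆ A k

/-- adjacency and blocks -/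
def Stmt_OFT : Prop := ∀ (V : Type) (P : SimpleGraph V) (μ : ℕ) (W : ℕ → Set V)
  (s : ℕ → Fin μ → V) (T : ℕ → Fin μ → Set V), Strip P μ W s T →
  (∀ j x y, x ∈ Off W T j → P.Adj x y → y ∈ Off W T j ∨ ∃ i, y ∈ T j i) ∧
  (∀ j i j' i' x y, x ∈ T j i → y ∈ T j' i' → i ≠ i' → P.Adj x y → ∃ m, x ∈ T m i ∧ y ∈ T m i') ∧
  (∀ j x, x ∈ W j → x ∉ W (j + 1) → x ∈ Off W T j ∨ ∃ i, x ∈ T j i) ∧
  (∀ j i j' i' x, x ∈ T j i → x ∈ T j' i' → i = i' ∧ (j = j' ∨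
    (j' = j + 1 ∧ x = s j' i) ∨ (j = j' + 1 ∧ x = s j i))) ∧
  (∀ j j' x, x ∈ Off W T j → x ∈ Off W T j' → j = j') ∧
  (∀ j j' i x, x ∈ Off W T j → x ∉ T j' i)

/-- off-track vertices are attached to tracks -/
def Stmt_ATT : Prop := ∀ (V : Type) (P : SimpleGraph V) (S : Set V) (μ : ℕ) (W : ℕ → Set V)
  (s : ℕ → Fin μ → V) (T : ℕ → Fin μ → Set V), Strip P μ W s T → 1 ≤ μ → (∀ j, W j ⊆ S) →
  (∀ x ∈ S, ∀ y ∈ S, Rch P S x y) → ∀ j x, x ∈ Off W T j →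
  ∃ i, ∃ z ∈ T j i, Rch P (Off W T j ∪ {z}) x z

/-- the ray graph is connected -/
def Stmt_RGC : Prop := ∀ (V : Type) (P : SimpleGraph V) (S : Set V) (A : ℕ → Set V) (c M : ℕ)
  (μ : ℕ) (W : ℕ → Set V) (s : ℕ → Fin μ → V) (T : ℕ → Fin μ → Set V),
  Chain P S A c M → Strip P μ W s T → (∀ j, W j ⊆ S) → (∀ k, ∃ j, W j ⊆ A k) →
  ∀ i i' : Fin μ, Relation.ReflTransGen (CI P W T) i i'

/-- passing to a subsequence of the slices -/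
def Stmt_SBS : Prop := ∀ (V : Type) (P : SimpleGraph V) (μ : ℕ) (W : ℕ → Set V)
  (s : ℕ → Fin μ → V) (T : ℕ → Fin μ → Set V) (n : ℕ → ℕ), Strip P μ W s T → StrictMono n →
  Strip P μ (fun j => W (n j)) (fun j => s (n j))
    (fun j i => {x | ∃ l, n j ≤ l ∧ l < n (j + 1) ∧ x ∈ T l i}) ∧
  ∀ j i i', i ≠ i' → (Cnn P (fun j => W (n j))
    (fun j i => {x | ∃ l, n j ≤ l ∧ l < n (j + 1) ∧ x ∈ T l i}) j i i' ↔
      ∃ l, n j ≤ l ∧ l < n (j + 1) ∧ Cnn P W T l i i')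

/-- regrouping: all blocks have the same connections -/
def Stmt_REG : Prop := ∀ (V : Type) (P : SimpleGraph V) (S : Set V) (A : ℕ → Set V)
  (μ : ℕ) (W : ℕ → Set V) (s : ℕ → Fin μ → V) (T : ℕ → Fin μ → Set V),
  Strip P μ W s T → (∀ j, W j ⊆ S) → (∀ k, ∃ j, W j ⊆ A k) →
  ∃ (W' : ℕ → Set V) (s' : ℕ → Fin μ → V) (T' : ℕ → Fin μ → Set V), Strip P μ W' s' T' ∧
    (∀ j, W' j ⊆ S) ∧ (∀ k, ∃ j, W' j ⊆ A k) ∧
    ∀ i i', i ≠ i' → ∀ j, (Cnn P W' T' j i i' ↔ CI P W T i i')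

/-! ### D. Tokens -/

/-- elementary moves of tokens on a board: along an edge to a free place, or a swap of two tokens
which needs the places `Fs` -/
inductive BMv {μ t : ℕ} (adj : Fin μ → Fin μ → Prop)
    (sw : Set (Fin μ) → Fin μ → Fin μ → Prop) : (Fin t → Fin μ) → (Fin t → Fin μ) → Prop
  | move (p : Fin t → Fin μ) (a : Fin t) (i : Fin μ) : Function.Injective p → adj (p a) i →
      (∀ b, p b ≠ i) → BMv adj sw p (Function.update p a i)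
  | swap (p : Fin t → Fin μ) (a b : Fin t) (Fs : Set (Fin μ)) : Function.Injective p → a ≠ b →
      sw Fs (p a) (p b) → (∀ c, c ≠ a → c ≠ b → p c ∉ Fs) →
      BMv adj sw p (p ∘ (Equiv.swap a b : Equiv.Perm (Fin t)))

/-- every pair of tokens can be made adjacent -/
def Perm3 {μ : ℕ} (adj : Fin μ → Fin μ → Prop) (sw : Set (Fin μ) → Fin μ → Fin μ → Prop)
    (t : ℕ) : Prop :=
  ∃ p0 : Fin t → Fin μ, Function.Injective p0 ∧ ∀ a b, a ≠ b →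
    ∃ p, Relation.ReflTransGen (BMv adj sw) p0 p ∧ adj (p a) (p b)

/-- star board -/
def Stmt_BST : Prop := ∀ (μ t : ℕ) (adj : Fin μ → Fin μ → Prop)
  (sw : Set (Fin μ) → Fin μ → Fin μ → Prop) (c : Fin μ) (l : Fin t → Fin μ),
  (∀ i i', adj i i' → adj i' i) → (∀ i, ¬ adj i i) → Function.Injective l →
  (∀ a, adj c (l a)) → Perm3 adj sw t

/-- abstract line board with a swap gadget -/
def Stmt_BRD : Prop := ∀ (t N α β : ℕ) (Rl : (Fin t → ℕ) → (Fin t → ℕ) → Prop),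
  t < α → α < β → β + t ≤ N → (∀ p, Rl p p) → (∀ p q r, Rl p q → Rl q r → Rl p r) →
  (∀ (p : Fin t → ℕ) (a : Fin t) (m : ℕ), Function.Injective p → (∀ b, 1 ≤ p b ∧ p b ≤ N) →
    1 ≤ m → m ≤ N → (m = p a + 1 ∨ p a = m + 1) → (∀ b, p b ≠ m) →
    Rl p (Function.update p a m)) →
  (∀ (p : Fin t → ℕ) (a b : Fin t), Function.Injective p → (∀ c, 1 ≤ p c ∧ p c ≤ N) → a ≠ b →
    p a = α → p b = β → (∀ c, c ≠ a → c ≠ b → p c < α ∨ β < p c) →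
    Rl p (p ∘ (Equiv.swap a b : Equiv.Perm (Fin t)))) →
  ∀ p : Fin t → ℕ, Function.Injective p → (∀ b, 1 ≤ p b ∧ p b ≤ N) → ∀ a b, a ≠ b →
    ∃ q : Fin t → ℕ, Rl p q ∧ Function.Injective q ∧ (∀ c, 1 ≤ q c ∧ q c ≤ N) ∧
      (q a = q b + 1 ∨ q b = q a + 1)

/-- path board with swaps -/
def Stmt_BSW : Prop := ∀ (μ t L α β : ℕ) (adj : Fin μ → Fin μ → Prop)
  (sw : Set (Fin μ) → Fin μ → Fin μ → Prop) (q : ℕ → Fin μ) (Fs : Set (Fin μ)),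
  (∀ i i', adj i i' → adj i' i) →
  (∀ i i', 1 ≤ i → i ≤ L → 1 ≤ i' → i' ≤ L → q i = q i' → i = i') →
  (∀ i, 1 ≤ i → i < L → adj (q i) (q (i + 1))) → t < α → α < β → β + t ≤ L →
  sw Fs (q α) (q β) → sw Fs (q β) (q α) → (∀ i, 1 ≤ i → i ≤ L → q i ∈ Fs → α ≤ i ∧ i ≤ β) →
  Perm3 adj sw t

/-- path board with an extra place at the middle -/
def Stmt_BTT : Prop := ∀ (μ t n : ℕ) (adj : Fin μ → Fin μ → Prop)
  (sw : Set (Fin μ) → Fin μ → Fin μ → Prop) (q : ℕ → Fin μ) (u : Fin μ),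
  (∀ i i', adj i i' → adj i' i) →
  (∀ i i', 1 ≤ i → i ≤ 2 * n + 1 → 1 ≤ i' → i' ≤ 2 * n + 1 → q i = q i' → i = i') →
  (∀ i, 1 ≤ i → i < 2 * n + 1 → adj (q i) (q (i + 1))) → t + 1 ≤ n →
  (∀ i, 1 ≤ i → i ≤ 2 * n + 1 → q i ≠ u) → adj (q (n + 1)) u → Perm3 adj sw t

/-- large connected graphs contain a star, a long path with an extra neighbour in the middle, or a
long path all of whose inner vertices have degree two -/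
def Stmt_GEO : Prop := ∀ t n L : ℕ, ∃ M : ℕ, ∀ (μ : ℕ) (adj : Fin μ → Fin μ → Prop), M ≤ μ →
  (∀ i i', adj i i' → adj i' i) → (∀ i, ¬ adj i i) →
  (∀ i i', Relation.ReflTransGen adj i i') →
  (∃ (c : Fin μ) (l : Fin t → Fin μ), Function.Injective l ∧ ∀ a, adj c (l a)) ∨
  (∃ (q : ℕ → Fin μ) (u : Fin μ),
    (∀ i i', 1 ≤ i → i ≤ 2 * n + 1 → 1 ≤ i' → i' ≤ 2 * n + 1 → q i = q i' → i = i') ∧
    (∀ i, 1 ≤ i → i < 2 * n + 1 → adj (q i) (q (i + 1))) ∧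
    (∀ i, 1 ≤ i → i ≤ 2 * n + 1 → q i ≠ u) ∧ adj (q (n + 1)) u) ∨
  (∃ q : ℕ → Fin μ,
    (∀ i i', 1 ≤ i → i ≤ L → 1 ≤ i' → i' ≤ L → q i = q i' → i = i') ∧
    (∀ i, 1 ≤ i → i < L → adj (q i) (q (i + 1))) ∧
    ∀ i u, 1 < i → i < L → adj (q i) u → u = q (i - 1) ∨ u = q (i + 1))

/-- a swap of the tracks `i0`, `i1` between the slices `j0` and `j1` which needs only the tracks
in `Fs` -/
def SwapAt {V : Type} {μ : ℕ} (P : SimpleGraph V) (W : ℕ → Set V) (s : ℕ → Fin μ → V)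
    (T : ℕ → Fin μ → Set V) (Fs : Set (Fin μ)) (i0 i1 : Fin μ) (j0 j1 : ℕ) : Prop :=
  j0 < j1 ∧ ∃ K0 K1 : Set V, Cn P K0 ∧ Cn P K1 ∧ Disjoint K0 K1 ∧ s j0 i0 ∈ K0 ∧ s j1 i1 ∈ K0 ∧
    s j0 i1 ∈ K1 ∧ s j1 i0 ∈ K1 ∧
    (∀ x ∈ K0 ∪ K1, x ∈ W j0 ∧ (x ∉ W j1 ∨ ∃ i, x = s j1 i)) ∧
    ∀ x ∈ K0 ∪ K1, ∀ l, j0 ≤ l → l < j1 → ∀ i, i ∉ Fs → x ∉ T l i

/-- the tokens at the places `p` (slice `j`) are moved to the places `p'` (slice `j'`) by disjoint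
connected sets `C` -/
structure Real {V : Type} {μ t : ℕ} (P : SimpleGraph V) (W : ℕ → Set V) (s : ℕ → Fin μ → V)
    (j : ℕ) (p : Fin t → Fin μ) (j' : ℕ) (p' : Fin t → Fin μ) (C : Fin t → Set V) : Prop where
  lt : j < j'
  cn : ∀ a, Cn P (C a)
  dis : ∀ a b, a ≠ b → Disjoint (C a) (C b)
  lo : ∀ a, s j (p a) ∈ C a
  hi : ∀ a, s j' (p' a) ∈ C a
  sub : ∀ a x, x ∈ C a → x = s j' (p' a) ∨ (x ∈ W j ∧ x ∉ W j')
  slo : ∀ a i, s j i ∈ C a → i = p a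

/-- composition -/
def Stmt_RCO : Prop := ∀ (V : Type) (P : SimpleGraph V) (μ t : ℕ) (W : ℕ → Set V)
  (s : ℕ → Fin μ → V) (T : ℕ → Fin μ → Set V) (j j' j'' : ℕ) (p p' p'' : Fin t → Fin μ)
  (C C' : Fin t → Set V), Strip P μ W s T → Real P W s j p j' p' C →
  Real P W s j' p' j'' p'' C' → Real P W s j p j'' p'' (fun a => C a ∪ C' a)

/-- idle step -/
def Stmt_RID : Prop := ∀ (V : Type) (P : SimpleGraph V) (μ t : ℕ) (W : ℕ → Set V)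
  (s : ℕ → Fin μ → V) (T : ℕ → Fin μ → Set V) (j : ℕ) (p : Fin t → Fin μ),
  Strip P μ W s T → Function.Injective p → Real P W s j p (j + 1) p (fun a => T j (p a))

/-- a move -/
def Stmt_RMV : Prop := ∀ (V : Type) (P : SimpleGraph V) (μ t : ℕ) (W : ℕ → Set V)
  (s : ℕ → Fin μ → V) (T : ℕ → Fin μ → Set V) (j : ℕ) (p : Fin t → Fin μ) (a : Fin t)
  (i : Fin μ), Strip P μ W s T → Function.Injective p → (∀ b, p b ≠ i) →
  Cnn P W T (j + 1) (p a) i → ∃ C, Real P W s j p (j + 3) (Function.update p a i) C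

/-- a swap -/
def Stmt_RSW : Prop := ∀ (V : Type) (P : SimpleGraph V) (μ t : ℕ) (W : ℕ → Set V)
  (s : ℕ → Fin μ → V) (T : ℕ → Fin μ → Set V) (j0 j1 : ℕ) (p : Fin t → Fin μ) (a b : Fin t)
  (Fs : Set (Fin μ)), Strip P μ W s T → Function.Injective p → a ≠ b →
  (∀ c, c ≠ a → c ≠ b → p c ∉ Fs) → SwapAt P W s T Fs (p a) (p b) (j0 + 1) j1 →
  ∃ C, Real P W s j0 p (j1 + 1) (p ∘ (Equiv.swap a b : Equiv.Perm (Fin t))) C

/-- two tokens at joined places meet -/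
def Stmt_RME : Prop := ∀ (V : Type) (P : SimpleGraph V) (μ t : ℕ) (W : ℕ → Set V)
  (s : ℕ → Fin μ → V) (T : ℕ → Fin μ → Set V) (j : ℕ) (p : Fin t → Fin μ) (a b : Fin t),
  Strip P μ W s T → Function.Injective p → a ≠ b → Cnn P W T j (p a) (p b) →
  ∃ C, Real P W s j p (j + 1) p C ∧ ∃ x ∈ C a, ∃ y ∈ C b, P.Adj x y

/-- sequences of moves are realised -/
def Stmt_RRT : Prop := ∀ (V : Type) (P : SimpleGraph V) (μ t : ℕ) (W : ℕ → Set V)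
  (s : ℕ → Fin μ → V) (T : ℕ → Fin μ → Set V) (adj : Fin μ → Fin μ → Prop)
  (sw : Set (Fin μ) → Fin μ → Fin μ → Prop), Strip P μ W s T →
  (∀ i i', adj i i' → i ≠ i' ∧ ∀ j, Cnn P W T j i i') →
  (∀ Fs i i', sw Fs i i' → ∀ j, ∃ j0 j1, j ≤ j0 ∧ SwapAt P W s T Fs i i' j0 j1) →
  ∀ (p p' : Fin t → Fin μ), Function.Injective p → Relation.ReflTransGen (BMv adj sw) p p' →
  ∀ j, ∃ j' C, Real P W s j p j' p' C

/-- tokens give a robust `K_t` minor -/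
def Stmt_TOK : Prop := ∀ (V : Type) (P : SimpleGraph V) (μ t : ℕ) (W : ℕ → Set V)
  (s : ℕ → Fin μ → V) (T : ℕ → Fin μ → Set V) (adj : Fin μ → Fin μ → Prop)
  (sw : Set (Fin μ) → Fin μ → Fin μ → Prop), Strip P μ W s T →
  (∀ i i', adj i i' → adj i' i) → (∀ i i', adj i i' → i ≠ i' ∧ ∀ j, Cnn P W T j i i') →
  (∀ Fs i i', sw Fs i i' → sw Fs i' i) →
  (∀ Fs i i', sw Fs i i' → ∀ j, ∃ j0 j1, j ≤ j0 ∧ SwapAt P W s T Fs i i' j0 j1) →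
  Perm3 adj sw t → RobK P t

/-! ### E. Windows -/

/-- a strip with a path `q 1, ..., q L` of tracks, whose inner tracks are joined only to their two
neighbours on the path -/
structure Lane {V : Type} (P : SimpleGraph V) (S : Set V) (A : ℕ → Set V) (μ : ℕ)
    (W : ℕ → Set V) (s : ℕ → Fin μ → V) (T : ℕ → Fin μ → Set V) (q : ℕ → Fin μ) (L : ℕ) :
    Prop where
  st : Strip P μ W s T
  WS : ∀ j, W j ⊆ S
  sup : ∀ x y, P.Adj x y → x ∈ S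
  con : ∀ x ∈ S, ∀ y ∈ S, Rch P S x y
  WA : ∀ k, ∃ j, W j ⊆ A k
  four : 4 ≤ μ
  qinj : ∀ i i', 1 ≤ i → i ≤ L → 1 ≤ i' → i' ≤ L → q i = q i' → i = i'
  qadj : ∀ j i, 1 ≤ i → i < L → Cnn P W T j (q i) (q (i + 1))
  qnb : ∀ j i u, 1 < i → i < L → u ≠ q i → Cnn P W T j (q i) u → u = q (i - 1) ∨ u = q (i + 1)

/-- the vertex `x` is on the track `q i` in block `l`, or off-track and attached to it -/
def Loc {V : Type} {μ : ℕ} (P : SimpleGraph V) (W : ℕ → Set V) (T : ℕ → Fin μ → Set V)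
    (q : ℕ → Fin μ) (l i : ℕ) (x : V) : Prop :=
  x ∈ T l (q i) ∨ (x ∈ Off W T l ∧ ∃ z ∈ T l (q i), Rch P (Off W T l ∪ {z}) x z)

/-- the window between the tracks `q α`, `q β` and the slices `j0`, `j1` -/
def Win {V : Type} {μ : ℕ} (P : SimpleGraph V) (W : ℕ → Set V) (T : ℕ → Fin μ → Set V)
    (q : ℕ → Fin μ) (α β j0 j1 : ℕ) : Set V :=
  {x | ∃ l i, j0 ≤ l ∧ l < j1 ∧ ((α ≤ i ∧ i ≤ β ∧ x ∈ T l (q i)) ∨
    (α < i ∧ i < β ∧ Loc P W T q l i x))}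

/-- the core of a window -/
def Cor {V : Type} {μ : ℕ} (P : SimpleGraph V) (W : ℕ → Set V) (T : ℕ → Fin μ → Set V)
    (q : ℕ → Fin μ) (α β j0 j1 : ℕ) : Set V :=
  {x | ∃ l i, j0 + 7 ≤ l ∧ l + 8 ≤ j1 ∧ α + 5 ≤ i ∧ i + 5 ≤ β ∧ Loc P W T q l i x}

/-- block `l` contains no point of `X` -/
def Free {V : Type} {μ : ℕ} (W : ℕ → Set V) (T : ℕ → Fin μ → Set V) (X : Set V) (l : ℕ) : Prop :=
  ∀ x ∈ X, x ∉ Off W T l ∧ ∀ i, x ∉ T l i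

/-- locations change by at most one along an edge -/
def Stmt_LOC : Prop := ∀ (V : Type) (P : SimpleGraph V) (S : Set V) (A : ℕ → Set V) (μ : ℕ)
  (W : ℕ → Set V) (s : ℕ → Fin μ → V) (T : ℕ → Fin μ → Set V) (q : ℕ → Fin μ) (L l i : ℕ)
  (x y : V), Lane P S A μ W s T q L → Loc P W T q l i x → 1 < i → i < L → 1 ≤ l → P.Adj x y →
  ∃ l' i', l ≤ l' + 1 ∧ l' ≤ l + 1 ∧ i ≤ i' + 1 ∧ i' ≤ i + 1 ∧ Loc P W T q l' i' y

/-- balls are located around their centre -/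
def Stmt_BAL : Prop := ∀ (V : Type) (P : SimpleGraph V) (S : Set V) (A : ℕ → Set V) (μ : ℕ)
  (W : ℕ → Set V) (s : ℕ → Fin μ → V) (T : ℕ → Fin μ → Set V) (q : ℕ → Fin μ) (L l i r : ℕ)
  (x y : V) (w : P.Walk x y), Lane P S A μ W s T q L → Loc P W T q l i x → r + 1 < i →
  i + r < L → r + 1 ≤ l → w.length ≤ r →
  ∃ l' i', l ≤ l' + r ∧ l' ≤ l + r ∧ i ≤ i' + r ∧ i' ≤ i + r ∧ Loc P W T q l' i' y

/-- free blocks are frequent -/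
def Stmt_FRE : Prop := ∀ (V : Type) (P : SimpleGraph V) (μ : ℕ) (W : ℕ → Set V)
  (s : ℕ → Fin μ → V) (T : ℕ → Fin μ → Set V) (X : Set V) (l0 : ℕ), Strip P μ W s T →
  X.Finite → X.ncard ≤ 3 → ∃ l, l0 ≤ l ∧ l ≤ l0 + 6 ∧ Free W T X l

/-- free blocks are connected in the window -/
def Stmt_FBC : Prop := ∀ (V : Type) (P : SimpleGraph V) (S : Set V) (A : ℕ → Set V) (μ : ℕ)
  (W : ℕ → Set V) (s : ℕ → Fin μ → V) (T : ℕ → Fin μ → Set V) (q : ℕ → Fin μ)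
  (L α β j0 j1 l : ℕ) (X : Set V), Lane P S A μ W s T q L → 1 ≤ α → α + 2 ≤ β → β ≤ L →
  j0 ≤ l → l < j1 → Free W T X l →
  (∀ i x, α ≤ i → i ≤ β → x ∈ T l (q i) → Rch P (Win P W T q α β j0 j1 \ X) (s l (q α)) x) ∧
  (∀ i x, α < i → i < β → Loc P W T q l i x →
    Rch P (Win P W T q α β j0 j1 \ X) (s l (q α)) x)

/-- all free blocks of the window are connected to one corner -/
def Stmt_FCO : Prop := ∀ (V : Type) (P : SimpleGraph V) (S : Set V) (A : ℕ → Set V) (μ : ℕ)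
  (W : ℕ → Set V) (s : ℕ → Fin μ → V) (T : ℕ → Fin μ → Set V) (q : ℕ → Fin μ)
  (L α β j0 j1 : ℕ) (X : Set V), Lane P S A μ W s T q L → 1 ≤ α → α + 3 ≤ β → β ≤ L →
  j0 + 7 ≤ j1 → X.Finite → X.ncard ≤ 3 →
  ∃ τ, (τ = s j0 (q α) ∨ τ = s j0 (q β) ∨ τ = s j1 (q α) ∨ τ = s j1 (q β)) ∧ τ ∉ X ∧
    ∀ l, j0 ≤ l → l < j1 → Free W T X l →
      Rch P (Win P W T q α β j0 j1 \ X) (s l (q α)) τ

/-- the points of the core are 4-connected to the corners -/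
def Stmt_FCN : Prop := ∀ (V : Type) (P : SimpleGraph V) (S : Set V) (A : ℕ → Set V) (μ : ℕ)
  (W : ℕ → Set V) (s : ℕ → Fin μ → V) (T : ℕ → Fin μ → Set V) (q : ℕ → Fin μ)
  (L α β j0 j1 : ℕ) (X : Set V) (v : V), Lane P S A μ W s T q L → Max4 P S A → 2 ≤ α → β < L →
  X.Finite → X.ncard ≤ 3 → v ∈ Cor P W T q α β j0 j1 → v ∉ X →
  ∃ τ, (τ = s j0 (q α) ∨ τ = s j0 (q β) ∨ τ = s j1 (q α) ∨ τ = s j1 (q β)) ∧ τ ∉ X ∧
    Rch P (Win P W T q α β j0 j1 \ X) v τ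

/-- a Kuratowski model in the core of a window gives a swap -/
def Stmt_WSW : Prop := ∀ (V : Type) (P : SimpleGraph V) (S : Set V) (A : ℕ → Set V) (μ : ℕ)
  (W : ℕ → Set V) (s : ℕ → Fin μ → V) (T : ℕ → Fin μ → Set V) (q : ℕ → Fin μ)
  (L α β j0 j1 : ℕ), Lane P S A μ W s T q L → Max4 P S A → 2 ≤ α → α < β → β < L → j0 < j1 →
  ¬ NoKur P (Cor P W T q α β j0 j1) →
  SwapAt P W s T {u | ∃ i, α ≤ i ∧ i ≤ β ∧ u = q i} (q α) (q β) j0 j1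

/-- THE CORE THEOREM is `Stmt_CORE` (module COR). -/
def Stmt_COR : Prop := Stmt_CORE

end Pool.Agent.PT2
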