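import Pool.Agent.PT2.StmtsR

/-!
MP_851278_al (frozen S02151), PART II, application APA (first half) and the lifting lemma LFT:
definitions and statements of the modules. Every module XXX proves `Stmt_XXX`
(theorem `xxx_proof`), possibly from other statements.
-/

set_option autoImplicit false

namespace Pool.Agent.PT2

open Pool.Agent.ACC Pool.Agent.KUR

/-- the standing hypotheses -/
structure Sett {V : Type} (X Y : SimpleGraph V) (G : Subgroup (Equiv.Perm V)) (lam : ℕ) :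
    Prop where
  con : X.Connected
  lf : LocFin X
  aut : IsAut X G
  vf : VertFin G
  sp : Spanner X Y lam

/-- sets `D` all of whose components have at most 3 neighbours and few points of `Z` -/
def Adm {V : Type} (Y : SimpleGraph V) (Z : Set V) (c : ℕ) (D : Set V) : Prop :=
  ∀ x ∈ D, ((nbr Y (cmp Y D x)).Finite ∧ (nbr Y (cmp Y D x)).ncard ≤ 3) ∧
    (cmp Y D x ∩ Z).Finite ∧ (cmp Y D x ∩ Z).ncard ≤ c

/-- maximal such sets -/
def MaxD {V : Type} (Y : SimpleGraph V) (Z : Set V) (c : ℕ) (D : Set V) : Prop :=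
  Adm Y Z c D ∧ ∀ D' : Set V, Adm Y Z c D' → D ⊆ D' → D' = D

/-- the two sides of every cut with at most `k` edges: one has at most `c` points of `Z` -/
def Triv {V : Type} (X : SimpleGraph V) (Z : Set V) (k c : ℕ) : Prop :=
  ∀ U ∈ Small X k, ((U ∩ Z).Finite ∧ (U ∩ Z).ncard ≤ c) ∨ ((Uᶜ ∩ Z).Finite ∧ (Uᶜ ∩ Z).ncard ≤ c)

/-- everything fixed in Section 1 -/
structure Ctx {V : Type} (X Y : SimpleGraph V) (G : Subgroup (Equiv.Perm V)) (lam k c : ℕ)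
    (w : Set (Set V)) (D : Set V) : Prop where
  st : Sett X Y G lam
  small : ∀ I : Set V, (nbr Y I).Finite → (nbr Y I).ncard ≤ 3 → I ∈ Small X k
  vtx : IsVtx (EE X k) w
  inf : (ZZ X w).Infinite
  tri : Triv X (ZZ X w) k c
  max : MaxD Y (ZZ X w) c D

/-- a chain of connected cuts in the torso going to one end, with minimal separators `≥ M` -/
structure TCh {V : Type} (T : SimpleGraph V) (A : ℕ → Set V) (m M : ℕ) : Prop where
  anti : ∀ k, A (k + 1) ⊆ A k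
  leave : ∀ x, ∃ k, x ∉ A k
  bfin : ∀ k, (bd T (A k)).Finite ∧ (bd T (A k)).ncard ≤ m
  con : ∀ k, Cn T (A k)
  min : ∀ k, ∀ U : Set V, A k ⊆ U → U ⊆ A 0 → (bd T U).Finite → M ≤ (bd T U).ncard

/-! ### general lemmas -/

/-- uniform bound for balls -/
def Stmt_BLL : Prop := ∀ (V : Type) (X : SimpleGraph V) (G : Subgroup (Equiv.Perm V)),
  X.Connected → LocFin X → IsAut X G → VertFin G → ∀ r : ℕ, ∃ b : ℕ, ∀ x,
  (ball X x r).Finite ∧ (ball X x r).ncard ≤ b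

/-- a vertex separator of the spanner gives a small cut of `X` -/
def Stmt_LIN : Prop := ∀ (V : Type) (X Y : SimpleGraph V) (G : Subgroup (Equiv.Perm V))
  (lam : ℕ), Sett X Y G lam → ∃ C : ℕ, ∀ U F : Set V, F.Finite →
  (∀ x ∈ U, ∀ y, y ∉ U → Y.Adj x y → x ∈ F ∨ y ∈ F) →
  (bd X U).Finite ∧ (bd X U).ncard ≤ C * F.ncard

/-- components of the complement of a connected set are bonds -/
def Stmt_CBD : Prop := ∀ (V : Type) (X : SimpleGraph V), X.Connected → ∀ K : Set V, Cn X K →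
  (bd X K).Finite → ∀ x, x ∉ K → IsBond X (cmp X Kᶜ x) ∧ bd X (cmp X Kᶜ x) ⊆ bd X K

/-- cuts with at most `k` edges are uniformly trivial on infinite traces of level `k` -/
def Stmt_ZUT : Prop := ∀ (V : Type) (X : SimpleGraph V) (G : Subgroup (Equiv.Perm V)),
  X.Connected → LocFin X → IsAut X G → VertFin G → ∀ k : ℕ, ∃ c : ℕ, ∀ w,
  IsVtx (EE X k) w → (ZZ X w).Infinite → Triv X (ZZ X w) k c

/-- Zorn -/
def Stmt_MXD : Prop := ∀ (V : Type) (Y : SimpleGraph V) (Z : Set V) (c : ℕ),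
  ∃ D : Set V, MaxD Y Z c D

/-- adding a connected set to an admissible set -/
def Stmt_ADD : Prop := ∀ (V : Type) (Y : SimpleGraph V) (Z : Set V) (c : ℕ) (D I : Set V),
  Adm Y Z c D → Cn Y I → (nbr Y I).Finite → (nbr Y I).ncard ≤ 3 → (I ∩ Z).Finite →
  (I ∩ Z).ncard ≤ c → Disjoint (nbr Y I) D → Adm Y Z c (D ∪ I)

/-- adjacency in `ptor Y D` -/
def Stmt_PAD : Prop := ∀ (V : Type) (Y : SimpleGraph V) (D : Set V) (x y : V),
  (ptor Y D).Adj x y ↔ x ≠ y ∧ x ∉ D ∧ y ∉ D ∧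
    (Y.Adj x y ∨ ∃ z ∈ D, x ∈ nbr Y (cmp Y D z) ∧ y ∈ nbr Y (cmp Y D z))

/-- shortcuts of walks -/
def Stmt_PWL : Prop := ∀ (V : Type) (Y : SimpleGraph V) (D : Set V) (x y : V)
  (p : Y.Walk x y), x ∉ D → y ∉ D → ∃ q : (ptor Y D).Walk x y, q.length ≤ p.length ∧
  ∀ v ∈ q.support, v ∈ p.support

/-- edges of `X` between different classes have both ends in the trace; hubs meet the trace;
fibres of the projection are hubs or points; hubs are connected and have small boundary -/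
def Stmt_ZED : Prop := ∀ (V : Type) (X : SimpleGraph V) (k : ℕ) (w : Set (Set V)),
  X.Connected → IsVtx (EE X k) w →
  (∀ a b, X.Adj a b → tproj w a ≠ tproj w b → a ∈ ZZ X w ∧ b ∈ ZZ X w) ∧
  (∀ t : TV w, ∃ z ∈ ZZ X w, tproj w z = t) ∧
  (∀ t : TV w, Cn X {x | tproj w x = t} ∧ (bd X {x | tproj w x = t}).Finite ∨
    ∃ x, {y | tproj w y = t} = {x}) ∧
  (∀ C ∈ Hub w, Cn X C ∧ (bd X C).Finite ∧ (bd X C).ncard ≤ k)

/-- preimages of connected sets of the torso are connected -/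
def Stmt_PRE : Prop := ∀ (V : Type) (X : SimpleGraph V) (k : ℕ) (w : Set (Set V)),
  X.Connected → IsVtx (EE X k) w → ∀ Q : Set (TV w), Cn (torso X w) Q → Cn X (tproj w ⁻¹' Q)

/-- inaccessible torsos have infinite traces -/
def Stmt_ZIN : Prop := ∀ (V : Type) (X : SimpleGraph V) (G : Subgroup (Equiv.Perm V)),
  X.Connected → LocFin X → IsAut X G → VertFin G → ∀ (k : ℕ) (w : Set (Set V)),
  IsVtx (EE X k) w → ¬ Acc (torso X w) → (ZZ X w).Infinite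

/-! ### chains of cuts in inaccessible graphs -/

/-- a new cut of large size and the vertex of the tree at which it lives -/
def Stmt_PG1 : Prop := ∀ (V : Type) (T : SimpleGraph V) (H : Subgroup (Equiv.Perm V)),
  T.Connected → LocFin T → IsAut T H → VertFin H → ¬ Acc T → ∀ M : ℕ,
  ∃ (n : ℕ) (A : Set V) (v : Set (Set V)), M ≤ n ∧ A ∈ EE T (n + 1) ∧ IsVtx (EE T n) v ∧
    (∀ C ∈ Hub v, C ⊆ A ∨ C ⊆ Aᶜ) ∧ (A ∩ ZZ T v).Infinite ∧ (Aᶜ ∩ ZZ T v).Infinite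

/-- a translate properly contained in `A` -/
def Stmt_PG2 : Prop := ∀ (V : Type) (T : SimpleGraph V) (H : Subgroup (Equiv.Perm V)),
  T.Connected → LocFin T → IsAut T H → VertFin H → ∀ (n : ℕ) (A : Set V) (v : Set (Set V)),
  A ∈ EE T (n + 1) → IsVtx (EE T n) v → (A ∩ ZZ T v).Infinite → (Aᶜ ∩ ZZ T v).Infinite →
  ∃ g ∈ stabV H v, g '' A ⊆ A ∧ g '' A ≠ A

/-- chains exist -/
def Stmt_PNG : Prop := ∀ (V : Type) (T : SimpleGraph V) (H : Subgroup (Equiv.Perm V)),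
  T.Connected → LocFin T → IsAut T H → VertFin H → ¬ Acc T → ∀ M : ℕ,
  ∃ (A : ℕ → Set V) (m : ℕ), TCh T A m M

/-! ### the graph `P = ptor Y D` for a maximal `D` -/

/-- components of a maximal `D` are filled and have bonds as boundaries -/
def Stmt_FIL : Prop := ∀ (V : Type) (X Y : SimpleGraph V) (G : Subgroup (Equiv.Perm V))
  (lam k c : ℕ) (w : Set (Set V)) (D : Set V), Ctx X Y G lam k c w D → ∀ x ∈ D,
  Cn Y (cmp Y D x)ᶜ ∧ IsBond X (cmp Y D x) ∧ (bd X (cmp Y D x)).ncard ≤ k ∧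
  (nbr Y (cmp Y D x)).Nonempty

/-- bounded diameter of the boundaries of the components of `D` -/
def Stmt_DIA : Prop := ∀ (V : Type) (X Y : SimpleGraph V) (G : Subgroup (Equiv.Perm V))
  (lam k c : ℕ) (w : Set (Set V)) (D : Set V), Ctx X Y G lam k c w D → ∃ c1 : ℕ, ∀ z ∈ D,
  (∀ e ∈ bd X (cmp Y D z), ∀ e' ∈ bd X (cmp Y D z), ∀ a ∈ e, ∀ b ∈ e', X.dist a b ≤ c1) ∧
  (∀ e ∈ bd X (cmp Y D z), ∀ a ∈ e, ∀ b ∈ nbr Y (cmp Y D z), X.dist a b ≤ c1) ∧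
  (∀ a ∈ nbr Y (cmp Y D z), ∀ b ∈ nbr Y (cmp Y D z), X.dist a b ≤ c1)

/-- points of the trace inside `D` are close to the neighbours of their component -/
def Stmt_CVR : Prop := ∀ (V : Type) (X Y : SimpleGraph V) (G : Subgroup (Equiv.Perm V))
  (lam k c : ℕ) (w : Set (Set V)) (D : Set V), Ctx X Y G lam k c w D → ∃ c1 : ℕ, ∀ z ∈ D,
  z ∈ ZZ X w → ∀ n ∈ nbr Y (cmp Y D z), X.dist z n ≤ c1

/-- `P` is good -/
def Stmt_GDP : Prop := ∀ (V : Type) (X Y : SimpleGraph V) (G : Subgroup (Equiv.Perm V))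
  (lam k c : ℕ) (w : Set (Set V)) (D : Set V), Ctx X Y G lam k c w D → LocFin (ptor Y D) ∧
  ∃ c1 : ℕ, GoodP X (ptor Y D) Dᶜ (ZZ X w) c1

/-- crossing edges of `P` come from crossing edges of `X` -/
def Stmt_CRO : Prop := ∀ (V : Type) (X Y : SimpleGraph V) (G : Subgroup (Equiv.Perm V))
  (lam k c : ℕ) (w : Set (Set V)) (D : Set V), Ctx X Y G lam k c w D →
  ∀ (Q : Set (TV w)) (x y : V), (ptor Y D).Adj x y → tproj w x ∈ Q → tproj w y ∉ Q →
  ∃ p q, Y.Adj p q ∧ tproj w p ∈ Q ∧ tproj w q ∉ Q ∧ p ∈ ZZ X w ∧ q ∈ ZZ X w ∧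
    ((p = x ∧ q = y) ∨ ∃ z ∈ D, x ∈ nbr Y (cmp Y D z) ∧ y ∈ nbr Y (cmp Y D z) ∧
      (p ∈ cmp Y D z ∨ q ∈ cmp Y D z) ∧ (p ∈ cmp Y D z ∨ p = x ∨ p = y) ∧
      (q ∈ cmp Y D z ∨ q = x ∨ q = y))

/-- if `l` is large then balls of radius `r` around `A' l` are inside `A' k` -/
def Stmt_FAR : Prop := ∀ (V : Type) (X Y : SimpleGraph V) (G : Subgroup (Equiv.Perm V))
  (lam k c : ℕ) (w : Set (Set V)) (D : Set V) (A : ℕ → Set (TV w)) (m M : ℕ),
  Ctx X Y G lam k c w D → TCh (torso X w) A m M → ∀ j r : ℕ, ∃ l, j ≤ l ∧ ∀ x y : V,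
  tproj w x ∈ A l → X.dist x y ≤ r → tproj w y ∈ A j

/-- components of `D` with their neighbours do not go from `A' l` out of `A' j` -/
def Stmt_CMT : Prop := ∀ (V : Type) (X Y : SimpleGraph V) (G : Subgroup (Equiv.Perm V))
  (lam k c : ℕ) (w : Set (Set V)) (D : Set V) (A : ℕ → Set (TV w)) (m M : ℕ),
  Ctx X Y G lam k c w D → TCh (torso X w) A m M → ∀ j : ℕ, ∃ l, j ≤ l ∧ ∀ z ∈ D,
  ∀ x ∈ cmp Y D z ∪ nbr Y (cmp Y D z), ∀ y ∈ cmp Y D z ∪ nbr Y (cmp Y D z),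
  tproj w x ∈ A l → tproj w y ∈ A j

/-- boundaries in `P` of pulled back sets -/
def Stmt_CH1 : Prop := ∀ (V : Type) (X Y : SimpleGraph V) (G : Subgroup (Equiv.Perm V))
  (lam k c : ℕ) (w : Set (Set V)) (D : Set V), Ctx X Y G lam k c w D →
  ∀ (Q : Set (TV w)) (c2 : ℕ), (bd X (tproj w ⁻¹' Q)).Finite →
  (bd X (tproj w ⁻¹' Q)).ncard ≤ c2 →
  (bd (ptor Y D) (tproj w ⁻¹' Q)).Finite ∧ (bd (ptor Y D) (tproj w ⁻¹' Q)).ncard ≤ 19 * c2

/-- connectedness of `P` towards the end -/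
def Stmt_CH2 : Prop := ∀ (V : Type) (X Y : SimpleGraph V) (G : Subgroup (Equiv.Perm V))
  (lam k c : ℕ) (w : Set (Set V)) (D : Set V) (A : ℕ → Set (TV w)) (m M : ℕ),
  Ctx X Y G lam k c w D → TCh (torso X w) A m M → ∀ j : ℕ, ∃ l, j ≤ l ∧ ∀ x y : V,
  x ∉ D → y ∉ D → tproj w x ∈ A l → tproj w y ∈ A l →
  Rch (ptor Y D) (tproj w ⁻¹' (A j)) x y

/-- walks of `Y` and walks of `P` -/
def Stmt_SEG : Prop := ∀ (V : Type) (Y : SimpleGraph V) (D T : Set V) (u v : V), Rch Y T u v →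
  (u ∈ D ∧ v ∈ cmp Y D u) ∨ ∃ x y, x ∉ D ∧ y ∉ D ∧
    (x = u ∨ (u ∈ D ∧ x ∈ nbr Y (cmp Y D u))) ∧ (y = v ∨ (v ∈ D ∧ y ∈ nbr Y (cmp Y D v))) ∧
    Rch (ptor Y D) T x y

/-- from cuts of the graph to cuts of the torso -/
def Stmt_CNT : Prop := ∀ (V : Type) (X : SimpleGraph V) (k : ℕ) (w : Set (Set V)),
  X.Connected → IsVtx (EE X k) w → ∀ U : Set V, (bd X U).Finite →
  (bd (torso X w) {t | ∀ x, tproj w x = t → x ∈ U}).Finite ∧
  (bd (torso X w) {t | ∀ x, tproj w x = t → x ∈ U}).ncard ≤ (1 + k) * (bd X U).ncard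

/-- small sets do not separate in `P` -/
def Stmt_CH3 : Prop := ∀ (V : Type) (X Y : SimpleGraph V) (G : Subgroup (Equiv.Perm V))
  (lam k c : ℕ) (w : Set (Set V)) (D : Set V), Ctx X Y G lam k c w D → ∃ C : ℕ,
  ∀ (A : ℕ → Set (TV w)) (m M : ℕ), TCh (torso X w) A m (C * M) → ∃ j0 : ℕ, ∀ j : ℕ,
  ∀ F : Set V, F.Finite → F.ncard < M → ∃ x, x ∉ D ∧ tproj w x ∉ A j0 ∧
    ∃ y, y ∉ D ∧ tproj w y ∈ A j ∧ Rch (ptor Y D) Fᶜ x y

/-- the chain meets `P` -/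
def Stmt_CH4 : Prop := ∀ (V : Type) (X Y : SimpleGraph V) (G : Subgroup (Equiv.Perm V))
  (lam k c : ℕ) (w : Set (Set V)) (D : Set V) (A : ℕ → Set (TV w)) (m M : ℕ),
  Ctx X Y G lam k c w D → TCh (torso X w) A m M → ∀ j : ℕ, ∃ x, x ∉ D ∧ tproj w x ∈ A j

/-- end points of crossing edges of `P` are close to the trace -/
def Stmt_HZC : Prop := ∀ (V : Type) (X Y : SimpleGraph V) (G : Subgroup (Equiv.Perm V))
  (lam k c : ℕ) (w : Set (Set V)) (D : Set V), Ctx X Y G lam k c w D → ∃ c3 : ℕ,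
  ∀ (Q : Set (TV w)) (x y : V), (ptor Y D).Adj x y → tproj w x ∈ Q → tproj w y ∉ Q →
  ∃ z ∈ ZZ X w, X.dist z x ≤ c3

/-- `P` is 4-connected up to sets avoided by a connected set going to the end -/
def Stmt_MX4 : Prop := ∀ (V : Type) (X Y : SimpleGraph V) (G : Subgroup (Equiv.Perm V))
  (lam k c : ℕ) (w : Set (Set V)) (D : Set V) (A : ℕ → Set (TV w)) (m M : ℕ),
  Ctx X Y G lam k c w D → TCh (torso X w) A m M → ∀ j0 : ℕ,
  Max4 (ptor Y D) Dᶜ (fun j => tproj w ⁻¹' (A (j0 + j)))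

/-- the chain for the core theorem -/
def Stmt_CNP : Prop := ∀ (V : Type) (X Y : SimpleGraph V) (G : Subgroup (Equiv.Perm V))
  (lam k c : ℕ) (w : Set (Set V)) (D : Set V), Ctx X Y G lam k c w D → ¬ Acc (torso X w) →
  ∃ c3 : ℕ, ∀ M : ℕ, ∃ (A : ℕ → Set V) (m : ℕ), Chain (ptor Y D) Dᶜ A m M ∧
    Max4 (ptor Y D) Dᶜ A ∧
    ∀ j x y, (ptor Y D).Adj x y → x ∈ A j → y ∉ A j → x ∈ {x | ∃ z ∈ ZZ X w, X.dist z x ≤ c3}

/-- Kuratowski models live on non-isolated vertices -/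
def Stmt_NKR : Prop := ∀ (V : Type) (P : SimpleGraph V) (S B B' : Set V),
  (∀ x y, P.Adj x y → x ∈ S) → B ∩ S ⊆ B' → NoKur P B' → NoKur P B

/-- the application follows from the core theorem and the lifting lemma -/
def Stmt_APC : Prop := Stmt_CORE → Stmt_LFT → Stmt_APA

end Pool.Agent.PT2
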