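import Pool.Agent.PT2.Defs

/-!
MP_851278_al (frozen S02151), PART II, second half (squad PTR): from good graphs without
Kuratowski minors in large balls to accessibility at a vertex of the tree; assembly.
Every module XXX proves `Stmt_XXX` (theorem `xxx_proof`), possibly from other statements.
-/

set_option autoImplicit false

namespace Pool.Agent.PT2

open Pool.Agent.ACC Pool.Agent.KUR

/-- Relative accessibility at the vertex `v` of the tree: finite cuts of `X` which do not cut the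
hubs of `v` are generated by small cuts of `X`. -/
def RAcc {V : Type} (X : SimpleGraph V) (v : Set (Set V)) : Prop :=
  ∃ N : ℕ, ∀ A : Set V, (bd X A).Finite → (∀ C ∈ Hub v, C ⊆ A ∨ C ⊆ Aᶜ) → Gen (Small X N) A

/-- The Rips graph on the points of `Z`. -/
def rips {V : Type} (X : SimpleGraph V) (Z : Set V) (R : ℕ) : SimpleGraph Z :=
  (pow X R).induce Z

/-- chains of `m` steps of length at most `c` in `Z` -/
def Chn {V : Type} (X : SimpleGraph V) (Z : Set V) (c m : ℕ) (x y : V) : Prop :=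
  ∃ p : ℕ → V, p 0 = x ∧ p m = y ∧ ∀ i, p i ∈ Z ∧ X.dist (p i) (p (i + 1)) ≤ c

/-! ### A. Relative accessibility -/

/-- An accessible torso gives relative accessibility. -/
def Stmt_TOR : Prop := ∀ (V : Type) (X : SimpleGraph V) (G : Subgroup (Equiv.Perm V))
  (E v : Set (Set V)) (N : ℕ), NestFam X G E N → IsVtx E v → Acc (torso X v) → RAcc X v

/-- Relative accessibility at all vertices of the tree implies accessibility. -/
def Stmt_TOB : Prop := ∀ (V : Type) (X : SimpleGraph V) (G : Subgroup (Equiv.Perm V))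
  (E : Set (Set V)) (N : ℕ), X.Connected → IsAut X G → NestFam X G E N →
  (∀ v, IsVtx E v → RAcc X v) → Acc X

/-- Extension of a small cut of the Rips graph on the trace to a small cut of the graph. -/
def Stmt_TRX : Prop := ∀ (V : Type) (X : SimpleGraph V) (G : Subgroup (Equiv.Perm V))
  (E : Set (Set V)) (N : ℕ), X.Connected → LocFin X → IsAut X G → VertFin G →
  NestFam X G E N → ∃ R0 d : ℕ, ∀ v, IsVtx E v →
    (∀ C ∈ Hub v, C \ ZZ X v ∈ Small X d) ∧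
    ∀ R, R0 ≤ R → ∀ (m : ℕ) (W : Set (ZZ X v)), W ∈ Small (rips X (ZZ X v) R) m →
      ∃ W' : Set V, W' ∈ Small X (m + m * d) ∧ (∀ x : ZZ X v, (x : V) ∈ W' ↔ x ∈ W) ∧
        (∀ C ∈ Hub v, C \ ZZ X v ⊆ W' ∨ C \ ZZ X v ⊆ W'ᶜ) ∧
        {C | C ∈ Hub v ∧ ¬ (C ⊆ W' ∨ C ⊆ W'ᶜ)}.Finite

/-- An accessible Rips graph on the trace gives relative accessibility. -/
def Stmt_TRA : Prop := ∀ (V : Type) (X : SimpleGraph V) (G : Subgroup (Equiv.Perm V))
  (E : Set (Set V)) (N : ℕ), X.Connected → LocFin X → IsAut X G → VertFin G →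
  NestFam X G E N → ∃ R0 : ℕ, ∀ v, IsVtx E v → ∀ R, R0 ≤ R →
    Acc (rips X (ZZ X v) R) → RAcc X v

/-! ### B. The Rips graph on the trace -/

/-- The stabiliser preserves the trace. -/
def Stmt_ZST : Prop := ∀ (V : Type) (X : SimpleGraph V) (G : Subgroup (Equiv.Perm V))
  (v : Set (Set V)), IsAut X G → ∀ g ∈ stabV G v, ∀ x, g x ∈ ZZ X v ↔ x ∈ ZZ X v

/-- The Rips graph is connected, locally finite and quasi-transitive. -/
def Stmt_RIG : Prop := ∀ (V : Type) (X : SimpleGraph V) (G : Subgroup (Equiv.Perm V))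
  (E : Set (Set V)) (N : ℕ), X.Connected → LocFin X → IsAut X G → VertFin G →
  NestFam X G E N → ∃ R0 : ℕ, ∀ v, IsVtx E v → ∀ R, R0 ≤ R →
    (rips X (ZZ X v) R).Connected ∧ LocFin (rips X (ZZ X v) R) ∧
    ∃ G' : Subgroup (Equiv.Perm (ZZ X v)), IsAut (rips X (ZZ X v) R) G' ∧ VertFin G'

/-- Chains of bounded length between points of the trace at bounded distance. -/
def Stmt_CHN : Prop := ∀ (V : Type) (X : SimpleGraph V) (G : Subgroup (Equiv.Perm V))
  (E : Set (Set V)) (N : ℕ), X.Connected → LocFin X → IsAut X G → VertFin G →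
  NestFam X G E N → ∃ c : ℕ, ∀ v, IsVtx E v → ∀ R : ℕ, ∃ m : ℕ, ∀ x ∈ ZZ X v, ∀ y ∈ ZZ X v,
    X.dist x y ≤ R → Chn X (ZZ X v) c m x y

/-! ### C. Translates and limits -/

/-- Translation of good graphs. -/
def Stmt_TRN : Prop := ∀ (V : Type) (X P : SimpleGraph V) (S Z : Set V) (c : ℕ)
  (g : Equiv.Perm V), (∀ x y, X.Adj (g x) (g y) ↔ X.Adj x y) → (∀ x, g x ∈ Z ↔ x ∈ Z) →
  GoodP X P S Z c → GoodP X (P.comap g.symm) (g '' S) Z c ∧
  ∀ x r, NoKur P {y | X.dist x y ≤ r} → NoKur (P.comap g.symm) {y | X.dist (g x) y ≤ r}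

/-- All balls around one point. -/
def Stmt_UNI : Prop := ∀ (V : Type) (X : SimpleGraph V) (G : Subgroup (Equiv.Perm V))
  (k0 : ℕ) (w : Set (Set V)) (c : ℕ), X.Connected → LocFin X → IsAut X G → VertFin G →
  IsVtx (EE X k0) w →
  (∀ r : ℕ, ∃ (P : SimpleGraph V) (S : Set V) (x : V), GoodP X P S (ZZ X w) c ∧
    x ∈ S ∧ (∃ z ∈ ZZ X w, X.dist z x ≤ c) ∧ NoKur P {y | X.dist x y ≤ r}) →
  ∀ (x0 : V) (r : ℕ), ∃ (P : SimpleGraph V) (S : Set V), GoodP X P S (ZZ X w) c ∧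
    NoKur P {y | X.dist x0 y ≤ r}

/-- Minor models can be taken finite. -/
def Stmt_FMD : Prop := ∀ (V : Type) (P : SimpleGraph V),
  (Has33 P → ∃ A C, M33 P A C ∧ (∀ i, (A i).Finite) ∧ ∀ i, (C i).Finite) ∧
  (Has5 P → ∃ A, M5 P A ∧ ∀ i, (A i).Finite)

/-- The limit. -/
def Stmt_LIM : Prop := ∀ (V : Type) (X : SimpleGraph V) (Z : Set V) (c : ℕ), X.Connected →
  LocFin X →
  (∀ (x0 : V) (r : ℕ), ∃ (P : SimpleGraph V) (S : Set V), GoodP X P S Z c ∧
    NoKur P {y | X.dist x0 y ≤ r}) →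
  ∃ (P : SimpleGraph V) (S : Set V), GoodP X P S Z c ∧ ¬ Has33 P ∧ ¬ Has5 P

/-! ### D. Voronoi cells -/

/-- The hypotheses of `Stmt_VOR` for the Rips graph. -/
def Stmt_VOQ : Prop := ∀ (V : Type) (X P : SimpleGraph V) (S Z : Set V) (c c0 R : ℕ),
  X.Connected → Z.Nonempty → GoodP X P S Z c → c0 ≤ R → (rips X Z R).Connected →
  (∀ R' : ℕ, ∃ m : ℕ, ∀ x ∈ Z, ∀ y ∈ Z, X.dist x y ≤ R' → Chn X Z c0 m x y) →
  ∃ (V' : Type) (G' : SimpleGraph V') (q : Z → V') (C : ℕ), G'.Connected ∧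
    (∀ x y, G'.dist (q x) (q y) ≤ C * (rips X Z R).dist x y + C ∧
            (rips X Z R).dist x y ≤ C * G'.dist (q x) (q y) + C) ∧
    (∀ z, ∃ x, G'.dist z (q x) ≤ C) ∧
    (Has33 G' → Has33 P) ∧ (Has5 G' → Has5 P)

/-- Contractions of connected cells do not create Kuratowski minors. -/
def Stmt_MCK : Prop := ∀ (V V'' : Type) (Y : SimpleGraph V) (Y'' : SimpleGraph V'')
  (K : V → Set V''), (∀ x, (Y''.induce (K x)).Connected) →
  (∀ x y, x ≠ y → Disjoint (K x) (K y)) →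
  (∀ x y, Y.Adj x y → ∃ a ∈ K x, ∃ b ∈ K y, Y''.Adj a b) →
  (Has33 Y → Has33 Y'') ∧ (Has5 Y → Has5 Y'')

/-- Adding leaves does not create Kuratowski minors. -/
def Stmt_LFK : Prop := ∀ (V V' : Type) (G' : SimpleGraph V') (q : V → V'),
  (Has33 (leafG G' q) → Has33 G') ∧ (Has5 (leafG G' q) → Has5 G')

/-! ### E. Assembly -/

/-- APPLICATION, second half. -/
def Stmt_APB2 : Prop := ∀ (V : Type) (X : SimpleGraph V) (G : Subgroup (Equiv.Perm V))
  (k0 : ℕ) (w : Set (Set V)) (c : ℕ), X.Connected → LocFin X → IsAut X G → VertFin G →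
  IsVtx (EE X k0) w →
  (∀ r : ℕ, ∃ (P : SimpleGraph V) (S : Set V) (x : V), GoodP X P S (ZZ X w) c ∧
    x ∈ S ∧ (∃ z ∈ ZZ X w, X.dist z x ≤ c) ∧ NoKur P {y | X.dist x y ≤ r}) → RAcc X w

/-- `Stmt_APB2` from the modules. -/
def Stmt_AP2 : Prop := Stmt_NFE → Stmt_EFV → Stmt_TRA → Stmt_RIG → Stmt_CHN → Stmt_UNI →
  Stmt_LIM → Stmt_VOQ → Stmt_VOR → Stmt_MCK → Stmt_LFK → Stmt_POW → Stmt_KUR → Stmt_THA →
  Stmt_APB2

/-- The main theorem from the applications. -/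
def Stmt_ASB : Prop := Stmt_NFE → Stmt_EFV → Stmt_TOR → Stmt_TOB → Stmt_APA → Stmt_APB2 →
  Stmt_MAIN

end Pool.Agent.PT2
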